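import Pool.Agent.ZGap.AH.P
import Mathlib.NumberTheory.EulerProduct.Basic

/-!
# Sums over rough numbers
-/

open scoped ContDiff ArithmeticFunction.vonMangoldt

namespace Pool.Agent.AHD

open Complex MeasureTheory Set Pool.Agent.Hadamard Pool.Agent.HalfGap

/-! ### The Euler product bound -/

theorem A1_summable (g : ℕ → ℝ) {p : ℕ} (hp : p.Prime) :
    HasSum (fun k : ℕ => (∏ q ∈ (p ^ k).primeFactors, g q) / ((p ^ k : ℕ) : ℝ))
      (1 + g p / (p - 1)) := by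
  have hp1 : (1:ℝ) < p := by exact_mod_cast hp.one_lt
  have hp0 : (0:ℝ) < p := by linarith
  have hgeo : HasSum (fun k : ℕ => ((p:ℝ)⁻¹) ^ k) (1 - (p:ℝ)⁻¹)⁻¹ :=
    hasSum_geometric_of_lt_one (by positivity) (inv_lt_one_of_one_lt₀ hp1)
  have h1 : HasSum (fun k : ℕ => g p * (p:ℝ)⁻¹ * ((p:ℝ)⁻¹) ^ k) (g p / (p - 1)) := by
    have := hgeo.mul_left (g p * (p:ℝ)⁻¹)
    have he : g p * (p:ℝ)⁻¹ * (1 - (p:ℝ)⁻¹)⁻¹ = g p / (p - 1) := by
      have : (p:ℝ) - 1 ≠ 0 := by linarith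
      field_simp
    rwa [he] at this
  rw [← hasSum_nat_add_iff' 1]
  simp only [Finset.range_one, Finset.sum_singleton, pow_zero, Nat.primeFactors_one,
    Finset.prod_empty, Nat.cast_one, div_one, add_sub_cancel_left]
  refine h1.congr_fun ?_ |> fun h => h
  intro k
  have hk : (p ^ (k + 1)).primeFactors = {p} := Nat.primeFactors_prime_pow (Nat.succ_ne_zero k) hp
  rw [hk, Finset.prod_singleton]
  push_cast
  rw [inv_pow, pow_succ]
  field_simp

theorem A1_euler {g : ℕ → ℝ} (hg : ∀ p, 0 ≤ g p) (N : ℕ) :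
    ∑ n ∈ Finset.Icc 1 N, (∏ p ∈ n.primeFactors, g p) / (n : ℝ) ≤
      ∏ p ∈ (Finset.Icc 1 N).filter Nat.Prime, (1 + g p / ((p : ℝ) - 1)) := by
  set f : ℕ → ℝ := fun n => (∏ p ∈ n.primeFactors, g p) / (n : ℝ) with hf
  have hf0 : ∀ n, 0 ≤ f n := fun n =>
    div_nonneg (Finset.prod_nonneg fun p _ => hg p) (Nat.cast_nonneg n)
  have hf1 : f 1 = 1 := by simp [hf]
  have hmul : ∀ {m n : ℕ}, Nat.Coprime m n → f (m * n) = f m * f n := by
    intro m n hmn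
    simp only [hf]
    rw [hmn.primeFactors_mul, Finset.prod_union hmn.disjoint_primeFactors]
    push_cast
    rw [div_mul_div_comm]
  have hsum : ∀ {p : ℕ}, p.Prime → Summable (fun k : ℕ => ‖f (p ^ k)‖) := by
    intro p hp
    have := (A1_summable g hp).summable
    refine this.congr fun k => ?_
    rw [Real.norm_of_nonneg (hf0 _)]
  obtain ⟨-, h2⟩ := EulerProduct.summable_and_hasSum_smoothNumbers_prod_primesBelow_tsum
    hf1 hmul hsum (N + 1)
  have h3 : ∏ p ∈ (N + 1).primesBelow, ∑' k : ℕ, f (p ^ k) =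
      ∏ p ∈ (Finset.Icc 1 N).filter Nat.Prime, (1 + g p / ((p : ℝ) - 1)) := by
    have hs : (N + 1).primesBelow = (Finset.Icc 1 N).filter Nat.Prime := by
      ext p
      simp only [Nat.primesBelow, Finset.mem_filter, Finset.mem_range, Finset.mem_Icc]
      constructor
      · rintro ⟨a, b⟩
        exact ⟨⟨b.one_lt.le, by omega⟩, b⟩
      · rintro ⟨⟨a, a'⟩, b⟩
        exact ⟨by omega, b⟩
    rw [hs]
    refine Finset.prod_congr rfl fun p hp => ?_
    exact (A1_summable g (Finset.mem_filter.mp hp).2).tsum_eq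
  rw [h3] at h2
  classical
  have h4 : ∀ n ∈ Finset.Icc 1 N, n ∈ (N + 1).smoothNumbers := by
    intro n hn
    rw [Finset.mem_Icc] at hn
    exact Nat.mem_smoothNumbers_of_lt (by omega) (by omega)
  have h5 := Finset.sum_subtype_of_mem f h4
  rw [← h5]
  exact sum_le_hasSum _ (fun n _ => hf0 n) h2

theorem A1_prod_le_exp {s : Finset ℕ} {x : ℕ → ℝ} (hx : ∀ p ∈ s, 0 ≤ x p) :
    ∏ p ∈ s, (1 + x p) ≤ Real.exp (∑ p ∈ s, x p) := by
  rw [Real.exp_sum]
  refine Finset.prod_le_prod (fun p hp => by linarith [hx p hp]) fun p hp => ?_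
  rw [add_comm]
  exact Real.add_one_le_exp _

/-! ### Elementary facts on the weights -/

theorem A1_xip_nonneg {T : ℝ} (hT : 1 ≤ T) (p : ℕ) : 0 ≤ xip T p := by
  unfold xip
  exact div_nonneg (Real.log_natCast_nonneg p) (Real.log_nonneg hT)

theorem A1_xip_le {T : ℝ} (hT : 1 < T) {p : ℕ} (hp : 1 ≤ p) (hpT : (p : ℝ) ≤ T) :
    xip T p ≤ 1 := by
  unfold xip
  rw [div_le_one (Real.log_pos hT)]
  exact Real.log_le_log (by exact_mod_cast hp) hpT

theorem A1_Gp_nonneg (D : AData) {T : ℝ} (hT : 1 ≤ T) (p : ℕ) : 0 ≤ Gp D T p := by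
  unfold Gp
  have := A1_xip_nonneg hT p
  have := D.f_nonneg (xip T p)
  linarith

theorem A1_Gp_le (D : AData) {T : ℝ} (hT : 1 < T) {p : ℕ} (hp : 1 ≤ p) (hpT : (p : ℝ) ≤ T) :
    Gp D T p ≤ 9 := by
  unfold Gp
  have := A1_xip_le hT hp hpT
  have := D.f_le (xip T p)
  linarith

theorem A1_Gp_sq_le (D : AData) {T : ℝ} (hT : 1 < T) {p : ℕ} (hp : 1 ≤ p) (hpT : (p : ℝ) ≤ T) :
    Gp D T p ^ 2 ≤ D.f (xip T p) ^ 2 + 80 * xip T p := by
  unfold Gp
  have h1 := A1_xip_le hT hp hpT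
  have h0 := A1_xip_nonneg hT.le p
  have h2 := D.f_le (xip T p)
  have h3 := D.f_nonneg (xip T p)
  nlinarith [mul_nonneg h0 h3, mul_nonneg h0 (sub_nonneg.mpr h2), mul_nonneg h0 (sub_nonneg.mpr h1)]

theorem A1_Gb_nonneg (D : AData) {T : ℝ} (hT : 1 ≤ T) (n : ℕ) : 0 ≤ Gb D T n :=
  Finset.prod_nonneg fun p _ => A1_Gp_nonneg D hT p

/-! ### The sum over the primes -/

theorem A1_exponent : ∃ C : ℝ, 0 < C ∧ ∀ D : AData, ∃ T0 : ℝ, 1 < T0 ∧ ∀ T : ℝ, T0 ≤ T →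
    ∑ p ∈ (Finset.Icc 1 ⌊T⌋₊).filter Nat.Prime, Gp D T p ^ 2 / ((p : ℝ) - 1) ≤
      Real.log (1 / D.ep) + C := by
  obtain ⟨C1, hC1, h1⟩ := sum_log_prime
  obtain ⟨C2, hC2, h2⟩ := sg_asymp
  have hsq : Summable (fun n : ℕ => 1 / (n : ℝ) ^ 2) := Real.summable_one_div_nat_pow.mpr one_lt_two
  set S : ℝ := ∑' n : ℕ, 1 / (n : ℝ) ^ 2 with hS
  have hS0 : 0 ≤ S := tsum_nonneg fun n => by positivity
  refine ⟨C2 + 2 * S + 160 * (1 + C1), by positivity, fun D => ?_⟩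
  have hep := D.ep_pos
  have hep1 : D.ep ≤ 1 := by linarith [D.ep_le]
  refine ⟨Real.exp (1 / D.ep), by
    rw [Real.one_lt_exp_iff]; positivity, fun T hT => ?_⟩
  have hT1 : 1 < T := lt_of_lt_of_le (by rw [Real.one_lt_exp_iff]; positivity) hT
  have hT0 : 0 < T := by linarith
  have hL : 1 / D.ep ≤ Real.log T := by
    rw [← Real.log_exp (1 / D.ep)]
    exact Real.log_le_log (Real.exp_pos _) hT
  have hepL : 1 ≤ D.ep * Real.log T := by
    rw [div_le_iff₀ hep] at hL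
    linarith
  have hL1 : 1 ≤ Real.log T := le_trans (by rw [le_div_iff₀ hep]; linarith) hL
  -- termwise bound
  have hterm : ∀ p ∈ (Finset.Icc 1 ⌊T⌋₊).filter Nat.Prime,
      Gp D T p ^ 2 / ((p : ℝ) - 1) ≤
        (if D.ep < xip T p then (1:ℝ) / p else 0) + 2 * (1 / (p : ℝ) ^ 2) +
          160 * (xip T p / p) := by
    intro p hp
    rw [Finset.mem_filter, Finset.mem_Icc] at hp
    obtain ⟨⟨hp1, hpT⟩, hpp⟩ := hp
    have hpT' : (p : ℝ) ≤ T := (Nat.le_floor_iff hT0.le).mp hpT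
    have hp2 : (2:ℝ) ≤ p := by exact_mod_cast hpp.two_le
    have hx0 := A1_xip_nonneg hT1.le p
    have hsq := A1_Gp_sq_le D hT1 hp1 hpT'
    have hf2 : D.f (xip T p) ^ 2 ≤ if D.ep < xip T p then 1 else 0 := by
      split_ifs with h
      · have := D.f_le (xip T p)
        have := D.f_nonneg (xip T p)
        nlinarith
      · rw [D.f_low _ (not_lt.mp h)]; norm_num
    have hd : 0 < (p:ℝ) - 1 := by linarith
    have e1 : Gp D T p ^ 2 / ((p : ℝ) - 1) ≤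
        ((if D.ep < xip T p then 1 else 0) + 80 * xip T p) / ((p : ℝ) - 1) := by
      gcongr
      linarith
    have e2 : (1:ℝ) / ((p:ℝ) - 1) ≤ 1 / p + 2 * (1 / (p:ℝ) ^ 2) := by
      rw [div_add' _ _ _ (by positivity), div_le_div_iff₀ hd (by positivity)]
      field_simp
      nlinarith
    have e3 : (1:ℝ) / ((p:ℝ) - 1) ≤ 2 * (1 / p) := by
      rw [mul_one_div, div_le_div_iff₀ hd (by positivity)]
      linarith
    have e4 : (if D.ep < xip T p then (1:ℝ) else 0) / ((p:ℝ) - 1) ≤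
        (if D.ep < xip T p then (1:ℝ) / p else 0) + 2 * (1 / (p : ℝ) ^ 2) := by
      split_ifs with h
      · exact e2
      · rw [zero_div]; positivity
    calc Gp D T p ^ 2 / ((p : ℝ) - 1)
        ≤ (if D.ep < xip T p then (1:ℝ) else 0) / ((p:ℝ) - 1) +
          80 * xip T p * (1 / ((p:ℝ) - 1)) := by
          refine e1.trans (le_of_eq ?_)
          rw [add_div]; ring
      _ ≤ _ := by
          have : 80 * xip T p * (1 / ((p:ℝ) - 1)) ≤ 80 * xip T p * (2 * (1 / p)) :=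
            mul_le_mul_of_nonneg_left e3 (by positivity)
          have e5 : 80 * xip T p * (2 * (1 / (p:ℝ))) = 160 * (xip T p / p) := by ring
          linarith
  refine (Finset.sum_le_sum hterm).trans ?_
  rw [Finset.sum_add_distrib, Finset.sum_add_distrib, ← Finset.mul_sum, ← Finset.mul_sum]
  -- first sum
  have hs1 : ∑ p ∈ (Finset.Icc 1 ⌊T⌋₊).filter Nat.Prime,
      (if D.ep < xip T p then (1:ℝ) / p else 0) ≤ Real.log (1 / D.ep) + C2 := by
    rw [← Finset.sum_filter]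
    have hsub : ((Finset.Icc 1 ⌊T⌋₊).filter Nat.Prime).filter (fun p => D.ep < xip T p) ⊆
        PR T D.ep 1 := by
      intro p hp
      rw [Finset.mem_filter, Finset.mem_filter, Finset.mem_Icc] at hp
      obtain ⟨⟨⟨hp1, hpT⟩, hpp⟩, hx⟩ := hp
      unfold PR
      rw [Finset.mem_filter, Finset.mem_Ioc, Real.rpow_one]
      refine ⟨⟨?_, hpT⟩, hpp⟩
      rw [Nat.floor_lt (by positivity)]
      unfold xip at hx
      rw [lt_div_iff₀ (by linarith)] at hx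
      have hp0 : (0:ℝ) < p := by exact_mod_cast hp1
      rw [Real.rpow_def_of_pos hT0, ← Real.exp_log hp0]
      apply Real.exp_lt_exp.mpr
      rw [mul_comm]; exact hx
    refine (Finset.sum_le_sum_of_subset_of_nonneg hsub fun p _ _ => by positivity).trans ?_
    have h3 := h2 T D.ep 1 hT1 hep hep1 hepL
    have h4 : C2 / (D.ep * Real.log T) ≤ C2 := div_le_self hC2.le hepL
    have h5 := (abs_le.mp h3).2
    unfold sg at h5
    linarith
  have hs2 : ∑ p ∈ (Finset.Icc 1 ⌊T⌋₊).filter Nat.Prime, 1 / (p : ℝ) ^ 2 ≤ S :=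
    hsq.sum_le_tsum _ fun n _ => by positivity
  have hs3 : ∑ p ∈ (Finset.Icc 1 ⌊T⌋₊).filter Nat.Prime, xip T p / p ≤ 1 + C1 := by
    have e : ∀ p : ℕ, xip T p / p = (Real.log p / p) / Real.log T := by
      intro p; unfold xip; ring
    simp only [e]
    rw [← Finset.sum_div, div_le_iff₀ (by linarith)]
    have h3 := (abs_le.mp (h1 T hT1.le)).2
    nlinarith
  linarith

/-- A1 -/
theorem sum_Gb : ∃ C : ℝ, 0 < C ∧ ∀ D : AData, ∃ T0 : ℝ, ∀ T : ℝ, T0 ≤ T →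
    ∑ n ∈ Finset.Icc 1 ⌊T⌋₊, Gb D T n ^ 2 / n ≤ C / D.ep := by
  obtain ⟨C, hC, h⟩ := A1_exponent
  refine ⟨Real.exp C, Real.exp_pos _, fun D => ?_⟩
  obtain ⟨T0, hT0, hT⟩ := h D
  refine ⟨T0, fun T hTT => ?_⟩
  have hT1 : 1 < T := lt_of_lt_of_le hT0 hTT
  have hg : ∀ p, 0 ≤ Gp D T p ^ 2 := fun p => sq_nonneg _
  have e : ∀ n : ℕ, Gb D T n ^ 2 / (n : ℝ) = (∏ p ∈ n.primeFactors, Gp D T p ^ 2) / (n : ℝ) := by
    intro n
    unfold Gb
    rw [Finset.prod_pow]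
  simp only [e]
  refine (A1_euler hg _).trans ((A1_prod_le_exp ?_).trans ?_)
  · intro p hp
    have := (Finset.mem_filter.mp hp).2.one_lt
    have : (1:ℝ) < p := by exact_mod_cast this
    exact div_nonneg (sq_nonneg _) (by linarith)
  · calc Real.exp (∑ p ∈ (Finset.Icc 1 ⌊T⌋₊).filter Nat.Prime, Gp D T p ^ 2 / ((p : ℝ) - 1))
        ≤ Real.exp (Real.log (1 / D.ep) + C) := Real.exp_le_exp.mpr (hT T hTT)
      _ = Real.exp C / D.ep := by
          rw [Real.exp_add, Real.exp_log (by have := D.ep_pos; positivity)]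
          ring

/-! ### The window -/

theorem A1_Gb_mul_le (D : AData) {T : ℝ} (hT : 1 < T) {d m : ℕ} (hd : IsPrimePow d)
    (hm : m ≠ 0) (hdm : ((d * m : ℕ) : ℝ) ≤ T) : Gb D T (d * m) ^ 2 ≤ 81 * Gb D T m ^ 2 := by
  obtain ⟨p, k, hp, hk, rfl⟩ := (isPrimePow_nat_iff d).mp hd
  have hpf : (p ^ k * m).primeFactors = insert p m.primeFactors := by
    rw [Nat.primeFactors_mul (pow_ne_zero _ hp.ne_zero) hm,
      Nat.primeFactors_prime_pow hk.ne' hp]
    rfl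
  unfold Gb
  rw [hpf]
  have hG : 0 ≤ ∏ q ∈ m.primeFactors, Gp D T q := A1_Gb_nonneg D hT.le m
  by_cases h : p ∈ m.primeFactors
  · rw [Finset.insert_eq_of_mem h]
    nlinarith [sq_nonneg (∏ q ∈ m.primeFactors, Gp D T q)]
  · rw [Finset.prod_insert h, mul_pow]
    have hple : (p : ℝ) ≤ T := by
      refine le_trans ?_ hdm
      have : p ≤ p ^ k * m :=
        (Nat.le_self_pow hk.ne' p).trans (Nat.le_mul_of_pos_right _ (Nat.pos_of_ne_zero hm))
      exact_mod_cast this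
    have h1 := A1_Gp_le D hT hp.one_lt.le hple
    have h2 := A1_Gp_nonneg D hT.le p
    refine mul_le_mul_of_nonneg_right ?_ (sq_nonneg _)
    nlinarith

theorem A1_reindex (F H : ℕ → ℝ) (A B : ℕ) :
    ∑ n ∈ Finset.Ioc A B, ∑ x ∈ n.divisorsAntidiagonal, F x.1 * H x.2 =
      ∑ m ∈ Finset.Icc 1 B, H m * ∑ d ∈ Finset.Ioc (A / m) (B / m), F d := by
  classical
  set P : Finset (ℕ × ℕ) := ((Finset.Icc 1 B) ×ˢ (Finset.Icc 1 B)).filter
    (fun x => x.1 * x.2 ∈ Finset.Ioc A B) with hP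
  have h1 : ∑ x ∈ P, F x.1 * H x.2 =
      ∑ n ∈ Finset.Ioc A B, ∑ x ∈ n.divisorsAntidiagonal, F x.1 * H x.2 := by
    rw [← Finset.sum_fiberwise_of_maps_to (g := fun x : ℕ × ℕ => x.1 * x.2)
      (t := Finset.Ioc A B) (fun x hx => (Finset.mem_filter.mp hx).2)]
    refine Finset.sum_congr rfl fun n hn => ?_
    refine Finset.sum_congr ?_ fun _ _ => rfl
    ext x
    rw [Finset.mem_filter, Finset.mem_filter, Finset.mem_product, Finset.mem_Icc,
      Finset.mem_Icc, Nat.mem_divisorsAntidiagonal]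
    rw [Finset.mem_Ioc] at hn
    constructor
    · rintro ⟨-, h⟩
      exact ⟨h, by omega⟩
    · rintro ⟨h, h'⟩
      have hx1 : 1 ≤ x.1 := Nat.pos_of_ne_zero fun h0 => h' (by rw [← h, h0, zero_mul])
      have hx2 : 1 ≤ x.2 := Nat.pos_of_ne_zero fun h0 => h' (by rw [← h, h0, mul_zero])
      refine ⟨⟨⟨⟨hx1, ?_⟩, ⟨hx2, ?_⟩⟩, by rw [h, Finset.mem_Ioc]; exact hn⟩, h⟩
      · have := Nat.le_mul_of_pos_right x.1 hx2
        omega
      · have := Nat.le_mul_of_pos_left x.2 hx1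
        omega
  rw [← h1, hP, Finset.sum_filter, Finset.sum_product_right]
  refine Finset.sum_congr rfl fun m hm => ?_
  rw [Finset.mem_Icc] at hm
  rw [← Finset.sum_filter, Finset.mul_sum]
  refine Finset.sum_congr ?_ fun d _ => mul_comm _ _
  ext d
  rw [Finset.mem_filter, Finset.mem_Icc, Finset.mem_Ioc, Finset.mem_Ioc,
    Nat.div_lt_iff_lt_mul (by omega), Nat.le_div_iff_mul_le (by omega)]
  constructor
  · rintro ⟨-, h⟩
    exact h
  · rintro ⟨h, h'⟩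
    refine ⟨⟨?_, ?_⟩, h, h'⟩
    · rcases Nat.eq_zero_or_pos d with h0 | h0
      · rw [h0, zero_mul] at h; omega
      · exact h0
    · have := Nat.le_mul_of_pos_right d (show 0 < m by omega)
      omega

theorem A1_inner : ∃ C : ℝ, 0 < C ∧ ∀ X Y : ℝ, 1 ≤ X → X ≤ Y → ∀ m : ℕ, 1 ≤ m →
    ∑ d ∈ Finset.Ioc (⌊X⌋₊ / m) (⌊Y⌋₊ / m), Λ d / d ≤ Real.log (Y / X) + C := by
  obtain ⟨C, hC, h⟩ := Pool.Agent.ANTE.mertens_one
  refine ⟨2 * C + Real.log 4, by have := Real.log_pos (by norm_num : (1:ℝ) < 4); positivity, ?_⟩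
  intro X Y hX hXY m hm
  have hl4 : 0 < Real.log 4 := Real.log_pos (by norm_num)
  have hX0 : 0 < X := by linarith
  have hY0 : 0 < Y := by linarith
  have hm0 : (0:ℝ) < m := by exact_mod_cast hm
  have hlog : 0 ≤ Real.log (Y / X) := Real.log_nonneg (by rwa [le_div_iff₀ hX0, one_mul])
  set a := ⌊X⌋₊ / m with ha
  set b := ⌊Y⌋₊ / m with hb
  have hab : a ≤ b := Nat.div_le_div_right (Nat.floor_le_floor hXY)
  have hbY : (b : ℝ) ≤ Y / m := by
    have h1 : (b : ℝ) ≤ (⌊Y⌋₊ : ℝ) / m := Nat.cast_div_le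
    refine h1.trans ?_
    gcongr
    exact Nat.floor_le hY0.le
  rcases Nat.eq_zero_or_pos b with hb0 | hb0
  · rw [hb0]
    have : a = 0 := by rw [hb0] at hab; exact Nat.le_zero.mp hab
    rw [this]
    simp only [Finset.Ioc_self, Finset.sum_empty]
    positivity
  have hb0' : (0:ℝ) < b := by exact_mod_cast hb0
  have hB := (abs_le.mp (h b hb0)).2
  rcases Nat.eq_zero_or_pos a with ha0 | ha0
  · rw [ha0]
    have hXm : X ≤ m := by
      have h1 : ⌊X⌋₊ < m := by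
        by_contra hcon
        have : 1 ≤ a := by
          rw [ha]
          exact (Nat.one_le_div_iff (by omega)).mpr (not_lt.mp hcon)
        omega
      have h2 : X < (⌊X⌋₊ : ℝ) + 1 := Nat.lt_floor_add_one X
      have h3 : (⌊X⌋₊ : ℝ) + 1 ≤ m := by exact_mod_cast h1
      linarith
    have h1 : Real.log b ≤ Real.log (Y / X) := by
      refine Real.log_le_log hb0' (hbY.trans ?_)
      gcongr
    have h2 : Finset.Ioc 0 b = Finset.Icc 1 b := rfl
    rw [h2]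
    linarith
  · have ha0' : (0:ℝ) < a := by exact_mod_cast ha0
    have hA := (abs_le.mp (h a ha0)).1
    have hsplit : ∑ d ∈ Finset.Ioc a b, Λ d / d =
        ∑ d ∈ Finset.Icc 1 b, Λ d / d - ∑ d ∈ Finset.Icc 1 a, Λ d / d := by
      have h1 : Finset.Icc 1 b = Finset.Ioc 0 b := rfl
      have h2 : Finset.Icc 1 a = Finset.Ioc 0 a := rfl
      rw [h1, h2, eq_sub_iff_add_eq, add_comm]
      exact Finset.sum_Ioc_consecutive _ (Nat.zero_le a) hab
    rw [hsplit]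
    have h1 : X / (4 * m) ≤ a := by
      have e1 : (⌊X⌋₊ : ℝ) < (a + 1) * m := by
        have := Nat.lt_mul_div_succ ⌊X⌋₊ (show 0 < m by omega)
        have e : ⌊X⌋₊ < (a + 1) * m := by rw [ha, mul_comm]; exact this
        exact_mod_cast e
      have e2 : X < (⌊X⌋₊ : ℝ) + 1 := Nat.lt_floor_add_one X
      have e3 : (1:ℝ) ≤ (⌊X⌋₊ : ℝ) := by
        have : 1 ≤ ⌊X⌋₊ := Nat.le_floor (by exact_mod_cast hX)
        exact_mod_cast this
      have e4 : (1:ℝ) ≤ a := by exact_mod_cast ha0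
      rw [div_le_iff₀ (by positivity)]
      nlinarith
    have h2 : Real.log b - Real.log a ≤ Real.log (Y / X) + Real.log 4 := by
      have e1 : Real.log b ≤ Real.log (Y / m) := Real.log_le_log hb0' hbY
      have e2 : Real.log (X / (4 * m)) ≤ Real.log a := Real.log_le_log (by positivity) h1
      have e3 : Real.log (Y / m) - Real.log (X / (4 * m)) = Real.log (Y / X) + Real.log 4 := by
        rw [Real.log_div hY0.ne' hm0.ne', Real.log_div hX0.ne' (by positivity),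
          Real.log_mul (by norm_num) hm0.ne', Real.log_div hY0.ne' hX0.ne']
        ring
      linarith
    linarith

/-- A2: the window lemma -/
theorem window_Gb : ∃ C : ℝ, 0 < C ∧ ∀ D : AData, ∃ T0 : ℝ, ∀ T : ℝ, T0 ≤ T →
    ∀ X Y : ℝ, T ^ (1 / 2 : ℝ) ≤ X → X ≤ Y → Y ≤ T →
    ∑ n ∈ Finset.Ioc ⌊X⌋₊ ⌊Y⌋₊, Gb D T n ^ 2 / n ≤
      C / D.ep * ((Real.log (Y / X) + 1) / Real.log T) := by
  obtain ⟨C1, hC1, h1⟩ := sum_Gb
  obtain ⟨C0, hC0, h0⟩ := A1_inner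
  refine ⟨162 * C1 * (C0 + 1), by positivity, fun D => ?_⟩
  obtain ⟨T0, hT0⟩ := h1 D
  have hep := D.ep_pos
  refine ⟨max T0 2, fun T hT X Y hX hXY hY => ?_⟩
  have hT2 : 2 ≤ T := (le_max_right _ _).trans hT
  have hT1 : 1 < T := by linarith
  have hTpos : 0 < T := by linarith
  have hL : 0 < Real.log T := Real.log_pos hT1
  have hX1 : 1 ≤ X := le_trans (Real.one_le_rpow hT1.le (by norm_num)) hX
  have hX0 : 0 < X := by linarith
  have hY0 : 0 < Y := by linarith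
  have hlog : 0 ≤ Real.log (Y / X) := Real.log_nonneg (by rwa [le_div_iff₀ hX0, one_mul])
  -- step 1
  have s1 : ∀ n ∈ Finset.Ioc ⌊X⌋₊ ⌊Y⌋₊, Gb D T n ^ 2 / n ≤
      2 / Real.log T * (Real.log n * (Gb D T n ^ 2 / n)) := by
    intro n hn
    rw [Finset.mem_Ioc] at hn
    have hXn : X < n := Nat.lt_of_floor_lt hn.1
    have e1 : Real.log T / 2 ≤ Real.log n := by
      have : Real.log (T ^ (1 / 2 : ℝ)) = 1 / 2 * Real.log T := Real.log_rpow hTpos _
      have e : Real.log (T ^ (1 / 2 : ℝ)) ≤ Real.log n :=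
        Real.log_le_log (by positivity) (hX.trans hXn.le)
      linarith
    have e2 : 0 ≤ Gb D T n ^ 2 / n := by positivity
    have e3 : 1 ≤ 2 / Real.log T * Real.log n := by
      rw [div_mul_eq_mul_div, le_div_iff₀ hL]
      linarith
    calc Gb D T n ^ 2 / n = 1 * (Gb D T n ^ 2 / n) := (one_mul _).symm
      _ ≤ (2 / Real.log T * Real.log n) * (Gb D T n ^ 2 / n) :=
        mul_le_mul_of_nonneg_right e3 e2
      _ = _ := by ring
  -- step 2
  have s2 : ∀ n ∈ Finset.Ioc ⌊X⌋₊ ⌊Y⌋₊, Real.log n * (Gb D T n ^ 2 / n) ≤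
      81 * ∑ x ∈ n.divisorsAntidiagonal, (Λ x.1 / x.1) * (Gb D T x.2 ^ 2 / x.2) := by
    intro n hn
    rw [Finset.mem_Ioc] at hn
    have hnY : (n : ℝ) ≤ T := ((Nat.le_floor_iff hY0.le).mp hn.2).trans hY
    have hn0 : n ≠ 0 := by omega
    have e1 : Real.log n = ∑ x ∈ n.divisorsAntidiagonal, Λ x.1 := by
      rw [Nat.sum_divisorsAntidiagonal (fun i _ => Λ i)]
      exact ArithmeticFunction.vonMangoldt_sum.symm
    rw [e1, Finset.sum_mul, Finset.mul_sum]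
    refine Finset.sum_le_sum fun x hx => ?_
    obtain ⟨hx, -⟩ := Nat.mem_divisorsAntidiagonal.mp hx
    have hx1 : x.1 ≠ 0 := fun h => hn0 (by rw [← hx, h, zero_mul])
    have hx2 : x.2 ≠ 0 := fun h => hn0 (by rw [← hx, h, mul_zero])
    by_cases hL0 : Λ x.1 = 0
    · rw [hL0]; simp
    · have hpp : IsPrimePow x.1 := ArithmeticFunction.vonMangoldt_ne_zero_iff.mp hL0
      have e2 := A1_Gb_mul_le D hT1 hpp hx2 (by rw [hx]; exact hnY)
      rw [hx] at e2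
      have e3 : (n : ℝ) = x.1 * x.2 := by rw [← hx]; push_cast; rfl
      have hLn : 0 ≤ Λ x.1 := ArithmeticFunction.vonMangoldt_nonneg
      have hx1' : (0:ℝ) < x.1 := by exact_mod_cast Nat.pos_of_ne_zero hx1
      have hx2' : (0:ℝ) < x.2 := by exact_mod_cast Nat.pos_of_ne_zero hx2
      calc Λ x.1 * (Gb D T n ^ 2 / n) ≤ Λ x.1 * (81 * Gb D T x.2 ^ 2 / n) := by gcongr
        _ = _ := by rw [e3]; field_simp
  -- step 3
  have s3 : ∑ n ∈ Finset.Ioc ⌊X⌋₊ ⌊Y⌋₊, Gb D T n ^ 2 / n ≤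
      2 / Real.log T * (81 * ∑ m ∈ Finset.Icc 1 ⌊Y⌋₊, (Gb D T m ^ 2 / m) *
        ∑ d ∈ Finset.Ioc (⌊X⌋₊ / m) (⌊Y⌋₊ / m), Λ d / d) := by
    rw [← A1_reindex (fun d => Λ d / d) (fun m => Gb D T m ^ 2 / m)]
    calc ∑ n ∈ Finset.Ioc ⌊X⌋₊ ⌊Y⌋₊, Gb D T n ^ 2 / n
        ≤ ∑ n ∈ Finset.Ioc ⌊X⌋₊ ⌊Y⌋₊, 2 / Real.log T * (81 *
          ∑ x ∈ n.divisorsAntidiagonal, (Λ x.1 / x.1) * (Gb D T x.2 ^ 2 / x.2)) := by
          refine Finset.sum_le_sum fun n hn => (s1 n hn).trans ?_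
          exact mul_le_mul_of_nonneg_left (s2 n hn) (by positivity)
      _ = _ := by rw [← Finset.mul_sum, ← Finset.mul_sum]
  refine s3.trans ?_
  have s4 : ∑ m ∈ Finset.Icc 1 ⌊Y⌋₊, (Gb D T m ^ 2 / m) *
        ∑ d ∈ Finset.Ioc (⌊X⌋₊ / m) (⌊Y⌋₊ / m), Λ d / d ≤
      C1 / D.ep * (Real.log (Y / X) + C0) := by
    calc ∑ m ∈ Finset.Icc 1 ⌊Y⌋₊, (Gb D T m ^ 2 / m) *
          ∑ d ∈ Finset.Ioc (⌊X⌋₊ / m) (⌊Y⌋₊ / m), Λ d / d
        ≤ ∑ m ∈ Finset.Icc 1 ⌊Y⌋₊, (Gb D T m ^ 2 / m) * (Real.log (Y / X) + C0) := by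
          refine Finset.sum_le_sum fun m hm => ?_
          rw [Finset.mem_Icc] at hm
          exact mul_le_mul_of_nonneg_left (h0 X Y hX1 hXY m hm.1) (by positivity)
      _ = (∑ m ∈ Finset.Icc 1 ⌊Y⌋₊, (Gb D T m ^ 2 / m)) * (Real.log (Y / X) + C0) := by
          rw [Finset.sum_mul]
      _ ≤ _ := by
          refine mul_le_mul_of_nonneg_right ?_ (by positivity)
          refine le_trans ?_ (hT0 T ((le_max_left _ _).trans hT))
          refine Finset.sum_le_sum_of_subset_of_nonneg ?_ fun n _ _ => by positivity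
          exact Finset.Icc_subset_Icc_right (Nat.floor_le_floor hY)
  calc 2 / Real.log T * (81 * ∑ m ∈ Finset.Icc 1 ⌊Y⌋₊, (Gb D T m ^ 2 / m) *
        ∑ d ∈ Finset.Ioc (⌊X⌋₊ / m) (⌊Y⌋₊ / m), Λ d / d)
      ≤ 2 / Real.log T * (81 * (C1 / D.ep * (Real.log (Y / X) + C0))) := by gcongr
    _ ≤ 2 / Real.log T * (81 * (C1 / D.ep * ((C0 + 1) * (Real.log (Y / X) + 1)))) := by
        gcongr
        nlinarith
    _ = _ := by field_simp; ring

end Pool.Agent.AHD
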