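import Pool.Agent.ZGap.AH.Defs3

/-!
# Size of the coefficients
-/

open scoped ContDiff

namespace Pool.Agent.AHD

open Complex MeasureTheory Set Pool.Agent.Hadamard Pool.Agent.HalfGap

/-- `n ↦ n^{-iα}` as an arithmetic function. -/
noncomputable def A3_chi (α : ℝ) : ArithmeticFunction ℂ :=
  ⟨fun n => if n = 0 then 0 else (n : ℂ) ^ (-(α * I : ℂ)), by simp⟩

lemma A3_chi_apply (α : ℝ) {n : ℕ} (hn : n ≠ 0) : A3_chi α n = (n : ℂ) ^ (-(α * I : ℂ)) := by
  show (if n = 0 then 0 else (n : ℂ) ^ (-(α * I : ℂ))) = _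
  rw [if_neg hn]

lemma A3_chi_mult (α : ℝ) : (A3_chi α).IsMultiplicative := by
  rw [ArithmeticFunction.IsMultiplicative.iff_ne_zero]
  refine ⟨by rw [A3_chi_apply α one_ne_zero]; simp, ?_⟩
  intro m n hm hn _
  rw [A3_chi_apply α hm, A3_chi_apply α hn, A3_chi_apply α (mul_ne_zero hm hn), Nat.cast_mul,
    Complex.natCast_mul_natCast_cpow]

/-- The coefficients `gco` as an arithmetic function. -/
noncomputable def A3_gc (α : ℝ) : ArithmeticFunction ℂ :=
  ((ArithmeticFunction.moebius : ArithmeticFunction ℤ) : ArithmeticFunction ℂ) * A3_chi α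

lemma A3_gc_apply (α : ℝ) (n : ℕ) : A3_gc α n = gco α n := by
  unfold A3_gc gco
  rw [ArithmeticFunction.mul_apply]
  refine Finset.sum_congr rfl fun d hd => ?_
  have hd2 : d.2 ≠ 0 := by
    rw [Nat.mem_divisorsAntidiagonal] at hd
    intro h
    rw [h, mul_zero] at hd
    exact hd.2 hd.1.symm
  rw [A3_chi_apply α hd2]
  rfl

lemma A3_gc_mult (α : ℝ) : (A3_gc α).IsMultiplicative :=
  (ArithmeticFunction.isMultiplicative_moebius.intCast).mul (A3_chi_mult α)

/-- `‖gco‖` as an arithmetic function. -/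
noncomputable def A3_g (α : ℝ) : ArithmeticFunction ℝ :=
  ⟨fun n => ‖gco α n‖, by simp [gco_zero]⟩

lemma A3_g_apply (α : ℝ) (n : ℕ) : A3_g α n = ‖gco α n‖ := rfl

lemma A3_g_mult (α : ℝ) : (A3_g α).IsMultiplicative := by
  refine ⟨?_, ?_⟩
  · rw [A3_g_apply, ← A3_gc_apply, (A3_gc_mult α).1, norm_one]
  · intro m n h
    rw [A3_g_apply, A3_g_apply, A3_g_apply, ← A3_gc_apply, ← A3_gc_apply, ← A3_gc_apply,
      (A3_gc_mult α).2 h, norm_mul]

/-- `|μ(n)| ∏ f(ξ_p)` as an arithmetic function. -/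
noncomputable def A3_h (D : AData) (T : ℝ) : ArithmeticFunction ℝ :=
  ⟨fun n => |((ArithmeticFunction.moebius n : ℤ) : ℝ)| * ∏ p ∈ n.primeFactors, D.f (xip T p),
    by simp⟩

lemma A3_h_apply (D : AData) (T : ℝ) (n : ℕ) : A3_h D T n =
    |((ArithmeticFunction.moebius n : ℤ) : ℝ)| * ∏ p ∈ n.primeFactors, D.f (xip T p) := rfl

lemma A3_h_mult (D : AData) (T : ℝ) : (A3_h D T).IsMultiplicative := by
  refine ⟨by rw [A3_h_apply]; simp, ?_⟩
  intro m n h
  rw [A3_h_apply, A3_h_apply, A3_h_apply, ArithmeticFunction.isMultiplicative_moebius.2 h,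
    Nat.Coprime.primeFactors_mul h, Finset.prod_union h.disjoint_primeFactors]
  push_cast
  rw [abs_mul]
  ring

lemma A3_h_nonneg (D : AData) (T : ℝ) (n : ℕ) : 0 ≤ A3_h D T n := by
  rw [A3_h_apply]
  exact mul_nonneg (abs_nonneg _) (Finset.prod_nonneg fun p _ => D.f_nonneg _)

lemma A3_av_le (D : AData) (T : ℝ) (n : ℕ) : |av D T n| ≤ A3_h D T n := by
  unfold av
  rw [A3_h_apply, abs_mul, abs_mul, abs_of_nonneg (D.F_nonneg _),
    abs_of_nonneg (Finset.prod_nonneg fun p _ => D.f_nonneg _)]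
  refine (mul_le_of_le_one_right ?_ (D.F_le _)).trans (le_of_eq rfl)
  exact mul_nonneg (abs_nonneg _) (Finset.prod_nonneg fun p _ => D.f_nonneg _)

lemma A3_bn_le (D : AData) (T α : ℝ) (n : ℕ) : ‖bn D T α n‖ ≤ (A3_h D T * A3_g α) n := by
  unfold bn
  rw [ArithmeticFunction.mul_apply]
  refine (norm_sum_le _ _).trans (Finset.sum_le_sum fun x hx => ?_)
  have hx1 : x.1 ≠ 0 := by
    rw [Nat.mem_divisorsAntidiagonal] at hx
    intro h
    rw [h, zero_mul] at hx
    exact hx.2 hx.1.symm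
  rw [norm_mul, norm_mul, norm_cpow_I α hx1, mul_one, Complex.norm_real, Real.norm_eq_abs,
    A3_g_apply]
  exact mul_le_mul_of_nonneg_right (A3_av_le D T x.1) (norm_nonneg _)

/-- The difference of two consecutive powers. -/
lemma A3_norm_sub_le {α : ℝ} (hα : 0 ≤ α) {p : ℕ} (hp : 1 ≤ p) :
    ‖(p : ℂ) ^ (-(α * I : ℂ)) - 1‖ ≤ α * Real.log p := by
  have hp0 : (p : ℂ) ≠ 0 := by
    have : p ≠ 0 := by omega
    exact_mod_cast this
  have h1 : (p : ℂ) ^ (-(α * I : ℂ)) = Complex.exp (((-(α * Real.log p) : ℝ) : ℂ) * I) := by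
    rw [Complex.cpow_def_of_ne_zero hp0, ← Complex.natCast_log]
    congr 1
    push_cast
    ring
  rw [h1]
  have h2 : ‖Complex.exp (((-(α * Real.log p) : ℝ) : ℂ) * I) - 1‖ ≤ |-(α * Real.log p)| := by
    have := Real.norm_exp_I_mul_ofReal_sub_one_le (x := -(α * Real.log p))
    rw [mul_comm]
    simpa [Real.norm_eq_abs] using this
  refine h2.trans (le_of_eq ?_)
  rw [abs_neg, abs_of_nonneg]
  exact mul_nonneg hα (Real.log_natCast_nonneg p)

lemma A3_gc_pow (α : ℝ) {p : ℕ} (hp : p.Prime) (k : ℕ) :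
    gco α (p ^ (k + 1)) = (p : ℂ) ^ (-(α * I : ℂ)) * ((p : ℂ) ^ (-(α * I : ℂ))) ^ k -
      ((p : ℂ) ^ (-(α * I : ℂ))) ^ k := by
  unfold gco
  rw [Nat.sum_divisorsAntidiagonal (f := fun a b => ((ArithmeticFunction.moebius a : ℤ) : ℂ) *
    (b : ℂ) ^ (-(α * I : ℂ))), Nat.sum_divisors_prime_pow hp]
  have hc : ∀ j : ℕ, ((p ^ j : ℕ) : ℂ) ^ (-(α * I : ℂ)) = ((p : ℂ) ^ (-(α * I : ℂ))) ^ j := by
    intro j
    induction j with
    | zero => simp
    | succ j ih =>
      rw [pow_succ, Nat.cast_mul, Complex.natCast_mul_natCast_cpow, ih, pow_succ]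
  rw [Finset.sum_range_succ', Finset.sum_range_succ']
  have h0 : ∑ j ∈ Finset.range k, ((ArithmeticFunction.moebius (p ^ (j + 1 + 1)) : ℤ) : ℂ) *
      ((p ^ (k + 1) / p ^ (j + 1 + 1) : ℕ) : ℂ) ^ (-(α * I : ℂ)) = 0 := by
    refine Finset.sum_eq_zero fun j _ => ?_
    rw [ArithmeticFunction.moebius_apply_prime_pow hp (by omega), if_neg (by omega)]
    simp
  rw [h0, zero_add]
  have e1 : p ^ (k + 1) / p ^ (0 + 1) = p ^ k := by
    rw [zero_add, pow_one, pow_succ, Nat.mul_div_cancel _ hp.pos]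
  have e2 : p ^ (k + 1) / p ^ 0 = p ^ (k + 1) := by simp
  rw [e1, e2, hc, hc, zero_add, pow_one, ArithmeticFunction.moebius_apply_prime hp, pow_zero,
    ArithmeticFunction.moebius_apply_one]
  push_cast
  rw [pow_succ]
  simp
  ring

lemma A3_norm_gc_pow {α : ℝ} (hα : 0 ≤ α) {p : ℕ} (hp : p.Prime) (k : ℕ) :
    ‖gco α (p ^ (k + 1))‖ ≤ α * Real.log p := by
  rw [A3_gc_pow α hp k]
  have h1 : ‖(p : ℂ) ^ (-(α * I : ℂ))‖ = 1 := norm_cpow_I α hp.ne_zero
  have h2 : (p : ℂ) ^ (-(α * I : ℂ)) * ((p : ℂ) ^ (-(α * I : ℂ))) ^ k -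
      ((p : ℂ) ^ (-(α * I : ℂ))) ^ k = ((p : ℂ) ^ (-(α * I : ℂ)) - 1) *
        ((p : ℂ) ^ (-(α * I : ℂ))) ^ k := by
    ring
  rw [h2, norm_mul, norm_pow, h1, one_pow, mul_one]
  exact A3_norm_sub_le hα hp.one_le

/-- The local factors. -/
lemma A3_local (D : AData) {τ T : ℝ} (hτ : 0 ≤ τ) (hτ' : τ ≤ 1 / 2) (hT : Real.exp 1 ≤ T)
    {p : ℕ} (hp : p.Prime) {k : ℕ} (hk : 1 ≤ k) :
    (A3_h D T * A3_g (alp τ T)) (p ^ k) ≤ Gp D T p := by
  obtain ⟨k, rfl⟩ : ∃ j, k = j + 1 := ⟨k - 1, by omega⟩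
  have hL : 0 < Real.log T := by
    have : (1:ℝ) ≤ Real.log T := by
      rw [← Real.log_exp 1]
      exact Real.log_le_log (Real.exp_pos 1) hT
    linarith
  have hα : 0 ≤ alp τ T := by
    unfold alp
    have := Real.pi_pos
    positivity
  have hlogp : 0 ≤ Real.log p := Real.log_natCast_nonneg p
  have hxi0 : 0 ≤ xip T p := by unfold xip; positivity
  have hxi : alp τ T * Real.log p ≤ 4 * xip T p := by
    unfold alp xip
    rw [div_mul_eq_mul_div, mul_div_assoc' , div_le_div_iff_of_pos_right hL]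
    have h3 := Real.pi_lt_four
    have h4 := Real.pi_pos
    have : 2 * Real.pi * τ ≤ 4 := by nlinarith
    exact mul_le_mul_of_nonneg_right this hlogp
  have hf0 := D.f_nonneg (xip T p)
  have hf1 := D.f_le (xip T p)
  rw [ArithmeticFunction.mul_apply,
    Nat.sum_divisorsAntidiagonal (f := fun a b => A3_h D T a * A3_g (alp τ T) b),
    Nat.sum_divisors_prime_pow hp, Finset.sum_range_succ', Finset.sum_range_succ']
  have h0 : ∑ j ∈ Finset.range k, A3_h D T (p ^ (j + 1 + 1)) *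
      A3_g (alp τ T) (p ^ (k + 1) / p ^ (j + 1 + 1)) = 0 := by
    refine Finset.sum_eq_zero fun j _ => ?_
    rw [A3_h_apply, ArithmeticFunction.moebius_apply_prime_pow hp (by omega), if_neg (by omega)]
    simp
  have e1 : p ^ (k + 1) / p ^ (0 + 1) = p ^ k := by
    rw [zero_add, pow_one, pow_succ, Nat.mul_div_cancel _ hp.pos]
  have e2 : p ^ (k + 1) / p ^ 0 = p ^ (k + 1) := by simp
  have h1 : A3_h D T (p ^ (0 + 1)) = D.f (xip T p) := by
    rw [zero_add, pow_one, A3_h_apply, ArithmeticFunction.moebius_apply_prime hp,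
      Nat.Prime.primeFactors hp, Finset.prod_singleton]
    simp
  have h2 : A3_h D T (p ^ 0) = 1 := by
    rw [pow_zero]; exact (A3_h_mult D T).1
  rw [h0, zero_add, e1, e2, h1, h2, one_mul, A3_g_apply, A3_g_apply]
  have h3 := (A3_norm_gc_pow hα hp k).trans hxi
  unfold Gp
  rcases Nat.eq_zero_or_pos k with rfl | hk0
  · have : ‖gco (alp τ T) (p ^ 0)‖ = 1 := by
      rw [pow_zero]; exact (A3_g_mult (alp τ T)).1
    rw [this]
    linarith
  · obtain ⟨j, rfl⟩ : ∃ j, k = j + 1 := ⟨k - 1, by omega⟩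
    have h4 := (A3_norm_gc_pow hα hp j).trans hxi
    have h5 : D.f (xip T p) * ‖gco (alp τ T) (p ^ (j + 1))‖ ≤ 1 * (4 * xip T p) :=
      mul_le_mul hf1 h4 (norm_nonneg _) zero_le_one
    linarith

/-- A3 -/
theorem norm_bn_le (D : AData) {τ T : ℝ} (hτ : 0 ≤ τ) (hτ' : τ ≤ 1 / 2) (hT : Real.exp 1 ≤ T)
    {n : ℕ} (hn : 1 ≤ n) (hnT : (n : ℝ) ≤ T) :
    ‖bn D T (alp τ T) n‖ ≤ Gb D T n ∧ |av D T n| ≤ Gb D T n := by
  have hL : 0 < Real.log T := by
    have : (1:ℝ) ≤ Real.log T := by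
      rw [← Real.log_exp 1]
      exact Real.log_le_log (Real.exp_pos 1) hT
    linarith
  have hn0 : n ≠ 0 := by omega
  have hg0 : ∀ m, 0 ≤ A3_g (alp τ T) m := fun m => by rw [A3_g_apply]; exact norm_nonneg _
  have hhg0 : ∀ m, 0 ≤ (A3_h D T * A3_g (alp τ T)) m := by
    intro m
    rw [ArithmeticFunction.mul_apply]
    exact Finset.sum_nonneg fun x _ => mul_nonneg (A3_h_nonneg D T _) (hg0 _)
  have hxi0 : ∀ p : ℕ, 0 ≤ xip T p := fun p => by
    unfold xip
    have := Real.log_natCast_nonneg p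
    positivity
  constructor
  · refine (A3_bn_le D T (alp τ T) n).trans ?_
    rw [ArithmeticFunction.IsMultiplicative.multiplicative_factorization _
      ((A3_h_mult D T).mul (A3_g_mult (alp τ T))) hn0]
    unfold Gb Finsupp.prod
    rw [Nat.support_factorization]
    refine Finset.prod_le_prod (fun p _ => hhg0 _) fun p hp => ?_
    have hpp := Nat.prime_of_mem_primeFactors hp
    refine A3_local D hτ hτ' hT hpp ?_
    exact hpp.factorization_pos_of_dvd hn0 (Nat.dvd_of_mem_primeFactors hp)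
  · refine (A3_av_le D T n).trans ?_
    rw [A3_h_apply]
    have h2 : |((ArithmeticFunction.moebius n : ℤ) : ℝ)| ≤ 1 := by
      have : |ArithmeticFunction.moebius n| ≤ 1 := ArithmeticFunction.abs_moebius_le_one
      exact_mod_cast this
    have h3 : ∏ p ∈ n.primeFactors, D.f (xip T p) ≤ Gb D T n := by
      unfold Gb Gp
      refine Finset.prod_le_prod (fun p _ => D.f_nonneg _) fun p _ => ?_
      linarith [hxi0 p]
    calc |((ArithmeticFunction.moebius n : ℤ) : ℝ)| * ∏ p ∈ n.primeFactors, D.f (xip T p)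
        ≤ 1 * ∏ p ∈ n.primeFactors, D.f (xip T p) :=
          mul_le_mul_of_nonneg_right h2 (Finset.prod_nonneg fun p _ => D.f_nonneg _)
      _ ≤ Gb D T n := by rw [one_mul]; exact h3

end Pool.Agent.AHD
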