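import Pool.Agent.ZGap.AH.A1
import Pool.Agent.ZGap.AH.A3

/-!
# The coefficients b and a
-/

open scoped ContDiff

namespace Pool.Agent.AHD

open Complex MeasureTheory Set Pool.Agent.Hadamard Pool.Agent.HalfGap

/-- Difference of two Euler products dominates the finite sums of the differences. -/
theorem A4_euler (H K : ℕ → ℝ) (hH1 : H 1 = 1) (hK1 : K 1 = 1)
    (hHm : ∀ {m n : ℕ}, Nat.Coprime m n → H (m * n) = H m * H n)
    (hKm : ∀ {m n : ℕ}, Nat.Coprime m n → K (m * n) = K m * K n)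
    (hHs : ∀ {p : ℕ}, p.Prime → Summable (fun n : ℕ => ‖H (p ^ n)‖))
    (hKs : ∀ {p : ℕ}, p.Prime → Summable (fun n : ℕ => ‖K (p ^ n)‖))
    (hHK : ∀ n, K n ≤ H n) (N : ℕ) :
    ∑ n ∈ Finset.Icc 1 N, (H n - K n) ≤
      ∏ p ∈ (Finset.Icc 1 N).filter Nat.Prime, ∑' k, H (p ^ k) -
      ∏ p ∈ (Finset.Icc 1 N).filter Nat.Prime, ∑' k, K (p ^ k) := by
  have h1 := (EulerProduct.summable_and_hasSum_factoredNumbers_prod_filter_prime_tsum
    hH1 hHm hHs (Finset.Icc 1 N)).2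
  have h2 := (EulerProduct.summable_and_hasSum_factoredNumbers_prod_filter_prime_tsum
    hK1 hKm hKs (Finset.Icc 1 N)).2
  have h3 := h1.sub h2
  have h4 : ∀ n ∈ Finset.Icc 1 N, n ∈ Nat.factoredNumbers (Finset.Icc 1 N) := by
    intro n hn
    rw [Finset.mem_Icc] at hn
    rw [Nat.mem_factoredNumbers']
    intro p hp hpn
    rw [Finset.mem_Icc]
    exact ⟨hp.one_lt.le, (Nat.le_of_dvd (by omega) hpn).trans hn.2⟩
  have h5 := sum_le_hasSum (Finset.subtype (· ∈ Nat.factoredNumbers (Finset.Icc 1 N))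
    (Finset.Icc 1 N)) (fun n _ => sub_nonneg.2 (hHK n.1)) h3
  rw [Finset.sum_subtype_of_mem (fun n => H n - K n) h4] at h5
  exact h5

theorem A4_prod_exp {ι : Type*} (s : Finset ι) (A B y : ι → ℝ) (hA : ∀ i ∈ s, 1 ≤ A i)
    (hy : ∀ i ∈ s, 0 ≤ y i) (hB0 : ∀ i ∈ s, 0 ≤ B i) (hB : ∀ i ∈ s, B i ≤ A i + y i) :
    ∏ i ∈ s, B i ≤ (∏ i ∈ s, A i) * Real.exp (∑ i ∈ s, y i) := by
  rw [Real.exp_sum, ← Finset.prod_mul_distrib]
  refine Finset.prod_le_prod hB0 ?_
  intro i hi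
  refine (hB i hi).trans ?_
  have h1 := Real.add_one_le_exp (y i)
  have h2 := hA i hi
  have h3 := hy i hi
  nlinarith

theorem A4_prod_diff {ι : Type*} (s : Finset ι) (x y : ι → ℂ) (d : ι → ℝ)
    (h : ∀ i ∈ s, ‖x i - y i‖ ≤ d i) :
    ‖∏ i ∈ s, x i - ∏ i ∈ s, y i‖ ≤ ∏ i ∈ s, (‖y i‖ + d i) - ∏ i ∈ s, ‖y i‖ := by
  classical
  induction s using Finset.induction_on with
  | empty => simp
  | insert a s ha ih =>
    have ih' := ih (fun i hi => h i (Finset.mem_insert_of_mem hi))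
    have ha' := h a (Finset.mem_insert_self a s)
    rw [Finset.prod_insert ha, Finset.prod_insert ha, Finset.prod_insert ha,
      Finset.prod_insert ha]
    have e : x a * ∏ i ∈ s, x i - y a * ∏ i ∈ s, y i =
        x a * (∏ i ∈ s, x i - ∏ i ∈ s, y i) + (x a - y a) * ∏ i ∈ s, y i := by ring
    rw [e]
    refine (norm_add_le _ _).trans ?_
    rw [norm_mul, norm_mul]
    have h1 : ‖x a‖ ≤ ‖y a‖ + d a := by
      calc ‖x a‖ = ‖y a + (x a - y a)‖ := by ring_nf
        _ ≤ _ := (norm_add_le _ _).trans (by linarith)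
    have h2 : ‖∏ i ∈ s, y i‖ = ∏ i ∈ s, ‖y i‖ := norm_prod _ _
    have h3 : ‖x a‖ * ‖∏ i ∈ s, x i - ∏ i ∈ s, y i‖ ≤
        (‖y a‖ + d a) * (∏ i ∈ s, (‖y i‖ + d i) - ∏ i ∈ s, ‖y i‖) := by
      refine mul_le_mul h1 ih' (norm_nonneg _) ?_
      exact (norm_nonneg _).trans h1
    have h4 : ‖x a - y a‖ * ‖∏ i ∈ s, y i‖ ≤ d a * ∏ i ∈ s, ‖y i‖ := by
      rw [h2]
      exact mul_le_mul_of_nonneg_right ha' (Finset.prod_nonneg (fun _ _ => norm_nonneg _))
    calc _ ≤ (‖y a‖ + d a) * (∏ i ∈ s, (‖y i‖ + d i) - ∏ i ∈ s, ‖y i‖) +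
        d a * ∏ i ∈ s, ‖y i‖ := add_le_add h3 h4
      _ = _ := by ring

/-! ### The arithmetic functions -/

/-- `n ↦ n^{-iα}`. -/
noncomputable def A4_tw (α : ℝ) : ArithmeticFunction ℂ :=
  ⟨fun n => if n = 0 then 0 else (n : ℂ) ^ (-(α * I : ℂ)), by simp⟩

theorem A4_tw_apply (α : ℝ) {n : ℕ} (hn : n ≠ 0) : A4_tw α n = (n : ℂ) ^ (-(α * I : ℂ)) := by
  show (if n = 0 then (0 : ℂ) else _) = _
  rw [if_neg hn]

theorem A4_tw_mul (α : ℝ) {m n : ℕ} (hm : m ≠ 0) (hn : n ≠ 0) :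
    A4_tw α (m * n) = A4_tw α m * A4_tw α n := by
  rw [A4_tw_apply α hm, A4_tw_apply α hn, A4_tw_apply α (mul_ne_zero hm hn), Nat.cast_mul,
    natCast_mul_natCast_cpow]

theorem A4_tw_one (α : ℝ) : A4_tw α 1 = 1 := by
  rw [A4_tw_apply α one_ne_zero]
  simp

theorem A4_tw_isMult (α : ℝ) : (A4_tw α).IsMultiplicative := by
  rw [ArithmeticFunction.IsMultiplicative.iff_ne_zero]
  exact ⟨A4_tw_one α, fun hm hn _ => A4_tw_mul α hm hn⟩

theorem A4_tw_pow (α : ℝ) {p : ℕ} (hp : p.Prime) (k : ℕ) : A4_tw α (p ^ k) = A4_tw α p ^ k := by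
  induction k with
  | zero => simp [A4_tw_one]
  | succ k ih =>
    rw [pow_succ, A4_tw_mul α (pow_ne_zero _ hp.ne_zero) hp.ne_zero, ih, pow_succ]

theorem A4_norm_tw (α : ℝ) {p : ℕ} (hp : p.Prime) : ‖A4_tw α p‖ = 1 := by
  rw [A4_tw_apply α hp.ne_zero, norm_natCast_cpow_of_pos hp.pos]
  simp

theorem A4_norm_tw_sub (α : ℝ) (hα : 0 ≤ α) {p : ℕ} (hp : p.Prime) :
    ‖A4_tw α p - 1‖ ≤ α * Real.log p := by
  rw [A4_tw_apply α hp.ne_zero, cpow_def_of_ne_zero (by exact_mod_cast hp.ne_zero)]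
  have e : Complex.log (p : ℂ) * -(α * I : ℂ) = I * ((-(α * Real.log p) : ℝ) : ℂ) := by
    rw [← natCast_log]
    push_cast
    ring
  rw [e]
  refine Real.norm_exp_I_mul_ofReal_sub_one_le.trans ?_
  rw [norm_neg, Real.norm_eq_abs, abs_of_nonneg]
  exact mul_nonneg hα (Real.log_natCast_nonneg p)

/-- the multiplicative part of `a` -/
noncomputable def A4_A (D : AData) (T : ℝ) : ArithmeticFunction ℂ :=
  (ArithmeticFunction.moebius : ArithmeticFunction ℂ).pmul
    (ArithmeticFunction.prodPrimeFactors (fun p => (D.f (xip T p) : ℂ)))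

/-- the coefficients of `ζ(s + iα) / ζ(s)` -/
noncomputable def A4_G (α : ℝ) : ArithmeticFunction ℂ :=
  (ArithmeticFunction.moebius : ArithmeticFunction ℂ) * A4_tw α

/-- the multiplicative part of `b` -/
noncomputable def A4_B (D : AData) (T α : ℝ) : ArithmeticFunction ℂ :=
  ((A4_A D T).pmul (A4_tw α)) * A4_G α

theorem A4_A_isMult (D : AData) (T : ℝ) : (A4_A D T).IsMultiplicative :=
  ArithmeticFunction.isMultiplicative_moebius.intCast.pmul
    (ArithmeticFunction.IsMultiplicative.prodPrimeFactors _)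

theorem A4_G_isMult (α : ℝ) : (A4_G α).IsMultiplicative :=
  ArithmeticFunction.isMultiplicative_moebius.intCast.mul (A4_tw_isMult α)

theorem A4_B_isMult (D : AData) (T α : ℝ) : (A4_B D T α).IsMultiplicative :=
  ((A4_A_isMult D T).pmul (A4_tw_isMult α)).mul (A4_G_isMult α)

theorem A4_G_eq (α : ℝ) (n : ℕ) : A4_G α n = gco α n := by
  unfold A4_G gco
  rw [ArithmeticFunction.mul_apply]
  refine Finset.sum_congr rfl ?_
  intro x hx
  have := (Nat.mem_divisorsAntidiagonal.1 hx)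
  have hx2 : x.2 ≠ 0 := by
    rintro h
    rw [h, mul_zero] at this
    exact this.2 this.1.symm
  rw [A4_tw_apply α hx2, ArithmeticFunction.intCoe_apply]

theorem A4_A_apply (D : AData) (T : ℝ) {n : ℕ} (hn : n ≠ 0) :
    A4_A D T n = (ArithmeticFunction.moebius n : ℂ) *
      ∏ p ∈ n.primeFactors, (D.f (xip T p) : ℂ) := by
  unfold A4_A
  rw [ArithmeticFunction.pmul_apply, ArithmeticFunction.intCoe_apply,
    ArithmeticFunction.prodPrimeFactors_apply hn]

theorem A4_A_eq (D : AData) {T : ℝ} {n : ℕ} (hT : 1 < T) (hn : n ∈ Finset.Icc 1 (X0 D T)) :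
    (av D T n : ℂ) = A4_A D T n := by
  rw [Finset.mem_Icc] at hn
  rw [A4_A_apply D T (by omega)]
  unfold av
  have hL : 0 < Real.log T := Real.log_pos hT
  have hF : D.F (Real.log n / Real.log T) = 1 := by
    apply D.F_one
    · exact div_nonneg (Real.log_natCast_nonneg n) hL.le
    · rw [div_le_iff₀ hL]
      have h1 : (n : ℝ) ≤ T ^ (1 - D.ep - 2 * D.ep ^ 2) :=
        (Nat.le_floor_iff (by positivity)).1 hn.2
      have h2 := Real.log_le_log (by exact_mod_cast hn.1) h1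
      rwa [Real.log_rpow (by linarith)] at h2
  rw [hF]
  push_cast
  unfold xip
  ring

theorem A4_B_eq (D : AData) {T : ℝ} {n : ℕ} (α : ℝ) (hT : 1 < T)
    (hn : n ∈ Finset.Icc 1 (X0 D T)) : bn D T α n = A4_B D T α n := by
  unfold bn A4_B
  rw [ArithmeticFunction.mul_apply]
  refine Finset.sum_congr rfl ?_
  intro x hx
  have h1 := (Nat.mem_divisorsAntidiagonal.1 hx)
  rw [Finset.mem_Icc] at hn
  have hx1 : x.1 ≠ 0 := by
    rintro h
    rw [h, zero_mul] at h1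
    exact h1.2 h1.1.symm
  have hx2 : x.1 ∈ Finset.Icc 1 (X0 D T) := by
    rw [Finset.mem_Icc]
    exact ⟨by omega, (Nat.le_of_dvd (by omega) ⟨x.2, h1.1.symm⟩).trans hn.2⟩
  rw [ArithmeticFunction.pmul_apply, A4_A_eq D hT hx2, A4_tw_apply α hx1, A4_G_eq]

/-! ### Values at prime powers -/

theorem A4_A_prime_pow (D : AData) (T : ℝ) {p k : ℕ} (hp : p.Prime) (hk : k ≠ 0) :
    A4_A D T (p ^ k) = if k = 1 then -(D.f (xip T p) : ℂ) else 0 := by
  rw [A4_A_apply D T (pow_ne_zero _ hp.ne_zero), Nat.primeFactors_prime_pow hk hp,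
    Finset.prod_singleton, ArithmeticFunction.moebius_apply_prime_pow hp hk]
  split_ifs <;> simp

theorem A4_G_one (α : ℝ) : A4_G α 1 = 1 := (A4_G_isMult α).1

theorem A4_G_prime_pow (α : ℝ) {p : ℕ} (hp : p.Prime) (k : ℕ) :
    A4_G α (p ^ (k + 1)) = A4_tw α p ^ k * (A4_tw α p - 1) := by
  unfold A4_G
  rw [ArithmeticFunction.mul_apply, Nat.sum_divisorsAntidiagonal (fun i j =>
    ((ArithmeticFunction.moebius : ArithmeticFunction ℂ) i) * A4_tw α j),
    Nat.sum_divisors_prime_pow hp, Finset.sum_range_succ', Finset.sum_range_succ']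
  have h0 : ∀ i ∈ Finset.range k, ((ArithmeticFunction.moebius : ArithmeticFunction ℂ)
      (p ^ (i + 1 + 1))) * A4_tw α (p ^ (k + 1) / p ^ (i + 1 + 1)) = 0 := by
    intro i _
    rw [ArithmeticFunction.intCoe_apply, ArithmeticFunction.moebius_apply_prime_pow hp (by omega),
      if_neg (by omega)]
    simp
  rw [Finset.sum_eq_zero h0, zero_add, zero_add, pow_one, pow_zero, Nat.div_one,
    ArithmeticFunction.intCoe_apply, ArithmeticFunction.intCoe_apply,
    ArithmeticFunction.moebius_apply_prime hp, ArithmeticFunction.moebius_apply_one,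
    pow_succ, Nat.mul_div_cancel _ hp.pos, ← pow_succ, A4_tw_pow α hp, A4_tw_pow α hp]
  push_cast
  ring

theorem A4_B_prime_pow (D : AData) (T α : ℝ) {p : ℕ} (hp : p.Prime) (k : ℕ) :
    A4_B D T α (p ^ (k + 1)) - A4_A D T (p ^ (k + 1)) =
      (1 - (D.f (xip T p) : ℂ)) * (A4_tw α p - 1) * A4_tw α p ^ k := by
  have hB : A4_B D T α (p ^ (k + 1)) = A4_G α (p ^ (k + 1)) -
      (D.f (xip T p) : ℂ) * A4_tw α p * A4_G α (p ^ k) := by
    unfold A4_B
    rw [ArithmeticFunction.mul_apply, Nat.sum_divisorsAntidiagonal (fun i j =>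
      ((A4_A D T).pmul (A4_tw α)) i * A4_G α j),
      Nat.sum_divisors_prime_pow hp, Finset.sum_range_succ', Finset.sum_range_succ']
    have h0 : ∀ i ∈ Finset.range k, ((A4_A D T).pmul (A4_tw α)) (p ^ (i + 1 + 1)) *
        A4_G α (p ^ (k + 1) / p ^ (i + 1 + 1)) = 0 := by
      intro i _
      rw [ArithmeticFunction.pmul_apply, A4_A_prime_pow D T hp (by omega), if_neg (by omega)]
      simp
    rw [Finset.sum_eq_zero h0, zero_add, zero_add, pow_one, pow_zero, Nat.div_one,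
      ArithmeticFunction.pmul_apply, ArithmeticFunction.pmul_apply, (A4_A_isMult D T).1,
      A4_tw_one]
    have h1 := A4_A_prime_pow D T hp one_ne_zero
    rw [pow_one, if_pos rfl] at h1
    rw [h1, pow_succ, Nat.mul_div_cancel _ hp.pos]
    ring
  rw [hB, A4_G_prime_pow α hp]
  rcases k with _ | k
  · have h1 := A4_A_prime_pow D T hp one_ne_zero
    rw [if_pos rfl] at h1
    rw [zero_add, h1, pow_zero, pow_zero, A4_G_one]
    ring
  · rw [A4_G_prime_pow α hp, A4_A_prime_pow D T hp (by omega), if_neg (by omega)]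
    ring

/-- the deviation at the prime `p` -/
noncomputable def A4_d (D : AData) (T : ℝ) (p : ℕ) : ℝ := (1 - D.f (xip T p)) * (4 * xip T p)

theorem A4_xip_nonneg {T : ℝ} (hT : 1 < T) (p : ℕ) : 0 ≤ xip T p :=
  div_nonneg (Real.log_natCast_nonneg p) (Real.log_pos hT).le

theorem A4_d_nonneg (D : AData) {T : ℝ} (hT : 1 < T) (p : ℕ) : 0 ≤ A4_d D T p :=
  mul_nonneg (by linarith [D.f_le (xip T p)]) (by linarith [A4_xip_nonneg hT p])

theorem A4_norm_sub_prime_pow (D : AData) {T τ : ℝ} (hT : 1 < T) (hτ : 0 ≤ τ) (hτ' : τ ≤ 1 / 2)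
    {p : ℕ} (hp : p.Prime) {k : ℕ} (hk : k ≠ 0) :
    ‖A4_B D T (alp τ T) (p ^ k) - A4_A D T (p ^ k)‖ ≤ A4_d D T p := by
  obtain ⟨k, rfl⟩ := Nat.exists_eq_succ_of_ne_zero hk
  have hL : 0 < Real.log T := Real.log_pos hT
  have hα : 0 ≤ alp τ T := by
    unfold alp
    positivity
  rw [Nat.succ_eq_add_one, A4_B_prime_pow D T _ hp, norm_mul, norm_mul, norm_pow,
    A4_norm_tw _ hp, one_pow, mul_one]
  unfold A4_d
  have h1 : ‖(1 - (D.f (xip T p) : ℂ))‖ = 1 - D.f (xip T p) := by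
    have e : (1 - (D.f (xip T p) : ℂ)) = ((1 - D.f (xip T p) : ℝ) : ℂ) := by push_cast; ring
    rw [e, norm_real, Real.norm_of_nonneg (by linarith [D.f_le (xip T p)])]
  rw [h1]
  refine mul_le_mul_of_nonneg_left ?_ (by linarith [D.f_le (xip T p)])
  refine (A4_norm_tw_sub _ hα hp).trans ?_
  have h2 : alp τ T * Real.log p = 2 * Real.pi * τ * xip T p := by
    unfold alp xip
    ring
  rw [h2]
  refine mul_le_mul_of_nonneg_right ?_ (A4_xip_nonneg hT p)
  have := Real.pi_le_four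
  nlinarith [Real.pi_pos]

/-! ### The majorants -/

/-- `|a(p^k)|` -/
noncomputable def A4_e (D : AData) (T : ℝ) (p k : ℕ) : ℝ := if k = 1 then D.f (xip T p) else 0

theorem A4_e_nonneg (D : AData) (T : ℝ) (p k : ℕ) : 0 ≤ A4_e D T p k := by
  unfold A4_e
  split_ifs
  · exact D.f_nonneg _
  · exact le_rfl

theorem A4_e_le (D : AData) (T : ℝ) (p k : ℕ) : A4_e D T p k ≤ 1 := by
  unfold A4_e
  split_ifs
  · exact D.f_le _
  · exact zero_le_one

/-- a multiplicative function from its values at prime powers -/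
noncomputable def A4_mk (g : ℕ → ℕ → ℝ) (n : ℕ) : ℝ :=
  n.factorization.prod fun p k => if k = 0 then 1 else g p k

theorem A4_mk_one (g : ℕ → ℕ → ℝ) : A4_mk g 1 = 1 := by
  unfold A4_mk
  simp

theorem A4_mk_mul (g : ℕ → ℕ → ℝ) {m n : ℕ} (h : Nat.Coprime m n) :
    A4_mk g (m * n) = A4_mk g m * A4_mk g n := by
  unfold A4_mk
  rw [Nat.factorization_mul_of_coprime h, Finsupp.prod_add_index_of_disjoint]
  exact h.disjoint_primeFactors

theorem A4_mk_prime_pow (g : ℕ → ℕ → ℝ) {p k : ℕ} (hp : p.Prime) (hk : k ≠ 0) :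
    A4_mk g (p ^ k) = g p k := by
  unfold A4_mk
  rw [hp.factorization_pow, Finsupp.prod_single_index (by simp), if_neg hk]

theorem A4_mk_eq (g : ℕ → ℕ → ℝ) (n : ℕ) :
    A4_mk g n = ∏ p ∈ n.primeFactors, g p (n.factorization p) := by
  unfold A4_mk Finsupp.prod
  rw [Nat.support_factorization]
  refine Finset.prod_congr rfl ?_
  intro p hp
  have h1 := Nat.mem_primeFactors.1 hp
  exact if_neg (h1.1.factorization_pos_of_dvd h1.2.2 h1.2.1).ne'

theorem A4_bound (D : AData) {T τ : ℝ} (hT : 1 < T) (hτ : 0 ≤ τ) (hτ' : τ ≤ 1 / 2) {n : ℕ}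
    (hn : n ≠ 0) : ‖A4_B D T (alp τ T) n - A4_A D T n‖ ^ 2 ≤
      A4_mk (fun p k => A4_e D T p k + A4_d D T p) n ^ 2 - A4_mk (A4_e D T) n ^ 2 := by
  have h1 : ‖A4_B D T (alp τ T) n - A4_A D T n‖ ≤
      A4_mk (fun p k => A4_e D T p k + A4_d D T p) n - A4_mk (A4_e D T) n := by
    rw [(A4_B_isMult D T _).multiplicative_factorization _ hn,
      (A4_A_isMult D T).multiplicative_factorization _ hn, A4_mk_eq, A4_mk_eq]
    unfold Finsupp.prod
    rw [Nat.support_factorization]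
    have h2 : ∀ p ∈ n.primeFactors, ‖A4_A D T (p ^ n.factorization p)‖ =
        A4_e D T p (n.factorization p) := by
      intro p hp
      have h3 := Nat.mem_primeFactors.1 hp
      have h4 := (h3.1.factorization_pos_of_dvd h3.2.2 h3.2.1).ne'
      rw [A4_A_prime_pow D T h3.1 h4]
      unfold A4_e
      split_ifs
      · rw [norm_neg, norm_real, Real.norm_of_nonneg (D.f_nonneg _)]
      · simp
    have h5 := A4_prod_diff n.primeFactors (fun p => A4_B D T (alp τ T) (p ^ n.factorization p))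
      (fun p => A4_A D T (p ^ n.factorization p)) (A4_d D T) (by
        intro p hp
        have h3 := Nat.mem_primeFactors.1 hp
        exact A4_norm_sub_prime_pow D hT hτ hτ' h3.1
          (h3.1.factorization_pos_of_dvd h3.2.2 h3.2.1).ne')
    refine h5.trans (le_of_eq ?_)
    congr 1
    · refine Finset.prod_congr rfl ?_
      intro p hp
      rw [h2 p hp]
    · refine Finset.prod_congr rfl ?_
      intro p hp
      rw [h2 p hp]
  have h6 : 0 ≤ A4_mk (A4_e D T) n := by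
    rw [A4_mk_eq]
    exact Finset.prod_nonneg (fun _ _ => A4_e_nonneg _ _ _ _)
  have h7 := norm_nonneg (A4_B D T (alp τ T) n - A4_A D T n)
  nlinarith

/-- the function of the majorant series -/
noncomputable def A4_H (g : ℕ → ℕ → ℝ) (n : ℕ) : ℝ := A4_mk g n ^ 2 / n

theorem A4_H_one (g : ℕ → ℕ → ℝ) : A4_H g 1 = 1 := by
  unfold A4_H
  simp [A4_mk_one]

theorem A4_H_mul (g : ℕ → ℕ → ℝ) {m n : ℕ} (h : Nat.Coprime m n) :
    A4_H g (m * n) = A4_H g m * A4_H g n := by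
  unfold A4_H
  rw [A4_mk_mul g h, Nat.cast_mul, mul_pow, mul_div_mul_comm]

theorem A4_H_prime_pow (g : ℕ → ℕ → ℝ) {p k : ℕ} (hp : p.Prime) :
    A4_H g (p ^ (k + 1)) = g p (k + 1) ^ 2 * (1 / (p : ℝ)) ^ (k + 1) := by
  unfold A4_H
  rw [A4_mk_prime_pow g hp (by omega), Nat.cast_pow, one_div, inv_pow, div_eq_mul_inv]

theorem A4_inv_le {p : ℕ} (hp : p.Prime) : (1 / (p : ℝ)) ≤ 1 / 2 := by
  have : (2 : ℝ) ≤ p := by exact_mod_cast hp.two_le
  exact one_div_le_one_div_of_le (by norm_num) this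

theorem A4_geom {p : ℕ} (hp : p.Prime) : Summable (fun k : ℕ => (1 / (p : ℝ)) ^ (k + 1)) ∧
    ∑' k : ℕ, (1 / (p : ℝ)) ^ (k + 1) ≤ 2 / p := by
  have h0 : (0 : ℝ) ≤ 1 / p := by positivity
  have h1 := A4_inv_le hp
  have hs := summable_geometric_of_lt_one h0 (by linarith)
  refine ⟨(summable_nat_add_iff 1).2 hs, ?_⟩
  simp_rw [pow_succ]
  rw [tsum_mul_right, tsum_geometric_of_lt_one h0 (by linarith)]
  have h2 : (1 - 1 / (p : ℝ))⁻¹ ≤ 2 := by
    rw [inv_le_comm₀ (by linarith) (by norm_num)]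
    linarith
  calc (1 - 1 / (p : ℝ))⁻¹ * (1 / p) ≤ 2 * (1 / p) := mul_le_mul_of_nonneg_right h2 h0
    _ = 2 / p := by ring

theorem A4_summable (g : ℕ → ℕ → ℝ) {p : ℕ} (hp : p.Prime) (C : ℝ)
    (hC : ∀ k, |g p k| ≤ C) : Summable (fun k : ℕ => ‖A4_H g (p ^ k)‖) := by
  rw [← summable_nat_add_iff 1]
  refine Summable.of_nonneg_of_le (fun _ => norm_nonneg _) ?_
    ((A4_geom hp).1.mul_left (C ^ 2))
  intro k
  rw [A4_H_prime_pow g hp, norm_mul, norm_pow, Real.norm_eq_abs, norm_pow,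
    Real.norm_of_nonneg (by positivity : (0 : ℝ) ≤ 1 / p)]
  refine mul_le_mul_of_nonneg_right ?_ (by positivity)
  exact pow_le_pow_left₀ (abs_nonneg _) (hC _) 2

/-- The Euler factors. -/
theorem A4_factor (D : AData) {T : ℝ} (hT : 1 < T) {p : ℕ} (hp : p.Prime) :
    ∑' k, A4_H (fun p k => A4_e D T p k + A4_d D T p) (p ^ k) ≤
      ∑' k, A4_H (A4_e D T) (p ^ k) + (2 * A4_d D T p + A4_d D T p ^ 2) * (2 / p) ∧
    0 ≤ ∑' k, A4_H (fun p k => A4_e D T p k + A4_d D T p) (p ^ k) ∧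
    ∑' k, A4_H (A4_e D T) (p ^ k) = 1 + D.f (xip T p) ^ 2 * (1 / p) := by
  have hd := A4_d_nonneg D hT p
  have hs1 : Summable (fun k : ℕ => A4_H (fun p k => A4_e D T p k + A4_d D T p) (p ^ k)) := by
    refine (A4_summable _ hp (1 + A4_d D T p) ?_).of_norm
    intro k
    have h1 := A4_e_nonneg D T p k
    have h2 := A4_e_le D T p k
    rw [abs_of_nonneg (by linarith)]
    linarith
  have hs2 : Summable (fun k : ℕ => A4_H (A4_e D T) (p ^ k)) := by
    refine (A4_summable _ hp 1 ?_).of_norm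
    intro k
    rw [abs_of_nonneg (A4_e_nonneg D T p k)]
    exact A4_e_le D T p k
  refine ⟨?_, ?_, ?_⟩
  · rw [hs1.tsum_eq_zero_add, hs2.tsum_eq_zero_add, pow_zero, A4_H_one, A4_H_one]
    have hs1' := (summable_nat_add_iff 1).2 hs1
    have hs2' := (summable_nat_add_iff 1).2 hs2
    have h3 := (A4_geom hp).1.mul_left (2 * A4_d D T p + A4_d D T p ^ 2)
    have h4 : ∑' k : ℕ, A4_H (fun p k => A4_e D T p k + A4_d D T p) (p ^ (k + 1)) ≤
        ∑' k : ℕ, (A4_H (A4_e D T) (p ^ (k + 1)) +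
          (2 * A4_d D T p + A4_d D T p ^ 2) * (1 / (p : ℝ)) ^ (k + 1)) := by
      refine hs1'.tsum_le_tsum ?_ (hs2'.add h3)
      intro k
      rw [A4_H_prime_pow _ hp, A4_H_prime_pow _ hp, ← add_mul]
      refine mul_le_mul_of_nonneg_right ?_ (by positivity)
      have h1 := A4_e_nonneg D T p (k + 1)
      have h2 := A4_e_le D T p (k + 1)
      nlinarith
    rw [hs2'.tsum_add h3, tsum_mul_left] at h4
    have h5 := mul_le_mul_of_nonneg_left (A4_geom hp).2
      (by positivity : 0 ≤ 2 * A4_d D T p + A4_d D T p ^ 2)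
    linarith
  · refine tsum_nonneg ?_
    intro k
    unfold A4_H
    positivity
  · rw [hs2.tsum_eq_zero_add, pow_zero, A4_H_one, tsum_eq_single 0]
    · rw [A4_H_prime_pow _ hp]
      simp [A4_e]
    · intro k hk
      rw [A4_H_prime_pow _ hp]
      unfold A4_e
      rw [if_neg (by omega)]
      simp

/-! ### The sums over primes -/

theorem A4_X0_le (D : AData) {T : ℝ} (hT : 1 < T) {p : ℕ} (hp : p ∈ Finset.Icc 1 (X0 D T)) :
    (p : ℝ) ≤ T ∧ xip T p ≤ 1 - D.ep := by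
  rw [Finset.mem_Icc] at hp
  have h1 : (p : ℝ) ≤ T ^ (1 - D.ep - 2 * D.ep ^ 2) :=
    (Nat.le_floor_iff (by positivity)).1 hp.2
  have hep := D.ep_pos
  have hL : 0 < Real.log T := Real.log_pos hT
  refine ⟨?_, ?_⟩
  · refine h1.trans ?_
    calc T ^ (1 - D.ep - 2 * D.ep ^ 2) ≤ T ^ (1 : ℝ) := by
          refine Real.rpow_le_rpow_of_exponent_le hT.le ?_
          nlinarith
      _ = T := Real.rpow_one T
  · unfold xip
    rw [div_le_iff₀ hL]
    have h2 := Real.log_le_log (by exact_mod_cast hp.1) h1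
    rw [Real.log_rpow (by linarith)] at h2
    refine h2.trans ?_
    refine mul_le_mul_of_nonneg_right ?_ hL.le
    nlinarith

theorem A4_sum_f (D : AData) {T : ℝ} (hT : 1 < T) :
    ∑ p ∈ (Finset.Icc 1 (X0 D T)).filter Nat.Prime, D.f (xip T p) ^ 2 * (1 / (p : ℝ)) ≤
      sg T D.ep 1 := by
  unfold sg
  have hL : 0 < Real.log T := Real.log_pos hT
  rw [← Finset.sum_filter_add_sum_filter_not ((Finset.Icc 1 (X0 D T)).filter Nat.Prime)
    (fun p => ⌊T ^ D.ep⌋₊ < p)]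
  have h0 : ∑ p ∈ ((Finset.Icc 1 (X0 D T)).filter Nat.Prime).filter
      (fun p => ¬ ⌊T ^ D.ep⌋₊ < p), D.f (xip T p) ^ 2 * (1 / (p : ℝ)) = 0 := by
    refine Finset.sum_eq_zero ?_
    intro p hp
    rw [Finset.mem_filter, Finset.mem_filter, Finset.mem_Icc, not_lt] at hp
    have h1 : (p : ℝ) ≤ T ^ D.ep := (Nat.le_floor_iff (by positivity)).1 hp.2
    have h2 : xip T p ≤ D.ep := by
      unfold xip
      rw [div_le_iff₀ hL]
      have h2 := Real.log_le_log (by exact_mod_cast hp.1.1.1) h1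
      rwa [Real.log_rpow (by linarith)] at h2
    rw [D.f_low _ h2]
    simp
  rw [h0, add_zero]
  have hsub : ((Finset.Icc 1 (X0 D T)).filter Nat.Prime).filter (fun p => ⌊T ^ D.ep⌋₊ < p) ⊆
      PR T D.ep 1 := by
    intro p hp
    rw [Finset.mem_filter, Finset.mem_filter] at hp
    unfold PR
    rw [Finset.mem_filter, Finset.mem_Ioc, Real.rpow_one]
    exact ⟨⟨hp.2, (Nat.le_floor_iff (by linarith)).2 (A4_X0_le D hT hp.1.1).1⟩, hp.1.2⟩
  refine (Finset.sum_le_sum ?_).trans (Finset.sum_le_sum_of_subset_of_nonneg hsub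
    (fun _ _ _ => by positivity))
  intro p _
  have h1 := D.f_le (xip T p)
  have h2 := D.f_nonneg (xip T p)
  have h3 : D.f (xip T p) ^ 2 ≤ 1 := by nlinarith
  calc D.f (xip T p) ^ 2 * (1 / (p : ℝ)) ≤ 1 * (1 / (p : ℝ)) :=
        mul_le_mul_of_nonneg_right h3 (by positivity)
    _ = 1 / (p : ℝ) := one_mul _

theorem A4_sum_y (D : AData) {T : ℝ} (hT : 1 < T) :
    ∑ p ∈ (Finset.Icc 1 (X0 D T)).filter Nat.Prime,
      (2 * A4_d D T p + A4_d D T p ^ 2) * (2 / (p : ℝ)) ≤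
      48 / Real.log T * ∑ p ∈ (Finset.Icc 1 ⌊T ^ (2 * D.ep)⌋₊).filter Nat.Prime,
        Real.log p / p := by
  have hL : 0 < Real.log T := Real.log_pos hT
  have hep := D.ep_pos
  have hep' := D.ep_le
  rw [Finset.mul_sum]
  rw [← Finset.sum_filter_add_sum_filter_not ((Finset.Icc 1 (X0 D T)).filter Nat.Prime)
    (fun p => xip T p < 2 * D.ep)]
  have h0 : ∑ p ∈ ((Finset.Icc 1 (X0 D T)).filter Nat.Prime).filter
      (fun p => ¬ xip T p < 2 * D.ep), (2 * A4_d D T p + A4_d D T p ^ 2) * (2 / (p : ℝ)) = 0 := by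
    refine Finset.sum_eq_zero ?_
    intro p hp
    rw [Finset.mem_filter, Finset.mem_filter, not_lt] at hp
    have h1 := D.f_mid _ hp.2 (A4_X0_le D hT hp.1.1).2
    unfold A4_d
    rw [h1]
    simp
  rw [h0, add_zero]
  have hsub : ((Finset.Icc 1 (X0 D T)).filter Nat.Prime).filter (fun p => xip T p < 2 * D.ep) ⊆
      (Finset.Icc 1 ⌊T ^ (2 * D.ep)⌋₊).filter Nat.Prime := by
    intro p hp
    rw [Finset.mem_filter, Finset.mem_filter, Finset.mem_Icc] at hp
    rw [Finset.mem_filter, Finset.mem_Icc]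
    refine ⟨⟨hp.1.1.1, ?_⟩, hp.1.2⟩
    rw [Nat.le_floor_iff (by positivity)]
    have h1 := hp.2
    unfold xip at h1
    rw [div_lt_iff₀ hL] at h1
    rw [Real.le_rpow_iff_log_le (by exact_mod_cast hp.1.1.1) (by linarith)]
    exact h1.le
  refine (Finset.sum_le_sum ?_).trans (Finset.sum_le_sum_of_subset_of_nonneg hsub
    (fun p _ _ => by
      have := Real.log_natCast_nonneg p
      positivity))
  intro p hp
  rw [Finset.mem_filter] at hp
  have h1 := D.f_le (xip T p)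
  have h2 := D.f_nonneg (xip T p)
  have h3 := A4_xip_nonneg hT p
  have h4 := A4_d_nonneg D hT p
  have h5 : A4_d D T p ≤ 4 * xip T p := by
    unfold A4_d
    nlinarith
  have h6 : xip T p ≤ 1 := by linarith
  have h7 : 2 * A4_d D T p + A4_d D T p ^ 2 ≤ 24 * xip T p := by nlinarith
  calc (2 * A4_d D T p + A4_d D T p ^ 2) * (2 / (p : ℝ)) ≤ 24 * xip T p * (2 / (p : ℝ)) :=
        mul_le_mul_of_nonneg_right h7 (by positivity)
    _ = 48 / Real.log T * (Real.log p / p) := by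
        unfold xip
        ring

/-- A4 -/
theorem sum_bn_sub_av : ∃ C : ℝ, 0 < C ∧ ∀ D : AData, ∃ T0 : ℝ, ∀ T : ℝ, T0 ≤ T →
    ∀ τ : ℝ, 0 ≤ τ → τ ≤ 1 / 2 →
    ∑ n ∈ Finset.Icc 1 (X0 D T), ‖bn D T (alp τ T) n - (av D T n : ℂ)‖ ^ 2 / n ≤ C := by
  obtain ⟨C1, hC1, h1⟩ := sum_log_prime
  obtain ⟨C2, hC2, h2⟩ := sg_asymp
  refine ⟨1000, by norm_num, ?_⟩
  intro D
  have hep := D.ep_pos
  have hep' := D.ep_le
  refine ⟨Real.exp ((1 + C2 + 48 * C1) / D.ep), ?_⟩
  intro T hT τ hτ hτ'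
  have hT0 : 0 < T := (Real.exp_pos _).trans_le hT
  have hL1 : (1 + C2 + 48 * C1) / D.ep ≤ Real.log T := (Real.le_log_iff_exp_le hT0).2 hT
  rw [div_le_iff₀ hep] at hL1
  have hL : 0 < Real.log T := by
    by_contra hcon
    have : Real.log T * D.ep ≤ 0 := mul_nonpos_of_nonpos_of_nonneg (not_lt.1 hcon) hep.le
    linarith
  have hT1 : 1 < T := (Real.log_pos_iff hT0.le).1 hL
  -- step 1
  have hs1 : ∑ n ∈ Finset.Icc 1 (X0 D T), ‖bn D T (alp τ T) n - (av D T n : ℂ)‖ ^ 2 / n ≤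
      ∑ n ∈ Finset.Icc 1 (X0 D T), (A4_H (fun p k => A4_e D T p k + A4_d D T p) n -
        A4_H (A4_e D T) n) := by
    refine Finset.sum_le_sum ?_
    intro n hn
    rw [A4_B_eq D _ hT1 hn, A4_A_eq D hT1 hn]
    have h3 : n ≠ 0 := by
      rw [Finset.mem_Icc] at hn
      omega
    unfold A4_H
    rw [← sub_div]
    exact div_le_div_of_nonneg_right (A4_bound D hT1 hτ hτ' h3) (by positivity)
  -- step 2
  have hs2 := A4_euler (A4_H (fun p k => A4_e D T p k + A4_d D T p)) (A4_H (A4_e D T))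
    (A4_H_one _) (A4_H_one _) (fun h => A4_H_mul _ h) (fun h => A4_H_mul _ h)
    (fun {p} hp => A4_summable _ hp (1 + A4_d D T p) (by
      intro k
      have h1 := A4_e_nonneg D T p k
      have h2 := A4_e_le D T p k
      have h3 := A4_d_nonneg D hT1 p
      rw [abs_of_nonneg (by linarith)]
      linarith))
    (fun {p} hp => A4_summable _ hp 1 (by
      intro k
      rw [abs_of_nonneg (A4_e_nonneg D T p k)]
      exact A4_e_le D T p k))
    (by
      intro n
      unfold A4_H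
      refine div_le_div_of_nonneg_right ?_ (by positivity)
      rw [A4_mk_eq, A4_mk_eq]
      refine pow_le_pow_left₀ (Finset.prod_nonneg (fun _ _ => A4_e_nonneg _ _ _ _)) ?_ 2
      refine Finset.prod_le_prod (fun _ _ => A4_e_nonneg _ _ _ _) ?_
      intro p _
      linarith [A4_d_nonneg D hT1 p])
    (X0 D T)
  -- step 3
  set s := (Finset.Icc 1 (X0 D T)).filter Nat.Prime with hs
  have hprime : ∀ p ∈ s, p.Prime := fun p hp => (Finset.mem_filter.1 hp).2
  have hs3 := A4_prod_exp s (fun p => ∑' k, A4_H (A4_e D T) (p ^ k))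
    (fun p => ∑' k, A4_H (fun p k => A4_e D T p k + A4_d D T p) (p ^ k))
    (fun p => (2 * A4_d D T p + A4_d D T p ^ 2) * (2 / (p : ℝ)))
    (by
      intro p hp
      rw [(A4_factor D hT1 (hprime p hp)).2.2]
      have : 0 ≤ D.f (xip T p) ^ 2 * (1 / (p : ℝ)) := by positivity
      linarith)
    (by
      intro p _
      have := A4_d_nonneg D hT1 p
      positivity)
    (fun p hp => (A4_factor D hT1 (hprime p hp)).2.1)
    (fun p hp => (A4_factor D hT1 (hprime p hp)).1)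
  -- step 4
  have hs4 : ∏ p ∈ s, ∑' k, A4_H (A4_e D T) (p ^ k) ≤ Real.exp 1 / D.ep := by
    have h5 : ∏ p ∈ s, ∑' k, A4_H (A4_e D T) (p ^ k) ≤
        Real.exp (∑ p ∈ s, D.f (xip T p) ^ 2 * (1 / (p : ℝ))) := by
      rw [Real.exp_sum]
      refine Finset.prod_le_prod ?_ ?_
      · intro p hp
        rw [(A4_factor D hT1 (hprime p hp)).2.2]
        positivity
      · intro p hp
        rw [(A4_factor D hT1 (hprime p hp)).2.2, add_comm]
        exact Real.add_one_le_exp _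
    refine h5.trans ?_
    have h6 := A4_sum_f D hT1
    have h7 := h2 T D.ep 1 hT1 hep (by linarith) (by nlinarith)
    have h8 : C2 / (D.ep * Real.log T) ≤ 1 := by
      rw [div_le_one (by positivity)]
      nlinarith
    have h9 := (abs_le.1 h7).2
    have h10 : Real.exp 1 / D.ep = Real.exp (Real.log (1 / D.ep) + 1) := by
      rw [Real.exp_add, Real.exp_log (by positivity)]
      ring
    rw [h10]
    refine Real.exp_le_exp.2 ?_
    linarith
  -- step 5
  have hs5 : ∑ p ∈ s, (2 * A4_d D T p + A4_d D T p ^ 2) * (2 / (p : ℝ)) ≤ 97 * D.ep := by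
    refine (A4_sum_y D hT1).trans ?_
    have h5 := h1 (T ^ (2 * D.ep)) (Real.one_le_rpow hT1.le (by positivity))
    rw [Real.log_rpow hT0] at h5
    have h6 := (abs_le.1 h5).2
    have h7 : ∑ p ∈ (Finset.Icc 1 ⌊T ^ (2 * D.ep)⌋₊).filter Nat.Prime, Real.log p / p ≤
        2 * D.ep * Real.log T + C1 := by linarith
    calc _ ≤ 48 / Real.log T * (2 * D.ep * Real.log T + C1) :=
          mul_le_mul_of_nonneg_left h7 (by positivity)
      _ = 96 * D.ep + 48 * C1 / Real.log T := by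
          field_simp
          ring
      _ ≤ 96 * D.ep + D.ep := by
          have : 48 * C1 / Real.log T ≤ D.ep := by
            rw [div_le_iff₀ hL]
            linarith
          linarith
      _ = 97 * D.ep := by ring
  -- step 6
  have hy0 : 0 ≤ ∑ p ∈ s, (2 * A4_d D T p + A4_d D T p ^ 2) * (2 / (p : ℝ)) := by
    refine Finset.sum_nonneg ?_
    intro p _
    have := A4_d_nonneg D hT1 p
    positivity
  have he := Real.exp_one_lt_d9
  have hs6 : Real.exp (∑ p ∈ s, (2 * A4_d D T p + A4_d D T p ^ 2) * (2 / (p : ℝ))) - 1 ≤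
      97 * D.ep * Real.exp 1 := by
    have h5 : Real.exp (∑ p ∈ s, (2 * A4_d D T p + A4_d D T p ^ 2) * (2 / (p : ℝ))) ≤
        Real.exp (97 * D.ep) := Real.exp_le_exp.2 hs5
    have h6 : Real.exp (97 * D.ep) ≤ Real.exp 1 := Real.exp_le_exp.2 (by linarith)
    have h7 : 1 - 97 * D.ep ≤ Real.exp (-(97 * D.ep)) := by
      have := Real.add_one_le_exp (-(97 * D.ep))
      linarith
    have h8 : Real.exp (97 * D.ep) * Real.exp (-(97 * D.ep)) = 1 := by
      rw [← Real.exp_add]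
      simp
    have h9 := Real.exp_pos (97 * D.ep)
    have h10 : Real.exp (97 * D.ep) * (1 - 97 * D.ep) ≤ 1 :=
      (mul_le_mul_of_nonneg_left h7 h9.le).trans_eq h8
    have h11 : 97 * D.ep * Real.exp (97 * D.ep) ≤ 97 * D.ep * Real.exp 1 :=
      mul_le_mul_of_nonneg_left h6 (by positivity)
    linarith
  have hA1 : 0 ≤ ∏ p ∈ s, ∑' k, A4_H (A4_e D T) (p ^ k) := by
    refine Finset.prod_nonneg ?_
    intro p hp
    rw [(A4_factor D hT1 (hprime p hp)).2.2]
    positivity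
  have hexp0 : 0 ≤ Real.exp (∑ p ∈ s, (2 * A4_d D T p + A4_d D T p ^ 2) * (2 / (p : ℝ))) - 1 := by
    have := Real.one_le_exp hy0
    linarith
  calc _ ≤ _ := hs1
    _ ≤ _ := hs2
    _ ≤ (∏ p ∈ s, ∑' k, A4_H (A4_e D T) (p ^ k)) *
        Real.exp (∑ p ∈ s, (2 * A4_d D T p + A4_d D T p ^ 2) * (2 / (p : ℝ))) -
        ∏ p ∈ s, ∑' k, A4_H (A4_e D T) (p ^ k) := by linarith
    _ = (∏ p ∈ s, ∑' k, A4_H (A4_e D T) (p ^ k)) *
        (Real.exp (∑ p ∈ s, (2 * A4_d D T p + A4_d D T p ^ 2) * (2 / (p : ℝ))) - 1) := by ring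
    _ ≤ (Real.exp 1 / D.ep) * (97 * D.ep * Real.exp 1) :=
        mul_le_mul hs4 hs6 hexp0 (by positivity)
    _ = 97 * Real.exp 1 ^ 2 := by
        field_simp
    _ ≤ 1000 := by nlinarith [Real.exp_pos 1]

end Pool.Agent.AHD
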