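import Pool.Agent.ZGap.AH.Defs3
import Pool.Agent.ZGap.Res.D3

/-!
# The prime sum is controlled by the local count
-/

open scoped ContDiff

namespace Pool.Agent.AHD

open MeasureTheory Real Set ArithmeticFunction Pool.Agent.Hadamard Pool.Agent.DirPoly
open Pool.Agent.ZGap Pool.Agent.ZGap.CEF Pool.Agent.ZGap.Res.FM

/-- `f(u)/u`. -/
noncomputable def B0_b1 (D : AData) (u : ℝ) : ℝ := D.f u * u⁻¹

lemma B0_b1_zero_of_neg (D : AData) {v : ℝ} (hv : v ≤ D.ep) : B0_b1 D v = 0 := by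
  unfold B0_b1
  rw [D.f_low v hv, zero_mul]

/-- upper end of the support. -/
noncomputable def B0_hi (D : AData) : ℝ := 1 - D.ep / 2

lemma B0_hi_lt (D : AData) : B0_hi D < 1 := by unfold B0_hi; linarith [D.ep_pos]

lemma B0_hi_pos (D : AData) : 0 < B0_hi D := by
  unfold B0_hi; linarith [D.ep_pos, D.ep_le]

lemma B0_b1_zero_of_hi (D : AData) {v : ℝ} (hv : B0_hi D ≤ v) : B0_b1 D v = 0 := by
  unfold B0_b1
  rw [D.f_high v hv, zero_mul]

lemma B0_b1_smooth (D : AData) : ContDiff ℝ 4 (B0_b1 D) := by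
  rw [contDiff_iff_contDiffAt]
  intro u
  rcases lt_or_ge u D.ep with h | h
  · have hev : B0_b1 D =ᶠ[nhds u] fun _ => (0:ℝ) := by
      filter_upwards [isOpen_Iio.mem_nhds h] with x hx
      exact B0_b1_zero_of_neg D (le_of_lt hx)
    exact contDiffAt_const.congr_of_eventuallyEq hev
  · have hu : u ≠ 0 := by linarith [D.ep_pos]
    have h0 : ContDiff ℝ 4 D.f := by exact_mod_cast contDiff_infty.mp D.f_smooth 4
    have h1 : ContDiffAt ℝ 4 D.f u := h0.contDiffAt
    exact h1.mul (contDiffAt_inv ℝ hu)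

/-- The test function. -/
noncomputable def B0_gg (D : AData) (L : ℝ) (y : ℝ) : ℂ := ((B0_b1 D (y / L) * Real.exp y : ℝ) : ℂ)

lemma B0_gg_continuous (D : AData) (L : ℝ) : Continuous (B0_gg D L) := by
  have h := (B0_b1_smooth D).continuous
  unfold B0_gg
  fun_prop

lemma B0_hh_gg (D : AData) {L : ℝ} (hL : 0 < L) (u : ℝ) :
    hh (B0_gg D L) u = L * bt (B0_b1 D) ((L : ℂ) * (1 - u * Complex.I)) := by
  have h := Measure.integral_comp_div
    (fun v : ℝ => (B0_b1 D v : ℂ) * Complex.exp (((L : ℂ) * (1 - u * Complex.I)) * v)) L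
  rw [abs_of_pos hL, Complex.real_smul] at h
  rw [bt, ← h, hh]
  refine integral_congr_ae (Filter.Eventually.of_forall fun y => ?_)
  simp only [B0_gg]
  have hL' : (L : ℂ) ≠ 0 := by exact_mod_cast hL.ne'
  have e1 : (L : ℂ) * (1 - u * Complex.I) * ((y / L : ℝ) : ℂ) = (y : ℂ) + ((-(u * y) : ℝ) : ℂ) * Complex.I := by
    push_cast
    field_simp
    ring
  rw [e1, Complex.exp_add]
  push_cast
  ring

lemma B0_ff_gg (D : AData) {L : ℝ} (hL : 0 < L) (x : ℝ) :
    ff (B0_gg D L) x = L * bt (B0_b1 D) (-((L * x : ℝ) : ℂ) * Complex.I) := by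
  have h := Measure.integral_comp_div
    (fun v : ℝ => (B0_b1 D v : ℂ) * Complex.exp ((-((L * x : ℝ) : ℂ) * Complex.I) * v)) L
  rw [abs_of_pos hL, Complex.real_smul] at h
  rw [bt, ← h, ff]
  refine integral_congr_ae (Filter.Eventually.of_forall fun y => ?_)
  simp only [B0_gg]
  have hL' : (L : ℂ) ≠ 0 := by exact_mod_cast hL.ne'
  have e1 : (-((L * x : ℝ) : ℂ) * Complex.I) * ((y / L : ℝ) : ℂ) = (y : ℂ) + (-(1 + x * Complex.I) * y) := by
    push_cast
    field_simp
    ring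
  rw [e1, Complex.exp_add]
  push_cast
  ring

theorem B0_exists_TF (D : AData) : ∃ C : ℝ, 0 < C ∧ ∀ L : ℝ, 1 ≤ L →
    TF (B0_gg D L) (C * L * Real.exp (B0_hi D * L)) ∧
    ∀ x : ℝ, ‖ff (B0_gg D L) x‖ ≤ C * L * (1 / (1 + (L * x) ^ 2)) := by
  obtain ⟨C, hC, h⟩ := exists_bt_decay_right (B0_b1_smooth D) (B0_hi_pos D).le
    (by linarith [B0_hi_lt D]) (fun v hv => B0_b1_zero_of_neg D (by linarith [D.ep_pos]))
    (fun v hv => B0_b1_zero_of_hi D hv.le)
  refine ⟨C, hC, fun L hL => ⟨⟨B0_gg_continuous D L, ?_, ?_, ?_⟩, ?_⟩⟩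
  · refine HasCompactSupport.of_support_subset_isCompact (isCompact_Icc (a := 0) (b := L)) ?_
    intro y hy
    by_contra hy'
    apply hy
    rw [Set.mem_Icc, not_and_or, not_le, not_le] at hy'
    unfold B0_gg
    rcases hy' with hy' | hy'
    · rw [B0_b1_zero_of_neg D, zero_mul, Complex.ofReal_zero]
      have : y / L < 0 := div_neg_of_neg_of_pos hy' (by linarith)
      linarith [D.ep_pos]
    · rw [B0_b1_zero_of_hi D, zero_mul, Complex.ofReal_zero]
      have : 1 ≤ y / L := by rw [le_div_iff₀ (by linarith)]; linarith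
      linarith [B0_hi_lt D]
  · intro y hy
    unfold B0_gg
    rw [B0_b1_zero_of_neg D, zero_mul, Complex.ofReal_zero]
    have : y / L ≤ 0 := div_nonpos_of_nonpos_of_nonneg hy (by linarith)
    linarith [D.ep_pos]
  · intro u
    rw [B0_hh_gg D (by linarith)]
    have hre : ((L : ℂ) * (1 - u * Complex.I)).re = L := by simp
    have h1 := h ((L : ℂ) * (1 - u * Complex.I)) (by rw [hre]; linarith)
    rw [hre] at h1
    have hn : ‖(L : ℂ) * (1 - u * Complex.I)‖ ^ 2 = L ^ 2 * (1 + u ^ 2) := by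
      rw [norm_mul, mul_pow, Complex.sq_norm (1 - u * Complex.I), Complex.normSq_apply,
        Complex.norm_real, Real.norm_eq_abs, sq_abs]
      simp
      left
      ring
    rw [hn] at h1
    rw [norm_mul, Complex.norm_real, Real.norm_of_nonneg (by linarith)]
    have h2 : (1 + u ^ 2) ^ 2 ≤ (1 + L ^ 2 * (1 + u ^ 2)) ^ 2 := by
      have : 1 ≤ L ^ 2 := by nlinarith
      gcongr
      nlinarith [sq_nonneg u]
    calc _ ≤ L * (C * Real.exp (B0_hi D * L) / (1 + L ^ 2 * (1 + u ^ 2)) ^ 2) := by gcongr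
      _ ≤ L * (C * Real.exp (B0_hi D * L) / (1 + u ^ 2) ^ 2) := by gcongr
      _ = _ := by ring
  · intro x
    rw [B0_ff_gg D (by linarith)]
    have hre : (-((L * x : ℝ) : ℂ) * Complex.I).re = 0 := by simp
    have h1 := h (-((L * x : ℝ) : ℂ) * Complex.I) (by rw [hre])
    rw [hre, mul_zero, Real.exp_zero, mul_one] at h1
    have hn : ‖-((L * x : ℝ) : ℂ) * Complex.I‖ ^ 2 = (L * x) ^ 2 := by
      rw [norm_mul, norm_neg, Complex.norm_I, mul_one, Complex.norm_real, Real.norm_eq_abs, sq_abs]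
    rw [hn] at h1
    rw [norm_mul, Complex.norm_real, Real.norm_of_nonneg (by linarith)]
    have h2 : (1 + (L * x) ^ 2) ≤ (1 + (L * x) ^ 2) ^ 2 := by
      nlinarith [sq_nonneg (L * x), sq_nonneg ((L * x) ^ 2)]
    calc _ ≤ L * (C / (1 + (L * x) ^ 2) ^ 2) := by gcongr
      _ ≤ L * (C / (1 + (L * x) ^ 2)) := by gcongr
      _ = _ := by ring

/-- B0: the prime sum is controlled by the local count of zeros (port of Res/D3, `Pr_le`,
    where the support of `f` now reaches `1 - ep/2 < 1` instead of `hi < 1/2`) -/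
theorem Pr1_le (hRH : RiemannHypothesis) (D : AData) : ∃ C T0 : ℝ, 0 < C ∧ 1 ≤ T0 ∧
    ∀ T : ℝ, T0 ≤ T → ∀ t : ℝ, T / 4 ≤ t → ‖Pr1 D T t‖ ≤ C * (1 + Pool.Agent.ZGap.Res.FM.W1 T t) := by
  obtain ⟨C1, hC1, hTF⟩ := B0_exists_TF D
  obtain ⟨C2, hC2, hnp⟩ := exists_sum_nonprime_le
  obtain ⟨B, hB⟩ : ∃ B : ℝ, ∀ v, |B0_b1 D v| ≤ B := by
    have hcs : HasCompactSupport (B0_b1 D) := by
      refine hasCompactSupport_of_zero fun v hv => ?_
      rcases lt_or_ge v 0 with h | h
      · exact B0_b1_zero_of_neg D (by linarith [D.ep_pos])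
      · rw [abs_of_nonneg h] at hv
        exact B0_b1_zero_of_hi D (by linarith [B0_hi_lt D])
    exact hcs.exists_bound_of_continuous (B0_b1_smooth D).continuous
  have hB0 : 0 ≤ B := (abs_nonneg _).trans (hB 0)
  refine ⟨C1 + 120 * C1 + 2 * B * C2 + 1, Real.exp 2, by positivity,
    Real.one_le_exp (by norm_num), fun T hT t ht => ?_⟩
  have hT0 : 0 < T := (Real.exp_pos _).trans_le hT
  set L := Real.log T with hL
  have hL2 : 2 ≤ L := by rw [hL, Real.le_log_iff_exp_le hT0]; exact hT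
  have hL0 : 0 < L := by linarith
  have hT4 : 4 ≤ T := by
    have h1 : Real.exp 2 = Real.exp 1 * Real.exp 1 := by rw [← Real.exp_add]; norm_num
    have h2 := Real.exp_one_gt_d9
    nlinarith
  have ht1 : 1 ≤ t := by linarith
  have ht0 : 0 < t := by linarith
  obtain ⟨hg, hff⟩ := hTF L (by linarith)
  obtain ⟨hs1, hs2, hex⟩ := explicit hRH hg ht1
  set Z := ∑' ρ : ntz, (mult ρ : ℂ) * ff (B0_gg D L) (t - (ρ : ℂ).im) with hZ
  set Sp := ∑' n : ℕ, ((Λ n * (n : ℝ) ^ (-(3 / 2) : ℝ) : ℝ) : ℂ) *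
        (B0_gg D L (Real.log n) * Complex.exp ((-(t * Real.log n) : ℝ) * Complex.I)) with hSp
  have hZb : ‖Z‖ ≤ C1 * L * W1 T t := by
    have h1 := (W1_summable hRH (T := T) (by linarith) t).hasSum.mul_left (C1 * L)
    refine tsum_of_norm_bounded h1 fun ρ => ?_
    rw [norm_mul, Complex.norm_natCast]
    calc (mult ρ : ℝ) * ‖ff (B0_gg D L) (t - (ρ : ℂ).im)‖ ≤
        (mult ρ : ℝ) * (C1 * L * (1 / (1 + (L * (t - (ρ : ℂ).im)) ^ 2))) := by
          gcongr
          exact hff _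
      _ = _ := by ring
  have hW := W1_nonneg T t
  have hexp : Real.exp (B0_hi D * L) ≤ T := by
    have e4 : T = Real.exp L := by rw [hL, Real.exp_log hT0]
    rw [e4]
    apply Real.exp_le_exp.mpr
    have := B0_hi_lt D
    nlinarith
  have herr : 30 * (C1 * L * Real.exp (B0_hi D * L)) / t ≤ 120 * C1 * L := by
    rw [div_le_iff₀ ht0]
    calc 30 * (C1 * L * Real.exp (B0_hi D * L)) ≤ 30 * (C1 * L * T) := by gcongr
      _ ≤ 120 * C1 * L * (T / 4) := by nlinarith
      _ ≤ _ := by gcongr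
  have hSpb : ‖Sp‖ ≤ C1 * L * W1 T t + 120 * C1 * L := by
    have h1 : Sp = (Z + Sp) - Z := by ring
    rw [h1]
    refine (norm_sub_le _ _).trans ?_
    linarith [hex.trans herr]
  -- finite sum
  have hfin : Sp = ∑ n ∈ Finset.Icc 1 ⌊T⌋₊, ((Λ n * (n : ℝ) ^ (-(3 / 2) : ℝ) : ℝ) : ℂ) *
        (B0_gg D L (Real.log n) * Complex.exp ((-(t * Real.log n) : ℝ) * Complex.I)) := by
    rw [hSp]
    apply tsum_eq_sum
    intro n hn
    rw [Finset.mem_Icc, not_and_or, not_le, not_le] at hn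
    rcases hn with hn | hn
    · have : n = 0 := by omega
      rw [this]; simp
    · have h2 : T < n := by
        have := (Nat.floor_lt hT0.le).mp hn
        exact this
      have h3 : L ≤ Real.log n := Real.log_le_log hT0 h2.le
      have h4 : B0_gg D L (Real.log n) = 0 := by
        unfold B0_gg
        rw [B0_b1_zero_of_hi D, zero_mul, Complex.ofReal_zero]
        have : 1 ≤ Real.log n / L := by rw [le_div_iff₀ hL0]; linarith
        linarith [B0_hi_lt D]
      rw [h4]; ring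
  have hsplit : (L : ℂ) * Pr1 D T t = Sp -
      ∑ n ∈ (Finset.Icc 1 ⌊T⌋₊).filter (fun n => ¬ n.Prime),
        ((Λ n * (n : ℝ) ^ (-(3 / 2) : ℝ) : ℝ) : ℂ) *
        (B0_gg D L (Real.log n) * Complex.exp ((-(t * Real.log n) : ℝ) * Complex.I)) := by
    rw [hfin, ← Finset.sum_filter_add_sum_filter_not (Finset.Icc 1 ⌊T⌋₊) Nat.Prime,
      add_sub_cancel_right, Pr1, Finset.mul_sum]
    refine Finset.sum_congr rfl fun p hp => ?_
    rw [Finset.mem_filter] at hp
    have hp0 : (0:ℝ) < p := by exact_mod_cast hp.2.pos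
    have hlp : 0 < Real.log p := Real.log_pos (by exact_mod_cast hp.2.one_lt)
    rw [vonMangoldt_apply_prime hp.2]
    unfold xip B0_gg B0_b1
    rw [Real.exp_log hp0]
    have e1 : (p : ℝ) ^ (-(3 / 2) : ℝ) = (p * Real.sqrt p)⁻¹ := by
      rw [Real.rpow_neg hp0.le, show (3 / 2 : ℝ) = 1 + 1 / 2 by norm_num, Real.rpow_add hp0,
        Real.rpow_one, Real.sqrt_eq_rpow]
    rw [e1]
    have hsp : 0 < Real.sqrt p := Real.sqrt_pos.mpr hp0
    have e2 : (Real.log p * (p * Real.sqrt p)⁻¹) *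
        (D.f (Real.log p / L) * (Real.log p / L)⁻¹ * p) =
        L * (D.f (Real.log p / L) / Real.sqrt p) := by
      field_simp
    have e3 := congrArg (fun z : ℝ => (z : ℂ)) e2
    simp only [Complex.ofReal_mul] at e3 ⊢
    rw [← mul_assoc, ← e3]
    ring
  have hnpb : ‖∑ n ∈ (Finset.Icc 1 ⌊T⌋₊).filter (fun n => ¬ n.Prime),
        ((Λ n * (n : ℝ) ^ (-(3 / 2) : ℝ) : ℝ) : ℂ) *
        (B0_gg D L (Real.log n) * Complex.exp ((-(t * Real.log n) : ℝ) * Complex.I))‖ ≤
      B * (C2 * (1 + L)) := by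
    have hfl : 1 ≤ ⌊T⌋₊ := Nat.le_floor (by push_cast; linarith)
    calc _ ≤ ∑ n ∈ (Finset.Icc 1 ⌊T⌋₊).filter (fun n => ¬ n.Prime), B * (Λ n / Real.sqrt n) := by
          refine (norm_sum_le _ _).trans (Finset.sum_le_sum fun n hn => ?_)
          rw [Finset.mem_filter, Finset.mem_Icc] at hn
          have hn0 : (0:ℝ) < n := by exact_mod_cast (by omega : 0 < n)
          have hsn : 0 < Real.sqrt n := Real.sqrt_pos.mpr hn0
          rw [norm_mul, norm_mul, Complex.norm_exp_ofReal_mul_I, mul_one, Complex.norm_real,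
            Real.norm_of_nonneg (vM_term_nonneg n)]
          unfold B0_gg
          rw [Complex.norm_real, Real.exp_log hn0, Real.norm_eq_abs, abs_mul, abs_of_pos hn0]
          have e1 : (n : ℝ) ^ (-(3 / 2) : ℝ) = (n * Real.sqrt n)⁻¹ := by
            rw [Real.rpow_neg hn0.le, show (3 / 2 : ℝ) = 1 + 1 / 2 by norm_num, Real.rpow_add hn0,
              Real.rpow_one, Real.sqrt_eq_rpow]
          rw [e1]
          have h3 : 0 ≤ (Λ n : ℝ) := vonMangoldt_nonneg
          calc Λ n * (n * Real.sqrt n)⁻¹ * (|B0_b1 D (Real.log n / L)| * n) ≤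
              Λ n * (n * Real.sqrt n)⁻¹ * (B * n) := by
                gcongr
                exact hB _
            _ = _ := by
                field_simp
      _ ≤ B * (C2 * (1 + Real.log ⌊T⌋₊)) := by
          rw [← Finset.mul_sum]
          exact mul_le_mul_of_nonneg_left (hnp _ hfl) hB0
      _ ≤ _ := by
          gcongr
          exact Real.log_le_log (by exact_mod_cast hfl) (Nat.floor_le hT0.le)
  have hfinal : L * ‖Pr1 D T t‖ ≤ (C1 * L * W1 T t + 120 * C1 * L) + B * (C2 * (1 + L)) := by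
    have h1 : ‖(L : ℂ) * Pr1 D T t‖ = L * ‖Pr1 D T t‖ := by
      rw [norm_mul, Complex.norm_real, Real.norm_of_nonneg hL0.le]
    rw [← h1, hsplit]
    refine (norm_sub_le _ _).trans ?_
    gcongr
  have h2 : ‖Pr1 D T t‖ ≤ C1 * W1 T t + 120 * C1 + 2 * B * C2 := by
    have h3 : L * ‖Pr1 D T t‖ ≤ L * (C1 * W1 T t + 120 * C1 + 2 * B * C2) := by
      refine hfinal.trans ?_
      have e2 : B * (C2 * (1 + L)) ≤ L * (2 * B * C2) := by
        have : 0 ≤ B * C2 := by positivity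
        nlinarith
      calc (C1 * L * W1 T t + 120 * C1 * L) + B * (C2 * (1 + L)) ≤
          (C1 * L * W1 T t + 120 * C1 * L) + L * (2 * B * C2) := by gcongr
        _ = _ := by ring
    exact le_of_mul_le_mul_left h3 hL0
  refine h2.trans ?_
  have : 0 ≤ B * C2 := by positivity
  nlinarith [mul_nonneg hC1.le hW, mul_nonneg this hW]

end Pool.Agent.AHD
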