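import Pool.Agent.ZGap.AH.B0
import Pool.Agent.ZGap.Half.Box
import Pool.Agent.ZGap.Res.D8

/-!
# Moments of V in boxes
-/

open scoped ContDiff

namespace Pool.Agent.AHD

open Complex MeasureTheory Set Pool.Agent.Hadamard Pool.Agent.HalfGap
open Pool.Agent.ZGap.Res (PP ell)

/-! ### Generic convolution inequalities -/

lemma B1_int_mul {w g : ℝ → ℝ} (hwi : Integrable w) (hg : Continuous g) (hg0 : ∀ x, 0 ≤ g x)
    {B : ℝ} (hB : ∀ x, g x ≤ B) : Integrable fun x => w x * g x := by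
  refine hwi.mul_bdd (c := B) hg.aestronglyMeasurable (Filter.Eventually.of_forall fun x => ?_)
  rw [Real.norm_of_nonneg (hg0 x)]
  exact hB x

/-- Jensen's inequality for powers of two. -/
lemma B1_jensen {w : ℝ → ℝ} (hw0 : ∀ x, 0 ≤ w x) (hwi : Integrable w) (j : ℕ) :
    ∀ (g : ℝ → ℝ), Continuous g → (∀ x, 0 ≤ g x) → ∀ B : ℝ, (∀ x, g x ≤ B) →
    (∫ x, w x * g x) ^ (2 ^ j) ≤ (∫ x, w x) ^ (2 ^ j - 1) * ∫ x, w x * g x ^ (2 ^ j) := by
  induction j with
  | zero =>
    intro g hg hg0 B hB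
    simp
  | succ j ih =>
    intro g hg hg0 B hB
    have hW : 0 ≤ ∫ x, w x := integral_nonneg hw0
    have hB0 : ∀ x, g x ^ 2 ≤ B ^ 2 := fun x => by
      have := hg0 x
      have := hB x
      gcongr
    have i1 := B1_int_mul hwi hg hg0 hB
    have i2 := B1_int_mul hwi (hg.pow 2) (fun x => sq_nonneg (g x)) hB0
    have h1 := Pool.Agent.ZGap.Res.FM.sq_integral_le hw0 hwi i1 i2
    have h2 := ih (fun x => g x ^ 2) (hg.pow 2) (fun x => sq_nonneg _) (B ^ 2) hB0
    have e1 : (2:ℕ) ^ (j + 1) = 2 * 2 ^ j := by rw [pow_succ]; ring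
    have h3 : 1 ≤ (2:ℕ) ^ j := Nat.one_le_two_pow
    calc (∫ x, w x * g x) ^ (2 ^ (j + 1)) = ((∫ x, w x * g x) ^ 2) ^ (2 ^ j) := by
          rw [e1, pow_mul]
      _ ≤ ((∫ x, w x) * ∫ x, w x * g x ^ 2) ^ (2 ^ j) := by gcongr
      _ = (∫ x, w x) ^ (2 ^ j) * (∫ x, w x * g x ^ 2) ^ (2 ^ j) := mul_pow _ _ _
      _ ≤ (∫ x, w x) ^ (2 ^ j) * ((∫ x, w x) ^ (2 ^ j - 1) * ∫ x, w x * (g x ^ 2) ^ (2 ^ j)) := by
          gcongr
      _ = _ := by
          have e2 : (2:ℕ) ^ (j + 1) - 1 = 2 ^ j + (2 ^ j - 1) := by omega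
          have e3 : ∀ x, (g x ^ 2) ^ (2 ^ j) = g x ^ (2 ^ (j + 1)) := fun x => by
            rw [← pow_mul, e1]
          simp_rw [e3]
          rw [e2, pow_add _ (2 ^ j) (2 ^ j - 1)]
          exact (mul_assoc _ _ _).symm

lemma B1_conv_continuous {w : ℝ → ℝ} (hwc : Continuous w) (hw0 : ∀ x, 0 ≤ w x) (hwi : Integrable w)
    {b : ℝ → ℝ} (hbc : Continuous b) (hb0 : ∀ x, 0 ≤ b x) {B : ℝ} (hbB : ∀ x, b x ≤ B)
    {s : ℝ → ℝ} (hs : Continuous s) : Continuous (fun t => ∫ x, w x * b (t - s x)) := by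
  refine continuous_of_dominated (bound := fun u => w u * B) (fun t => ?_) (fun t => ?_)
    (hwi.mul_const _) ?_
  · exact Continuous.aestronglyMeasurable (by fun_prop)
  · refine Filter.Eventually.of_forall fun u => ?_
    rw [norm_mul, Real.norm_of_nonneg (hw0 u), Real.norm_of_nonneg (hb0 _)]
    have := hbB (t - s u)
    have := hw0 u
    gcongr
  · exact Filter.Eventually.of_forall fun u => by fun_prop

lemma B1_conv {w : ℝ → ℝ} (hwc : Continuous w) (hw0 : ∀ x, 0 ≤ w x) (hwi : Integrable w)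
    {b : ℝ → ℝ} (hbc : Continuous b) (hb0 : ∀ x, 0 ≤ b x) {B : ℝ} (hbB : ∀ x, b x ≤ B)
    {s : ℝ → ℝ} (hs : Continuous s) (j : ℕ) {T1 T2 : ℝ} (hle : T1 ≤ T2) {M : ℝ → ℝ}
    (hM : Integrable fun x => w x * M x)
    (hbM : ∀ x, ∫ t in T1..T2, b (t - s x) ^ (2 ^ j) ≤ M x) :
    ∫ t in T1..T2, (∫ x, w x * b (t - s x)) ^ (2 ^ j) ≤
      (∫ x, w x) ^ (2 ^ j - 1) * ∫ x, w x * M x := by
  have hW : 0 ≤ ∫ x, w x := integral_nonneg hw0
  have hBj : ∀ x, b x ^ (2 ^ j) ≤ B ^ (2 ^ j) := fun x => by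
    have := hb0 x
    have := hbB x
    gcongr
  have hprod : Integrable (fun p : ℝ × ℝ => w p.2 * b (p.1 - s p.2) ^ (2 ^ j))
      ((volume.restrict (Ioc T1 T2)).prod volume) := by
    have h1 : Integrable (fun _ : ℝ => B ^ (2 ^ j)) (volume.restrict (Ioc T1 T2)) :=
      integrableOn_const (by rw [Real.volume_Ioc]; exact ENNReal.ofReal_ne_top)
    have h2 := h1.mul_prod hwi
    refine h2.mono' ?_ (Filter.Eventually.of_forall fun p => ?_)
    · exact Continuous.aestronglyMeasurable (by fun_prop)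
    · rw [norm_mul, Real.norm_of_nonneg (hw0 _), Real.norm_of_nonneg (pow_nonneg (hb0 _) _),
        mul_comm]
      have := hBj (p.1 - s p.2)
      have := hw0 p.2
      gcongr
  have hii : IntervalIntegrable (fun t => ∫ x : ℝ, w x * b (t - s x) ^ (2 ^ j))
      volume T1 T2 := by
    rw [intervalIntegrable_iff, uIoc_of_le hle]
    exact hprod.integral_prod_left
  have hswap : ∫ t in T1..T2, ∫ x : ℝ, w x * b (t - s x) ^ (2 ^ j) =
      ∫ x : ℝ, w x * ∫ t in T1..T2, b (t - s x) ^ (2 ^ j) := by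
    rw [intervalIntegral.integral_of_le hle, integral_integral_swap hprod]
    refine integral_congr_ae (Filter.Eventually.of_forall fun u => ?_)
    simp only
    rw [intervalIntegral.integral_of_le hle, integral_const_mul]
  have hEc := B1_conv_continuous hwc hw0 hwi hbc hb0 hbB hs
  calc ∫ t in T1..T2, (∫ x, w x * b (t - s x)) ^ (2 ^ j) ≤
      ∫ t in T1..T2, (∫ x, w x) ^ (2 ^ j - 1) * ∫ x : ℝ, w x * b (t - s x) ^ (2 ^ j) := by
        refine intervalIntegral.integral_mono_on hle ?_ (hii.const_mul _) fun t _ => ?_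
        · exact (hEc.pow _).intervalIntegrable _ _
        · exact B1_jensen hw0 hwi j (fun x => b (t - s x)) (by fun_prop) (fun x => hb0 _) B
            (fun x => hbB _)
    _ = (∫ x, w x) ^ (2 ^ j - 1) * ∫ x : ℝ, w x * ∫ t in T1..T2, b (t - s x) ^ (2 ^ j) := by
        rw [intervalIntegral.integral_const_mul, hswap]
    _ ≤ _ := by
        refine mul_le_mul_of_nonneg_left ?_ (by positivity)
        refine integral_mono_of_nonneg (Filter.Eventually.of_forall fun u => ?_) hM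
          (Filter.Eventually.of_forall fun u => ?_)
        · refine mul_nonneg (hw0 u) ?_
          exact intervalIntegral.integral_nonneg hle fun t _ => pow_nonneg (hb0 _) _
        · exact mul_le_mul_of_nonneg_left (hbM u) (hw0 u)

/-! ### The prime sum -/

/-- The coefficient at a prime. -/
noncomputable def B1_c (D : AData) (T : ℝ) (p : ℕ) : ℝ := D.f (xip T p) / Real.sqrt p

lemma B1_c_nonneg (D : AData) (T : ℝ) (p : ℕ) : 0 ≤ B1_c D T p := by
  unfold B1_c
  have := D.f_nonneg (xip T p)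
  positivity

lemma B1_c_le_one (D : AData) (T : ℝ) {p : ℕ} (hp : 1 ≤ p) : B1_c D T p ≤ 1 := by
  unfold B1_c
  have h0 := D.f_nonneg (xip T p)
  have h1 := D.f_le (xip T p)
  have hs : 1 ≤ Real.sqrt p := by
    rw [Real.one_le_sqrt]; exact_mod_cast hp
  rw [div_le_iff₀ (by linarith)]
  linarith

lemma B1_Pr1_continuous (D : AData) (T : ℝ) : Continuous (Pr1 D T) := by
  unfold Pr1; fun_prop

lemma B1_Pr1_eq (D : AData) (T t : ℝ) : Pr1 D T t = ∑ p ∈ PP T, ((B1_c D T p : ℝ) : ℂ) *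
    Complex.exp (((-(t * Real.log p) : ℝ) : ℂ) * I) := rfl

lemma B1_norm_Pr1_le (D : AData) {T : ℝ} (hT : 0 ≤ T) (t : ℝ) : ‖Pr1 D T t‖ ≤ T := by
  rw [B1_Pr1_eq]
  calc _ ≤ ∑ p ∈ PP T, (1:ℝ) := by
        refine (norm_sum_le _ _).trans (Finset.sum_le_sum fun p hp => ?_)
        rw [PP, Finset.mem_filter, Finset.mem_Icc] at hp
        rw [norm_mul, Complex.norm_exp_ofReal_mul_I, mul_one, Complex.norm_real, Real.norm_eq_abs,
          abs_of_nonneg (B1_c_nonneg D T p)]
        exact B1_c_le_one D T hp.1.1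
    _ = (PP T).card := by rw [Finset.sum_const, nsmul_eq_mul, mul_one]
    _ ≤ T := by
        have h1 : (PP T).card ≤ ⌊T⌋₊ := by
          refine (Finset.card_filter_le _ _).trans ?_
          simp
        exact (by exact_mod_cast h1 : ((PP T).card : ℝ) ≤ ⌊T⌋₊).trans (Nat.floor_le hT)

lemma B1_c_sq_le (D : AData) {T : ℝ} (hT : 1 < T) {p : ℕ} (hp : 1 ≤ p) :
    B1_c D T p ^ 2 ≤ 1 / (D.ep * Real.log T) * (Real.log p / p) := by
  have hL : 0 < Real.log T := Real.log_pos hT
  have hp0 : (0:ℝ) < p := by exact_mod_cast hp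
  have hep := D.ep_pos
  have hlp : 0 ≤ Real.log p := Real.log_natCast_nonneg p
  unfold B1_c xip
  rcases le_or_gt (Real.log p / Real.log T) D.ep with h | h
  · rw [D.f_low _ h]
    have : ((0:ℝ) / Real.sqrt p) ^ 2 = 0 := by simp
    rw [this]
    positivity
  · have h0 := D.f_nonneg (Real.log p / Real.log T)
    have h1 := D.f_le (Real.log p / Real.log T)
    rw [lt_div_iff₀ hL] at h
    rw [div_pow, Real.sq_sqrt hp0.le]
    have h2 : D.f (Real.log p / Real.log T) ^ 2 ≤ 1 := pow_le_one₀ h0 h1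
    have h3 : 1 ≤ Real.log p / (D.ep * Real.log T) := by
      rw [le_div_iff₀ (by positivity)]; linarith
    calc D.f (Real.log p / Real.log T) ^ 2 / p ≤ 1 / p := by gcongr
      _ ≤ (Real.log p / (D.ep * Real.log T)) / p := by gcongr
      _ = _ := by field_simp

lemma B1_sum_c_sq_le (D : AData) {T : ℝ} (hT : Real.exp 2 ≤ T) :
    ∑ p ∈ PP T, B1_c D T p ^ 2 ≤ 4 / D.ep := by
  have hT0 : 0 < T := (Real.exp_pos _).trans_le hT
  have hL2 : 2 ≤ Real.log T := by rw [Real.le_log_iff_exp_le hT0]; exact hT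
  have hT1 : 1 < T := by
    have := Real.add_one_le_exp (2:ℝ); linarith
  have hfl : 1 ≤ ⌊T⌋₊ := Nat.le_floor (by push_cast; linarith)
  have h1 := Pool.Agent.DirPoly.sum_log_div_le hfl
  have hlog : Real.log ⌊T⌋₊ ≤ Real.log T :=
    Real.log_le_log (by exact_mod_cast hfl) (Nat.floor_le hT0.le)
  have hl4 : Real.log 4 ≤ 2 := by
    have : Real.log 4 = 2 * Real.log 2 := by
      rw [show (4 : ℝ) = 2 ^ 2 by norm_num, Real.log_pow]; norm_num
    have := Real.log_two_lt_d9
    linarith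
  have hl40 : 0 ≤ Real.log 4 := Real.log_nonneg (by norm_num)
  have hep := D.ep_pos
  calc _ ≤ ∑ p ∈ PP T, 1 / (D.ep * Real.log T) * (Real.log p / p) := by
        refine Finset.sum_le_sum fun p hp => ?_
        rw [PP, Finset.mem_filter, Finset.mem_Icc] at hp
        exact B1_c_sq_le D hT1 hp.1.1
    _ = 1 / (D.ep * Real.log T) * ∑ p ∈ PP T, (Real.log p / p) := by
        rw [Finset.mul_sum]
    _ ≤ 1 / (D.ep * Real.log T) * (2 * (2 * Real.log T)) := by
        have hLp : 0 < Real.log T := by linarith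
        gcongr
        refine h1.trans ?_
        gcongr
        linarith
    _ = _ := by
        have hLp : Real.log T ≠ 0 := by linarith
        field_simp
        ring

/-- The constant. -/
noncomputable def B1_c2 (D : AData) : ℝ := Real.sqrt (4 / D.ep) + 1

lemma B1_one_le_c2 (D : AData) : 1 ≤ B1_c2 D := by
  unfold B1_c2
  have := Real.sqrt_nonneg (4 / D.ep)
  linarith

lemma B1_le_c2_sq (D : AData) : 4 / D.ep ≤ B1_c2 D ^ 2 := by
  unfold B1_c2
  have h0 : 0 ≤ 4 / D.ep := by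
    have := D.ep_pos
    positivity
  have h1 := Real.sqrt_nonneg (4 / D.ep)
  have h2 := Real.sq_sqrt h0
  nlinarith

/-! ### The Fourier representation -/

/-- local factor -/
noncomputable def B1_X (D : AData) (T t x : ℝ) (p : ℕ) : ℂ :=
  ((-(B1_c D T p) : ℝ) : ℂ) *
    Complex.exp ((((-(t - 2 * Real.pi * x / Real.log T)) * Real.log p : ℝ) : ℂ) * I)

lemma B1_norm_X (D : AData) (T t x : ℝ) (p : ℕ) : ‖B1_X D T t x p‖ = B1_c D T p := by
  unfold B1_X
  rw [norm_mul, Complex.norm_exp_ofReal_mul_I, mul_one, Complex.norm_real, Real.norm_eq_abs,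
    abs_neg, abs_of_nonneg (B1_c_nonneg D T p)]

lemma B1_X_continuous (D : AData) (T t : ℝ) (p : ℕ) : Continuous (fun x => B1_X D T t x p) := by
  unfold B1_X; fun_prop

lemma B1_sum_X (D : AData) (T t x : ℝ) :
    ∑ p ∈ PP T, B1_X D T t x p = -Pr1 D T (t - 2 * Real.pi * x / Real.log T) := by
  rw [B1_Pr1_eq, ← Finset.sum_neg_distrib]
  refine Finset.sum_congr rfl fun p _ => ?_
  unfold B1_X
  have e : (-(t - 2 * Real.pi * x / Real.log T)) * Real.log p =
      -((t - 2 * Real.pi * x / Real.log T) * Real.log p) := by ring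
  rw [e]
  push_cast
  ring

lemma B1_norm_power_sum_le (D : AData) {T : ℝ} (hT : Real.exp 2 ≤ T) (t x : ℝ) (l : ℕ)
    (hl : 1 ≤ l) : ‖∑ p ∈ PP T, B1_X D T t x p ^ l‖ ≤
      (‖Pr1 D T (t - 2 * Real.pi * x / Real.log T)‖ + B1_c2 D) ^ l := by
  have hc2 := B1_one_le_c2 D
  rcases Nat.eq_or_lt_of_le hl with h1 | h1
  · rw [← h1]
    simp only [pow_one]
    rw [B1_sum_X, norm_neg]
    linarith
  · have hsum := (B1_sum_c_sq_le D hT).trans (B1_le_c2_sq D)
    have hle : ∀ p ∈ PP T, B1_c D T p ≤ B1_c2 D := by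
      intro p hp
      rw [PP, Finset.mem_filter, Finset.mem_Icc] at hp
      exact (B1_c_le_one D T hp.1.1).trans hc2
    have h2 : ‖∑ p ∈ PP T, B1_X D T t x p ^ l‖ ≤ B1_c2 D ^ l := by
      obtain ⟨j, rfl⟩ : ∃ j, l = j + 2 := ⟨l - 2, by omega⟩
      calc _ ≤ ∑ p ∈ PP T, B1_c2 D ^ j * B1_c D T p ^ 2 := by
            refine (norm_sum_le _ _).trans (Finset.sum_le_sum fun p hp => ?_)
            rw [norm_pow, B1_norm_X, pow_add]
            have h0 := B1_c_nonneg D T p
            have h3 := hle p hp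
            gcongr
        _ = B1_c2 D ^ j * ∑ p ∈ PP T, B1_c D T p ^ 2 := by rw [Finset.mul_sum]
        _ ≤ B1_c2 D ^ j * B1_c2 D ^ 2 := by gcongr
        _ = _ := (pow_add _ _ _).symm
    refine h2.trans ?_
    have := norm_nonneg (Pr1 D T (t - 2 * Real.pi * x / Real.log T))
    gcongr
    linarith

/-- The degree. -/
noncomputable def B1_M (D : AData) : ℕ := ⌈1 / D.ep⌉₊

/-- The integrand. -/
noncomputable def B1_E (D : AData) (T t x : ℝ) : ℂ :=
  ∑ m ∈ Finset.range (B1_M D + 1), Pool.Agent.ZGap.Res.FM.es (PP T) (B1_X D T t x) m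

lemma B1_norm_E_le (D : AData) {T : ℝ} (hT : Real.exp 2 ≤ T) (t x : ℝ) :
    ‖B1_E D T t x‖ ≤ (B1_M D + 1) *
      (‖Pr1 D T (t - 2 * Real.pi * x / Real.log T)‖ + B1_c2 D) ^ B1_M D := by
  have hc2 := B1_one_le_c2 D
  set Y := ‖Pr1 D T (t - 2 * Real.pi * x / Real.log T)‖ + B1_c2 D with hY
  have hY1 : 1 ≤ Y := by
    have := norm_nonneg (Pr1 D T (t - 2 * Real.pi * x / Real.log T))
    linarith
  unfold B1_E
  calc _ ≤ ∑ m ∈ Finset.range (B1_M D + 1), Y ^ B1_M D := by
        refine (norm_sum_le _ _).trans (Finset.sum_le_sum fun m hm => ?_)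
        rw [Finset.mem_range] at hm
        refine (Pool.Agent.ZGap.Res.FM.norm_es_le (by linarith)
          (fun l hl => B1_norm_power_sum_le D hT t x l hl) m).trans ?_
        exact pow_le_pow_right₀ hY1 (by omega)
    _ = _ := by
        rw [Finset.sum_const, Finset.card_range, nsmul_eq_mul]
        push_cast
        ring

/-- The coefficient of a finite set. -/
noncomputable def B1_a (D : AData) (T : ℝ) (S : Finset ℕ) : ℝ :=
  D.F (ell S / Real.log T) * ∏ p ∈ S, -(B1_c D T p)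

lemma B1_int_X (D : AData) {Φ : ℝ → ℂ}
    (hΦ : ∀ u : ℝ, ∫ x : ℝ, Φ x * Complex.exp (((2 * Real.pi * x * u : ℝ) : ℂ) * I) = (D.F u : ℂ))
    (T t : ℝ) (S : Finset ℕ) :
    ∫ x : ℝ, Φ x * ∏ p ∈ S, B1_X D T t x p =
      (B1_a D T S : ℂ) * Complex.exp (((-(t * ell S) : ℝ) : ℂ) * I) := by
  have h1 : ∀ x : ℝ, Φ x * ∏ p ∈ S, B1_X D T t x p =
      (Φ x * Complex.exp (((2 * Real.pi * x * (ell S / Real.log T) : ℝ) : ℂ) * I)) *
      (((∏ p ∈ S, -(B1_c D T p) : ℝ) : ℂ) * Complex.exp (((-(t * ell S) : ℝ) : ℂ) * I)) := by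
    intro x
    have e0 : ∏ p ∈ S, B1_X D T t x p = ((∏ p ∈ S, -(B1_c D T p) : ℝ) : ℂ) *
        Complex.exp ((((-(t - 2 * Real.pi * x / Real.log T)) * ell S : ℝ) : ℂ) * I) := by
      rw [← Pool.Agent.ZGap.Res.FM.prod_exp_ell]
      rfl
    rw [e0]
    have e1 : Complex.exp ((((-(t - 2 * Real.pi * x / Real.log T)) * ell S : ℝ) : ℂ) * I) =
        Complex.exp (((2 * Real.pi * x * (ell S / Real.log T) : ℝ) : ℂ) * I) *
        Complex.exp (((-(t * ell S) : ℝ) : ℂ) * I) := by
      rw [← Complex.exp_add]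
      congr 1
      push_cast
      ring
    rw [e1]
    ring
  simp_rw [h1]
  rw [integral_mul_const, hΦ]
  unfold B1_a
  push_cast
  ring

lemma B1_card_le (D : AData) {T : ℝ} (hT : 1 < T) {S : Finset ℕ}
    (h : B1_a D T S ≠ 0) : S.card ≤ B1_M D := by
  have hL : 0 < Real.log T := Real.log_pos hT
  have hep := D.ep_pos
  unfold B1_a at h
  have hF : D.F (ell S / Real.log T) ≠ 0 := left_ne_zero_of_mul h
  have hP : ∏ p ∈ S, -(B1_c D T p) ≠ 0 := right_ne_zero_of_mul h
  have h1 : ell S / Real.log T < 1 := by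
    by_contra hcon
    push Not at hcon
    refine hF (D.F_zero _ ?_)
    nlinarith
  rw [div_lt_one (by positivity)] at h1
  have h2 : ∀ p ∈ S, D.ep * Real.log T ≤ Real.log p := by
    intro p hp
    have h3 := (Finset.prod_ne_zero_iff.mp hP) p hp
    by_contra hcon
    push Not at hcon
    apply h3
    unfold B1_c xip
    rw [D.f_low, zero_div, neg_zero]
    rw [div_le_iff₀ hL]
    exact hcon.le
  have h3 : S.card * (D.ep * Real.log T) ≤ ell S := by
    unfold Pool.Agent.ZGap.Res.ell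
    rw [← nsmul_eq_mul]
    exact Finset.card_nsmul_le_sum _ _ _ h2
  have h4 : (S.card : ℝ) < 1 / D.ep := by
    rw [lt_div_iff₀ hep]
    have h5 : S.card * (D.ep * Real.log T) < Real.log T := lt_of_le_of_lt h3 h1
    have h6 : (S.card * D.ep) * Real.log T < 1 * Real.log T := by linarith
    exact lt_of_mul_lt_mul_right h6 hL.le
  have h5 : (S.card : ℝ) ≤ B1_M D := h4.le.trans (Nat.le_ceil _)
  exact_mod_cast h5

/-- The sum over finite sets. -/
noncomputable def B1_V (D : AData) (T t : ℝ) : ℂ :=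
  ∑ S ∈ (PP T).powerset, (B1_a D T S : ℂ) * Complex.exp (((-(t * ell S) : ℝ) : ℂ) * I)

lemma B1_V_eq_integral (D : AData) {Φ : ℝ → ℂ} (hΦc : Continuous Φ)
    (hΦi : Integrable fun x => ‖Φ x‖)
    (hΦ : ∀ u : ℝ, ∫ x : ℝ, Φ x * Complex.exp (((2 * Real.pi * x * u : ℝ) : ℂ) * I) = (D.F u : ℂ))
    {T : ℝ} (hT : 1 < T) (t : ℝ) : B1_V D T t = ∫ x : ℝ, Φ x * B1_E D T t x := by
  classical
  have hint : ∀ S : Finset ℕ, Integrable fun x : ℝ => Φ x * ∏ p ∈ S, B1_X D T t x p := by
    intro S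
    refine (hΦi.mul_const (∏ p ∈ S, B1_c D T p)).mono' ?_
      (Filter.Eventually.of_forall fun x => ?_)
    · exact (hΦc.mul (continuous_finsetProd _ fun p _ =>
        B1_X_continuous D T t p)).aestronglyMeasurable
    · rw [norm_mul, norm_prod]
      simp only [B1_norm_X]
      exact le_rfl
  have h1 : ∀ x : ℝ, Φ x * B1_E D T t x = ∑ m ∈ Finset.range (B1_M D + 1),
      ∑ S ∈ (PP T).powersetCard m, Φ x * ∏ p ∈ S, B1_X D T t x p := by
    intro x
    unfold B1_E Pool.Agent.ZGap.Res.FM.es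
    rw [Finset.mul_sum]
    refine Finset.sum_congr rfl fun m _ => ?_
    rw [Finset.mul_sum]
  simp_rw [h1]
  rw [integral_finsetSum _ fun m _ => integrable_finsetSum _ fun S _ => hint S]
  have h2 : ∀ m ∈ Finset.range (B1_M D + 1),
      ∫ x, ∑ S ∈ (PP T).powersetCard m, Φ x * ∏ p ∈ S, B1_X D T t x p =
      ∑ S ∈ (PP T).powerset, if S.card = m then
        (B1_a D T S : ℂ) * Complex.exp (((-(t * ell S) : ℝ) : ℂ) * I) else 0 := by
    intro m _
    rw [integral_finsetSum _ fun S _ => hint S, ← Finset.sum_filter]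
    refine Finset.sum_congr ?_ fun S _ => B1_int_X D hΦ T t S
    ext S
    rw [Finset.mem_powersetCard, Finset.mem_filter, Finset.mem_powerset]
  rw [Finset.sum_congr rfl h2, Finset.sum_comm]
  unfold B1_V
  refine Finset.sum_congr rfl fun S _ => ?_
  rw [Finset.sum_ite_eq]
  split_ifs with hc
  · rfl
  · have h0 : B1_a D T S = 0 := by
      by_contra hne
      apply hc
      have := B1_card_le D hT hne
      rw [Finset.mem_range]
      omega
    rw [h0]
    simp

/-! ### The polynomial as a sum over finite sets of primes -/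

lemma B1_cpow {n : ℕ} (hn : n ≠ 0) (z : ℂ) :
    (n : ℂ) ^ (-(1 / 2 + z * I)) = ((n:ℝ) ^ (-(1:ℝ) / 2) : ℝ) *
      Complex.exp (-(I * z * (Real.log n : ℝ))) := by
  have hn0 : (n : ℂ) ≠ 0 := by exact_mod_cast hn
  have hnr : (0:ℝ) < n := by exact_mod_cast Nat.pos_of_ne_zero hn
  rw [Complex.cpow_def_of_ne_zero hn0, Real.rpow_def_of_pos hnr, Complex.ofReal_exp,
    ← Complex.exp_add]
  congr 1
  rw [← Complex.ofReal_natCast, ← Complex.ofReal_log hnr.le]
  push_cast
  ring

lemma B1_primeFactors_pr {T : ℝ} {S : Finset ℕ} (hS : S ⊆ PP T) :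
    (Pool.Agent.ZGap.Res.pr S).primeFactors = S :=
  Nat.primeFactors_prod (s := S) (fun p hp => (Pool.Agent.ZGap.Res.mem_PP.mp (hS hp)).1)

/-- The product `∏ p^{-1/2}`. -/
noncomputable def B1_rs (U : Finset ℕ) : ℝ := ∏ p ∈ U, (Real.sqrt p)⁻¹

lemma B1_rs_eq (U : Finset ℕ) :
    B1_rs U = ((Pool.Agent.ZGap.Res.pr U : ℕ) : ℝ) ^ (-(1:ℝ) / 2) := by
  unfold B1_rs Pool.Agent.ZGap.Res.pr
  push_cast
  rw [← Real.finsetProd_rpow _ _ (fun _ _ => Nat.cast_nonneg _)]
  refine Finset.prod_congr rfl fun p _ => ?_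
  rw [Real.sqrt_eq_rpow, ← Real.rpow_neg (Nat.cast_nonneg p)]
  congr 1
  norm_num

lemma B1_av_pr (D : AData) {T : ℝ} {S : Finset ℕ} (hS : S ⊆ PP T) :
    av D T (Pool.Agent.ZGap.Res.pr S) * ((Pool.Agent.ZGap.Res.pr S : ℕ) : ℝ) ^ (-(1:ℝ) / 2) =
      B1_a D T S := by
  unfold av B1_a
  rw [B1_primeFactors_pr hS, ← Pool.Agent.ZGap.Res.ell_eq hS, ← B1_rs_eq]
  have h1 : ArithmeticFunction.moebius (Pool.Agent.ZGap.Res.pr S) = ∏ p ∈ S, (-1 : ℤ) := by
    unfold Pool.Agent.ZGap.Res.pr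
    rw [ArithmeticFunction.isMultiplicative_moebius.map_prod_of_prime S
      (fun p hp => (Pool.Agent.ZGap.Res.mem_PP.mp (hS hp)).1)]
    exact Finset.prod_congr rfl fun p hp =>
      ArithmeticFunction.moebius_apply_prime (Pool.Agent.ZGap.Res.mem_PP.mp (hS hp)).1
  rw [h1]
  have h2 : ∏ p ∈ S, -(B1_c D T p) = (∏ p ∈ S, (-1:ℝ)) *
      ((∏ p ∈ S, D.f (Real.log p / Real.log T)) * B1_rs S) := by
    unfold B1_rs
    rw [← Finset.prod_mul_distrib, ← Finset.prod_mul_distrib]
    refine Finset.prod_congr rfl fun p _ => ?_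
    unfold B1_c xip
    rw [div_eq_mul_inv]
    ring
  rw [h2]
  push_cast
  ring

/-- The sum over finite sets, complex argument. -/
noncomputable def B1_VC (D : AData) (T : ℝ) (z : ℂ) : ℂ :=
  ∑ S ∈ (PP T).powerset, (B1_a D T S : ℂ) * Complex.exp (-(I * z * (ell S : ℝ)))

lemma B1_VC_ofReal (D : AData) (T t : ℝ) : B1_VC D T t = B1_V D T t := by
  unfold B1_VC B1_V
  refine Finset.sum_congr rfl fun S _ => ?_
  congr 2
  push_cast
  ring

lemma B1_Vs_eq (D : AData) {T : ℝ} (hT : 1 < T) (z : ℂ) :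
    Vs D T (1 / 2 + z * I) = B1_VC D T z := by
  classical
  have hL : 0 < Real.log T := Real.log_pos hT
  have hT0 : 0 < T := by linarith
  have hep := D.ep_pos
  set g : ℕ → ℂ := fun n => (av D T n : ℂ) * (n : ℂ) ^ (-(1 / 2 + z * I)) with hg
  have h1 : ∀ S ∈ (PP T).powerset, (B1_a D T S : ℂ) * Complex.exp (-(I * z * (ell S : ℝ))) =
      g (Pool.Agent.ZGap.Res.pr S) := by
    intro S hS
    rw [Finset.mem_powerset] at hS
    simp only [hg]
    rw [B1_cpow (Pool.Agent.ZGap.Res.pr_pos hS).ne', ← B1_av_pr D hS,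
      ← Pool.Agent.ZGap.Res.ell_eq hS]
    push_cast
    ring
  unfold B1_VC
  rw [Finset.sum_congr rfl h1]
  have hinj : Set.InjOn Pool.Agent.ZGap.Res.pr ((PP T).powerset : Set (Finset ℕ)) := by
    intro S hS S' hS' h
    rw [Finset.mem_coe, Finset.mem_powerset] at hS hS'
    rw [← B1_primeFactors_pr hS, ← B1_primeFactors_pr hS', h]
  rw [← Finset.sum_image (f := g) (g := Pool.Agent.ZGap.Res.pr) hinj]
  have h2 : Vs D T (1 / 2 + z * I) = ∑ n ∈ Finset.Icc 1 (XN D T), g n := rfl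
  rw [h2, Finset.sum_subset (Finset.subset_union_left (s₁ := Finset.Icc 1 (XN D T))
    (s₂ := (PP T).powerset.image Pool.Agent.ZGap.Res.pr)) ?_]
  · refine (Finset.sum_subset Finset.subset_union_right ?_).symm
    intro n hn hn'
    rw [Finset.mem_union] at hn
    rcases hn with hn | hn
    · rw [Finset.mem_Icc] at hn
      by_cases hsq : Squarefree n
      · exfalso
        apply hn'
        rw [Finset.mem_image]
        refine ⟨n.primeFactors, ?_, ?_⟩
        · rw [Finset.mem_powerset]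
          intro p hp
          rw [Pool.Agent.ZGap.Res.mem_PP]
          refine ⟨Nat.prime_of_mem_primeFactors hp, ?_⟩
          refine (Nat.le_of_mem_primeFactors hp).trans (hn.2.trans ?_)
          unfold XN
          refine Nat.floor_le_floor ?_
          calc T ^ (1 - D.ep) ≤ T ^ (1:ℝ) := by
                apply Real.rpow_le_rpow_of_exponent_le hT.le
                linarith
            _ = T := Real.rpow_one T
        · unfold Pool.Agent.ZGap.Res.pr
          exact Nat.prod_primeFactors_of_squarefree hsq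
      · simp only [hg]
        unfold av
        rw [ArithmeticFunction.moebius_eq_zero_of_not_squarefree hsq]
        simp
    · exact absurd hn hn'
  · intro n hn hn'
    rw [Finset.mem_union] at hn
    rcases hn with hn | hn
    · exact absurd hn hn'
    · rw [Finset.mem_image] at hn
      obtain ⟨S, hS, rfl⟩ := hn
      rw [Finset.mem_powerset] at hS
      have hpos := Pool.Agent.ZGap.Res.pr_pos hS
      have h3 : XN D T < Pool.Agent.ZGap.Res.pr S := by
        by_contra hcon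
        apply hn'
        rw [Finset.mem_Icc]
        exact ⟨hpos, not_lt.mp hcon⟩
      have h4 : T ^ (1 - D.ep) < Pool.Agent.ZGap.Res.pr S := by
        unfold XN at h3
        exact (Nat.floor_lt (by positivity)).mp h3
      have h5 : (1 - D.ep) * Real.log T ≤ Real.log (Pool.Agent.ZGap.Res.pr S) := by
        rw [← Real.log_rpow hT0]
        exact Real.log_le_log (by positivity) h4.le
      simp only [hg]
      unfold av
      rw [D.F_zero]
      · simp
      · rw [le_div_iff₀ hL]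
        nlinarith [mul_nonneg (sq_nonneg D.ep) hL.le]

lemma B1_VC_rep (D : AData) {T : ℝ} (hT : 1 < T) (t : ℝ) (z : ℂ) :
    B1_VC D T z = ∫ u : ℝ, kk ((z - t) * Real.log T) u * B1_V D T (t + u / Real.log T) := by
  have hL : 0 < Real.log T := Real.log_pos hT
  set w : ℂ := (z - t) * Real.log T with hw
  have h1 : ∀ u : ℝ, kk w u * B1_V D T (t + u / Real.log T) =
      ∑ S ∈ (PP T).powerset, ((B1_a D T S : ℂ) * Complex.exp (-(I * t * (ell S : ℝ)))) *
        (kk w u * Complex.exp (((-(2 * Real.pi * u * (ell S / (2 * Real.pi * Real.log T))) : ℝ) : ℂ)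
          * I)) := by
    intro u
    unfold B1_V
    rw [Finset.mul_sum]
    refine Finset.sum_congr rfl fun S _ => ?_
    have e1 : Complex.exp (((-((t + u / Real.log T) * ell S) : ℝ) : ℂ) * I) =
        Complex.exp (-(I * t * (ell S : ℝ))) *
        Complex.exp (((-(2 * Real.pi * u * (ell S / (2 * Real.pi * Real.log T))) : ℝ) : ℂ) * I) := by
      rw [← Complex.exp_add]
      congr 1
      have e2 : 2 * Real.pi * u * (ell S / (2 * Real.pi * Real.log T)) =
          u / Real.log T * ell S := by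
        have := Real.pi_pos
        field_simp
      rw [e2]
      push_cast
      ring
    rw [e1]
    ring
  have hkk : Integrable (kk w) := by
    obtain ⟨C, hC, h⟩ := kk_decay ‖w‖ 2
    refine (integrable_inv_one_add_sq.const_mul C).mono' (kk_continuous w).aestronglyMeasurable
      (Filter.Eventually.of_forall fun u => ?_)
    refine (h w le_rfl u).trans ?_
    have h1 : 1 + u ^ 2 ≤ (1 + |u|) ^ 2 := by nlinarith [abs_nonneg u, sq_abs u]
    gcongr
  have hint : ∀ x : ℝ, Integrable fun u : ℝ => kk w u *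
      Complex.exp (((-(2 * Real.pi * u * x) : ℝ) : ℂ) * I) := by
    intro x
    refine hkk.mul_bdd (c := 1) ?_ (Filter.Eventually.of_forall fun u => ?_)
    · exact Continuous.aestronglyMeasurable (by fun_prop)
    · rw [Complex.norm_exp_ofReal_mul_I]
  simp_rw [h1]
  rw [integral_finsetSum _ fun S _ => (hint _).const_mul _]
  unfold B1_VC
  refine Finset.sum_congr rfl fun S _ => ?_
  rw [integral_const_mul]
  by_cases hq : B1_a D T S = 0
  · rw [hq]; simp
  · have hell0 := Pool.Agent.ZGap.Res.ell_nonneg S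
    have hell : ell S < Real.log T := by
      unfold B1_a at hq
      have hF : D.F (ell S / Real.log T) ≠ 0 := left_ne_zero_of_mul hq
      have h1 : ell S / Real.log T < 1 := by
        by_contra hcon
        push Not at hcon
        refine hF (D.F_zero _ ?_)
        nlinarith [D.ep_pos]
      rwa [div_lt_one hL] at h1
    have hx : |ell S / (2 * Real.pi * Real.log T)| ≤ 1 := by
      have hpi := Real.pi_gt_three
      rw [abs_div, abs_of_pos (by positivity : 0 < 2 * Real.pi * Real.log T),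
        div_le_one (by positivity), abs_of_nonneg hell0]
      nlinarith
    rw [kk_rep w hx, mul_assoc (B1_a D T S : ℂ), ← Complex.exp_add]
    congr 2
    have hL' : (Real.log T : ℂ) ≠ 0 := by exact_mod_cast hL.ne'
    have hpi' : (Real.pi : ℂ) ≠ 0 := by exact_mod_cast Real.pi_ne_zero
    rw [hw]
    push_cast
    field_simp
    ring

/-! ### Moments -/

/-- Moments of the prime sum. -/
theorem B1_Pr1_moment (hRH : RiemannHypothesis) (D : AData) (n : ℕ) : ∃ K T0 : ℝ, 0 < K ∧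
    Real.exp 2 ≤ T0 ∧ ∀ T : ℝ, T0 ≤ T → ∫ t in (T / 4)..(4 * T), ‖Pr1 D T t‖ ^ n ≤ K * T := by
  obtain ⟨C1, T1, hC1, hT1, h1⟩ := Pr1_le hRH D
  obtain ⟨C2, T2, hC2, hT2, h2⟩ := Pool.Agent.ZGap.Res.FM.W1_le hRH (k := n + 4) (by omega)
  obtain ⟨K, hK, h3⟩ := Pool.Agent.ZGap.Res.FM.QQ_moment (k := n + 4) (by omega)
  set C := C1 * (1 + C2) + 1 with hC
  have hC1' : 1 ≤ C := by
    have : 0 < C1 * (1 + C2) := by positivity
    linarith
  refine ⟨C ^ (2 * (n + 4)) * K, max (max T1 T2) (Real.exp 2), by positivity, le_max_right _ _,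
    fun T hT => ?_⟩
  have hTT1 : T1 ≤ T := (le_max_left _ _).trans ((le_max_left _ _).trans hT)
  have hTT2 : T2 ≤ T := (le_max_right _ _).trans ((le_max_left _ _).trans hT)
  have hT1' : 1 ≤ T := hT1.trans hTT1
  obtain ⟨h2k, hW⟩ := h2 T hTT2
  set Q : ℝ → ℝ := Pool.Agent.ZGap.Res.FM.QQ (n + 4) T with hQdef
  have hQ : ∀ t ∈ Icc (T / 4) (4 * T), ‖Pr1 D T t‖ ^ n ≤
      C ^ (2 * (n + 4)) * Q t ^ (2 * (n + 4)) := by
    intro t ht
    have e1 := h1 T hTT1 t ht.1
    have e2 : Pool.Agent.ZGap.Res.FM.W1 T t ≤ C2 * Q t := hW t ht.1 ht.2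
    have e3 : 1 ≤ Q t := Pool.Agent.ZGap.Res.FM.one_le_QQ hT1' t
    have e4 : ‖Pr1 D T t‖ ≤ C * Q t := by
      calc ‖Pr1 D T t‖ ≤ C1 * (1 + Pool.Agent.ZGap.Res.FM.W1 T t) := e1
        _ ≤ C1 * (Q t + C2 * Q t) := by gcongr
        _ = C1 * (1 + C2) * Q t := by ring
        _ ≤ C * Q t := by
            gcongr
            linarith
    have e5 : 1 ≤ C * Q t := by nlinarith
    calc ‖Pr1 D T t‖ ^ n ≤ (C * Q t) ^ n := by gcongr
      _ ≤ (C * Q t) ^ (2 * (n + 4)) := pow_le_pow_right₀ e5 (by omega)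
      _ = _ := mul_pow _ _ _
  have hle : T / 4 ≤ 4 * T := by linarith
  have hPc := B1_Pr1_continuous D T
  have hQc : Continuous Q := Pool.Agent.ZGap.Res.FM.QQ_continuous (n + 4) T
  rw [intervalIntegral.integral_of_le hle, ← integral_Icc_eq_integral_Ioc]
  calc _ ≤ ∫ t in Icc (T / 4) (4 * T), C ^ (2 * (n + 4)) * Q t ^ (2 * (n + 4)) := by
        refine setIntegral_mono_on ?_ ?_ measurableSet_Icc hQ
        · exact (by fun_prop : Continuous fun t => ‖Pr1 D T t‖ ^ n).integrableOn_Icc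
        · exact (by fun_prop : Continuous fun t =>
            C ^ (2 * (n + 4)) * Q t ^ (2 * (n + 4))).integrableOn_Icc
    _ = C ^ (2 * (n + 4)) * ∫ t in Icc (T / 4) (4 * T), Q t ^ (2 * (n + 4)) := by
        rw [integral_const_mul]
    _ ≤ C ^ (2 * (n + 4)) * (K * T) := by
        gcongr
        exact h3 T h2k
    _ = _ := by ring

/-- The shifted moment. -/
theorem B1_shifted_moment (hRH : RiemannHypothesis) (D : AData) (n : ℕ) : ∃ K T0 : ℝ, 0 < K ∧
    Real.exp 2 ≤ T0 ∧ ∀ T : ℝ, T0 ≤ T → ∀ a : ℝ,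
      ∫ t in (T / 2)..(3 * T), ‖Pr1 D T (t - a)‖ ^ n ≤ K * T * (1 + |a|) ^ n := by
  obtain ⟨K, T0, hK, hT0, h⟩ := B1_Pr1_moment hRH D n
  refine ⟨K + 3 * 4 ^ n + 1, T0, by positivity, hT0, fun T hT a => ?_⟩
  have hTe : Real.exp 2 ≤ T := hT0.trans hT
  have hTp : 0 < T := (Real.exp_pos _).trans_le hTe
  have hPc := B1_Pr1_continuous D T
  have h1a : (1:ℝ) ≤ (1 + |a|) ^ n := one_le_pow₀ (by linarith [abs_nonneg a])
  rcases le_or_gt |a| (T / 4) with ha | ha
  · have h1 : ∫ t in (T / 2)..(3 * T), ‖Pr1 D T (t - a)‖ ^ n =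
        ∫ t in (T / 2 - a)..(3 * T - a), ‖Pr1 D T t‖ ^ n :=
      intervalIntegral.integral_comp_sub_right (fun t => ‖Pr1 D T t‖ ^ n) a
    rw [h1]
    have ha' := abs_le.mp ha
    have h2 : ∫ t in (T / 2 - a)..(3 * T - a), ‖Pr1 D T t‖ ^ n ≤
        ∫ t in (T / 4)..(4 * T), ‖Pr1 D T t‖ ^ n := by
      refine intervalIntegral.integral_mono_interval (by linarith [ha'.2]) (by linarith)
        (by linarith [ha'.1]) (Filter.Eventually.of_forall fun t => by positivity) ?_
      exact (by fun_prop : Continuous fun t => ‖Pr1 D T t‖ ^ n).intervalIntegrable _ _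
    calc _ ≤ K * T := h2.trans (h T hT)
      _ ≤ (K + 3 * 4 ^ n + 1) * T * 1 := by
          have : (0:ℝ) ≤ 3 * 4 ^ n := by positivity
          nlinarith
      _ ≤ _ := by gcongr
  · have h1 : ∫ t in (T / 2)..(3 * T), ‖Pr1 D T (t - a)‖ ^ n ≤
        ∫ t in (T / 2)..(3 * T), T ^ n := by
      refine intervalIntegral.integral_mono_on (by linarith) ?_ ?_ fun t _ => ?_
      · exact (by fun_prop : Continuous fun t => ‖Pr1 D T (t - a)‖ ^ n).intervalIntegrable _ _
      · simp
      · gcongr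
        exact B1_norm_Pr1_le D hTp.le _
    rw [intervalIntegral.integral_const, smul_eq_mul] at h1
    have h2 : T ^ n ≤ 4 ^ n * (1 + |a|) ^ n := by
      rw [← mul_pow]
      have h5 : T ≤ 4 * (1 + |a|) := by linarith
      gcongr
    calc _ ≤ (3 * T - T / 2) * T ^ n := h1
      _ ≤ (3 * T) * (4 ^ n * (1 + |a|) ^ n) := by
          gcongr
          linarith
      _ = (3 * 4 ^ n) * T * (1 + |a|) ^ n := by ring
      _ ≤ _ := by
          gcongr
          linarith

/-- The pointwise majorant of `V` on the line. -/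
noncomputable def B1_b (D : AData) (T t : ℝ) : ℝ :=
  (B1_M D + 1) * (‖Pr1 D T t‖ + B1_c2 D) ^ B1_M D

lemma B1_b_continuous (D : AData) (T : ℝ) : Continuous (B1_b D T) := by
  have := B1_Pr1_continuous D T
  unfold B1_b; fun_prop

lemma B1_b_nonneg (D : AData) (T t : ℝ) : 0 ≤ B1_b D T t := by
  have := B1_one_le_c2 D
  have := norm_nonneg (Pr1 D T t)
  unfold B1_b
  have : 0 ≤ ‖Pr1 D T t‖ + B1_c2 D := by linarith
  positivity

lemma B1_b_le (D : AData) {T : ℝ} (hT : 0 ≤ T) (t : ℝ) :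
    B1_b D T t ≤ (B1_M D + 1) * (T + B1_c2 D) ^ B1_M D := by
  have h1 := B1_one_le_c2 D
  have h2 := norm_nonneg (Pr1 D T t)
  have h3 := B1_norm_Pr1_le D hT t
  unfold B1_b
  gcongr

/-- Shifted moments of the majorant. -/
theorem B1_b_moment (hRH : RiemannHypothesis) (D : AData) (k : ℕ) : ∃ K T0 : ℝ, 0 < K ∧
    Real.exp 2 ≤ T0 ∧ ∀ T : ℝ, T0 ≤ T → ∀ a : ℝ,
      ∫ t in (T / 2)..(3 * T), B1_b D T (t - a) ^ k ≤ K * T * (1 + |a|) ^ (B1_M D * k) := by
  obtain ⟨K, T0, hK, hT0, h⟩ := B1_shifted_moment hRH D (B1_M D * k)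
  have hc := B1_one_le_c2 D
  set N := B1_M D * k with hN
  refine ⟨((B1_M D + 1 : ℝ)) ^ k * (2 ^ N * (K + 3 * B1_c2 D ^ N)), T0, by positivity, hT0,
    fun T hT a => ?_⟩
  have hTe : Real.exp 2 ≤ T := hT0.trans hT
  have hTp : 0 < T := (Real.exp_pos _).trans_le hTe
  have hPc := B1_Pr1_continuous D T
  have hle : T / 2 ≤ 3 * T := by linarith
  have h1a : (1:ℝ) ≤ (1 + |a|) ^ N := one_le_pow₀ (by linarith [abs_nonneg a])
  have hbc := B1_b_continuous D T
  have hpt : ∀ t, B1_b D T (t - a) ^ k ≤ ((B1_M D + 1 : ℝ)) ^ k * (2 ^ N *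
      (‖Pr1 D T (t - a)‖ ^ N + B1_c2 D ^ N)) := by
    intro t
    unfold B1_b
    rw [mul_pow, ← pow_mul]
    gcongr
    have h3 := add_pow_le (norm_nonneg (Pr1 D T (t - a))) (by linarith : 0 ≤ B1_c2 D) N
    refine h3.trans ?_
    gcongr
    · norm_num
    · omega
  have hc1 : Continuous fun t => ‖Pr1 D T (t - a)‖ ^ N := by fun_prop
  calc _ ≤ ∫ t in (T / 2)..(3 * T), ((B1_M D + 1 : ℝ)) ^ k * (2 ^ N *
      (‖Pr1 D T (t - a)‖ ^ N + B1_c2 D ^ N)) := by
        refine intervalIntegral.integral_mono_on hle ?_ ?_ fun t _ => hpt t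
        · exact (by fun_prop : Continuous fun t => B1_b D T (t - a) ^ k).intervalIntegrable _ _
        · exact (by fun_prop : Continuous fun t => ((B1_M D + 1 : ℝ)) ^ k * (2 ^ N *
            (‖Pr1 D T (t - a)‖ ^ N + B1_c2 D ^ N))).intervalIntegrable _ _
    _ = ((B1_M D + 1 : ℝ)) ^ k * (2 ^ N * ((∫ t in (T / 2)..(3 * T), ‖Pr1 D T (t - a)‖ ^ N) +
          (3 * T - T / 2) * B1_c2 D ^ N)) := by
        rw [intervalIntegral.integral_const_mul, intervalIntegral.integral_const_mul,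
          intervalIntegral.integral_add (hc1.intervalIntegrable _ _) (by simp),
          intervalIntegral.integral_const, smul_eq_mul]
    _ ≤ ((B1_M D + 1 : ℝ)) ^ k * (2 ^ N * (K * T * (1 + |a|) ^ N +
          (3 * T) * B1_c2 D ^ N * (1 + |a|) ^ N)) := by
        have h4 := h T hT a
        have h5 : (3 * T - T / 2) * B1_c2 D ^ N ≤ (3 * T) * B1_c2 D ^ N * (1 + |a|) ^ N := by
          have h6 : 0 < B1_c2 D ^ N := by positivity
          calc (3 * T - T / 2) * B1_c2 D ^ N ≤ (3 * T) * B1_c2 D ^ N * 1 := by nlinarith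
            _ ≤ _ := by gcongr
        gcongr
    _ = _ := by ring

/-- Shifted moments of `V` on the line. -/
theorem B1_V_moment (hRH : RiemannHypothesis) (D : AData) (j : ℕ) : ∃ (N : ℕ) (K T0 : ℝ), 0 < K ∧
    Real.exp 2 ≤ T0 ∧ ∀ T : ℝ, T0 ≤ T → (∃ B, ∀ t, ‖B1_V D T t‖ ≤ B) ∧ ∀ a : ℝ,
      ∫ t in (T / 2)..(3 * T), ‖B1_V D T (t - a)‖ ^ (2 ^ j) ≤ K * T * (1 + |a|) ^ N := by
  obtain ⟨Φ, hΦc, hΦi, hΦ⟩ := Pool.Agent.ZGap.Res.FM.exists_Phi D.F_smooth D.F_supp
  obtain ⟨K, T0, hK, hT0, h⟩ := B1_b_moment hRH D (2 ^ j)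
  set N := B1_M D * 2 ^ j with hN
  have hΦ0 : Integrable fun x => ‖Φ x‖ := by simpa using hΦi 0
  set W := ∫ x, ‖Φ x‖ with hW
  have hW0 : 0 ≤ W := integral_nonneg fun x => norm_nonneg _
  set V := ∫ x, ‖Φ x‖ * (1 + |x|) ^ N with hV
  have hV0 : 0 ≤ V := integral_nonneg fun x => by positivity
  refine ⟨N, W ^ (2 ^ j - 1) * (K * (1 + 2 * Real.pi) ^ N * V) + 1, T0, by positivity, hT0,
    fun T hT => ?_⟩
  have hTe : Real.exp 2 ≤ T := hT0.trans hT
  have hTp : 0 < T := (Real.exp_pos _).trans_le hTe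
  have hL2 : 2 ≤ Real.log T := by rw [Real.le_log_iff_exp_le hTp]; exact hTe
  have hT1 : 1 < T := by
    have := Real.add_one_le_exp (2:ℝ); linarith
  have hle : T / 2 ≤ 3 * T := by linarith
  have hbc := B1_b_continuous D T
  have hb0 := B1_b_nonneg D T
  have hbB := B1_b_le D hTp.le
  set B := (B1_M D + 1) * (T + B1_c2 D) ^ B1_M D with hB
  have hpt : ∀ t, ‖B1_V D T t‖ ≤ ∫ x, ‖Φ x‖ * B1_b D T (t - 2 * Real.pi * x / Real.log T) := by
    intro t
    rw [B1_V_eq_integral D hΦc hΦ0 hΦ hT1]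
    refine norm_integral_le_of_norm_le ?_ (Filter.Eventually.of_forall fun x => ?_)
    · exact B1_int_mul hΦ0 (by fun_prop) (fun x => hb0 _) (fun x => hbB _)
    · rw [norm_mul]
      exact mul_le_mul_of_nonneg_left (B1_norm_E_le D hTe t x) (norm_nonneg _)
  have hVc : Continuous (B1_V D T) := by unfold B1_V; fun_prop
  refine ⟨⟨W * B, fun t => (hpt t).trans ?_⟩, fun a => ?_⟩
  · rw [hW, ← integral_mul_const]
    refine integral_mono (B1_int_mul hΦ0 (by fun_prop) (fun x => hb0 _) (fun x => hbB _))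
      (hΦ0.mul_const _) fun x => ?_
    exact mul_le_mul_of_nonneg_left (hbB _) (norm_nonneg _)
  · set s : ℝ → ℝ := fun x => a + 2 * Real.pi * x / Real.log T with hs
    have hsc : Continuous s := by simp only [hs]; fun_prop
    have hpt2 : ∀ t, ‖B1_V D T (t - a)‖ ≤ ∫ x, ‖Φ x‖ * B1_b D T (t - s x) := by
      intro t
      refine (hpt (t - a)).trans (le_of_eq ?_)
      refine integral_congr_ae (Filter.Eventually.of_forall fun x => ?_)
      simp only [hs]
      rw [sub_sub]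
    have hsx : ∀ x, (1 + |s x|) ^ N ≤ (1 + |a|) ^ N * ((1 + 2 * Real.pi) ^ N * (1 + |x|) ^ N) := by
      intro x
      rw [← mul_pow, ← mul_pow]
      have hpi := Real.pi_pos
      have h1 : |2 * Real.pi * x / Real.log T| ≤ 2 * Real.pi * |x| := by
        rw [abs_div, abs_mul, abs_of_pos (by positivity : 0 < 2 * Real.pi),
          abs_of_pos (by linarith : 0 < Real.log T)]
        exact div_le_self (by positivity) (by linarith)
      have h2 : |s x| ≤ |a| + 2 * Real.pi * |x| := (abs_add_le _ _).trans (by linarith)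
      have h3 : 1 + |s x| ≤ (1 + |a|) * ((1 + 2 * Real.pi) * (1 + |x|)) := by
        have h4 : 0 ≤ |a| := abs_nonneg a
        have h5 : 0 ≤ |x| := abs_nonneg x
        have h6 : 1 + 2 * Real.pi * |x| ≤ (1 + 2 * Real.pi) * (1 + |x|) := by nlinarith
        have h7 : 1 ≤ 1 + 2 * Real.pi * |x| := by nlinarith
        calc 1 + |s x| ≤ 1 + |a| + 2 * Real.pi * |x| := by linarith
          _ ≤ (1 + |a|) * (1 + 2 * Real.pi * |x|) := by nlinarith [mul_nonneg h4 (by linarith : 0 ≤ 2 * Real.pi * |x|)]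
          _ ≤ _ := by gcongr
      have h8 : 0 ≤ 1 + |s x| := by positivity
      exact pow_le_pow_left₀ h8 h3 _
    have hM := (hΦi N).const_mul (K * T * ((1 + |a|) ^ N * (1 + 2 * Real.pi) ^ N))
    have hconv := B1_conv hΦc.norm (fun x => norm_nonneg (Φ x)) hΦ0 hbc hb0 hbB hsc j hle
      (M := fun x => K * T * ((1 + |a|) ^ N * (1 + 2 * Real.pi) ^ N) * (1 + |x|) ^ N)
      (by
        refine hM.congr (Filter.Eventually.of_forall fun x => ?_)
        simp only
        ring)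
      (fun x => by
        refine (h T hT (s x)).trans ?_
        calc K * T * (1 + |s x|) ^ N ≤
            K * T * ((1 + |a|) ^ N * ((1 + 2 * Real.pi) ^ N * (1 + |x|) ^ N)) := by
              have := hsx x
              gcongr
          _ = _ := by ring)
    have hEc := B1_conv_continuous hΦc.norm (fun x => norm_nonneg (Φ x)) hΦ0 hbc hb0 hbB hsc
    calc ∫ t in (T / 2)..(3 * T), ‖B1_V D T (t - a)‖ ^ (2 ^ j) ≤
        ∫ t in (T / 2)..(3 * T), (∫ x, ‖Φ x‖ * B1_b D T (t - s x)) ^ (2 ^ j) := by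
          refine intervalIntegral.integral_mono_on hle ?_ ?_ fun t _ => ?_
          · exact (by fun_prop : Continuous fun t =>
              ‖B1_V D T (t - a)‖ ^ (2 ^ j)).intervalIntegrable _ _
          · exact (hEc.pow _).intervalIntegrable _ _
          · exact pow_le_pow_left₀ (norm_nonneg _) (hpt2 t) _
      _ ≤ _ := hconv
      _ = (W ^ (2 ^ j - 1) * (K * (1 + 2 * Real.pi) ^ N * V)) * T * (1 + |a|) ^ N := by
          have e1 : ∀ x, ‖Φ x‖ * (K * T * ((1 + |a|) ^ N * (1 + 2 * Real.pi) ^ N) * (1 + |x|) ^ N) =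
              (K * T * ((1 + |a|) ^ N * (1 + 2 * Real.pi) ^ N)) * (‖Φ x‖ * (1 + |x|) ^ N) :=
            fun x => by ring
          simp_rw [e1]
          rw [integral_const_mul]
          ring
      _ ≤ _ := by
          have h1 : 0 ≤ T * (1 + |a|) ^ N := by positivity
          nlinarith

/-- B1 -/
theorem vmom (hRH : RiemannHypothesis) (D : AData) (A : ℝ) (n : ℕ) : ∃ K T0 : ℝ, 0 < K ∧
    ∀ T : ℝ, T0 ≤ T → ∃ E : ℝ → ℝ, Continuous E ∧ (∀ t, 0 ≤ E t) ∧
      (∀ (t : ℝ) (s : ℂ), ‖s - (1 / 2 + t * I)‖ ≤ A / Real.log T → ‖Vs D T s‖ ≤ E t) ∧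
      ∫ t in (T / 2)..(3 * T), E t ^ n ≤ K * T := by
  obtain ⟨N, K, T0, hK, hT0, hfm⟩ := B1_V_moment hRH D n
  obtain ⟨C, hC, hdec⟩ := kk_decay A (N + 2)
  have hpos : ∀ u : ℝ, 0 < 1 + |u| := fun u => by positivity
  -- the weight
  set κ : ℝ → ℝ := fun u => C * ((1 + |u|) ^ (N + 2))⁻¹ with hκ
  have hκc : Continuous κ := by
    simp only [hκ]
    refine continuous_const.mul (Continuous.inv₀ (by fun_prop) fun u => ?_)
    exact pow_ne_zero _ (hpos u).ne'
  have hκ0 : ∀ u, 0 ≤ κ u := fun u => by simp only [hκ]; positivity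
  have hκN : Integrable fun u => κ u * (1 + |u|) ^ N := by
    refine (integrable_inv_one_add_sq.const_mul C).mono'
      (by fun_prop : Continuous fun u => κ u * (1 + |u|) ^ N).aestronglyMeasurable
      (Filter.Eventually.of_forall fun u => ?_)
    rw [Real.norm_of_nonneg (mul_nonneg (hκ0 u) (by positivity))]
    simp only [hκ]
    have h1 : 1 + u ^ 2 ≤ (1 + |u|) ^ 2 := by nlinarith [abs_nonneg u, sq_abs u]
    have h2 : C * ((1 + |u|) ^ (N + 2))⁻¹ * (1 + |u|) ^ N = C * ((1 + |u|) ^ 2)⁻¹ := by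
      rw [pow_add]
      have := (hpos u).ne'
      field_simp
    rw [h2]
    gcongr
  have hκi : Integrable κ := by
    refine hκN.mono' hκc.aestronglyMeasurable (Filter.Eventually.of_forall fun u => ?_)
    rw [Real.norm_of_nonneg (hκ0 u)]
    have : 1 ≤ (1 + |u|) ^ N := one_le_pow₀ (by linarith [abs_nonneg u])
    nlinarith [hκ0 u]
  set W := ∫ u, κ u with hW
  have hW0 : 0 ≤ W := integral_nonneg hκ0
  set V := ∫ u, κ u * (1 + |u|) ^ N with hV
  have hV0 : 0 ≤ V := integral_nonneg fun u => mul_nonneg (hκ0 u) (by positivity)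
  refine ⟨3 + W ^ (2 ^ n - 1) * (K * V), T0, by positivity, fun T hT => ?_⟩
  have hTe : Real.exp 2 ≤ T := hT0.trans hT
  have hTp : 0 < T := (Real.exp_pos _).trans_le hTe
  have hL2 : 2 ≤ Real.log T := by rw [Real.le_log_iff_exp_le hTp]; exact hTe
  have hL : 0 < Real.log T := by linarith
  have hT1 : 1 < T := by
    have := Real.add_one_le_exp (2:ℝ); linarith
  have hle : T / 2 ≤ 3 * T := by linarith
  obtain ⟨⟨B, hB⟩, hmom⟩ := hfm T hT
  have hVc : Continuous (B1_V D T) := by unfold B1_V; fun_prop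
  set b : ℝ → ℝ := fun t => ‖B1_V D T t‖ with hb
  have hbc : Continuous b := by simp only [hb]; fun_prop
  have hb0 : ∀ t, 0 ≤ b t := fun t => norm_nonneg _
  have hbB : ∀ t, b t ≤ B := hB
  set s : ℝ → ℝ := fun u => -(u / Real.log T) with hs
  have hsc : Continuous s := by simp only [hs]; fun_prop
  set E : ℝ → ℝ := fun t => ∫ u : ℝ, κ u * b (t - s u) with hE
  have hEc : Continuous E := B1_conv_continuous hκc hκ0 hκi hbc hb0 hbB hsc
  have hE0 : ∀ t, 0 ≤ E t := fun t => integral_nonneg fun u => mul_nonneg (hκ0 u) (hb0 _)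
  refine ⟨E, hEc, hE0, fun t z hz => ?_, ?_⟩
  · -- the pointwise bound
    set z' : ℂ := -I * (z - 1 / 2) with hz'
    have e1 : z = 1 / 2 + z' * I := by
      have hI := Complex.I_mul_I
      rw [hz']
      linear_combination (z - 1 / 2) * hI
    have e2 : ‖z' - t‖ ≤ A / Real.log T := by
      have e3 : z' - t = -I * (z - (1 / 2 + t * I)) := by
        have hI := Complex.I_mul_I
        rw [hz']
        linear_combination (-(t:ℂ)) * hI
      rw [e3, norm_mul, norm_neg, Complex.norm_I, one_mul]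
      exact hz
    rw [e1, B1_Vs_eq D hT1, B1_VC_rep D hT1 t z']
    simp only [hE]
    refine norm_integral_le_of_norm_le (B1_int_mul hκi (by fun_prop) (fun u => hb0 _)
      (fun u => hbB _)) (Filter.Eventually.of_forall fun u => ?_)
    rw [norm_mul]
    have hw : ‖(z' - t) * (Real.log T : ℂ)‖ ≤ A := by
      rw [norm_mul, Complex.norm_real, Real.norm_of_nonneg hL.le]
      rwa [le_div_iff₀ hL] at e2
    have h1 := hdec _ hw u
    have e4 : t - s u = t + u / Real.log T := by simp only [hs]; ring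
    rw [e4]
    simp only [hb, hκ]
    gcongr
  · -- the moment
    have hM : Integrable fun u => κ u * (K * T * (1 + |u|) ^ N) := by
      refine (hκN.const_mul (K * T)).congr (Filter.Eventually.of_forall fun u => ?_)
      simp only
      ring
    have hconv := B1_conv hκc hκ0 hκi hbc hb0 hbB hsc n hle
      (M := fun u => K * T * (1 + |u|) ^ N) hM
      (fun u => by
        refine (hmom (s u)).trans ?_
        have h2 : |s u| ≤ |u| := by
          simp only [hs]
          rw [abs_neg, abs_div, abs_of_pos hL]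
          exact div_le_self (abs_nonneg _) (by linarith)
        gcongr)
    have hpow : ∀ t, E t ^ n ≤ 1 + E t ^ (2 ^ n) := by
      intro t
      rcases le_or_gt (E t) 1 with h1 | h1
      · have h2 : E t ^ n ≤ 1 := pow_le_one₀ (hE0 t) h1
        have h3 : 0 ≤ E t ^ (2 ^ n) := pow_nonneg (hE0 t) _
        linarith
      · have h2 : E t ^ n ≤ E t ^ (2 ^ n) := pow_le_pow_right₀ h1.le Nat.lt_two_pow_self.le
        linarith
    calc ∫ t in (T / 2)..(3 * T), E t ^ n ≤ ∫ t in (T / 2)..(3 * T), (1 + E t ^ (2 ^ n)) := by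
          refine intervalIntegral.integral_mono_on hle ?_ ?_ fun t _ => hpow t
          · exact (hEc.pow _).intervalIntegrable _ _
          · exact (continuous_const.add (hEc.pow _)).intervalIntegrable _ _
      _ = (3 * T - T / 2) + ∫ t in (T / 2)..(3 * T), E t ^ (2 ^ n) := by
          have i1 : IntervalIntegrable (fun _ : ℝ => (1:ℝ)) volume (T / 2) (3 * T) := by simp
          have i2 : IntervalIntegrable (fun t : ℝ => E t ^ (2 ^ n)) volume (T / 2) (3 * T) :=
            (hEc.pow _).intervalIntegrable _ _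
          rw [intervalIntegral.integral_add i1 i2, intervalIntegral.integral_const, smul_eq_mul,
            mul_one]
      _ ≤ 3 * T + W ^ (2 ^ n - 1) * ∫ u, κ u * (K * T * (1 + |u|) ^ N) := by
          have : 3 * T - T / 2 ≤ 3 * T := by linarith
          exact add_le_add this hconv
      _ = (3 + W ^ (2 ^ n - 1) * (K * V)) * T := by
          have e1 : ∀ u, κ u * (K * T * (1 + |u|) ^ N) = (K * T) * (κ u * (1 + |u|) ^ N) :=
            fun u => by ring
          simp_rw [e1]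
          rw [integral_const_mul]
          ring

end Pool.Agent.AHD
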