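import Pool.Agent.ZGap.AH.Defs3

/-!
# The bilinear family
-/

open scoped ContDiff

namespace Pool.Agent.AHD

open Complex MeasureTheory Set Pool.Agent.Hadamard Pool.Agent.HalfGap

lemma M1_cpow_exp {n : ℕ} (hn : 1 ≤ n) (w : ℂ) :
    (n : ℂ) ^ w = Complex.exp ((Real.log n : ℝ) * w) := by
  have h0 : (n : ℂ) ≠ 0 := by
    exact_mod_cast Nat.one_le_iff_ne_zero.mp hn
  rw [Complex.cpow_def_of_ne_zero h0, Complex.natCast_log]

lemma M1_rpow_exp {m n : ℕ} (hm : 1 ≤ m) (hn : 1 ≤ n) :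
    (((((m : ℝ) * n) ^ (-(1:ℝ) / 2) : ℝ)) : ℂ) =
      Complex.exp ((Real.log m + Real.log n : ℝ) * (-(1:ℂ) / 2)) := by
  have hm' : (0:ℝ) < m := by exact_mod_cast hm
  have hn' : (0:ℝ) < n := by exact_mod_cast hn
  rw [Real.rpow_def_of_pos (mul_pos hm' hn'), Real.log_mul hm'.ne' hn'.ne', Complex.ofReal_exp]
  congr 1
  push_cast
  ring

lemma M1_term (D : AData) (T α : ℝ) (s : ℂ) {m n : ℕ} (hm : 1 ≤ m) (hn : 1 ≤ n) :
    bA D T α (m, n) * Complex.exp (-(wV (m, n) : ℂ) * (s - 1 / 2)) =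
      ((av D T m : ℂ) * (m : ℂ) ^ (-(s + α * I))) *
        (starRingEnd ℂ) ((av D T n : ℂ) * (n : ℂ) ^ (-(1 - (starRingEnd ℂ) s + α * I))) := by
  unfold bA wV
  simp only
  rw [M1_rpow_exp hm hn, M1_cpow_exp hm, M1_cpow_exp hn, map_mul, Complex.conj_ofReal,
    ← Complex.exp_conj, map_mul, Complex.conj_ofReal]
  have h1 : (starRingEnd ℂ) (-(1 - (starRingEnd ℂ) s + α * I)) = -(1 - s - α * I) := by
    simp only [map_neg, map_add, map_sub, map_one, map_mul, Complex.conj_ofReal, Complex.conj_I,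
      Complex.conj_conj]
    ring
  rw [h1]
  have h2 : ∀ A B e1 e2 e3 e4 e5 : ℂ, e1 * e2 * e3 = e4 * e5 →
      A * B * e1 * e2 * e3 = A * e4 * (B * e5) := by
    intro A B e1 e2 e3 e4 e5 h
    linear_combination A * B * h
  apply h2
  rw [← Complex.exp_add, ← Complex.exp_add, ← Complex.exp_add]
  congr 1
  push_cast
  ring

theorem BA_eq (D : AData) (T α : ℝ) (s : ℂ) :
    BS (QV (XN D T)) (bA D T α) wV s =
      Vs D T (s + α * I) * (starRingEnd ℂ) (Vs D T (1 - (starRingEnd ℂ) s + α * I)) := by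
  unfold BS Vs QV
  rw [map_sum, Finset.sum_mul_sum, Finset.sum_product]
  refine Finset.sum_congr rfl fun m hm => Finset.sum_congr rfl fun n hn => ?_
  exact M1_term D T α s (Finset.mem_Icc.mp hm).1 (Finset.mem_Icc.mp hn).1

/-- M1: the value of the bilinear family on the critical line, symmetries, size -/
theorem BA_half (D : AData) (T α t : ℝ) :
    BS (QV (XN D T)) (bA D T α) wV (1 / 2 + t * I) =
      ((‖Vs D T (1 / 2 + ((t + α : ℝ) : ℂ) * I)‖ ^ 2 : ℝ) : ℂ) := by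
  rw [BA_eq]
  have h1 : (1 - (starRingEnd ℂ) (1 / 2 + (t : ℂ) * I) + α * I : ℂ) =
      1 / 2 + ((t + α : ℝ) : ℂ) * I := by
    simp only [map_add, map_mul, Complex.conj_ofReal, Complex.conj_I, map_div₀, map_one,
      map_ofNat]
    push_cast
    ring
  have h2 : (1 / 2 + (t : ℂ) * I + α * I : ℂ) = 1 / 2 + ((t + α : ℝ) : ℂ) * I := by
    push_cast
    ring
  rw [h1, h2, Complex.mul_conj, Complex.normSq_eq_norm_sq]

end Pool.Agent.AHD
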