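import Pool.Agent.ZGap.AH.Defs3

/-!
# The kernel
-/

open scoped ContDiff

namespace Pool.Agent.AHD

open Complex MeasureTheory Set Pool.Agent.Hadamard Pool.Agent.HalfGap

theorem E1_diff : Differentiable ℂ E1 := by
  have h : E1 = dslope Complex.exp 0 := by
    funext w
    by_cases hw : w = 0
    · subst hw
      simp [E1]
    · rw [dslope_of_ne _ hw, E1, if_neg hw, slope_def_field]
      simp
  rw [h]
  have := (Complex.differentiableOn_dslope (f := Complex.exp) (c := 0) (s := Set.univ)
    Filter.univ_mem).2 Complex.differentiable_exp.differentiableOn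
  exact differentiableOn_univ.1 this

theorem norm_E1_le (w : ℂ) : ‖E1 w‖ ≤ Real.exp (max w.re 0) := by
  by_cases hw : w = 0
  · subst hw
    simp [E1]
  · rw [E1, if_neg hw, norm_div, div_le_iff₀ (norm_pos_iff.2 hw)]
    have key := norm_image_sub_le_of_norm_deriv_le_segment_01' (f := fun x : ℝ => Complex.exp (x * w))
      (f' := fun x : ℝ => Complex.exp (x * w) * w) (C := Real.exp (max w.re 0) * ‖w‖)
      (fun x _ => by
        have h1 : HasDerivAt (fun x : ℝ => (x : ℂ) * w) w x := by
          simpa using (Complex.ofRealCLM.hasDerivAt (x := x)).mul_const w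
        exact (h1.cexp).hasDerivWithinAt)
      (fun x hx => by
        rw [norm_mul, Complex.norm_exp]
        gcongr
        have : ((x : ℂ) * w).re = x * w.re := by simp
        rw [this]
        rcases le_total w.re 0 with h | h
        · exact (mul_nonpos_of_nonneg_of_nonpos hx.1 h).trans (le_max_right _ _)
        · exact (mul_le_of_le_one_left h hx.2.le).trans (le_max_left _ _))
    simpa using key

theorem norm_E1_le' {w : ℂ} (hw : w ≠ 0) : ‖E1 w‖ ≤ (1 + Real.exp w.re) / ‖w‖ := by
  rw [E1, if_neg hw, norm_div]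
  gcongr
  calc ‖Complex.exp w - 1‖ ≤ ‖Complex.exp w‖ + ‖(1 : ℂ)‖ := norm_sub_le _ _
    _ = 1 + Real.exp w.re := by rw [Complex.norm_exp, norm_one, add_comm]

lemma K_Ke_le {N : ℕ} (hN : 2 ≤ N) {a h : ℝ} (ha : 0 ≤ a) (hh : 0 < h) {z : ℂ} (hz : z.re ≠ 0) :
    ‖Ke N a h z‖ ≤ Real.exp ((a + N * h) * max z.re 0) *
      (6 * (1 / (|z.re| + |z.im|) - 1 / (|z.re| + |z.im| + 2 / h))) := by
  have hz0 : z ≠ 0 := fun h => hz (by simp [h])
  have hzn : 0 < ‖z‖ := norm_pos_iff.2 hz0
  have hc : 0 < |z.re| := abs_pos.2 hz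
  have hhz : (h : ℂ) * z ≠ 0 := mul_ne_zero (by exact_mod_cast hh.ne') hz0
  have hre : ((h : ℂ) * z).re = h * z.re := by simp
  have hare : ((a : ℂ) * z).re = a * z.re := by simp
  have hnm : ‖(h : ℂ) * z‖ = h * ‖z‖ := by
    rw [norm_mul, Complex.norm_real, Real.norm_of_nonneg hh.le]
  set m : ℝ := max z.re 0 with hm
  have hm0 : 0 ≤ m := le_max_right _ _
  have hm1 : z.re ≤ m := le_max_left _ _
  have hmm : max (h * z.re) 0 = h * m := by
    rw [hm, mul_max_of_nonneg _ _ hh.le, mul_zero]
  have h1 : ‖E1 (h * z)‖ ≤ Real.exp (h * m) := by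
    have := norm_E1_le ((h : ℂ) * z)
    rwa [hre, hmm] at this
  have h2 : ‖E1 (h * z)‖ ≤ Real.exp (h * m) * (2 / (h * ‖z‖)) := by
    have := norm_E1_le' hhz
    rw [hre, hnm] at this
    refine this.trans ?_
    rw [mul_div_assoc', div_le_div_iff_of_pos_right (by positivity)]
    have e1 : Real.exp (h * z.re) ≤ Real.exp (h * m) := Real.exp_le_exp.2 (by gcongr)
    have e2 : 1 ≤ Real.exp (h * m) := Real.one_le_exp (by positivity)
    linarith
  -- the product bound
  have h3 : ‖E1 (h * z)‖ ^ N ≤ Real.exp (N * (h * m)) * (3 / (1 + h * ‖z‖)) := by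
    have h4 : ‖E1 (h * z)‖ ≤ Real.exp (h * m) * min 1 (2 / (h * ‖z‖)) := by
      rw [mul_min_of_nonneg _ _ (Real.exp_pos _).le, mul_one]
      exact le_min h1 h2
    have h5 : min 1 (2 / (h * ‖z‖)) ≤ 3 / (1 + h * ‖z‖) := by
      have hp : 0 < h * ‖z‖ := by positivity
      rcases le_total (h * ‖z‖) 2 with h6 | h6
      · refine (min_le_left _ _).trans ?_
        rw [le_div_iff₀ (by positivity)]
        linarith
      · refine (min_le_right _ _).trans ?_
        rw [div_le_div_iff₀ hp (by positivity)]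
        linarith
    have h0 : 0 ≤ min 1 (2 / (h * ‖z‖)) := le_min zero_le_one (by positivity)
    calc ‖E1 (h * z)‖ ^ N ≤ (Real.exp (h * m) * min 1 (2 / (h * ‖z‖))) ^ N := by gcongr
      _ = Real.exp (N * (h * m)) * (min 1 (2 / (h * ‖z‖))) ^ N := by
        rw [mul_pow, Real.exp_nat_mul]
      _ ≤ Real.exp (N * (h * m)) * (3 / (1 + h * ‖z‖)) := by
        gcongr
        refine le_trans ?_ h5
        exact pow_le_of_le_one h0 (min_le_left _ _) (by omega)
  have h7 : ‖Complex.exp (a * z)‖ ≤ Real.exp (a * m) := by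
    rw [Complex.norm_exp, hare]
    exact Real.exp_le_exp.2 (by gcongr)
  have h8 : |z.re| + |z.im| ≤ 2 * ‖z‖ := by
    have := Complex.abs_re_le_norm z
    have := Complex.abs_im_le_norm z
    linarith
  have him : 0 ≤ |z.im| := abs_nonneg _
  set r : ℝ := |z.re| + |z.im| with hr
  have hrp : 0 < r := by linarith
  have h9 : 3 / (1 + h * ‖z‖) / ‖z‖ ≤ 6 * (1 / r - 1 / (r + 2 / h)) := by
    have e : 6 * (1 / r - 1 / (r + 2 / h)) = 12 / (r * (h * r + 2)) := by
      field_simp
      ring
    rw [e, div_div]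
    rw [div_le_div_iff₀ (by positivity) (by positivity)]
    have : r * (h * r + 2) ≤ (2 * ‖z‖) * (h * (2 * ‖z‖) + 2) := by gcongr
    nlinarith [this]
  calc ‖Ke N a h z‖ = ‖Complex.exp (a * z)‖ * ‖E1 (h * z)‖ ^ N / ‖z‖ := by
        rw [Ke, norm_div, norm_mul, norm_pow]
    _ ≤ Real.exp (a * m) * (Real.exp (N * (h * m)) * (3 / (1 + h * ‖z‖))) / ‖z‖ := by gcongr
    _ = Real.exp ((a + N * h) * m) * (3 / (1 + h * ‖z‖) / ‖z‖) := by
        rw [show (a + N * h) * m = a * m + N * (h * m) by ring, Real.exp_add]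
        ring
    _ ≤ _ := by gcongr

lemma K_int_half {c h V : ℝ} (hc : 0 < c) (hh : 0 < h) (hV : 0 ≤ V) :
    ∫ v in (0 : ℝ)..V, 6 * (1 / (c + |v|) - 1 / (c + |v| + 2 / h)) ≤
      12 * Real.log (1 + 1 / (h * c)) := by
  have h1 : ∫ v in (0 : ℝ)..V, 6 * (1 / (c + |v|) - 1 / (c + |v| + 2 / h)) =
      6 * (Real.log (c + V) - Real.log (c + V + 2 / h)) -
        6 * (Real.log (c + 0) - Real.log (c + 0 + 2 / h)) := by
    have e : ∫ v in (0 : ℝ)..V, 6 * (1 / (c + |v|) - 1 / (c + |v| + 2 / h)) =
        ∫ v in (0 : ℝ)..V, 6 * (1 / (c + v) - 1 / (c + v + 2 / h)) := by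
      apply intervalIntegral.integral_congr
      intro v hv
      rw [uIcc_of_le hV] at hv
      simp only
      rw [abs_of_nonneg hv.1]
    rw [e]
    apply intervalIntegral.integral_eq_sub_of_hasDerivAt
      (f := fun v => 6 * (Real.log (c + v) - Real.log (c + v + 2 / h)))
    · intro v hv
      rw [uIcc_of_le hV] at hv
      have hp1 : 0 < c + v := by linarith [hv.1]
      have hp2 : 0 < c + v + 2 / h := by positivity
      have d1 : HasDerivAt (fun v : ℝ => c + v) 1 v := by
        simpa using (hasDerivAt_id v).const_add c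
      have d2 : HasDerivAt (fun v : ℝ => c + v + 2 / h) 1 v := d1.add_const (2 / h)
      exact ((d1.log hp1.ne').sub (d2.log hp2.ne')).const_mul 6
    · apply ContinuousOn.intervalIntegrable
      rw [uIcc_of_le hV]
      apply ContinuousOn.mul continuousOn_const
      apply ContinuousOn.sub
      · apply ContinuousOn.div continuousOn_const (by fun_prop)
        intro v hv
        have := hv.1
        positivity
      · apply ContinuousOn.div continuousOn_const (by fun_prop)
        intro v hv
        have := hv.1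
        positivity
  rw [h1]
  have h2 : Real.log (c + V) ≤ Real.log (c + V + 2 / h) := by
    apply Real.log_le_log (by linarith)
    have : 0 < 2 / h := by positivity
    linarith
  have h3 : Real.log (c + 2 / h) - Real.log c ≤ 2 * Real.log (1 + 1 / (h * c)) := by
    rw [← Real.log_div (by positivity) (by positivity)]
    rw [show 2 * Real.log (1 + 1 / (h * c)) = Real.log ((1 + 1 / (h * c)) ^ 2) by
      rw [Real.log_pow]; norm_num]
    apply Real.log_le_log (by positivity)
    have : (c + 2 / h) / c = 1 + 2 * (1 / (h * c)) := by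
      field_simp
    rw [this]
    nlinarith [sq_nonneg (1 / (h * c))]
  simp only [add_zero]
  linarith

lemma K_cont {N : ℕ} {a h c s : ℝ} (hc : c ≠ 0) :
    Continuous fun v : ℝ => ‖Ke N a h (c + (s * v : ℝ) * I)‖ := by
  apply Continuous.norm
  unfold Ke
  have h1 : Continuous fun v : ℝ => ((c : ℂ) + (s * v : ℝ) * I) := by fun_prop
  apply Continuous.div
  · apply Continuous.mul
    · exact Complex.continuous_exp.comp (continuous_const.mul h1)
    · exact (E1_diff.continuous.comp (continuous_const.mul h1)).pow N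
  · exact h1
  · intro v hv
    apply hc
    have := congrArg Complex.re hv
    simpa using this

lemma K_half {N : ℕ} (hN : 2 ≤ N) {a h c V : ℝ} (ha : 0 ≤ a) (hh : 0 < h) (hc : c ≠ 0)
    (hV : 0 ≤ V) {s : ℝ} (hs : |s| = 1) :
    ∫ v in (0 : ℝ)..V, ‖Ke N a h (c + (s * v : ℝ) * I)‖ ≤
      Real.exp ((a + N * h) * max c 0) * (12 * Real.log (1 + 1 / (h * |c|))) := by
  have hc' : 0 < |c| := abs_pos.2 hc
  have hb : ∀ v : ℝ, ‖Ke N a h (c + (s * v : ℝ) * I)‖ ≤ Real.exp ((a + N * h) * max c 0) *
      (6 * (1 / (|c| + |v|) - 1 / (|c| + |v| + 2 / h))) := by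
    intro v
    have hre : ((c : ℂ) + (s * v : ℝ) * I).re = c := by simp
    have him : ((c : ℂ) + (s * v : ℝ) * I).im = s * v := by simp
    have := K_Ke_le hN ha hh (z := (c : ℂ) + (s * v : ℝ) * I) (by rw [hre]; exact hc)
    rw [hre, him, abs_mul, hs, one_mul] at this
    exact this
  calc ∫ v in (0 : ℝ)..V, ‖Ke N a h (c + (s * v : ℝ) * I)‖
      ≤ ∫ v in (0 : ℝ)..V, Real.exp ((a + N * h) * max c 0) *
      (6 * (1 / (|c| + |v|) - 1 / (|c| + |v| + 2 / h))) := by
        apply intervalIntegral.integral_mono_on hV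
        · exact (K_cont hc).intervalIntegrable _ _
        · apply Continuous.intervalIntegrable
          apply Continuous.mul continuous_const
          apply Continuous.mul continuous_const
          apply Continuous.sub
          · apply Continuous.div continuous_const (by fun_prop)
            intro v
            positivity
          · apply Continuous.div continuous_const (by fun_prop)
            intro v
            positivity
        · intro v _
          exact hb v
    _ = Real.exp ((a + N * h) * max c 0) *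
        ∫ v in (0 : ℝ)..V, (6 * (1 / (|c| + |v|) - 1 / (|c| + |v| + 2 / h))) := by
        rw [intervalIntegral.integral_const_mul]
    _ ≤ _ := by
        gcongr
        exact K_int_half hc' hh hV

/-- K3 -/
theorem int_Ke {N : ℕ} (hN : 2 ≤ N) : ∃ C : ℝ, 0 < C ∧ ∀ a h c V : ℝ, 0 ≤ a → 0 < h → c ≠ 0 →
    0 ≤ V → ∫ v in (-V)..V, ‖Ke N a h (c + v * I)‖ ≤
      C * Real.exp ((a + N * h) * max c 0) * (1 + Real.log (1 + 1 / (h * |c|))) := by
  refine ⟨24, by norm_num, ?_⟩
  intro a h c V ha hh hc hV
  have h1 := K_half hN ha hh hc hV (s := 1) (by norm_num)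
  have h2 := K_half hN ha hh hc hV (s := -1) (by norm_num)
  have e1 : ∫ v in (0 : ℝ)..V, ‖Ke N a h (c + (1 * v : ℝ) * I)‖ =
      ∫ v in (0 : ℝ)..V, ‖Ke N a h (c + v * I)‖ := by simp
  have e2 : ∫ v in (0 : ℝ)..V, ‖Ke N a h (c + (-1 * v : ℝ) * I)‖ =
      ∫ v in (-V)..0, ‖Ke N a h (c + v * I)‖ := by
    have := intervalIntegral.integral_comp_neg (a := 0) (b := V)
      (fun v : ℝ => ‖Ke N a h (c + (v : ℝ) * I)‖)
    rw [neg_zero] at this
    rw [← this]
    apply intervalIntegral.integral_congr
    intro v _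
    simp
  have hcont : Continuous fun v : ℝ => ‖Ke N a h (c + v * I)‖ := by
    have := K_cont (N := N) (a := a) (h := h) (s := 1) hc
    simpa using this
  rw [← intervalIntegral.integral_add_adjacent_intervals (b := 0)
    (hcont.intervalIntegrable _ _) (hcont.intervalIntegrable _ _), ← e1, ← e2]
  have hlog : 0 ≤ Real.log (1 + 1 / (h * |c|)) := by
    apply Real.log_nonneg
    have : 0 ≤ 1 / (h * |c|) := by positivity
    linarith
  have hE := Real.exp_pos ((a + N * h) * max c 0)
  nlinarith [mul_nonneg hE.le hlog]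

end Pool.Agent.AHD
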