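import Pool.Agent.ZGap.AH.S
import Pool.Agent.ZGap.AH.K
import Pool.Agent.ZGap.Half.Horiz
import Pool.Agent.ZGap.Half.GamB
import Pool.Agent.ZGap.Half.Trace

/-!
# The representation
-/

open scoped ContDiff ComplexConjugate

namespace Pool.Agent.AHD

open Complex MeasureTheory Set Pool.Agent.Hadamard Pool.Agent.HalfGap

/-! ### The polynomial `V` -/

lemma C1_Vs_diff (D : AData) (T : ℝ) : Differentiable ℂ (Vs D T) := by
  unfold Vs
  refine Differentiable.fun_sum fun n hn => ?_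
  rw [Finset.mem_Icc] at hn
  have hn0 : (n : ℂ) ≠ 0 := by exact_mod_cast (by omega : n ≠ 0)
  exact (differentiable_const _).mul (differentiable_id.neg.const_cpow (Or.inl hn0))

lemma C1_av_le (D : AData) (T : ℝ) (n : ℕ) : |av D T n| ≤ 1 := by
  unfold av
  rw [abs_mul, abs_mul]
  have h1 : |(ArithmeticFunction.moebius n : ℝ)| ≤ 1 := by
    exact_mod_cast ArithmeticFunction.abs_moebius_le_one
  have h2 : |∏ p ∈ n.primeFactors, D.f (Real.log p / Real.log T)| ≤ 1 := by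
    rw [Finset.abs_prod]
    exact Finset.prod_le_one (fun _ _ => abs_nonneg _)
      (fun p _ => by rw [abs_of_nonneg (D.f_nonneg _)]; exact D.f_le _)
  have h3 : |D.F (Real.log n / Real.log T)| ≤ 1 := by
    rw [abs_of_nonneg (D.F_nonneg _)]; exact D.F_le _
  calc |(ArithmeticFunction.moebius n : ℝ)| * |∏ p ∈ n.primeFactors, D.f (Real.log p / Real.log T)| *
        |D.F (Real.log n / Real.log T)| ≤ 1 * 1 * 1 := by gcongr
    _ = 1 := by norm_num

lemma C1_XN_le (D : AData) {T : ℝ} (hT : 1 ≤ T) : (XN D T : ℝ) ≤ T := by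
  unfold XN
  have h1 : T ^ (1 - D.ep) ≤ T ^ (1 : ℝ) :=
    Real.rpow_le_rpow_of_exponent_le hT (by linarith [D.ep_pos])
  rw [Real.rpow_one] at h1
  exact (Nat.floor_le (by positivity)).trans h1

lemma C1_sum_le (D : AData) {T B : ℝ} (hT : 1 ≤ T) (hB : 0 ≤ B) {s : ℂ}
    (h : ∀ n ∈ Finset.Icc 1 (XN D T), ‖(av D T n : ℂ) * (n : ℂ) ^ (-s)‖ ≤ B) :
    ‖Vs D T s‖ ≤ T * B := by
  unfold Vs
  refine (norm_sum_le_of_le _ h).trans ?_
  rw [Finset.sum_const, nsmul_eq_mul, Nat.card_Icc]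
  have : ((XN D T + 1 - 1 : ℕ) : ℝ) ≤ T := by
    rw [Nat.add_sub_cancel]; exact C1_XN_le D hT
  gcongr

lemma C1_Vs_pos (D : AData) {T : ℝ} (hT : 1 ≤ T) {s : ℂ} (hs : 0 ≤ s.re) : ‖Vs D T s‖ ≤ T := by
  have h := C1_sum_le D hT (zero_le_one) (s := s) (fun n hn => ?_)
  · rwa [mul_one] at h
  · rw [Finset.mem_Icc] at hn
    rw [norm_mul, Complex.norm_natCast_cpow_of_pos (by omega), neg_re, Complex.norm_real,
      Real.norm_eq_abs]
    have h1 := C1_av_le D T n
    have h2 : (n : ℝ) ^ (-s.re) ≤ 1 :=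
      Real.rpow_le_one_of_one_le_of_nonpos (by exact_mod_cast hn.1) (by linarith)
    have h3 : 0 ≤ (n : ℝ) ^ (-s.re) := by positivity
    calc |av D T n| * (n : ℝ) ^ (-s.re) ≤ 1 * 1 := by gcongr
      _ = 1 := by norm_num

lemma C1_Vs_neg (D : AData) {T : ℝ} (hT : 1 < T) {s : ℂ} (hs : s.re ≤ 0) :
    ‖Vs D T s‖ ≤ T * Real.exp (Real.log T * (1 - D.ep - D.ep ^ 2) * (-s.re)) := by
  refine C1_sum_le D hT.le (Real.exp_pos _).le fun n hn => ?_
  rw [Finset.mem_Icc] at hn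
  have hL : 0 < Real.log T := Real.log_pos hT
  have hn0 : (0 : ℝ) < n := by exact_mod_cast hn.1
  by_cases h0 : D.F (Real.log n / Real.log T) = 0
  · have : av D T n = 0 := by unfold av; rw [h0, mul_zero]
    rw [this, ofReal_zero, zero_mul, norm_zero]
    exact (Real.exp_pos _).le
  · have h1 : Real.log n / Real.log T < 1 - D.ep - D.ep ^ 2 := by
      by_contra hcon
      exact h0 (D.F_zero _ (not_lt.mp hcon))
    rw [div_lt_iff₀ hL] at h1
    rw [norm_mul, Complex.norm_natCast_cpow_of_pos (by omega), neg_re, Complex.norm_real,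
      Real.norm_eq_abs, Real.rpow_def_of_pos hn0]
    have h2 := C1_av_le D T n
    calc |av D T n| * Real.exp (Real.log n * -s.re)
        ≤ 1 * Real.exp (Real.log T * (1 - D.ep - D.ep ^ 2) * (-s.re)) := by
          gcongr
          · linarith
          · linarith
      _ = _ := one_mul _

/-! ### The kernel -/

lemma C1_norm_Ke (N : ℕ) (a h : ℝ) (z : ℂ) :
    ‖Ke N a h z‖ = Real.exp (a * z.re) * ‖E1 (h * z)‖ ^ N / ‖z‖ := by
  unfold Ke
  rw [norm_div, norm_mul, norm_pow, Complex.norm_exp]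
  simp

/-- The regular part of the integrand. -/
noncomputable def C1_g (D : AData) (N : ℕ) (T α : ℝ) (s0 s : ℂ) : ℂ :=
  Fs D T α s * (Complex.exp ((ka D T : ℂ) * (s - s0)) * E1 ((kh D N T : ℂ) * (s - s0)) ^ N)

/-- The integrand. -/
noncomputable def C1_f (D : AData) (N : ℕ) (T α : ℝ) (s0 s : ℂ) : ℂ :=
  Fs D T α s * Ke N (ka D T) (kh D N T) (s - s0)

/-- The numerator. -/
noncomputable def C1_N (D : AData) (N : ℕ) (T α : ℝ) (s0 s : ℂ) : ℂ :=
  Vs D T (s + α * I) * xiF (s + α * I) * Ke N (ka D T) (kh D N T) (s - s0)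

lemma C1_f_eq (D : AData) (N : ℕ) (T α : ℝ) (s0 : ℂ) :
    C1_f D N T α s0 = fun s => C1_g D N T α s0 s / (s - s0) := by
  funext s
  unfold C1_f C1_g Ke
  ring

lemma C1_f_eq' (D : AData) (N : ℕ) (T α : ℝ) (s0 : ℂ) :
    C1_f D N T α s0 = fun s => C1_N D N T α s0 s / xiF s := by
  funext s
  unfold C1_f C1_N Fs fq
  ring

lemma C1_E1_zero : E1 0 = 1 := by simp [E1]

lemma C1_g_self (D : AData) (N : ℕ) (T α : ℝ) (s0 : ℂ) : C1_g D N T α s0 s0 = Fs D T α s0 := by
  unfold C1_g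
  rw [sub_self, mul_zero, mul_zero, Complex.exp_zero, C1_E1_zero, one_pow, mul_one, mul_one]

lemma C1_Fs_diff (D : AData) (T α : ℝ) {s : ℂ} (hs : xiF s ≠ 0) :
    DifferentiableAt ℂ (Fs D T α) s := by
  unfold Fs
  have h1 : DifferentiableAt ℂ (fun s : ℂ => Vs D T (s + α * I)) s :=
    ((C1_Vs_diff D T).comp (by fun_prop : Differentiable ℂ fun s : ℂ => s + α * I)) s
  exact h1.mul (fq_differentiableAt hs)

lemma C1_g_diff (D : AData) (N : ℕ) (T α : ℝ) (s0 : ℂ) {s : ℂ} (hs : xiF s ≠ 0) :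
    DifferentiableAt ℂ (C1_g D N T α s0) s := by
  unfold C1_g
  have h1 : DifferentiableAt ℂ (fun s : ℂ => E1 ((kh D N T : ℂ) * (s - s0))) s :=
    (E1_diff.comp (by fun_prop : Differentiable ℂ fun s : ℂ => (kh D N T : ℂ) * (s - s0))) s
  have h2 : DifferentiableAt ℂ (fun s : ℂ => Complex.exp ((ka D T : ℂ) * (s - s0))) s := by
    fun_prop
  exact (C1_Fs_diff D T α hs).mul (h2.mul (h1.pow N))

lemma C1_f_diff (D : AData) (N : ℕ) (T α : ℝ) {s0 s : ℂ} (hs : xiF s ≠ 0) (hne : s ≠ s0) :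
    DifferentiableAt ℂ (C1_f D N T α s0) s := by
  rw [C1_f_eq]
  exact (C1_g_diff D N T α s0 hs).div (by fun_prop) (sub_ne_zero.mpr hne)

lemma C1_Ke_diff (N : ℕ) (a h : ℝ) {s0 s : ℂ} (hne : s ≠ s0) :
    DifferentiableAt ℂ (fun s => Ke N a h (s - s0)) s := by
  unfold Ke
  have h1 : DifferentiableAt ℂ (fun s : ℂ => E1 ((h : ℂ) * (s - s0))) s :=
    (E1_diff.comp (by fun_prop : Differentiable ℂ fun s : ℂ => (h : ℂ) * (s - s0))) s
  have h2 : DifferentiableAt ℂ (fun s : ℂ => Complex.exp ((a : ℂ) * (s - s0))) s := by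
    fun_prop
  exact (h2.mul (h1.pow N)).div (by fun_prop) (sub_ne_zero.mpr hne)

lemma C1_N_diff (D : AData) (N : ℕ) (T α : ℝ) {s0 s : ℂ} (hne : s ≠ s0) :
    DifferentiableAt ℂ (C1_N D N T α s0) s := by
  unfold C1_N
  have h1 : DifferentiableAt ℂ (fun s : ℂ => Vs D T (s + α * I)) s :=
    ((C1_Vs_diff D T).comp (by fun_prop : Differentiable ℂ fun s : ℂ => s + α * I)) s
  have h2 : DifferentiableAt ℂ (fun s : ℂ => xiF (s + α * I)) s :=
    (xiF_differentiable.comp (by fun_prop : Differentiable ℂ fun s : ℂ => s + α * I)) s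
  exact (h1.mul h2).mul (C1_Ke_diff N _ _ hne)

/-! ### The residue identity -/

lemma C1_vsplit {f : ℂ → ℂ} {a b e c d : ℝ}
    (h1 : IntervalIntegrable (fun x : ℝ => f (x + c * I)) volume a b)
    (h2 : IntervalIntegrable (fun x : ℝ => f (x + c * I)) volume b e)
    (h3 : IntervalIntegrable (fun x : ℝ => f (x + d * I)) volume a b)
    (h4 : IntervalIntegrable (fun x : ℝ => f (x + d * I)) volume b e) :
    rInt f a e c d = rInt f a b c d + rInt f b e c d := by
  unfold rInt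
  rw [← intervalIntegral.integral_add_adjacent_intervals h1 h2,
    ← intervalIntegral.integral_add_adjacent_intervals h3 h4]
  ring

lemma C1_rect_in (hRH : RiemannHypothesis) (D : AData) (N : ℕ) (T α : ℝ) {s0 : ℂ}
    {a b c d : ℝ} (ha : a < s0.re) (hb : s0.re < b) (hc : c < s0.im) (hd : s0.im < d)
    (hx : 1 / 2 < a ∨ b < 1 / 2) :
    rInt (C1_f D N T α s0) a b c d = 2 * Real.pi * I * Fs D T α s0 := by
  rw [C1_f_eq, rInt_cauchy ha hb hc hd, C1_g_self]
  intro z hz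
  apply C1_g_diff
  intro h0
  have h1 := ((xiF_zero_iff hRH).mp h0).1
  rcases hx with hx | hx
  · linarith [hz.1]
  · linarith [hz.2.1]

lemma C1_rect_out (hRH : RiemannHypothesis) (D : AData) (N : ℕ) (T α : ℝ) {s0 : ℂ}
    {a b c d : ℝ} (hab : a ≤ b) (hcd : c ≤ d) (hs : s0.re < a ∨ b < s0.re)
    (hx : 1 / 2 < a ∨ b < 1 / 2) :
    rInt (C1_f D N T α s0) a b c d = 0 := by
  apply rInt_zero hab hcd
  intro z hz
  apply C1_f_diff
  · intro h0
    have h1 := ((xiF_zero_iff hRH).mp h0).1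
    rcases hx with hx | hx
    · linarith [hz.1]
    · linarith [hz.2.1]
  · rintro rfl
    rcases hs with hs | hs
    · linarith [hz.1]
    · linarith [hz.2.1]

lemma C1_res (D : AData) (N : ℕ) (T α h1 h2 : ℝ) (s0 : ℂ) :
    ∑ z ∈ isoZ α h1 h2, 2 * Real.pi * I *
        (C1_N D N T α s0 (1 / 2 + z * I) / deriv xiF (1 / 2 + z * I)) =
      2 * Real.pi * I * ResP D N T α h1 h2 s0 := by
  unfold ResP
  rw [Finset.mul_sum]
  refine Finset.sum_congr rfl fun z _ => ?_
  congr 1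
  unfold C1_N cz
  have e1 : (1 / 2 + (z : ℂ) * I + α * I) = 1 / 2 + ((z + α : ℝ) : ℂ) * I := by
    push_cast; ring
  rw [e1, xiF_half, deriv_xiF_half]
  push_cast
  have hI : (-I)⁻¹ = I := by
    rw [inv_neg, Complex.inv_I, neg_neg]
  rw [div_eq_mul_inv, mul_inv, hI, div_eq_mul_inv]
  ring

theorem C1_ident (hRH : RiemannHypothesis) (D : AData) (N : ℕ) (T α : ℝ) {h1 h2 y A : ℝ} {s0 : ℂ}
    (hy : 0 < y) (hA : 2 ≤ A) (hy1 : y < |s0.re - 1 / 2|) (hy2 : |s0.re - 1 / 2| < 3 / 2)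
    (hh1 : h1 < s0.im) (hh2 : s0.im < h2) (hc1 : Xr h1 ≠ 0) (hc2 : Xr h2 ≠ 0) :
    2 * Real.pi * I * (Fs D T α s0 - LowI D N T α h1 h2 s0 + ResP D N T α h1 h2 s0) =
      (∫ x : ℝ in (1 / 2 - A)..2, C1_f D N T α s0 (x + h1 * I)) -
      (∫ x : ℝ in (1 / 2 - A)..2, C1_f D N T α s0 (x + h2 * I)) -
      I * (∫ y : ℝ in h1..h2, C1_f D N T α s0 (((1 / 2 - A : ℝ) : ℂ) + y * I)) -
      (rInt (fun s => C1_N D N T α s0 s / xiF s) (1 / 2 - y) (1 / 2 + y) h1 h2 -
      ∑ z ∈ isoZ α h1 h2, 2 * Real.pi * I *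
        (C1_N D N T α s0 (1 / 2 + z * I) / deriv xiF (1 / 2 + z * I))) := by
  have hcd : h1 ≤ h2 := by linarith
  have hcont : ∀ h : ℝ, Xr h ≠ 0 → s0.im ≠ h → ∀ a b : ℝ,
      IntervalIntegrable (fun x : ℝ => C1_f D N T α s0 (x + h * I)) volume a b := by
    intro h hX hne a b
    apply Continuous.intervalIntegrable
    rw [continuous_iff_continuousAt]
    intro x
    have h3 : DifferentiableAt ℂ (C1_f D N T α s0) ((x : ℂ) + h * I) := by
      apply C1_f_diff
      · intro h0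
        have h4 := ((xiF_zero_iff hRH).mp h0).2
        apply hX
        simpa using h4
      · intro h0
        apply hne
        rw [← h0]; simp
    exact ContinuousAt.comp (f := fun x : ℝ => (x : ℂ) + h * I) (g := C1_f D N T α s0)
      h3.continuousAt (Complex.continuous_ofReal.add continuous_const).continuousAt
  have i1 := hcont h1 hc1 (ne_of_gt hh1)
  have i2 := hcont h2 hc2 (ne_of_lt hh2)
  have s1 := C1_vsplit (f := C1_f D N T α s0) (i1 (1 / 2 - A) (1 / 2 - y)) (i1 (1 / 2 - y) 2)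
    (i2 (1 / 2 - A) (1 / 2 - y)) (i2 (1 / 2 - y) 2)
  have s2 := C1_vsplit (f := C1_f D N T α s0) (i1 (1 / 2 - y) (1 / 2 + y)) (i1 (1 / 2 + y) 2)
    (i2 (1 / 2 - y) (1 / 2 + y)) (i2 (1 / 2 + y) 2)
  have s3 : rInt (C1_f D N T α s0) (1 / 2 - A) (1 / 2 - y) h1 h2 +
      rInt (C1_f D N T α s0) (1 / 2 + y) 2 h1 h2 = 2 * Real.pi * I * Fs D T α s0 := by
    have hyl : y < 3 / 2 := by linarith
    rcases le_or_gt 0 (s0.re - 1 / 2) with h | h
    · rw [abs_of_nonneg h] at hy1 hy2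
      rw [C1_rect_out hRH D N T α (by linarith) hcd (by right; linarith) (by right; linarith),
        C1_rect_in hRH D N T α (by linarith) (by linarith) hh1 hh2 (by left; linarith), zero_add]
    · rw [abs_of_neg h] at hy1 hy2
      rw [C1_rect_out hRH D N T α (s0 := s0) (a := 1 / 2 + y) (b := 2) (by linarith) hcd
        (by left; linarith) (by left; linarith),
        C1_rect_in hRH D N T α (by linarith) (by linarith) hh1 hh2 (by right; linarith), add_zero]
  have s4 : rInt (C1_f D N T α s0) (1 / 2 - A) 2 h1 h2 =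
      (∫ x : ℝ in (1 / 2 - A)..2, C1_f D N T α s0 (x + h1 * I)) -
      (∫ x : ℝ in (1 / 2 - A)..2, C1_f D N T α s0 (x + h2 * I)) +
      2 * Real.pi * I * LowI D N T α h1 h2 s0 -
      I * (∫ y : ℝ in h1..h2, C1_f D N T α s0 (((1 / 2 - A : ℝ) : ℂ) + y * I)) := by
    unfold rInt
    have e1 : (∫ y : ℝ in h1..h2, C1_f D N T α s0 (((2 : ℝ) : ℂ) + y * I)) =
        2 * Real.pi * LowI D N T α h1 h2 s0 := by
      unfold LowI
      have hpi : (Real.pi : ℂ) ≠ 0 := by exact_mod_cast Real.pi_pos.ne'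
      push_cast
      rw [← mul_assoc]
      have e2 : (2 * (Real.pi : ℂ) * (1 / (2 * Real.pi))) = 1 := by field_simp
      rw [e2, one_mul]
      refine intervalIntegral.integral_congr fun t _ => ?_
      unfold C1_f
      simp only [add_sub_assoc]
    rw [e1]
    ring
  rw [C1_res, ← C1_f_eq']
  linear_combination s4 - s1 - s2 - s3

/-! ### Bounds -/

lemma C1_fq_far : ∃ C : ℝ, 0 < C ∧ ∀ α : ℝ, 0 ≤ α → α ≤ 1 → ∀ s : ℂ, 2 ≤ s.re → 1 ≤ s.im →
    ‖fq α s‖ ≤ C := by
  refine ⟨4 * Real.exp 14 * (Dd + 1), by have := Dd_nonneg; positivity,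
    fun α h0 h1 s hs him => ?_⟩
  rw [fq_eq (by linarith), norm_mul]
  have h2 := GB.gam_bound h0 him
  have h3 : ‖riemannZeta (s + α * I) / riemannZeta s‖ ≤ Dd := by
    have h4 := hasSum_gco α (s := s) (by linarith)
    refine h4.norm_le_of_bounded summable_dv.hasSum (fun n => ?_)
    rcases Nat.eq_zero_or_pos n with rfl | hn
    · rw [gco_zero, zero_mul, norm_zero]
      exact mul_nonneg (dv_nonneg _) (by positivity)
    · rw [norm_mul, Complex.norm_natCast_cpow_of_pos hn, neg_re]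
      have h5 : (n : ℝ) ^ (-s.re) ≤ ((n : ℝ) ^ (2 : ℝ))⁻¹ := by
        rw [← Real.rpow_neg (by positivity)]
        exact Real.rpow_le_rpow_of_exponent_le (by exact_mod_cast hn) (by linarith)
      have h6 := norm_gco_le α n
      have h7 := dv_nonneg n
      gcongr
  have h4 : Real.exp (14 * α) ≤ Real.exp 14 := by
    apply Real.exp_le_exp.mpr; linarith
  have h5 := Dd_nonneg
  calc ‖gam α s‖ * ‖riemannZeta (s + α * I) / riemannZeta s‖
      ≤ (4 * Real.exp (14 * α)) * Dd := by gcongr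
    _ ≤ (4 * Real.exp 14) * (Dd + 1) := by gcongr; linarith

lemma C1_fq_refl (α : ℝ) (s : ℂ) : ‖fq α s‖ = ‖fq α (1 - conj s)‖ := by
  rw [fq_symm, Complex.norm_conj]

lemma C1_fq_hor (hRH : RiemannHypothesis) : ∃ C T0 : ℝ, 0 < C ∧ 10 ≤ T0 ∧ ∀ T : ℝ, T0 ≤ T →
    ∀ α : ℝ, 0 ≤ α → α ≤ Real.pi / Real.log T → ∀ s : ℂ, s.re ≤ 2 → T / 8 ≤ s.im →
    s.im ≤ 8 * T → (∀ v, Xr v = 0 → 1 / Real.log T ≤ |v - s.im|) → ‖fq α s‖ ≤ T ^ C := by
  obtain ⟨C1, T1, hC1, hT1, h1⟩ := fq_le_rpow_right hRH (A := Real.pi) Real.pi_pos.le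
  obtain ⟨C2, T2, hC2, hT2, h2⟩ := fq_le_rpow_strip hRH (A := Real.pi) (c := 1)
    Real.pi_pos.le one_pos
  obtain ⟨C3, hC3, h3⟩ := C1_fq_far
  refine ⟨max C1 C2 + 1, max (max T1 T2) (max C3 (Real.exp 4)),
    by have := le_max_left C1 C2; linarith,
    hT1.trans ((le_max_left _ _).trans (le_max_left _ _)),
    fun T hT α hα hα2 s hs him1 him2 hd => ?_⟩
  have hTT1 : T1 ≤ T := (le_max_left _ _).trans ((le_max_left _ _).trans hT)
  have hTT2 : T2 ≤ T := (le_max_right _ _).trans ((le_max_left _ _).trans hT)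
  have hTC : C3 ≤ T := (le_max_left _ _).trans ((le_max_right _ _).trans hT)
  have hTe : Real.exp 4 ≤ T := (le_max_right _ _).trans ((le_max_right _ _).trans hT)
  have hT10 : 10 ≤ T := hT1.trans hTT1
  have hT1' : 1 ≤ T := by linarith
  have hT0 : 0 < T := by linarith
  have hL : 4 ≤ Real.log T := by
    rw [← Real.log_exp 4]; exact Real.log_le_log (Real.exp_pos _) hTe
  have hL0 : 0 < Real.log T := by linarith
  have hL1 : 0 < 1 / Real.log T := by positivity
  have hα1 : α ≤ 1 := by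
    refine hα2.trans ?_
    rw [div_le_one hL0]
    linarith [Real.pi_lt_d2]
  have hE1 : T ^ C1 ≤ T ^ (max C1 C2 + 1) :=
    Real.rpow_le_rpow_of_exponent_le hT1' (by linarith [le_max_left C1 C2])
  have hE2 : T ^ C2 ≤ T ^ (max C1 C2 + 1) :=
    Real.rpow_le_rpow_of_exponent_le hT1' (by linarith [le_max_right C1 C2])
  have hE3 : C3 ≤ T ^ (max C1 C2 + 1) := by
    refine hTC.trans ?_
    nth_rewrite 1 [← Real.rpow_one T]
    exact Real.rpow_le_rpow_of_exponent_le hT1' (by linarith [le_max_left C1 C2])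
  rcases le_or_gt (1 / 2 + 1 / Real.log T) s.re with h | h
  · exact (h1 T hTT1 α hα hα2 s h hs him1 him2).trans hE1
  rcases le_or_gt (1 / 2 - 1 / Real.log T) s.re with h' | h'
  · refine (h2 T hTT2 α hα hα2 s ?_ him1 him2 ?_).trans hE2
    · rw [abs_le]; constructor <;> linarith
    · intro ρ hρ
      refine (hd ρ.im (Xr_of_ntz hRH hρ)).trans ?_
      have := Complex.abs_im_le_norm (s - ρ)
      rw [sub_im] at this
      rw [abs_sub_comm]
      exact this
  · rw [C1_fq_refl]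
    have e1 : (1 - conj s).re = 1 - s.re := by simp
    have e2 : (1 - conj s).im = s.im := by simp
    rcases le_or_gt (1 - s.re) 2 with h'' | h''
    · exact (h1 T hTT1 α hα hα2 _ (by rw [e1]; linarith) (by rw [e1]; exact h'')
        (by rw [e2]; exact him1) (by rw [e2]; exact him2)).trans hE1
    · exact (h3 α hα hα1 _ (by rw [e1]; linarith) (by rw [e2]; linarith)).trans hE3

lemma C1_re_add (s : ℂ) (α : ℝ) : (s + α * I).re = s.re := by simp

lemma C1_kh_pos (D : AData) {N : ℕ} (hN : 1 ≤ N) {T : ℝ} (hL : 0 < Real.log T) :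
    0 < kh D N T := by
  unfold kh
  have h1 := D.ep_pos
  have h2 : (0 : ℝ) < N := by exact_mod_cast hN
  positivity

lemma C1_hor {C : ℝ} {N : ℕ} (hN1 : 1 ≤ N) (hN : C + 7 ≤ N) (D : AData) {θ : ℝ} (hθ : 0 < θ)
    {T α : ℝ} (hL : 4 ≤ Real.log T) (hT : 1 < T) (hθT : 4 ≤ θ * T) {s0 s : ℂ} (h0 : 0 ≤ s0.re)
    (hs : s.re ≤ 2) (him : θ * T / 4 ≤ |s.im - s0.im|) (hfq : ‖fq α s‖ ≤ T ^ C) :
    ‖C1_f D N T α s0 s‖ ≤ (16 * N / (D.ep * θ)) ^ N * (T ^ 3)⁻¹ := by
  have hep := D.ep_pos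
  have hep1 := D.ep_le
  have hT0 : 0 < T := by linarith
  have hL0 : 0 < Real.log T := by linarith
  have hNp : (0 : ℝ) < N := by exact_mod_cast hN1
  have hkh := C1_kh_pos D hN1 hL0
  have hTe : Real.exp (Real.log T) = T := Real.exp_log hT0
  set L := Real.log T with hLdef
  -- step a
  have ha : ‖Vs D T (s + α * I)‖ * Real.exp (ka D T * (s.re - s0.re)) ≤ T ^ 3 := by
    rcases le_or_gt 0 s.re with h | h
    · have h1 := C1_Vs_pos D hT.le (s := s + α * I) (by rw [C1_re_add]; exact h)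
      have h2 : Real.exp (ka D T * (s.re - s0.re)) ≤ T ^ 2 := by
        have e : T ^ 2 = Real.exp (2 * L) := by
          rw [two_mul, Real.exp_add, hTe]; ring
        rw [e]
        apply Real.exp_le_exp.mpr
        unfold ka
        rw [← hLdef]
        have h3 : (1 - D.ep) * L * (s.re - s0.re) ≤ (1 - D.ep) * L * 2 := by
          apply mul_le_mul_of_nonneg_left (by linarith)
          exact mul_nonneg (by linarith) hL0.le
        have h4 : 0 ≤ D.ep * L := by positivity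
        linarith
      calc ‖Vs D T (s + α * I)‖ * Real.exp (ka D T * (s.re - s0.re)) ≤ T * T ^ 2 := by gcongr
        _ = T ^ 3 := by ring
    · have h1 := C1_Vs_neg D hT (s := s + α * I) (by rw [C1_re_add]; exact h.le)
      rw [C1_re_add, ← hLdef] at h1
      have h2 : Real.exp (ka D T * (s.re - s0.re)) ≤ Real.exp ((1 - D.ep) * L * s.re) := by
        apply Real.exp_le_exp.mpr
        unfold ka
        rw [← hLdef]
        apply mul_le_mul_of_nonneg_left (by linarith)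
        exact mul_nonneg (by linarith) hL0.le
      have h3 : Real.exp (L * (1 - D.ep - D.ep ^ 2) * -s.re) * Real.exp ((1 - D.ep) * L * s.re)
          ≤ 1 := by
        rw [← Real.exp_add, Real.exp_le_one_iff]
        have h4 : 0 ≤ L * D.ep ^ 2 := by positivity
        nlinarith
      have h5 : T ≤ T ^ 3 := by
        nlinarith [mul_pos hT0 hT0, mul_self_nonneg (T - 1)]
      calc ‖Vs D T (s + α * I)‖ * Real.exp (ka D T * (s.re - s0.re))
          ≤ (T * Real.exp (L * (1 - D.ep - D.ep ^ 2) * -s.re)) *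
            Real.exp ((1 - D.ep) * L * s.re) := by gcongr
        _ = T * (Real.exp (L * (1 - D.ep - D.ep ^ 2) * -s.re) *
            Real.exp ((1 - D.ep) * L * s.re)) := by ring
        _ ≤ T * 1 := by gcongr
        _ ≤ T ^ 3 := by linarith
  -- the distance
  have hz : θ * T / 4 ≤ ‖s - s0‖ := by
    refine him.trans ?_
    have := Complex.abs_im_le_norm (s - s0)
    rwa [sub_im] at this
  have hz1 : 1 ≤ ‖s - s0‖ := by linarith
  -- step b
  have hb : ‖E1 ((kh D N T : ℂ) * (s - s0))‖ ^ N ≤ (16 * N / (D.ep * θ)) ^ N * T / T ^ N := by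
    have hw : ((kh D N T : ℂ) * (s - s0)) ≠ 0 := by
      apply mul_ne_zero
      · exact_mod_cast hkh.ne'
      · intro h; rw [h, norm_zero] at hz1; linarith
    have h1 := norm_E1_le' hw
    have hre : ((kh D N T : ℂ) * (s - s0)).re = kh D N T * (s.re - s0.re) := by simp
    have hnm : ‖(kh D N T : ℂ) * (s - s0)‖ = kh D N T * ‖s - s0‖ := by
      rw [norm_mul, Complex.norm_real, Real.norm_of_nonneg hkh.le]
    rw [hre, hnm] at h1
    have h2 : Real.exp (kh D N T * (s.re - s0.re)) ≤ Real.exp (2 * kh D N T) := by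
      apply Real.exp_le_exp.mpr
      nlinarith
    have h3 : 1 ≤ Real.exp (2 * kh D N T) := Real.one_le_exp (by positivity)
    have h4 : ‖E1 ((kh D N T : ℂ) * (s - s0))‖ ≤
        (2 * Real.exp (2 * kh D N T)) / (kh D N T * (θ * T / 4)) := by
      refine h1.trans ?_
      apply div_le_div₀ (by positivity) (by linarith) (by positivity)
      gcongr
    have h5 : Real.exp (2 * kh D N T) ^ N ≤ T := by
      rw [← Real.exp_nat_mul]
      have e : (N : ℝ) * (2 * kh D N T) = D.ep * L := by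
        unfold kh; rw [← hLdef]; field_simp
      rw [e]
      calc Real.exp (D.ep * L) ≤ Real.exp (1 * L) := by
            apply Real.exp_le_exp.mpr; gcongr; linarith
        _ = T := by rw [one_mul, hTe]
    have h6 : 8 / (kh D N T * θ) ≤ 16 * N / (D.ep * θ) := by
      rw [div_le_div_iff₀ (by positivity) (by positivity)]
      have : D.ep / 2 ≤ kh D N T * N := by
        have e : kh D N T * N = D.ep / 2 * L := by unfold kh; rw [← hLdef]; field_simp
        rw [e]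
        nlinarith
      nlinarith
    calc ‖E1 ((kh D N T : ℂ) * (s - s0))‖ ^ N
        ≤ ((2 * Real.exp (2 * kh D N T)) / (kh D N T * (θ * T / 4))) ^ N := by gcongr
      _ = (8 / (kh D N T * θ)) ^ N * Real.exp (2 * kh D N T) ^ N / T ^ N := by
          rw [← mul_pow, ← div_pow]
          congr 1
          field_simp
          ring
      _ ≤ (16 * N / (D.ep * θ)) ^ N * T / T ^ N := by gcongr
  -- the powers
  have hpow : T ^ C * T ^ 3 * (T / T ^ N) ≤ (T ^ 3)⁻¹ := by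
    have e1 : T ^ C * T ^ 3 * (T / T ^ N) = T ^ (C + 4 - N) := by
      rw [Real.rpow_sub hT0, Real.rpow_add hT0, Real.rpow_natCast]
      have : T ^ (4 : ℝ) = T ^ 3 * T := by
        rw [show (4 : ℝ) = ((4 : ℕ) : ℝ) by norm_num, Real.rpow_natCast]; ring
      rw [this]
      ring
    have e2 : (T ^ 3)⁻¹ = T ^ (-3 : ℝ) := by
      rw [Real.rpow_neg hT0.le]
      congr 1
      rw [show (3 : ℝ) = ((3 : ℕ) : ℝ) by norm_num, Real.rpow_natCast]
    rw [e1, e2]
    exact Real.rpow_le_rpow_of_exponent_le hT.le (by linarith)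
  have hB : 0 ≤ (16 * N / (D.ep * θ)) ^ N := by positivity
  unfold C1_f Fs
  rw [norm_mul, norm_mul, C1_norm_Ke, sub_re]
  calc ‖Vs D T (s + α * I)‖ * ‖fq α s‖ * (Real.exp (ka D T * (s.re - s0.re)) *
        ‖E1 ((kh D N T : ℂ) * (s - s0))‖ ^ N / ‖s - s0‖)
      = (‖Vs D T (s + α * I)‖ * Real.exp (ka D T * (s.re - s0.re))) * ‖fq α s‖ *
        (‖E1 ((kh D N T : ℂ) * (s - s0))‖ ^ N / ‖s - s0‖) := by ring
    _ ≤ T ^ 3 * T ^ C * (((16 * N / (D.ep * θ)) ^ N * T / T ^ N) / 1) := by gcongr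
    _ = (16 * N / (D.ep * θ)) ^ N * (T ^ C * T ^ 3 * (T / T ^ N)) := by ring
    _ ≤ (16 * N / (D.ep * θ)) ^ N * (T ^ 3)⁻¹ := by gcongr

lemma C1_left {C : ℝ} {N : ℕ} (hN1 : 1 ≤ N) (D : AData)
    {T α : ℝ} (hL : 2 / D.ep ≤ Real.log T) (hT : 1 < T) {s0 s : ℂ}
    (h0 : |s0.re - 1 / 2| ≤ 1 / (D.ep * Real.log T))
    (hs : s.re = 1 / 2 - 4 / D.ep ^ 2) (hC : 0 ≤ C) (hfq : ‖fq α s‖ ≤ C) :
    ‖C1_f D N T α s0 s‖ ≤ C * Real.exp (1 / D.ep) * (T ^ 3)⁻¹ := by
  have hep := D.ep_pos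
  have hep1 := D.ep_le
  have hT0 : 0 < T := by linarith
  have hL0 : 0 < Real.log T := by
    have : 0 < 2 / D.ep := by positivity
    linarith
  have hkh := C1_kh_pos D hN1 hL0
  have hTe : Real.exp (Real.log T) = T := Real.exp_log hT0
  set L := Real.log T with hLdef
  have hA : 4 ≤ 4 / D.ep ^ 2 := by
    rw [le_div_iff₀ (by positivity)]
    nlinarith
  set A := 4 / D.ep ^ 2 with hAdef
  have hAe : A * D.ep ^ 2 = 4 := by rw [hAdef]; field_simp
  have hepL : 2 ≤ D.ep * L := by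
    rw [div_le_iff₀ hep] at hL; linarith
  have h0' : |s0.re - 1 / 2| ≤ 1 / 2 := by
    refine h0.trans ?_
    rw [div_le_div_iff₀ (by positivity) (by norm_num)]
    linarith
  rw [abs_le] at h0 h0'
  have hz1 : 1 ≤ ‖s - s0‖ := by
    have h1 := Complex.abs_re_le_norm (s - s0)
    rw [sub_re, hs] at h1
    have h2 : 1 ≤ |1 / 2 - A - s0.re| := by
      rw [abs_of_nonpos (by linarith [h0'.1])]
      linarith [h0'.1]
    linarith
  have hE : ‖E1 ((kh D N T : ℂ) * (s - s0))‖ ^ N ≤ 1 := by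
    apply pow_le_one₀ (norm_nonneg _)
    refine (norm_E1_le _).trans ?_
    rw [Real.exp_le_one_iff]
    apply max_le _ le_rfl
    have hre : ((kh D N T : ℂ) * (s - s0)).re = kh D N T * (s.re - s0.re) := by simp
    rw [hre, hs]
    apply mul_nonpos_of_nonneg_of_nonpos hkh.le
    linarith [h0'.1]
  have hV := C1_Vs_neg D hT (s := s + α * I) (by rw [C1_re_add, hs]; linarith)
  rw [C1_re_add, hs, ← hLdef] at hV
  have hexp : Real.exp (L * (1 - D.ep - D.ep ^ 2) * -(1 / 2 - A)) *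
      Real.exp (ka D T * (1 / 2 - A - s0.re)) ≤ Real.exp (1 / D.ep) * Real.exp (-(4 * L)) := by
    rw [← Real.exp_add, ← Real.exp_add]
    apply Real.exp_le_exp.mpr
    unfold ka
    rw [← hLdef]
    have h1 : (1 - D.ep) * L * (1 / 2 - s0.re) ≤ 1 / D.ep := by
      have h2 : 1 / 2 - s0.re ≤ 1 / (D.ep * L) := by linarith [h0.1]
      calc (1 - D.ep) * L * (1 / 2 - s0.re) ≤ (1 - D.ep) * L * (1 / (D.ep * L)) := by
            apply mul_le_mul_of_nonneg_left h2
            exact mul_nonneg (by linarith) hL0.le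
        _ = (1 - D.ep) * (1 / D.ep) := by field_simp
        _ ≤ 1 * (1 / D.ep) := by gcongr; linarith
        _ = 1 / D.ep := one_mul _
    have h3 : L * (1 - D.ep - D.ep ^ 2) * -(1 / 2 - A) ≤ L * (1 - D.ep - D.ep ^ 2) * A := by
      apply mul_le_mul_of_nonneg_left (by linarith)
      exact mul_nonneg hL0.le (by nlinarith)
    have h4 : L * (1 - D.ep - D.ep ^ 2) * A + (1 - D.ep) * L * (-A) = -(4 * L) := by
      linear_combination -L * hAe
    have h5 : (1 - D.ep) * L * (1 / 2 - A - s0.re) =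
        (1 - D.ep) * L * (1 / 2 - s0.re) + (1 - D.ep) * L * (-A) := by ring
    linarith
  have h4L : T * Real.exp (-(4 * L)) = (T ^ 3)⁻¹ := by
    have : Real.exp (-(4 * L)) = (T ^ 4)⁻¹ := by
      rw [Real.exp_neg]
      congr 1
      calc Real.exp (4 * L) = Real.exp (((4 : ℕ) : ℝ) * L) := by norm_num
        _ = Real.exp L ^ 4 := Real.exp_nat_mul _ _
        _ = T ^ 4 := by rw [hTe]
    rw [this]
    field_simp
  unfold C1_f Fs
  rw [norm_mul, norm_mul, C1_norm_Ke, sub_re, hs]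
  calc ‖Vs D T (s + α * I)‖ * ‖fq α s‖ * (Real.exp (ka D T * (1 / 2 - A - s0.re)) *
        ‖E1 ((kh D N T : ℂ) * (s - s0))‖ ^ N / ‖s - s0‖)
      ≤ (T * Real.exp (L * (1 - D.ep - D.ep ^ 2) * -(1 / 2 - A))) * C *
        (Real.exp (ka D T * (1 / 2 - A - s0.re)) * 1 / 1) := by gcongr
    _ = T * C * (Real.exp (L * (1 - D.ep - D.ep ^ 2) * -(1 / 2 - A)) *
        Real.exp (ka D T * (1 / 2 - A - s0.re))) := by ring
    _ ≤ T * C * (Real.exp (1 / D.ep) * Real.exp (-(4 * L))) := by gcongr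
    _ = C * Real.exp (1 / D.ep) * (T * Real.exp (-(4 * L))) := by ring
    _ = C * Real.exp (1 / D.ep) * (T ^ 3)⁻¹ := by rw [h4L]

/-- The constant of the kernel bound. -/
noncomputable def C1_K (D : AData) (N : ℕ) : ℝ :=
  Real.exp (2 / D.ep) * (24 * N / D.ep) * (4 / D.ep ^ 4 + (1 + 8 / D.ep ^ 2) ^ 2)

lemma C1_K_nonneg (D : AData) (N : ℕ) : 0 ≤ C1_K D N := by
  have := D.ep_pos
  unfold C1_K
  positivity

lemma C1_near (D : AData) {N : ℕ} (hN : 1 ≤ N) {T : ℝ} (hL : 4 ≤ Real.log T) {z : ℂ} {u : ℝ}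
    (h1 : D.ep ^ 2 / (2 * Real.log T) ≤ ‖z‖) (h2 : z.re ≤ 2 / (D.ep * Real.log T))
    (h3 : |u| ≤ |z.im| + Real.pi / Real.log T) :
    ‖Ke N (ka D T) (kh D N T) z‖ ≤ C1_K D N * kk1 T u := by
  have hep := D.ep_pos
  have hep1 := D.ep_le
  have hL0 : 0 < Real.log T := by linarith
  have hkh := C1_kh_pos D hN hL0
  have hNp : (0 : ℝ) < N := by exact_mod_cast hN
  have hN1 : (1 : ℝ) ≤ N := by exact_mod_cast hN
  set L := Real.log T with hLdef
  have hz0 : 0 < ‖z‖ := lt_of_lt_of_le (by positivity) h1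
  -- the exponential
  have ha : Real.exp (ka D T * z.re) ≤ Real.exp (2 / D.ep) := by
    apply Real.exp_le_exp.mpr
    unfold ka
    rw [← hLdef]
    calc (1 - D.ep) * L * z.re ≤ (1 - D.ep) * L * (2 / (D.ep * L)) := by
          apply mul_le_mul_of_nonneg_left h2
          exact mul_nonneg (by linarith) hL0.le
      _ = (1 - D.ep) * (2 / D.ep) := by field_simp
      _ ≤ 1 * (2 / D.ep) := by gcongr; linarith
      _ = 2 / D.ep := one_mul _
  have hhx : kh D N T * z.re ≤ 1 / N := by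
    calc kh D N T * z.re ≤ kh D N T * (2 / (D.ep * L)) := by gcongr
      _ = 1 / N := by unfold kh; rw [← hLdef]; field_simp
  have hre : ((kh D N T : ℂ) * z).re = kh D N T * z.re := by simp
  have hnm : ‖(kh D N T : ℂ) * z‖ = kh D N T * ‖z‖ := by
    rw [norm_mul, Complex.norm_real, Real.norm_of_nonneg hkh.le]
  have he := Real.exp_one_lt_d9
  have hb : ‖E1 ((kh D N T : ℂ) * z)‖ ^ N ≤ 12 / (kh D N T * ‖z‖) := by
    obtain ⟨M, rfl⟩ : ∃ M, N = M + 1 := ⟨N - 1, by omega⟩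
    rw [pow_succ]
    have h4 : ‖E1 ((kh D (M + 1) T : ℂ) * z)‖ ≤ 4 / (kh D (M + 1) T * ‖z‖) := by
      have hw : ((kh D (M + 1) T : ℂ) * z) ≠ 0 := by
        rw [← norm_pos_iff, hnm]; positivity
      refine (norm_E1_le' hw).trans ?_
      rw [hre, hnm]
      have h5 : Real.exp (kh D (M + 1) T * z.re) ≤ Real.exp 1 := by
        apply Real.exp_le_exp.mpr
        refine hhx.trans ?_
        rw [div_le_one hNp]
        exact hN1
      gcongr
      linarith
    have h6 : ‖E1 ((kh D (M + 1) T : ℂ) * z)‖ ^ M ≤ 3 := by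
      have h7 := norm_E1_le ((kh D (M + 1) T : ℂ) * z)
      rw [hre] at h7
      calc ‖E1 ((kh D (M + 1) T : ℂ) * z)‖ ^ M
          ≤ Real.exp (max (kh D (M + 1) T * z.re) 0) ^ M := by gcongr
        _ = Real.exp (M * max (kh D (M + 1) T * z.re) 0) := by rw [Real.exp_nat_mul]
        _ ≤ Real.exp 1 := by
            apply Real.exp_le_exp.mpr
            have h8 : max (kh D (M + 1) T * z.re) 0 ≤ 1 / ((M + 1 : ℕ) : ℝ) :=
              max_le hhx (by positivity)
            calc (M : ℝ) * max (kh D (M + 1) T * z.re) 0 ≤ M * (1 / ((M + 1 : ℕ) : ℝ)) := by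
                  gcongr
              _ ≤ 1 := by
                  rw [mul_one_div, div_le_one hNp]
                  push_cast
                  linarith
        _ ≤ 3 := by linarith
    calc ‖E1 ((kh D (M + 1) T : ℂ) * z)‖ ^ M * ‖E1 ((kh D (M + 1) T : ℂ) * z)‖
        ≤ 3 * (4 / (kh D (M + 1) T * ‖z‖)) := by gcongr
      _ = 12 / (kh D (M + 1) T * ‖z‖) := by ring
  -- the comparison with `kk1`
  have hLz : D.ep ^ 2 / 2 ≤ L * ‖z‖ := by
    rw [div_le_iff₀ (by positivity)] at h1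
    linarith
  have hLz0 : 0 < L * ‖z‖ := by positivity
  have hone : 1 ≤ 2 / D.ep ^ 2 * (L * ‖z‖) := by
    calc (1 : ℝ) = 2 / D.ep ^ 2 * (D.ep ^ 2 / 2) := by field_simp
      _ ≤ _ := by gcongr
  have hLu : |L * u| ≤ (1 + 8 / D.ep ^ 2) * (L * ‖z‖) := by
    rw [abs_mul, abs_of_pos hL0]
    have h4 : |z.im| ≤ ‖z‖ := Complex.abs_im_le_norm z
    calc L * |u| ≤ L * (‖z‖ + Real.pi / L) := by
          gcongr
          linarith
      _ = L * ‖z‖ + Real.pi := by field_simp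
      _ ≤ L * ‖z‖ + 4 * 1 := by linarith [Real.pi_lt_d2]
      _ ≤ L * ‖z‖ + 4 * (2 / D.ep ^ 2 * (L * ‖z‖)) := by gcongr
      _ = (1 + 8 / D.ep ^ 2) * (L * ‖z‖) := by ring
  have hM : 1 + (L * u) ^ 2 ≤
      (4 / D.ep ^ 4 + (1 + 8 / D.ep ^ 2) ^ 2) * (L * ‖z‖) ^ 2 := by
    have h5 : (1 : ℝ) ≤ 4 / D.ep ^ 4 * (L * ‖z‖) ^ 2 := by
      calc (1 : ℝ) ≤ (2 / D.ep ^ 2 * (L * ‖z‖)) ^ 2 := one_le_pow₀ hone
        _ = 4 / D.ep ^ 4 * (L * ‖z‖) ^ 2 := by ring
    have h6 : (L * u) ^ 2 ≤ (1 + 8 / D.ep ^ 2) ^ 2 * (L * ‖z‖) ^ 2 := by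
      rw [← sq_abs (L * u), ← mul_pow]
      gcongr
    linarith
  have hkk : 1 / (L * ‖z‖ ^ 2) ≤ (4 / D.ep ^ 4 + (1 + 8 / D.ep ^ 2) ^ 2) * kk1 T u := by
    unfold kk1
    rw [← hLdef, mul_div_assoc', div_le_div_iff₀ (by positivity) (by positivity)]
    calc 1 * (1 + (L * u) ^ 2) ≤ (4 / D.ep ^ 4 + (1 + 8 / D.ep ^ 2) ^ 2) * (L * ‖z‖) ^ 2 := by
          rw [one_mul]; exact hM
      _ = (4 / D.ep ^ 4 + (1 + 8 / D.ep ^ 2) ^ 2) * L * (L * ‖z‖ ^ 2) := by ring
  rw [C1_norm_Ke]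
  calc Real.exp (ka D T * z.re) * ‖E1 ((kh D N T : ℂ) * z)‖ ^ N / ‖z‖
      ≤ Real.exp (2 / D.ep) * (12 / (kh D N T * ‖z‖)) / ‖z‖ := by gcongr
    _ = Real.exp (2 / D.ep) * (24 * N / D.ep) * (1 / (L * ‖z‖ ^ 2)) := by
        unfold kh
        rw [← hLdef]
        field_simp
        ring
    _ ≤ Real.exp (2 / D.ep) * (24 * N / D.ep) *
        ((4 / D.ep ^ 4 + (1 + 8 / D.ep ^ 2) ^ 2) * kk1 T u) := by gcongr
    _ = C1_K D N * kk1 T u := by unfold C1_K; ring

/-- C1 -/
theorem rep (hRH : RiemannHypothesis) : ∃ N0 : ℕ, ∀ N : ℕ, N0 ≤ N → ∀ D : AData, ∀ τ θ : ℝ,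
    1 / 3 < τ → τ < 1 / 2 → 0 < θ → θ ≤ 1 / 8 → ∃ K T0 : ℝ, 0 < K ∧ ∀ T : ℝ, T0 ≤ T →
    ∃ h1 ∈ Icc ((5 / 4 - θ / 2) * T) ((5 / 4 - θ / 4) * T),
    ∃ h2 ∈ Icc ((7 / 4 + θ / 4) * T) ((7 / 4 + θ / 2) * T),
    ∀ G : ℝ → ℝ, Continuous G → (∀ t, 0 ≤ G t) →
    (∀ t ∈ Icc h1 h2, ∀ s : ℂ, |s.re - 1 / 2| ≤ 1 / Real.log T →
        |s.im - t| ≤ alp τ T → (∀ v, Xr v = 0 → D.ep ^ 2 / 2 / Real.log T ≤ ‖s - (1 / 2 + v * I)‖) →
        ‖Fs D T (alp τ T) s‖ ≤ G t) →
    ∀ s0 : ℂ, D.ep ^ 2 / Real.log T ≤ |s0.re - 1 / 2| →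
      |s0.re - 1 / 2| ≤ 1 / (D.ep * Real.log T) → s0.im ∈ Icc (5 * T / 4) (7 * T / 4) →
      ‖Fs D T (alp τ T) s0 - LowI D N T (alp τ T) h1 h2 s0 +
        ResP D N T (alp τ T) h1 h2 s0‖ ≤
        K * (∫ t in Ioc h1 h2 ∩ EE (alp τ T), G t * kk1 T (t - s0.im)) + 1 / T := by
  obtain ⟨C1, T1, hC1, hT1, hfq⟩ := C1_fq_hor hRH
  obtain ⟨C3, hC3, hfar⟩ := C1_fq_far
  refine ⟨⌈C1⌉₊ + 8, fun N hN D τ θ hτ1 hτ2 hθ hθ8 => ?_⟩
  have hNC : C1 + 7 ≤ (N : ℝ) := by
    have h1 := Nat.le_ceil C1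
    have h2 : ((⌈C1⌉₊ + 8 : ℕ) : ℝ) ≤ N := by exact_mod_cast hN
    push_cast at h2
    linarith
  have hN1 : 1 ≤ N := by omega
  have hep := D.ep_pos
  have hep1 := D.ep_le
  have hpi := Real.pi_pos
  have hpi3 := Real.pi_gt_three
  obtain ⟨C2, T2, hC2, hT2, hcut⟩ := exists_good_cut (τ := τ) (by linarith) (by linarith)
  have hAge : 4 ≤ 4 / D.ep ^ 2 := by
    rw [le_div_iff₀ (by positivity)]
    nlinarith
  set A : ℝ := 4 / D.ep ^ 2 with hAdef
  set B : ℝ := (16 * N / (D.ep * θ)) ^ N with hBdef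
  have hB : 0 ≤ B := by positivity
  have hK := C1_K_nonneg D N
  refine ⟨6 * (C1_K D N + 1), max T1 T2 + Real.exp (2 / D.ep + 4) + 4 * C2 / θ + 4 / θ +
    4 * (A + 2) * B + 4 * C3 * Real.exp (1 / D.ep), by linarith, fun T hT => ?_⟩
  have p1 : 0 < Real.exp (2 / D.ep + 4) := Real.exp_pos _
  have p2 : 0 ≤ 4 * C2 / θ := by positivity
  have p3 : 0 ≤ 4 / θ := by positivity
  have p4 : 0 ≤ 4 * (A + 2) * B := by positivity
  have p5 : 0 ≤ 4 * C3 * Real.exp (1 / D.ep) := by positivity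
  have p6 : 10 ≤ max T1 T2 := hT1.trans (le_max_left _ _)
  have hTT1 : T1 ≤ T := by linarith [le_max_left T1 T2]
  have hTT2 : T2 ≤ T := by linarith [le_max_right T1 T2]
  have hTe : Real.exp (2 / D.ep + 4) ≤ T := by linarith
  have hTC : C2 ≤ θ * T / 4 := by
    have : 4 * C2 / θ ≤ T := by linarith
    rw [div_le_iff₀ hθ] at this
    linarith
  have hTθ : 4 ≤ θ * T := by
    have : 4 / θ ≤ T := by linarith
    rw [div_le_iff₀ hθ] at this
    linarith
  have hTB : 4 * (A + 2) * B ≤ T := by linarith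
  have hTC3 : 4 * C3 * Real.exp (1 / D.ep) ≤ T := by linarith
  have hT10 : 10 ≤ T := by linarith
  have hT1' : 1 < T := by linarith
  have hT0 : 0 < T := by linarith
  have hL2 : 2 / D.ep + 4 ≤ Real.log T := by
    rw [← Real.log_exp (2 / D.ep + 4)]
    exact Real.log_le_log (Real.exp_pos _) hTe
  have h2ep : 0 < 2 / D.ep := by positivity
  have hL4 : 4 ≤ Real.log T := by linarith
  have hL0 : 0 < Real.log T := by linarith
  have hepL : 2 ≤ D.ep * Real.log T := by
    have : 2 / D.ep ≤ Real.log T := by linarith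
    rw [div_le_iff₀ hep] at this
    linarith
  -- the cuts
  have hθT : θ * T ≤ 1 / 8 * T := by gcongr
  obtain ⟨h1, ⟨hh1a, hh1b⟩, hh1c⟩ := hcut T hTT2 ((5 / 4 - θ / 2) * T) (by linarith) (by linarith)
  obtain ⟨h2, ⟨hh2a, hh2b⟩, hh2c⟩ := hcut T hTT2 ((7 / 4 + θ / 4) * T) (by linarith) (by linarith)
  have hh1d : h1 ≤ (5 / 4 - θ / 4) * T := by linarith
  have hh2d : h2 ≤ (7 / 4 + θ / 2) * T := by linarith
  refine ⟨h1, ⟨hh1a, hh1d⟩, h2, ⟨hh2a, hh2d⟩, ?_⟩
  have hα0 : 0 < alp τ T := by unfold alp; positivity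
  have hαhalf : alp τ T / 2 = Real.pi * τ / Real.log T := by unfold alp; ring
  have hα2 : alp τ T ≤ Real.pi / Real.log T := by
    unfold alp
    apply div_le_div_of_nonneg_right _ hL0.le
    have := mul_nonneg hpi.le (by linarith : 0 ≤ 1 / 2 - τ)
    linarith
  have hπτ : 1 ≤ Real.pi * τ := by
    calc (1 : ℝ) = 3 * (1 / 3) := by norm_num
      _ ≤ Real.pi * τ := by gcongr
  have hα3 : 1 / Real.log T ≤ Real.pi * τ / Real.log T := by gcongr
  have hα1 : alp τ T ≤ 1 := by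
    refine hα2.trans ?_
    rw [div_le_one hL0]
    linarith [Real.pi_lt_d2]
  set α := alp τ T with hαdef
  have hX : ∀ v : ℝ, Xr v = 0 → (1 / 2 + (v : ℂ) * I) ∈ ntz := by
    intro v hv
    apply xiF_eq_zero_iff.mp
    rw [xiF_half, hv]; simp
  have hcut1 : ∀ v, Xr v = 0 → Real.pi * τ / Real.log T ≤ |v - h1| := by
    intro v hv
    have h3 := hh1c _ (hX v hv)
    simpa using h3
  have hcut2 : ∀ v, Xr v = 0 → Real.pi * τ / Real.log T ≤ |v - h2| := by
    intro v hv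
    have h3 := hh2c _ (hX v hv)
    simpa using h3
  have hrpos : 0 < Real.pi * τ / Real.log T := by positivity
  have hne1 : Xr h1 ≠ 0 := by
    intro h0
    have h3 := hcut1 h1 h0
    rw [sub_self, abs_zero] at h3
    linarith
  have hne2 : Xr h2 ≠ 0 := by
    intro h0
    have h3 := hcut2 h2 h0
    rw [sub_self, abs_zero] at h3
    linarith
  intro G hGc hG0 hGb s0 hs0a hs0b hs0c
  obtain ⟨hs0c, hs0d⟩ := hs0c
  set y : ℝ := D.ep ^ 2 / (2 * Real.log T) with hydef
  have hy : 0 < y := by positivity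
  have h2y : D.ep ^ 2 / Real.log T = 2 * y := by rw [hydef]; field_simp
  have hy' : D.ep ^ 2 / 2 / Real.log T = y := by rw [hydef]; field_simp
  have hyL : y ≤ 1 / Real.log T := by
    rw [← hy']
    apply div_le_div_of_nonneg_right _ hL0.le
    have : D.ep ^ 2 ≤ 1 := pow_le_one₀ hep.le (by linarith)
    linarith
  have hyep : y ≤ 1 / (D.ep * Real.log T) := by
    refine hyL.trans ?_
    apply one_div_le_one_div_of_le (by positivity)
    exact mul_le_of_le_one_left hL0.le (by linarith)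
  have hepL' : 1 / (D.ep * Real.log T) ≤ 1 / 2 := by
    rw [div_le_div_iff₀ (by positivity) (by norm_num)]
    linarith
  rw [h2y] at hs0a
  have hy1 : y < |s0.re - 1 / 2| := by linarith
  have hy2 : |s0.re - 1 / 2| < 3 / 2 := by linarith
  have hθT0 : 0 < θ * T := by positivity
  have hh1 : h1 < s0.im := by linarith
  have hh2 : s0.im < h2 := by linarith
  have hid := C1_ident hRH D N T α (h1 := h1) (h2 := h2) (y := y) (A := A) (s0 := s0) hy
    (by linarith) hy1 hy2 hh1 hh2 hne1 hne2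
  have hs0re : 0 ≤ s0.re := by
    have := hs0b.trans hepL'
    rw [abs_le] at this
    linarith [this.1]
  -- the horizontal sides
  have hhor : ∀ h : ℝ, T / 8 ≤ h → h ≤ 8 * T → θ * T / 4 ≤ |h - s0.im| →
      (∀ v, Xr v = 0 → Real.pi * τ / Real.log T ≤ |v - h|) →
      ‖∫ x : ℝ in (1 / 2 - A)..2, C1_f D N T α s0 (x + h * I)‖ ≤ 1 / (4 * T) := by
    intro h ha hb hc hd
    have h3 : ∀ x ∈ Set.uIoc (1 / 2 - A) 2, ‖C1_f D N T α s0 ((x : ℂ) + h * I)‖ ≤
        B * (T ^ 3)⁻¹ := by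
      intro x hx
      rw [Set.uIoc_of_le (by linarith)] at hx
      have e1 : ((x : ℂ) + h * I).re = x := by simp
      have e2 : ((x : ℂ) + h * I).im = h := by simp
      apply C1_hor hN1 hNC D hθ hL4 hT1' hTθ hs0re (by rw [e1]; exact hx.2) (by rw [e2]; exact hc)
      apply hfq T hTT1 α hα0.le hα2 _ (by rw [e1]; exact hx.2) (by rw [e2]; exact ha)
        (by rw [e2]; exact hb)
      intro v hv
      rw [e2]
      exact hα3.trans (hd v hv)
    refine (intervalIntegral.norm_integral_le_of_norm_le_const h3).trans ?_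
    have e3 : |2 - (1 / 2 - A)| = A + 3 / 2 := by
      rw [abs_of_nonneg (by linarith)]; ring
    rw [e3]
    have h4 : 4 * (A + 2) * B ≤ T ^ 2 := hTB.trans (le_self_pow₀ hT1'.le (by norm_num))
    rw [le_div_iff₀ (by positivity)]
    calc B * (T ^ 3)⁻¹ * (A + 3 / 2) * (4 * T) ≤ B * (T ^ 3)⁻¹ * (A + 2) * (4 * T) := by
          gcongr
          linarith
      _ = (4 * (A + 2) * B) * (T * (T ^ 3)⁻¹) := by ring
      _ ≤ T ^ 2 * (T * (T ^ 3)⁻¹) := by gcongr
      _ = 1 := by field_simp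
  have hhor1 := hhor h1 (by linarith) (by linarith)
    (by rw [abs_sub_comm, abs_of_nonneg (by linarith)]; linarith) hcut1
  have hhor2 := hhor h2 (by linarith) (by linarith)
    (by rw [abs_of_nonneg (by linarith)]; linarith) hcut2
  -- the left side
  have hleft : ‖∫ y : ℝ in h1..h2, C1_f D N T α s0 (((1 / 2 - A : ℝ) : ℂ) + y * I)‖ ≤
      1 / (4 * T) := by
    have h3 : ∀ x ∈ Set.uIoc h1 h2, ‖C1_f D N T α s0 (((1 / 2 - A : ℝ) : ℂ) + x * I)‖ ≤
        C3 * Real.exp (1 / D.ep) * (T ^ 3)⁻¹ := by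
      intro x hx
      rw [Set.uIoc_of_le (by linarith)] at hx
      have e1 : ((((1 / 2 - A : ℝ) : ℂ)) + x * I).re = 1 / 2 - A := by simp
      have e2 : ((((1 / 2 - A : ℝ) : ℂ)) + x * I).im = x := by simp
      apply C1_left hN1 D (by linarith) hT1' hs0b e1 hC3.le
      rw [C1_fq_refl]
      apply hfar α hα0.le hα1
      · rw [sub_re, one_re, conj_re, e1]; linarith
      · rw [sub_im, one_im, conj_im, e2]; linarith [hx.1]
    refine (intervalIntegral.norm_integral_le_of_norm_le_const h3).trans ?_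
    have e3 : |h2 - h1| ≤ T := by
      rw [abs_of_nonneg (by linarith)]
      linarith
    rw [le_div_iff₀ (by positivity)]
    calc C3 * Real.exp (1 / D.ep) * (T ^ 3)⁻¹ * |h2 - h1| * (4 * T)
        ≤ C3 * Real.exp (1 / D.ep) * (T ^ 3)⁻¹ * T * (4 * T) := by gcongr
      _ = (4 * C3 * Real.exp (1 / D.ep)) * (T * T * (T ^ 3)⁻¹) := by ring
      _ ≤ T * (T * T * (T ^ 3)⁻¹) := by gcongr
      _ = 1 := by field_simp
  -- the strip
  have hstrip := strip_eq hRH (α := α) (y := y) (h1 := h1) (h2 := h2) hα0 hy (by linarith)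
    (N := C1_N D N T α s0) (fun s hs => by
      apply C1_N_diff
      intro hss
      have h3 : |s.re - 1 / 2| ≤ y := by
        rw [abs_le]
        obtain ⟨g1, g2, -, -⟩ := hs
        constructor <;> linarith
      rw [hss] at h3
      linarith) (fun w hw => by rw [hαhalf]; exact hcut1 w hw)
    (fun w hw => by rw [hαhalf]; exact hcut2 w hw)
    (G := fun t => C1_K D N * (G t * kk1 T (t - s0.im)))
    (fun t => by
      have h3 : 0 ≤ kk1 T (t - s0.im) := by unfold kk1; positivity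
      exact mul_nonneg hK (mul_nonneg (hG0 t) h3))
    (by
      have h3 : Continuous (fun t : ℝ => kk1 T (t - s0.im)) := by
        unfold kk1
        apply Continuous.div continuous_const (by fun_prop)
        intro x
        positivity
      exact ((hGc.mul h3).const_smul (C1_K D N)).integrableOn_Ioc)
    (by
      intro t ht s hs1 hs2 hs3 hs4
      have e : C1_N D N T α s0 s / xiF s = C1_f D N T α s0 s := by
        rw [C1_f_eq']
      rw [e]
      unfold C1_f
      rw [norm_mul]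
      have b1 : ‖Fs D T α s‖ ≤ G t := by
        apply hGb t ht s (hs1.trans hyL) hs3
        intro v hv
        rw [hy']
        have hre : |s.re - 1 / 2| ≤ ‖s - (1 / 2 + v * I)‖ := by
          have := Complex.abs_re_le_norm (s - (1 / 2 + v * I))
          simpa using this
        have him : |v - s.im| ≤ ‖s - (1 / 2 + v * I)‖ := by
          have := Complex.abs_im_le_norm (s - (1 / 2 + v * I))
          rw [abs_sub_comm]
          simpa using this
        rcases hs4 with h3 | h3 | h3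
        · rw [h3] at hre
          rw [add_sub_cancel_left, abs_of_pos hy] at hre
          exact hre
        · rw [h3] at hre
          rw [sub_sub_cancel_left, abs_neg, abs_of_pos hy] at hre
          exact hre
        · have h4 := h3 v hv
          rw [hαhalf] at h4
          have h5 : y ≤ Real.pi * τ / Real.log T := hyL.trans hα3
          linarith
      have b2 : ‖Ke N (ka D T) (kh D N T) (s - s0)‖ ≤ C1_K D N * kk1 T (t - s0.im) := by
        apply C1_near D hN1 hL4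
        · have h3 := Complex.abs_re_le_norm (s - s0)
          rw [sub_re] at h3
          have h4 : |s0.re - 1 / 2| ≤ |s.re - s0.re| + |s.re - 1 / 2| := by
            have h5 : s0.re - 1 / 2 = -(s.re - s0.re) + (s.re - 1 / 2) := by ring
            rw [h5]
            refine (abs_add_le _ _).trans ?_
            rw [abs_neg]
          rw [← hydef]
          linarith
        · rw [sub_re]
          rw [abs_le] at hs1 hs0b
          have e4 : 2 / (D.ep * Real.log T) = 1 / (D.ep * Real.log T) + 1 / (D.ep * Real.log T) := by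
            ring
          rw [e4]
          linarith [hs1.2, hs0b.1]
        · rw [sub_im]
          have h5 : t - s0.im = (s.im - s0.im) - (s.im - t) := by ring
          rw [h5]
          refine (abs_sub _ _).trans ?_
          linarith
      calc ‖Fs D T α s‖ * ‖Ke N (ka D T) (kh D N T) (s - s0)‖
          ≤ G t * (C1_K D N * kk1 T (t - s0.im)) := by
            gcongr
            exact hG0 t
        _ = C1_K D N * (G t * kk1 T (t - s0.im)) := by ring)
  set J := ∫ t in Ioc h1 h2 ∩ EE α, G t * kk1 T (t - s0.im) with hJ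
  have hJ0 : 0 ≤ J := by
    apply integral_nonneg
    intro t
    have h3 : 0 ≤ kk1 T (t - s0.im) := by unfold kk1; positivity
    exact mul_nonneg (hG0 t) h3
  have hint : (∫ t in Ioc h1 h2 ∩ EE α, C1_K D N * (G t * kk1 T (t - s0.im))) =
      C1_K D N * J := integral_const_mul _ _
  rw [hint] at hstrip
  have hyα : y / α ≤ 1 := by
    rw [div_le_one hα0]
    have : 1 / Real.log T ≤ α := by linarith
    linarith
  have hstrip2 : 16 * (1 + y / α) * (C1_K D N * J) ≤ 32 * (C1_K D N * J) := by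
    apply mul_le_mul_of_nonneg_right (by linarith) (by positivity)
  -- conclusion
  have hnorm : ‖2 * (Real.pi : ℂ) * I * (Fs D T α s0 - LowI D N T α h1 h2 s0 +
      ResP D N T α h1 h2 s0)‖ = 2 * Real.pi * ‖Fs D T α s0 - LowI D N T α h1 h2 s0 +
      ResP D N T α h1 h2 s0‖ := by
    rw [norm_mul, norm_mul, norm_mul, Complex.norm_I, Complex.norm_real,
      Real.norm_of_nonneg hpi.le, mul_one]
    norm_num
  have hfin : 2 * Real.pi * ‖Fs D T α s0 - LowI D N T α h1 h2 s0 + ResP D N T α h1 h2 s0‖ ≤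
      3 * (1 / (4 * T)) + 32 * (C1_K D N * J) := by
    rw [← hnorm, hid]
    refine (norm_sub_le _ _).trans ?_
    have e5 := norm_sub_le ((∫ x : ℝ in (1 / 2 - A)..2, C1_f D N T α s0 (x + h1 * I)) -
      (∫ x : ℝ in (1 / 2 - A)..2, C1_f D N T α s0 (x + h2 * I)))
      (I * (∫ y : ℝ in h1..h2, C1_f D N T α s0 (((1 / 2 - A : ℝ) : ℂ) + y * I)))
    have e6 := norm_sub_le (∫ x : ℝ in (1 / 2 - A)..2, C1_f D N T α s0 (x + h1 * I))
      (∫ x : ℝ in (1 / 2 - A)..2, C1_f D N T α s0 (x + h2 * I))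
    rw [norm_mul, Complex.norm_I, one_mul] at e5
    linarith
  have hgoal : 2 * Real.pi * ‖Fs D T α s0 - LowI D N T α h1 h2 s0 + ResP D N T α h1 h2 s0‖ ≤
      2 * Real.pi * (6 * (C1_K D N + 1) * J + 1 / T) := by
    refine hfin.trans ?_
    have e7 : 3 * (1 / (4 * T)) ≤ 2 * Real.pi * (1 / T) := by
      have e8 : 3 * (1 / (4 * T)) = 3 / 4 * (1 / T) := by field_simp
      rw [e8]
      exact mul_le_mul_of_nonneg_right (by linarith) (by positivity)
    have e9 : 32 * (C1_K D N * J) ≤ 2 * Real.pi * (6 * (C1_K D N + 1) * J) := by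
      have e10 : 0 ≤ C1_K D N * J := by positivity
      have e11 : 2 * Real.pi * (6 * (C1_K D N + 1) * J) =
          12 * Real.pi * (C1_K D N * J) + 12 * Real.pi * J := by ring
      rw [e11]
      have e12 : 32 * (C1_K D N * J) ≤ 12 * Real.pi * (C1_K D N * J) := by
        apply mul_le_mul_of_nonneg_right (by linarith) e10
      have e13 : 0 ≤ 12 * Real.pi * J := by positivity
      linarith
    linarith
  exact le_of_mul_le_mul_left hgoal (by positivity)

end Pool.Agent.AHD
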