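import Pool.Agent.ZGap.AH.K
import Pool.Agent.ZGap.AH.A3
import Pool.Agent.ZGap.Half.GamB
import Pool.Agent.ZGap.Half.Trace
import Pool.Agent.ZGap.Half.Rect

/-!
# The right line
-/

open scoped ContDiff

namespace Pool.Agent.AHD

open Complex MeasureTheory Set Pool.Agent.Hadamard Pool.Agent.HalfGap

/-! ### Boundary integrals -/

lemma K4_hor {f : ℂ → ℂ} {a b c M : ℝ} (hab : a ≤ b)
    (h : ∀ x ∈ Icc a b, ‖f (x + c * I)‖ ≤ M) :
    ‖∫ x : ℝ in a..b, f (x + c * I)‖ ≤ M * (b - a) := by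
  have := intervalIntegral.norm_integral_le_of_norm_le_const (a := a) (b := b) (C := M)
    (f := fun x : ℝ => f (x + c * I)) (fun x hx => by
      rw [uIoc_of_le hab] at hx
      exact h x ⟨hx.1.le, hx.2⟩)
  rwa [abs_of_nonneg (by linarith)] at this

lemma K4_ver {f : ℂ → ℂ} {a c d M : ℝ} (hcd : c ≤ d)
    (h : ∀ y ∈ Icc c d, ‖f (a + y * I)‖ ≤ M) :
    ‖∫ y : ℝ in c..d, f (a + y * I)‖ ≤ M * (d - c) := by
  have := intervalIntegral.norm_integral_le_of_norm_le_const (a := c) (b := d) (C := M)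
    (f := fun y : ℝ => f (a + y * I)) (fun x hx => by
      rw [uIoc_of_le hcd] at hx
      exact h x ⟨hx.1.le, hx.2⟩)
  rwa [abs_of_nonneg (by linarith)] at this

/-- The right side of a rectangle. -/
lemma K4_right {f : ℂ → ℂ} {a b c d M : ℝ} {V : ℂ} (hab : a ≤ b) (hcd : c ≤ d)
    (hr : rInt f a b c d = I * V)
    (h1 : ∀ x ∈ Icc a b, ‖f (x + c * I)‖ ≤ M) (h2 : ∀ x ∈ Icc a b, ‖f (x + d * I)‖ ≤ M)
    (h3 : ∀ y ∈ Icc c d, ‖f (a + y * I)‖ ≤ M) :
    ‖(∫ y : ℝ in c..d, f (b + y * I)) - V‖ ≤ M * (2 * (b - a) + (d - c)) := by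
  unfold rInt at hr
  have e : I * ((∫ y : ℝ in c..d, f (b + y * I)) - V) =
      -(∫ x : ℝ in a..b, f (x + c * I)) + (∫ x : ℝ in a..b, f (x + d * I)) +
        I * (∫ y : ℝ in c..d, f (a + y * I)) := by
    linear_combination hr
  have e2 := congrArg norm e
  rw [norm_mul, norm_I, one_mul] at e2
  rw [e2]
  refine (norm_add₃_le).trans ?_
  rw [norm_neg, norm_mul, norm_I, one_mul]
  have := K4_hor hab h1
  have := K4_hor hab h2
  have := K4_ver hcd h3
  linarith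

/-- The right side minus the left side. -/
lemma K4_both {f : ℂ → ℂ} {a b c d M : ℝ} (hab : a ≤ b)
    (hr : rInt f a b c d = 0)
    (h1 : ∀ x ∈ Icc a b, ‖f (x + c * I)‖ ≤ M) (h2 : ∀ x ∈ Icc a b, ‖f (x + d * I)‖ ≤ M) :
    ‖(∫ y : ℝ in c..d, f (b + y * I)) - (∫ y : ℝ in c..d, f (a + y * I))‖ ≤
      M * (2 * (b - a)) := by
  unfold rInt at hr
  have e : I * ((∫ y : ℝ in c..d, f (b + y * I)) - (∫ y : ℝ in c..d, f (a + y * I))) =
      -(∫ x : ℝ in a..b, f (x + c * I)) + (∫ x : ℝ in a..b, f (x + d * I)) := by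
    linear_combination hr
  have e2 := congrArg norm e
  rw [norm_mul, norm_I, one_mul] at e2
  rw [e2]
  refine (norm_add_le _ _).trans ?_
  rw [norm_neg]
  have := K4_hor hab h1
  have := K4_hor hab h2
  linarith

/-- The left side of a rectangle. -/
lemma K4_left {f : ℂ → ℂ} {a b c d M : ℝ} (hab : a ≤ b) (hcd : c ≤ d)
    (hr : rInt f a b c d = 0)
    (h1 : ∀ x ∈ Icc a b, ‖f (x + c * I)‖ ≤ M) (h2 : ∀ x ∈ Icc a b, ‖f (x + d * I)‖ ≤ M)
    (h3 : ∀ y ∈ Icc c d, ‖f (b + y * I)‖ ≤ M) :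
    ‖(∫ y : ℝ in c..d, f (a + y * I))‖ ≤ M * (2 * (b - a) + (d - c)) := by
  have h := K4_both hab hr h1 h2
  have h4 := K4_ver hcd h3
  have h5 : ‖(∫ y : ℝ in c..d, f (a + y * I))‖ ≤
      ‖(∫ y : ℝ in c..d, f (b + y * I))‖ + ‖(∫ y : ℝ in c..d, f (b + y * I)) -
        (∫ y : ℝ in c..d, f (a + y * I))‖ := by
    have := norm_sub_le (∫ y : ℝ in c..d, f (b + y * I))
      ((∫ y : ℝ in c..d, f (b + y * I)) - (∫ y : ℝ in c..d, f (a + y * I)))
    rwa [sub_sub_cancel] at this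
  linarith

/-! ### The Dirichlet series -/

/-- The majorant of the coefficients. -/
noncomputable def K4_d3 (n : ℕ) : ℝ := ∑ x ∈ n.divisorsAntidiagonal, dv x.2

lemma K4_d3_nonneg (n : ℕ) : 0 ≤ K4_d3 n := Finset.sum_nonneg fun _ _ => dv_nonneg _

lemma K4_av_le (D : AData) (T : ℝ) (n : ℕ) : |av D T n| ≤ 1 := by
  unfold av
  rw [abs_mul, abs_mul]
  have h1 : |((ArithmeticFunction.moebius n : ℤ) : ℝ)| ≤ 1 := by
    have h2 : |ArithmeticFunction.moebius n| ≤ 1 := ArithmeticFunction.abs_moebius_le_one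
    exact_mod_cast h2
  have h2 : |∏ p ∈ n.primeFactors, D.f (Real.log p / Real.log T)| ≤ 1 := by
    rw [Finset.abs_prod]
    refine Finset.prod_le_one (fun _ _ => abs_nonneg _) fun p _ => ?_
    rw [abs_of_nonneg (D.f_nonneg _)]
    exact D.f_le _
  have h3 : |D.F (Real.log n / Real.log T)| ≤ 1 := by
    rw [abs_of_nonneg (D.F_nonneg _)]
    exact D.F_le _
  calc _ ≤ (1:ℝ) * 1 * 1 := by gcongr
    _ = 1 := by norm_num

lemma K4_av_zero (D : AData) {T : ℝ} (hT : 1 < T) {n : ℕ} (hn : XN D T < n) : av D T n = 0 := by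
  have h1 : T ^ (1 - D.ep) < n := (Nat.floor_lt (by positivity)).mp hn
  have hL : 0 < Real.log T := Real.log_pos hT
  have h0 : (0:ℝ) < T ^ (1 - D.ep) := Real.rpow_pos_of_pos (by linarith) _
  have h2 : (1 - D.ep) * Real.log T ≤ Real.log n := by
    rw [← Real.log_rpow (by linarith)]
    exact Real.log_le_log h0 h1.le
  have h3 : D.F (Real.log n / Real.log T) = 0 := by
    apply D.F_zero
    rw [le_div_iff₀ hL]
    have := D.ep_pos
    nlinarith [sq_nonneg D.ep]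
  unfold av
  rw [h3, mul_zero]

lemma K4_bn_le (D : AData) (T α : ℝ) (n : ℕ) : ‖bn D T α n‖ ≤ K4_d3 n := by
  unfold bn K4_d3
  refine (norm_sum_le _ _).trans (Finset.sum_le_sum fun x hx => ?_)
  have hx1 : x.1 ≠ 0 := by
    rw [Nat.mem_divisorsAntidiagonal] at hx
    intro h
    rw [h, zero_mul] at hx
    exact hx.2 hx.1.symm
  rw [norm_mul, norm_mul, norm_cpow_I α hx1, mul_one, Complex.norm_real, Real.norm_eq_abs]
  calc |av D T x.1| * ‖gco α x.2‖ ≤ 1 * dv x.2 :=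
        mul_le_mul (K4_av_le D T _) (norm_gco_le _ _) (norm_nonneg _) zero_le_one
    _ = _ := one_mul _

lemma K4_summable_d3 : Summable (fun n : ℕ => K4_d3 n * ((n:ℝ) ^ (2:ℝ))⁻¹) := by
  have h1 : LSeriesSummable (1 : ℕ → ℂ) (2:ℂ) := LSeriesSummable_one_iff.mpr (by norm_num)
  have h2 := h1.convolution (h1.convolution h1)
  unfold LSeriesSummable at h2
  refine h2.norm.congr fun n => ?_
  rcases Nat.eq_zero_or_pos n with rfl | hn
  · simp [K4_d3]
  · have hn0 : (0:ℝ) < n := by exact_mod_cast hn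
    rw [LSeries.norm_term_eq, if_neg hn.ne', LSeries.convolution_def]
    rw [show (2:ℂ).re = 2 by norm_num, div_eq_mul_inv]
    congr 1
    unfold K4_d3
    have h3 : ∀ x : ℕ × ℕ, (1 : ℕ → ℂ) x.1 * LSeries.convolution 1 1 x.2 = ((dv x.2 : ℝ) : ℂ) := by
      intro x
      rw [LSeries.convolution_def]
      simp only [Pi.one_apply, mul_one, Finset.sum_const, nsmul_eq_mul, one_mul]
      unfold dv
      rw [← Nat.map_div_right_divisors, Finset.card_map]
      push_cast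
      rfl
    have h4 : ∑ x ∈ n.divisorsAntidiagonal, (1 : ℕ → ℂ) x.1 * LSeries.convolution 1 1 x.2 =
        ((∑ x ∈ n.divisorsAntidiagonal, dv x.2 : ℝ) : ℂ) := by
      rw [Complex.ofReal_sum]
      exact Finset.sum_congr rfl fun x _ => h3 x
    change ‖∑ x ∈ n.divisorsAntidiagonal, (1 : ℕ → ℂ) x.1 * LSeries.convolution 1 1 x.2‖ = _
    rw [h4, Complex.norm_real, Real.norm_of_nonneg (Finset.sum_nonneg fun _ _ => dv_nonneg _)]

lemma K4_hasSum_bn (D : AData) {T : ℝ} (hT : 1 < T) (α : ℝ) {s : ℂ} (hs : 1 < s.re) :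
    HasSum (fun n : ℕ => bn D T α n * (n : ℂ) ^ (-s))
      (Vs D T (s + α * I) * (riemannZeta (s + α * I) / riemannZeta s)) := by
  set f : ℕ → ℂ := fun n => (av D T n : ℂ) * (n : ℂ) ^ (-(α * I : ℂ)) with hf
  have h1 : LSeriesHasSum f s (Vs D T (s + α * I)) := by
    unfold LSeriesHasSum Vs
    have h2 : HasSum (LSeries.term f s) (∑ n ∈ Finset.Icc 1 (XN D T), LSeries.term f s n) :=
      hasSum_sum_of_ne_finset_zero (fun n hn => by
        rcases Nat.eq_zero_or_pos n with rfl | hn0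
        · simp
        · rw [Finset.mem_Icc, not_and, not_le] at hn
          rw [LSeries.term_of_ne_zero hn0.ne']
          simp only [hf]
          rw [K4_av_zero D hT (hn hn0)]
          simp)
    have h3 : ∑ n ∈ Finset.Icc 1 (XN D T), LSeries.term f s n =
        ∑ n ∈ Finset.Icc 1 (XN D T), (av D T n : ℂ) * (n : ℂ) ^ (-(s + α * I)) := by
      refine Finset.sum_congr rfl fun n hn => ?_
      have hn1 := (Finset.mem_Icc.mp hn).1
      have hn0 : (n : ℂ) ≠ 0 := by exact_mod_cast (by omega : n ≠ 0)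
      rw [LSeries.term_of_ne_zero (by omega)]
      simp only [hf]
      rw [neg_add, Complex.cpow_add _ _ hn0, Complex.cpow_neg _ s]
      field_simp
    rw [← h3]
    exact h2
  have h2 : LSeriesHasSum (gco α) s (riemannZeta (s + α * I) / riemannZeta s) := by
    unfold LSeriesHasSum
    have h3 := hasSum_gco α hs
    have h4 : (fun n : ℕ => gco α n * (n : ℂ) ^ (-s)) = LSeries.term (gco α) s := by
      funext n
      rcases Nat.eq_zero_or_pos n with rfl | hn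
      · simp [gco_zero]
      · rw [LSeries.term_of_ne_zero hn.ne', Complex.cpow_neg, div_eq_mul_inv]
    rw [h4] at h3
    exact h3
  have h3 := h1.convolution h2
  unfold LSeriesHasSum at h3
  have h4 : (fun n : ℕ => bn D T α n * (n : ℂ) ^ (-s)) =
      LSeries.term (LSeries.convolution f (gco α)) s := by
    funext n
    rcases Nat.eq_zero_or_pos n with rfl | hn
    · simp [bn]
    · rw [LSeries.term_of_ne_zero hn.ne', LSeries.convolution_def, Complex.cpow_neg,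
        div_eq_mul_inv]
      rfl
  rw [h4]
  exact h3

lemma K4_norm_cpow {n : ℕ} (hn : n ≠ 0) (s : ℂ) :
    ‖(n : ℂ) ^ (-s)‖ = Real.exp (-(Real.log n * s.re)) := by
  have hn0 : (0:ℝ) < n := by exact_mod_cast Nat.pos_of_ne_zero hn
  rw [← Complex.ofReal_natCast, Complex.norm_cpow_eq_rpow_re_of_pos hn0,
    Real.rpow_def_of_pos hn0]
  congr 1
  simp

lemma K4_cont_cpow (n : ℕ) : Continuous (fun t : ℝ => (n : ℂ) ^ (-(2 + t * I : ℂ))) := by
  rcases Nat.eq_zero_or_pos n with rfl | hn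
  · have : (fun t : ℝ => ((0 : ℕ) : ℂ) ^ (-(2 + t * I : ℂ))) = fun _ => 0 := by
      funext t
      rw [Nat.cast_zero, Complex.zero_cpow]
      intro h
      have := congrArg Complex.re h
      simp at this
    rw [this]
    exact continuous_const
  · have hn0 : (n : ℂ) ≠ 0 := by exact_mod_cast hn.ne'
    exact Continuous.const_cpow (by fun_prop) (Or.inl hn0)

lemma K4_hasSum_int (D : AData) {T : ℝ} (hT : 1 < T) (α h1 h2 : ℝ) {K : ℝ → ℂ}
    (hK : Continuous K) :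
    HasSum (fun n : ℕ => bn D T α n *
        ∫ t in h1..h2, gam α (2 + t * I) * (n : ℂ) ^ (-(2 + t * I : ℂ)) * K t)
      (∫ t in h1..h2, Fs D T α (2 + t * I) * K t) := by
  set G : ℝ → ℂ := fun t => gam α (2 + t * I) * K t with hG
  have hGc : Continuous G := (continuous_gam_line α).mul hK
  have hterm : ∀ n : ℕ, bn D T α n *
      ∫ t in h1..h2, gam α (2 + t * I) * (n : ℂ) ^ (-(2 + t * I : ℂ)) * K t =
      ∫ t in h1..h2, G t * (bn D T α n * (n : ℂ) ^ (-(2 + t * I : ℂ))) := by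
    intro n
    rw [← intervalIntegral.integral_const_mul]
    refine intervalIntegral.integral_congr fun t _ => ?_
    simp only [hG]
    ring
  simp_rw [hterm]
  refine intervalIntegral.hasSum_integral_of_dominated_convergence
    (fun n t => ‖G t‖ * (K4_d3 n * ((n:ℝ) ^ (2:ℝ))⁻¹)) ?_ ?_ ?_ ?_ ?_
  · intro n
    exact (hGc.mul (continuous_const.mul (K4_cont_cpow n))).aestronglyMeasurable
  · intro n
    refine Filter.Eventually.of_forall fun t _ => ?_
    rw [norm_mul (G t), norm_mul (bn D T α n)]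
    refine mul_le_mul_of_nonneg_left ?_ (norm_nonneg _)
    rcases Nat.eq_zero_or_pos n with rfl | hn
    · simp [bn, K4_d3]
    · have hn0 : (0:ℝ) < n := by exact_mod_cast hn
      refine mul_le_mul (K4_bn_le D T α n) (le_of_eq ?_) (norm_nonneg _) (K4_d3_nonneg n)
      rw [← Complex.ofReal_natCast, Complex.norm_cpow_eq_rpow_re_of_pos hn0]
      rw [← Real.rpow_neg hn0.le]
      congr 1
      simp
  · refine Filter.Eventually.of_forall fun t _ => K4_summable_d3.mul_left _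
  · simp_rw [tsum_mul_left]
    exact ((hGc.norm.mul continuous_const).intervalIntegrable _ _)
  · refine Filter.Eventually.of_forall fun t _ => ?_
    have hs : 1 < (2 + t * I : ℂ).re := by simp
    have e1 := (K4_hasSum_bn D hT α hs).mul_left (G t)
    have e2 : G t * (Vs D T (2 + t * I + α * I) *
        (riemannZeta (2 + t * I + α * I) / riemannZeta (2 + t * I))) =
        Fs D T α (2 + t * I) * K t := by
      unfold Fs
      rw [fq_eq hs]
      simp only [hG]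
      ring
    rw [← e2]
    exact e1


/-! ### The kernel -/

lemma K4_Ke_left {N : ℕ} {a h : ℝ} (hh : 0 < h) {z : ℂ} (hz : z ≠ 0) (hre : z.re ≤ 0) :
    ‖Ke N a h z‖ ≤ Real.exp (a * z.re) * ((2 / (h * ‖z‖)) ^ N / ‖z‖) := by
  unfold Ke
  have hw : (h : ℂ) * z ≠ 0 := mul_ne_zero (by exact_mod_cast hh.ne') hz
  have hz0 : 0 < ‖z‖ := norm_pos_iff.mpr hz
  rw [norm_div, norm_mul, norm_pow, Complex.norm_exp, mul_div_assoc]
  have h1 : ((a : ℂ) * z).re = a * z.re := by simp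
  have h2 : ((h : ℂ) * z).re = h * z.re := by simp
  have h3 : ‖(h : ℂ) * z‖ = h * ‖z‖ := by
    rw [norm_mul, Complex.norm_real, Real.norm_of_nonneg hh.le]
  have h4 := norm_E1_le' hw
  rw [h2, h3] at h4
  have h5 : Real.exp (h * z.re) ≤ 1 :=
    Real.exp_le_one_iff.mpr (mul_nonpos_of_nonneg_of_nonpos hh.le hre)
  have h6 : ‖E1 (h * z)‖ ≤ 2 / (h * ‖z‖) := h4.trans (by gcongr; linarith)
  rw [h1]
  gcongr

lemma K4_Ke_right {N : ℕ} {a h : ℝ} (hh : 0 < h) {z : ℂ} (hz : z ≠ 0) (hre : 0 ≤ z.re) :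
    ‖Ke N a h z‖ ≤ Real.exp ((a + N * h) * z.re) * ((2 / (h * ‖z‖)) ^ N / ‖z‖) := by
  unfold Ke
  have hw : (h : ℂ) * z ≠ 0 := mul_ne_zero (by exact_mod_cast hh.ne') hz
  have hz0 : 0 < ‖z‖ := norm_pos_iff.mpr hz
  rw [norm_div, norm_mul, norm_pow, Complex.norm_exp, mul_div_assoc]
  have h1 : ((a : ℂ) * z).re = a * z.re := by simp
  have h2 : ((h : ℂ) * z).re = h * z.re := by simp
  have h3 : ‖(h : ℂ) * z‖ = h * ‖z‖ := by
    rw [norm_mul, Complex.norm_real, Real.norm_of_nonneg hh.le]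
  have h4 := norm_E1_le' hw
  rw [h2, h3] at h4
  have h5 : 1 ≤ Real.exp (h * z.re) := Real.one_le_exp (mul_nonneg hh.le hre)
  have h6 : ‖E1 (h * z)‖ ≤ Real.exp (h * z.re) * (2 / (h * ‖z‖)) := by
    refine h4.trans ?_
    rw [← mul_div_assoc]
    gcongr
    linarith
  have h7 : ‖E1 (h * z)‖ ^ N ≤ Real.exp (N * (h * z.re)) * (2 / (h * ‖z‖)) ^ N := by
    rw [Real.exp_nat_mul, ← mul_pow]
    gcongr
  have h8 : Real.exp ((a + N * h) * z.re) = Real.exp (a * z.re) * Real.exp (N * (h * z.re)) := by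
    rw [← Real.exp_add]
    congr 1
    ring
  rw [h1, h8]
  calc Real.exp (a * z.re) * (‖E1 (h * z)‖ ^ N / ‖z‖)
      ≤ Real.exp (a * z.re) * ((Real.exp (N * (h * z.re)) * (2 / (h * ‖z‖)) ^ N) / ‖z‖) := by
        gcongr
    _ = _ := by ring

/-- The integrand for one `n`. -/
noncomputable def K4_G (N : ℕ) (a h α : ℝ) (s0 : ℂ) (n : ℕ) (s : ℂ) : ℂ :=
  gam α s * (n : ℂ) ^ (-s) * Ke N a h (s - s0)

lemma K4_G_exp {N : ℕ} {a h α ρ u v : ℝ} (hh : 0 < h) (hρ : 0 < ρ) (hα : 0 ≤ α)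
    (hα' : α ≤ 1 / 28) {s0 s : ℂ} {n : ℕ} (hn : 1 ≤ n) (him : 1 ≤ s.im) (hs : ρ ≤ ‖s - s0‖)
    (hu : ‖Ke N a h (s - s0)‖ ≤ Real.exp u * ((2 / (h * ‖s - s0‖)) ^ N / ‖s - s0‖))
    (hv : -(Real.log n * s.re) + u ≤ v) :
    ‖K4_G N a h α s0 n s‖ ≤ 8 * Real.exp v * ((2 / (h * ρ)) ^ N / ρ) := by
  have h1 : ‖gam α s‖ ≤ 8 := by
    refine (GB.gam_bound hα him).trans ?_
    have h2 : Real.exp (14 * α) ≤ Real.exp (1 / 2) := Real.exp_le_exp.mpr (by linarith)
    have h3 : Real.exp (1 / 2) ≤ 2 := by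
      have h4 : Real.exp (1 / 2) ^ 2 = Real.exp 1 := by
        rw [← Real.exp_nat_mul]; norm_num
      have h5 := Real.exp_one_lt_d9
      have h6 := Real.exp_pos (1 / 2)
      nlinarith
    linarith
  have h2 : (2 / (h * ‖s - s0‖)) ^ N / ‖s - s0‖ ≤ (2 / (h * ρ)) ^ N / ρ := by
    have : 0 < ‖s - s0‖ := lt_of_lt_of_le hρ hs
    gcongr
  have h3 : 0 ≤ (2 / (h * ρ)) ^ N / ρ := by positivity
  unfold K4_G
  rw [norm_mul, norm_mul, K4_norm_cpow (by omega)]
  calc ‖gam α s‖ * Real.exp (-(Real.log n * s.re)) * ‖Ke N a h (s - s0)‖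
      ≤ 8 * Real.exp (-(Real.log n * s.re)) *
        (Real.exp u * ((2 / (h * ρ)) ^ N / ρ)) := by
        refine mul_le_mul (mul_le_mul_of_nonneg_right h1 (Real.exp_pos _).le) (hu.trans ?_)
          (norm_nonneg _) (by positivity)
        gcongr
    _ = 8 * Real.exp (-(Real.log n * s.re) + u) * ((2 / (h * ρ)) ^ N / ρ) := by
        rw [Real.exp_add]; ring
    _ ≤ _ := mul_le_mul_of_nonneg_right
        (mul_le_mul_of_nonneg_left (Real.exp_le_exp.mpr hv) (by norm_num)) h3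

lemma K4_G_le {N : ℕ} {a h α ρ : ℝ} (ha : 0 ≤ a) (hh : 0 < h) (hρ : 0 < ρ) (hα : 0 ≤ α)
    (hα' : α ≤ 1 / 28) {s0 s : ℂ} (h0 : 0 ≤ s0.re) {n : ℕ} (hn : 1 ≤ n)
    (him : 1 ≤ s.im) (hs : ρ ≤ ‖s - s0‖)
    (hc : (Real.log n ≤ a ∧ s.re ≤ s0.re) ∨ (s0.re ≤ s.re ∧ s.re ≤ 2)) :
    ‖K4_G N a h α s0 n s‖ ≤ 8 * Real.exp (2 * (a + N * h)) * ((2 / (h * ρ)) ^ N / ρ) := by
  have hz : s - s0 ≠ 0 := norm_pos_iff.mp (lt_of_lt_of_le hρ hs)
  have hl : 0 ≤ Real.log n := Real.log_natCast_nonneg n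
  have hNh : 0 ≤ (N : ℝ) * h := by positivity
  rcases hc with ⟨hc1, hc2⟩ | ⟨hc1, hc2⟩
  · refine K4_G_exp hh hρ hα hα' hn him hs (K4_Ke_left hh hz (by simpa using hc2)) ?_
    rw [Complex.sub_re]
    nlinarith [mul_nonneg (sub_nonneg.mpr hc1) (sub_nonneg.mpr hc2), mul_nonneg hl h0]
  · refine K4_G_exp hh hρ hα hα' hn him hs (K4_Ke_right hh hz (by simpa using hc1)) ?_
    rw [Complex.sub_re]
    nlinarith [mul_nonneg hl (h0.trans hc1), mul_nonneg (add_nonneg ha hNh) (sub_nonneg.mpr hc2),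
      mul_nonneg (add_nonneg ha hNh) h0]

lemma K4_G_le' {N : ℕ} {a h α ρ : ℝ} (ha : 0 ≤ a) (hh : 0 < h) (hρ : 0 < ρ) (hα : 0 ≤ α)
    (hα' : α ≤ 1 / 28) {s0 s : ℂ} (h0 : 0 ≤ s0.re) (h1 : s0.re ≤ 2) {n : ℕ} (hn : 1 ≤ n)
    (him : 1 ≤ s.im) (hs : ρ ≤ ‖s - s0‖) (hc1 : a + N * h ≤ Real.log n) (hc2 : 2 ≤ s.re) :
    ‖K4_G N a h α s0 n s‖ ≤ 8 * Real.exp (2 * (a + N * h) - 2 * Real.log n) *
      ((2 / (h * ρ)) ^ N / ρ) := by
  have hz : s - s0 ≠ 0 := norm_pos_iff.mp (lt_of_lt_of_le hρ hs)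
  have hNh : 0 ≤ (N : ℝ) * h := by positivity
  have hre : 0 ≤ (s - s0).re := by rw [Complex.sub_re]; linarith
  refine K4_G_exp hh hρ hα hα' hn him hs (K4_Ke_right hh hz hre) ?_
  rw [Complex.sub_re]
  nlinarith [mul_nonneg (sub_nonneg.mpr hc1) (sub_nonneg.mpr hc2),
    mul_nonneg (add_nonneg ha hNh) h0]

lemma K4_diff_num {N : ℕ} {a h α : ℝ} (hα : 0 ≤ α) {s0 s : ℂ} {n : ℕ} (hn : 1 ≤ n)
    (him : 0 < s.im) :
    DifferentiableAt ℂ (fun z : ℂ => gam α z * (n : ℂ) ^ (-z) *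
      (Complex.exp (a * (z - s0)) * E1 (h * (z - s0)) ^ N)) s := by
  have h1 := GB.gam_differentiableAt hα him
  have hn0 : (n : ℂ) ≠ 0 := by exact_mod_cast (by omega : n ≠ 0)
  have h2 : DifferentiableAt ℂ (fun z : ℂ => (n : ℂ) ^ (-z)) s :=
    DifferentiableAt.const_cpow (by fun_prop) (Or.inl hn0)
  have h3 : DifferentiableAt ℂ (fun z : ℂ => E1 (h * (z - s0)) ^ N) s := by
    refine DifferentiableAt.pow ?_ N
    exact (E1_diff _).comp s (by fun_prop)
  exact (h1.mul h2).mul ((by fun_prop : DifferentiableAt ℂ (fun z : ℂ => Complex.exp (a * (z - s0))) s).mul h3)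

lemma K4_G_eq (N : ℕ) (a h α : ℝ) (s0 : ℂ) (n : ℕ) :
    K4_G N a h α s0 n = fun z : ℂ => (gam α z * (n : ℂ) ^ (-z) *
      (Complex.exp (a * (z - s0)) * E1 (h * (z - s0)) ^ N)) / (z - s0) := by
  funext z
  unfold K4_G Ke
  exact (mul_div_assoc _ _ _).symm

lemma K4_diff_G {N : ℕ} {a h α : ℝ} (hα : 0 ≤ α) {s0 s : ℂ} {n : ℕ} (hn : 1 ≤ n)
    (him : 0 < s.im) (hs : s ≠ s0) : DifferentiableAt ℂ (K4_G N a h α s0 n) s := by
  rw [K4_G_eq]
  exact (K4_diff_num hα hn him).div (by fun_prop) (sub_ne_zero.mpr hs)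

section terms

variable {N : ℕ} {a h α ρ h1 h2 T : ℝ} {s0 : ℂ} {n : ℕ}

lemma K4_le_norm_im {s s0 : ℂ} {ρ : ℝ} (h : ρ ≤ |s.im - s0.im|) : ρ ≤ ‖s - s0‖ := by
  refine h.trans ?_
  have := Complex.abs_im_le_norm (s - s0)
  rwa [Complex.sub_im] at this

lemma K4_le_norm_re {s s0 : ℂ} {ρ : ℝ} (h : ρ ≤ |s.re - s0.re|) : ρ ≤ ‖s - s0‖ := by
  refine h.trans ?_
  have := Complex.abs_re_le_norm (s - s0)
  rwa [Complex.sub_re] at this

lemma K4_low (ha : 0 ≤ a) (hh : 0 < h) (hρ : 0 < ρ) (hα : 0 ≤ α) (hα' : α ≤ 1 / 28)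
    (h0 : 0 ≤ s0.re) (h1' : s0.re ≤ 1) (hh1 : 1 ≤ h1) (hT : ρ ≤ T)
    (hb : ρ ≤ s0.im - h1) (ht : ρ ≤ h2 - s0.im) (hn : 1 ≤ n) (hna : Real.log n ≤ a) :
    ‖(∫ y : ℝ in h1..h2, K4_G N a h α s0 n (2 + y * I)) -
      2 * Real.pi * (gam α s0 * (n : ℂ) ^ (-s0))‖ ≤
      8 * Real.exp (2 * (a + N * h)) * ((2 / (h * ρ)) ^ N / ρ) * (2 * (T + 2) + (h2 - h1)) := by
  have hT0 : 0 < T := lt_of_lt_of_le hρ hT
  have hcd : h1 ≤ h2 := by linarith
  have hr : rInt (K4_G N a h α s0 n) (-T) 2 h1 h2 =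
      I * (2 * Real.pi * (gam α s0 * (n : ℂ) ^ (-s0))) := by
    rw [K4_G_eq, rInt_cauchy (p := s0) (by linarith) (by linarith) (by linarith) (by linarith)]
    · have e1 : E1 0 = 1 := by unfold E1; rw [if_pos rfl]
      rw [sub_self, mul_zero, mul_zero, e1, Complex.exp_zero, one_pow]
      ring
    · intro z hz
      exact K4_diff_num hα hn (by linarith [hz.2.2.1])
  have hbound : ∀ x y : ℝ, x ≤ 2 → h1 ≤ y → ρ ≤ ‖((x : ℂ) + y * I) - s0‖ →
      ‖K4_G N a h α s0 n (x + y * I)‖ ≤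
        8 * Real.exp (2 * (a + N * h)) * ((2 / (h * ρ)) ^ N / ρ) := by
    intro x y hx hy hxy
    refine K4_G_le ha hh hρ hα hα' h0 hn (by simp; linarith) hxy ?_
    rcases le_total x s0.re with hx' | hx'
    · left; exact ⟨hna, by simpa using hx'⟩
    · right; exact ⟨by simpa using hx', by simpa using hx⟩
  have key := K4_right (f := K4_G N a h α s0 n) (a := -T) (b := 2) (c := h1) (d := h2)
    (by linarith) hcd hr
    (fun x hx => hbound x h1 hx.2 le_rfl (K4_le_norm_im (by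
      rw [abs_sub_comm]; simp only [add_im, ofReal_im, mul_im, ofReal_re, I_im, mul_one, I_re,
        mul_zero, add_zero, zero_add]; exact hb.trans (le_abs_self _))))
    (fun x hx => hbound x h2 hx.2 hcd (K4_le_norm_im (by
      simp only [add_im, ofReal_im, mul_im, ofReal_re, I_im, mul_one, I_re,
        mul_zero, add_zero, zero_add]; exact ht.trans (le_abs_self _))))
    (fun y hy => hbound (-T) y (by linarith) hy.1 (K4_le_norm_re (by
      rw [abs_sub_comm]; simp only [add_re, ofReal_re, mul_re, I_re, mul_zero, ofReal_im, I_im,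
        mul_one, sub_self, add_zero]
      refine le_trans ?_ (le_abs_self _)
      linarith)))
  have e2 : (2:ℝ) - -T = T + 2 := by ring
  rw [e2] at key
  simpa using key

lemma K4_mid (ha : 0 ≤ a) (hh : 0 < h) (hρ : 0 < ρ) (hα : 0 ≤ α) (hα' : α ≤ 1 / 28)
    (h0 : 0 ≤ s0.re) {σ : ℝ} (hσ : s0.re < σ) (hσ2 : σ ≤ 2) (hh1 : 1 ≤ h1)
    (hb : ρ ≤ s0.im - h1) (ht : ρ ≤ h2 - s0.im) (hn : 1 ≤ n) :
    ‖(∫ y : ℝ in h1..h2, K4_G N a h α s0 n (2 + y * I)) -
      ∫ y : ℝ in h1..h2, K4_G N a h α s0 n (σ + y * I)‖ ≤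
      8 * Real.exp (2 * (a + N * h)) * ((2 / (h * ρ)) ^ N / ρ) * (2 * (2 - σ)) := by
  have hcd : h1 ≤ h2 := by linarith
  have hr : rInt (K4_G N a h α s0 n) σ 2 h1 h2 = 0 := by
    refine rInt_zero hσ2 hcd fun z hz => K4_diff_G hα hn (by linarith [hz.2.2.1]) ?_
    rintro rfl
    linarith [hz.1]
  have hbound : ∀ x y : ℝ, σ ≤ x → x ≤ 2 → h1 ≤ y → ρ ≤ ‖((x : ℂ) + y * I) - s0‖ →
      ‖K4_G N a h α s0 n (x + y * I)‖ ≤
        8 * Real.exp (2 * (a + N * h)) * ((2 / (h * ρ)) ^ N / ρ) := by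
    intro x y hx1 hx hy hxy
    refine K4_G_le ha hh hρ hα hα' h0 hn (by simp; linarith) hxy ?_
    right; exact ⟨by simp; linarith, by simpa using hx⟩
  have key := K4_both (f := K4_G N a h α s0 n) (a := σ) (b := 2) (c := h1) (d := h2)
    hσ2 hr
    (fun x hx => hbound x h1 hx.1 hx.2 le_rfl (K4_le_norm_im (by
      rw [abs_sub_comm]; simp only [add_im, ofReal_im, mul_im, ofReal_re, I_im, mul_one, I_re,
        mul_zero, add_zero, zero_add]; exact hb.trans (le_abs_self _))))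
    (fun x hx => hbound x h2 hx.1 hx.2 hcd (K4_le_norm_im (by
      simp only [add_im, ofReal_im, mul_im, ofReal_re, I_im, mul_one, I_re,
        mul_zero, add_zero, zero_add]; exact ht.trans (le_abs_self _))))
  simpa using key

lemma K4_high (ha : 0 ≤ a) (hh : 0 < h) (hρ : 0 < ρ) (hα : 0 ≤ α) (hα' : α ≤ 1 / 28)
    (h0 : 0 ≤ s0.re) (h1' : s0.re ≤ 1) (hh1 : 1 ≤ h1) (hT : ρ ≤ T)
    (hb : ρ ≤ s0.im - h1) (ht : ρ ≤ h2 - s0.im) (hn : 1 ≤ n)
    (hna : a + N * h ≤ Real.log n) :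
    ‖(∫ y : ℝ in h1..h2, K4_G N a h α s0 n (2 + y * I))‖ ≤
      8 * Real.exp (2 * (a + N * h) - 2 * Real.log n) * ((2 / (h * ρ)) ^ N / ρ) *
        (2 * T + (h2 - h1)) := by
  have hT0 : 0 < T := lt_of_lt_of_le hρ hT
  have hcd : h1 ≤ h2 := by linarith
  have hr : rInt (K4_G N a h α s0 n) 2 (T + 2) h1 h2 = 0 := by
    refine rInt_zero (by linarith) hcd fun z hz => K4_diff_G hα hn (by linarith [hz.2.2.1]) ?_
    rintro rfl
    linarith [hz.1]
  have hbound : ∀ x y : ℝ, 2 ≤ x → h1 ≤ y → ρ ≤ ‖((x : ℂ) + y * I) - s0‖ →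
      ‖K4_G N a h α s0 n (x + y * I)‖ ≤
        8 * Real.exp (2 * (a + N * h) - 2 * Real.log n) * ((2 / (h * ρ)) ^ N / ρ) := by
    intro x y hx hy hxy
    exact K4_G_le' ha hh hρ hα hα' h0 (by linarith) hn (by simp; linarith) hxy hna
      (by simpa using hx)
  have key := K4_left (f := K4_G N a h α s0 n) (a := 2) (b := T + 2) (c := h1) (d := h2)
    (by linarith) hcd hr
    (fun x hx => hbound x h1 hx.1 le_rfl (K4_le_norm_im (by
      rw [abs_sub_comm]; simp only [add_im, ofReal_im, mul_im, ofReal_re, I_im, mul_one, I_re,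
        mul_zero, add_zero, zero_add]; exact hb.trans (le_abs_self _))))
    (fun x hx => hbound x h2 hx.1 hcd (K4_le_norm_im (by
      simp only [add_im, ofReal_im, mul_im, ofReal_re, I_im, mul_one, I_re,
        mul_zero, add_zero, zero_add]; exact ht.trans (le_abs_self _))))
    (fun y hy => hbound (T + 2) y (by linarith) hy.1 (K4_le_norm_re (by
      simp only [add_re, ofReal_re, mul_re, I_re, mul_zero, ofReal_im, I_im,
        mul_one, sub_self, add_zero]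
      refine le_trans ?_ (le_abs_self _)
      linarith)))
  have e2 : T + 2 - 2 = T := by ring
  rw [e2] at key
  simpa using key

end terms

lemma K4_size {N : ℕ} (hN : 20 ≤ N) {h θ T E L : ℝ} (hh : 1 ≤ h) (hθ : 0 < θ) (hθ8 : θ ≤ 1 / 8)
    (hT : 4 ≤ T) (hT2 : (8 / θ) ^ 2 ≤ T) (hL : L = Real.log T) (hE : E ≤ L) :
    8 * Real.exp (2 * E) * ((2 / (h * (θ * T / 4))) ^ N / (θ * T / 4)) ≤ 8 / T ^ 8 := by
  have hT0 : 0 < T := by linarith
  have hρ1 : 1 ≤ θ * T / 4 := by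
    have h1 : θ * (8 / θ) ^ 2 ≤ θ * T := mul_le_mul_of_nonneg_left hT2 hθ.le
    have h2 : θ * (8 / θ) ^ 2 = 64 / θ := by field_simp; norm_num
    have h3 : 64 ≤ 64 / θ := by
      rw [le_div_iff₀ hθ]; nlinarith
    linarith
  have hρ0 : 0 < θ * T / 4 := by linarith
  set q := 2 / (h * (θ * T / 4)) with hq
  have hq0 : 0 ≤ q := by positivity
  have hq8 : q ≤ 8 / (θ * T) := by
    rw [hq, div_le_div_iff₀ (by positivity) (by positivity)]
    nlinarith [mul_pos hθ hT0]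
  have hq2 : q ^ 2 ≤ 1 / T := by
    calc q ^ 2 ≤ (8 / (θ * T)) ^ 2 := by gcongr
      _ = (8 / θ) ^ 2 / T ^ 2 := by field_simp
      _ ≤ T / T ^ 2 := by gcongr
      _ = 1 / T := by field_simp
  have hT1 : 1 / T ≤ 1 := by
    rw [div_le_one hT0]; linarith
  have hq1 : q ≤ 1 := by
    by_contra hcon
    push Not at hcon
    nlinarith
  have hqN : q ^ N ≤ (1 / T) ^ 10 := by
    calc q ^ N ≤ q ^ 20 := pow_le_pow_of_le_one hq0 hq1 hN
      _ = (q ^ 2) ^ 10 := by ring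
      _ ≤ (1 / T) ^ 10 := by gcongr
  have hQ : q ^ N / (θ * T / 4) ≤ (1 / T) ^ 10 :=
    (div_le_self (by positivity) hρ1).trans hqN
  have hE2 : Real.exp (2 * E) ≤ T ^ 2 := by
    have h1 : Real.exp (2 * L) = T ^ 2 := by
      rw [hL, two_mul, Real.exp_add, Real.exp_log hT0]; ring
    rw [← h1]
    exact Real.exp_le_exp.mpr (by linarith)
  calc 8 * Real.exp (2 * E) * (q ^ N / (θ * T / 4)) ≤ 8 * T ^ 2 * (1 / T) ^ 10 := by
        gcongr
    _ = 8 / T ^ 8 := by field_simp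

/-- K4: the right line -/
theorem right_line {N : ℕ} (hN : 20 ≤ N) (D : AData) {θ : ℝ} (hθ : 0 < θ) (hθ8 : θ ≤ 1 / 8) :
    ∃ T0 : ℝ, ∀ T : ℝ, T0 ≤ T → ∀ τ h1 h2 : ℝ, 0 ≤ τ → τ ≤ 1 / 2 →
    h1 ∈ Icc ((5 / 4 - θ / 2) * T) ((5 / 4 - θ / 4) * T) →
    h2 ∈ Icc ((7 / 4 + θ / 4) * T) ((7 / 4 + θ / 2) * T) →
    ∀ s0 : ℂ, |s0.re - 1 / 2| ≤ 1 / (D.ep * Real.log T) → s0.im ∈ Icc (5 * T / 4) (7 * T / 4) →
      ‖LowI D N T (alp τ T) h1 h2 s0 -
        (LowP D T (alp τ T) s0 + Win D N T (alp τ T) h1 h2 s0)‖ ≤ 1 / T := by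
  set C3 := ∑' n : ℕ, K4_d3 n * ((n:ℝ) ^ (2:ℝ))⁻¹ with hC3
  have hC30 : 0 ≤ C3 := tsum_nonneg fun n => mul_nonneg (K4_d3_nonneg n) (by positivity)
  have hev : ∀ᶠ T : ℝ in Filter.atTop,
      (88 + 2 * N / D.ep + 2 / D.ep ≤ Real.log T) ∧ (4 + (8 / θ) ^ 2 + C3 ≤ T) :=
    (Real.tendsto_log_atTop.eventually_ge_atTop _).and (Filter.eventually_ge_atTop _)
  obtain ⟨T0, hT0⟩ := Filter.eventually_atTop.mp hev
  refine ⟨T0, fun T hT τ h1 h2 hτ hτ' hh1 hh2 s0 hs0 hs0i => ?_⟩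
  obtain ⟨hL, hT4⟩ := hT0 T hT
  have hep := D.ep_pos
  have hep' := D.ep_le
  have hNr : (20:ℝ) ≤ N := by exact_mod_cast hN
  have hN0 : (0:ℝ) < N := by linarith
  have e1 : 0 < 2 * (N:ℝ) / D.ep := by positivity
  have e2 : 0 < 2 / D.ep := by positivity
  have e3 : 0 < (8 / θ) ^ 2 := by positivity
  have hT4' : 4 ≤ T := by linarith
  have hTp : 0 < T := by linarith
  have hT1 : 1 < T := by linarith
  set L := Real.log T with hLdef
  have hL88 : 88 ≤ L := by linarith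
  have hLp : 0 < L := by linarith
  have hLN : 2 * N / D.ep ≤ L := by linarith
  have hL2 : 2 / D.ep ≤ L := by linarith
  set h := kh D N T with hh
  set a := ka D T with ha
  set α := alp τ T with hαdef
  set σ := s0.re + 1 / L with hσ
  have hh1' : 1 ≤ h := by
    rw [hh]
    unfold kh
    rw [div_le_iff₀ hep] at hLN
    rw [le_div_iff₀ hN0]
    linarith
  have hNh : (N:ℝ) * h = D.ep / 2 * L := by
    rw [hh, hLdef]
    unfold kh
    field_simp
  have ha0 : 0 ≤ a := by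
    rw [ha]
    unfold ka
    have : 0 ≤ 1 - D.ep := by linarith
    positivity
  have haN : a + N * h = (1 - D.ep / 2) * L := by
    rw [hNh, ha]
    unfold ka
    ring
  have haN' : a + N * h ≤ L := by
    rw [haN]
    linarith [mul_pos hep hLp]
  have hα0 : 0 ≤ α := by
    rw [hαdef]
    unfold alp
    have := Real.pi_pos
    positivity
  have hα28 : α ≤ 1 / 28 := by
    rw [hαdef]
    unfold alp
    rw [div_le_div_iff₀ hLp (by norm_num)]
    have e4 := Real.pi_lt_d4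
    have e5 := mul_le_mul_of_nonneg_left hτ' Real.pi_pos.le
    linarith only [e4, e5, hL88]
  have hre : |s0.re - 1 / 2| ≤ 1 / 2 := by
    refine hs0.trans ?_
    rw [div_le_iff₀ hep] at hL2
    rw [div_le_div_iff₀ (by positivity) (by norm_num)]
    linarith
  have hre' := abs_le.mp hre
  have hre0 : 0 ≤ s0.re := by linarith [hre'.1]
  have hre1 : s0.re ≤ 1 := by linarith [hre'.2]
  have hL1 : 0 < 1 / L := by positivity
  have hL1' : 1 / L ≤ 1 := by
    rw [div_le_one hLp]; linarith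
  have hσ1 : s0.re < σ := by linarith
  have hσ2 : σ ≤ 2 := by linarith
  set ρ := θ * T / 4 with hρdef
  have hρ0 : 0 < ρ := by positivity
  have hθT : θ * T ≤ 1 / 8 * T := mul_le_mul_of_nonneg_right hθ8 hTp.le
  have hρT : ρ ≤ T := by
    rw [hρdef]
    linarith
  have hb : ρ ≤ s0.im - h1 := by
    have := hs0i.1
    have := hh1.2
    rw [hρdef]
    linarith
  have ht : ρ ≤ h2 - s0.im := by
    have := hs0i.2
    have := hh2.1
    rw [hρdef]
    linarith
  have hh1l : 1 ≤ h1 := by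
    have := hh1.1
    linarith
  have hlen : h2 - h1 ≤ T := by
    have := hh1.1
    have := hh2.2
    linarith
  have hlen0 : 0 ≤ h2 - h1 := by linarith
  have hM := K4_size hN (E := a + N * h) hh1' hθ hθ8 hT4' (by linarith) hLdef haN'
  rw [← hρdef] at hM
  set M := 8 * Real.exp (2 * (a + N * h)) * ((2 / (h * ρ)) ^ N / ρ) with hMdef
  have hh0 : 0 < h := by linarith
  have hM0 : 0 ≤ M := by positivity
  -- the terms
  set G := K4_G N a h α s0 with hG
  set W : ℕ → ℂ := fun n => (1 / (2 * Real.pi) : ℝ) * ∫ y : ℝ in h1..h2, G n (2 + y * I) with hW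
  set W' : ℕ → ℂ := fun n => (1 / (2 * Real.pi) : ℝ) * ∫ y : ℝ in h1..h2, G n (σ + y * I)
    with hW'
  have hpi : 0 < 1 / (2 * Real.pi) := by positivity
  have hpi1 : 1 / (2 * Real.pi) ≤ 1 := by
    rw [div_le_one (by positivity)]
    linarith [Real.pi_gt_three]
  have hnormpi : ‖((1 / (2 * Real.pi) : ℝ) : ℂ)‖ ≤ 1 := by
    rw [Complex.norm_real, Real.norm_of_nonneg hpi.le]
    exact hpi1
  have hsmall : ∀ n : ℕ, 1 ≤ n → (n : ℝ) ≤ T → 40 / T ^ 7 ≤ ((n:ℝ) ^ (2:ℝ))⁻¹ * (1 / T ^ 2) := by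
    intro n hn hnT
    have hn0 : (0:ℝ) < n := by exact_mod_cast hn
    rw [Real.rpow_two, ← one_div, one_div_mul_one_div, div_le_div_iff₀ (by positivity) (by positivity)]
    have h3 : (n:ℝ) ^ 2 ≤ T ^ 2 := by gcongr
    have h4 : (40:ℝ) ≤ T ^ 3 := by
      calc (40:ℝ) ≤ 4 ^ 3 := by norm_num
        _ ≤ T ^ 3 := by gcongr
    calc 40 * ((n:ℝ) ^ 2 * T ^ 2) ≤ T ^ 3 * (T ^ 2 * T ^ 2) := by gcongr
      _ = 1 * T ^ 7 := by ring
  have hMT : M * (5 * T) ≤ 40 / T ^ 7 := by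
    calc M * (5 * T) ≤ 8 / T ^ 8 * (5 * T) := by gcongr
      _ = 40 / T ^ 7 := by field_simp; norm_num
  -- first range
  have hlow : ∀ n : ℕ, 1 ≤ n → Real.log n ≤ a → (n : ℝ) ≤ T →
      ‖W n - gam α s0 * (n : ℂ) ^ (-s0)‖ ≤ ((n:ℝ) ^ (2:ℝ))⁻¹ * (1 / T ^ 2) := by
    intro n hn hna hnT
    have h3 := K4_low (N := N) (α := α) ha0 hh0 hρ0 hα0 hα28 hre0 hre1 hh1l hρT hb ht hn hna
    have h4 : W n - gam α s0 * (n : ℂ) ^ (-s0) = ((1 / (2 * Real.pi) : ℝ) : ℂ) *
        ((∫ y : ℝ in h1..h2, G n (2 + y * I)) - 2 * Real.pi * (gam α s0 * (n : ℂ) ^ (-s0))) := by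
      simp only [hW]
      have h5 : (Real.pi : ℂ) ≠ 0 := by exact_mod_cast Real.pi_ne_zero
      have h6 : ((1 / (2 * Real.pi) : ℝ) : ℂ) * (2 * Real.pi) = 1 := by
        push_cast
        field_simp
      linear_combination (gam α s0 * (n : ℂ) ^ (-s0)) * h6
    rw [h4, norm_mul]
    refine le_trans ?_ (hsmall n hn hnT)
    refine le_trans ?_ hMT
    calc ‖((1 / (2 * Real.pi) : ℝ) : ℂ)‖ * _ ≤ 1 * (M * (2 * (T + 2) + (h2 - h1))) :=
          mul_le_mul hnormpi h3 (norm_nonneg _) zero_le_one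
      _ ≤ M * (5 * T) := by
          rw [one_mul]
          refine mul_le_mul_of_nonneg_left ?_ hM0
          linarith
  have hmid : ∀ n : ℕ, 1 ≤ n → (n : ℝ) ≤ T →
      ‖W n - W' n‖ ≤ ((n:ℝ) ^ (2:ℝ))⁻¹ * (1 / T ^ 2) := by
    intro n hn hnT
    have h3 := K4_mid (N := N) (α := α) ha0 hh0 hρ0 hα0 hα28 hre0 hσ1 hσ2 hh1l hb ht hn
    have h4 : W n - W' n = ((1 / (2 * Real.pi) : ℝ) : ℂ) *
        ((∫ y : ℝ in h1..h2, G n (2 + y * I)) - ∫ y : ℝ in h1..h2, G n (σ + y * I)) := by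
      simp only [hW, hW']
      ring
    rw [h4, norm_mul]
    refine le_trans ?_ (hsmall n hn hnT)
    refine le_trans ?_ hMT
    calc ‖((1 / (2 * Real.pi) : ℝ) : ℂ)‖ * _ ≤ 1 * (M * (2 * (2 - σ))) :=
          mul_le_mul hnormpi h3 (norm_nonneg _) zero_le_one
      _ ≤ M * (5 * T) := by
          rw [one_mul]
          refine mul_le_mul_of_nonneg_left ?_ hM0
          linarith
  have hhigh : ∀ n : ℕ, 1 ≤ n → a + N * h ≤ Real.log n →
      ‖W n‖ ≤ ((n:ℝ) ^ (2:ℝ))⁻¹ * (1 / T ^ 2) := by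
    intro n hn hna
    have hn0 : (0:ℝ) < n := by exact_mod_cast hn
    have h3 := K4_high (N := N) (α := α) ha0 hh0 hρ0 hα0 hα28 hre0 hre1 hh1l hρT hb ht hn hna
    simp only [hW]
    rw [norm_mul]
    have h5 : 8 * Real.exp (2 * (a + N * h) - 2 * Real.log n) * ((2 / (h * ρ)) ^ N / ρ) =
        ((n:ℝ) ^ (2:ℝ))⁻¹ * M := by
      rw [hMdef, sub_eq_add_neg, Real.exp_add, ← Real.rpow_neg hn0.le, Real.rpow_def_of_pos hn0]
      have : -(2 * Real.log n) = Real.log n * -2 := by ring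
      rw [this]
      ring
    rw [h5] at h3
    have h6 : M * (5 * T) ≤ 1 / T ^ 2 := by
      refine hMT.trans ?_
      rw [div_le_div_iff₀ (by positivity) (by positivity)]
      have h4 : (40:ℝ) ≤ T ^ 5 := by
        calc (40:ℝ) ≤ 4 ^ 5 := by norm_num
          _ ≤ T ^ 5 := by gcongr
      calc 40 * T ^ 2 ≤ T ^ 5 * T ^ 2 := by gcongr
        _ = 1 * T ^ 7 := by ring
    calc ‖((1 / (2 * Real.pi) : ℝ) : ℂ)‖ * _ ≤ 1 * (((n:ℝ) ^ (2:ℝ))⁻¹ * M *
          (2 * T + (h2 - h1))) := mul_le_mul hnormpi h3 (norm_nonneg _) zero_le_one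
      _ = ((n:ℝ) ^ (2:ℝ))⁻¹ * (M * (2 * T + (h2 - h1))) := by ring
      _ ≤ ((n:ℝ) ^ (2:ℝ))⁻¹ * (M * (5 * T)) := by
          refine mul_le_mul_of_nonneg_left (mul_le_mul_of_nonneg_left (by linarith) hM0)
            (by positivity)
      _ ≤ _ := by gcongr
  -- the ranges
  have hXNlog : ∀ n : ℕ, 1 ≤ n → n ≤ XN D T → Real.log n ≤ a ∧ (n : ℝ) ≤ T := by
    intro n hn hnX
    have hn0 : (0:ℝ) < n := by exact_mod_cast hn
    have h3 : (n:ℝ) ≤ T ^ (1 - D.ep) := by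
      have := Nat.floor_le (show 0 ≤ T ^ (1 - D.ep) by positivity)
      have h4 : (n:ℝ) ≤ (XN D T : ℝ) := by exact_mod_cast hnX
      exact h4.trans this
    refine ⟨?_, h3.trans ?_⟩
    · rw [ha]
      unfold ka
      rw [← Real.log_rpow hTp]
      exact Real.log_le_log hn0 h3
    · calc T ^ (1 - D.ep) ≤ T ^ (1:ℝ) := Real.rpow_le_rpow_of_exponent_le hT1.le (by linarith)
        _ = T := Real.rpow_one T
  have hX1T : ∀ n : ℕ, n ≤ X1 D T → (n : ℝ) ≤ T := by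
    intro n hnX
    have h3 : (n:ℝ) ≤ T ^ (1 - D.ep / 2) := by
      have := Nat.floor_le (show 0 ≤ T ^ (1 - D.ep / 2) by positivity)
      have h4 : (n:ℝ) ≤ (X1 D T : ℝ) := by exact_mod_cast hnX
      exact h4.trans this
    refine h3.trans ?_
    calc T ^ (1 - D.ep / 2) ≤ T ^ (1:ℝ) := Real.rpow_le_rpow_of_exponent_le hT1.le (by linarith)
      _ = T := Real.rpow_one T
  have hXNX1 : XN D T ≤ X1 D T := by
    unfold XN X1
    exact Nat.floor_le_floor (Real.rpow_le_rpow_of_exponent_le hT1.le (by linarith))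
  have hX1log : ∀ n : ℕ, X1 D T < n → a + N * h ≤ Real.log n := by
    intro n hnX
    have h3 : T ^ (1 - D.ep / 2) < n := (Nat.floor_lt (by positivity)).mp hnX
    rw [haN, ← Real.log_rpow hTp]
    exact Real.log_le_log (Real.rpow_pos_of_pos hTp _) h3.le
  -- the series
  have hKc : Continuous (fun t : ℝ => Ke N a h (2 + t * I - s0)) := by
    unfold Ke
    have h3 : Continuous (fun t : ℝ => E1 (h * (2 + t * I - s0))) :=
      E1_diff.continuous.comp (by fun_prop)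
    refine Continuous.div ((by fun_prop : Continuous (fun t : ℝ =>
      Complex.exp (a * (2 + t * I - s0)))).mul (h3.pow N)) (by fun_prop) fun t h4 => ?_
    have h5 := congrArg Complex.re h4
    simp at h5
    linarith
  have hser := (K4_hasSum_int D hT1 α h1 h2 hKc).mul_left ((1 / (2 * Real.pi) : ℝ) : ℂ)
  have hA : HasSum (fun n : ℕ => bn D T α n * W n) (LowI D N T α h1 h2 s0) := by
    have e : (fun n : ℕ => bn D T α n * W n) = fun n : ℕ => ((1 / (2 * Real.pi) : ℝ) : ℂ) *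
        (bn D T α n * ∫ t in h1..h2, gam α (2 + t * I) * (n : ℂ) ^ (-(2 + t * I : ℂ)) *
          Ke N a h (2 + t * I - s0)) := by
      funext n
      simp only [hW, hG]
      unfold K4_G
      ring
    rw [e]
    exact hser
  set f1 : ℕ → ℂ := fun n => if n ∈ Finset.Icc 1 (XN D T) then
    bn D T α n * (gam α s0 * (n : ℂ) ^ (-s0)) else 0 with hf1
  set f2 : ℕ → ℂ := fun n => if n ∈ Finset.Ioc (XN D T) (X1 D T) then
    bn D T α n * W' n else 0 with hf2
  have hB : HasSum f1 (LowP D T α s0) := by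
    have h3 : HasSum f1 (∑ n ∈ Finset.Icc 1 (XN D T), f1 n) := hasSum_sum_of_ne_finset_zero
      (fun n hn => by simp only [hf1]; rw [if_neg hn])
    have h4 : ∑ n ∈ Finset.Icc 1 (XN D T), f1 n = LowP D T α s0 := by
      unfold LowP
      rw [Finset.mul_sum]
      refine Finset.sum_congr rfl fun n hn => ?_
      simp only [hf1]
      rw [if_pos hn]
      ring
    rw [h4] at h3
    exact h3
  have hC : HasSum f2 (Win D N T α h1 h2 s0) := by
    have h3 : HasSum f2 (∑ n ∈ Finset.Ioc (XN D T) (X1 D T), f2 n) :=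
      hasSum_sum_of_ne_finset_zero (fun n hn => by simp only [hf2]; rw [if_neg hn])
    have h4 : ∑ n ∈ Finset.Ioc (XN D T) (X1 D T), f2 n = Win D N T α h1 h2 s0 := by
      have h5 : Win D N T α h1 h2 s0 = (1 / (2 * Real.pi) : ℝ) *
          ∫ t in h1..h2, ∑ n ∈ Finset.Ioc (XN D T) (X1 D T), bn D T α n * G n (σ + t * I) := by
        unfold Win
        congr 1
        refine intervalIntegral.integral_congr fun t _ => ?_
        unfold WinP
        beta_reduce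
        rw [Finset.mul_sum, Finset.sum_mul]
        refine Finset.sum_congr rfl fun n hn => ?_
        simp only [hG]
        unfold K4_G
        ring
      rw [h5, intervalIntegral.integral_finsetSum, Finset.mul_sum]
      · refine Finset.sum_congr rfl fun n hn => ?_
        simp only [hf2]
        rw [if_pos hn, intervalIntegral.integral_const_mul]
        simp only [hW']
        ring
      · intro n hn
        have hn1 : 1 ≤ n := by
          have := (Finset.mem_Ioc.mp hn).1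
          omega
        refine IntervalIntegrable.const_mul ?_ _
        have h6 := sides_integrable (f := G n) (a := σ) (b := 2) (c := h1) (d := h2) hσ2
          (by linarith) (fun z hz _ => (K4_diff_G hα0 hn1 (by linarith [hz.2.2.1]) (by
            rintro rfl
            linarith [hz.1])).continuousAt)
        exact h6.2.2.2
    rw [h4] at h3
    exact h3
  have hD := (hA.sub hB).sub hC
  have hE : HasSum (fun n : ℕ => K4_d3 n * ((n:ℝ) ^ (2:ℝ))⁻¹ * (1 / T ^ 2)) (C3 * (1 / T ^ 2)) :=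
    (K4_summable_d3.hasSum).mul_right _
  have hF : ∀ n : ℕ, ‖bn D T α n * W n - f1 n - f2 n‖ ≤
      K4_d3 n * ((n:ℝ) ^ (2:ℝ))⁻¹ * (1 / T ^ 2) := by
    intro n
    rcases Nat.eq_zero_or_pos n with rfl | hn
    · simp [hf1, hf2, bn, K4_d3]
    · have hbn := K4_bn_le D T α n
      have hgoal : ∀ e : ℂ, ‖e‖ ≤ ((n:ℝ) ^ (2:ℝ))⁻¹ * (1 / T ^ 2) →
          ‖bn D T α n * e‖ ≤ K4_d3 n * ((n:ℝ) ^ (2:ℝ))⁻¹ * (1 / T ^ 2) := by
        intro e he
        rw [norm_mul, mul_assoc]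
        exact mul_le_mul hbn he (norm_nonneg _) (K4_d3_nonneg n)
      rcases le_or_gt n (XN D T) with h3 | h3
      · have m1 : n ∈ Finset.Icc 1 (XN D T) := Finset.mem_Icc.mpr ⟨hn, h3⟩
        have m2 : n ∉ Finset.Ioc (XN D T) (X1 D T) := by
          rw [Finset.mem_Ioc]; omega
        simp only [hf1, hf2]
        rw [if_pos m1, if_neg m2, sub_zero, ← mul_sub]
        obtain ⟨h4, h5⟩ := hXNlog n hn h3
        exact hgoal _ (hlow n hn h4 h5)
      · have m1 : n ∉ Finset.Icc 1 (XN D T) := by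
          rw [Finset.mem_Icc]; omega
        rcases le_or_gt n (X1 D T) with h4 | h4
        · have m2 : n ∈ Finset.Ioc (XN D T) (X1 D T) := Finset.mem_Ioc.mpr ⟨h3, h4⟩
          simp only [hf1, hf2]
          rw [if_neg m1, if_pos m2, sub_zero, ← mul_sub]
          exact hgoal _ (hmid n hn (hX1T n h4))
        · have m2 : n ∉ Finset.Ioc (XN D T) (X1 D T) := by
            rw [Finset.mem_Ioc]; omega
          simp only [hf1, hf2]
          rw [if_neg m1, if_neg m2, sub_zero, sub_zero]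
          exact hgoal _ (hhigh n hn (hX1log n h4))
  have hfin := hD.norm_le_of_bounded hE hF
  have e5 : LowI D N T α h1 h2 s0 - (LowP D T α s0 + Win D N T α h1 h2 s0) =
      LowI D N T α h1 h2 s0 - LowP D T α s0 - Win D N T α h1 h2 s0 := by ring
  rw [e5]
  refine hfin.trans ?_
  rw [mul_one_div, div_le_div_iff₀ (by positivity) hTp]
  have e6 : C3 ≤ T := by linarith
  have e7 := mul_le_mul_of_nonneg_right e6 hTp.le
  rw [one_mul, sq]
  exact e7

end Pool.Agent.AHD
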