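import Pool.Agent.ZGap.AH.A1

/-!
# A sum over rough numbers is almost linear
-/

open scoped ContDiff

namespace Pool.Agent.AHD

open Complex MeasureTheory Set Pool.Agent.Hadamard Pool.Agent.HalfGap

/-! ### Elementary facts on `H0` -/

theorem M3_H0_nonneg (D : AData) (T : ℝ) (n : ℕ) : 0 ≤ H0 D T n :=
  mul_nonneg (sq_nonneg _) (Finset.prod_nonneg fun _ _ => sq_nonneg _)

theorem M3_H0_le (D : AData) {T : ℝ} (hT : 1 ≤ T) (n : ℕ) : H0 D T n ≤ Gb D T n ^ 2 := by
  have h1 : (ArithmeticFunction.moebius n : ℝ) ^ 2 ≤ 1 := by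
    rw [sq_le_one_iff_abs_le_one]
    have := ArithmeticFunction.abs_moebius_le_one (n := n)
    exact_mod_cast this
  have h2 : ∏ p ∈ n.primeFactors, D.f (xip T p) ^ 2 ≤ Gb D T n ^ 2 := by
    unfold Gb
    rw [← Finset.prod_pow]
    refine Finset.prod_le_prod (fun p _ => sq_nonneg _) fun p _ => ?_
    have h3 := A1_xip_nonneg hT p
    have h4 := D.f_nonneg (xip T p)
    unfold Gp
    exact pow_le_pow_left₀ h4 (by linarith) 2
  unfold H0
  calc (ArithmeticFunction.moebius n : ℝ) ^ 2 * ∏ p ∈ n.primeFactors, D.f (xip T p) ^ 2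
      ≤ 1 * ∏ p ∈ n.primeFactors, D.f (xip T p) ^ 2 :=
        mul_le_mul_of_nonneg_right h1 (Finset.prod_nonneg fun p _ => sq_nonneg _)
    _ ≤ Gb D T n ^ 2 := by rw [one_mul]; exact h2

theorem M3_H0_mul (D : AData) (T : ℝ) {p m : ℕ} (hp : p.Prime) (hpm : ¬ p ∣ m) :
    H0 D T (p * m) = D.f (xip T p) ^ 2 * H0 D T m := by
  have hc : Nat.Coprime p m := (Nat.Prime.coprime_iff_not_dvd hp).mpr hpm
  unfold H0
  rw [ArithmeticFunction.isMultiplicative_moebius.map_mul_of_coprime hc,
    ArithmeticFunction.moebius_apply_prime hp, hc.primeFactors_mul,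
    Finset.prod_union hc.disjoint_primeFactors, hp.primeFactors, Finset.prod_singleton]
  push_cast
  ring

theorem M3_H0_dvd (D : AData) (T : ℝ) {p m : ℕ} (hp : p.Prime) (hpm : p ∣ m) :
    H0 D T (p * m) = 0 := by
  have h : ¬ Squarefree (p * m) := by
    intro h
    have := h p (mul_dvd_mul_left p hpm)
    exact hp.one_lt.ne' (Nat.isUnit_iff.mp this)
  unfold H0
  rw [ArithmeticFunction.moebius_eq_zero_of_not_squarefree h]
  simp

theorem M3_H0_log (D : AData) (T : ℝ) (n : ℕ) :
    H0 D T n * ∑ p ∈ n.primeFactors, Real.log p = H0 D T n * Real.log n := by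
  by_cases h : Squarefree n
  · congr 1
    rw [← Real.log_prod (fun p hp => by
      have := (Nat.prime_of_mem_primeFactors hp).pos
      positivity)]
    rw [← Nat.cast_prod, Nat.prod_primeFactors_of_squarefree h]
  · unfold H0
    rw [ArithmeticFunction.moebius_eq_zero_of_not_squarefree h]
    simp

theorem M3_reindex (K : ℕ → ℕ → ℝ) (N : ℕ) :
    ∑ n ∈ Finset.Icc 1 N, ∑ x ∈ n.divisorsAntidiagonal, K x.1 x.2 =
      ∑ m ∈ Finset.Icc 1 N, ∑ d ∈ Finset.Icc 1 (N / m), K d m := by
  classical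
  set P : Finset (ℕ × ℕ) := ((Finset.Icc 1 N) ×ˢ (Finset.Icc 1 N)).filter
    (fun x => x.1 * x.2 ∈ Finset.Icc 1 N) with hP
  have h1 : ∑ x ∈ P, K x.1 x.2 =
      ∑ n ∈ Finset.Icc 1 N, ∑ x ∈ n.divisorsAntidiagonal, K x.1 x.2 := by
    rw [← Finset.sum_fiberwise_of_maps_to (g := fun x : ℕ × ℕ => x.1 * x.2)
      (t := Finset.Icc 1 N) (fun x hx => (Finset.mem_filter.mp hx).2)]
    refine Finset.sum_congr rfl fun n hn => ?_
    refine Finset.sum_congr ?_ fun _ _ => rfl
    ext x
    rw [Finset.mem_filter, Finset.mem_filter, Finset.mem_product, Finset.mem_Icc,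
      Finset.mem_Icc, Nat.mem_divisorsAntidiagonal]
    rw [Finset.mem_Icc] at hn
    constructor
    · rintro ⟨-, h⟩
      exact ⟨h, by omega⟩
    · rintro ⟨h, h'⟩
      have hx1 : 1 ≤ x.1 := Nat.pos_of_ne_zero fun h0 => h' (by rw [← h, h0, zero_mul])
      have hx2 : 1 ≤ x.2 := Nat.pos_of_ne_zero fun h0 => h' (by rw [← h, h0, mul_zero])
      refine ⟨⟨⟨⟨hx1, ?_⟩, ⟨hx2, ?_⟩⟩, by rw [h, Finset.mem_Icc]; exact hn⟩, h⟩
      · have := Nat.le_mul_of_pos_right x.1 hx2
        omega
      · have := Nat.le_mul_of_pos_left x.2 hx1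
        omega
  rw [← h1, hP, Finset.sum_filter, Finset.sum_product_right]
  refine Finset.sum_congr rfl fun m hm => ?_
  rw [Finset.mem_Icc] at hm
  rw [← Finset.sum_filter]
  refine Finset.sum_congr ?_ fun d _ => rfl
  ext d
  rw [Finset.mem_filter, Finset.mem_Icc, Finset.mem_Icc, Finset.mem_Icc,
    Nat.le_div_iff_mul_le (by omega)]
  constructor
  · rintro ⟨h0, h⟩
    exact ⟨h0.1, h.2⟩
  · rintro ⟨h, h'⟩
    refine ⟨⟨h, ?_⟩, ?_, h'⟩
    · have := Nat.le_mul_of_pos_right d (show 0 < m by omega)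
      omega
    · exact Nat.mul_pos (by omega) (by omega)

theorem M3_conv (D : AData) (T : ℝ) (N : ℕ) :
    ∑ n ∈ Finset.Icc 1 N, H0 D T n / n * Real.log n =
      ∑ m ∈ Finset.Icc 1 N, H0 D T m / m *
        ∑ p ∈ (Finset.Icc 1 (N / m)).filter Nat.Prime,
          (if p ∣ m then 0 else D.f (xip T p) ^ 2 * (Real.log p / p)) := by
  have h1 : ∀ n ∈ Finset.Icc 1 N, H0 D T n / n * Real.log n =
      ∑ x ∈ n.divisorsAntidiagonal,
        (if x.1.Prime then H0 D T (x.1 * x.2) / ((x.1 * x.2 : ℕ) : ℝ) * Real.log x.1 else 0) := by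
    intro n hn
    rw [Finset.mem_Icc] at hn
    have e1 : ∑ x ∈ n.divisorsAntidiagonal,
        (if x.1.Prime then H0 D T (x.1 * x.2) / ((x.1 * x.2 : ℕ) : ℝ) * Real.log x.1 else 0) =
        ∑ x ∈ n.divisorsAntidiagonal,
          (if x.1.Prime then H0 D T n / n * Real.log x.1 else 0) := by
      refine Finset.sum_congr rfl fun x hx => ?_
      rw [(Nat.mem_divisorsAntidiagonal.mp hx).1]
    rw [e1, Nat.sum_divisorsAntidiagonal
      (f := fun d _ => if d.Prime then H0 D T n / n * Real.log d else 0), ← Finset.sum_filter,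
      ← Nat.primeFactors_eq_to_filter_divisors_prime, ← Finset.mul_sum]
    have := M3_H0_log D T n
    rw [div_mul_eq_mul_div, div_mul_eq_mul_div, this]
  rw [Finset.sum_congr rfl h1, M3_reindex (fun d m =>
    if d.Prime then H0 D T (d * m) / ((d * m : ℕ) : ℝ) * Real.log d else 0)]
  refine Finset.sum_congr rfl fun m hm => ?_
  rw [Finset.mem_Icc] at hm
  rw [← Finset.sum_filter, Finset.mul_sum]
  refine Finset.sum_congr rfl fun p hp => ?_
  have hp' := (Finset.mem_filter.mp hp).2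
  have hm0 : (m : ℝ) ≠ 0 := by
    have : m ≠ 0 := by omega
    exact_mod_cast this
  have hp0 : (p : ℝ) ≠ 0 := by exact_mod_cast hp'.ne_zero
  split_ifs with h
  · rw [M3_H0_dvd D T hp' h]
    simp
  · rw [M3_H0_mul D T hp' h]
    push_cast
    field_simp

/-! ### The inner sum -/

theorem M3_sum_log_primeFactors {m : ℕ} (hm : m ≠ 0) :
    ∑ p ∈ m.primeFactors, Real.log p ≤ Real.log m := by
  have hpos : ∀ p ∈ m.primeFactors, (p : ℝ) ≠ 0 := fun p hp => by
    have := (Nat.prime_of_mem_primeFactors hp).ne_zero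
    exact_mod_cast this
  rw [← Real.log_prod hpos, ← Nat.cast_prod]
  have h1 : 0 < ∏ p ∈ m.primeFactors, p :=
    Finset.prod_pos fun p hp => (Nat.prime_of_mem_primeFactors hp).pos
  refine Real.log_le_log (by exact_mod_cast h1) ?_
  exact_mod_cast Nat.le_of_dvd (Nat.pos_of_ne_zero hm) (Nat.prod_primeFactors_dvd m)

theorem M3_inner : ∃ C : ℝ, 0 < C ∧ ∀ D : AData, ∃ T0 : ℝ, 1 < T0 ∧ ∀ T : ℝ, T0 ≤ T →
    ∀ u : ℝ, 0 < u → u ≤ (1 - D.ep) * Real.log T → ∀ m : ℕ, 1 ≤ m → m ≤ ⌊Real.exp u⌋₊ →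
    |∑ p ∈ (Finset.Icc 1 (⌊Real.exp u⌋₊ / m)).filter Nat.Prime,
          (if p ∣ m then 0 else D.f (xip T p) ^ 2 * (Real.log p / p)) - (u - Real.log m)| ≤
      C * (D.ep * Real.log T) := by
  obtain ⟨C, hC, hP⟩ := sum_log_prime
  refine ⟨3 + 2 * C, by positivity, fun D => ?_⟩
  have hep := D.ep_pos
  have hep1 := D.ep_le
  -- the threshold
  refine ⟨Real.exp (1 / D.ep ^ 2), ?_, fun T hT u hu huU m hm1 hmN => ?_⟩
  · rw [Real.one_lt_exp_iff]; positivity
  have hT1 : 1 < T := lt_of_lt_of_le (by rw [Real.one_lt_exp_iff]; positivity) hT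
  have hT0 : 0 < T := by linarith
  set L := Real.log T with hL
  have hLbig : 1 / D.ep ^ 2 ≤ L := by
    rw [hL, Real.le_log_iff_exp_le hT0]; exact hT
  have hL0 : 0 < L := Real.log_pos hT1
  have hepL : 1 / D.ep ≤ D.ep * L := by
    have := mul_le_mul_of_nonneg_left hLbig hep.le
    refine le_trans (le_of_eq ?_) this
    field_simp
  have hepL1 : 1 ≤ D.ep * L := by
    refine le_trans ?_ hepL
    rw [le_div_iff₀ hep]; linarith
  have hm0 : (0:ℝ) < m := by exact_mod_cast hm1
  have hmu : (m : ℝ) ≤ Real.exp u := by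
    refine le_trans ?_ (Nat.floor_le (Real.exp_pos u).le)
    exact_mod_cast hmN
  set x : ℝ := Real.exp u / m with hx
  have hx1 : 1 ≤ x := by rw [hx, le_div_iff₀ hm0, one_mul]; exact hmu
  have hx0 : 0 < x := by linarith
  have hlogx : Real.log x = u - Real.log m := by
    rw [hx, Real.log_div (Real.exp_pos u).ne' hm0.ne', Real.log_exp]
  have hfl : ⌊Real.exp u⌋₊ / m = ⌊x⌋₊ := by rw [hx, Nat.floor_div_natCast]
  rw [hfl, ← hlogx]
  have hxU : x ≤ Real.exp ((1 - D.ep) * L) := by
    have h1 : x ≤ Real.exp u := by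
      rw [hx, div_le_iff₀ hm0]
      have : (1:ℝ) ≤ m := by exact_mod_cast hm1
      have := Real.exp_pos u
      nlinarith
    exact h1.trans (Real.exp_le_exp.mpr huU)
  have hPx := abs_le.mp (hP x hx1)
  set Q := (Finset.Icc 1 ⌊x⌋₊).filter Nat.Prime with hQ
  have hQp : ∀ p ∈ Q, p.Prime ∧ (p : ℝ) ≤ x := by
    intro p hp
    rw [hQ, Finset.mem_filter, Finset.mem_Icc] at hp
    refine ⟨hp.2, ?_⟩
    refine le_trans ?_ (Nat.floor_le hx0.le)
    exact_mod_cast hp.1.2
  have hterm0 : ∀ p ∈ Q, 0 ≤ Real.log p / p := fun p _ =>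
    div_nonneg (Real.log_natCast_nonneg p) (Nat.cast_nonneg p)
  rw [abs_le]
  constructor
  · -- lower bound
    set z : ℝ := T ^ (2 * D.ep) with hz
    have hz1 : 1 ≤ z := Real.one_le_rpow hT1.le (by positivity)
    have hz0 : 0 < z := by linarith
    have hlogz : Real.log z = 2 * D.ep * L := by rw [hz, Real.log_rpow hT0]
    have hPz := abs_le.mp (hP z hz1)
    -- pointwise
    have hpt : ∀ p ∈ Q, Real.log p / p ≤
        (if p ∣ m then 0 else D.f (xip T p) ^ 2 * (Real.log p / p)) +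
        ((if (p : ℝ) ≤ z then Real.log p / p else 0) +
          (if p ∣ m then Real.log p / z else 0)) := by
      intro p hp
      obtain ⟨hpp, hpx⟩ := hQp p hp
      have hp0 : (0:ℝ) < p := by exact_mod_cast hpp.pos
      have ht := hterm0 p hp
      have hlogp : 0 ≤ Real.log p := Real.log_natCast_nonneg p
      have hA : 0 ≤ (if p ∣ m then 0 else D.f (xip T p) ^ 2 * (Real.log p / p)) := by
        split_ifs
        · exact le_rfl
        · positivity
      have hB : 0 ≤ (if p ∣ m then Real.log p / z else 0) := by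
        split_ifs
        · positivity
        · exact le_rfl
      by_cases h1 : (p : ℝ) ≤ z
      · rw [if_pos h1]; linarith
      · rw [if_neg h1]
        by_cases h2 : p ∣ m
        · rw [if_pos h2, if_pos h2]
          have : Real.log p / p ≤ Real.log p / z :=
            div_le_div_of_nonneg_left hlogp hz0 (not_le.mp h1).le
          linarith
        · rw [if_neg h2, if_neg h2]
          have hf : D.f (xip T p) = 1 := by
            refine D.f_mid _ ?_ ?_
            · unfold xip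
              rw [le_div_iff₀ hL0, ← hlogz]
              exact Real.log_le_log hz0 (not_le.mp h1).le
            · unfold xip
              rw [div_le_iff₀ hL0]
              rw [← Real.log_exp ((1 - D.ep) * L)]
              exact Real.log_le_log hp0 (hpx.trans hxU)
          rw [hf]; linarith
    have hsum := Finset.sum_le_sum hpt
    rw [Finset.sum_add_distrib, Finset.sum_add_distrib] at hsum
    have hb1 : ∑ p ∈ Q, (if (p : ℝ) ≤ z then Real.log p / p else 0) ≤
        ∑ p ∈ (Finset.Icc 1 ⌊z⌋₊).filter Nat.Prime, Real.log p / p := by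
      rw [← Finset.sum_filter]
      refine Finset.sum_le_sum_of_subset_of_nonneg ?_ ?_
      · intro p hp
        rw [Finset.mem_filter] at hp
        have h1 := (hQp p hp.1).1
        rw [Finset.mem_filter, Finset.mem_Icc]
        exact ⟨⟨h1.one_lt.le, Nat.le_floor hp.2⟩, h1⟩
      · intro p _ _
        exact div_nonneg (Real.log_natCast_nonneg p) (Nat.cast_nonneg p)
    have hb2 : ∑ p ∈ Q, (if p ∣ m then Real.log p / z else 0) ≤ Real.log m / z := by
      rw [← Finset.sum_filter]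
      have h1 : ∑ p ∈ Q.filter (fun p => p ∣ m), Real.log p / z ≤
          ∑ p ∈ m.primeFactors, Real.log p / z := by
        refine Finset.sum_le_sum_of_subset_of_nonneg ?_ ?_
        · intro p hp
          rw [Finset.mem_filter] at hp
          exact Nat.mem_primeFactors.mpr ⟨(hQp p hp.1).1, hp.2, by omega⟩
        · intro p _ _
          exact div_nonneg (Real.log_natCast_nonneg p) hz0.le
      refine h1.trans ?_
      rw [← Finset.sum_div]
      exact div_le_div_of_nonneg_right (M3_sum_log_primeFactors (by omega)) hz0.le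
    have hb3 : Real.log m / z ≤ D.ep * L := by
      have h1 : Real.log m ≤ L := by
        have h2 : Real.log m ≤ u := by
          rw [← Real.log_exp u]; exact Real.log_le_log hm0 hmu
        nlinarith
      have h3 : 1 / D.ep ≤ z := by
        have h4 : D.ep * L + 1 ≤ Real.exp (D.ep * L) := Real.add_one_le_exp _
        have h5 : Real.exp (D.ep * L) ≤ z := by
          rw [hz, Real.rpow_def_of_pos hT0]
          refine Real.exp_le_exp.mpr ?_
          rw [← hL]; nlinarith
        linarith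
      rw [div_le_iff₀ hz0]
      have h6 : 1 ≤ D.ep * z := by
        have := mul_le_mul_of_nonneg_left h3 hep.le
        refine le_trans (le_of_eq ?_) this
        field_simp
      nlinarith
    have := hPx.1
    have := hPz.2
    rw [hlogz] at this
    nlinarith
  · -- upper bound
    have h1 : ∑ p ∈ Q, (if p ∣ m then 0 else D.f (xip T p) ^ 2 * (Real.log p / p)) ≤
        ∑ p ∈ Q, Real.log p / p := by
      refine Finset.sum_le_sum fun p hp => ?_
      have ht := hterm0 p hp
      split_ifs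
      · exact ht
      · have h2 : D.f (xip T p) ^ 2 ≤ 1 := pow_le_one₀ (D.f_nonneg _) (D.f_le _)
        nlinarith
    have := hPx.2
    nlinarith

/-! ### The integral of `HN` -/

/-- The integral of `HN`, as a finite sum. -/
noncomputable def M3_I (D : AData) (T : ℝ) (N : ℕ) (u : ℝ) : ℝ :=
  ∑ n ∈ Finset.Icc 1 N, H0 D T n / n * max (u - Real.log n) 0

theorem M3_max_deriv (a x : ℝ) :
    HasDerivWithinAt (fun v : ℝ => max (v - a) 0) (if a ≤ x then 1 else 0) (Ici x) x := by
  split_ifs with h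
  · have h1 : HasDerivWithinAt (fun v : ℝ => v - a) 1 (Ici x) x :=
      ((hasDerivAt_id x).sub_const a).hasDerivWithinAt
    refine h1.congr (fun v hv => max_eq_left ?_) (max_eq_left ?_)
    · have := mem_Ici.mp hv; linarith
    · linarith
  · have h1 : HasDerivAt (fun v : ℝ => max (v - a) 0) 0 x := by
      refine (hasDerivAt_const x (0:ℝ)).congr_of_eventuallyEq ?_
      filter_upwards [Iio_mem_nhds (not_le.mp h)] with v hv
      have := mem_Iio.mp hv
      exact max_eq_right (by linarith)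
    exact h1.hasDerivWithinAt

theorem M3_mem (u : ℝ) {n : ℕ} (hn : 1 ≤ n) : n ≤ ⌊Real.exp u⌋₊ ↔ Real.log n ≤ u := by
  have hn0 : (0:ℝ) < n := by exact_mod_cast hn
  rw [Nat.le_floor_iff (Real.exp_pos u).le, Real.log_le_iff_le_exp hn0]

theorem M3_HN_eq (D : AData) (T : ℝ) {u U : ℝ} (h : u ≤ U) :
    HN D T u = ∑ n ∈ Finset.Icc 1 ⌊Real.exp U⌋₊,
      H0 D T n / n * (if Real.log n ≤ u then 1 else 0) := by
  unfold HN
  simp only [mul_ite, mul_one, mul_zero]
  rw [← Finset.sum_filter]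
  refine Finset.sum_congr ?_ fun _ _ => rfl
  ext n
  rw [Finset.mem_filter, Finset.mem_Icc, Finset.mem_Icc]
  constructor
  · rintro ⟨h1, h2⟩
    refine ⟨⟨h1, h2.trans (Nat.floor_le_floor (Real.exp_le_exp.mpr h))⟩, (M3_mem u h1).mp h2⟩
  · rintro ⟨⟨h1, -⟩, h3⟩
    exact ⟨h1, (M3_mem u h1).mpr h3⟩

theorem M3_I_eq (D : AData) (T : ℝ) {u U : ℝ} (h : u ≤ U) :
    M3_I D T ⌊Real.exp U⌋₊ u = ∑ n ∈ Finset.Icc 1 ⌊Real.exp u⌋₊,
      H0 D T n / n * (u - Real.log n) := by
  unfold M3_I
  have hsub : Finset.Icc 1 ⌊Real.exp u⌋₊ ⊆ Finset.Icc 1 ⌊Real.exp U⌋₊ :=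
    Finset.Icc_subset_Icc_right (Nat.floor_le_floor (Real.exp_le_exp.mpr h))
  rw [← Finset.sum_subset hsub]
  · refine Finset.sum_congr rfl fun n hn => ?_
    rw [Finset.mem_Icc] at hn
    have := (M3_mem u hn.1).mp hn.2
    rw [max_eq_left (by linarith)]
  · intro n hn hn'
    rw [Finset.mem_Icc] at hn hn'
    have h1 : ¬ Real.log n ≤ u := fun h2 => hn' ⟨hn.1, (M3_mem u hn.1).mpr h2⟩
    rw [max_eq_right (by linarith), mul_zero]

theorem M3_I_deriv (D : AData) (T : ℝ) {U x : ℝ} (h : x ≤ U) :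
    HasDerivWithinAt (M3_I D T ⌊Real.exp U⌋₊) (HN D T x) (Ici x) x := by
  rw [M3_HN_eq D T h]
  unfold M3_I
  exact HasDerivWithinAt.fun_sum fun n _ => (M3_max_deriv (Real.log n) x).const_mul _

theorem M3_I_cont (D : AData) (T : ℝ) (N : ℕ) : Continuous (M3_I D T N) := by
  unfold M3_I
  fun_prop

/-- M3: the real sum is almost linear -/
theorem HN_lin : ∃ C : ℝ, 0 < C ∧ ∀ D : AData, ∃ T0 : ℝ, ∀ T : ℝ, T0 ≤ T → ∃ c : ℝ, 0 ≤ c ∧
    c ≤ C / (D.ep * Real.log T) ∧ ∀ u : ℝ, 0 < u → u ≤ (1 - D.ep) * Real.log T →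
      |HN D T u - c * u| ≤ C / D.ep ∧ |HN D T u - c * u| ≤ C * Real.log T / u := by
  obtain ⟨C1, hC1, h1⟩ := sum_Gb
  obtain ⟨C2, hC2, h2⟩ := M3_inner
  refine ⟨4 * C1 + 2 * (C2 * C1), by positivity, fun D => ?_⟩
  have hep := D.ep_pos
  have hep1 := D.ep_le
  obtain ⟨T1, hT1⟩ := h1 D
  obtain ⟨T2, hT21, hT2⟩ := h2 D
  refine ⟨max T1 T2, fun T hT => ?_⟩
  have hTT1 : T1 ≤ T := (le_max_left _ _).trans hT
  have hTT2 : T2 ≤ T := (le_max_right _ _).trans hT
  have hT1' : 1 < T := lt_of_lt_of_le hT21 hTT2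
  have hT0 : 0 < T := by linarith
  set L := Real.log T with hL
  have hL0 : 0 < L := Real.log_pos hT1'
  set U := (1 - D.ep) * L with hU
  have hU0 : 0 < U := mul_pos (by linarith) hL0
  have hUL : U ≤ L := by rw [hU]; nlinarith
  have hUL2 : L / 2 ≤ U := by rw [hU]; nlinarith
  have hh : ∀ n : ℕ, 0 ≤ H0 D T n / n := fun n =>
    div_nonneg (M3_H0_nonneg D T n) (Nat.cast_nonneg n)
  -- the trivial bound
  have hHN : ∀ u, u ≤ U → HN D T u ≤ C1 / D.ep := by
    intro u hu
    refine le_trans ?_ (hT1 T hTT1)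
    unfold HN
    have hsub : Finset.Icc 1 ⌊Real.exp u⌋₊ ⊆ Finset.Icc 1 ⌊T⌋₊ := by
      refine Finset.Icc_subset_Icc_right (Nat.floor_le_floor ?_)
      rw [← Real.exp_log hT0]
      exact Real.exp_le_exp.mpr (hu.trans hUL)
    refine (Finset.sum_le_sum_of_subset_of_nonneg hsub fun n _ _ => hh n).trans ?_
    refine Finset.sum_le_sum fun n _ => ?_
    exact div_le_div_of_nonneg_right (M3_H0_le D hT1'.le n) (Nat.cast_nonneg n)
  have hHN0 : ∀ u, 0 ≤ HN D T u := fun u => Finset.sum_nonneg fun n _ => hh n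
  -- the functional equation
  set I : ℝ → ℝ := M3_I D T ⌊Real.exp U⌋₊ with hI
  have hI0 : ∀ u, 0 ≤ I u := fun u =>
    Finset.sum_nonneg fun n _ => mul_nonneg (hh n) (le_max_right _ _)
  have hfe : ∀ u, 0 < u → u ≤ U → |u * HN D T u - 2 * I u| ≤ C2 * C1 * L := by
    intro u hu huU
    have e1 : I u = ∑ n ∈ Finset.Icc 1 ⌊Real.exp u⌋₊, H0 D T n / n * (u - Real.log n) :=
      M3_I_eq D T huU
    have e2 : u * HN D T u - I u =
        ∑ n ∈ Finset.Icc 1 ⌊Real.exp u⌋₊, H0 D T n / n * Real.log n := by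
      rw [e1]
      unfold HN
      rw [Finset.mul_sum, ← Finset.sum_sub_distrib]
      refine Finset.sum_congr rfl fun n _ => ?_
      ring
    have e3 : u * HN D T u - 2 * I u = ∑ m ∈ Finset.Icc 1 ⌊Real.exp u⌋₊, H0 D T m / m *
        (∑ p ∈ (Finset.Icc 1 (⌊Real.exp u⌋₊ / m)).filter Nat.Prime,
          (if p ∣ m then 0 else D.f (xip T p) ^ 2 * (Real.log p / p)) - (u - Real.log m)) := by
      have : u * HN D T u - 2 * I u = (u * HN D T u - I u) - I u := by ring
      rw [this, e2, M3_conv, e1, ← Finset.sum_sub_distrib]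
      refine Finset.sum_congr rfl fun m _ => ?_
      ring
    rw [e3]
    refine (Finset.abs_sum_le_sum_abs _ _).trans ?_
    have h3 : ∀ m ∈ Finset.Icc 1 ⌊Real.exp u⌋₊, |H0 D T m / m *
        (∑ p ∈ (Finset.Icc 1 (⌊Real.exp u⌋₊ / m)).filter Nat.Prime,
          (if p ∣ m then 0 else D.f (xip T p) ^ 2 * (Real.log p / p)) - (u - Real.log m))| ≤
        H0 D T m / m * (C2 * (D.ep * L)) := by
      intro m hm
      rw [Finset.mem_Icc] at hm
      rw [abs_mul, abs_of_nonneg (hh m)]
      exact mul_le_mul_of_nonneg_left (hT2 T hTT2 u hu huU m hm.1 hm.2) (hh m)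
    refine (Finset.sum_le_sum h3).trans ?_
    rw [← Finset.sum_mul]
    have h4 : ∑ m ∈ Finset.Icc 1 ⌊Real.exp u⌋₊, H0 D T m / m = HN D T u := rfl
    rw [h4]
    have h5 := mul_le_mul_of_nonneg_right (hHN u huU)
      (show 0 ≤ C2 * (D.ep * L) by positivity)
    refine h5.trans (le_of_eq ?_)
    field_simp
  -- the slope
  set c : ℝ := 2 * I U / U ^ 2 with hc
  have hc0 : 0 ≤ c := by have := hI0 U; positivity
  have hIU : I U ≤ U * HN D T U := by
    have e1 : I U = ∑ n ∈ Finset.Icc 1 ⌊Real.exp U⌋₊, H0 D T n / n * (U - Real.log n) :=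
      M3_I_eq D T le_rfl
    rw [e1]
    unfold HN
    rw [Finset.mul_sum]
    refine Finset.sum_le_sum fun n _ => ?_
    have h3 := hh n
    have h4 : 0 ≤ Real.log (n : ℝ) := Real.log_natCast_nonneg n
    nlinarith
  have hcU : c * U ≤ 2 * (C1 / D.ep) := by
    have h3 := hHN U le_rfl
    have h4 : c * U = 2 * I U / U := by rw [hc]; field_simp
    rw [h4, div_le_iff₀ hU0]
    nlinarith
  have hcL : c ≤ 4 * C1 / (D.ep * L) := by
    rw [le_div_iff₀ (by positivity)]
    have h3 : c * L ≤ 2 * (c * U) := by nlinarith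
    have h4 : c * L ≤ 4 * (C1 / D.ep) := by linarith
    have h5 : D.ep * (c * L) ≤ D.ep * (4 * (C1 / D.ep)) := mul_le_mul_of_nonneg_left h4 hep.le
    have h6 : D.ep * (4 * (C1 / D.ep)) = 4 * C1 := by field_simp
    nlinarith
  refine ⟨c, hc0, hcL.trans ?_, fun u hu huU => ⟨?_, ?_⟩⟩
  · refine div_le_div_of_nonneg_right ?_ (by positivity)
    nlinarith [mul_pos hC2 hC1]
  · have h3 : 0 ≤ c * u := by positivity
    have h4 : c * u ≤ c * U := mul_le_mul_of_nonneg_left huU hc0
    have h5 := hHN u huU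
    have h6 := hHN0 u
    have h7 : (4 * C1 + 2 * (C2 * C1)) / D.ep = 4 * (C1 / D.ep) + 2 * (C2 * C1) / D.ep := by
      ring
    have h8 : 0 ≤ 2 * (C2 * C1) / D.ep := by positivity
    have h9 : 0 < C1 / D.ep := by positivity
    rw [h7, abs_le]
    constructor <;> linarith
  · -- the main bound
    have hK : 0 ≤ C2 * C1 * L := by positivity
    set G : ℝ → ℝ := fun v => I v / v ^ 2 - I u / u ^ 2 with hG
    set B : ℝ → ℝ := fun v => C2 * C1 * L / 2 * (1 / u ^ 2 - 1 / v ^ 2) with hB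
    have hcont : ContinuousOn G (Icc u U) := by
      refine ContinuousOn.sub (ContinuousOn.div (M3_I_cont D T _).continuousOn
        (continuous_pow 2).continuousOn ?_) continuousOn_const
      intro v hv
      have : 0 < v := lt_of_lt_of_le hu hv.1
      positivity
    have hderiv : ∀ v ∈ Ico u U, HasDerivWithinAt G
        ((HN D T v * v ^ 2 - I v * (2 * v)) / (v ^ 2) ^ 2) (Ici v) v := by
      intro v hv
      have hv0 : 0 < v := lt_of_lt_of_le hu hv.1
      have hd1 : HasDerivWithinAt I (HN D T v) (Ici v) v := M3_I_deriv D T hv.2.le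
      have hd2 : HasDerivWithinAt (fun v : ℝ => v ^ 2) (2 * v) (Ici v) v := by
        have := (hasDerivAt_pow 2 v).hasDerivWithinAt (s := Ici v)
        simpa using this
      exact (hd1.fun_div hd2 (by positivity)).sub_const _
    have hBcont : ContinuousOn B (Icc u U) := by
      refine ContinuousOn.mul continuousOn_const (ContinuousOn.sub continuousOn_const
        (ContinuousOn.div continuousOn_const (continuous_pow 2).continuousOn ?_))
      intro v hv
      have : 0 < v := lt_of_lt_of_le hu hv.1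
      positivity
    have hBderiv : ∀ v ∈ Ico u U, HasDerivWithinAt B (C2 * C1 * L / v ^ 3) (Ici v) v := by
      intro v hv
      have hv0 : 0 < v := lt_of_lt_of_le hu hv.1
      have hd2 : HasDerivWithinAt (fun v : ℝ => v ^ 2) (2 * v) (Ici v) v := by
        have := (hasDerivAt_pow 2 v).hasDerivWithinAt (s := Ici v)
        simpa using this
      have hd3 := (((hasDerivWithinAt_const v (Ici v) (1:ℝ)).fun_div hd2
        (by positivity)).const_sub (1 / u ^ 2)).const_mul (C2 * C1 * L / 2)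
      have hval : C2 * C1 * L / 2 * -((0 * v ^ 2 - 1 * (2 * v)) / (v ^ 2) ^ 2) =
          C2 * C1 * L / v ^ 3 := by
        field_simp
        ring
      rw [hval] at hd3
      exact hd3
    have hbound : ∀ v ∈ Ico u U, ‖(HN D T v * v ^ 2 - I v * (2 * v)) / (v ^ 2) ^ 2‖ ≤
        C2 * C1 * L / v ^ 3 := by
      intro v hv
      have hv0 : 0 < v := lt_of_lt_of_le hu hv.1
      have h3 := hfe v hv0 hv.2.le
      have h4 : (HN D T v * v ^ 2 - I v * (2 * v)) / (v ^ 2) ^ 2 =
          (v * HN D T v - 2 * I v) / v ^ 3 := by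
        field_simp
      rw [h4, Real.norm_eq_abs, abs_div, abs_of_pos (show 0 < v ^ 3 by positivity)]
      exact div_le_div_of_nonneg_right h3 (by positivity)
    have hfin := image_norm_le_of_norm_deriv_right_le_deriv_boundary' hcont hderiv
      (B := B) (B' := fun v => C2 * C1 * L / v ^ 3)
      (by simp only [hG, hB, sub_self, norm_zero, mul_zero, le_refl]) hBcont hBderiv hbound
      (show U ∈ Icc u U from ⟨huU, le_rfl⟩)
    simp only [hG, hB] at hfin
    rw [Real.norm_eq_abs] at hfin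
    have h3 : |I U / U ^ 2 - I u / u ^ 2| ≤ C2 * C1 * L / 2 * (1 / u ^ 2) := by
      refine hfin.trans ?_
      refine mul_le_mul_of_nonneg_left ?_ (by positivity)
      have : 0 ≤ 1 / U ^ 2 := by positivity
      linarith
    have h4 : |c * u ^ 2 - 2 * I u| ≤ C2 * C1 * L := by
      have e : c * u ^ 2 - 2 * I u = 2 * u ^ 2 * (I U / U ^ 2 - I u / u ^ 2) := by
        rw [hc]; field_simp
      rw [e, abs_mul, abs_of_nonneg (show 0 ≤ 2 * u ^ 2 by positivity)]
      have := mul_le_mul_of_nonneg_left h3 (show 0 ≤ 2 * u ^ 2 by positivity)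
      refine this.trans (le_of_eq ?_)
      field_simp
    have h5 := hfe u hu huU
    have h6 : |u * (HN D T u - c * u)| ≤ 2 * (C2 * C1 * L) := by
      have e : u * (HN D T u - c * u) =
          (u * HN D T u - 2 * I u) - (c * u ^ 2 - 2 * I u) := by ring
      rw [e]
      refine (abs_sub _ _).trans ?_
      linarith
    rw [abs_mul, abs_of_pos hu] at h6
    rw [le_div_iff₀ hu]
    have h7 : 0 ≤ 4 * C1 * L := by positivity
    nlinarith

end Pool.Agent.AHD
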