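import Pool.Agent.ZGap.AH.M2
import Pool.Agent.ZGap.AH.M3

/-!
# Bound of the diagonal term
-/

open scoped ContDiff

namespace Pool.Agent.AHD

open Complex MeasureTheory Set Pool.Agent.Hadamard Pool.Agent.HalfGap

lemma M4_abel (h : ℕ → ℝ) (c A B α U : ℝ) (hα : 0 < α) (hA : 0 < A) (hB : 0 < B)
    (hU : 0 < U)
    (hE : ∀ u : ℝ, 0 < u → u ≤ U →
      |∑ n ∈ Finset.Icc 1 ⌊Real.exp u⌋₊, h n - c * u| ≤ A ∧
      |∑ n ∈ Finset.Icc 1 ⌊Real.exp u⌋₊, h n - c * u| ≤ B / u) :
    ‖∑ n ∈ Finset.Icc 1 ⌊Real.exp U⌋₊, (h n : ℂ) * zp α n -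
      (c : ℂ) * ((Complex.exp (((α * U : ℝ) : ℂ) * I) - 1) / (α * I))‖ ≤
      B / U + 2 * α * B * Real.log (1 + A * U / B) := by
  set b : ℝ := Real.exp U with hb
  have hb1 : 1 < b := by rw [hb]; exact Real.one_lt_exp_iff.mpr hU
  have hb0 : 0 < b := by linarith
  have hlogb : Real.log b = U := by rw [hb, Real.log_exp]
  set f : ℝ → ℂ := fun t => Complex.exp (((α * Real.log t : ℝ) : ℂ) * I) with hf
  set g : ℕ → ℂ := fun n => if n = 0 then 0 else (h n : ℂ) with hg
  have hderiv : ∀ t : ℝ, 0 < t → HasDerivAt f (((α / t : ℝ) : ℂ) * I * f t) t := by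
    intro t ht
    have h1 : HasDerivAt (fun t : ℝ => α * Real.log t) (α / t) t := by
      have := (Real.hasDerivAt_log ht.ne').const_mul α
      simpa [div_eq_mul_inv] using this
    have h2 : HasDerivAt (fun t : ℝ => (((α * Real.log t : ℝ)) : ℂ) * I)
        (((α / t : ℝ) : ℂ) * I) t := (h1.ofReal_comp).mul_const I
    have h3 := h2.cexp
    have h4 : HasDerivAt f _ t := h3
    refine h4.congr_deriv ?_
    rw [hf]
    ring
  have hnf : ∀ t : ℝ, ‖f t‖ = 1 := by
    intro t
    rw [hf]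
    exact Complex.norm_exp_ofReal_mul_I _
  have hcont : ContinuousOn (fun t : ℝ => ((α / t : ℝ) : ℂ) * I * f t) (Set.Icc 1 b) := by
    intro t ht
    have ht0 : (0:ℝ) < t := lt_of_lt_of_le one_pos ht.1
    have h1 : ContinuousAt f t := (hderiv t ht0).continuousAt
    have h2 : ContinuousAt (fun t : ℝ => ((α / t : ℝ) : ℂ)) t := by
      have : ContinuousAt (fun t : ℝ => (α / t : ℝ)) t := by
        exact continuousAt_const.div continuousAt_id ht0.ne'
      exact Complex.continuous_ofReal.continuousAt.comp this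
    exact ((h2.mul continuousAt_const).mul h1).continuousWithinAt
  have hderivEq : ∀ t ∈ Set.Icc 1 b, deriv f t = ((α / t : ℝ) : ℂ) * I * f t := by
    intro t ht
    exact (hderiv t (lt_of_lt_of_le one_pos ht.1)).deriv
  have hint : IntegrableOn (deriv f) (Set.Icc 1 b) := by
    refine (hcont.integrableOn_Icc).congr_fun ?_ measurableSet_Icc
    intro t ht
    exact (hderivEq t ht).symm
  have habel := sum_mul_eq_sub_integral_mul₀ (𝕜 := ℂ) (f := f) g (by simp [hg]) b
    (fun t ht => (hderiv t (lt_of_lt_of_le one_pos ht.1)).differentiableAt) hint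
  -- the partial sums
  have hS : ∀ N : ℕ, ∑ k ∈ Finset.Icc 0 N, g k = ((∑ n ∈ Finset.Icc 1 N, h n : ℝ) : ℂ) := by
    intro N
    have h1 : Finset.Icc 0 N = insert 0 (Finset.Icc 1 N) := by
      ext k
      simp only [Finset.mem_Icc, Finset.mem_insert]
      omega
    rw [h1, Finset.sum_insert (by simp)]
    push_cast
    rw [hg]
    simp only [if_true, zero_add]
    refine Finset.sum_congr rfl ?_
    intro k hk
    have : k ≠ 0 := by
      have := (Finset.mem_Icc.mp hk).1
      omega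
    simp [this]
  have hL : ∑ k ∈ Finset.Icc 0 ⌊b⌋₊, f k * g k =
      ∑ n ∈ Finset.Icc 1 ⌊b⌋₊, (h n : ℂ) * zp α n := by
    have h1 : Finset.Icc 0 ⌊b⌋₊ = insert 0 (Finset.Icc 1 ⌊b⌋₊) := by
      ext k
      simp only [Finset.mem_Icc, Finset.mem_insert]
      omega
    rw [h1, Finset.sum_insert (by simp)]
    have h0 : g 0 = 0 := by simp [hg]
    rw [h0, mul_zero, zero_add]
    refine Finset.sum_congr rfl ?_
    intro k hk
    have : k ≠ 0 := by
      have := (Finset.mem_Icc.mp hk).1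
      omega
    simp only [hg, this, if_false, hf]
    unfold zp
    rw [mul_comm]
  rw [hL, hS] at habel
  -- the antiderivative of the main part
  have hαI : (α : ℂ) * I ≠ 0 := by
    simp [hα.ne']
  set G : ℝ → ℂ := fun t => f t * ((c * Real.log t : ℝ) : ℂ) - (c : ℂ) * f t / (α * I) with hG
  have hGd : ∀ t : ℝ, 0 < t →
      HasDerivAt G (((α / t : ℝ) : ℂ) * I * f t * ((c * Real.log t : ℝ) : ℂ)) t := by
    intro t ht
    have h1 : HasDerivAt (fun t : ℝ => c * Real.log t) (c / t) t := by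
      have := (Real.hasDerivAt_log ht.ne').const_mul c
      simpa [div_eq_mul_inv] using this
    have h2 : HasDerivAt (fun t : ℝ => ((c * Real.log t : ℝ) : ℂ)) ((c / t : ℝ) : ℂ) t :=
      h1.ofReal_comp
    have h3 := (hderiv t ht).mul h2
    have h4 := ((hderiv t ht).const_mul (c : ℂ)).div_const ((α : ℂ) * I)
    have h5 : HasDerivAt G _ t := h3.sub h4
    refine h5.congr_deriv ?_
    have htc : (t : ℂ) ≠ 0 := by exact_mod_cast ht.ne'
    have hαc : (α : ℂ) ≠ 0 := by exact_mod_cast hα.ne'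
    have hI : I ≠ 0 := I_ne_zero
    have h6 : (c : ℂ) * (((α / t : ℝ) : ℂ) * I * f t) / ((α : ℂ) * I) =
        f t * ((c / t : ℝ) : ℂ) := by
      rw [div_eq_iff hαI]
      push_cast
      field_simp
    rw [h6]
    ring
  have hcont2 : ContinuousOn
      (fun t : ℝ => ((α / t : ℝ) : ℂ) * I * f t * ((c * Real.log t : ℝ) : ℂ)) (Set.Icc 1 b) := by
    refine hcont.mul ?_
    intro t ht
    have ht0 : (0:ℝ) < t := lt_of_lt_of_le one_pos ht.1
    have : ContinuousAt (fun t : ℝ => (c * Real.log t : ℝ)) t :=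
      continuousAt_const.mul (Real.continuousAt_log ht0.ne')
    exact (Complex.continuous_ofReal.continuousAt.comp this).continuousWithinAt
  have hmain : ∫ t in Set.Ioc 1 b, ((α / t : ℝ) : ℂ) * I * f t * ((c * Real.log t : ℝ) : ℂ) =
      G b - G 1 := by
    rw [← intervalIntegral.integral_of_le hb1.le]
    refine intervalIntegral.integral_eq_sub_of_hasDerivAt ?_ ?_
    · intro t ht
      rw [Set.uIcc_of_le hb1.le] at ht
      exact hGd t (lt_of_lt_of_le one_pos ht.1)
    · rw [intervalIntegrable_iff_integrableOn_Icc_of_le hb1.le]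
      exact hcont2.integrableOn_Icc
  -- splitting of the integral
  have hintS : IntegrableOn (fun t => deriv f t * ∑ k ∈ Finset.Icc 0 ⌊t⌋₊, g k) (Set.Icc 1 b) :=
    integrableOn_mul_sum_Icc g zero_le_one hint
  have hsplit : ∫ t in Set.Ioc 1 b, deriv f t * ∑ k ∈ Finset.Icc 0 ⌊t⌋₊, g k =
      (∫ t in Set.Ioc 1 b, ((α / t : ℝ) : ℂ) * I * f t * ((c * Real.log t : ℝ) : ℂ)) +
      ∫ t in Set.Ioc 1 b, (deriv f t * ∑ k ∈ Finset.Icc 0 ⌊t⌋₊, g k -
        ((α / t : ℝ) : ℂ) * I * f t * ((c * Real.log t : ℝ) : ℂ)) := by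
    have hi1 : IntegrableOn (fun t => deriv f t * ∑ k ∈ Finset.Icc 0 ⌊t⌋₊, g k) (Set.Ioc 1 b) :=
      hintS.mono_set Set.Ioc_subset_Icc_self
    have hi2 : IntegrableOn (fun t : ℝ => ((α / t : ℝ) : ℂ) * I * f t *
        ((c * Real.log t : ℝ) : ℂ)) (Set.Ioc 1 b) :=
      (hcont2.integrableOn_Icc).mono_set Set.Ioc_subset_Icc_self
    rw [integral_sub hi1 hi2]
    ring
  -- the bound of the error
  have hbd : ‖∫ t in Set.Ioc 1 b, (deriv f t * ∑ k ∈ Finset.Icc 0 ⌊t⌋₊, g k -
        ((α / t : ℝ) : ℂ) * I * f t * ((c * Real.log t : ℝ) : ℂ))‖ ≤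
      2 * α * B * Real.log (1 + A * U / B) := by
    have hmaj : ∫ t in Set.Ioc 1 b, 2 * α * B * (A / t / (B + A * Real.log t)) =
        2 * α * B * Real.log (B + A * Real.log b) - 2 * α * B * Real.log (B + A * Real.log 1) := by
      rw [← intervalIntegral.integral_of_le hb1.le]
      refine intervalIntegral.integral_eq_sub_of_hasDerivAt
        (f := fun t => 2 * α * B * Real.log (B + A * Real.log t)) ?_ ?_
      · intro t ht
        rw [Set.uIcc_of_le hb1.le] at ht
        have ht0 : (0:ℝ) < t := lt_of_lt_of_le one_pos ht.1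
        have hlog : 0 ≤ Real.log t := Real.log_nonneg ht.1
        have hpos : 0 < B + A * Real.log t := by positivity
        have h1 : HasDerivAt (fun t : ℝ => B + A * Real.log t) (A / t) t := by
          have := ((Real.hasDerivAt_log ht0.ne').const_mul A).const_add B
          simpa [div_eq_mul_inv] using this
        exact (h1.log hpos.ne').const_mul _
      · rw [intervalIntegrable_iff_integrableOn_Icc_of_le hb1.le]
        refine ContinuousOn.integrableOn_Icc ?_
        intro t ht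
        have ht0 : (0:ℝ) < t := lt_of_lt_of_le one_pos ht.1
        have hlog : 0 ≤ Real.log t := Real.log_nonneg ht.1
        have hpos : 0 < B + A * Real.log t := by positivity
        have h1 : ContinuousAt (fun t : ℝ => B + A * Real.log t) t :=
          continuousAt_const.add (continuousAt_const.mul (Real.continuousAt_log ht0.ne'))
        have h2 : ContinuousAt (fun t : ℝ => A / t) t :=
          continuousAt_const.div continuousAt_id ht0.ne'
        exact (continuousAt_const.mul (h2.div h1 hpos.ne')).continuousWithinAt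
    have hint3 : IntegrableOn (fun t : ℝ => 2 * α * B * (A / t / (B + A * Real.log t)))
        (Set.Ioc 1 b) := by
      refine IntegrableOn.mono_set ?_ Set.Ioc_subset_Icc_self
      refine ContinuousOn.integrableOn_Icc ?_
      intro t ht
      have ht0 : (0:ℝ) < t := lt_of_lt_of_le one_pos ht.1
      have hlog : 0 ≤ Real.log t := Real.log_nonneg ht.1
      have hpos : 0 < B + A * Real.log t := by positivity
      have h1 : ContinuousAt (fun t : ℝ => B + A * Real.log t) t :=
        continuousAt_const.add (continuousAt_const.mul (Real.continuousAt_log ht0.ne'))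
      have h2 : ContinuousAt (fun t : ℝ => A / t) t :=
        continuousAt_const.div continuousAt_id ht0.ne'
      exact (continuousAt_const.mul (h2.div h1 hpos.ne')).continuousWithinAt
    have hle := MeasureTheory.norm_integral_le_of_norm_le hint3
      (f := fun t => (deriv f t * ∑ k ∈ Finset.Icc 0 ⌊t⌋₊, g k -
        ((α / t : ℝ) : ℂ) * I * f t * ((c * Real.log t : ℝ) : ℂ))) (by
        refine (ae_restrict_iff' measurableSet_Ioc).mpr (Filter.Eventually.of_forall ?_)
        intro t ht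
        have ht0 : (0:ℝ) < t := lt_trans one_pos ht.1
        have hlog : 0 < Real.log t := Real.log_pos ht.1
        have hlogU : Real.log t ≤ U := by
          rw [← hlogb]; exact Real.log_le_log ht0 ht.2
        have hE' := hE (Real.log t) hlog hlogU
        rw [Real.exp_log ht0] at hE'
        rw [hderivEq t ⟨ht.1.le, ht.2⟩, hS, ← mul_sub, norm_mul, norm_mul, norm_mul, hnf,
          Complex.norm_I, mul_one, mul_one, ← Complex.ofReal_sub, Complex.norm_real,
          Complex.norm_real, Real.norm_eq_abs, Real.norm_eq_abs, abs_of_pos (div_pos hα ht0)]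
        set e : ℝ := |∑ n ∈ Finset.Icc 1 ⌊t⌋₊, h n - c * Real.log t| with he
        have hpos : 0 < B + A * Real.log t := by positivity
        have h1 : e * Real.log t ≤ B := by
          have := hE'.2
          rwa [le_div_iff₀ hlog] at this
        have h2 : e * (B + A * Real.log t) ≤ 2 * A * B := by
          have h3 := mul_le_mul_of_nonneg_right hE'.1 hB.le
          have h4 := mul_le_mul_of_nonneg_left h1 hA.le
          nlinarith
        have h3 : e ≤ 2 * A * B / (B + A * Real.log t) := by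
          rw [le_div_iff₀ hpos]; exact h2
        calc α / t * e ≤ α / t * (2 * A * B / (B + A * Real.log t)) :=
              mul_le_mul_of_nonneg_left h3 (by positivity)
          _ = 2 * α * B * (A / t / (B + A * Real.log t)) := by
              field_simp)
    refine hle.trans (le_of_eq ?_)
    rw [hmaj, hlogb, Real.log_one, mul_zero, add_zero, ← mul_sub,
      ← Real.log_div (by positivity) hB.ne']
    congr 2
    field_simp
  have hEb := (hE U hU le_rfl).2
  have hfb : f b = Complex.exp (((α * U : ℝ) : ℂ) * I) := by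
    rw [hf]; simp only [hlogb]
  have hf1 : f 1 = 1 := by
    rw [hf]; simp
  have hGb : G b = f b * ((c * U : ℝ) : ℂ) - (c : ℂ) * f b / (α * I) := by
    rw [hG]; simp only [hlogb]
  have hG1 : G 1 = - ((c : ℂ) / (α * I)) := by
    rw [hG]; simp only [hf1, Real.log_one, mul_zero, Complex.ofReal_zero, mul_one, zero_sub]
  rw [habel, hsplit, hmain, hGb, hG1, ← hfb]
  set W := ∫ t in Set.Ioc 1 b, (deriv f t * ∑ k ∈ Finset.Icc 0 ⌊t⌋₊, g k -
        ((α / t : ℝ) : ℂ) * I * f t * ((c * Real.log t : ℝ) : ℂ)) with hW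
  have hrw : f b * ((∑ n ∈ Finset.Icc 1 ⌊b⌋₊, h n : ℝ) : ℂ) -
      (f b * ((c * U : ℝ) : ℂ) - (c : ℂ) * f b / (α * I) - - ((c : ℂ) / (α * I)) + W) -
      (c : ℂ) * ((f b - 1) / (α * I)) =
      f b * ((∑ n ∈ Finset.Icc 1 ⌊b⌋₊, h n - c * U : ℝ) : ℂ) - W := by
    rw [Complex.ofReal_sub]
    ring
  rw [hrw]
  refine (norm_sub_le _ _).trans (add_le_add ?_ hbd)
  rw [norm_mul, hnf, one_mul, Complex.norm_real, Real.norm_eq_abs]
  exact hEb

lemma M4_inner {R : Type*} [CommSemiring R] (a b : ℕ → R) {k : ℕ} (hk : Squarefree k) :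
    ∑ m ∈ k.divisors, (∏ p ∈ m.primeFactors, a p) * ∏ p ∈ (k / m).primeFactors, b p =
      ∏ p ∈ k.primeFactors, (a p + b p) := by
  have h := (ArithmeticFunction.IsMultiplicative.prodPrimeFactors
    a).prodPrimeFactors_add_of_squarefree
    (ArithmeticFunction.IsMultiplicative.prodPrimeFactors b) hk
  rw [ArithmeticFunction.prodPrimeFactors_apply hk.ne_zero, ArithmeticFunction.mul_apply,
    Nat.sum_divisorsAntidiagonal (fun x y => ArithmeticFunction.prodPrimeFactors a x *
      ArithmeticFunction.prodPrimeFactors b y)] at h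
  have h1 : ∏ p ∈ k.primeFactors, (ArithmeticFunction.prodPrimeFactors a +
      ArithmeticFunction.prodPrimeFactors b) p = ∏ p ∈ k.primeFactors, (a p + b p) := by
    refine Finset.prod_congr rfl ?_
    intro p hp
    have hpp := Nat.prime_of_mem_primeFactors hp
    rw [ArithmeticFunction.add_apply, ArithmeticFunction.prodPrimeFactors_apply hpp.ne_zero,
      ArithmeticFunction.prodPrimeFactors_apply hpp.ne_zero, hpp.primeFactors,
      Finset.prod_singleton, Finset.prod_singleton]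
  rw [← h1, h]
  refine Finset.sum_congr rfl ?_
  intro m hm
  have hmk := Nat.dvd_of_mem_divisors hm
  have hm0 : m ≠ 0 := fun h0 => hk.ne_zero (by
    rw [h0] at hmk
    exact Nat.eq_zero_of_zero_dvd hmk)
  have hkm0 : k / m ≠ 0 := by
    have := Nat.div_pos (Nat.le_of_dvd (Nat.pos_of_ne_zero hk.ne_zero) hmk)
      (Nat.pos_of_ne_zero hm0)
    omega
  rw [ArithmeticFunction.prodPrimeFactors_apply hm0,
    ArithmeticFunction.prodPrimeFactors_apply hkm0]

/-- `μ(m) = ∏_{p ∣ m} (-1)` for squarefree `m`. -/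
lemma M4_moebius {m : ℕ} (hm : Squarefree m) :
    ArithmeticFunction.moebius m = ∏ _p ∈ m.primeFactors, (-1 : ℤ) := by
  rw [ArithmeticFunction.moebius_apply_of_squarefree hm, Finset.prod_const,
    ArithmeticFunction.cardFactors_apply]
  congr 1
  rw [Nat.primeFactors, List.card_toFinset]
  congr 1
  rw [List.dedup_eq_self.mpr]
  exact (Nat.squarefree_iff_nodup_primeFactorsList hm.ne_zero).mp hm

/-- the terms of the diagonal -/
noncomputable def M4_T (D : AData) (T α : ℝ) (k : ℕ) : ℂ :=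
  (av D T k : ℂ) / k *
      ∑ m ∈ k.divisors, (av D T m : ℂ) * ∏ p ∈ (k / m).primeFactors, (1 - zp α p)

lemma M4_av_nsq (D : AData) (T : ℝ) {k : ℕ} (hk : ¬ Squarefree k) : av D T k = 0 := by
  unfold av
  rw [ArithmeticFunction.moebius_eq_zero_of_not_squarefree hk]
  simp

lemma M4_T_nsq (D : AData) (T α : ℝ) {k : ℕ} (hk : ¬ Squarefree k) : M4_T D T α k = 0 := by
  unfold M4_T
  rw [M4_av_nsq D T hk]
  simp

lemma M4_av_one (D : AData) (T : ℝ) {m : ℕ} (hm : Squarefree m)
    (hF : D.F (Real.log m / Real.log T) = 1) :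
    av D T m = ∏ p ∈ m.primeFactors, (- D.f (xip T p)) := by
  unfold av xip
  rw [M4_moebius hm, hF, mul_one]
  push_cast
  rw [← Finset.prod_mul_distrib]
  refine Finset.prod_congr rfl ?_
  intro p _
  ring

lemma M4_av_abs (D : AData) (T : ℝ) (m : ℕ) :
    |av D T m| ≤ ∏ p ∈ m.primeFactors, D.f (xip T p) := by
  unfold av xip
  have h0 : 0 ≤ ∏ p ∈ m.primeFactors, D.f (Real.log p / Real.log T) :=
    Finset.prod_nonneg (fun p _ => D.f_nonneg _)
  rw [abs_mul, abs_mul, abs_of_nonneg h0, abs_of_nonneg (D.F_nonneg _)]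
  have h1 : |((ArithmeticFunction.moebius m : ℤ) : ℝ)| ≤ 1 := by
    have := ArithmeticFunction.abs_moebius_le_one (n := m)
    exact_mod_cast this
  have h2 := D.F_le (Real.log m / Real.log T)
  have h3 := D.F_nonneg (Real.log m / Real.log T)
  calc |((ArithmeticFunction.moebius m : ℤ) : ℝ)| *
        (∏ p ∈ m.primeFactors, D.f (Real.log p / Real.log T)) * D.F (Real.log m / Real.log T)
      ≤ 1 * (∏ p ∈ m.primeFactors, D.f (Real.log p / Real.log T)) * 1 := by
        gcongr
    _ = _ := by ring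

lemma M4_zp {α : ℝ} (hα : 0 ≤ α) (p : ℕ) : ‖1 - zp α p‖ ≤ α * Real.log p := by
  unfold zp
  rw [norm_sub_rev, mul_comm]
  refine (Real.norm_exp_I_mul_ofReal_sub_one_le).trans ?_
  rw [Real.norm_eq_abs, abs_of_nonneg (mul_nonneg hα (Real.log_natCast_nonneg p))]

/-- the general bound of the terms -/
lemma M4_T_le (D : AData) (T α : ℝ) (hT : 1 < T) (hα : 0 ≤ α) (hα4 : α * Real.log T ≤ 4)
    (k : ℕ) (hk1 : 1 ≤ k) : ‖M4_T D T α k‖ ≤ Gb D T k ^ 2 / k := by
  have hL : 0 < Real.log T := Real.log_pos hT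
  have hx0 : ∀ p : ℕ, 0 ≤ xip T p := fun p => by
    unfold xip
    exact div_nonneg (Real.log_natCast_nonneg p) hL.le
  have hz : ∀ p : ℕ, ‖1 - zp α p‖ ≤ 4 * xip T p := by
    intro p
    refine (M4_zp hα p).trans ?_
    unfold xip
    rw [mul_div_assoc', le_div_iff₀ hL]
    have := Real.log_natCast_nonneg p
    nlinarith
  have hGb : ∏ p ∈ k.primeFactors, (D.f (xip T p) + 4 * xip T p) ≤ Gb D T k := by
    unfold Gb Gp
    refine Finset.prod_le_prod ?_ ?_
    · intro p _
      have := D.f_nonneg (xip T p)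
      have := hx0 p
      positivity
    · intro p _
      have := hx0 p
      linarith
  have hGb2 : ∏ p ∈ k.primeFactors, D.f (xip T p) ≤ Gb D T k := by
    unfold Gb Gp
    refine Finset.prod_le_prod ?_ ?_
    · intro p _
      exact D.f_nonneg (xip T p)
    · intro p _
      have := hx0 p
      linarith
  have hk0 : (0:ℝ) < k := by exact_mod_cast hk1
  by_cases hk : Squarefree k
  · unfold M4_T
    rw [norm_mul, norm_div, Complex.norm_real, Real.norm_eq_abs, Complex.norm_natCast]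
    have h1 : ‖∑ m ∈ k.divisors, (av D T m : ℂ) * ∏ p ∈ (k / m).primeFactors, (1 - zp α p)‖ ≤
        Gb D T k := by
      refine (norm_sum_le _ _).trans ?_
      refine le_trans ?_ hGb
      rw [← M4_inner (fun p => D.f (xip T p)) (fun p => 4 * xip T p) hk]
      refine Finset.sum_le_sum ?_
      intro m _
      rw [norm_mul, Complex.norm_real, Real.norm_eq_abs, norm_prod]
      refine mul_le_mul (M4_av_abs D T m) ?_ (Finset.prod_nonneg fun _ _ => norm_nonneg _)
        (Finset.prod_nonneg fun p _ => D.f_nonneg _)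
      exact Finset.prod_le_prod (fun p _ => norm_nonneg _) (fun p _ => hz p)
    have h2 : |av D T k| / k ≤ Gb D T k / k := by
      gcongr
      exact (M4_av_abs D T k).trans hGb2
    have hG0 : 0 ≤ Gb D T k / k := le_trans (by positivity) h2
    calc |av D T k| / k * ‖∑ m ∈ k.divisors, (av D T m : ℂ) *
          ∏ p ∈ (k / m).primeFactors, (1 - zp α p)‖ ≤ Gb D T k / k * Gb D T k :=
          mul_le_mul h2 h1 (norm_nonneg _) hG0
      _ = _ := by ring
  · rw [M4_T_nsq D T α hk, norm_zero]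
    positivity

/-- the terms below `T^{1-ep-2ep²}` -/
lemma M4_T_eq (D : AData) (T α : ℝ) (hT : 1 < T) {k : ℕ} (hk : Squarefree k)
    (hkT : Real.log k ≤ (1 - D.ep - 2 * D.ep ^ 2) * Real.log T) :
    M4_T D T α k = (1 / (k : ℂ)) * ∏ p ∈ k.primeFactors,
      ((D.f (xip T p) : ℂ) * ((D.f (xip T p) : ℂ) - 1 + zp α p)) := by
  have hL : 0 < Real.log T := Real.log_pos hT
  have hk0 : 0 < k := Nat.pos_of_ne_zero hk.ne_zero
  have hF : ∀ m : ℕ, m ∣ k → D.F (Real.log m / Real.log T) = 1 := by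
    intro m hm
    have hm0 : 0 < m := Nat.pos_of_dvd_of_pos hm hk0
    refine D.F_one _ (div_nonneg (Real.log_natCast_nonneg m) hL.le) ?_
    rw [div_le_iff₀ hL]
    refine le_trans ?_ hkT
    refine Real.log_le_log (by exact_mod_cast hm0) ?_
    exact_mod_cast Nat.le_of_dvd hk0 hm
  unfold M4_T
  have h1 : ∑ m ∈ k.divisors, (av D T m : ℂ) * ∏ p ∈ (k / m).primeFactors, (1 - zp α p) =
      ∏ p ∈ k.primeFactors, (- (D.f (xip T p) : ℂ) + (1 - zp α p)) := by
    rw [← M4_inner (fun p => - (D.f (xip T p) : ℂ)) (fun p => 1 - zp α p) hk]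
    refine Finset.sum_congr rfl ?_
    intro m hm
    have hmk := Nat.dvd_of_mem_divisors hm
    rw [M4_av_one D T (hk.squarefree_of_dvd hmk) (hF m hmk)]
    push_cast
    rfl
  rw [h1, M4_av_one D T hk (hF k dvd_rfl)]
  push_cast
  rw [div_mul_eq_mul_div, ← Finset.prod_mul_distrib, div_eq_mul_one_div, mul_comm]
  congr 1
  refine Finset.prod_congr rfl ?_
  intro p _
  ring

lemma M4_zp_prod (α : ℝ) {k : ℕ} (hk : Squarefree k) :
    zp α k = ∏ p ∈ k.primeFactors, zp α p := by
  unfold zp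
  rw [← Complex.exp_sum, ← Finset.sum_mul]
  congr 2
  rw [← Complex.ofReal_sum]
  congr 1
  rw [← Finset.mul_sum]
  congr 1
  nth_rewrite 1 [← Nat.prod_primeFactors_of_squarefree hk]
  rw [Nat.cast_prod, Real.log_prod]
  intro p hp
  exact_mod_cast (Nat.prime_of_mem_primeFactors hp).ne_zero

/-- products of close numbers are close -/
lemma M4_prod_diff {ι : Type*} (s : Finset ι) (a b : ι → ℂ) (β e : ι → ℝ)
    (hb : ∀ i ∈ s, ‖b i‖ ≤ β i) (hab : ∀ i ∈ s, ‖a i - b i‖ ≤ e i) :
    ‖∏ i ∈ s, a i - ∏ i ∈ s, b i‖ ≤ ∏ i ∈ s, (β i + e i) - ∏ i ∈ s, β i := by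
  classical
  induction s using Finset.induction_on with
  | empty => simp
  | insert i s hi ih =>
    have hb' : ∀ j ∈ s, ‖b j‖ ≤ β j := fun j hj => hb j (Finset.mem_insert_of_mem hj)
    have hab' : ∀ j ∈ s, ‖a j - b j‖ ≤ e j := fun j hj => hab j (Finset.mem_insert_of_mem hj)
    have ih' := ih hb' hab'
    rw [Finset.prod_insert hi, Finset.prod_insert hi, Finset.prod_insert hi,
      Finset.prod_insert hi]
    have hi1 := hb i (Finset.mem_insert_self i s)
    have hi2 := hab i (Finset.mem_insert_self i s)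
    have hA : ‖∏ j ∈ s, a j‖ ≤ ∏ j ∈ s, (β j + e j) := by
      rw [norm_prod]
      refine Finset.prod_le_prod (fun _ _ => norm_nonneg _) ?_
      intro j hj
      have h1 := hb' j hj
      have h2 := hab' j hj
      have h3 : ‖a j‖ ≤ ‖b j‖ + ‖a j - b j‖ := by
        have := norm_add_le (b j) (a j - b j)
        simpa using this
      linarith
    have h4 : a i * ∏ j ∈ s, a j - b i * ∏ j ∈ s, b j =
        (a i - b i) * ∏ j ∈ s, a j + b i * (∏ j ∈ s, a j - ∏ j ∈ s, b j) := by ring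
    rw [h4]
    refine (norm_add_le _ _).trans ?_
    rw [norm_mul, norm_mul]
    have h5 : ‖a i - b i‖ * ‖∏ j ∈ s, a j‖ ≤ e i * ∏ j ∈ s, (β j + e j) :=
      mul_le_mul hi2 hA (norm_nonneg _) ((norm_nonneg _).trans hi2)
    have h6 : ‖b i‖ * ‖∏ j ∈ s, a j - ∏ j ∈ s, b j‖ ≤
        β i * (∏ j ∈ s, (β j + e j) - ∏ j ∈ s, β j) :=
      mul_le_mul hi1 ih' (norm_nonneg _) ((norm_nonneg _).trans hi1)
    nlinarith

/-- sums over squarefree numbers and products -/
lemma M4_sum_sq (N : ℕ) (β e : ℕ → ℝ) (hβ : ∀ p, 0 ≤ β p) (he : ∀ p, 0 ≤ e p) :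
    ∑ k ∈ (Finset.Icc 1 N).filter Squarefree, (1 / (k : ℝ)) *
      (∏ p ∈ k.primeFactors, (β p + e p) - ∏ p ∈ k.primeFactors, β p) ≤
    ∏ p ∈ (Finset.Icc 1 N).filter Nat.Prime, (1 + (β p + e p) / p) -
      ∏ p ∈ (Finset.Icc 1 N).filter Nat.Prime, (1 + β p / p) := by
  classical
  set g : Finset ℕ → ℝ := fun S => ∏ p ∈ S, ((β p + e p) / p) - ∏ p ∈ S, (β p / p) with hg
  have hg0 : ∀ S, 0 ≤ g S := by
    intro S
    rw [hg]
    simp only [sub_nonneg]
    refine Finset.prod_le_prod ?_ ?_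
    · intro p _
      exact div_nonneg (hβ p) (Nat.cast_nonneg p)
    · intro p _
      have := he p
      gcongr
      linarith
  have h1 : ∀ k ∈ (Finset.Icc 1 N).filter Squarefree, (1 / (k : ℝ)) *
      (∏ p ∈ k.primeFactors, (β p + e p) - ∏ p ∈ k.primeFactors, β p) = g k.primeFactors := by
    intro k hk
    have hsq := (Finset.mem_filter.mp hk).2
    rw [hg]
    simp only
    rw [Finset.prod_div_distrib, Finset.prod_div_distrib, ← Nat.cast_prod,
      Nat.prod_primeFactors_of_squarefree hsq]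
    ring
  rw [Finset.sum_congr rfl h1, Finset.prod_one_add, Finset.prod_one_add,
    ← Finset.sum_sub_distrib]
  have hinj : Set.InjOn Nat.primeFactors ((Finset.Icc 1 N).filter Squarefree : Set ℕ) := by
    intro a ha b hb hab
    have ha' : Squarefree a := (Finset.mem_filter.mp ha).2
    have hb' : Squarefree b := (Finset.mem_filter.mp hb).2
    have hab' : a.primeFactors = b.primeFactors := hab
    rw [← Nat.prod_primeFactors_of_squarefree ha', hab',
      Nat.prod_primeFactors_of_squarefree hb']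
  rw [← Finset.sum_image (f := g) (s := (Finset.Icc 1 N).filter Squarefree)
    (g := Nat.primeFactors) (by exact_mod_cast hinj)]
  refine Finset.sum_le_sum_of_subset_of_nonneg ?_ (fun S _ _ => hg0 S)
  intro S hS
  obtain ⟨k, hk, rfl⟩ := Finset.mem_image.mp hS
  rw [Finset.mem_powerset]
  intro p hp
  have hk1 := (Finset.mem_Icc.mp (Finset.mem_filter.mp hk).1)
  rw [Finset.mem_filter, Finset.mem_Icc]
  have hpp := Nat.prime_of_mem_primeFactors hp
  refine ⟨⟨hpp.one_le, ?_⟩, hpp⟩
  exact (Nat.le_of_dvd (by omega) (Nat.dvd_of_mem_primeFactors hp)).trans hk1.2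

lemma M4_sum_sq2 (N : ℕ) (β e : ℕ → ℝ) (hβ : ∀ p, 0 ≤ β p) (he : ∀ p, 0 ≤ e p) :
    ∑ k ∈ (Finset.Icc 1 N).filter Squarefree, (1 / (k : ℝ)) *
      (∏ p ∈ k.primeFactors, (β p + e p) - ∏ p ∈ k.primeFactors, β p) ≤
    Real.exp (∑ p ∈ (Finset.Icc 1 N).filter Nat.Prime, β p / p) *
      (Real.exp (∑ p ∈ (Finset.Icc 1 N).filter Nat.Prime, e p / p) - 1) := by
  refine (M4_sum_sq N β e hβ he).trans ?_
  set P := (Finset.Icc 1 N).filter Nat.Prime
  have hb0 : ∀ p, 0 ≤ β p / p := fun p => div_nonneg (hβ p) (Nat.cast_nonneg p)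
  have he0 : ∀ p, 0 ≤ e p / p := fun p => div_nonneg (he p) (Nat.cast_nonneg p)
  have h1 : ∏ p ∈ P, (1 + (β p + e p) / p) ≤ (∏ p ∈ P, (1 + β p / p)) *
      ∏ p ∈ P, (1 + e p / p) := by
    rw [← Finset.prod_mul_distrib]
    refine Finset.prod_le_prod ?_ ?_
    · intro p _
      have := hb0 p
      have := he0 p
      rw [add_div]
      linarith
    · intro p _
      have h1 := hb0 p
      have h2 := he0 p
      rw [add_div]
      nlinarith [mul_nonneg h1 h2]
  have h2 : ∏ p ∈ P, (1 + e p / p) ≤ Real.exp (∑ p ∈ P, e p / p) :=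
    Real.prod_one_add_le_exp_sum P he0
  have h3 : ∏ p ∈ P, (1 + β p / p) ≤ Real.exp (∑ p ∈ P, β p / p) :=
    Real.prod_one_add_le_exp_sum P hb0
  have h4 : 0 ≤ ∏ p ∈ P, (1 + β p / p) := Finset.prod_nonneg (fun p _ => by
    have := hb0 p
    linarith)
  have h5 : 1 ≤ Real.exp (∑ p ∈ P, e p / p) := Real.one_le_exp (Finset.sum_nonneg fun p _ => he0 p)
  calc ∏ p ∈ P, (1 + (β p + e p) / p) - ∏ p ∈ P, (1 + β p / p)
      ≤ (∏ p ∈ P, (1 + β p / p)) * ∏ p ∈ P, (1 + e p / p) - ∏ p ∈ P, (1 + β p / p) := by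
        linarith
    _ = (∏ p ∈ P, (1 + β p / p)) * (∏ p ∈ P, (1 + e p / p) - 1) := by ring
    _ ≤ (∏ p ∈ P, (1 + β p / p)) * (Real.exp (∑ p ∈ P, e p / p) - 1) := by gcongr
    _ ≤ _ := by
        refine mul_le_mul_of_nonneg_right h3 (by linarith)

/-- the comparison with the sum over `H0` -/
lemma M4_comp0 (D : AData) (T α : ℝ) (hT : 1 < T) (hα : 0 ≤ α) (hα4 : α * Real.log T ≤ 4) :
    ‖∑ k ∈ Finset.Icc 1 ⌊T ^ (1 - D.ep - 2 * D.ep ^ 2)⌋₊, M4_T D T α k -
      ∑ k ∈ Finset.Icc 1 ⌊T ^ (1 - D.ep - 2 * D.ep ^ 2)⌋₊,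
        ((H0 D T k / k : ℝ) : ℂ) * zp α k‖ ≤
    Real.exp (∑ p ∈ (Finset.Icc 1 ⌊T ^ (1 - D.ep - 2 * D.ep ^ 2)⌋₊).filter Nat.Prime,
        D.f (xip T p) ^ 2 / p) *
      (Real.exp (∑ p ∈ (Finset.Icc 1 ⌊T ^ (1 - D.ep - 2 * D.ep ^ 2)⌋₊).filter Nat.Prime,
        (if xip T p ≤ 2 * D.ep then 4 * xip T p else 0) / p) - 1) := by
  have hL : 0 < Real.log T := Real.log_pos hT
  have hT0 : 0 < T := by linarith
  have hep := D.ep_pos
  have hep1 := D.ep_le
  have hx0 : ∀ p : ℕ, 0 ≤ xip T p := fun p => by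
    unfold xip
    exact div_nonneg (Real.log_natCast_nonneg p) hL.le
  set N := ⌊T ^ (1 - D.ep - 2 * D.ep ^ 2)⌋₊ with hN
  have hlogk : ∀ k ∈ Finset.Icc 1 N,
      Real.log k ≤ (1 - D.ep - 2 * D.ep ^ 2) * Real.log T := by
    intro k hk
    have hk1 := Finset.mem_Icc.mp hk
    have h1 : (k : ℝ) ≤ T ^ (1 - D.ep - 2 * D.ep ^ 2) := by
      refine (Nat.cast_le.mpr hk1.2).trans (Nat.floor_le (by positivity))
    rw [← Real.log_rpow hT0]
    exact Real.log_le_log (by exact_mod_cast hk1.1) h1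
  rw [← Finset.sum_sub_distrib]
  refine (norm_sum_le _ _).trans ?_
  have hmain := M4_sum_sq2 N (fun p => D.f (xip T p) ^ 2)
    (fun p => if xip T p ≤ 2 * D.ep then 4 * xip T p else 0) (fun p => by positivity)
    (fun p => by
      have := hx0 p
      split_ifs <;> positivity)
  refine le_trans ?_ hmain
  rw [Finset.sum_filter]
  refine Finset.sum_le_sum ?_
  intro k hk
  have hk1 := Finset.mem_Icc.mp hk
  have hk0 : (0:ℝ) < k := by exact_mod_cast hk1.1
  split_ifs with hsq
  · rw [M4_T_eq D T α hT hsq (hlogk k hk)]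
    have hmu : (ArithmeticFunction.moebius k : ℝ) ^ 2 = 1 := by
      have := ArithmeticFunction.moebius_sq_eq_one_of_squarefree hsq
      exact_mod_cast this
    have h1 : ((H0 D T k / k : ℝ) : ℂ) * zp α k = (1 / (k : ℂ)) *
        ∏ p ∈ k.primeFactors, (((D.f (xip T p) ^ 2 : ℝ) : ℂ) * zp α p) := by
      rw [Finset.prod_mul_distrib, ← M4_zp_prod α hsq]
      unfold H0
      rw [hmu, one_mul]
      push_cast
      ring
    rw [h1, ← mul_sub, norm_mul, norm_div, norm_one, Complex.norm_natCast]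
    refine mul_le_mul_of_nonneg_left ?_ (by positivity)
    refine M4_prod_diff _ _ _ _ _ ?_ ?_
    · intro p _
      rw [norm_mul, norm_zp, mul_one, Complex.norm_real, Real.norm_eq_abs,
        abs_of_nonneg (by positivity)]
    · intro p hp
      have hpk : p ≤ k := Nat.le_of_dvd hk1.1 (Nat.dvd_of_mem_primeFactors hp)
      have hpp := Nat.prime_of_mem_primeFactors hp
      have hpm : p ∈ Finset.Icc 1 N := Finset.mem_Icc.mpr ⟨hpp.one_le, hpk.trans hk1.2⟩
      have hxp : xip T p ≤ 1 - D.ep := by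
        unfold xip
        rw [div_le_iff₀ hL]
        refine (hlogk p hpm).trans ?_
        have : 0 ≤ 2 * D.ep ^ 2 * Real.log T := by positivity
        nlinarith
      have hid : (D.f (xip T p) : ℂ) * ((D.f (xip T p) : ℂ) - 1 + zp α p) -
          ((D.f (xip T p) ^ 2 : ℝ) : ℂ) * zp α p =
          ((D.f (xip T p) * (D.f (xip T p) - 1) : ℝ) : ℂ) * (1 - zp α p) := by
        push_cast
        ring
      rw [hid, norm_mul, Complex.norm_real, Real.norm_eq_abs]
      have hf0 := D.f_nonneg (xip T p)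
      have hf1 := D.f_le (xip T p)
      split_ifs with hx
      · have h2 : ‖1 - zp α p‖ ≤ 4 * xip T p := by
          refine (M4_zp hα p).trans ?_
          unfold xip
          rw [mul_div_assoc', le_div_iff₀ hL]
          have := Real.log_natCast_nonneg p
          nlinarith
        have h3 : |D.f (xip T p) * (D.f (xip T p) - 1)| ≤ 1 := by
          rw [abs_le]
          constructor <;> nlinarith
        calc |D.f (xip T p) * (D.f (xip T p) - 1)| * ‖1 - zp α p‖ ≤ 1 * (4 * xip T p) :=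
              mul_le_mul h3 h2 (norm_nonneg _) zero_le_one
          _ = _ := one_mul _
      · rw [D.f_mid (xip T p) (by linarith) hxp]
        simp
  · rw [M4_T_nsq D T α hsq]
    have : H0 D T k = 0 := by
      unfold H0
      rw [ArithmeticFunction.moebius_eq_zero_of_not_squarefree hsq]
      simp
    rw [this]
    simp

lemma M4_sumf : ∃ C : ℝ, 0 < C ∧ ∀ D : AData, ∀ T : ℝ, 1 < T → 1 ≤ D.ep * Real.log T →
    Real.exp (∑ p ∈ (Finset.Icc 1 ⌊T ^ (1 - D.ep - 2 * D.ep ^ 2)⌋₊).filter Nat.Prime,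
        D.f (xip T p) ^ 2 / p) ≤ C / D.ep := by
  obtain ⟨C, hC, hsg⟩ := sg_asymp
  refine ⟨Real.exp C, Real.exp_pos C, ?_⟩
  intro D T hT h1
  have hL : 0 < Real.log T := Real.log_pos hT
  have hT0 : 0 < T := by linarith
  have hep := D.ep_pos
  have hep1 := D.ep_le
  have hsum : ∑ p ∈ (Finset.Icc 1 ⌊T ^ (1 - D.ep - 2 * D.ep ^ 2)⌋₊).filter Nat.Prime,
        D.f (xip T p) ^ 2 / p ≤ sg T D.ep 1 := by
    unfold sg PR
    rw [Finset.sum_filter, Finset.sum_filter]
    have hsplit : ∀ p ∈ Finset.Icc 1 ⌊T ^ (1 - D.ep - 2 * D.ep ^ 2)⌋₊,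
        (if Nat.Prime p then D.f (xip T p) ^ 2 / (p : ℝ) else 0) ≤
        (if T ^ D.ep < p then (if Nat.Prime p then (1:ℝ) / p else 0) else 0) := by
      intro p hp
      have hp1 := Finset.mem_Icc.mp hp
      have hp0 : (0:ℝ) < p := by exact_mod_cast hp1.1
      by_cases hpp : Nat.Prime p
      · rw [if_pos hpp, if_pos hpp]
        split_ifs with hTp
        · have hf0 := D.f_nonneg (xip T p)
          have hf1 := D.f_le (xip T p)
          gcongr
          nlinarith
        · have hx : xip T p ≤ D.ep := by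
            unfold xip
            rw [div_le_iff₀ hL, ← Real.log_rpow hT0]
            exact Real.log_le_log hp0 (not_lt.mp hTp)
          rw [D.f_low _ hx]
          simp
      · rw [if_neg hpp, if_neg hpp]
        simp
    refine (Finset.sum_le_sum hsplit).trans ?_
    rw [← Finset.sum_filter]
    refine Finset.sum_le_sum_of_subset_of_nonneg ?_ ?_
    · intro p hp
      have hp1 := Finset.mem_Icc.mp (Finset.mem_filter.mp hp).1
      have hp2 := (Finset.mem_filter.mp hp).2
      rw [Finset.mem_Ioc]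
      constructor
      · rw [Nat.floor_lt (by positivity)]
        exact hp2
      · refine hp1.2.trans (Nat.floor_le_floor ?_)
        refine Real.rpow_le_rpow_of_exponent_le hT.le ?_
        nlinarith
    · intro p _ _
      split_ifs
      · positivity
      · exact le_rfl
  have h2 := hsg T D.ep 1 hT hep (by linarith) h1
  have h3 : C / (D.ep * Real.log T) ≤ C := by
    rw [div_le_iff₀ (by linarith)]
    nlinarith
  have h4 := (abs_le.mp h2).2
  have h5 : sg T D.ep 1 ≤ Real.log (1 / D.ep) + C := by linarith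
  calc Real.exp (∑ p ∈ (Finset.Icc 1 ⌊T ^ (1 - D.ep - 2 * D.ep ^ 2)⌋₊).filter Nat.Prime,
        D.f (xip T p) ^ 2 / p) ≤ Real.exp (Real.log (1 / D.ep) + C) :=
        Real.exp_le_exp.mpr (hsum.trans h5)
    _ = Real.exp C / D.ep := by
        rw [Real.exp_add, Real.exp_log (by positivity)]
        ring

lemma M4_sume : ∃ C : ℝ, 0 < C ∧ ∀ D : AData, ∀ T : ℝ, 1 < T →
    ∑ p ∈ (Finset.Icc 1 ⌊T ^ (1 - D.ep - 2 * D.ep ^ 2)⌋₊).filter Nat.Prime,
        (if xip T p ≤ 2 * D.ep then 4 * xip T p else 0) / p ≤ 8 * D.ep + C / Real.log T := by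
  obtain ⟨C, hC, hs⟩ := sum_log_prime
  refine ⟨4 * C, by positivity, ?_⟩
  intro D T hT
  have hL : 0 < Real.log T := Real.log_pos hT
  have hT0 : 0 < T := by linarith
  have hep := D.ep_pos
  have hep1 := D.ep_le
  have h1 := hs (T ^ (2 * D.ep)) (Real.one_le_rpow hT.le (by linarith))
  rw [Real.log_rpow hT0] at h1
  have h2 := (abs_le.mp h1).2
  have hsum : ∑ p ∈ (Finset.Icc 1 ⌊T ^ (1 - D.ep - 2 * D.ep ^ 2)⌋₊).filter Nat.Prime,
        (if xip T p ≤ 2 * D.ep then 4 * xip T p else 0) / p ≤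
      ∑ p ∈ (Finset.Icc 1 ⌊T ^ (2 * D.ep)⌋₊).filter Nat.Prime,
        (4 / Real.log T) * (Real.log p / p) := by
    rw [Finset.sum_filter, Finset.sum_filter]
    have hsplit : ∀ p ∈ Finset.Icc 1 ⌊T ^ (1 - D.ep - 2 * D.ep ^ 2)⌋₊,
        (if Nat.Prime p then (if xip T p ≤ 2 * D.ep then 4 * xip T p else 0) / (p : ℝ) else 0) ≤
        (if (p : ℝ) ≤ T ^ (2 * D.ep) then
          (if Nat.Prime p then (4 / Real.log T) * (Real.log p / p) else 0) else 0) := by
      intro p hp
      have hp1 := Finset.mem_Icc.mp hp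
      have hp0 : (0:ℝ) < p := by exact_mod_cast hp1.1
      by_cases hpp : Nat.Prime p
      · rw [if_pos hpp, if_pos hpp]
        by_cases hx : xip T p ≤ 2 * D.ep
        · have hTp : (p : ℝ) ≤ T ^ (2 * D.ep) := by
            unfold xip at hx
            rw [div_le_iff₀ hL, ← Real.log_rpow hT0] at hx
            exact (Real.log_le_log_iff hp0 (by positivity)).mp hx
          rw [if_pos hx, if_pos hTp]
          unfold xip
          apply le_of_eq
          ring
        · rw [if_neg hx, zero_div]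
          have := Real.log_natCast_nonneg p
          split_ifs
          · positivity
          · exact le_rfl
      · rw [if_neg hpp, if_neg hpp]
        simp
    refine (Finset.sum_le_sum hsplit).trans ?_
    rw [← Finset.sum_filter]
    refine Finset.sum_le_sum_of_subset_of_nonneg ?_ ?_
    · intro p hp
      have hp1 := Finset.mem_Icc.mp (Finset.mem_filter.mp hp).1
      have hp2 := (Finset.mem_filter.mp hp).2
      rw [Finset.mem_Icc]
      exact ⟨hp1.1, Nat.le_floor hp2⟩
    · intro p _ _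
      have := Real.log_natCast_nonneg p
      split_ifs
      · positivity
      · exact le_rfl
  refine hsum.trans ?_
  rw [← Finset.mul_sum]
  have h3 : ∑ p ∈ (Finset.Icc 1 ⌊T ^ (2 * D.ep)⌋₊).filter Nat.Prime, Real.log p / p ≤
      2 * D.ep * Real.log T + C := by linarith
  calc (4 / Real.log T) * ∑ p ∈ (Finset.Icc 1 ⌊T ^ (2 * D.ep)⌋₊).filter Nat.Prime,
        Real.log p / p ≤ (4 / Real.log T) * (2 * D.ep * Real.log T + C) := by gcongr
    _ = _ := by
        field_simp
        ring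

lemma M4_comp : ∃ C : ℝ, 0 < C ∧ ∀ D : AData, ∃ T0 : ℝ, ∀ T : ℝ, T0 ≤ T → ∀ α : ℝ, 0 ≤ α →
    α * Real.log T ≤ 4 →
    ‖∑ k ∈ Finset.Icc 1 ⌊T ^ (1 - D.ep - 2 * D.ep ^ 2)⌋₊, M4_T D T α k -
      ∑ k ∈ Finset.Icc 1 ⌊T ^ (1 - D.ep - 2 * D.ep ^ 2)⌋₊,
        ((H0 D T k / k : ℝ) : ℂ) * zp α k‖ ≤ C := by
  obtain ⟨C1, hC1, h1⟩ := M4_sumf
  obtain ⟨C2, hC2, h2⟩ := M4_sume
  refine ⟨18 * C1, by positivity, ?_⟩
  intro D
  have hep := D.ep_pos
  have hep1 := D.ep_le
  refine ⟨Real.exp ((C2 + 1) / D.ep), ?_⟩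
  intro T hT α hα hα4
  have hL : (C2 + 1) / D.ep ≤ Real.log T := by
    rw [Real.le_log_iff_exp_le (lt_of_lt_of_le (Real.exp_pos _) hT)]
    exact hT
  have hL0 : 0 < Real.log T := lt_of_lt_of_le (by positivity) hL
  have hT1 : 1 < T := by
    have : 1 < Real.exp ((C2 + 1) / D.ep) := Real.one_lt_exp_iff.mpr (by positivity)
    linarith
  have hepL : C2 + 1 ≤ D.ep * Real.log T := by
    rw [div_le_iff₀ hep] at hL
    linarith
  refine (M4_comp0 D T α hT1 hα hα4).trans ?_
  have h3 := h1 D T hT1 (by linarith)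
  have h4 := h2 D T hT1
  have h5 : C2 / Real.log T ≤ D.ep := by
    rw [div_le_iff₀ hL0]
    linarith
  set Se := ∑ p ∈ (Finset.Icc 1 ⌊T ^ (1 - D.ep - 2 * D.ep ^ 2)⌋₊).filter Nat.Prime,
        (if xip T p ≤ 2 * D.ep then 4 * xip T p else 0) / (p : ℝ) with hSe
  have hSe0 : 0 ≤ Se := by
    rw [hSe]
    refine Finset.sum_nonneg ?_
    intro p _
    have : 0 ≤ xip T p := by
      unfold xip
      exact div_nonneg (Real.log_natCast_nonneg p) hL0.le
    split_ifs <;> positivity
  have h6 : Real.exp Se - 1 ≤ 18 * D.ep := by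
    have h7 : Se ≤ 9 * D.ep := by linarith
    have h8 := Real.abs_exp_sub_one_le (x := Se) (by
      rw [abs_of_nonneg hSe0]
      linarith)
    rw [abs_of_nonneg hSe0] at h8
    have h9 := (abs_le.mp h8).2
    linarith
  calc _ ≤ (C1 / D.ep) * (18 * D.ep) := by
        refine mul_le_mul h3 h6 ?_ (by positivity)
        have := Real.one_le_exp hSe0
        linarith
    _ = 18 * C1 := by
        field_simp

/-- the imaginary part of the main term -/
lemma M4_im (c α U τ : ℝ) (hα : 0 < α) (hc : 0 ≤ c) :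
    (Complex.exp (((Real.pi * τ : ℝ) : ℂ) * I) *
      ((c : ℂ) * ((Complex.exp (((α * U : ℝ) : ℂ) * I) - 1) / (α * I)))).im ≤
      c / α * (2 * |Real.pi - (Real.pi * τ + α * U / 2)|) := by
  have h1 : Complex.exp (((Real.pi * τ : ℝ) : ℂ) * I) *
      ((c : ℂ) * ((Complex.exp (((α * U : ℝ) : ℂ) * I) - 1) / (α * I))) =
      ((c / α : ℝ) : ℂ) * (-I * (Complex.exp (((Real.pi * τ + α * U : ℝ) : ℂ) * I) -
        Complex.exp (((Real.pi * τ : ℝ) : ℂ) * I))) := by
    have hαc : (α : ℂ) ≠ 0 := by exact_mod_cast hα.ne'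
    have h2 : Complex.exp (((Real.pi * τ + α * U : ℝ) : ℂ) * I) =
        Complex.exp (((Real.pi * τ : ℝ) : ℂ) * I) * Complex.exp (((α * U : ℝ) : ℂ) * I) := by
      rw [← Complex.exp_add]
      congr 1
      push_cast
      ring
    rw [h2]
    have h3 : (1 : ℂ) / (α * I) = -I / α := by
      rw [div_eq_div_iff (by simp [hαc]) hαc]
      linear_combination ((α : ℂ)) * Complex.I_mul_I
    rw [div_eq_mul_one_div, h3]
    push_cast
    ring
  rw [h1, Complex.im_ofReal_mul]
  have h4 : (-I * (Complex.exp (((Real.pi * τ + α * U : ℝ) : ℂ) * I) -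
        Complex.exp (((Real.pi * τ : ℝ) : ℂ) * I))).im =
      Real.cos (Real.pi * τ) - Real.cos (Real.pi * τ + α * U) := by
    rw [neg_mul, Complex.neg_im, Complex.I_mul_im, Complex.sub_re,
      Complex.exp_ofReal_mul_I_re, Complex.exp_ofReal_mul_I_re]
    ring
  rw [h4]
  refine mul_le_mul_of_nonneg_left ?_ (by positivity)
  rw [Real.cos_sub_cos]
  have h5 : (Real.pi * τ + (Real.pi * τ + α * U)) / 2 = Real.pi * τ + α * U / 2 := by ring
  rw [h5, ← Real.sin_pi_sub]
  have h6 : |Real.sin (Real.pi - (Real.pi * τ + α * U / 2))| ≤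
      |Real.pi - (Real.pi * τ + α * U / 2)| := Real.abs_sin_le_abs
  have h7 : |Real.sin ((Real.pi * τ - (Real.pi * τ + α * U)) / 2)| ≤ 1 := Real.abs_sin_le_one _
  refine (le_abs_self _).trans ?_
  rw [abs_mul, abs_mul, abs_neg, abs_of_pos (by norm_num : (0:ℝ) < 2)]
  calc 2 * |Real.sin (Real.pi - (Real.pi * τ + α * U / 2))| *
        |Real.sin ((Real.pi * τ - (Real.pi * τ + α * U)) / 2)| ≤
        2 * |Real.pi - (Real.pi * τ + α * U / 2)| * 1 := by gcongr
    _ = _ := by ring

/-- M4: the bound of the diagonal term -/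
theorem MA_bound : ∃ C : ℝ, 0 < C ∧ ∀ D : AData, ∀ τ : ℝ, 1 / 2 - D.ep ^ 2 ≤ τ → τ < 1 / 2 →
    ∃ T0 : ℝ, ∀ T : ℝ, T0 ≤ T →
      (Complex.exp (((alp τ T / 2 * Real.log (T / (2 * Real.pi)) : ℝ) : ℂ) * I) *
        MA D T (alp τ T)).im ≤ C * Real.log (1 / D.ep) ∧ ‖MA D T (alp τ T)‖ ≤ C / D.ep := by
  obtain ⟨C1, hC1, hcomp⟩ := M4_comp
  obtain ⟨C2, hC2, hwin⟩ := window_Gb
  obtain ⟨C3, hC3, hsum⟩ := sum_Gb
  obtain ⟨C4, hC4, hlin⟩ := HN_lin
  refine ⟨1 + C1 + 2 * C2 + 22 * C4 + C3, by positivity, ?_⟩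
  intro D τ hτ1 hτ2
  have hep := D.ep_pos
  have hep1 := D.ep_le
  obtain ⟨T1, hcomp⟩ := hcomp D
  obtain ⟨T2, hwin⟩ := hwin D
  obtain ⟨T3, hsum⟩ := hsum D
  obtain ⟨T4, hlin⟩ := hlin D
  refine ⟨max (max T1 T2) (max (max T3 T4) (Real.exp ((1 + 4 * C3) / D.ep))), ?_⟩
  intro T hT
  have hT1 : T1 ≤ T := (le_max_left _ _).trans ((le_max_left _ _).trans hT)
  have hT2 : T2 ≤ T := (le_max_right _ _).trans ((le_max_left _ _).trans hT)
  have hT3 : T3 ≤ T :=
    (le_max_left _ _).trans ((le_max_left _ _).trans ((le_max_right _ _).trans hT))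
  have hT4 : T4 ≤ T :=
    (le_max_right _ _).trans ((le_max_left _ _).trans ((le_max_right _ _).trans hT))
  have hT5 : Real.exp ((1 + 4 * C3) / D.ep) ≤ T :=
    (le_max_right _ _).trans ((le_max_right _ _).trans hT)
  have hT0 : 0 < T := lt_of_lt_of_le (Real.exp_pos _) hT5
  have hL : (1 + 4 * C3) / D.ep ≤ Real.log T := by
    rw [Real.le_log_iff_exp_le hT0]
    exact hT5
  have hepL : 1 + 4 * C3 ≤ D.ep * Real.log T := by
    rw [div_le_iff₀ hep] at hL
    linarith
  have hL0 : 0 < Real.log T := lt_of_lt_of_le (by positivity) hL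
  have hTone : 1 < T := by
    have : 1 < Real.exp ((1 + 4 * C3) / D.ep) := Real.one_lt_exp_iff.mpr (by positivity)
    linarith
  set L := Real.log T with hLdef
  set α := alp τ T with hαdef
  have hαL : α * L = 2 * Real.pi * τ := by
    rw [hαdef]
    unfold alp
    rw [div_mul_cancel₀ _ hL0.ne']
  have hpi := Real.pi_pos
  have hpi3 := Real.pi_gt_three
  have hpi4 := Real.pi_le_four
  have hep2 : D.ep ^ 2 ≤ 1 / 100 * D.ep := by
    rw [pow_two]
    exact mul_le_mul_of_nonneg_right hep1 hep.le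
  have hτ4 : 1 / 4 ≤ τ := by linarith
  have hα0 : 0 < α := by
    rw [hαdef]
    unfold alp
    positivity
  have hα4 : α * L ≤ 4 := by
    rw [hαL]
    have h := mul_le_mul_of_nonneg_left hτ2.le hpi.le
    linarith
  set κ := 1 - D.ep - 2 * D.ep ^ 2 with hκ
  have hep20 : 0 ≤ D.ep ^ 2 := by positivity
  have hκhalf : 1 / 2 ≤ κ := by rw [hκ]; linarith
  have hκone : κ ≤ 1 := by rw [hκ]; linarith
  have hκep : κ ≤ 1 - D.ep := by rw [hκ]; linarith
  have hMA : MA D T α = ∑ k ∈ Finset.Icc 1 (XN D T), M4_T D T α k := MA_eq D T α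
  have hXN : XN D T = ⌊T ^ (1 - D.ep)⌋₊ := rfl
  -- the norm
  have hnorm : ‖MA D T α‖ ≤ C3 / D.ep := by
    rw [hMA]
    refine (norm_sum_le _ _).trans ?_
    refine le_trans ?_ (hsum T hT3)
    refine (Finset.sum_le_sum (fun k hk => M4_T_le D T α hTone hα0.le hα4 k
      (Finset.mem_Icc.mp hk).1)).trans ?_
    refine Finset.sum_le_sum_of_subset_of_nonneg ?_ ?_
    · refine Finset.Icc_subset_Icc le_rfl ?_
      rw [hXN]
      refine Nat.floor_le_floor ?_
      calc T ^ (1 - D.ep) ≤ T ^ (1 : ℝ) :=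
            Real.rpow_le_rpow_of_exponent_le hTone.le (by linarith)
        _ = T := Real.rpow_one T
    · intro k _ _
      positivity
  have hlog100 : 1 ≤ Real.log (1 / D.ep) := by
    rw [Real.le_log_iff_exp_le (by positivity)]
    have h1 : Real.exp 1 < 2.7182818286 := Real.exp_one_lt_d9
    have h2 : (100 : ℝ) ≤ 1 / D.ep := by
      rw [le_div_iff₀ hep]
      linarith
    linarith
  constructor
  swap
  · refine hnorm.trans ?_
    gcongr
    linarith
  -- the phase
  have hphase : (Complex.exp (((α / 2 * Real.log (T / (2 * Real.pi)) : ℝ) : ℂ) * I) *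
      MA D T α).im ≤ 1 + (Complex.exp (((Real.pi * τ : ℝ) : ℂ) * I) * MA D T α).im := by
    have hth : α / 2 * Real.log (T / (2 * Real.pi)) =
        Real.pi * τ - α / 2 * Real.log (2 * Real.pi) := by
      rw [Real.log_div hT0.ne' (by positivity)]
      linear_combination (1 / 2 : ℝ) * hαL
    have hlog2pi : Real.log (2 * Real.pi) ≤ 2 := by
      rw [Real.log_le_iff_le_exp (by positivity)]
      have h1 : (2.7182818283 : ℝ) < Real.exp 1 := Real.exp_one_gt_d9
      have h2 : Real.exp 2 = Real.exp 1 * Real.exp 1 := by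
        rw [← Real.exp_add]; norm_num
      have h3 : Real.pi < 3.15 := Real.pi_lt_d2
      rw [h2]
      have h4 : (2.7 : ℝ) * 2.7 ≤ Real.exp 1 * Real.exp 1 :=
        mul_le_mul (by linarith) (by linarith) (by norm_num) (Real.exp_pos 1).le
      linarith
    have hlog2pi0 : 0 ≤ Real.log (2 * Real.pi) := Real.log_nonneg (by linarith)
    have hdiff : ‖Complex.exp (((α / 2 * Real.log (T / (2 * Real.pi)) : ℝ) : ℂ) * I) -
        Complex.exp (((Real.pi * τ : ℝ) : ℂ) * I)‖ ≤ α := by
      have h1 : Complex.exp (((α / 2 * Real.log (T / (2 * Real.pi)) : ℝ) : ℂ) * I) -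
          Complex.exp (((Real.pi * τ : ℝ) : ℂ) * I) =
          Complex.exp (((Real.pi * τ : ℝ) : ℂ) * I) *
          (Complex.exp (I * ((-(α / 2 * Real.log (2 * Real.pi)) : ℝ) : ℂ)) - 1) := by
        rw [mul_sub, mul_one, ← Complex.exp_add, hth]
        congr 2
        push_cast
        ring
      rw [h1, norm_mul, Complex.norm_exp_ofReal_mul_I, one_mul]
      refine (Real.norm_exp_I_mul_ofReal_sub_one_le).trans ?_
      rw [Real.norm_eq_abs, abs_neg, abs_of_nonneg (by positivity)]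
      have h2 := mul_le_mul_of_nonneg_left hlog2pi hα0.le
      linarith
    have h2 : (Complex.exp (((α / 2 * Real.log (T / (2 * Real.pi)) : ℝ) : ℂ) * I) *
        MA D T α).im = ((Complex.exp (((α / 2 * Real.log (T / (2 * Real.pi)) : ℝ) : ℂ) * I) -
        Complex.exp (((Real.pi * τ : ℝ) : ℂ) * I)) * MA D T α).im +
        (Complex.exp (((Real.pi * τ : ℝ) : ℂ) * I) * MA D T α).im := by
      rw [← Complex.add_im]
      congr 1
      ring
    rw [h2]
    have h3 : ((Complex.exp (((α / 2 * Real.log (T / (2 * Real.pi)) : ℝ) : ℂ) * I) -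
        Complex.exp (((Real.pi * τ : ℝ) : ℂ) * I)) * MA D T α).im ≤ 1 := by
      refine (Complex.im_le_norm _).trans ?_
      rw [norm_mul]
      have h4 : α ≤ 4 / L := by
        rw [le_div_iff₀ hL0]
        exact hα4
      calc _ ≤ (4 / L) * (C3 / D.ep) := by
            refine mul_le_mul (hdiff.trans h4) hnorm (norm_nonneg _) (by positivity)
        _ ≤ 1 := by
            rw [div_mul_div_comm, div_le_one (by positivity)]
            linarith
    linarith
  refine hphase.trans ?_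
  -- splitting of the sum
  set X := ⌊T ^ κ⌋₊ with hX
  have hXX : X ≤ XN D T := by
    rw [hX, hXN]
    exact Nat.floor_le_floor (Real.rpow_le_rpow_of_exponent_le hTone.le hκep)
  have hsplit : ∑ k ∈ Finset.Icc 1 (XN D T), M4_T D T α k =
      ∑ k ∈ Finset.Icc 1 X, M4_T D T α k + ∑ k ∈ Finset.Ioc X (XN D T), M4_T D T α k := by
    have h0 : ∀ n : ℕ, Finset.Icc 1 n = Finset.Ioc 0 n := by
      intro n
      ext k
      simp only [Finset.mem_Icc, Finset.mem_Ioc]
      omega
    rw [h0, h0, Finset.sum_Ioc_consecutive _ (Nat.zero_le _) hXX]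
  have hS2 : ‖∑ k ∈ Finset.Ioc X (XN D T), M4_T D T α k‖ ≤ 2 * C2 := by
    refine (norm_sum_le _ _).trans ?_
    have h1 := hwin T hT2 (T ^ κ) (T ^ (1 - D.ep))
      (Real.rpow_le_rpow_of_exponent_le hTone.le hκhalf)
      (Real.rpow_le_rpow_of_exponent_le hTone.le hκep)
      (by
        calc T ^ (1 - D.ep) ≤ T ^ (1 : ℝ) :=
            Real.rpow_le_rpow_of_exponent_le hTone.le (by linarith)
        _ = T := Real.rpow_one T)
    refine (Finset.sum_le_sum (fun k hk => M4_T_le D T α hTone hα0.le hα4 k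
      (by have := (Finset.mem_Ioc.mp hk).1; omega))).trans ?_
    refine h1.trans ?_
    rw [Real.log_div (by positivity) (by positivity), Real.log_rpow hT0, Real.log_rpow hT0,
      ← hLdef]
    have h2 : (1 - D.ep) * L - κ * L = 2 * D.ep ^ 2 * L := by rw [hκ]; ring
    rw [h2]
    have h3 : C2 / D.ep * ((2 * D.ep ^ 2 * L + 1) / L) = 2 * C2 * D.ep + C2 / (D.ep * L) := by
      field_simp
    rw [h3]
    have h4 : C2 / (D.ep * L) ≤ C2 := by
      rw [div_le_iff₀ (by positivity)]
      exact le_mul_of_one_le_right hC2.le (by linarith)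
    have h5 := mul_le_mul_of_nonneg_left hep1 hC2.le
    linarith
  have hS1 := hcomp T hT1 α hα0.le hα4
  -- the sum over `H0`
  obtain ⟨c, hc0, hc1, hlin⟩ := hlin T hT4
  set U := κ * L with hU
  have hU0 : 0 < U := by positivity
  have hexpU : Real.exp U = T ^ κ := by
    rw [Real.rpow_def_of_pos hT0, hU, mul_comm]
  have hS0 := M4_abel (fun n => H0 D T n / n) c (C4 / D.ep) (C4 * L) α U hα0 (by positivity)
    (by positivity) hU0 (by
      intro u hu huU
      have h1 := hlin u hu (huU.trans (by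
        rw [hU]
        exact mul_le_mul_of_nonneg_right hκep hL0.le))
      exact h1)
  rw [hexpU, ← hX] at hS0
  have herr : C4 * L / U + 2 * α * (C4 * L) * Real.log (1 + C4 / D.ep * U / (C4 * L)) ≤
      2 * C4 + 16 * C4 * Real.log (1 / D.ep) := by
    have h1 : C4 * L / U ≤ 2 * C4 := by
      rw [div_le_iff₀ hU0, hU]
      have : 0 < C4 * L := by positivity
      have h2 := mul_le_mul_of_nonneg_left hκhalf this.le
      linarith
    have h2 : C4 / D.ep * U / (C4 * L) = κ / D.ep := by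
      rw [hU]
      field_simp
    rw [h2]
    have h3 : Real.log (1 + κ / D.ep) ≤ 2 * Real.log (1 / D.ep) := by
      rw [← Real.log_rpow (by positivity)]
      refine Real.log_le_log (by positivity) ?_
      have h4 : (1 / D.ep) ^ (2 : ℝ) = 1 / D.ep * (1 / D.ep) := by
        rw [Real.rpow_two]
        ring
      rw [h4]
      have h5 : (2 : ℝ) ≤ 1 / D.ep := by
        rw [le_div_iff₀ hep]
        linarith
      have h6 : κ / D.ep ≤ 1 / D.ep := by gcongr
      have h7 := mul_le_mul_of_nonneg_right h5 (by positivity : (0 : ℝ) ≤ 1 / D.ep)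
      linarith
    have h7 : 2 * α * (C4 * L) ≤ 8 * C4 := by
      have h8 := mul_le_mul_of_nonneg_left hα4 hC4.le
      linarith
    have h8 : 0 ≤ Real.log (1 + κ / D.ep) := Real.log_nonneg (by
      have : 0 < κ / D.ep := by positivity
      linarith)
    calc C4 * L / U + 2 * α * (C4 * L) * Real.log (1 + κ / D.ep)
        ≤ 2 * C4 + 8 * C4 * (2 * Real.log (1 / D.ep)) := by
          refine add_le_add h1 ?_
          exact mul_le_mul h7 h3 h8 (by positivity)
      _ = _ := by ring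
  have hmain := M4_im c α U τ hα0 hc0
  have hmain2 : c / α * (2 * |Real.pi - (Real.pi * τ + α * U / 2)|) ≤ 4 * C4 := by
    have h1 : Real.pi * τ + α * U / 2 = Real.pi * (τ * (1 + κ)) := by
      rw [hU]
      linear_combination (κ / 2) * hαL
    have h2 : |Real.pi - (Real.pi * τ + α * U / 2)| ≤ Real.pi * D.ep := by
      rw [h1]
      have h3 : Real.pi - Real.pi * (τ * (1 + κ)) = Real.pi * (1 - τ * (1 + κ)) := by ring
      rw [h3, abs_mul, abs_of_pos hpi]
      refine mul_le_mul_of_nonneg_left ?_ hpi.le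
      rw [abs_le, hκ]
      have hep3 : 0 ≤ D.ep ^ 3 := by positivity
      have hep4 : 0 ≤ D.ep ^ 4 := by positivity
      have hk2 : 0 ≤ 2 - D.ep - 2 * D.ep ^ 2 := by linarith
      have hk3 := mul_le_mul_of_nonneg_right hτ2.le hk2
      have hk4 := mul_le_mul_of_nonneg_right hτ1 hk2
      constructor
      · linarith
      · linarith
    have h4 : c / α ≤ C4 / (D.ep * (2 * Real.pi * τ)) := by
      rw [div_le_div_iff₀ hα0 (by positivity)]
      rw [le_div_iff₀ (by positivity)] at hc1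
      calc c * (D.ep * (2 * Real.pi * τ)) = α * (c * (D.ep * L)) := by
            rw [← hαL]; ring
        _ ≤ α * C4 := mul_le_mul_of_nonneg_left hc1 hα0.le
        _ = C4 * α := by ring
    calc c / α * (2 * |Real.pi - (Real.pi * τ + α * U / 2)|)
        ≤ C4 / (D.ep * (2 * Real.pi * τ)) * (2 * (Real.pi * D.ep)) := by
          refine mul_le_mul h4 (by linarith) (by positivity) (by positivity)
      _ = C4 / τ := by field_simp
      _ ≤ 4 * C4 := by
          rw [div_le_iff₀ (by linarith)]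
          have h5 := mul_le_mul_of_nonneg_left hτ4 hC4.le
          linarith
  set w := Complex.exp (((Real.pi * τ : ℝ) : ℂ) * I) with hw
  have hwn : ‖w‖ = 1 := by rw [hw]; exact Complex.norm_exp_ofReal_mul_I _
  set Mt := (c : ℂ) * ((Complex.exp (((α * U : ℝ) : ℂ) * I) - 1) / (α * I)) with hMt
  set S0 := ∑ k ∈ Finset.Icc 1 X, ((H0 D T k / k : ℝ) : ℂ) * zp α k with hS0def
  set S1 := ∑ k ∈ Finset.Icc 1 X, M4_T D T α k with hS1def
  set S2 := ∑ k ∈ Finset.Ioc X (XN D T), M4_T D T α k with hS2def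
  have hdec : w * MA D T α = w * (S1 - S0) + w * S2 + w * (S0 - Mt) + w * Mt := by
    rw [hMA, hsplit]
    ring
  rw [hdec, Complex.add_im, Complex.add_im, Complex.add_im]
  have e1 : (w * (S1 - S0)).im ≤ C1 := by
    refine (Complex.im_le_norm _).trans ?_
    rw [norm_mul, hwn, one_mul]
    exact hS1
  have e2 : (w * S2).im ≤ 2 * C2 := by
    refine (Complex.im_le_norm _).trans ?_
    rw [norm_mul, hwn, one_mul]
    exact hS2
  have e3 : (w * (S0 - Mt)).im ≤ 2 * C4 + 16 * C4 * Real.log (1 / D.ep) := by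
    refine (Complex.im_le_norm _).trans ?_
    rw [norm_mul, hwn, one_mul]
    exact hS0.trans herr
  have e4 : (w * Mt).im ≤ 4 * C4 := hmain.trans hmain2
  have e5 := mul_le_mul_of_nonneg_left hlog100
    (by positivity : (0 : ℝ) ≤ 1 + C1 + 2 * C2 + 6 * C4 + C3)
  linarith

end Pool.Agent.AHD
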