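import Pool.Agent.ZGap.AH.R1
import Pool.Agent.ZGap.AH.B2
import Pool.Agent.ZGap.AH.M4
import Pool.Agent.ZGap.Half.Prop

/-!
# Sums over the isolated zeros
-/

open scoped ContDiff

namespace Pool.Agent.AHD

open Complex MeasureTheory Set Pool.Agent.Hadamard Pool.Agent.HalfGap

lemma R2_geo (n : ℕ) : ∑ k ∈ Finset.range n, Real.exp (-(k:ℝ)) ≤ 2 := by
  refine le_trans (Finset.sum_le_sum fun k _ => ?_) (sum_geometric_two_le n)
  have h1 : Real.exp (-1) ≤ 1 / 2 := by
    rw [Real.exp_neg, ← one_div]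
    apply one_div_le_one_div_of_le (by norm_num)
    have := Real.add_one_le_exp (1:ℝ)
    linarith
  calc Real.exp (-(k:ℝ)) = Real.exp (-1) ^ k := by
        rw [← Real.exp_nat_mul]; congr 1; ring
    _ ≤ (1 / 2) ^ k := pow_le_pow_left₀ (Real.exp_pos _).le h1 k

lemma R2_gsum (x : ℝ) (N : ℕ) : ∑ j ∈ Finset.range N, Real.exp (-(x - j) ^ 2 / 2) ≤ 8 := by
  have hb : ∀ j ∈ Finset.range N, Real.exp (-(x - j) ^ 2 / 2) ≤ 2 * Real.exp (-|x - j|) := by
    intro j _
    have h1 : Real.exp (1 / 2) ≤ 2 := by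
      have h2 : Real.exp (1 / 2) ^ 2 ≤ 2 ^ 2 := by
        rw [← Real.exp_nat_mul]
        have := Real.exp_one_lt_d9
        norm_num
        linarith
      exact le_of_sq_le_sq h2 (by norm_num)
    calc Real.exp (-(x - j) ^ 2 / 2) ≤ Real.exp (1 / 2 + -|x - j|) := by
          apply Real.exp_le_exp.mpr
          nlinarith [sq_nonneg (|x - j| - 1), sq_abs (x - j)]
      _ = Real.exp (1 / 2) * Real.exp (-|x - j|) := Real.exp_add _ _
      _ ≤ 2 * Real.exp (-|x - j|) := by gcongr
  refine (Finset.sum_le_sum hb).trans ?_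
  rw [← Finset.mul_sum, ← Finset.sum_filter_add_sum_filter_not (Finset.range N) (fun j : ℕ => (j:ℝ) ≤ x)]
  have h1 : ∑ j ∈ (Finset.range N).filter (fun j : ℕ => (j:ℝ) ≤ x), Real.exp (-|x - j|) ≤ 2 := by
    set m := ⌊x⌋₊ with hm
    have h2 : ∑ j ∈ (Finset.range N).filter (fun j : ℕ => (j:ℝ) ≤ x), Real.exp (-|x - j|) ≤
        ∑ j ∈ Finset.range (m + 1), Real.exp (-((m + 1 - 1 - j : ℕ) : ℝ)) := by
      refine le_trans (Finset.sum_le_sum (g := fun j : ℕ => Real.exp (-((m + 1 - 1 - j : ℕ) : ℝ))) fun j hj => ?_)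
        (Finset.sum_le_sum_of_subset_of_nonneg ?_ fun _ _ _ => (Real.exp_pos _).le)
      · rw [Finset.mem_filter] at hj
        have hx : 0 ≤ x := le_trans (Nat.cast_nonneg j) hj.2
        have hjm : j ≤ m := Nat.le_floor hj.2
        have hmx : (m:ℝ) ≤ x := Nat.floor_le hx
        apply Real.exp_le_exp.mpr
        rw [Nat.add_sub_cancel, Nat.cast_sub hjm, abs_of_nonneg (by linarith [hj.2])]
        linarith
      · intro j hj
        rw [Finset.mem_filter] at hj
        rw [Finset.mem_range]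
        have := Nat.le_floor hj.2
        omega
    refine h2.trans ?_
    rw [Finset.sum_range_reflect (fun k : ℕ => Real.exp (-(k:ℝ)))]
    exact R2_geo _
  have h2 : ∑ j ∈ (Finset.range N).filter (fun j : ℕ => ¬ (j:ℝ) ≤ x), Real.exp (-|x - j|) ≤ 2 := by
    set m := ⌈x⌉₊ with hm
    have h3 : ∑ j ∈ (Finset.range N).filter (fun j : ℕ => ¬ (j:ℝ) ≤ x), Real.exp (-|x - j|) ≤
        ∑ j ∈ Finset.Ico m (m + N), Real.exp (-((j:ℝ) - m)) := by
      refine le_trans (Finset.sum_le_sum (g := fun j : ℕ => Real.exp (-((j:ℝ) - m))) fun j hj => ?_)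
        (Finset.sum_le_sum_of_subset_of_nonneg ?_ fun _ _ _ => (Real.exp_pos _).le)
      · rw [Finset.mem_filter, not_le] at hj
        have hmx : x ≤ (m:ℝ) := Nat.le_ceil x
        apply Real.exp_le_exp.mpr
        rw [abs_of_nonpos (by linarith [hj.2])]
        linarith
      · intro j hj
        rw [Finset.mem_filter, not_le, Finset.mem_range] at hj
        rw [Finset.mem_Ico]
        have : m ≤ j := Nat.ceil_le.mpr hj.2.le
        omega
    refine h3.trans ?_
    rw [Finset.sum_Ico_eq_sum_range]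
    have h4 : ∀ k ∈ Finset.range (m + N - m), Real.exp (-(((m + k : ℕ) : ℝ) - m)) = Real.exp (-(k:ℝ)) := by
      intro k _
      push_cast
      congr 1
      ring
    rw [Finset.sum_congr rfl h4]
    exact R2_geo _
  linarith

lemma R2_grid {α H U a b s0 : ℝ} {N : ℕ} (hH : 0 < H) (hHU : H ≤ U) (hs0 : s0 ≤ a)
    (hN : b ≤ s0 + N * H) (y : ℝ → ℝ) (hy : ∀ z, Xr z = 0 → ¬ badz α z → 0 ≤ y z) :
    ∑ z ∈ isoZ α a b, y z ≤ Real.exp 1 * ∑ j ∈ Finset.range N,
      ∑ z ∈ isoZ α (s0 + j * H - U) (s0 + j * H + U),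
        Real.exp (-(z - (s0 + j * H)) ^ 2 / H ^ 2) * y z := by
  classical
  set g : ℕ → ℝ → ℝ := fun j z => Real.exp (-(z - (s0 + j * H)) ^ 2 / H ^ 2) * y z with hg
  set S : ℕ → Finset ℝ := fun j => isoZ α (s0 + j * H - U) (s0 + j * H + U) with hS
  have h1 : ∀ z ∈ isoZ α a b, y z ≤ Real.exp 1 * ∑ j ∈ Finset.range N,
      (if z ∈ S j then g j z else 0) := by
    intro z hz
    obtain ⟨⟨hza, hzb⟩, hz0, hzb'⟩ := mem_isoZ.mp hz
    have hyz := hy z hz0 hzb'
    set x := (z - s0) / H with hx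
    have hx0 : 0 ≤ x := div_nonneg (by linarith) hH.le
    set j := ⌊x⌋₊ with hj
    have hjx : (j:ℝ) ≤ x := Nat.floor_le hx0
    have hxj : x < j + 1 := Nat.lt_floor_add_one x
    have hxz : z = s0 + x * H := by rw [hx]; field_simp; ring
    have hjN : j < N := by
      have : (j:ℝ) < N := by
        refine lt_of_le_of_lt hjx ?_
        rw [hx, div_lt_iff₀ hH]
        linarith
      exact_mod_cast this
    have c1 : 0 ≤ z - (s0 + j * H) := by
      rw [hxz]
      nlinarith
    have c2 : z - (s0 + j * H) ≤ H := by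
      rw [hxz]
      nlinarith
    have hzS : z ∈ S j := by
      simp only [hS]
      rw [mem_isoZ]
      refine ⟨⟨by linarith, ?_⟩, hz0, hzb'⟩
      have : z - (s0 + j * H) < H := by
        rw [hxz]
        nlinarith
      linarith
    have hgz : y z ≤ Real.exp 1 * g j z := by
      simp only [hg]
      rw [← mul_assoc, ← Real.exp_add]
      apply le_mul_of_one_le_left hyz
      have h5 : (z - (s0 + j * H)) ^ 2 ≤ H ^ 2 := pow_le_pow_left₀ c1 c2 2
      have h6 : -1 ≤ -(z - (s0 + j * H)) ^ 2 / H ^ 2 := by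
        rw [le_div_iff₀ (by positivity)]
        linarith
      exact Real.one_le_exp (by linarith)
    refine hgz.trans ?_
    apply mul_le_mul_of_nonneg_left _ (Real.exp_pos _).le
    have h7 := Finset.single_le_sum (f := fun j => if z ∈ S j then g j z else 0)
      (s := Finset.range N) (fun i _ => by
        split_ifs
        · exact mul_nonneg (Real.exp_pos _).le hyz
        · exact le_rfl) (Finset.mem_range.mpr hjN)
    simp only [if_pos hzS] at h7
    exact h7
  refine (Finset.sum_le_sum h1).trans ?_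
  rw [← Finset.mul_sum, Finset.sum_comm]
  apply mul_le_mul_of_nonneg_left _ (Real.exp_pos _).le
  refine Finset.sum_le_sum fun j _ => ?_
  rw [← Finset.sum_filter]
  refine Finset.sum_le_sum_of_subset_of_nonneg ?_ fun z hz _ => ?_
  · intro z hz
    exact (Finset.mem_filter.mp hz).2
  · obtain ⟨_, hz0, hzb'⟩ := mem_isoZ.mp hz
    have hyz := hy z hz0 hzb'
    positivity

lemma R2_core {α T θ H U M : ℝ} (hT : 0 < T) (hθ : 0 < θ) (hθ8 : θ ≤ 1 / 8) (hH : 1 ≤ H)
    (hHU : H ≤ U) (hUT : 2 * U ≤ 2 / 5 * θ * T)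
    (y : ℝ → ℝ) (hy : ∀ z, Xr z = 0 → ¬ badz α z → 0 ≤ y z)
    (G0 : ℝ → ℝ) (hGc : Continuous G0) (hG0 : ∀ t, 0 ≤ G0 t)
    (hS : ∫ t in EE α ∩ Icc ((5 / 4 - θ) * T) ((7 / 4 + θ) * T), G0 t ≤ T)
    (hM : 0 ≤ M)
    (hW : ∀ t0 : ℝ, T ≤ t0 → t0 ≤ 2 * T →
      Real.pi * (∑ z ∈ isoZ α (t0 - U) (t0 + U), Real.exp (-(z - t0) ^ 2 / H ^ 2) * y z) -
        20 * (∫ t in Icc (t0 - 2 * U) (t0 + 2 * U) ∩ EE α,
          Real.exp 2 * Real.exp (-(t - t0) ^ 2 / (2 * H ^ 2)) * G0 t) - 1 ≤ M * H) :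
    ∑ z ∈ isoZ α ((5 / 4 - θ / 2) * T) ((7 / 4 + θ / 2) * T), y z ≤ (1300 + 2 * M) * T := by
  have hpi := Real.pi_gt_three
  have hH0 : 0 < H := by linarith
  set s0 := (5 / 4 - 3 / 5 * θ) * T with hs0
  set N := ⌊(1 / 2 + 11 / 10 * θ) * T / H⌋₊ + 1 with hN
  have hUT' : U ≤ 1 / 5 * θ * T := by linarith
  have hθT : 0 < θ * T := by positivity
  have hθT8 : θ * T ≤ 1 / 8 * T := by gcongr
  have hHT : H ≤ 1 / 40 * T := by linarith
  have hx0 : 0 ≤ (1 / 2 + 11 / 10 * θ) * T / H := by positivity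
  have hNle : ((N:ℝ) - 1) * H ≤ (1 / 2 + 11 / 10 * θ) * T := by
    have h1 := Nat.floor_le hx0
    rw [le_div_iff₀ hH0] at h1
    rw [hN]
    push_cast
    linarith
  have hNge : (1 / 2 + 11 / 10 * θ) * T ≤ N * H := by
    have h1 := (Nat.lt_floor_add_one ((1 / 2 + 11 / 10 * θ) * T / H)).le
    rw [div_le_iff₀ hH0] at h1
    rw [hN]
    push_cast
    linarith
  have hN2 : N * H ≤ 2 * T := by linarith only [hNle, hHT, hθT8, hT]
  have ht : ∀ j : ℕ, j < N → s0 ≤ s0 + j * H ∧ s0 + j * H ≤ (7 / 4 + θ / 2) * T := by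
    intro j hj
    have h1 : ((j:ℝ) + 1) ≤ N := by exact_mod_cast hj
    have h2 : (j:ℝ) * H ≤ ((N:ℝ) - 1) * H := by
      apply mul_le_mul_of_nonneg_right _ hH0.le
      linarith
    constructor
    · have : 0 ≤ (j:ℝ) * H := by positivity
      linarith
    · rw [hs0]
      linarith
  have hgrid := R2_grid (α := α) (H := H) (U := U) (a := (5 / 4 - θ / 2) * T)
    (b := (7 / 4 + θ / 2) * T) (s0 := s0) (N := N) hH0 hHU (by rw [hs0]; linarith only [hθT])
    (by rw [hs0]; linarith) y hy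
  refine hgrid.trans ?_
  set S := EE α ∩ Icc ((5 / 4 - θ) * T) ((7 / 4 + θ) * T) with hSdef
  have hSm : MeasurableSet S := (measurableSet_EE α).inter measurableSet_Icc
  set I : ℕ → ℝ := fun j => ∫ t in S, Real.exp 2 *
    (Real.exp (-(t - (s0 + j * H)) ^ 2 / (2 * H ^ 2)) * G0 t) with hI
  -- integrability
  have hcont : ∀ j : ℕ, Continuous (fun t : ℝ => Real.exp 2 *
      (Real.exp (-(t - (s0 + j * H)) ^ 2 / (2 * H ^ 2)) * G0 t)) := by
    intro j
    have : Continuous (fun t : ℝ => Real.exp (-(t - (s0 + j * H)) ^ 2 / (2 * H ^ 2))) := by fun_prop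
    exact continuous_const.mul (this.mul hGc)
  have hint : ∀ j : ℕ, IntegrableOn (fun t : ℝ => Real.exp 2 *
      (Real.exp (-(t - (s0 + j * H)) ^ 2 / (2 * H ^ 2)) * G0 t)) S := by
    intro j
    exact ((hcont j).continuousOn.integrableOn_compact isCompact_Icc).mono_set inter_subset_right
  have hW2 : ∀ j ∈ Finset.range N, ∑ z ∈ isoZ α (s0 + j * H - U) (s0 + j * H + U),
        Real.exp (-(z - (s0 + j * H)) ^ 2 / H ^ 2) * y z ≤ (20 * I j + (1 + M * H)) / 3 := by
    intro j hj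
    obtain ⟨t1, t2⟩ := ht j (Finset.mem_range.mp hj)
    have h1 := hW (s0 + j * H) (by rw [hs0] at t1 ⊢; linarith only [t1, hθT8, hT]) (by linarith only [t2, hθT8, hT])
    have h2 : ∫ t in Icc (s0 + j * H - 2 * U) (s0 + j * H + 2 * U) ∩ EE α,
          Real.exp 2 * Real.exp (-(t - (s0 + j * H)) ^ 2 / (2 * H ^ 2)) * G0 t ≤ I j := by
      simp only [hI]
      have e1 : ∀ t : ℝ, Real.exp 2 * Real.exp (-(t - (s0 + j * H)) ^ 2 / (2 * H ^ 2)) * G0 t =
          Real.exp 2 * (Real.exp (-(t - (s0 + j * H)) ^ 2 / (2 * H ^ 2)) * G0 t) := fun t => by ring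
      simp only [e1]
      refine setIntegral_mono_set (hint j) (Filter.Eventually.of_forall fun t => ?_) ?_
      · have := hG0 t
        simp only [Pi.zero_apply]
        positivity
      · apply LE.le.eventuallyLE
        rintro t ⟨⟨ha, hb⟩, hE⟩
        refine ⟨hE, ?_, ?_⟩
        · rw [hs0] at t1 ha
          linarith
        · linarith
    have h3 : 0 ≤ ∑ z ∈ isoZ α (s0 + j * H - U) (s0 + j * H + U),
        Real.exp (-(z - (s0 + j * H)) ^ 2 / H ^ 2) * y z := by
      refine Finset.sum_nonneg fun z hz => ?_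
      obtain ⟨_, hz0, hzb⟩ := mem_isoZ.mp hz
      have := hy z hz0 hzb
      positivity
    have h4 := mul_le_mul_of_nonneg_right hpi.le h3
    rw [le_div_iff₀ (by norm_num)]
    linarith only [h1, h2, h4]
  have hsum : ∑ j ∈ Finset.range N, I j ≤ 8 * Real.exp 2 * T := by
    simp only [hI]
    rw [← integral_finsetSum _ (fun j _ => hint j)]
    calc ∫ t in S, ∑ j ∈ Finset.range N, Real.exp 2 *
          (Real.exp (-(t - (s0 + j * H)) ^ 2 / (2 * H ^ 2)) * G0 t)
        ≤ ∫ t in S, 8 * Real.exp 2 * G0 t := by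
          refine setIntegral_mono_on ?_ ?_ hSm fun t _ => ?_
          · exact integrable_finsetSum _ fun j _ => hint j
          · exact ((continuous_const.mul hGc).continuousOn.integrableOn_compact
              isCompact_Icc).mono_set inter_subset_right
          · have e2 : ∑ j ∈ Finset.range N, Real.exp 2 *
                (Real.exp (-(t - (s0 + j * H)) ^ 2 / (2 * H ^ 2)) * G0 t) =
                Real.exp 2 * G0 t * ∑ j ∈ Finset.range N,
                  Real.exp (-((t - s0) / H - j) ^ 2 / 2) := by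
              rw [Finset.mul_sum]
              refine Finset.sum_congr rfl fun j _ => ?_
              have e3 : -(t - (s0 + j * H)) ^ 2 / (2 * H ^ 2) = -((t - s0) / H - j) ^ 2 / 2 := by
                field_simp
                ring
              rw [e3]
              ring
            rw [e2]
            have h5 := R2_gsum ((t - s0) / H) N
            have h6 := hG0 t
            calc Real.exp 2 * G0 t * ∑ j ∈ Finset.range N,
                  Real.exp (-((t - s0) / H - j) ^ 2 / 2) ≤ Real.exp 2 * G0 t * 8 := by gcongr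
              _ = _ := by ring
      _ = 8 * Real.exp 2 * ∫ t in S, G0 t := integral_const_mul _ _
      _ ≤ 8 * Real.exp 2 * T := by gcongr
  have he1 : Real.exp 1 ≤ 3 := by
    have := Real.exp_one_lt_d9
    linarith
  have he2 : Real.exp 2 ≤ 15 / 2 := by
    have h1 : Real.exp 2 = Real.exp 1 ^ 2 := by
      rw [← Real.exp_nat_mul]
      norm_num
    have h2 := Real.exp_one_lt_d9
    have h3 := Real.exp_pos 1
    rw [h1]
    exact (pow_le_pow_left₀ h3.le h2.le 2).trans (by norm_num)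
  have hE : ∑ j ∈ Finset.range N, ∑ z ∈ isoZ α (s0 + j * H - U) (s0 + j * H + U),
        Real.exp (-(z - (s0 + j * H)) ^ 2 / H ^ 2) * y z ≤ (1300 + 2 * M) * T / 3 := by
    refine (Finset.sum_le_sum hW2).trans ?_
    rw [← Finset.sum_div, Finset.sum_add_distrib, ← Finset.mul_sum, Finset.sum_const,
      Finset.card_range, nsmul_eq_mul]
    apply div_le_div_of_nonneg_right _ (by norm_num)
    have a1 : (N:ℝ) * 1 ≤ N * H := by gcongr
    have a2 : (N:ℝ) * H * M ≤ 2 * T * M := mul_le_mul_of_nonneg_right hN2 hM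
    have h8 : Real.exp 2 * T ≤ 15 / 2 * T := mul_le_mul_of_nonneg_right he2 hT.le
    linarith only [hsum, a1, a2, h8, hN2, hT]
  calc Real.exp 1 * _ ≤ Real.exp 1 * ((1300 + 2 * M) * T / 3) := by gcongr
    _ ≤ 3 * ((1300 + 2 * M) * T / 3) := by gcongr
    _ = _ := by ring

lemma R2_av_le (D : AData) (T : ℝ) (n : ℕ) : |av D T n| ≤ 1 := by
  unfold av
  rw [abs_mul, abs_mul]
  have h1 : |((ArithmeticFunction.moebius n : ℤ) : ℝ)| ≤ 1 := by
    have := ArithmeticFunction.abs_moebius_le_one (n := n)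
    exact_mod_cast this
  have h2 : |∏ p ∈ n.primeFactors, D.f (Real.log p / Real.log T)| ≤ 1 := by
    rw [Finset.abs_prod]
    refine Finset.prod_le_one (fun p _ => abs_nonneg _) fun p _ => ?_
    rw [abs_of_nonneg (D.f_nonneg _)]
    exact D.f_le _
  have h3 : |D.F (Real.log n / Real.log T)| ≤ 1 := by
    rw [abs_of_nonneg (D.F_nonneg _)]
    exact D.F_le _
  exact (mul_le_mul (mul_le_mul h1 h2 (abs_nonneg _) zero_le_one) h3 (abs_nonneg _)
    (by norm_num)).trans_eq (by ring)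

lemma R2_bA_le (D : AData) (T α : ℝ) {X : ℕ} {p : ℕ × ℕ} (hp : p ∈ QV X) : ‖bA D T α p‖ ≤ 1 := by
  unfold QV at hp
  rw [Finset.mem_product, Finset.mem_Icc, Finset.mem_Icc] at hp
  obtain ⟨⟨hm1, hmX⟩, hn1, hnX⟩ := hp
  have hm' : (1:ℝ) ≤ p.1 := by exact_mod_cast hm1
  have hn' : (1:ℝ) ≤ p.2 := by exact_mod_cast hn1
  unfold bA
  rw [norm_mul, norm_mul, norm_mul, Complex.norm_exp_ofReal_mul_I, mul_one, Complex.norm_real,
    Complex.norm_real, Complex.norm_real, Real.norm_eq_abs, Real.norm_eq_abs,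
    Real.norm_of_nonneg (by positivity)]
  have h2 : ((p.1:ℝ) * p.2) ^ (-(1:ℝ) / 2) ≤ 1 := by
    apply Real.rpow_le_one_of_one_le_of_nonpos
    · nlinarith
    · norm_num
  have h3 := mul_le_mul (mul_le_mul (R2_av_le D T p.1) (R2_av_le D T p.2) (abs_nonneg _) zero_le_one)
    h2 (by positivity) (by norm_num)
  simpa using h3

lemma R2_sum (D : AData) (T α : ℝ) (X : ℕ) :
    ∑ q ∈ QV X, ‖bA D T α q‖ * Real.exp (2 * |wV q|) ≤ (X:ℝ) ^ 4 := by
  have h1 : ∀ q ∈ QV X, ‖bA D T α q‖ * Real.exp (2 * |wV q|) ≤ (X:ℝ) ^ 2 := by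
    intro q hq
    have hb := R2_bA_le D T α hq
    unfold QV at hq
    rw [Finset.mem_product, Finset.mem_Icc, Finset.mem_Icc] at hq
    obtain ⟨⟨hm1, hmX⟩, hn1, hnX⟩ := hq
    have hm : (1:ℝ) ≤ q.1 := by exact_mod_cast hm1
    have hn : (1:ℝ) ≤ q.2 := by exact_mod_cast hn1
    have hX1 : (q.1:ℝ) ≤ X := by exact_mod_cast hmX
    have hX2 : (q.2:ℝ) ≤ X := by exact_mod_cast hnX
    have hX0 : (0:ℝ) < X := by linarith
    have h2 : Real.exp (2 * |wV q|) ≤ (X:ℝ) ^ 2 := by
      have h3 : Real.exp (2 * Real.log X) = (X:ℝ) ^ 2 := by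
        rw [mul_comm, Real.exp_mul, Real.exp_log hX0]
        norm_num
      rw [← h3]
      apply Real.exp_le_exp.mpr
      have h4 : |wV q| ≤ Real.log X := by
        unfold wV
        have a1 := Real.log_nonneg hm
        have a2 := Real.log_nonneg hn
        have a3 := Real.log_le_log (by linarith) hX1
        have a4 := Real.log_le_log (by linarith) hX2
        rw [abs_le]
        constructor <;> linarith
      linarith
    calc _ ≤ 1 * (X:ℝ) ^ 2 := mul_le_mul hb h2 (Real.exp_pos _).le zero_le_one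
      _ = _ := one_mul _
  refine (Finset.sum_le_sum h1).trans ?_
  unfold QV
  rw [Finset.sum_const, Finset.card_product, Nat.card_Icc, Nat.add_sub_cancel, nsmul_eq_mul]
  push_cast
  apply le_of_eq
  ring

lemma R2_conj (D : AData) (T α : ℝ) (s : ℂ) :
    BS (QV (XN D T)) (bA D T α) wV (1 - (starRingEnd ℂ) s) =
      (starRingEnd ℂ) (BS (QV (XN D T)) (bA D T α) wV s) := by
  rw [BA_eq, BA_eq, map_mul, Complex.conj_conj, mul_comm]
  have e1 : 1 - (starRingEnd ℂ) (1 - (starRingEnd ℂ) s) = s := by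
    rw [map_sub, map_one, Complex.conj_conj]
    ring
  rw [e1]

lemma R2_re_nonneg (D : AData) (T α t : ℝ) :
    0 ≤ (BS (QV (XN D T)) (bA D T α) wV (1 / 2 + t * I)).re := by
  rw [BA_half, Complex.ofReal_re]
  positivity

/-- the pointwise bound on the boxes -/
lemma R2_box {τ T H t0 : ℝ} (hτ : 1 / 3 < τ) (hτ1 : τ < 1 / 2)
    (hL7 : 7 ≤ Real.log T) (hH : 1 ≤ H) {B : ℂ → ℂ} {G : ℝ → ℝ}
    (hG : ∀ (t : ℝ) (s : ℂ), |s.re - 1 / 2| ≤ 1 / Real.log T →
        |s.im - t| ≤ alp τ T → (∀ v, Xr v = 0 → 1 / Real.log T ≤ ‖s - (1 / 2 + v * I)‖) →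
        ‖B s * fq (alp τ T) s‖ ≤ G t)
    (t : ℝ) (s : ℂ) (hs1 : |s.re - 1 / 2| ≤ 1 / Real.log T) (hs2 : |s.im - t| ≤ alp τ T)
    (hs3 : s.re = 1 / 2 + 1 / Real.log T ∨ s.re = 1 / 2 - 1 / Real.log T ∨
          ∀ v, Xr v = 0 → Real.pi * τ / Real.log T ≤ |v - s.im|) :
    ‖FF H t0 (alp τ T) B s‖ ≤
      Real.exp 2 * Real.exp (-(t - t0) ^ 2 / (2 * H ^ 2)) * G t := by
  have hpi := Real.pi_pos
  have hpi3 := Real.pi_gt_three
  have hpi4 := Real.pi_lt_four
  set L := Real.log T with hL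
  have hLpos : 0 < L := by linarith
  have hα1 : alp τ T ≤ 8 / 7 := by
    unfold alp
    rw [← hL, div_le_iff₀ hLpos]
    nlinarith
  have h1 : ‖Og H t0 s‖ ≤ Real.exp 2 * Real.exp (-(t - t0) ^ 2 / (2 * H ^ 2)) := by
    rw [norm_Og_s, ← Real.exp_add]
    apply Real.exp_le_exp.mpr
    have hH2 : 1 ≤ H ^ 2 := one_le_pow₀ hH
    have a1 : (s.re - 1 / 2) ^ 2 ≤ (1 / 2) ^ 2 := by
      rw [← sq_abs]
      have : 1 / L ≤ 1 / 2 := by
        rw [div_le_div_iff₀ hLpos (by norm_num)]; linarith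
      have h5 : |s.re - 1 / 2| ≤ 1 / 2 := hs1.trans this
      exact pow_le_pow_left₀ (abs_nonneg _) h5 2
    have a2 : (s.im - t) ^ 2 ≤ (8 / 7) ^ 2 := by
      rw [← sq_abs]
      exact pow_le_pow_left₀ (abs_nonneg _) (hs2.trans hα1) 2
    have a3 : (s.re - 1 / 2) ^ 2 - (s.im - t0) ^ 2 ≤ 2 - (t - t0) ^ 2 / 2 := by
      nlinarith [sq_nonneg ((s.im - t0) + (s.im - t))]
    have hH0 : 0 < H ^ 2 := by positivity
    calc ((s.re - 1 / 2) ^ 2 - (s.im - t0) ^ 2) / H ^ 2 ≤ (2 - (t - t0) ^ 2 / 2) / H ^ 2 :=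
          div_le_div_of_nonneg_right a3 hH0.le
      _ = 2 / H ^ 2 + -(t - t0) ^ 2 / (2 * H ^ 2) := by field_simp; ring
      _ ≤ 2 + -(t - t0) ^ 2 / (2 * H ^ 2) := by
          gcongr
          rw [div_le_iff₀ hH0]; linarith
  have h2 : ‖B s * fq (alp τ T) s‖ ≤ G t := by
    refine hG t s hs1 hs2 fun v hv => ?_
    have e1 : s - (1 / 2 + v * I) = ((s.re - 1 / 2 : ℝ) : ℂ) + ((s.im - v : ℝ) : ℂ) * I := by
      apply Complex.ext <;> simp
    have c1 := Complex.abs_re_le_norm (s - (1 / 2 + v * I))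
    have c2 := Complex.abs_im_le_norm (s - (1 / 2 + v * I))
    have d1 : (s - (1 / 2 + v * I)).re = s.re - 1 / 2 := by rw [e1]; simp
    have d2 : (s - (1 / 2 + v * I)).im = s.im - v := by rw [e1]; simp
    rw [d1] at c1
    rw [d2] at c2
    rcases hs3 with h | h | h
    · rw [h] at c1
      refine le_trans ?_ c1
      rw [add_sub_cancel_left]
      exact le_abs_self _
    · rw [h] at c1
      refine le_trans ?_ c1
      rw [sub_sub_cancel_left, abs_neg]
      exact le_abs_self _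
    · have := h _ hv
      rw [abs_sub_comm] at this
      refine le_trans ?_ (this.trans c2)
      apply div_le_div_of_nonneg_right _ hLpos.le
      nlinarith
  unfold FF
  rw [mul_assoc, norm_mul]
  exact mul_le_mul h1 h2 (norm_nonneg _) (by positivity)

lemma R2_intS {α T θ K : ℝ} (hT : 0 < T) (hθ : 0 < θ) (hθ8 : θ ≤ 1 / 8) (hK : 0 < K) {G : ℝ → ℝ}
    (hGc : Continuous G) (h2 : ∫ t in (T / 2)..(3 * T), G t ^ 2 ≤ K * T)
    (hF : volume.real (EE α ∩ Icc ((5 / 4 - θ) * T) ((7 / 4 + θ) * T)) ≤ 1 / K * T) :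
    ∫ t in EE α ∩ Icc ((5 / 4 - θ) * T) ((7 / 4 + θ) * T), G t ≤ T := by
  set S := EE α ∩ Icc ((5 / 4 - θ) * T) ((7 / 4 + θ) * T) with hS
  have hSm : MeasurableSet S := (measurableSet_EE α).inter measurableSet_Icc
  have hθT : 0 < θ * T := by positivity
  have hθT8 : θ * T ≤ 1 / 8 * T := by gcongr
  have hSs : S ⊆ Ioc (T / 2) (3 * T) := by
    rintro t ⟨_, h1, h2⟩
    constructor <;> linarith
  have hSfin : volume S ≠ ⊤ := ne_top_of_le_ne_top (by simp) (measure_mono hSs)
  have i1 : IntegrableOn G S := (hGc.continuousOn.integrableOn_compact isCompact_Icc).mono_set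
    inter_subset_right
  have i2' : IntegrableOn (fun t => G t ^ 2) (Ioc (T / 2) (3 * T)) :=
    ((hGc.pow 2).continuousOn.integrableOn_compact isCompact_Icc).mono_set Ioc_subset_Icc_self
  have i2 : IntegrableOn (fun t => G t ^ 2) S := i2'.mono_set hSs
  have i3 : IntegrableOn (fun _ : ℝ => K / 2) S := integrableOn_const hSfin
  rw [intervalIntegral.integral_of_le (by linarith)] at h2
  have h3 : ∫ t in S, G t ^ 2 ≤ K * T := by
    refine le_trans ?_ h2
    exact setIntegral_mono_set i2' (Filter.Eventually.of_forall fun t => sq_nonneg _)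
      hSs.eventuallyLE
  calc ∫ t in S, G t ≤ ∫ t in S, (1 / (2 * K) * G t ^ 2 + K / 2) := by
        refine setIntegral_mono_on i1 ((i2.const_mul _).add i3) hSm fun t _ => ?_
        have h4 : 0 ≤ (G t - K) ^ 2 / (2 * K) := by positivity
        have h5 : 1 / (2 * K) * G t ^ 2 + K / 2 - G t = (G t - K) ^ 2 / (2 * K) := by
          field_simp
          ring
        linarith
    _ = 1 / (2 * K) * (∫ t in S, G t ^ 2) + volume.real S * (K / 2) := by
        rw [integral_add (i2.const_mul _) i3, integral_const_mul, setIntegral_const, smul_eq_mul]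
    _ ≤ 1 / (2 * K) * (K * T) + 1 / K * T * (K / 2) := by gcongr
    _ = T := by
        field_simp
        ring

lemma R2_mdiag (α : ℝ) : Mdiag ({()} : Finset Unit) (fun _ => (1:ℂ)) (fun _ => (0:ℝ)) α = 1 := by
  unfold Mdiag
  rw [Finset.sum_singleton, one_mul, tsum_eq_single 1]
  · rw [if_pos]
    · unfold gco
      simp
    · simp
  · intro k hk
    rw [if_neg]
    rintro ⟨h1, h2⟩
    rw [zero_add] at h2
    have hk0 : (0:ℝ) < k := by exact_mod_cast Nat.pos_of_ne_zero h1
    have h3 : (k:ℝ) = 1 := Real.eq_one_of_pos_of_log_eq_zero hk0 h2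
    exact hk (by exact_mod_cast h3)

lemma R2_bs (s : ℂ) : BS ({()} : Finset Unit) (fun _ => (1:ℂ)) (fun _ => (0:ℝ)) s = 1 := by
  unfold BS
  simp

/-- R2 -/
theorem sumres (hRH : RiemannHypothesis) : ∃ C : ℝ, 0 < C ∧ ∀ D : AData, ∀ τ θ : ℝ,
    1 / 2 - D.ep ^ 2 ≤ τ → τ < 1 / 2 → 0 < θ → θ ≤ 1 / 8 →
    ∃ δ T0 : ℝ, 0 < δ ∧ ∀ T : ℝ, T0 ≤ T → Few τ δ θ T →
    (∑ z ∈ isoZ (alp τ T) ((5 / 4 - θ / 2) * T) ((7 / 4 + θ / 2) * T),
      ‖Vs D T (1 / 2 + ((z + alp τ T : ℝ) : ℂ) * I)‖ ^ 2 * cz (alp τ T) z ≤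
        C * Real.log (1 / D.ep) * T) ∧
    (∑ z ∈ isoZ (alp τ T) ((5 / 4 - θ / 2) * T) ((7 / 4 + θ / 2) * T),
      cz (alp τ T) z ≤ C * T) := by
  obtain ⟨C0, hC0, hMA⟩ := MA_bound
  refine ⟨1306 + 4 * C0, by positivity, fun D τ θ hτ hτ2 hθ hθ8 => ?_⟩
  have hpi3 := Real.pi_gt_three
  have hpi4 := Real.pi_lt_four
  have hep := D.ep_pos
  have hep1 := D.ep_le
  set η1 := 1 - D.ep / 2 with hη1
  set η2 := 1 - D.ep / 4 with hη2
  have hep2 : D.ep ^ 2 ≤ 1 / 100 * (1 / 100) := by
    rw [sq]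
    exact mul_le_mul hep1 hep1 hep.le (by norm_num)
  have hτ3 : 1 / 3 < τ := by linarith
  obtain ⟨T1, hMA1⟩ := hMA D τ hτ hτ2
  obtain ⟨T2, hW⟩ := wrap_res hRH (τ := τ) (κ := 1 - D.ep) (η1 := η1) (η2 := η2) (A := 4) hτ3
    (by linarith) (by linarith) (by linarith) (by linarith) (by linarith)
  obtain ⟨K, T3, hK, hbox⟩ := gbox hRH D one_pos
  obtain ⟨C1, T4, hC1, hgam⟩ := gam_int (A := Real.pi) (η1 := η1) (η2 := η2) Real.pi_pos
    (by linarith) (by linarith) (by linarith)
  have e1 : ∀ᶠ T : ℝ in Filter.atTop, 5 / θ ≤ T ^ (1 - η2) :=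
    (tendsto_rpow_atTop (by linarith : 0 < 1 - η2)).eventually_ge_atTop _
  have e2 : ∀ᶠ T : ℝ in Filter.atTop, max 7 (max C1 (C0 * C1 / D.ep)) ≤ Real.log T :=
    Real.tendsto_log_atTop.eventually_ge_atTop _
  obtain ⟨T5, hT5⟩ := Filter.eventually_atTop.mp (e1.and e2)
  refine ⟨1 / K, max (max (max T1 T2) (max T3 T4)) (max T5 1), by positivity, fun T hT hFew => ?_⟩
  have hTT1 : T1 ≤ T := ((le_max_left _ _).trans ((le_max_left _ _).trans (le_max_left _ _))).trans hT
  have hTT2 : T2 ≤ T := ((le_max_right _ _).trans ((le_max_left _ _).trans (le_max_left _ _))).trans hT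
  have hTT3 : T3 ≤ T := ((le_max_left _ _).trans ((le_max_right _ _).trans (le_max_left _ _))).trans hT
  have hTT4 : T4 ≤ T := ((le_max_right _ _).trans ((le_max_right _ _).trans (le_max_left _ _))).trans hT
  have hTT5 : T5 ≤ T := ((le_max_left _ _).trans (le_max_right _ _)).trans hT
  have hTT6 : 1 ≤ T := ((le_max_right _ _).trans (le_max_right _ _)).trans hT
  have hT0 : 0 < T := by linarith
  obtain ⟨f1, f2⟩ := hT5 T hTT5
  obtain ⟨b1, b2⟩ := hMA1 T hTT1
  obtain ⟨G, hGc, hG0, hGb, hG2⟩ := hbox T hTT3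
  set L := Real.log T with hL
  have hL7 : 7 ≤ L := (le_max_left _ _).trans f2
  have hLC1 : C1 ≤ L := (le_max_left _ _).trans ((le_max_right _ _).trans f2)
  have hLC2 : C0 * C1 / D.ep ≤ L := (le_max_right _ _).trans ((le_max_right _ _).trans f2)
  have hL0 : 0 < L := by linarith
  set α := alp τ T with hα
  have hα0 : 0 < α := by
    rw [hα]
    unfold alp
    have : 0 < τ := by linarith
    positivity
  have hα1 : α ≤ Real.pi / L := by
    rw [hα]
    unfold alp
    rw [← hL]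
    apply div_le_div_of_nonneg_right _ hL0.le
    have h := mul_le_mul_of_nonneg_left hτ2.le Real.pi_pos.le
    linarith
  set H := T ^ η1 with hH
  set U := T ^ η2 with hU
  have hH1 : 1 ≤ H := Real.one_le_rpow hTT6 (by linarith)
  have hHU : H ≤ U := Real.rpow_le_rpow_of_exponent_le hTT6 (by linarith)
  have hU0 : 0 < U := by linarith
  have hUT : 2 * U ≤ 2 / 5 * θ * T := by
    have h2 : T ^ (1 - η2) * T ^ η2 = T := by
      rw [← Real.rpow_add hT0]
      simp
    have h3 : 5 / θ * U ≤ T := (mul_le_mul_of_nonneg_right f1 hU0.le).trans_eq h2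
    have h4 : θ * (5 / θ * U) ≤ θ * T := mul_le_mul_of_nonneg_left h3 hθ.le
    have h5 : θ * (5 / θ * U) = 5 * U := by field_simp
    linarith
  have hS := R2_intS (α := α) hT0 hθ hθ8 hK hGc hG2 hFew
  -- the weighted envelope is continuous
  have hGt : ∀ t0 : ℝ, Continuous (fun t : ℝ =>
      Real.exp 2 * Real.exp (-(t - t0) ^ 2 / (2 * H ^ 2)) * G t) := by
    intro t0
    have : Continuous (fun t : ℝ => Real.exp (-(t - t0) ^ 2 / (2 * H ^ 2))) := by fun_prop
    exact (continuous_const.mul this).mul hGc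
  have hlam : 1 ≤ Real.log (1 / D.ep) := by
    rw [Real.le_log_iff_exp_le (by positivity), le_div_iff₀ hep]
    have h6 := mul_le_mul Real.exp_one_lt_d9.le hep1 hep.le (by norm_num)
    exact h6.trans (by norm_num)
  have hsp : Real.sqrt Real.pi ≤ 2 := by
    rw [Real.sqrt_le_left (by norm_num)]
    linarith
  have hsp0 : 0 ≤ Real.sqrt Real.pi := Real.sqrt_nonneg _
  set P : ℂ := Complex.exp (((α / 2 * Real.log (T / (2 * Real.pi)) : ℝ) : ℂ) * I) with hP
  have hPn : ‖P‖ = 1 := Complex.norm_exp_ofReal_mul_I _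
  have hJ : ∀ t0 : ℝ, T ≤ t0 → t0 ≤ 2 * T →
      ‖(∫ t in (t0 - U)..(t0 + U), Og H t0 (2 + t * I) * gam α (2 + t * I)) -
        ((Real.sqrt Real.pi * H : ℝ) : ℂ) * P‖ ≤ C1 / L * H :=
    fun t0 h1 h2 => hgam T α t0 hTT4 hα0.le hα1 h1 h2
  have hcz : ∀ z, Xr z = 0 → ¬ badz α z → 0 ≤ cz α z := fun z h1 h2 => cz_nonneg hα0 h1 h2
  constructor
  · have hy : ∀ z, Xr z = 0 → ¬ badz α z →
        0 ≤ ‖Vs D T (1 / 2 + ((z + α : ℝ) : ℂ) * I)‖ ^ 2 * cz α z :=
      fun z h1 h2 => mul_nonneg (by positivity) (hcz z h1 h2)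
    set M := 2 * C0 * Real.log (1 / D.ep) + 1 with hM
    have hM0 : 0 ≤ M := by positivity
    have key := R2_core (α := α) (T := T) (θ := θ) (H := H) (U := U) (M := M) hT0 hθ hθ8 hH1 hHU
      hUT _ hy G hGc hG0 hS hM0 ?_
    · refine key.trans ?_
      have h1 : (1302:ℝ) ≤ 1302 * Real.log (1 / D.ep) := by linarith
      have h2 : 1300 + 2 * M ≤ (1306 + 4 * C0) * Real.log (1 / D.ep) := by
        rw [hM]
        linarith
      exact mul_le_mul_of_nonneg_right h2 hT0.le
    · intro t0 ht1 ht2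
      have w := hW T hTT2 t0 ht1 ht2 (QV (XN D T)) (bA D T α) wV (R2_conj D T α)
        (R2_re_nonneg D T α) ?_ ?_
        (fun t : ℝ => Real.exp 2 * Real.exp (-(t - t0) ^ 2 / (2 * H ^ 2)) * G t)
        (fun t => by have := hG0 t; positivity)
        ((hGt t0).continuousOn.integrableOn_compact isCompact_Icc) ?_
      · have e5 : ∀ z : ℝ, Real.exp (-(z - t0) ^ 2 / H ^ 2) *
            (BS (QV (XN D T)) (bA D T α) wV (1 / 2 + z * I)).re * cz α z =
            Real.exp (-(z - t0) ^ 2 / H ^ 2) *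
            (‖Vs D T (1 / 2 + ((z + α : ℝ) : ℂ) * I)‖ ^ 2 * cz α z) := by
          intro z
          rw [BA_half, Complex.ofReal_re, mul_assoc]
        rw [← hα, ← hH, ← hU] at w
        simp only [e5] at w
        refine w.trans ?_
        set J := ∫ t in (t0 - U)..(t0 + U), Og H t0 (2 + t * I) * gam α (2 + t * I) with hJdef
        have j1 := hJ t0 ht1 ht2
        have j2 : (MA D T α * J).im = (MA D T α * (((Real.sqrt Real.pi * H : ℝ) : ℂ) * P)).im +
            (MA D T α * (J - ((Real.sqrt Real.pi * H : ℝ) : ℂ) * P)).im := by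
          rw [← Complex.add_im]
          congr 1
          ring
        have j3 : (MA D T α * (((Real.sqrt Real.pi * H : ℝ) : ℂ) * P)).im ≤
            2 * H * (C0 * Real.log (1 / D.ep)) := by
          have e6 : MA D T α * (((Real.sqrt Real.pi * H : ℝ) : ℂ) * P) =
              ((Real.sqrt Real.pi * H : ℝ) : ℂ) * (P * MA D T α) := by ring
          rw [e6, Complex.im_ofReal_mul]
          calc _ ≤ Real.sqrt Real.pi * H * (C0 * Real.log (1 / D.ep)) :=
                mul_le_mul_of_nonneg_left b1 (by positivity)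
            _ ≤ 2 * H * (C0 * Real.log (1 / D.ep)) := by gcongr
        have j4 : (MA D T α * (J - ((Real.sqrt Real.pi * H : ℝ) : ℂ) * P)).im ≤ H := by
          refine (le_abs_self _).trans ((Complex.abs_im_le_norm _).trans ?_)
          rw [norm_mul]
          calc _ ≤ C0 / D.ep * (C1 / L * H) :=
                mul_le_mul b2 j1 (norm_nonneg _) (by positivity)
            _ = (C0 * C1 / D.ep) / L * H := by ring
            _ ≤ 1 * H := by
                apply mul_le_mul_of_nonneg_right _ (by linarith)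
                rw [div_le_one hL0]
                exact hLC2
            _ = H := one_mul H
        change (MA D T α * J).im ≤ M * H
        rw [j2, hM]
        linarith only [j3, j4]
      · -- the size of the coefficients
        refine (R2_sum D T α (XN D T)).trans ?_
        have h1 : (XN D T : ℝ) ≤ T := by
          unfold XN
          refine (Nat.floor_le (Real.rpow_nonneg hT0.le _)).trans ?_
          calc T ^ (1 - D.ep) ≤ T ^ (1:ℝ) :=
                Real.rpow_le_rpow_of_exponent_le hTT6 (by linarith)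
            _ = T := Real.rpow_one T
        calc (XN D T : ℝ) ^ 4 ≤ T ^ 4 := pow_le_pow_left₀ (Nat.cast_nonneg _) h1 4
          _ = T ^ (4:ℝ) := by
              rw [← Real.rpow_natCast]
              norm_num
      · -- separation
        intro q hq n hn
        rcases wV_sep hq hn with h | h
        · exact Or.inl h
        · right
          refine le_trans ?_ h
          have h1 : (XN D T : ℝ) ≤ T ^ (1 - D.ep) := by
            unfold XN
            exact Nat.floor_le (Real.rpow_nonneg hT0.le _)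
          have h2 : 1 ≤ T ^ (1 - D.ep) := Real.one_le_rpow hTT6 (by linarith)
          rw [Real.rpow_neg hT0.le, div_le_div_iff₀ (by norm_num) (by positivity), one_mul]
          rw [inv_mul_le_iff₀ (by linarith)]
          linarith
      · intro t _ s hs1 hs2 hs3
        exact R2_box hτ3 hτ2 hL7 hH1
          (fun t s h1 h2 h3 => (hGb τ hτ3.le hτ2.le t s h1 h2 h3).1) t s hs1 hs2 hs3
  · have key := R2_core (α := α) (T := T) (θ := θ) (H := H) (U := U) (M := 3) hT0 hθ hθ8 hH1 hHU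
      hUT _ hcz G hGc hG0 hS (by norm_num) ?_
    · refine key.trans ?_
      apply mul_le_mul_of_nonneg_right _ hT0.le
      linarith
    · intro t0 ht1 ht2
      have w := hW T hTT2 t0 ht1 ht2 ({()} : Finset Unit) (fun _ => (1:ℂ)) (fun _ => (0:ℝ))
        (fun s => by rw [R2_bs, R2_bs, map_one]) (fun t => by rw [R2_bs]; simp) ?_ ?_
        (fun t : ℝ => Real.exp 2 * Real.exp (-(t - t0) ^ 2 / (2 * H ^ 2)) * G t)
        (fun t => by have := hG0 t; positivity)
        ((hGt t0).continuousOn.integrableOn_compact isCompact_Icc) ?_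
      · have e5 : ∀ z : ℝ, Real.exp (-(z - t0) ^ 2 / H ^ 2) *
            (BS ({()} : Finset Unit) (fun _ => (1:ℂ)) (fun _ => (0:ℝ)) (1 / 2 + z * I)).re * cz α z =
            Real.exp (-(z - t0) ^ 2 / H ^ 2) * cz α z := by
          intro z
          rw [R2_bs, Complex.one_re, mul_one]
        rw [← hα, ← hH, ← hU] at w
        simp only [e5] at w
        refine w.trans ?_
        rw [R2_mdiag, one_mul]
        refine (le_abs_self _).trans ((Complex.abs_im_le_norm _).trans ?_)
        have j1 := hJ t0 ht1 ht2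
        have j2 : ‖((Real.sqrt Real.pi * H : ℝ) : ℂ) * P‖ ≤ 2 * H := by
          rw [norm_mul, hPn, mul_one, Complex.norm_real, Real.norm_of_nonneg (by positivity)]
          gcongr
        have j3 : C1 / L * H ≤ 1 * H := by
          apply mul_le_mul_of_nonneg_right _ (by linarith)
          rw [div_le_one hL0]
          exact hLC1
        have j4 := norm_sub_norm_le
          (∫ t in (t0 - U)..(t0 + U), Og H t0 (2 + t * I) * gam α (2 + t * I))
          (((Real.sqrt Real.pi * H : ℝ) : ℂ) * P)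
        linarith only [j1, j2, j3, j4]
      · rw [Finset.sum_singleton]
        simp only [norm_one, abs_zero, mul_zero, Real.exp_zero, mul_one]
        exact Real.one_le_rpow hTT6 (by norm_num)
      · intro q _ n hn
        rcases Nat.lt_or_ge 1 n with h | h
        · right
          rw [zero_add]
          have h2 : Real.log 2 ≤ Real.log n := by
            apply Real.log_le_log (by norm_num)
            exact_mod_cast h
          have h3 := Real.log_two_gt_d9
          refine le_trans ?_ (le_abs_self _)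
          have h4 : T ^ (-(1 - D.ep)) ≤ 1 :=
            Real.rpow_le_one_of_one_le_of_nonpos hTT6 (by linarith)
          linarith
        · left
          have : n = 1 := le_antisymm h hn
          rw [this]
          simp
      · intro t _ s hs1 hs2 hs3
        refine R2_box hτ3 hτ2 hL7 hH1
          (fun t s h1 h2 h3 => ?_) t s hs1 hs2 hs3
        rw [R2_bs, one_mul]
        exact (hGb τ hτ3.le hτ2.le t s h1 h2 h3).2.2

end Pool.Agent.AHD
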