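import Pool.Agent.ZGap.AH.Defs3
import Pool.Agent.ZGap.Half.Gam
import Pool.Agent.ZGap.Half.GamB

/-!
# The archimedean factor near the critical line
-/

open scoped ContDiff

namespace Pool.Agent.AHD

open Complex MeasureTheory Set Pool.Agent.Hadamard Pool.Agent.HalfGap

/-- The logarithmic derivative of the archimedean factor is `(log T)/2 + O(1)` at height
between `T` and `3T`. -/
lemma Gam_Psi {T : ℝ} (hT : 1 ≤ T) {w : ℂ} (hre : 0 < w.re) (hre1 : w.re ≤ 1)
    (him : T ≤ w.im) (him3 : w.im ≤ 3 * T) :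
    ‖GB.Psi w - ((Real.log T / 2 : ℝ) : ℂ)‖ ≤ 12 := by
  have hT0 : 0 < T := by linarith
  have hw0 : 0 < w.im := by linarith
  rw [GB.Psi_eq hw0 hre]
  have hwn : T ≤ ‖w‖ := him.trans ((le_abs_self _).trans (abs_im_le_norm w))
  have h1 : ‖1 / w‖ ≤ 1 := by
    rw [norm_div, norm_one]
    exact div_le_one_of_le₀ (hT.trans hwn) (norm_nonneg _)
  have h2 : ‖1 / (w - 1)‖ ≤ 1 := by
    rw [norm_div, norm_one]
    have h := abs_im_le_norm (w - 1)
    have : (w - 1).im = w.im := by simp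
    rw [this] at h
    exact div_le_one_of_le₀ ((hT.trans him).trans ((le_abs_self _).trans h)) (norm_nonneg _)
  have hzre : 0 < (w / 2).re := by
    have : (w / 2).re = w.re / 2 := by simp
    rw [this]; positivity
  have h3 := norm_digamma_sub_log_le hzre
  have e2 : ‖(2:ℂ)‖ = 2 := by simp
  have hz : T / 2 ≤ ‖w / 2‖ := by
    rw [norm_div, e2]; linarith
  have hp : 0 < ‖w / 2‖ := by linarith
  have h4 : 2 / ‖w / 2‖ ^ 2 + 2 / ‖w / 2‖ ≤ 12 := by
    have hz1 : 1 / 2 ≤ ‖w / 2‖ := by linarith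
    have e1 : 2 / ‖w / 2‖ ^ 2 ≤ 8 := by
      rw [div_le_iff₀ (by positivity)]; nlinarith
    have e2 : 2 / ‖w / 2‖ ≤ 4 := by
      rw [div_le_iff₀ hp]; linarith
    linarith
  have hz2 : ‖w / 2‖ ≤ 2 * T := by
    rw [norm_div, e2]
    have := Complex.norm_le_abs_re_add_abs_im w
    rw [abs_of_pos hre, abs_of_pos hw0] at this
    linarith
  have hl2 : Real.log 2 ≤ 1 := by
    have := Real.log_two_lt_d9
    linarith
  have hl20 : 0 ≤ Real.log 2 := Real.log_nonneg (by norm_num)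
  have hlog : |Real.log ‖w / 2‖ - Real.log T| ≤ 1 := by
    have u1 : Real.log ‖w / 2‖ ≤ Real.log 2 + Real.log T := by
      rw [← Real.log_mul (by norm_num) hT0.ne']
      exact Real.log_le_log hp hz2
    have u2 : Real.log T - Real.log 2 ≤ Real.log ‖w / 2‖ := by
      rw [← Real.log_div hT0.ne' (by norm_num)]
      exact Real.log_le_log (by positivity) hz
    rw [abs_le]
    constructor <;> linarith
  have hpi3 : Real.pi ≤ 4 := Real.pi_le_four
  have hlogc : ‖Complex.log (w / 2) - ((Real.log T : ℝ) : ℂ)‖ ≤ 5 := by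
    refine (Complex.norm_le_abs_re_add_abs_im _).trans ?_
    rw [sub_re, sub_im, Complex.log_re, Complex.log_im, ofReal_re, ofReal_im, sub_zero]
    have := Complex.abs_arg_le_pi (w / 2)
    linarith
  have hlogpi : ‖(Real.log Real.pi : ℂ)‖ ≤ 2 := by
    rw [Complex.norm_real, Real.norm_eq_abs]
    have g1 : 0 ≤ Real.log Real.pi := Real.log_nonneg (by linarith [Real.pi_gt_three])
    have g2 : Real.log Real.pi ≤ 2 := by
      have : Real.log Real.pi ≤ Real.log 4 := Real.log_le_log Real.pi_pos hpi3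
      have h44 : Real.log 4 = Real.log 2 + Real.log 2 := by
        rw [← Real.log_mul (by norm_num) (by norm_num)]; norm_num
      linarith
    rwa [abs_of_nonneg g1]
  have hsplit : 1 / w + 1 / (w - 1) - (Real.log Real.pi : ℂ) / 2 +
      logDeriv Complex.Gamma (w / 2) / 2 - ((Real.log T / 2 : ℝ) : ℂ) = 1 / w + 1 / (w - 1) +
      (logDeriv Complex.Gamma (w / 2) - Complex.log (w / 2)) / 2 +
      (Complex.log (w / 2) - ((Real.log T : ℝ) : ℂ)) / 2 - (Real.log Real.pi : ℂ) / 2 := by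
    push_cast; ring
  rw [hsplit]
  have e4 : ‖(logDeriv Complex.Gamma (w / 2) - Complex.log (w / 2)) / 2‖ ≤ 6 := by
    rw [norm_div, e2]
    have := h3.trans h4
    linarith
  have e5 : ‖(Complex.log (w / 2) - ((Real.log T : ℝ) : ℂ)) / 2‖ ≤ 5 / 2 := by
    rw [norm_div, e2]; linarith
  have e6 : ‖(Real.log Real.pi : ℂ) / 2‖ ≤ 1 := by
    rw [norm_div, e2]; linarith
  have f1 := norm_add_le (1 / w) (1 / (w - 1))
  have f2 := norm_add_le (1 / w + 1 / (w - 1))
    ((logDeriv Complex.Gamma (w / 2) - Complex.log (w / 2)) / 2)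
  have f3 := norm_add_le (1 / w + 1 / (w - 1) +
    (logDeriv Complex.Gamma (w / 2) - Complex.log (w / 2)) / 2)
    ((Complex.log (w / 2) - ((Real.log T : ℝ) : ℂ)) / 2)
  have f4 := norm_sub_le (1 / w + 1 / (w - 1) +
    (logDeriv Complex.Gamma (w / 2) - Complex.log (w / 2)) / 2 +
    (Complex.log (w / 2) - ((Real.log T : ℝ) : ℂ)) / 2) ((Real.log Real.pi : ℂ) / 2)
  linarith

theorem gam_half : ∃ C : ℝ, 0 < C ∧ ∃ T0 : ℝ, ∀ T : ℝ, T0 ≤ T → ∀ τ : ℝ, 0 ≤ τ → τ ≤ 1 / 2 →
    ∀ s : ℂ, |s.re - 1 / 2| ≤ 1 / 4 → T ≤ s.im → s.im ≤ 2 * T →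
      ‖gam (alp τ T) s - Complex.exp (((Real.pi * τ : ℝ) : ℂ) * I)‖ ≤ C / Real.log T := by
  refine ⟨96, by norm_num, Real.exp 48, ?_⟩
  intro T hT τ hτ0 hτ s hre hT1 hT2
  have hTe : (48:ℝ) + 1 ≤ T := (Real.add_one_le_exp 48).trans hT
  have hT0 : 0 < T := by linarith
  have hL : 48 ≤ Real.log T := by
    rw [Real.le_log_iff_exp_le hT0]; exact hT
  have hL0 : 0 < Real.log T := by linarith
  have hpi3 : Real.pi ≤ 4 := Real.pi_le_four
  have hpi0 := Real.pi_pos
  set α : ℝ := alp τ T with hα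
  have hαd : α = 2 * Real.pi * τ / Real.log T := rfl
  have hα0 : 0 ≤ α := by rw [hαd]; positivity
  have hα4 : α ≤ 4 / Real.log T := by
    rw [hαd]
    apply div_le_div_of_nonneg_right _ hL0.le
    nlinarith
  have hα1 : α ≤ 1 := by
    refine hα4.trans ?_
    rw [div_le_one hL0]; linarith
  have hs0 : 0 < s.im := by linarith
  rw [GB.gam_eq_exp hs0 hα0]
  set z0 : ℂ := ((Real.pi * τ : ℝ) : ℂ) * I with hz0
  set e : ℂ := (∫ u in (0:ℝ)..α, I * GB.Psi (s + u * I)) - z0 with he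
  have hz0' : z0 = ∫ u in (0:ℝ)..α, I * ((Real.log T / 2 : ℝ) : ℂ) := by
    rw [intervalIntegral.integral_const, hz0, sub_zero, Complex.real_smul]
    have h1 : Real.pi * τ = α * (Real.log T / 2) := by
      rw [hαd]; field_simp
    rw [h1]
    push_cast
    ring
  have hab := abs_le.mp hre
  have hen : ‖e‖ ≤ 12 * |α - 0| := by
    rw [he, hz0', ← intervalIntegral.integral_sub (GB.intervalIntegrable_Psi hs0 hα0)
      intervalIntegrable_const]
    refine intervalIntegral.norm_integral_le_of_norm_le_const (fun u hu => ?_)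
    rw [Set.uIoc_of_le hα0] at hu
    have hu0 : 0 < u := hu.1
    rw [← mul_sub, norm_mul, Complex.norm_I, one_mul]
    have r1 : (s + u * I).re = s.re := by simp
    have r2 : (s + u * I).im = s.im + u := by simp
    refine Gam_Psi (T := T) (by linarith) ?_ ?_ ?_ ?_
    · rw [r1]; linarith [hab.1]
    · rw [r1]; linarith [hab.2]
    · rw [r2]; linarith
    · rw [r2]; linarith [hu.2]
  rw [sub_zero, abs_of_nonneg hα0] at hen
  have hsum : (∫ u in (0:ℝ)..α, I * GB.Psi (s + u * I)) = z0 + e := by rw [he]; ring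
  rw [hsum, Complex.exp_add, ← mul_sub_one, norm_mul]
  have hz0n : ‖cexp z0‖ = 1 := by
    rw [hz0, Complex.norm_exp_ofReal_mul_I]
  have hen4 : ‖e‖ ≤ 48 / Real.log T := by
    refine hen.trans ?_
    calc 12 * α ≤ 12 * (4 / Real.log T) := by linarith
      _ = 48 / Real.log T := by ring
  have he1 : ‖e‖ ≤ 1 := by
    refine hen4.trans ?_
    rw [div_le_one hL0]; exact hL
  have h10 : ‖cexp e - 1‖ ≤ 2 * ‖e‖ := Complex.norm_exp_sub_one_le he1
  rw [hz0n, one_mul]
  calc ‖cexp e - 1‖ ≤ 2 * ‖e‖ := h10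
    _ ≤ 2 * (48 / Real.log T) := by linarith
    _ = 96 / Real.log T := by ring

end Pool.Agent.AHD
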