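import Pool.Agent.ZGap.AH.A4
import Pool.Agent.ZGap.AH.Gam

/-!
# Mean values
-/

open scoped ContDiff

namespace Pool.Agent.AHD

open Complex MeasureTheory Set Pool.Agent.Hadamard Pool.Agent.HalfGap

/-! ### auxiliary facts -/

lemma V_cpow {n : ℕ} (hn : 1 ≤ n) (x t : ℝ) :
    (n : ℂ) ^ (-(ss x t)) = (((n : ℝ) ^ (-(1 / 2 + x)) : ℝ) : ℂ) * (n : ℂ) ^ (-(t * I) : ℂ) := by
  have hn0 : (n : ℂ) ≠ 0 := by exact_mod_cast (by omega : n ≠ 0)
  rw [Complex.ofReal_cpow (Nat.cast_nonneg n)]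
  rw [Complex.ofReal_natCast, ← Complex.cpow_add _ _ hn0]
  congr 1
  unfold ss
  push_cast
  ring

lemma V_npow {n : ℕ} (hn : 1 ≤ n) {K x : ℝ} (hK : Real.log n ≤ K) :
    ((n : ℝ) ^ (-(1 / 2 + x))) ^ 2 ≤ Real.exp (2 * (K * max (-x) 0)) / n := by
  have hn1 : (1 : ℝ) ≤ n := by exact_mod_cast hn
  have hn0 : (0 : ℝ) < n := by linarith
  have hlog : 0 ≤ Real.log n := Real.log_nonneg hn1
  have h1 : ((n : ℝ) ^ (-(1 / 2 + x))) ^ 2 = Real.exp (2 * (-x * Real.log n)) / n := by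
    rw [Real.rpow_def_of_pos hn0, ← Real.exp_nat_mul, eq_div_iff hn0.ne']
    nth_rewrite 2 [← Real.exp_log hn0]
    rw [← Real.exp_add]
    congr 1
    push_cast
    ring
  rw [h1]
  apply div_le_div_of_nonneg_right _ hn0.le
  apply Real.exp_le_exp.2
  have h2 : -x ≤ max (-x) 0 := le_max_left _ _
  have h3 : 0 ≤ max (-x) 0 := le_max_right _ _
  have h4 : -x * Real.log n ≤ max (-x) 0 * Real.log n := mul_le_mul_of_nonneg_right h2 hlog
  have h5 : max (-x) 0 * Real.log n ≤ max (-x) 0 * K := mul_le_mul_of_nonneg_left hK h3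
  linarith

lemma V_continuous (S : Finset ℕ) (hS : ∀ n ∈ S, 1 ≤ n) (a : ℕ → ℂ) (x : ℝ) :
    Continuous (fun t : ℝ => ∑ n ∈ S, a n * (n : ℂ) ^ (-(ss x t))) := by
  refine continuous_finsetSum _ fun n hn => ?_
  have hn0 : (n : ℂ) ≠ 0 := by
    have := hS n hn
    exact_mod_cast (by omega : n ≠ 0)
  have h1 : Continuous (fun t : ℝ => -(ss x t)) := by
    unfold ss
    fun_prop
  exact continuous_const.mul (h1.const_cpow (Or.inl hn0))

/-- the mean value theorem on a shifted line -/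
lemma V_mvt {S : Finset ℕ} {N : ℕ} (hS : S ⊆ Finset.Icc 1 N) {T : ℝ} (hT : 0 < T)
    (hN : (N : ℝ) ≤ 2 * T) (a : ℕ → ℂ) {x K : ℝ} (hK : ∀ n ∈ S, Real.log n ≤ K) {u v : ℝ}
    (hu : -(2 * T) ≤ u) (huv : u ≤ v) (hv : v ≤ 2 * T) :
    ∫ t in u..v, ‖∑ n ∈ S, a n * (n : ℂ) ^ (-(ss x t))‖ ^ 2 ≤
      5 * Real.pi * T * (Real.exp (2 * (K * max (-x) 0)) * ∑ n ∈ S, ‖a n‖ ^ 2 / n) := by
  classical
  let b : ℕ → ℂ := fun n => if n ∈ S then a n * (((n : ℝ) ^ (-(1 / 2 + x)) : ℝ) : ℂ) else 0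
  have h1 : ∀ t : ℝ, ∑ n ∈ S, a n * (n : ℂ) ^ (-(ss x t)) =
      ∑ n ∈ Finset.Icc 1 N, b n * (n : ℂ) ^ (-(t * I) : ℂ) := by
    intro t
    rw [← Finset.sum_subset hS]
    · refine Finset.sum_congr rfl fun n hn => ?_
      rw [V_cpow (Finset.mem_Icc.1 (hS hn)).1]
      simp only [b, hn, if_true]
      ring
    · intro n _ hn
      simp only [b, hn, if_false, zero_mul]
  have h2T : (0 : ℝ) < 2 * T := by linarith
  have h2 := dirichlet_mean_value h2T hN b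
  have hint : Integrable (fun t : ℝ => ‖∑ n ∈ Finset.Icc 1 N, b n * (n : ℂ) ^ (-(t * I) : ℂ)‖ ^ 2 *
      fejerW (t / (2 * T))) := by
    have h3 := fejer_integrable (Finset.Icc 1 N) (fun n => Real.log n) b h2T
    refine h3.congr (Filter.Eventually.of_forall fun t => ?_)
    simp only
    congr 3
    refine Finset.sum_congr rfl fun n hn => ?_
    have hn0 : (n : ℂ) ≠ 0 := by
      have := (Finset.mem_Icc.mp hn).1
      exact_mod_cast (by omega : n ≠ 0)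
    congr 1
    rw [Complex.cpow_def_of_ne_zero hn0]
    congr 1
    rw [← Complex.natCast_log]
    push_cast
    ring
  have h4 : ∫ t in u..v, ‖∑ n ∈ S, a n * (n : ℂ) ^ (-(ss x t))‖ ^ 2 ≤
      ∫ t : ℝ, ‖∑ n ∈ Finset.Icc 1 N, b n * (n : ℂ) ^ (-(t * I) : ℂ)‖ ^ 2 *
      fejerW (t / (2 * T)) := by
    rw [intervalIntegral.integral_of_le huv]
    refine le_trans ?_ (setIntegral_le_integral (s := Ioc u v) hint
      (Filter.Eventually.of_forall fun t => by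
        simp only [Pi.zero_apply]
        exact mul_nonneg (by positivity) (fejerW_nonneg _)))
    refine integral_mono_of_nonneg (Filter.Eventually.of_forall fun t => by positivity)
      hint.integrableOn ?_
    refine (ae_restrict_iff' measurableSet_Ioc).2 (Filter.Eventually.of_forall fun t ht => ?_)
    simp only
    rw [h1 t]
    have h5 : 1 ≤ fejerW (t / (2 * T)) := by
      apply fejerW_ge_one
      rw [abs_div, abs_of_pos h2T, div_le_one h2T, abs_le]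
      exact ⟨by linarith [ht.1], by linarith [ht.2]⟩
    nlinarith [sq_nonneg ‖∑ n ∈ Finset.Icc 1 N, b n * (n : ℂ) ^ (-(t * I) : ℂ)‖]
  refine h4.trans ?_
  rw [h2]
  have h6 : ∑ n ∈ Finset.Icc 1 N, ‖b n‖ ^ 2 ≤
      Real.exp (2 * (K * max (-x) 0)) * ∑ n ∈ S, ‖a n‖ ^ 2 / n := by
    rw [← Finset.sum_subset hS, Finset.mul_sum]
    · refine Finset.sum_le_sum fun n hn => ?_
      simp only [b, hn, if_true]
      rw [norm_mul, mul_pow, Complex.norm_real, Real.norm_eq_abs, sq_abs]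
      have h7 := V_npow (Finset.mem_Icc.1 (hS hn)).1 (x := x) (hK n hn)
      calc ‖a n‖ ^ 2 * ((n : ℝ) ^ (-(1 / 2 + x))) ^ 2 ≤
          ‖a n‖ ^ 2 * (Real.exp (2 * (K * max (-x) 0)) / n) :=
            mul_le_mul_of_nonneg_left h7 (by positivity)
        _ = Real.exp (2 * (K * max (-x) 0)) * (‖a n‖ ^ 2 / n) := by ring
    · intro n _ hn
      simp only [b, hn, if_false, norm_zero]
      norm_num
  calc 5 / 2 * Real.pi * (2 * T) * ∑ n ∈ Finset.Icc 1 N, ‖b n‖ ^ 2 =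
      5 * Real.pi * T * ∑ n ∈ Finset.Icc 1 N, ‖b n‖ ^ 2 := by ring
    _ ≤ _ := mul_le_mul_of_nonneg_left h6 (by positivity)

lemma V_cs {g : ℝ → ℂ} (hg : Continuous g) {u v B T : ℝ} (huv : u ≤ v) (hT : v - u ≤ T)
    (hB : 0 < B) (h : ∫ t in u..v, ‖g t‖ ^ 2 ≤ B ^ 2 * T) : ∫ t in u..v, ‖g t‖ ≤ B * T := by
  have h1 : ∫ t in u..v, ‖g t‖ ≤ ∫ t in u..v, (B / 2 + (1 / (2 * B)) * ‖g t‖ ^ 2) := by
    apply intervalIntegral.integral_mono_on huv
    · exact (hg.norm).intervalIntegrable _ _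
    · exact (Continuous.intervalIntegrable (by fun_prop) _ _)
    · intro t _
      have h2 : 0 ≤ (B - ‖g t‖) ^ 2 / (2 * B) := by positivity
      have h3 : (B - ‖g t‖) ^ 2 / (2 * B) = B / 2 + (1 / (2 * B)) * ‖g t‖ ^ 2 - ‖g t‖ := by
        field_simp
        ring
      linarith
  rw [intervalIntegral.integral_add (Continuous.intervalIntegrable (by fun_prop) _ _)
    (Continuous.intervalIntegrable (by fun_prop) _ _), intervalIntegral.integral_const,
    intervalIntegral.integral_const_mul, smul_eq_mul] at h1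
  have h4 : 1 / (2 * B) * ∫ t in u..v, ‖g t‖ ^ 2 ≤ 1 / (2 * B) * (B ^ 2 * T) :=
    mul_le_mul_of_nonneg_left h (by positivity)
  have h5 : 1 / (2 * B) * (B ^ 2 * T) = B / 2 * T := by
    field_simp
  have h6 : (v - u) * (B / 2) ≤ T * (B / 2) := mul_le_mul_of_nonneg_right hT (by positivity)
  linarith

lemma V_log_le {T κ : ℝ} (hT : 1 ≤ T) {n : ℕ} (hn : 1 ≤ n) (h : n ≤ ⌊T ^ κ⌋₊) :
    Real.log n ≤ κ * Real.log T := by
  have hT0 : 0 < T := by linarith
  have h1 : (n : ℝ) ≤ T ^ κ := (Nat.le_floor_iff (by positivity)).1 h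
  rw [← Real.log_rpow hT0]
  exact Real.log_le_log (by exact_mod_cast hn) h1

lemma V_floor_le {T κ : ℝ} (hT : 1 ≤ T) (hκ : κ ≤ 1) : (⌊T ^ κ⌋₊ : ℝ) ≤ T := by
  have h1 : (⌊T ^ κ⌋₊ : ℝ) ≤ T ^ κ := Nat.floor_le (by positivity)
  have h2 : T ^ κ ≤ T ^ (1 : ℝ) := Real.rpow_le_rpow_of_exponent_le hT hκ
  rw [Real.rpow_one] at h2
  linarith

lemma V_int_mono {f g : ℝ → ℝ} (hf : ∀ t, 0 ≤ f t) (hg : Continuous g) {u v : ℝ} (huv : u ≤ v)
    (h : ∀ t ∈ Icc u v, f t ≤ g t) : ∫ t in u..v, f t ≤ ∫ t in u..v, g t := by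
  rw [intervalIntegral.integral_of_le huv, intervalIntegral.integral_of_le huv]
  refine integral_mono_of_nonneg (Filter.Eventually.of_forall fun t => hf t) ?_ ?_
  · exact (hg.integrableOn_Icc).mono_set Ioc_subset_Icc_self
  · refine (ae_restrict_iff' measurableSet_Ioc).2 (Filter.Eventually.of_forall fun t ht => ?_)
    exact h t (Ioc_subset_Icc_self ht)

/-- mean value of `V` on subintervals -/
theorem V_vmean_gen : ∃ C : ℝ, 0 < C ∧ ∀ D : AData, ∃ T0 : ℝ, ∀ T : ℝ, T0 ≤ T → ∀ x u v : ℝ,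
    T ≤ u → u ≤ v → v ≤ 2 * T →
    ∫ t in u..v, ‖Vs D T (ss x t)‖ ^ 2 ≤
      C / D.ep * Real.exp (2 * (ka D T * max (-x) 0)) * T := by
  obtain ⟨C1, hC1, h1⟩ := sum_Gb
  refine ⟨5 * Real.pi * C1, by positivity, fun D => ?_⟩
  obtain ⟨T1, hT1⟩ := h1 D
  refine ⟨max T1 (Real.exp 1), fun T hT x u v hu huv hv => ?_⟩
  have hTT1 : T1 ≤ T := (le_max_left _ _).trans hT
  have hTe : Real.exp 1 ≤ T := (le_max_right _ _).trans hT
  have hT1' : 1 ≤ T := le_trans (by linarith [Real.add_one_le_exp (1 : ℝ)]) hTe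
  have hT0 : 0 < T := by linarith
  have hep := D.ep_pos
  have hXT : ((XN D T : ℕ) : ℝ) ≤ T := V_floor_le hT1' (by linarith)
  have h2 := V_mvt (S := Finset.Icc 1 (XN D T)) (N := XN D T) (Finset.Subset.refl _) hT0
    (by linarith) (fun n => (av D T n : ℂ)) (x := x) (K := ka D T)
    (fun n hn => V_log_le hT1' (Finset.mem_Icc.1 hn).1 (Finset.mem_Icc.1 hn).2)
    (u := u) (v := v) (by linarith) huv hv
  refine h2.trans ?_
  have h3 : ∑ n ∈ Finset.Icc 1 (XN D T), ‖(av D T n : ℂ)‖ ^ 2 / n ≤ C1 / D.ep := by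
    refine le_trans ?_ (hT1 T hTT1)
    refine (Finset.sum_le_sum fun n hn => ?_).trans
      (Finset.sum_le_sum_of_subset_of_nonneg (s := Finset.Icc 1 (XN D T)) ?_ fun n _ _ => by
        positivity)
    · have hn1 := (Finset.mem_Icc.1 hn).1
      have hnT : (n : ℝ) ≤ T := le_trans (by exact_mod_cast (Finset.mem_Icc.1 hn).2) hXT
      have h4 := (norm_bn_le D (τ := 0) le_rfl (by norm_num) hTe hn1 hnT).2
      rw [Complex.norm_real, Real.norm_eq_abs]
      apply div_le_div_of_nonneg_right _ (Nat.cast_nonneg n)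
      exact pow_le_pow_left₀ (abs_nonneg _) h4 2
    · apply Finset.Icc_subset_Icc le_rfl
      exact Nat.le_floor hXT
  calc 5 * Real.pi * T * (Real.exp (2 * (ka D T * max (-x) 0)) *
        ∑ n ∈ Finset.Icc 1 (XN D T), ‖(av D T n : ℂ)‖ ^ 2 / n) ≤
      5 * Real.pi * T * (Real.exp (2 * (ka D T * max (-x) 0)) * (C1 / D.ep)) := by gcongr
    _ = _ := by ring

/-- V1 -/
theorem vmean : ∃ C : ℝ, 0 < C ∧ ∀ D : AData, ∃ T0 : ℝ, ∀ T : ℝ, T0 ≤ T → ∀ x : ℝ,
    |x| ≤ 1 / (D.ep * Real.log T) →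
    ∫ t in T..(2 * T), ‖Vs D T (ss x t)‖ ^ 2 ≤
      C / D.ep * Real.exp (2 * (ka D T * max (-x) 0)) * T := by
  obtain ⟨C, hC, h⟩ := V_vmean_gen
  refine ⟨C, hC, fun D => ?_⟩
  obtain ⟨T0, hT0⟩ := h D
  refine ⟨max T0 0, fun T hT x _ => ?_⟩
  have h0 : 0 ≤ T := (le_max_right _ _).trans hT
  exact hT0 T ((le_max_left _ _).trans hT) x T (2 * T) le_rfl (by linarith) le_rfl

lemma V_exp_sub (a b : ℝ) :
    ‖Complex.exp ((a : ℂ) * I) - Complex.exp ((b : ℂ) * I)‖ ≤ |a - b| := by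
  have h1 : Complex.exp ((a : ℂ) * I) - Complex.exp ((b : ℂ) * I) =
      Complex.exp ((b : ℂ) * I) * (Complex.exp (I * ((a - b : ℝ) : ℂ)) - 1) := by
    rw [mul_sub, ← Complex.exp_add, mul_one]
    congr 2
    push_cast
    ring
  rw [h1, norm_mul, Complex.norm_exp_ofReal_mul_I, one_mul]
  exact Real.norm_exp_I_mul_ofReal_sub_one_le

lemma V_phase (D : AData) {τ : ℝ} (h1 : 1 / 2 - D.ep ^ 2 ≤ τ) (h2 : τ < 1 / 2) :
    ‖Complex.exp (((Real.pi * τ : ℝ) : ℂ) * I) + ph D τ‖ ≤ 2 * D.ep := by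
  have hep := D.ep_pos
  have hep1 := D.ep_le
  have h3 : Complex.exp (((Real.pi * τ : ℝ) : ℂ) * I) =
      -Complex.exp (((Real.pi * τ - Real.pi : ℝ) : ℂ) * I) := by
    have : (((Real.pi * τ - Real.pi : ℝ) : ℂ) * I) = ((Real.pi * τ : ℝ) : ℂ) * I - Real.pi * I := by
      push_cast
      ring
    rw [this, Complex.exp_sub, Complex.exp_pi_mul_I, div_neg, div_one, neg_neg]
  rw [h3]
  unfold ph
  rw [neg_add_eq_sub]
  refine (V_exp_sub _ _).trans ?_
  have h4 : -(Real.pi * (1 - D.ep) * τ) - (Real.pi * τ - Real.pi) =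
      Real.pi * (1 - τ * (2 - D.ep)) := by ring
  rw [h4, abs_mul, abs_of_pos Real.pi_pos]
  have h5 : 0 ≤ 1 - τ * (2 - D.ep) := by nlinarith
  have h6 : 1 - τ * (2 - D.ep) ≤ 52 / 100 * D.ep := by
    have h7 : (1 / 2 - D.ep ^ 2) * (2 - D.ep) ≤ τ * (2 - D.ep) :=
      mul_le_mul_of_nonneg_right h1 (by linarith)
    have h8 : D.ep ^ 2 ≤ 1 / 100 * D.ep := by nlinarith
    have h9 : 0 ≤ D.ep ^ 3 := by positivity
    nlinarith
  rw [abs_of_nonneg h5]
  have h10 := Real.pi_lt_d2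
  have h11 : Real.pi * (1 - τ * (2 - D.ep)) ≤ Real.pi * (52 / 100 * D.ep) :=
    mul_le_mul_of_nonneg_left h6 Real.pi_pos.le
  nlinarith

lemma V_sum_diff (D : AData) {τ T C1 C2 : ℝ} (hτ0 : 0 ≤ τ) (hτ2 : τ ≤ 1 / 2)
    (hTe : Real.exp 1 ≤ T) (hC1 : 0 < C1) (hL2 : 1 ≤ D.ep * Real.log T)
    (hw : ∀ X Y : ℝ, T ^ (1 / 2 : ℝ) ≤ X → X ≤ Y → Y ≤ T →
      ∑ n ∈ Finset.Ioc ⌊X⌋₊ ⌊Y⌋₊, Gb D T n ^ 2 / n ≤
        C1 / D.ep * ((Real.log (Y / X) + 1) / Real.log T))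
    (hfirst : ∑ n ∈ Finset.Icc 1 (X0 D T),
      ‖bn D T (alp τ T) n - (av D T n : ℂ)‖ ^ 2 / n ≤ C2) :
    ∑ n ∈ Finset.Icc 1 (XN D T), ‖bn D T (alp τ T) n - (av D T n : ℂ)‖ ^ 2 / n ≤
      C2 + 8 * C1 := by
  have hep := D.ep_pos
  have hep1 := D.ep_le
  have hT1' : 1 ≤ T := le_trans (by linarith [Real.add_one_le_exp (1 : ℝ)]) hTe
  have hT0 : 0 < T := by linarith
  have hXT : ((XN D T : ℕ) : ℝ) ≤ T := V_floor_le hT1' (by linarith)
  set L := Real.log T with hLdef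
  have hLpos : 0 < L := by
    by_contra hcon
    have : D.ep * L ≤ 0 := mul_nonpos_of_nonneg_of_nonpos hep.le (not_lt.1 hcon)
    linarith
  have hX01 : X0 D T ≤ XN D T := by
    apply Nat.floor_mono
    apply Real.rpow_le_rpow_of_exponent_le hT1'
    nlinarith [sq_nonneg D.ep]
  have hsplit : ∑ n ∈ Finset.Icc 1 (XN D T), ‖bn D T (alp τ T) n - (av D T n : ℂ)‖ ^ 2 / n =
      ∑ n ∈ Finset.Icc 1 (X0 D T), ‖bn D T (alp τ T) n - (av D T n : ℂ)‖ ^ 2 / n +
      ∑ n ∈ Finset.Ioc (X0 D T) (XN D T), ‖bn D T (alp τ T) n - (av D T n : ℂ)‖ ^ 2 / n := by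
    rw [← Finset.sum_union]
    · congr 1
      ext n
      simp only [Finset.mem_union, Finset.mem_Icc, Finset.mem_Ioc]
      omega
    · rw [Finset.disjoint_left]
      intro n h1 h2
      have := (Finset.mem_Icc.1 h1).2
      have := (Finset.mem_Ioc.1 h2).1
      omega
  rw [hsplit]
  have hwin := hw (T ^ (1 - D.ep - 2 * D.ep ^ 2)) (T ^ (1 - D.ep))
    (Real.rpow_le_rpow_of_exponent_le hT1' (by nlinarith))
    (Real.rpow_le_rpow_of_exponent_le hT1' (by nlinarith [sq_nonneg D.ep]))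
    (by
      have := Real.rpow_le_rpow_of_exponent_le hT1' (show 1 - D.ep ≤ 1 by linarith)
      rwa [Real.rpow_one] at this)
  have hlogw : Real.log (T ^ (1 - D.ep) / T ^ (1 - D.ep - 2 * D.ep ^ 2)) = 2 * D.ep ^ 2 * L := by
    rw [← Real.rpow_sub hT0, Real.log_rpow hT0]
    ring
  rw [hlogw] at hwin
  have hw2 : C1 / D.ep * ((2 * D.ep ^ 2 * L + 1) / L) ≤ 2 * C1 := by
    have h1 : C1 / D.ep * ((2 * D.ep ^ 2 * L + 1) / L) = C1 * (2 * D.ep + 1 / (D.ep * L)) := by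
      field_simp
    rw [h1]
    have h2 : 1 / (D.ep * L) ≤ 1 := by
      rw [div_le_one (by positivity)]
      linarith
    nlinarith
  have hsecond : ∑ n ∈ Finset.Ioc (X0 D T) (XN D T),
      ‖bn D T (alp τ T) n - (av D T n : ℂ)‖ ^ 2 / n ≤
      4 * ∑ n ∈ Finset.Ioc ⌊T ^ (1 - D.ep - 2 * D.ep ^ 2)⌋₊ ⌊T ^ (1 - D.ep)⌋₊,
        Gb D T n ^ 2 / n := by
    rw [Finset.mul_sum]
    refine Finset.sum_le_sum fun n hn => ?_
    have hn1 : 1 ≤ n := by
      have := (Finset.mem_Ioc.1 hn).1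
      omega
    have hnT : (n : ℝ) ≤ T := le_trans (by exact_mod_cast (Finset.mem_Ioc.1 hn).2) hXT
    obtain ⟨h1, h2⟩ := norm_bn_le D hτ0 hτ2 hTe hn1 hnT
    have h3 : ‖bn D T (alp τ T) n - (av D T n : ℂ)‖ ≤ 2 * Gb D T n := by
      refine (norm_sub_le _ _).trans ?_
      rw [Complex.norm_real, Real.norm_eq_abs]
      linarith
    have h4 : ‖bn D T (alp τ T) n - (av D T n : ℂ)‖ ^ 2 ≤ (2 * Gb D T n) ^ 2 :=
      pow_le_pow_left₀ (norm_nonneg _) h3 2
    calc ‖bn D T (alp τ T) n - (av D T n : ℂ)‖ ^ 2 / n ≤ (2 * Gb D T n) ^ 2 / n :=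
          div_le_div_of_nonneg_right h4 (Nat.cast_nonneg n)
      _ = 4 * (Gb D T n ^ 2 / n) := by ring
  linarith

/-- V2 -/
theorem lowmean : ∃ C : ℝ, 0 < C ∧ ∀ D : AData, ∀ τ : ℝ, 1 / 2 - D.ep ^ 2 ≤ τ → τ < 1 / 2 →
    ∃ T0 : ℝ, ∀ T : ℝ, T0 ≤ T → ∀ x : ℝ, |x| ≤ 1 / (D.ep * Real.log T) →
    ∫ t in (5 * T / 4)..(7 * T / 4),
      ‖LowP D T (alp τ T) (ss x t) + ph D τ * Vs D T (ss x t)‖ ≤
      C * Real.exp (ka D T * max (-x) 0) * T := by
  obtain ⟨C1, hC1, hw⟩ := window_Gb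
  obtain ⟨C2, hC2, hb⟩ := sum_bn_sub_av
  obtain ⟨C3, hC3, T3, hg⟩ := gam_half
  obtain ⟨C4, hC4, hv⟩ := V_vmean_gen
  refine ⟨2 * Real.sqrt (5 * Real.pi * (C2 + 8 * C1)) + 3 * Real.sqrt C4, by positivity,
    fun D τ hτ1 hτ2 => ?_⟩
  obtain ⟨T1, hT1⟩ := hw D
  obtain ⟨T2, hT2⟩ := hb D
  obtain ⟨T4, hT4⟩ := hv D
  have hep := D.ep_pos
  have hep1 := D.ep_le
  have hτ0 : 0 ≤ τ := by nlinarith
  have hlogT : Filter.Tendsto Real.log Filter.atTop Filter.atTop := Real.tendsto_log_atTop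
  obtain ⟨T5, hT5⟩ := Filter.eventually_atTop.1 (hlogT.eventually_ge_atTop
    ((C3 + 4) / D.ep))
  refine ⟨max (max (max T1 T2) (max T3 T4)) (max T5 (Real.exp 1)), fun T hT x hx => ?_⟩
  have hTT1 : T1 ≤ T := ((le_max_left _ _).trans ((le_max_left _ _).trans (le_max_left _ _))).trans hT
  have hTT2 : T2 ≤ T := ((le_max_right _ _).trans ((le_max_left _ _).trans (le_max_left _ _))).trans hT
  have hTT3 : T3 ≤ T := ((le_max_left _ _).trans ((le_max_right _ _).trans (le_max_left _ _))).trans hT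
  have hTT4 : T4 ≤ T := ((le_max_right _ _).trans ((le_max_right _ _).trans (le_max_left _ _))).trans hT
  have hTT5 : T5 ≤ T := ((le_max_left _ _).trans (le_max_right _ _)).trans hT
  have hTe : Real.exp 1 ≤ T := ((le_max_right _ _).trans (le_max_right _ _)).trans hT
  have hT1' : 1 ≤ T := le_trans (by linarith [Real.add_one_le_exp (1 : ℝ)]) hTe
  have hT0 : 0 < T := by linarith
  have hL := hT5 T hTT5
  set L := Real.log T with hLdef
  have hL2 : C3 + 4 ≤ D.ep * L := by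
    rw [div_le_iff₀ hep] at hL
    linarith
  have hLpos : 0 < L := by
    by_contra hcon
    have : D.ep * L ≤ 0 := mul_nonpos_of_nonneg_of_nonpos hep.le (not_lt.1 hcon)
    linarith
  have hx4 : |x| ≤ 1 / 4 := by
    refine hx.trans ?_
    apply one_div_le_one_div_of_le (by norm_num)
    linarith
  set m := max (-x) 0 with hm
  have hm0 : 0 ≤ m := le_max_right _ _
  have hexp2 : Real.exp (2 * (ka D T * m)) = Real.exp (ka D T * m) ^ 2 := by
    rw [← Real.exp_nat_mul]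
    push_cast
    ring_nf
  have hXT : ((XN D T : ℕ) : ℝ) ≤ T := V_floor_le hT1' (by linarith)
  have hS1 : ∑ n ∈ Finset.Icc 1 (XN D T), ‖bn D T (alp τ T) n - (av D T n : ℂ)‖ ^ 2 / n ≤
      C2 + 8 * C1 :=
    V_sum_diff D hτ0 hτ2.le hTe hC1 (by linarith) (hT1 T hTT1) (hT2 T hTT2 τ hτ0 hτ2.le)
  -- the two polynomials
  let g1 : ℝ → ℂ := fun t => ∑ n ∈ Finset.Icc 1 (XN D T),
    (bn D T (alp τ T) n - (av D T n : ℂ)) * (n : ℂ) ^ (-(ss x t))
  let g2 : ℝ → ℂ := fun t => Vs D T (ss x t)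
  have hg1c : Continuous g1 := V_continuous _ (fun n hn => (Finset.mem_Icc.1 hn).1) _ x
  have hg2c : Continuous g2 := V_continuous _ (fun n hn => (Finset.mem_Icc.1 hn).1)
    (fun n => (av D T n : ℂ)) x
  have hint1 : ∫ t in (5 * T / 4)..(7 * T / 4), ‖g1 t‖ ≤
      (Real.sqrt (5 * Real.pi * (C2 + 8 * C1)) * Real.exp (ka D T * m)) * T := by
    refine V_cs hg1c (by linarith) (by linarith) (by positivity) ?_
    refine (V_mvt (S := Finset.Icc 1 (XN D T)) (N := XN D T) (Finset.Subset.refl _) hT0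
      (by linarith) (fun n => bn D T (alp τ T) n - (av D T n : ℂ)) (x := x) (K := ka D T)
      (fun n hn => V_log_le hT1' (Finset.mem_Icc.1 hn).1 (Finset.mem_Icc.1 hn).2)
      (by linarith) (by linarith) (by linarith)).trans ?_
    rw [mul_pow, Real.sq_sqrt (by positivity), ← hm, hexp2]
    calc 5 * Real.pi * T * (Real.exp (ka D T * m) ^ 2 *
          ∑ n ∈ Finset.Icc 1 (XN D T), ‖bn D T (alp τ T) n - (av D T n : ℂ)‖ ^ 2 / n) ≤
        5 * Real.pi * T * (Real.exp (ka D T * m) ^ 2 * (C2 + 8 * C1)) := by gcongr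
      _ = _ := by ring
  have hint2 : ∫ t in (5 * T / 4)..(7 * T / 4), ‖g2 t‖ ≤
      (Real.sqrt C4 / D.ep * Real.exp (ka D T * m)) * T := by
    refine V_cs hg2c (by linarith) (by linarith) (by positivity) ?_
    refine (hT4 T hTT4 x (5 * T / 4) (7 * T / 4) (by linarith) (by linarith)
      (by linarith)).trans ?_
    rw [mul_pow, div_pow, Real.sq_sqrt hC4.le, ← hm, hexp2]
    have h1 : C4 / D.ep ≤ C4 / D.ep ^ 2 := by
      apply div_le_div_of_nonneg_left hC4.le (by positivity)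
      nlinarith
    gcongr
  -- the pointwise bound
  have hpt : ∀ t ∈ Icc (5 * T / 4) (7 * T / 4),
      ‖LowP D T (alp τ T) (ss x t) + ph D τ * Vs D T (ss x t)‖ ≤
      2 * ‖g1 t‖ + 3 * D.ep * ‖g2 t‖ := by
    intro t ht
    have hre : (ss x t).re = 1 / 2 + x := by simp [ss]
    have him : (ss x t).im = t := by simp [ss]
    have h1 := hg T hTT3 τ hτ0 hτ2.le (ss x t) (by rw [hre]; simpa using hx4)
      (by rw [him]; linarith [ht.1]) (by rw [him]; linarith [ht.2])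
    have h2 : C3 / Real.log T ≤ D.ep := by
      rw [div_le_iff₀ hLpos]
      linarith
    have h3 := V_phase D hτ1 hτ2
    have hn1 : ‖Complex.exp (((Real.pi * τ : ℝ) : ℂ) * I)‖ = 1 := Complex.norm_exp_ofReal_mul_I _
    have h4 : ‖gam (alp τ T) (ss x t)‖ ≤ 2 := by
      have := norm_sub_norm_le (gam (alp τ T) (ss x t)) (Complex.exp (((Real.pi * τ : ℝ) : ℂ) * I))
      linarith
    have h5 : ‖gam (alp τ T) (ss x t) + ph D τ‖ ≤ 3 * D.ep := by
      have h6 : gam (alp τ T) (ss x t) + ph D τ =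
          (gam (alp τ T) (ss x t) - Complex.exp (((Real.pi * τ : ℝ) : ℂ) * I)) +
          (Complex.exp (((Real.pi * τ : ℝ) : ℂ) * I) + ph D τ) := by ring
      rw [h6]
      refine (norm_add_le _ _).trans ?_
      linarith
    have h7 : LowP D T (alp τ T) (ss x t) + ph D τ * Vs D T (ss x t) =
        gam (alp τ T) (ss x t) * g1 t + (gam (alp τ T) (ss x t) + ph D τ) * g2 t := by
      have h8 : g1 t = ∑ n ∈ Finset.Icc 1 (XN D T), bn D T (alp τ T) n * (n : ℂ) ^ (-(ss x t)) -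
          Vs D T (ss x t) := by
        show ∑ n ∈ Finset.Icc 1 (XN D T),
          (bn D T (alp τ T) n - (av D T n : ℂ)) * (n : ℂ) ^ (-(ss x t)) = _
        unfold Vs
        rw [← Finset.sum_sub_distrib]
        exact Finset.sum_congr rfl fun n _ => by ring
      rw [h8]
      show LowP D T (alp τ T) (ss x t) + ph D τ * Vs D T (ss x t) =
        gam (alp τ T) (ss x t) * (_ - Vs D T (ss x t)) +
          (gam (alp τ T) (ss x t) + ph D τ) * Vs D T (ss x t)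
      unfold LowP
      ring
    rw [h7]
    refine (norm_add_le _ _).trans ?_
    rw [norm_mul, norm_mul]
    exact add_le_add (mul_le_mul_of_nonneg_right h4 (norm_nonneg _))
      (mul_le_mul_of_nonneg_right h5 (norm_nonneg _))
  refine (V_int_mono (fun t => norm_nonneg _) (by fun_prop) (by linarith) hpt).trans ?_
  rw [intervalIntegral.integral_add (Continuous.intervalIntegrable (by fun_prop) _ _)
    (Continuous.intervalIntegrable (by fun_prop) _ _), intervalIntegral.integral_const_mul,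
    intervalIntegral.integral_const_mul]
  have hfin : 3 * D.ep * ((Real.sqrt C4 / D.ep * Real.exp (ka D T * m)) * T) =
      3 * Real.sqrt C4 * Real.exp (ka D T * m) * T := by
    field_simp
  have h8 : 3 * D.ep * ∫ t in (5 * T / 4)..(7 * T / 4), ‖g2 t‖ ≤
      3 * D.ep * ((Real.sqrt C4 / D.ep * Real.exp (ka D T * m)) * T) :=
    mul_le_mul_of_nonneg_left hint2 (by positivity)
  rw [hfin] at h8
  nlinarith

/-- V3 -/
theorem winmean : ∃ C : ℝ, 0 < C ∧ ∀ D : AData, ∀ τ : ℝ, 1 / 2 - D.ep ^ 2 ≤ τ → τ < 1 / 2 →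
    ∃ T0 : ℝ, ∀ T : ℝ, T0 ≤ T → ∀ x : ℝ, |x| ≤ 2 / (D.ep * Real.log T) →
    ∫ t in T..(2 * T), ‖WinP D T (alp τ T) (ss x t)‖ ≤
      C * Real.exp (ka D T * max (-x) 0) * T := by
  obtain ⟨C1, hC1, hw⟩ := window_Gb
  refine ⟨Real.sqrt (15 / 2 * Real.pi * C1 * Real.exp 2), by positivity, fun D τ hτ1 hτ2 => ?_⟩
  obtain ⟨T1, hT1⟩ := hw D
  have hep := D.ep_pos
  have hep1 := D.ep_le
  have hτ0 : 0 ≤ τ := by nlinarith
  have hlogT : Filter.Tendsto Real.log Filter.atTop Filter.atTop := Real.tendsto_log_atTop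
  obtain ⟨T5, hT5⟩ := Filter.eventually_atTop.1 (hlogT.eventually_ge_atTop (1 / D.ep))
  refine ⟨max T1 (max T5 (Real.exp 1)), fun T hT x hx => ?_⟩
  have hTT1 : T1 ≤ T := (le_max_left _ _).trans hT
  have hTT5 : T5 ≤ T := ((le_max_left _ _).trans (le_max_right _ _)).trans hT
  have hTe : Real.exp 1 ≤ T := ((le_max_right _ _).trans (le_max_right _ _)).trans hT
  have hT1' : 1 ≤ T := le_trans (by linarith [Real.add_one_le_exp (1 : ℝ)]) hTe
  have hT0 : 0 < T := by linarith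
  have hL := hT5 T hTT5
  set L := Real.log T with hLdef
  have hL2 : 1 ≤ D.ep * L := by
    rw [div_le_iff₀ hep] at hL
    linarith
  have hLpos : 0 < L := by
    by_contra hcon
    have : D.ep * L ≤ 0 := mul_nonpos_of_nonneg_of_nonpos hep.le (not_lt.1 hcon)
    linarith
  set m := max (-x) 0 with hm
  have hm0 : 0 ≤ m := le_max_right _ _
  have hm1 : m ≤ 2 / (D.ep * L) := by
    refine le_trans ?_ hx
    rw [hm]
    exact max_le (neg_le_abs x) (abs_nonneg x)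
  have hm2 : D.ep * L * m ≤ 2 := by
    have := mul_le_mul_of_nonneg_left hm1 (show 0 ≤ D.ep * L by positivity)
    rwa [mul_div_cancel₀ _ (by positivity)] at this
  have hXT : ((X1 D T : ℕ) : ℝ) ≤ T := V_floor_le hT1' (by linarith)
  have hexp2 : Real.exp (2 * ((1 - D.ep / 2) * L * m)) ≤
      Real.exp 2 * Real.exp (ka D T * m) ^ 2 := by
    rw [← Real.exp_nat_mul, ← Real.exp_add]
    apply Real.exp_le_exp.2
    unfold ka
    push_cast
    nlinarith
  have hwin := hT1 T hTT1 (T ^ (1 - D.ep)) (T ^ (1 - D.ep / 2))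
    (Real.rpow_le_rpow_of_exponent_le hT1' (by linarith))
    (Real.rpow_le_rpow_of_exponent_le hT1' (by linarith))
    (by
      have := Real.rpow_le_rpow_of_exponent_le hT1' (show 1 - D.ep / 2 ≤ 1 by linarith)
      rwa [Real.rpow_one] at this)
  have hlogw : Real.log (T ^ (1 - D.ep / 2) / T ^ (1 - D.ep)) = D.ep / 2 * L := by
    rw [← Real.rpow_sub hT0, Real.log_rpow hT0]
    ring
  rw [hlogw] at hwin
  have hw2 : C1 / D.ep * ((D.ep / 2 * L + 1) / L) ≤ 3 / 2 * C1 := by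
    have h1 : C1 / D.ep * ((D.ep / 2 * L + 1) / L) = C1 * (1 / 2 + 1 / (D.ep * L)) := by
      field_simp
    rw [h1]
    have h2 : 1 / (D.ep * L) ≤ 1 := by
      rw [div_le_one (by positivity)]
      linarith
    nlinarith
  have hsum : ∑ n ∈ Finset.Ioc (XN D T) (X1 D T), ‖bn D T (alp τ T) n‖ ^ 2 / n ≤ 3 / 2 * C1 := by
    refine le_trans (Finset.sum_le_sum fun n hn => ?_) (hwin.trans hw2)
    have hn1 : 1 ≤ n := by
      have := (Finset.mem_Ioc.1 hn).1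
      omega
    have hnT : (n : ℝ) ≤ T := le_trans (by exact_mod_cast (Finset.mem_Ioc.1 hn).2) hXT
    obtain ⟨h1, h2⟩ := norm_bn_le D hτ0 hτ2.le hTe hn1 hnT
    exact div_le_div_of_nonneg_right (pow_le_pow_left₀ (norm_nonneg _) h1 2) (Nat.cast_nonneg n)
  have hS : Finset.Ioc (XN D T) (X1 D T) ⊆ Finset.Icc 1 (X1 D T) := by
    intro n hn
    have h1 := Finset.mem_Ioc.1 hn
    exact Finset.mem_Icc.2 ⟨by omega, h1.2⟩
  have hgc : Continuous (fun t => WinP D T (alp τ T) (ss x t)) :=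
    V_continuous _ (fun n hn => (Finset.mem_Icc.1 (hS hn)).1) (fun n => bn D T (alp τ T) n) x
  refine V_cs hgc (by linarith) (by linarith) (by positivity) ?_
  refine (V_mvt hS hT0 (by linarith) (fun n => bn D T (alp τ T) n) (x := x)
    (K := (1 - D.ep / 2) * L)
    (fun n hn => V_log_le hT1' (Finset.mem_Icc.1 (hS hn)).1 (Finset.mem_Ioc.1 hn).2)
    (by linarith) (by linarith) (by linarith)).trans ?_
  rw [mul_pow, Real.sq_sqrt (by positivity), ← hm]
  calc 5 * Real.pi * T * (Real.exp (2 * ((1 - D.ep / 2) * L * m)) *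
        ∑ n ∈ Finset.Ioc (XN D T) (X1 D T), ‖bn D T (alp τ T) n‖ ^ 2 / n) ≤
      5 * Real.pi * T * ((Real.exp 2 * Real.exp (ka D T * m) ^ 2) * (3 / 2 * C1)) := by
        have h9 : (0 : ℝ) ≤ ∑ n ∈ Finset.Ioc (XN D T) (X1 D T), ‖bn D T (alp τ T) n‖ ^ 2 / n :=
          Finset.sum_nonneg fun n _ => by positivity
        gcongr
    _ = _ := by ring

end Pool.Agent.AHD
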