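import Pool.Agent.ZGap.AH.C1
import Pool.Agent.ZGap.AH.K4
import Pool.Agent.ZGap.AH.V
import Pool.Agent.ZGap.AH.R2
import Pool.Agent.ZGap.Half.Holder

/-!
# The mean of the difference
-/

open scoped ContDiff

namespace Pool.Agent.AHD

open Complex MeasureTheory Set Pool.Agent.Hadamard Pool.Agent.HalfGap

/-- Fubini with a continuous kernel. -/
lemma C2_fub {a b h1 h2 M : ℝ} (hab : a ≤ b) {S : Set ℝ} (hS : MeasurableSet S)
    (hS' : S ⊆ Icc h1 h2) {P k : ℝ → ℝ} (hP : Continuous P) (hP0 : ∀ u, 0 ≤ P u)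
    (hk : Continuous k) (hM : ∀ u ∈ S, ∫ t in a..b, k (u - t) ≤ M) :
    IntervalIntegrable (fun t => ∫ u in S, P u * k (u - t)) volume a b ∧
    ∫ t in a..b, (∫ u in S, P u * k (u - t)) ≤ M * ∫ u in S, P u := by
  have hcont : Continuous (fun z : ℝ × ℝ => P z.2 * k (z.2 - z.1)) := by fun_prop
  have hint : IntegrableOn (fun z : ℝ × ℝ => P z.2 * k (z.2 - z.1)) (Ioc a b ×ˢ S)
      (volume.prod volume) := by
    have h1 : IntegrableOn (fun z : ℝ × ℝ => P z.2 * k (z.2 - z.1)) (Icc a b ×ˢ Icc h1 h2)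
        (volume.prod volume) :=
      hcont.continuousOn.integrableOn_compact (isCompact_Icc.prod isCompact_Icc)
    exact h1.mono_set (prod_mono Ioc_subset_Icc_self hS')
  have hint2 : Integrable (fun z : ℝ × ℝ => P z.2 * k (z.2 - z.1))
      ((volume.restrict (Ioc a b)).prod (volume.restrict S)) := by
    rw [Measure.prod_restrict]
    exact hint
  have hPS : IntegrableOn P S volume :=
    (hP.continuousOn.integrableOn_compact isCompact_Icc).mono_set hS'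
  refine ⟨?_, ?_⟩
  · rw [intervalIntegrable_iff_integrableOn_Ioc_of_le hab]
    exact hint2.integral_prod_left
  · rw [intervalIntegral.integral_of_le hab]
    have hsw := integral_integral_swap (f := fun t u => P u * k (u - t)) hint2
    rw [hsw]
    have h3 : ∀ u, ∫ t in Ioc a b, P u * k (u - t) = P u * ∫ t in a..b, k (u - t) := by
      intro u
      rw [intervalIntegral.integral_of_le hab, integral_const_mul]
    have h4 : IntegrableOn (fun u => P u * ∫ t in a..b, k (u - t)) S := by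
      have := hint2.integral_prod_right
      refine this.congr ?_
      filter_upwards with u
      exact h3 u
    simp only [h3]
    rw [← integral_const_mul]
    refine setIntegral_mono_on h4 (hPS.const_mul M) hS fun u hu => ?_
    rw [mul_comm M]
    exact mul_le_mul_of_nonneg_left (hM u hu) (hP0 u)

lemma C2_kk1_continuous (T : ℝ) : Continuous (kk1 T) := by
  unfold kk1
  refine continuous_const.div (by fun_prop) fun u => ?_
  positivity

lemma C2_kk1 {T : ℝ} (hT : 1 < T) (u a b : ℝ) :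
    ∫ t in a..b, kk1 T (u - t) ≤ Real.pi := by
  have hL : 0 < Real.log T := Real.log_pos hT
  have hd : ∀ t ∈ uIcc a b, HasDerivAt (fun t => -Real.arctan (Real.log T * (u - t)))
      (kk1 T (u - t)) t := by
    intro t _
    have h1 : HasDerivAt (fun t : ℝ => Real.log T * (u - t)) (Real.log T * (0 - 1)) t := by
      exact ((hasDerivAt_const t u).sub (hasDerivAt_id t)).const_mul (Real.log T)
    have h2 := h1.arctan.neg
    have e : kk1 T (u - t) =
        -(1 / (1 + (Real.log T * (u - t)) ^ 2) * (Real.log T * (0 - 1))) := by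
      unfold kk1
      ring
    rw [e]
    exact h2
  have hc : Continuous fun t => kk1 T (u - t) :=
    (C2_kk1_continuous T).comp (by fun_prop)
  rw [intervalIntegral.integral_eq_sub_of_hasDerivAt hd (hc.intervalIntegrable _ _)]
  have h1 := Real.arctan_lt_pi_div_two (Real.log T * (u - a))
  have h2 := Real.neg_pi_div_two_lt_arctan (Real.log T * (u - b))
  linarith

lemma C2_Ke_continuous (N : ℕ) (a h : ℝ) {c : ℝ} (hc : c ≠ 0) :
    Continuous fun v : ℝ => ‖Ke N a h (c + v * I)‖ := by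
  have h0 : ∀ v : ℝ, (c : ℂ) + v * I ≠ 0 := by
    intro v hv
    have := congrArg Complex.re hv
    simp at this
    exact hc this
  have h1 : Continuous fun v : ℝ => E1 (h * ((c : ℂ) + v * I)) :=
    E1_diff.continuous.comp (by fun_prop)
  unfold Ke
  refine continuous_norm.comp ?_
  refine Continuous.div ?_ (by fun_prop) h0
  exact (by fun_prop : Continuous fun v : ℝ => Complex.exp (a * ((c : ℂ) + v * I))).mul (h1.pow N)

lemma C2_Ke {N : ℕ} {a h c B : ℝ} (hc : c ≠ 0)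
    (hB : ∀ V, 0 ≤ V → ∫ v in (-V)..V, ‖Ke N a h (c + v * I)‖ ≤ B) (u p q : ℝ) (hpq : p ≤ q) :
    ∫ t in p..q, ‖Ke N a h (c + ((u - t : ℝ) : ℂ) * I)‖ ≤ B := by
  have hcont := C2_Ke_continuous N a h hc
  have h1 : ∫ t in p..q, ‖Ke N a h (c + ((u - t : ℝ) : ℂ) * I)‖ =
      ∫ v in (u - q)..(u - p), ‖Ke N a h (c + v * I)‖ :=
    intervalIntegral.integral_comp_sub_left (fun v : ℝ => ‖Ke N a h (c + v * I)‖) u
  rw [h1]
  set V : ℝ := |u - q| + |u - p| with hV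
  have hq := abs_le.1 (le_refl |u - q|)
  have hp := abs_le.1 (le_refl |u - p|)
  have hq0 := abs_nonneg (u - q)
  have hp0 := abs_nonneg (u - p)
  refine le_trans ?_ (hB V (by positivity))
  refine intervalIntegral.integral_mono_interval (by linarith) (by linarith) (by linarith) ?_ ?_
  · filter_upwards with v
    exact norm_nonneg _
  · exact hcont.intervalIntegrable _ _

lemma C2_ss_continuous (x : ℝ) : Continuous fun t : ℝ => ss x t := by
  unfold ss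
  fun_prop

lemma C2_dir_continuous (A : Finset ℕ) (hA : ∀ n ∈ A, 1 ≤ n) (b : ℕ → ℂ) (x : ℝ) :
    Continuous fun t : ℝ => ∑ n ∈ A, b n * (n : ℂ) ^ (-(ss x t)) := by
  refine continuous_finsetSum _ fun n hn => continuous_const.mul ?_
  refine Continuous.const_cpow (C2_ss_continuous x).neg (Or.inl ?_)
  have := hA n hn
  exact_mod_cast (by omega : n ≠ 0)

lemma C2_low_cont (D : AData) {τ T x a b : ℝ} (hα : 0 ≤ alp τ T) (ha : 0 < a) :
    ContinuousOn (fun t => ‖LowP D T (alp τ T) (ss x t) + ph D τ * Vs D T (ss x t)‖)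
      (Icc a b) := by
  refine ContinuousOn.norm ?_
  refine ContinuousOn.add ?_ ?_
  · unfold LowP
    refine ContinuousOn.mul ?_ ?_
    · intro t ht
      have h1 : 0 < (ss x t).im := by rw [ss_im]; exact lt_of_lt_of_le ha ht.1
      exact ((GB.gam_differentiableAt hα h1).continuousAt.comp
        (C2_ss_continuous x).continuousAt).continuousWithinAt
    · exact (C2_dir_continuous _ (fun n hn => (Finset.mem_Icc.1 hn).1) _ x).continuousOn
  · refine continuousOn_const.mul ?_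
    exact (C2_dir_continuous _ (fun n hn => (Finset.mem_Icc.1 hn).1) _ x).continuousOn

/-- The window part, pointwise. -/
lemma C2_win (D : AData) {N : ℕ} {T α h1 h2 x : ℝ} (hT : 1 < T) (h12 : h1 ≤ h2)
    (hg : ∀ u ∈ Icc h1 h2, ‖gam α (ss (x + 1 / Real.log T) u)‖ ≤ 5) (t : ℝ) :
    ‖Win D N T α h1 h2 (ss x t)‖ ≤ 5 / (2 * Real.pi) * ∫ u in Ioc h1 h2,
      ‖WinP D T α (ss (x + 1 / Real.log T) u)‖ *
        ‖Ke N (ka D T) (kh D N T) (((1 / Real.log T : ℝ) : ℂ) + ((u - t : ℝ) : ℂ) * I)‖ := by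
  have hL : 0 < Real.log T := Real.log_pos hT
  have e1 : ∀ u : ℝ, ((((ss x t).re + 1 / Real.log T : ℝ) : ℂ) + u * I) =
      ss (x + 1 / Real.log T) u := by
    intro u
    rw [ss_re]
    unfold ss
    push_cast
    ring
  have e2 : ∀ u : ℝ, ss (x + 1 / Real.log T) u - ss x t =
      ((1 / Real.log T : ℝ) : ℂ) + ((u - t : ℝ) : ℂ) * I := by
    intro u
    unfold ss
    push_cast
    ring
  unfold Win
  simp only [e1, e2]
  rw [norm_mul, Complex.norm_real, Real.norm_of_nonneg (by positivity)]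
  have hwc : Continuous fun u : ℝ => ‖WinP D T α (ss (x + 1 / Real.log T) u)‖ := by
    refine continuous_norm.comp ?_
    exact C2_dir_continuous _ (fun n hn => by have := (Finset.mem_Ioc.1 hn).1; omega) _ _
  have hkc : Continuous fun u : ℝ =>
      ‖Ke N (ka D T) (kh D N T) (((1 / Real.log T : ℝ) : ℂ) + ((u - t : ℝ) : ℂ) * I)‖ :=
    (C2_Ke_continuous N (ka D T) (kh D N T) (c := 1 / Real.log T) (by positivity)).comp
      (by fun_prop : Continuous fun u : ℝ => u - t)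
  have hb := intervalIntegral.norm_integral_le_of_norm_le (μ := volume)
    (f := fun u : ℝ => gam α (ss (x + 1 / Real.log T) u) * WinP D T α (ss (x + 1 / Real.log T) u) *
      Ke N (ka D T) (kh D N T) (((1 / Real.log T : ℝ) : ℂ) + ((u - t : ℝ) : ℂ) * I))
    (g := fun u => 5 * (‖WinP D T α (ss (x + 1 / Real.log T) u)‖ *
        ‖Ke N (ka D T) (kh D N T) (((1 / Real.log T : ℝ) : ℂ) + ((u - t : ℝ) : ℂ) * I)‖)) h12
    (by
      filter_upwards with u hu
      rw [norm_mul, norm_mul, mul_assoc]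
      exact mul_le_mul_of_nonneg_right (hg u (Ioc_subset_Icc_self hu)) (by positivity))
    ((continuous_const.mul (hwc.mul hkc)).intervalIntegrable _ _)
  refine (mul_le_mul_of_nonneg_left hb (by positivity)).trans ?_
  rw [intervalIntegral.integral_of_le h12, integral_const_mul]
  apply le_of_eq
  ring

/-- The residue part, pointwise. -/
lemma C2_res (D : AData) {N : ℕ} {T α h1 h2 x : ℝ} (hα : 0 < α) (t : ℝ) :
    ‖ResP D N T α h1 h2 (ss x t)‖ ≤ ∑ z ∈ isoZ α h1 h2,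
      (cz α z * ‖Vs D T (1 / 2 + ((z + α : ℝ) : ℂ) * I)‖) *
        ‖Ke N (ka D T) (kh D N T) (((-x : ℝ) : ℂ) + ((z - t : ℝ) : ℂ) * I)‖ := by
  unfold ResP
  refine norm_sum_le_of_le _ fun z hz => ?_
  have hz' := mem_isoZ.1 hz
  have e2 : (1 / 2 : ℂ) + (z : ℂ) * I - ss x t = ((-x : ℝ) : ℂ) + ((z - t : ℝ) : ℂ) * I := by
    unfold ss
    push_cast
    ring
  rw [e2, norm_mul, norm_mul, norm_mul, Complex.norm_I, one_mul, Complex.norm_real,
    Real.norm_of_nonneg (cz_nonneg hα hz'.2.1 hz'.2.2)]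

lemma C2_log1 {e N : ℝ} (he : 0 < e) (he1 : e ≤ 1) (hN : 0 ≤ N) (k : ℕ) :
    Real.log (1 + 2 * N / e ^ k) ≤ Real.log (1 + 2 * N) + k * Real.log (1 / e) := by
  have h1 : 1 + 2 * N / e ^ k ≤ (1 + 2 * N) / e ^ k := by
    rw [add_div]
    have : 1 ≤ 1 / e ^ k := by
      rw [one_le_div (by positivity)]
      exact pow_le_one₀ he.le he1
    linarith
  refine (Real.log_le_log (by positivity) h1).trans ?_
  rw [Real.log_div (by positivity) (by positivity), Real.log_pow, one_div, Real.log_inv]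
  linarith

/-- The integral of the window part. -/
lemma C2_int_win {C1 C3 : ℝ} {N : ℕ} (hN : 0 < N) (D : AData) {τ T h1 h2 x a b : ℝ} (hT : 1 < T)
    (hab : a ≤ b) (h12 : h1 ≤ h2)
    (hint : ∀ a h c V : ℝ, 0 ≤ a → 0 < h → c ≠ 0 →
      0 ≤ V → ∫ v in (-V)..V, ‖Ke N a h (c + v * I)‖ ≤
        C1 * Real.exp ((a + N * h) * max c 0) * (1 + Real.log (1 + 1 / (h * |c|))))
    (hC1 : 0 < C1)
    (h1T : T ≤ h1) (h2T : h2 ≤ 2 * T)
    (hW : ∫ t in T..(2 * T), ‖WinP D T (alp τ T) (ss (x + 1 / Real.log T) t)‖ ≤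
      C3 * Real.exp (ka D T * max (-x) 0) * T) :
    IntervalIntegrable (fun t => ∫ u in Ioc h1 h2,
      ‖WinP D T (alp τ T) (ss (x + 1 / Real.log T) u)‖ *
        ‖Ke N (ka D T) (kh D N T) (((1 / Real.log T : ℝ) : ℂ) + ((u - t : ℝ) : ℂ) * I)‖)
        volume a b ∧
    ∫ t in a..b, (∫ u in Ioc h1 h2,
      ‖WinP D T (alp τ T) (ss (x + 1 / Real.log T) u)‖ *
        ‖Ke N (ka D T) (kh D N T) (((1 / Real.log T : ℝ) : ℂ) + ((u - t : ℝ) : ℂ) * I)‖) ≤
      C1 * Real.exp 1 * (1 + Real.log (1 + 2 * N / D.ep ^ 1)) *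
        (C3 * Real.exp (ka D T * max (-x) 0) * T) := by
  have hL : 0 < Real.log T := Real.log_pos hT
  have hN' : (0:ℝ) < N := by exact_mod_cast hN
  have hep := D.ep_pos
  have hep1 : D.ep ≤ 1 := by linarith [D.ep_le]
  have hka : 0 ≤ ka D T := by
    unfold ka
    exact mul_nonneg (by linarith) hL.le
  have hkh : 0 < kh D N T := by
    unfold kh
    positivity
  have hwc : Continuous fun u : ℝ => ‖WinP D T (alp τ T) (ss (x + 1 / Real.log T) u)‖ := by
    refine continuous_norm.comp ?_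
    exact C2_dir_continuous _ (fun n hn => by have := (Finset.mem_Ioc.1 hn).1; omega) _ _
  have hkc : Continuous fun v : ℝ =>
      ‖Ke N (ka D T) (kh D N T) (((1 / Real.log T : ℝ) : ℂ) + (v : ℂ) * I)‖ :=
    C2_Ke_continuous N (ka D T) (kh D N T) (c := 1 / Real.log T) (by positivity)
  have hB : ∀ V, 0 ≤ V → ∫ v in (-V)..V,
      ‖Ke N (ka D T) (kh D N T) (((1 / Real.log T : ℝ) : ℂ) + (v : ℂ) * I)‖ ≤
      C1 * Real.exp 1 * (1 + Real.log (1 + 2 * N / D.ep ^ 1)) := by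
    intro V hV
    refine (hint (ka D T) (kh D N T) (1 / Real.log T) V hka hkh (by positivity) hV).trans ?_
    have e1 : max (1 / Real.log T) 0 = 1 / Real.log T := max_eq_left (by positivity)
    have e2 : |1 / Real.log T| = 1 / Real.log T := abs_of_nonneg (by positivity)
    have e3 : 1 / (kh D N T * (1 / Real.log T)) = 2 * N / D.ep ^ 1 := by
      unfold kh
      field_simp
    have e4 : (ka D T + N * kh D N T) * (1 / Real.log T) ≤ 1 := by
      have : (ka D T + N * kh D N T) * (1 / Real.log T) = 1 - D.ep / 2 := by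
        unfold ka kh
        field_simp
        ring
      rw [this]
      linarith
    rw [e1, e2, e3]
    have h0 : 0 ≤ 1 + Real.log (1 + 2 * N / D.ep ^ 1) := by
      have : 0 ≤ Real.log (1 + 2 * N / D.ep ^ 1) := Real.log_nonneg (by
        have : 0 ≤ 2 * N / D.ep ^ 1 := by positivity
        linarith)
      linarith
    refine mul_le_mul_of_nonneg_right ?_ h0
    exact mul_le_mul_of_nonneg_left (Real.exp_le_exp.2 e4) hC1.le
  have hf := C2_fub hab (S := Ioc h1 h2) (h1 := h1) (h2 := h2) measurableSet_Ioc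
    Ioc_subset_Icc_self hwc (fun u => norm_nonneg _) hkc
    (M := C1 * Real.exp 1 * (1 + Real.log (1 + 2 * N / D.ep ^ 1)))
    (fun u _ => C2_Ke (c := 1 / Real.log T) (by positivity) hB u a b hab)
  refine ⟨hf.1, hf.2.trans ?_⟩
  have h0 : 0 ≤ C1 * Real.exp 1 * (1 + Real.log (1 + 2 * N / D.ep ^ 1)) := by
    have : 0 ≤ Real.log (1 + 2 * N / D.ep ^ 1) := Real.log_nonneg (by
      have : 0 ≤ 2 * N / D.ep ^ 1 := by positivity
      linarith)
    positivity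
  refine mul_le_mul_of_nonneg_left ?_ h0
  refine le_trans ?_ hW
  rw [← intervalIntegral.integral_of_le h12]
  refine intervalIntegral.integral_mono_interval h1T h12 h2T ?_ ?_
  · filter_upwards with v
    exact norm_nonneg _
  · exact hwc.intervalIntegrable _ _

/-- The integral of the residue part. -/
lemma C2_int_res {C1 B : ℝ} {N : ℕ} (hN : 0 < N) (D : AData) {T α h1 h2 x a b : ℝ} (hT : 1 < T)
    (hα : 0 < α) (hab : a ≤ b)
    (hint : ∀ a h c V : ℝ, 0 ≤ a → 0 < h → c ≠ 0 →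
      0 ≤ V → ∫ v in (-V)..V, ‖Ke N a h (c + v * I)‖ ≤
        C1 * Real.exp ((a + N * h) * max c 0) * (1 + Real.log (1 + 1 / (h * |c|))))
    (hC1 : 0 < C1) (hx1 : D.ep ^ 2 / Real.log T ≤ |x|) (hx2 : |x| ≤ 1 / (D.ep * Real.log T))
    (hZ : ∑ z ∈ isoZ α h1 h2, cz α z * ‖Vs D T (1 / 2 + ((z + α : ℝ) : ℂ) * I)‖ ≤ B) :
    IntervalIntegrable (fun t => ∑ z ∈ isoZ α h1 h2,
      (cz α z * ‖Vs D T (1 / 2 + ((z + α : ℝ) : ℂ) * I)‖) *
        ‖Ke N (ka D T) (kh D N T) (((-x : ℝ) : ℂ) + ((z - t : ℝ) : ℂ) * I)‖) volume a b ∧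
    ∫ t in a..b, (∑ z ∈ isoZ α h1 h2,
      (cz α z * ‖Vs D T (1 / 2 + ((z + α : ℝ) : ℂ) * I)‖) *
        ‖Ke N (ka D T) (kh D N T) (((-x : ℝ) : ℂ) + ((z - t : ℝ) : ℂ) * I)‖) ≤
      B * (C1 * (Real.exp (ka D T * max (-x) 0) * Real.exp 1) *
        (1 + Real.log (1 + 2 * N / D.ep ^ 3))) := by
  have hL : 0 < Real.log T := Real.log_pos hT
  have hN' : (0:ℝ) < N := by exact_mod_cast hN
  have hep := D.ep_pos
  have hep1 : D.ep ≤ 1 := by linarith [D.ep_le]
  have hx0 : 0 < |x| := lt_of_lt_of_le (by positivity) hx1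
  have hxne : x ≠ 0 := abs_pos.1 hx0
  have hka : 0 ≤ ka D T := by
    unfold ka
    exact mul_nonneg (by linarith) hL.le
  have hkh : 0 < kh D N T := by
    unfold kh
    positivity
  have hcont : ∀ z : ℝ, Continuous fun t : ℝ =>
      ‖Ke N (ka D T) (kh D N T) (((-x : ℝ) : ℂ) + ((z - t : ℝ) : ℂ) * I)‖ := fun z =>
    (C2_Ke_continuous N (ka D T) (kh D N T) (c := -x) (neg_ne_zero.2 hxne)).comp
      (by fun_prop : Continuous fun t : ℝ => z - t)
  have hB : ∀ V, 0 ≤ V → ∫ v in (-V)..V,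
      ‖Ke N (ka D T) (kh D N T) (((-x : ℝ) : ℂ) + (v : ℂ) * I)‖ ≤
      C1 * (Real.exp (ka D T * max (-x) 0) * Real.exp 1) *
        (1 + Real.log (1 + 2 * N / D.ep ^ 3)) := by
    intro V hV
    refine (hint (ka D T) (kh D N T) (-x) V hka hkh (neg_ne_zero.2 hxne) hV).trans ?_
    rw [abs_neg]
    have h1 : 1 / (kh D N T * |x|) ≤ 2 * N / D.ep ^ 3 := by
      rw [div_le_div_iff₀ (by positivity) (by positivity)]
      have : kh D N T * (D.ep ^ 2 / Real.log T) = D.ep ^ 3 / (2 * N) := by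
        unfold kh
        field_simp
      have h2 : D.ep ^ 3 / (2 * N) ≤ kh D N T * |x| := by
        rw [← this]
        exact mul_le_mul_of_nonneg_left hx1 hkh.le
      calc 1 * D.ep ^ 3 = 2 * N * (D.ep ^ 3 / (2 * N)) := by field_simp
        _ ≤ 2 * N * (kh D N T * |x|) := mul_le_mul_of_nonneg_left h2 (by positivity)
    have h2 : (ka D T + N * kh D N T) * max (-x) 0 ≤ ka D T * max (-x) 0 + 1 := by
      have e : N * kh D N T = D.ep / 2 * Real.log T := by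
        unfold kh
        field_simp
      rw [add_mul, e]
      have h3 : max (-x) 0 ≤ 1 / (D.ep * Real.log T) :=
        (max_le (neg_le_abs x) (abs_nonneg x)).trans hx2
      have h4 : D.ep / 2 * Real.log T * max (-x) 0 ≤
          D.ep / 2 * Real.log T * (1 / (D.ep * Real.log T)) :=
        mul_le_mul_of_nonneg_left h3 (by positivity)
      have h5 : D.ep / 2 * Real.log T * (1 / (D.ep * Real.log T)) = 1 / 2 := by
        field_simp
      linarith
    have h3 : Real.log (1 + 1 / (kh D N T * |x|)) ≤ Real.log (1 + 2 * N / D.ep ^ 3) :=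
      Real.log_le_log (by positivity) (by linarith)
    have h4 : 0 ≤ Real.log (1 + 1 / (kh D N T * |x|)) := Real.log_nonneg (by
      have : 0 ≤ 1 / (kh D N T * |x|) := by positivity
      linarith)
    rw [← Real.exp_add]
    refine mul_le_mul ?_ (by linarith) (by linarith) (by positivity)
    exact mul_le_mul_of_nonneg_left (Real.exp_le_exp.2 h2) hC1.le
  have hc0 : ∀ z ∈ isoZ α h1 h2,
      0 ≤ cz α z * ‖Vs D T (1 / 2 + ((z + α : ℝ) : ℂ) * I)‖ := fun z hz => by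
    have hz' := mem_isoZ.1 hz
    exact mul_nonneg (cz_nonneg hα hz'.2.1 hz'.2.2) (norm_nonneg _)
  have hB0 : 0 ≤ C1 * (Real.exp (ka D T * max (-x) 0) * Real.exp 1) *
        (1 + Real.log (1 + 2 * N / D.ep ^ 3)) := by
    have : 0 ≤ Real.log (1 + 2 * N / D.ep ^ 3) := Real.log_nonneg (by
      have : 0 ≤ 2 * N / D.ep ^ 3 := by positivity
      linarith)
    positivity
  refine ⟨?_, ?_⟩
  · refine Continuous.intervalIntegrable ?_ _ _
    exact continuous_finsetSum _ fun z _ => continuous_const.mul (hcont z)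
  · have hii : ∀ z ∈ isoZ α h1 h2, IntervalIntegrable (fun t =>
        (cz α z * ‖Vs D T (1 / 2 + ((z + α : ℝ) : ℂ) * I)‖) *
        ‖Ke N (ka D T) (kh D N T) (((-x : ℝ) : ℂ) + ((z - t : ℝ) : ℂ) * I)‖) volume a b :=
      fun z _ => (continuous_const.mul (hcont z)).intervalIntegrable _ _
    rw [intervalIntegral.integral_finsetSum hii]
    refine le_trans ?_ (mul_le_mul_of_nonneg_right hZ hB0)
    rw [Finset.sum_mul]
    refine Finset.sum_le_sum fun z hz => ?_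
    rw [intervalIntegral.integral_const_mul]
    refine mul_le_mul_of_nonneg_left ?_ (hc0 z hz)
    exact C2_Ke (c := -x) (neg_ne_zero.2 hxne) hB z a b hab

/-- Cauchy–Schwarz for the sum over the isolated zeros. -/
lemma C2_cs {D : AData} {T α h1 h2 k1 k2 X Y : ℝ} (hα : 0 < α) (h1k : k1 ≤ h1) (h2k : h2 ≤ k2)
    (hX : ∑ z ∈ isoZ α k1 k2, ‖Vs D T (1 / 2 + ((z + α : ℝ) : ℂ) * I)‖ ^ 2 * cz α z ≤ X)
    (hY : ∑ z ∈ isoZ α k1 k2, cz α z ≤ Y) :
    ∑ z ∈ isoZ α h1 h2, cz α z * ‖Vs D T (1 / 2 + ((z + α : ℝ) : ℂ) * I)‖ ≤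
      Real.sqrt (X * Y) := by
  have hsub : isoZ α h1 h2 ⊆ isoZ α k1 k2 := by
    intro z hz
    have hz' := mem_isoZ.1 hz
    exact mem_isoZ.2 ⟨⟨by linarith [hz'.1.1], by linarith [hz'.1.2]⟩, hz'.2⟩
  have hc0 : ∀ z ∈ isoZ α k1 k2, 0 ≤ cz α z := fun z hz => by
    have hz' := mem_isoZ.1 hz
    exact cz_nonneg hα hz'.2.1 hz'.2.2
  refine (Finset.sum_le_sum_of_subset_of_nonneg hsub fun z hz _ =>
    mul_nonneg (hc0 z hz) (norm_nonneg _)).trans ?_
  refine Real.le_sqrt_of_sq_le ?_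
  have hcs := Finset.sum_mul_sq_le_sq_mul_sq (isoZ α k1 k2)
    (fun z => Real.sqrt (cz α z) * ‖Vs D T (1 / 2 + ((z + α : ℝ) : ℂ) * I)‖)
    (fun z => Real.sqrt (cz α z))
  have e1 : ∑ z ∈ isoZ α k1 k2, (Real.sqrt (cz α z) *
      ‖Vs D T (1 / 2 + ((z + α : ℝ) : ℂ) * I)‖) * Real.sqrt (cz α z) =
      ∑ z ∈ isoZ α k1 k2, cz α z * ‖Vs D T (1 / 2 + ((z + α : ℝ) : ℂ) * I)‖ := by
    refine Finset.sum_congr rfl fun z hz => ?_
    have := Real.mul_self_sqrt (hc0 z hz)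
    calc _ = (Real.sqrt (cz α z) * Real.sqrt (cz α z)) *
        ‖Vs D T (1 / 2 + ((z + α : ℝ) : ℂ) * I)‖ := by ring
      _ = _ := by rw [this]
  have e2 : ∑ z ∈ isoZ α k1 k2, (Real.sqrt (cz α z) *
      ‖Vs D T (1 / 2 + ((z + α : ℝ) : ℂ) * I)‖) ^ 2 =
      ∑ z ∈ isoZ α k1 k2, ‖Vs D T (1 / 2 + ((z + α : ℝ) : ℂ) * I)‖ ^ 2 * cz α z := by
    refine Finset.sum_congr rfl fun z hz => ?_
    rw [mul_pow, Real.sq_sqrt (hc0 z hz)]
    ring
  have e3 : ∑ z ∈ isoZ α k1 k2, Real.sqrt (cz α z) ^ 2 = ∑ z ∈ isoZ α k1 k2, cz α z :=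
    Finset.sum_congr rfl fun z hz => Real.sq_sqrt (hc0 z hz)
  rw [e1, e2, e3] at hcs
  refine hcs.trans ?_
  have h0 : 0 ≤ ∑ z ∈ isoZ α k1 k2, cz α z := Finset.sum_nonneg hc0
  have h1 : 0 ≤ ∑ z ∈ isoZ α k1 k2, ‖Vs D T (1 / 2 + ((z + α : ℝ) : ℂ) * I)‖ ^ 2 * cz α z :=
    Finset.sum_nonneg fun z hz => mul_nonneg (by positivity) (hc0 z hz)
  exact mul_le_mul hX hY h0 (h1.trans hX)

/-- The integral of the exceptional part. -/
lemma C2_int_bad {K KG δ θ : ℝ} {τ T h1 h2 a b : ℝ} (hT : 1 < T) (hθ : 0 < θ)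
    (hθ8 : θ ≤ 1 / 8) (hab : a ≤ b)
    (hK : 0 < K) (hδ : 0 ≤ δ) (hδK : (K * Real.pi) ^ 2 * (δ * KG) ≤ 1)
    (hF : Few τ δ θ T) (hb1 : (5 / 4 - θ / 2) * T ≤ h1) (hb2 : h2 ≤ (7 / 4 + θ / 2) * T)
    {G : ℝ → ℝ} (hGc : Continuous G) (hG0 : ∀ t, 0 ≤ G t)
    (hGi : ∫ t in (T / 2)..(3 * T), G t ^ 2 ≤ KG * T) :
    IntervalIntegrable (fun t => K * ∫ u in Ioc h1 h2 ∩ EE (alp τ T), G u * kk1 T (u - t))
      volume a b ∧
    ∫ t in a..b, (K * ∫ u in Ioc h1 h2 ∩ EE (alp τ T), G u * kk1 T (u - t)) ≤ T := by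
  have hT0 : 0 < T := by linarith
  have hSm : MeasurableSet (Ioc h1 h2 ∩ EE (alp τ T)) :=
    measurableSet_Ioc.inter (measurableSet_EE _)
  have hSs : Ioc h1 h2 ∩ EE (alp τ T) ⊆ Icc h1 h2 := fun t ht => Ioc_subset_Icc_self ht.1
  have hf := C2_fub hab hSm hSs hGc hG0 (C2_kk1_continuous T) (M := Real.pi)
    (fun u _ => C2_kk1 hT u a b)
  refine ⟨hf.1.const_mul K, ?_⟩
  rw [intervalIntegral.integral_const_mul]
  refine (mul_le_mul_of_nonneg_left hf.2 hK.le).trans ?_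
  set S := Ioc h1 h2 ∩ EE (alp τ T) with hS
  have hSfin : volume S ≠ ⊤ := ne_top_of_le_ne_top (by simp) (measure_mono hSs)
  have hG2i : IntegrableOn (fun t => G t ^ 2) S volume :=
    ((hGc.pow 2).continuousOn.integrableOn_compact isCompact_Icc).mono_set hSs
  have : IsFiniteMeasure (volume.restrict S) := ⟨by
    rw [Measure.restrict_apply_univ]; exact lt_top_iff_ne_top.2 hSfin⟩
  have hcs := cs_sq (μ := volume.restrict S) (f := fun _ => (1:ℝ)) (g := G)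
    aestronglyMeasurable_const hGc.aestronglyMeasurable (by simp) hG2i
  simp only [one_mul, one_pow] at hcs
  have hvol : ∫ _ in S, (1:ℝ) ≤ δ * T := by
    rw [setIntegral_const, smul_eq_mul, mul_one]
    refine le_trans ?_ hF
    refine measureReal_mono ?_ ?_
    · intro t ht
      refine ⟨ht.2, ?_, ?_⟩
      · have := ht.1.1
        nlinarith
      · have := ht.1.2
        nlinarith
    · exact ne_top_of_le_ne_top (by simp) (measure_mono inter_subset_right)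
  have hG2 : ∫ t in S, G t ^ 2 ≤ KG * T := by
    refine le_trans ?_ hGi
    rw [intervalIntegral.integral_of_le (by linarith)]
    refine setIntegral_mono_set ?_ ?_ ?_
    · exact ((hGc.pow 2).continuousOn.integrableOn_compact isCompact_Icc).mono_set
        Ioc_subset_Icc_self
    · filter_upwards with t
      positivity
    · refine LE.le.eventuallyLE ?_
      intro t ht
      refine ⟨?_, ?_⟩
      · have := ht.1.1
        nlinarith
      · have := ht.1.2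
        nlinarith
  have hG20 : 0 ≤ ∫ t in S, G t ^ 2 := integral_nonneg fun t => by positivity
  have h3 : (∫ t in S, G t) ^ 2 ≤ (δ * T) * (KG * T) :=
    hcs.trans (mul_le_mul hvol hG2 hG20 (by positivity))
  refine abs_le_of_sq_le_sq' ?_ hT0.le |>.2
  calc (K * (Real.pi * ∫ t in S, G t)) ^ 2 = (K * Real.pi) ^ 2 * (∫ t in S, G t) ^ 2 := by ring
    _ ≤ (K * Real.pi) ^ 2 * ((δ * T) * (KG * T)) := mul_le_mul_of_nonneg_left h3 (by positivity)
    _ = ((K * Real.pi) ^ 2 * (δ * KG)) * T ^ 2 := by ring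
    _ ≤ 1 * T ^ 2 := mul_le_mul_of_nonneg_right hδK (by positivity)
    _ = T ^ 2 := one_mul _

/-- The pointwise decomposition. -/
lemma C2_dec (D : AData) {N : ℕ} {τ T h1 h2 : ℝ} (s : ℂ) {A1 A2 A4 A5 : ℝ}
    (p1 : ‖Fs D T (alp τ T) s - LowI D N T (alp τ T) h1 h2 s +
          ResP D N T (alp τ T) h1 h2 s‖ ≤ A1 + 1 / T)
    (p2 : ‖LowI D N T (alp τ T) h1 h2 s -
          (LowP D T (alp τ T) s + Win D N T (alp τ T) h1 h2 s)‖ ≤ A2)
    (p3 : ‖Win D N T (alp τ T) h1 h2 s‖ ≤ A4)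
    (p4 : ‖ResP D N T (alp τ T) h1 h2 s‖ ≤ A5) :
    ‖Ds D τ T s‖ ≤ A1 + (1 / T + A2) + ‖LowP D T (alp τ T) s + ph D τ * Vs D T s‖ + A4 + A5 := by
  have e : Ds D τ T s =
      (Fs D T (alp τ T) s - LowI D N T (alp τ T) h1 h2 s +
        ResP D N T (alp τ T) h1 h2 s) +
      (LowI D N T (alp τ T) h1 h2 s -
        (LowP D T (alp τ T) s + Win D N T (alp τ T) h1 h2 s)) +
      (LowP D T (alp τ T) s + ph D τ * Vs D T s) +
      Win D N T (alp τ T) h1 h2 s - ResP D N T (alp τ T) h1 h2 s := by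
    unfold Ds
    ring
  rw [e]
  refine (norm_sub_le _ _).trans (add_le_add ?_ p4)
  refine (norm_add_le _ _).trans (add_le_add ?_ p3)
  refine (norm_add_le _ _).trans (add_le_add ?_ le_rfl)
  refine (norm_add_le _ _).trans ?_
  linarith

/-- The final bookkeeping. -/
lemma C2_num {C1 C2 C3 C4 Λ ℓ E T X3 Y1 Y3 : ℝ} (hC1 : 0 < C1) (hC2 : 0 < C2) (hC3 : 0 < C3)
    (hC4 : 0 < C4) (hΛ0 : 0 ≤ Λ) (hℓ : 1 ≤ ℓ) (hE1 : 1 ≤ E) (hT0 : 0 < T) 
    (hX3 : X3 ≤ 5 / (2 * Real.pi) * (C1 * Real.exp 1 * (1 + Y1) * (C3 * E * T)))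
    (hY1 : Y1 ≤ Λ + ℓ) (hY3 : Y3 ≤ Λ + 3 * ℓ) (hY30 : 0 ≤ Y3) :
    T + T + C2 * E * T + X3 + Real.sqrt (C4 * ℓ * T * (C4 * T)) *
      (C1 * (E * Real.exp 1) * (1 + Y3)) ≤
    (2 + C2 + 5 / (2 * Real.pi) * (C1 * Real.exp 1 * (2 + Λ) * C3) +
      C4 * (C1 * Real.exp 1 * (4 + Λ))) * ℓ ^ 2 * E * T := by
  have hET : 0 ≤ E * T := by positivity
  have hℓ2 : ℓ ≤ ℓ ^ 2 := by nlinarith
  have hℓ21 : 1 ≤ ℓ ^ 2 := by nlinarith
  have hΛℓ : Λ ≤ Λ * ℓ := by nlinarith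
  have hΛℓ2 : Λ * ℓ ≤ Λ * ℓ ^ 2 := mul_le_mul_of_nonneg_left hℓ2 hΛ0
  -- window
  have hw : 5 / (2 * Real.pi) * (C1 * Real.exp 1 * (1 + Y1) * (C3 * E * T)) ≤
      5 / (2 * Real.pi) * (C1 * Real.exp 1 * (2 + Λ) * C3) * ℓ ^ 2 * E * T := by
    have h3 : 1 + Y1 ≤ (2 + Λ) * ℓ ^ 2 := by linarith
    have h4 : 0 ≤ 5 / (2 * Real.pi) * (C1 * Real.exp 1 * (C3 * E * T)) := by positivity
    calc _ = (1 + Y1) *
        (5 / (2 * Real.pi) * (C1 * Real.exp 1 * (C3 * E * T))) := by ring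
      _ ≤ ((2 + Λ) * ℓ ^ 2) * (5 / (2 * Real.pi) * (C1 * Real.exp 1 * (C3 * E * T))) :=
        mul_le_mul_of_nonneg_right h3 h4
      _ = _ := by ring
  -- residues
  have hr : Real.sqrt (C4 * ℓ * T * (C4 * T)) * (C1 * (E * Real.exp 1) * (1 + Y3)) ≤
      C4 * (C1 * Real.exp 1 * (4 + Λ)) * ℓ ^ 2 * E * T := by
    have h3 : Real.sqrt (C4 * ℓ * T * (C4 * T)) ≤ C4 * ℓ * T := by
      apply Real.sqrt_le_iff.2
      refine ⟨by positivity, ?_⟩
      have : C4 * ℓ * T * (C4 * T) = (C4 * T) ^ 2 * ℓ := by ring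
      rw [this]
      have h4 : (C4 * ℓ * T) ^ 2 = (C4 * T) ^ 2 * ℓ ^ 2 := by ring
      rw [h4]
      exact mul_le_mul_of_nonneg_left hℓ2 (by positivity)
    have h5 : 1 + Y3 ≤ (4 + Λ) * ℓ := by linarith
    calc _ ≤ (C4 * ℓ * T) * (C1 * (E * Real.exp 1) * ((4 + Λ) * ℓ)) := by
          refine mul_le_mul h3 ?_ (by positivity) (by positivity)
          exact mul_le_mul_of_nonneg_left h5 (by positivity)
      _ = _ := by ring
  have hone : T ≤ ℓ ^ 2 * E * T := by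
    have h1 : 1 * 1 ≤ ℓ ^ 2 * E := mul_le_mul hℓ21 hE1 zero_le_one (by positivity)
    have h2 : 1 * T ≤ ℓ ^ 2 * E * T := mul_le_mul_of_nonneg_right (by linarith) hT0.le
    linarith
  have hlow' : C2 * E * T ≤ C2 * ℓ ^ 2 * E * T := by
    have : C2 * E * T * 1 ≤ C2 * E * T * ℓ ^ 2 := mul_le_mul_of_nonneg_left hℓ21 (by positivity)
    linarith
  have hexp : (2 + C2 + 5 / (2 * Real.pi) * (C1 * Real.exp 1 * (2 + Λ) * C3) +
      C4 * (C1 * Real.exp 1 * (4 + Λ))) * ℓ ^ 2 * E * T =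
      2 * (ℓ ^ 2 * E * T) + C2 * ℓ ^ 2 * E * T +
      5 / (2 * Real.pi) * (C1 * Real.exp 1 * (2 + Λ) * C3) * ℓ ^ 2 * E * T +
      C4 * (C1 * Real.exp 1 * (4 + Λ)) * ℓ ^ 2 * E * T := by ring
  rw [hexp]
  linarith

/-- The integral of the pointwise decomposition. -/
lemma C2_sum {a b T I1 I3 I4 I5 K : ℝ} (hab : a ≤ b) {f g1 g3 g4 g5 : ℝ → ℝ}
    (hpt : ∀ t ∈ Ioc a b, f t ≤ g1 t + (1 / T + 1 / T) + g3 t + K * g4 t + g5 t)
    (hf : ∀ t, 0 ≤ f t) (hK : 0 ≤ K)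
    (i1 : IntervalIntegrable g1 volume a b) (i3 : IntervalIntegrable g3 volume a b)
    (i4 : IntervalIntegrable g4 volume a b) (i5 : IntervalIntegrable g5 volume a b)
    (h1 : ∫ t in a..b, g1 t ≤ I1) (h3 : ∫ t in a..b, g3 t ≤ I3)
    (h4 : ∫ t in a..b, g4 t ≤ I4) (h5 : ∫ t in a..b, g5 t ≤ I5) :
    ∫ t in a..b, f t ≤ I1 + (b - a) * (1 / T + 1 / T) + I3 + K * I4 + I5 := by
  have hci : IntervalIntegrable (fun _ : ℝ => 1 / T + 1 / T) volume a b :=
    intervalIntegrable_const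
  have hI := intervalIntegral.norm_integral_le_of_norm_le (μ := volume) (f := f) hab
    (Filter.Eventually.of_forall fun t ht => by
      rw [Real.norm_of_nonneg (hf t)]
      exact hpt t ht)
    ((((i1.add hci).add i3).add (i4.const_mul _)).add i5)
  rw [intervalIntegral.integral_add (((i1.add hci).add i3).add (i4.const_mul _)) i5,
    intervalIntegral.integral_add ((i1.add hci).add i3) (i4.const_mul _),
    intervalIntegral.integral_add (i1.add hci) i3,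
    intervalIntegral.integral_add i1 hci, intervalIntegral.integral_const_mul,
    intervalIntegral.integral_const, smul_eq_mul] at hI
  have h6 := mul_le_mul_of_nonneg_left h4 hK
  refine (Real.le_norm_self _).trans (hI.trans ?_)
  linarith

lemma C2_shift {D : AData} {T x : ℝ} (hL8 : 8 / D.ep ≤ Real.log T)
    (hx2 : |x| ≤ 1 / (D.ep * Real.log T)) :
    |x + 1 / Real.log T| ≤ 2 / (D.ep * Real.log T) ∧ |x + 1 / Real.log T| ≤ 1 / 4 := by
  have hep := D.ep_pos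
  have hep1 := D.ep_le
  have hL : 0 < Real.log T := lt_of_lt_of_le (by positivity) hL8
  have hxL : |x + 1 / Real.log T| ≤ 2 / (D.ep * Real.log T) := by
    have h3 : 1 / Real.log T ≤ 1 / (D.ep * Real.log T) := by
      apply one_div_le_one_div_of_le (by positivity)
      nlinarith
    have h4 : |1 / Real.log T| = 1 / Real.log T := abs_of_nonneg (by positivity)
    calc |x + 1 / Real.log T| ≤ |x| + |1 / Real.log T| := abs_add_le _ _
      _ ≤ 1 / (D.ep * Real.log T) + 1 / (D.ep * Real.log T) := by rw [h4]; linarith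
      _ = 2 / (D.ep * Real.log T) := by ring
  refine ⟨hxL, hxL.trans ?_⟩
  rw [div_le_div_iff₀ (by positivity) (by norm_num)]
  have : 8 ≤ D.ep * Real.log T := by
    rw [div_le_iff₀ hep] at hL8
    linarith
  linarith

lemma C2_gam5 {Cg T τ : ℝ} {s : ℂ} (hL : 0 < Real.log T) (hLc : Cg / 4 ≤ Real.log T)
    (h3 : ‖gam (alp τ T) s - Complex.exp (((Real.pi * τ : ℝ) : ℂ) * I)‖ ≤ Cg / Real.log T) :
    ‖gam (alp τ T) s‖ ≤ 5 := by
  have h4 : Cg / Real.log T ≤ 4 := by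
    rw [div_le_iff₀ hL]
    linarith
  have h5 : ‖Complex.exp (((Real.pi * τ : ℝ) : ℂ) * I)‖ = 1 := Complex.norm_exp_ofReal_mul_I _
  calc ‖gam (alp τ T) s‖ =
      ‖(gam (alp τ T) s - Complex.exp (((Real.pi * τ : ℝ) : ℂ) * I)) +
        Complex.exp (((Real.pi * τ : ℝ) : ℂ) * I)‖ := by rw [sub_add_cancel]
    _ ≤ ‖gam (alp τ T) s - Complex.exp (((Real.pi * τ : ℝ) : ℂ) * I)‖ +
        ‖Complex.exp (((Real.pi * τ : ℝ) : ℂ) * I)‖ := norm_add_le _ _
    _ ≤ 5 := by rw [h5]; linarith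

/-- C2 -/
theorem dmean (hRH : RiemannHypothesis) : ∃ C : ℝ, 0 < C ∧ ∀ D : AData, ∀ τ θ : ℝ,
    1 / 2 - D.ep ^ 2 ≤ τ → τ < 1 / 2 → 0 < θ → θ ≤ 1 / 8 →
    ∃ δ T0 : ℝ, 0 < δ ∧ ∀ T : ℝ, T0 ≤ T → Few τ δ θ T →
    ∀ x : ℝ, D.ep ^ 2 / Real.log T ≤ |x| → |x| ≤ 1 / (D.ep * Real.log T) →
    ∫ t in (5 * T / 4)..(7 * T / 4), ‖Ds D τ T (ss x t)‖ ≤
      C * Real.log (1 / D.ep) ^ 2 * Real.exp (ka D T * max (-x) 0) * T := by
  obtain ⟨N0, hrep⟩ := rep hRH
  obtain ⟨N, hNN, hN20⟩ : ∃ N, N0 ≤ N ∧ 20 ≤ N := ⟨max N0 20, le_max_left _ _, le_max_right _ _⟩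
  have hN0 : 0 < N := by omega
  obtain ⟨C1, hC1, hint⟩ := int_Ke (N := N) (by omega)
  obtain ⟨C2, hC2, hlow⟩ := lowmean
  obtain ⟨C3, hC3, hwin⟩ := winmean
  obtain ⟨C4, hC4, hres⟩ := sumres hRH
  obtain ⟨Cg, hCg, Tg, hgam⟩ := gam_half
  obtain ⟨Λ, hΛ⟩ : ∃ Λ : ℝ, Λ = Real.log (1 + 2 * N) := ⟨_, rfl⟩
  have hΛ0 : 0 ≤ Λ := by
    rw [hΛ]
    refine Real.log_nonneg ?_
    have : (0:ℝ) ≤ N := by positivity
    linarith
  refine ⟨2 + C2 + 5 / (2 * Real.pi) * (C1 * Real.exp 1 * (2 + Λ) * C3) +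
    C4 * (C1 * Real.exp 1 * (4 + Λ)), by positivity, ?_⟩
  intro D τ θ hτ1 hτ2 hθ hθ8
  have hep := D.ep_pos
  have hep1 := D.ep_le
  have hep3 : D.ep ^ 2 ≤ (1 / 100) ^ 2 := pow_le_pow_left₀ hep.le hep1 2
  have hτ3 : 1 / 3 < τ := by
    norm_num at hep3
    linarith
  have hτ0 : 0 ≤ τ := by linarith
  obtain ⟨K, T1, hK, hrep⟩ := hrep N hNN D τ θ hτ3 hτ2 hθ hθ8
  obtain ⟨KG, T2, hKG, hgb⟩ := gbox hRH D (c := D.ep ^ 2 / 2) (by positivity)
  obtain ⟨δ1, T3, hδ1, hres⟩ := hres D τ θ hτ1 hτ2 hθ hθ8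
  obtain ⟨T4, hright⟩ := right_line hN20 D hθ hθ8
  obtain ⟨T5, hlow⟩ := hlow D τ hτ1 hτ2
  obtain ⟨T6, hwin⟩ := hwin D τ hτ1 hτ2
  obtain ⟨δ2, hδ2⟩ : ∃ δ2 : ℝ, δ2 = 1 / ((K * Real.pi) ^ 2 * KG) := ⟨_, rfl⟩
  have hδ2p : 0 < δ2 := by rw [hδ2]; positivity
  have hδ2' : (K * Real.pi) ^ 2 * (δ2 * KG) ≤ 1 := by
    rw [hδ2]
    apply le_of_eq
    field_simp
  refine ⟨min δ1 δ2, max (max (max T1 T2) (max T3 T4)) (max (max T5 T6)
    (max Tg (max (Real.exp (8 / D.ep)) (Real.exp (Cg / 4))))), lt_min hδ1 hδ2p, ?_⟩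
  intro T hT hF x hx1 hx2
  simp only [max_le_iff] at hT
  obtain ⟨⟨⟨hT1, hT2⟩, hT3, hT4⟩, ⟨hT5, hT6⟩, hTg, hTe, hTc⟩ := hT
  have hT0 : 0 < T := lt_of_lt_of_le (Real.exp_pos _) hTe
  have hL8 : 8 / D.ep ≤ Real.log T := (Real.le_log_iff_exp_le hT0).2 hTe
  have hLc : Cg / 4 ≤ Real.log T := (Real.le_log_iff_exp_le hT0).2 hTc
  have hL : 0 < Real.log T := lt_of_lt_of_le (by positivity) hL8
  have hTgt : 1 < T := (Real.log_pos_iff hT0.le).1 hL
  obtain ⟨ℓ, hℓdef⟩ : ∃ ℓ : ℝ, ℓ = Real.log (1 / D.ep) := ⟨_, rfl⟩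
  have hℓ : 1 ≤ ℓ := by
    rw [hℓdef, Real.le_log_iff_exp_le (by positivity)]
    have h1 : (100:ℝ) ≤ 1 / D.ep := by
      rw [le_div_iff₀ hep]
      linarith
    have := Real.exp_one_lt_d9
    linarith
  have hα : 0 < alp τ T := by
    unfold alp
    have : 0 < τ := by linarith
    positivity
  have hF1 : Few τ δ1 θ T := hF.trans (mul_le_mul_of_nonneg_right (min_le_left _ _) hT0.le)
  have hF2 : Few τ δ2 θ T := hF.trans (mul_le_mul_of_nonneg_right (min_le_right _ _) hT0.le)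
  obtain ⟨h1, hh1, h2, hh2, hrep⟩ := hrep T hT1
  obtain ⟨G, hGc, hG0, hGb, hGi⟩ := hgb T hT2
  obtain ⟨hresX, hresY⟩ := hres T hT3 hF1
  have h1T : T ≤ h1 := (le_mul_of_one_le_left hT0.le (by linarith)).trans hh1.1
  have h2T : h2 ≤ 2 * T := hh2.2.trans (mul_le_mul_of_nonneg_right (by linarith) hT0.le)
  have h12 : h1 ≤ h2 :=
    hh1.2.trans ((mul_le_mul_of_nonneg_right (by linarith) hT0.le).trans hh2.1)
  have hab : 5 * T / 4 ≤ 7 * T / 4 := by linarith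
  have ha0 : 0 < 5 * T / 4 := by linarith
  -- the window part
  obtain ⟨hxL, hx4⟩ := C2_shift hL8 hx2
  have hg5 : ∀ u ∈ Icc h1 h2, ‖gam (alp τ T) (ss (x + 1 / Real.log T) u)‖ ≤ 5 := by
    intro u hu
    refine C2_gam5 hL hLc (hgam T hTg τ hτ0 hτ2.le (ss (x + 1 / Real.log T) u)
      (by rw [ss_re, add_sub_cancel_left]; exact hx4) (by rw [ss_im]; exact h1T.trans hu.1)
      (by rw [ss_im]; exact hu.2.trans h2T))
  have hWin0 := hwin T hT6 (x + 1 / Real.log T) hxL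
  have hmax : max (-(x + 1 / Real.log T)) 0 ≤ max (-x) 0 := by
    refine max_le_max ?_ le_rfl
    have : 0 ≤ 1 / Real.log T := by positivity
    linarith
  have hka : 0 ≤ ka D T := by
    unfold ka
    exact mul_nonneg (by linarith) hL.le
  obtain ⟨E, hE⟩ : ∃ E : ℝ, E = Real.exp (ka D T * max (-x) 0) := ⟨_, rfl⟩
  have hE1 : 1 ≤ E := by rw [hE]; exact Real.one_le_exp (mul_nonneg hka (le_max_right _ _))
  have hWin1 : ∫ t in T..(2 * T), ‖WinP D T (alp τ T) (ss (x + 1 / Real.log T) t)‖ ≤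
      C3 * Real.exp (ka D T * max (-x) 0) * T := by
    refine hWin0.trans ?_
    refine mul_le_mul_of_nonneg_right ?_ hT0.le
    refine mul_le_mul_of_nonneg_left ?_ hC3.le
    exact Real.exp_le_exp.2 (mul_le_mul_of_nonneg_left hmax hka)
  have hWI := C2_int_win hN0 D (a := 5 * T / 4) (b := 7 * T / 4) hTgt hab h12 hint hC1 h1T h2T
    hWin1
  -- the residues
  have hZ := C2_cs (D := D) (T := T) (h1 := h1) (h2 := h2) hα hh1.1 hh2.2 hresX hresY
  have hRI := C2_int_res hN0 D (a := 5 * T / 4) (b := 7 * T / 4) hTgt hα hab hint hC1 hx1 hx2 hZ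
  -- the exceptional set
  have hBI := C2_int_bad (a := 5 * T / 4) (b := 7 * T / 4) (h1 := h1) (h2 := h2) hTgt hθ hθ8 hab
    hK hδ2p.le hδ2' hF2 hh1.1 hh2.2 hGc hG0 hGi
  -- the low part
  have hLc := C2_low_cont D (τ := τ) (T := T) (x := x) (a := 5 * T / 4) (b := 7 * T / 4) hα.le ha0
  have hLi : IntervalIntegrable
      (fun t => ‖LowP D T (alp τ T) (ss x t) + ph D τ * Vs D T (ss x t)‖) volume
        (5 * T / 4) (7 * T / 4) := by
    apply ContinuousOn.intervalIntegrable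
    rw [uIcc_of_le hab]
    exact hLc
  have hLI := hlow T hT5 x hx2
  -- the pointwise bound
  have hpt : ∀ t ∈ Ioc (5 * T / 4) (7 * T / 4), ‖Ds D τ T (ss x t)‖ ≤
      (K * ∫ u in Ioc h1 h2 ∩ EE (alp τ T), G u * kk1 T (u - t)) + (1 / T + 1 / T) +
      ‖LowP D T (alp τ T) (ss x t) + ph D τ * Vs D T (ss x t)‖ +
      5 / (2 * Real.pi) * (∫ u in Ioc h1 h2,
        ‖WinP D T (alp τ T) (ss (x + 1 / Real.log T) u)‖ *
          ‖Ke N (ka D T) (kh D N T) (((1 / Real.log T : ℝ) : ℂ) + ((u - t : ℝ) : ℂ) * I)‖) +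
      (∑ z ∈ isoZ (alp τ T) h1 h2,
        (cz (alp τ T) z * ‖Vs D T (1 / 2 + ((z + alp τ T : ℝ) : ℂ) * I)‖) *
          ‖Ke N (ka D T) (kh D N T) (((-x : ℝ) : ℂ) + ((z - t : ℝ) : ℂ) * I)‖) := by
    intro t ht
    have hre : (ss x t).re - 1 / 2 = x := by rw [ss_re, add_sub_cancel_left]
    have ht' : (ss x t).im ∈ Icc (5 * T / 4) (7 * T / 4) := by
      rw [ss_im]
      exact ⟨ht.1.le, ht.2⟩
    have p1 := hrep G hGc hG0 (fun t' ht' s hs1 hs2 hs3 =>
      (hGb τ hτ3.le hτ2.le t' s hs1 hs2 hs3).2.1) (ss x t) (by rw [hre]; exact hx1)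
      (by rw [hre]; exact hx2) ht'
    rw [ss_im] at p1
    have p2 := hright T hT4 τ h1 h2 hτ0 hτ2.le hh1 hh2 (ss x t) (by rw [hre]; exact hx2) ht'
    exact C2_dec D (ss x t) p1 p2 (C2_win D (N := N) (α := alp τ T) (x := x) hTgt h12 hg5 t)
      (C2_res D (N := N) (T := T) (h1 := h1) (h2 := h2) (x := x) hα t)
  have hI := C2_sum (K := 5 / (2 * Real.pi)) hab hpt (fun t => norm_nonneg _) (by positivity)
    hBI.1 hLi hWI.1 hRI.1 hBI.2 hLI hWI.2 hRI.2
  refine hI.trans ?_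
  have hcst : (7 * T / 4 - 5 * T / 4) * (1 / T + 1 / T) ≤ T := by
    have : (7 * T / 4 - 5 * T / 4) * (1 / T + 1 / T) = 1 := by
      field_simp
      ring
    rw [this]
    exact hTgt.le
  have hlog1 := C2_log1 (N := N) hep (by linarith) (by positivity) 1
  have hlog3 := C2_log1 (N := N) hep (by linarith) (by positivity) 3
  rw [← hℓdef, ← hΛ] at hlog1 hlog3
  rw [← hℓdef, ← hE]
  have hnn : 0 ≤ Real.log (1 + 2 * N / D.ep ^ 3) := Real.log_nonneg (by
    have : 0 ≤ 2 * (N:ℝ) / D.ep ^ 3 := by positivity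
    linarith)
  have hfin := C2_num (X3 := 5 / (2 * Real.pi) * (C1 * Real.exp 1 *
    (1 + Real.log (1 + 2 * N / D.ep ^ 1)) * (C3 * E * T))) hC1 hC2 hC3 hC4 hΛ0 hℓ hE1 hT0 le_rfl
    (Y1 := Real.log (1 + 2 * N / D.ep ^ 1)) (Y3 := Real.log (1 + 2 * N / D.ep ^ 3))
    (by simpa using hlog1) (by simpa using hlog3) hnn
  refine le_trans ?_ hfin
  gcongr

end Pool.Agent.AHD
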