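import Pool.Agent.ZGap.Half.Strip
import Pool.Agent.ZGap.Half.ExpMom2

/-!
# Definitions for the dichotomy: small gaps or the Alternative Hypothesis
-/

open scoped ContDiff

namespace Pool.Agent.AHD

open Complex MeasureTheory Set Pool.Agent.Hadamard Pool.Agent.HalfGap

/-- Data of the mollifying polynomial: a roughness parameter `ep` and two smooth profiles. -/
structure AData where
  /-- the small parameter -/
  ep : ℝ
  /-- the profile of the primes -/
  f : ℝ → ℝ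
  /-- the profile of the integers -/
  F : ℝ → ℝ
  ep_pos : 0 < ep
  ep_le : ep ≤ 1 / 100
  f_smooth : ContDiff ℝ ∞ f
  f_nonneg : ∀ x, 0 ≤ f x
  f_le : ∀ x, f x ≤ 1
  f_low : ∀ x, x ≤ ep → f x = 0
  f_mid : ∀ x, 2 * ep ≤ x → x ≤ 1 - ep → f x = 1
  f_high : ∀ x, 1 - ep / 2 ≤ x → f x = 0
  F_smooth : ContDiff ℝ ∞ F
  F_supp : HasCompactSupport F
  F_nonneg : ∀ x, 0 ≤ F x
  F_le : ∀ x, F x ≤ 1
  F_one : ∀ x, 0 ≤ x → x ≤ 1 - ep - 2 * ep ^ 2 → F x = 1
  F_zero : ∀ x, 1 - ep - ep ^ 2 ≤ x → F x = 0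

/-- The shift `α = 2πτ / log T`. -/
noncomputable def alp (τ T : ℝ) : ℝ := 2 * Real.pi * τ / Real.log T

/-- The coefficients `μ(n) ∏_{p ∣ n} f(log p / log T) F(log n / log T)`. -/
noncomputable def av (D : AData) (T : ℝ) (n : ℕ) : ℝ :=
  (ArithmeticFunction.moebius n : ℝ) * (∏ p ∈ n.primeFactors, D.f (Real.log p / Real.log T)) *
    D.F (Real.log n / Real.log T)

/-- The length of the polynomial. -/
noncomputable def XN (D : AData) (T : ℝ) : ℕ := ⌊T ^ (1 - D.ep)⌋₊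

/-- The polynomial `V(s) = ∑ a(n) n^{-s}`. -/
noncomputable def Vs (D : AData) (T : ℝ) (s : ℂ) : ℂ :=
  ∑ n ∈ Finset.Icc 1 (XN D T), (av D T n : ℂ) * (n : ℂ) ^ (-s)

/-- `F(s) = V(s + iα) ξ(s + iα) / ξ(s)`. -/
noncomputable def Fs (D : AData) (T α : ℝ) (s : ℂ) : ℂ := Vs D T (s + α * I) * fq α s

/-- The phase `e^{-iπκτ}`, `κ = 1 - ep`. -/
noncomputable def ph (D : AData) (τ : ℝ) : ℂ :=
  Complex.exp (((-(Real.pi * (1 - D.ep) * τ) : ℝ) : ℂ) * I)

/-- The difference `F(s) + e^{-iπκτ} V(s)`. -/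
noncomputable def Ds (D : AData) (τ T : ℝ) (s : ℂ) : ℂ :=
  Fs D T (alp τ T) s + ph D τ * Vs D T s

/-- The residue factor. -/
noncomputable def cz (α z : ℝ) : ℝ := Xr (z + α) / deriv Xr z

/-- The isolated zeros in the open interval `(a, b)`. -/
noncomputable def isoZ (α a b : ℝ) : Finset ℝ :=
  @Finset.filter _ (fun z => ¬ badz α z) (Classical.decPred _) (zeros_finite a b).toFinset

lemma mem_isoZ {α a b z : ℝ} : z ∈ isoZ α a b ↔ (a < z ∧ z < b) ∧ Xr z = 0 ∧ ¬ badz α z := by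
  classical
  unfold isoZ
  rw [@Finset.mem_filter _ _ (Classical.decPred _), Set.Finite.mem_toFinset, mem_ofPred_eq,
    mem_Ioo, and_assoc]

/-- The height `Y_c` of the evaluation point, in units of `α`. -/
noncomputable def Yc (ep : ℝ) : ℝ := 1000 * Real.log (1 / ep) ^ 2

/-- The hypothesis of the main estimates: the exceptional set is small at height `T`. -/
def Few (τ δ θ T : ℝ) : Prop :=
  volume.real (EE (alp τ T) ∩ Icc ((5 / 4 - θ) * T) ((7 / 4 + θ) * T)) ≤ δ * T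

end Pool.Agent.AHD
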