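import Pool.Agent.ZGap.AH.Defs
import Pool.Agent.ZGap.Half.Main
import Pool.Agent.ZGap.Half.Wrap

/-!
# Further definitions for the number-theoretic part
-/

open scoped ContDiff

namespace Pool.Agent.AHD

open Complex MeasureTheory Set Pool.Agent.Hadamard Pool.Agent.HalfGap

/-- `log p / log T`. -/
noncomputable def xip (T : ℝ) (p : ℕ) : ℝ := Real.log p / Real.log T

/-- The prime weight `f(ξ) + 8 ξ`. -/
noncomputable def Gp (D : AData) (T : ℝ) (p : ℕ) : ℝ := D.f (xip T p) + 8 * xip T p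

/-- The multiplicative weight. -/
noncomputable def Gb (D : AData) (T : ℝ) (n : ℕ) : ℝ := ∏ p ∈ n.primeFactors, Gp D T p

/-- The coefficients of `V(s + iα) ζ(s + iα) / ζ(s)`. -/
noncomputable def bn (D : AData) (T α : ℝ) (n : ℕ) : ℂ :=
  ∑ x ∈ n.divisorsAntidiagonal, (av D T x.1 : ℂ) * (x.1 : ℂ) ^ (-(α * I : ℂ)) * gco α x.2

/-- The length `T^{1 - ep - 2 ep²}` on which `b = a` up to small primes. -/
noncomputable def X0 (D : AData) (T : ℝ) : ℕ := ⌊T ^ (1 - D.ep - 2 * D.ep ^ 2)⌋₊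

/-- The end `T^{1 - ep/2}` of the window. -/
noncomputable def X1 (D : AData) (T : ℝ) : ℕ := ⌊T ^ (1 - D.ep / 2)⌋₊

/-- The coefficients of `|V|²`. -/
noncomputable def bA (D : AData) (T α : ℝ) (p : ℕ × ℕ) : ℂ :=
  (av D T p.1 : ℂ) * (av D T p.2 : ℂ) * ((((p.1 : ℝ) * p.2) ^ (-(1:ℝ) / 2) : ℝ) : ℂ) *
    Complex.exp ((α * (Real.log p.2 - Real.log p.1) : ℝ) * I)

/-- The diagonal term of `|V|²`. -/
noncomputable def MA (D : AData) (T α : ℝ) : ℂ := Mdiag (QV (XN D T)) (bA D T α) wV α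

/-- `(e^w - 1)/w`. -/
noncomputable def E1 (w : ℂ) : ℂ := if w = 0 then 1 else (Complex.exp w - 1) / w

/-- The kernel `e^{az} ((e^{hz} - 1)/(hz))^N / z`. -/
noncomputable def Ke (N : ℕ) (a h : ℝ) (z : ℂ) : ℂ := Complex.exp (a * z) * E1 (h * z) ^ N / z

/-- The start of the window, on the logarithmic scale. -/
noncomputable def ka (D : AData) (T : ℝ) : ℝ := (1 - D.ep) * Real.log T

/-- The step of the kernel: `N h = (ep / 2) log T`. -/
noncomputable def kh (D : AData) (N : ℕ) (T : ℝ) : ℝ := D.ep / 2 * Real.log T / N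

/-- The smooth part: first terms. -/
noncomputable def LowP (D : AData) (T α : ℝ) (s : ℂ) : ℂ :=
  gam α s * ∑ n ∈ Finset.Icc 1 (XN D T), bn D T α n * (n : ℂ) ^ (-s)

/-- The polynomial of the window. -/
noncomputable def WinP (D : AData) (T α : ℝ) (s : ℂ) : ℂ :=
  ∑ n ∈ Finset.Ioc (XN D T) (X1 D T), bn D T α n * (n : ℂ) ^ (-s)

/-- The window part. -/
noncomputable def Win (D : AData) (N : ℕ) (T α h1 h2 : ℝ) (s0 : ℂ) : ℂ :=
  (1 / (2 * Real.pi) : ℝ) * ∫ t in h1..h2, gam α (((s0.re + 1 / Real.log T : ℝ) : ℂ) + t * I) *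
    WinP D T α (((s0.re + 1 / Real.log T : ℝ) : ℂ) + t * I) *
    Ke N (ka D T) (kh D N T) (((s0.re + 1 / Real.log T : ℝ) : ℂ) + t * I - s0)

/-- The integral on the line `Re s = 2`. -/
noncomputable def LowI (D : AData) (N : ℕ) (T α h1 h2 : ℝ) (s0 : ℂ) : ℂ :=
  (1 / (2 * Real.pi) : ℝ) * ∫ t in h1..h2, Fs D T α (2 + t * I) *
    Ke N (ka D T) (kh D N T) (2 + t * I - s0)

/-- The residue part. -/
noncomputable def ResP (D : AData) (N : ℕ) (T α h1 h2 : ℝ) (s0 : ℂ) : ℂ :=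
  ∑ z ∈ isoZ α h1 h2, I * (cz α z : ℂ) * Vs D T (1 / 2 + ((z + α : ℝ) : ℂ) * I) *
    Ke N (ka D T) (kh D N T) (1 / 2 + (z : ℂ) * I - s0)

/-- The window kernel for the exceptional set. -/
noncomputable def kk1 (T u : ℝ) : ℝ := Real.log T / (1 + (Real.log T * u) ^ 2)

end Pool.Agent.AHD
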