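import Pool.Agent.ZGap.AH.Defs2

/-!
# Definitions for the lower bound of `V` and for the sums over rough numbers
-/

open scoped ContDiff

namespace Pool.Agent.AHD

open Complex MeasureTheory Set Pool.Agent.Hadamard Pool.Agent.HalfGap

/-- The degree of the truncated exponential. -/
noncomputable def Jd (ep : ℝ) : ℕ := ⌈8 * Real.log (1 / ep) + 8⌉₊

/-- The prime sum of `V` at height `Yc`, up to `T^{1/(4J)}`. -/
noncomputable def XXp (D : AData) (T τ t : ℝ) : ℂ :=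
  ∑ p ∈ (Finset.Icc 1 ⌊T ^ (1 / (4 * (Jd D.ep : ℝ)))⌋₊).filter Nat.Prime,
    (D.f (xip T p) : ℂ) * (p : ℂ) ^ (-(ss (alp τ T * Yc D.ep) t))

/-- The truncated exponential of `-XXp`. -/
noncomputable def Qe (D : AData) (T τ t : ℝ) : ℂ :=
  ∑ j ∈ Finset.range (Jd D.ep + 1), (-XXp D T τ t) ^ j / (j.factorial : ℂ)

/-- The primes in `(T^a, T^b]`. -/
noncomputable def PR (T a b : ℝ) : Finset ℕ := (Finset.Ioc ⌊T ^ a⌋₊ ⌊T ^ b⌋₊).filter Nat.Prime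

/-- `∑_{T^a < p ≤ T^b} p^{-1/2-it}`. -/
noncomputable def Dl (T a b t : ℝ) : ℂ := ∑ p ∈ PR T a b, (p : ℂ) ^ (-(1 / 2 + t * I))

/-- `∑_{T^a < p ≤ T^b} 1/p`. -/
noncomputable def sg (T a b : ℝ) : ℝ := ∑ p ∈ PR T a b, (1 : ℝ) / p

/-- `μ²(n) ∏_{p ∣ n} f(ξ_p)²`. -/
noncomputable def H0 (D : AData) (T : ℝ) (n : ℕ) : ℝ :=
  (ArithmeticFunction.moebius n : ℝ) ^ 2 * ∏ p ∈ n.primeFactors, D.f (xip T p) ^ 2

/-- `∑_{n ≤ e^u} H0(n)/n`. -/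
noncomputable def HN (D : AData) (T u : ℝ) : ℝ := ∑ n ∈ Finset.Icc 1 ⌊Real.exp u⌋₊, H0 D T n / n

/-- The prime sum `∑ f(ξ_p) p^{-1/2-it}`. -/
noncomputable def Pr1 (D : AData) (T t : ℝ) : ℂ :=
  ∑ p ∈ (Finset.Icc 1 ⌊T⌋₊).filter Nat.Prime, ((D.f (xip T p) / Real.sqrt p : ℝ) : ℂ) *
    Complex.exp (((-(t * Real.log p) : ℝ) : ℂ) * I)

end Pool.Agent.AHD
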