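import Pool.Agent.ZGap.AH.Fb2
import Pool.Agent.ZGap.AH.C2

/-!
# The mean of the controlling function
-/

open scoped ContDiff

namespace Pool.Agent.AHD

open Complex MeasureTheory Set Pool.Agent.Hadamard Pool.Agent.HalfGap

/-- Fubini for continuous functions -/
theorem Fb4_swap {f : ℝ → ℝ → ℝ} (hf : Continuous fun p : ℝ × ℝ => f p.1 p.2) (a b c d : ℝ) :
    ∫ t in a..b, ∫ x in c..d, f t x = ∫ x in c..d, ∫ t in a..b, f t x := by
  refine intervalIntegral_intervalIntegral_swap ?_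
  have h1 : IsCompact (uIcc a b ×ˢ uIcc c d) := isCompact_uIcc.prod isCompact_uIcc
  have h2 : IntegrableOn (Function.uncurry f) (uIcc a b ×ˢ uIcc c d) :=
    hf.continuousOn.integrableOn_compact h1
  exact h2.mono_set (prod_mono uIoc_subset_uIcc uIoc_subset_uIcc)

/-- A bound of all inner integrals gives a bound of the double integral. -/
theorem Fb4_double {f : ℝ → ℝ → ℝ} (hf : Continuous fun p : ℝ × ℝ => f p.1 p.2) {a b c d M : ℝ}
    (hcd : c ≤ d) (h : ∀ x ∈ Icc c d, ∫ t in a..b, f t x ≤ M) :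
    ∫ t in a..b, ∫ x in c..d, f t x ≤ M * (d - c) := by
  rw [Fb4_swap hf]
  have h1 : Continuous fun x => ∫ t in a..b, f t x := by
    have h2 : Continuous fun p : ℝ × ℝ => f p.2 p.1 := hf.comp continuous_swap
    exact intervalIntegral.continuous_parametric_intervalIntegral_of_continuous' h2 a b
  calc ∫ x in c..d, ∫ t in a..b, f t x ≤ ∫ x in c..d, M :=
        intervalIntegral.integral_mono_on hcd (h1.intervalIntegrable _ _)
          (continuous_const.intervalIntegrable _ _) h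
    _ = M * (d - c) := by
        rw [intervalIntegral.integral_const, smul_eq_mul, mul_comm]

theorem Fb4_V_continuous (D : AData) (T x : ℝ) : Continuous fun t : ℝ => ‖Vs D T (ss x t)‖ := by
  have h1 := Vs_continuous D T
  have h2 : Continuous fun t : ℝ => ss x t := by unfold ss; fun_prop
  exact (h1.comp h2).norm

/-- first moment from the second moment -/
theorem Fb4_first (D : AData) {T x C a b : ℝ} (_hT : 0 ≤ T) (ha : T ≤ a) (hab : a ≤ b)
    (hb : b ≤ 2 * T)
    (h : ∫ t in T..(2 * T), ‖Vs D T (ss x t)‖ ^ 2 ≤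
      C / D.ep * Real.exp (2 * (ka D T * max (-x) 0)) * T) :
    ∫ t in a..b, ‖Vs D T (ss x t)‖ ≤ (1 / D.ep + C) * Real.exp (ka D T * max (-x) 0) * T / 2 := by
  have hep := D.ep_pos
  set E := Real.exp (ka D T * max (-x) 0) with hE
  have hE0 : 0 < E := Real.exp_pos _
  have hE2 : Real.exp (2 * (ka D T * max (-x) 0)) = E ^ 2 := by
    rw [hE, ← Real.exp_nat_mul]
    norm_num
  rw [hE2] at h
  have hV := Fb4_V_continuous D T x
  have hV2 : Continuous fun t : ℝ => ‖Vs D T (ss x t)‖ ^ 2 := hV.pow 2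
  have hc2 : Continuous fun t : ℝ => D.ep / (2 * E) * ‖Vs D T (ss x t)‖ ^ 2 :=
    continuous_const.mul hV2
  have hpt : ∀ t ∈ Icc a b, ‖Vs D T (ss x t)‖ ≤
      E / (2 * D.ep) + D.ep / (2 * E) * ‖Vs D T (ss x t)‖ ^ 2 := by
    intro t _
    set v := ‖Vs D T (ss x t)‖
    have h1 : 0 ≤ (E - D.ep * v) ^ 2 / (2 * D.ep * E) := by positivity
    have h2 : (E - D.ep * v) ^ 2 / (2 * D.ep * E) =
        E / (2 * D.ep) + D.ep / (2 * E) * v ^ 2 - v := by
      field_simp
      ring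
    linarith
  have hsub : ∫ t in a..b, ‖Vs D T (ss x t)‖ ^ 2 ≤ ∫ t in T..(2 * T), ‖Vs D T (ss x t)‖ ^ 2 :=
    intervalIntegral.integral_mono_interval ha hab hb
      (Filter.Eventually.of_forall (fun t => by positivity)) (hV2.intervalIntegrable _ _)
  calc ∫ t in a..b, ‖Vs D T (ss x t)‖ ≤
      ∫ t in a..b, (E / (2 * D.ep) + D.ep / (2 * E) * ‖Vs D T (ss x t)‖ ^ 2) :=
        intervalIntegral.integral_mono_on hab (hV.intervalIntegrable _ _)
          ((continuous_const.add hc2).intervalIntegrable _ _) hpt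
    _ = E / (2 * D.ep) * (b - a) + D.ep / (2 * E) * ∫ t in a..b, ‖Vs D T (ss x t)‖ ^ 2 := by
        rw [intervalIntegral.integral_add (continuous_const.intervalIntegrable _ _)
          (hc2.intervalIntegrable _ _), intervalIntegral.integral_const,
          intervalIntegral.integral_const_mul, smul_eq_mul]
        ring
    _ ≤ E / (2 * D.ep) * T + D.ep / (2 * E) * (C / D.ep * E ^ 2 * T) := by
        refine add_le_add (mul_le_mul_of_nonneg_left (by linarith) (by positivity)) ?_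
        exact mul_le_mul_of_nonneg_left (hsub.trans h) (by positivity)
    _ = (1 / D.ep + C) * E * T / 2 := by
        field_simp

theorem Fb4_first_shift (D : AData) {T x C a b α : ℝ} (hT : 0 ≤ T) (ha : T ≤ a + α) (hab : a ≤ b)
    (hb : b + α ≤ 2 * T)
    (h : ∫ t in T..(2 * T), ‖Vs D T (ss x t)‖ ^ 2 ≤
      C / D.ep * Real.exp (2 * (ka D T * max (-x) 0)) * T) :
    ∫ t in a..b, ‖Vs D T (ss x (t + α))‖ ≤
      (1 / D.ep + C) * Real.exp (ka D T * max (-x) 0) * T / 2 := by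
  rw [intervalIntegral.integral_comp_add_right (fun t => ‖Vs D T (ss x t)‖)]
  exact Fb4_first D hT ha (by linarith) hb h

section parts

variable {D : AData} {τ T a₁ a₂ M : ℝ}

theorem Fb4_I1 (hRH : RiemannHypothesis) (hτ : 1 / 3 < τ) (hα : 0 < alp τ T)
    (hb : bz D τ ≤ 2 * Yc D.ep + 1)
    (h : ∀ b ∈ Icc (bz D τ) (2 * Yc D.ep + 1), ∫ t in a₁..a₂,
      ‖Ds D τ T (ss (-(alp τ T * b)) t)‖ ≤ M * Real.exp (2 * c0 D τ * b)) :
    ∫ t in a₁..a₂, Hd1 D τ T t ≤ M * (2 * Yc D.ep + 1 - bz D τ) := by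
  unfold Hd1
  refine Fb4_double (f := fun t b =>
    ‖Ds D τ T (ss (-(alp τ T * max b (bz D τ))) t)‖ * Real.exp (-(2 * c0 D τ * b))) ?_ hb ?_
  · have h := Ds_continuous hRH D τ T (g := fun b => -(alp τ T * max b (bz D τ))) (by fun_prop)
      (fun b => neg_ne_zero.mpr (max_bz_ne hτ hα b))
    have h2 : Continuous fun p : ℝ × ℝ => Real.exp (-(2 * c0 D τ * p.2)) := by fun_prop
    exact h.mul h2
  · intro b hb
    simp only [max_eq_left hb.1]
    rw [intervalIntegral.integral_mul_const]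
    calc _ ≤ M * Real.exp (2 * c0 D τ * b) * Real.exp (-(2 * c0 D τ * b)) :=
          mul_le_mul_of_nonneg_right (h b hb) (Real.exp_pos _).le
      _ = M := by
          rw [mul_assoc, ← Real.exp_add, add_neg_cancel, Real.exp_zero, mul_one]

theorem Fb4_I2 (hRH : RiemannHypothesis) (hτ : 1 / 3 < τ) (hα : 0 < alp τ T)
    (hb : bz D τ ≤ 2 * Yc D.ep + 1)
    (h : ∀ b ∈ Icc (bz D τ) (2 * Yc D.ep + 1), ∫ t in a₁..a₂,
      ‖Ds D τ T (ss (alp τ T * b) t)‖ ≤ M) :
    ∫ t in a₁..a₂, Hd2 D τ T t ≤ M * (2 * Yc D.ep + 1 - bz D τ) := by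
  unfold Hd2
  refine Fb4_double (f := fun t b =>
    ‖Ds D τ T (ss (alp τ T * max b (bz D τ)) t)‖) ?_ hb ?_
  · exact Ds_continuous hRH D τ T (g := fun b => (alp τ T * max b (bz D τ))) (by fun_prop)
      (fun b => (max_bz_ne hτ hα b))
  · intro b hb
    simp only [max_eq_left hb.1]
    exact h b hb

theorem Fb4_I3 (hb : 0 ≤ bz D τ)
    (h : ∀ b ∈ Icc (-bz D τ) (bz D τ), ∫ t in a₁..a₂,
      ‖Vs D T (ss (-(alp τ T * b)) (t + alp τ T))‖ ≤ M)
    (h' : ∀ b ∈ Icc (-bz D τ) (bz D τ), ∫ t in a₁..a₂,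
      ‖Vs D T (ss (-(alp τ T * b)) t)‖ ≤ M) :
    ∫ t in a₁..a₂, Hv0 D τ T t ≤ (M + M) * (bz D τ - (-bz D τ)) := by
  unfold Hv0
  refine Fb4_double (f := fun t b => ‖Vs D T (ss (-(alp τ T * b)) (t + alp τ T))‖ +
    ‖Vs D T (ss (-(alp τ T * b)) t)‖) ?_ (by linarith) ?_
  · have h := Vs_continuous D T
    have h2 : Continuous fun p : ℝ × ℝ => ss (-(alp τ T * p.2)) (p.1 + alp τ T) := by
      unfold ss; fun_prop
    have h3 : Continuous fun p : ℝ × ℝ => ss (-(alp τ T * p.2)) p.1 := by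
      unfold ss; fun_prop
    exact (h.comp h2).norm.add (h.comp h3).norm
  · intro b hb
    have hc1 : Continuous fun t : ℝ => ‖Vs D T (ss (-(alp τ T * b)) (t + alp τ T))‖ :=
      (Fb4_V_continuous D T (-(alp τ T * b))).comp (continuous_id.add continuous_const)
    show ∫ t in a₁..a₂, (‖Vs D T (ss (-(alp τ T * b)) (t + alp τ T))‖ +
      ‖Vs D T (ss (-(alp τ T * b)) t)‖) ≤ M + M
    rw [intervalIntegral.integral_add (hc1.intervalIntegrable _ _)
      ((Fb4_V_continuous D T _).intervalIntegrable _ _)]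
    exact add_le_add (h b hb) (h' b hb)

theorem Fb4_I4 (h : ∀ b ∈ Icc (2 * Yc D.ep) (2 * Yc D.ep + 1), ∫ t in a₁..a₂,
      ‖Vs D T (ss (-(alp τ T * b)) t)‖ ≤ M * Real.exp (2 * c0 D τ * b)) :
    ∫ t in a₁..a₂, Hv1 D τ T t ≤ M * (2 * Yc D.ep + 1 - 2 * Yc D.ep) := by
  unfold Hv1
  refine Fb4_double (f := fun t b => ‖Vs D T (ss (-(alp τ T * b)) t)‖ *
    Real.exp (-(2 * c0 D τ * b))) ?_ (by linarith) ?_
  · have h := Vs_continuous D T
    have h3 : Continuous fun p : ℝ × ℝ => ss (-(alp τ T * p.2)) p.1 := by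
      unfold ss; fun_prop
    exact (h.comp h3).norm.mul (by fun_prop)
  · intro b hb
    rw [intervalIntegral.integral_mul_const]
    calc _ ≤ M * Real.exp (2 * c0 D τ * b) * Real.exp (-(2 * c0 D τ * b)) :=
          mul_le_mul_of_nonneg_right (h b hb) (Real.exp_pos _).le
      _ = M := by
          rw [mul_assoc, ← Real.exp_add, add_neg_cancel, Real.exp_zero, mul_one]

theorem Fb4_I5 (h : ∀ b ∈ Icc (2 * Yc D.ep) (2 * Yc D.ep + 1), ∫ t in a₁..a₂,
      ‖Vs D T (ss (alp τ T * b) t)‖ ≤ M) :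
    ∫ t in a₁..a₂, Hv2 D τ T t ≤ M * (2 * Yc D.ep + 1 - 2 * Yc D.ep) := by
  unfold Hv2
  refine Fb4_double (f := fun t b => ‖Vs D T (ss (alp τ T * b) t)‖) ?_ (by linarith) ?_
  · have h := Vs_continuous D T
    have h3 : Continuous fun p : ℝ × ℝ => ss (alp τ T * p.2) p.1 := by
      unfold ss; fun_prop
    exact (h.comp h3).norm
  · intro b hb
    exact h b hb

theorem Fb4_split (hRH : RiemannHypothesis) (hτ : 1 / 3 < τ) (hα : 0 < alp τ T) :
    ∫ t in a₁..a₂, Hf D τ T t = (∫ t in a₁..a₂, Hd1 D τ T t) + (∫ t in a₁..a₂, Hd2 D τ T t) +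
      (∫ t in a₁..a₂, Hv0 D τ T t) +
      Real.exp (-(2 * Real.pi * Yc D.ep)) * ((∫ t in a₁..a₂, Hv1 D τ T t) +
        ∫ t in a₁..a₂, Hv2 D τ T t) := by
  have hcd1 := Hd1_continuous (D := D) (τ := τ) (T := T) hRH hτ hα
  have hcd2 := Hd2_continuous (D := D) (τ := τ) (T := T) hRH hτ hα
  have hcv0 := Hv0_continuous (D := D) (τ := τ) (T := T)
  have hcv1 := Hv1_continuous (D := D) (τ := τ) (T := T)
  have hcv2 := Hv2_continuous (D := D) (τ := τ) (T := T)
  unfold Hf
  rw [intervalIntegral.integral_add, intervalIntegral.integral_add,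
    intervalIntegral.integral_add, intervalIntegral.integral_const_mul,
    intervalIntegral.integral_add]
  · exact hcv1.intervalIntegrable _ _
  · exact hcv2.intervalIntegrable _ _
  · exact hcd1.intervalIntegrable _ _
  · exact hcd2.intervalIntegrable _ _
  · exact (hcd1.add hcd2).intervalIntegrable _ _
  · exact hcv0.intervalIntegrable _ _
  · exact ((hcd1.add hcd2).add hcv0).intervalIntegrable _ _
  · exact (continuous_const.mul (hcv1.add hcv2)).intervalIntegrable _ _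

theorem Fb4_hka (hL : 0 < Real.log T) (b : ℝ) : ka D T * (alp τ T * b) = 2 * c0 D τ * b := by
  unfold ka c0 alp
  field_simp

/-- the admissible sizes of the shifts -/
theorem Fb4_size (hL : 0 < Real.log T) (hτ : 1 / 3 < τ) (hτ' : τ < 1 / 2)
    (h10 : 10 * Yc D.ep * D.ep ≤ 1) {b : ℝ} (hb : |b| ≤ 2 * Yc D.ep + 1) :
    |alp τ T * b| ≤ 1 / (D.ep * Real.log T) := by
  have hep := D.ep_pos
  have hep' := D.ep_le
  have hpi := Real.pi_pos
  have hpi2 := Real.pi_lt_d2
  have hα0 : 0 < alp τ T := by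
    unfold alp
    positivity
  rw [abs_mul, abs_of_pos hα0, le_div_iff₀ (by positivity)]
  have h1 : alp τ T * |b| * (D.ep * Real.log T) = 2 * Real.pi * τ * (|b| * D.ep) := by
    unfold alp
    field_simp
  rw [h1]
  have h2 : |b| * D.ep ≤ 0.21 := by
    calc |b| * D.ep ≤ (2 * Yc D.ep + 1) * D.ep := mul_le_mul_of_nonneg_right hb hep.le
      _ ≤ 0.21 := by linarith
  have h3 : 2 * Real.pi * τ ≤ 3.15 := by nlinarith
  have h4 : 0 ≤ |b| * D.ep := by positivity
  calc 2 * Real.pi * τ * (|b| * D.ep) ≤ 3.15 * 0.21 :=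
        mul_le_mul h3 h2 h4 (by norm_num)
    _ ≤ 1 := by norm_num

end parts

theorem Fb4_log (D : AData) : 1 ≤ Real.log (1 / D.ep) := by
  have hep := D.ep_pos
  have hep' := D.ep_le
  have he1 := Real.exp_one_lt_d9
  rw [Real.le_log_iff_exp_le (by positivity)]
  have : 100 ≤ 1 / D.ep := by
    rw [le_div_iff₀ hep]
    linarith
  linarith

theorem Fb4_exp (D : AData) : Real.exp (-(2 * Real.pi * Yc D.ep)) ≤ D.ep := by
  have hep := D.ep_pos
  have hl1 := Fb4_log D
  have hpi3 := Real.pi_gt_three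
  have h1 : D.ep = Real.exp (-Real.log (1 / D.ep)) := by
    rw [Real.log_div one_ne_zero hep.ne', Real.log_one, zero_sub, neg_neg,
      Real.exp_log hep]
  calc _ ≤ Real.exp (-Real.log (1 / D.ep)) := by
        refine Real.exp_le_exp.2 (neg_le_neg ?_)
        unfold Yc
        set l := Real.log (1 / D.ep)
        have h2 : l ≤ l ^ 2 := by nlinarith
        have h3 : l ^ 2 ≤ 2 * Real.pi * (1000 * l ^ 2) := by
          have : 0 ≤ l ^ 2 := by positivity
          nlinarith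
        linarith
    _ = D.ep := h1.symm

/-- the final arithmetic -/
theorem Fb4_final (D : AData) {Cd CV T b I1 I2 I3 I4 I5 x l : ℝ} (hCd : 0 < Cd) (hCV : 0 < CV)
    (hT0 : 0 < T) (hb0 : 0 < b) (hb1 : b ≤ D.ep ^ 2) (hl1 : 1 ≤ l) (hx0 : 0 < x) (hx : x ≤ D.ep)
    (hY : Yc D.ep = 1000 * l ^ 2)
    (hI1 : I1 ≤ Cd * l ^ 2 * T * (2 * Yc D.ep + 1 - b))
    (hI2 : I2 ≤ Cd * l ^ 2 * T * (2 * Yc D.ep + 1 - b))
    (hI3 : I3 ≤ ((1 / D.ep + CV) * 3 * T / 2 + (1 / D.ep + CV) * 3 * T / 2) * (b - (-b)))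
    (hI4 : I4 ≤ (1 / D.ep + CV) * T / 2) (hI5 : I5 ≤ (1 / D.ep + CV) * T / 2) :
    I1 + I2 + I3 + x * (I4 + I5) ≤ (4002 * Cd + 8 * (1 + CV)) * l ^ 4 * T := by
  have hep := D.ep_pos
  have hep' := D.ep_le
  have hl2 : 1 ≤ l ^ 2 := one_le_pow₀ hl1
  have hl4 : 1 ≤ l ^ 4 := one_le_pow₀ hl1
  have hA : Cd * l ^ 2 * T * (2 * Yc D.ep + 1 - b) ≤ 2001 * Cd * l ^ 4 * T := by
    have h1 : 2 * Yc D.ep + 1 - b ≤ 2001 * l ^ 2 := by
      rw [hY]
      linarith
    calc _ ≤ Cd * l ^ 2 * T * (2001 * l ^ 2) :=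
          mul_le_mul_of_nonneg_left h1 (by positivity)
      _ = 2001 * Cd * l ^ 4 * T := by ring
  have hB : ((1 / D.ep + CV) * 3 * T / 2 + (1 / D.ep + CV) * 3 * T / 2) * (b - (-b)) ≤
      6 * (1 + CV) * T := by
    have h1 : b - (-b) ≤ 2 * D.ep ^ 2 := by linarith
    have h0 : 0 ≤ (1 / D.ep + CV) * 3 * T / 2 + (1 / D.ep + CV) * 3 * T / 2 := by positivity
    calc _ ≤ ((1 / D.ep + CV) * 3 * T / 2 + (1 / D.ep + CV) * 3 * T / 2) * (2 * D.ep ^ 2) :=
          mul_le_mul_of_nonneg_left h1 h0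
      _ = 6 * (D.ep + CV * D.ep ^ 2) * T := by
          field_simp
          ring
      _ ≤ 6 * (1 + CV) * T := by
          have h2 : D.ep ^ 2 ≤ 1 := by nlinarith
          have h3 : CV * D.ep ^ 2 ≤ CV * 1 := mul_le_mul_of_nonneg_left h2 hCV.le
          have h4 : 6 * (D.ep + CV * D.ep ^ 2) ≤ 6 * (1 + CV) := by linarith
          exact mul_le_mul_of_nonneg_right h4 hT0.le
  have hV1 : 0 ≤ (1 / D.ep + CV) * T := by positivity
  have hC : x * (I4 + I5) ≤ (1 + CV) * T := by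
    have h1 : I4 + I5 ≤ (1 / D.ep + CV) * T := by linarith
    calc _ ≤ x * ((1 / D.ep + CV) * T) := mul_le_mul_of_nonneg_left h1 hx0.le
      _ ≤ D.ep * ((1 / D.ep + CV) * T) := mul_le_mul_of_nonneg_right hx hV1
      _ = (1 + D.ep * CV) * T := by
          field_simp
      _ ≤ (1 + CV) * T := by
          refine mul_le_mul_of_nonneg_right ?_ hT0.le
          have : D.ep * CV ≤ 1 * CV := mul_le_mul_of_nonneg_right (by linarith) hCV.le
          linarith
  have hfin : 8 * (1 + CV) * T ≤ 8 * (1 + CV) * l ^ 4 * T := by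
    have h1 : 0 ≤ 8 * (1 + CV) := by positivity
    have h2 : 8 * (1 + CV) * 1 ≤ 8 * (1 + CV) * l ^ 4 := mul_le_mul_of_nonneg_left hl4 h1
    have h3 := mul_le_mul_of_nonneg_right h2 hT0.le
    linarith
  have hCVT : 0 ≤ (1 + CV) * T := by positivity
  calc _ ≤ 2001 * Cd * l ^ 4 * T + 2001 * Cd * l ^ 4 * T + 6 * (1 + CV) * T + (1 + CV) * T := by
        linarith
    _ ≤ (4002 * Cd + 8 * (1 + CV)) * l ^ 4 * T := by linarith

/-- The mean of `Hf` over the block. -/
theorem Fb_mean (hRH : RiemannHypothesis) : ∃ C : ℝ, 0 < C ∧ ∀ D : AData, ∀ τ θ : ℝ,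
    10 * Yc D.ep * D.ep ≤ 1 → 1 / 2 - D.ep ^ 2 ≤ τ → τ < 1 / 2 → 0 < θ → θ ≤ 1 / 8 →
    ∃ δ T0 : ℝ, 0 < δ ∧ ∀ T : ℝ, T0 ≤ T → Few τ δ θ T →
      ∫ t in (5 * T / 4)..(7 * T / 4), Hf D τ T t ≤ C * Real.log (1 / D.ep) ^ 4 * T := by
  obtain ⟨Cd, hCd, hd⟩ := dmean hRH
  obtain ⟨CV, hCV, hv⟩ := vmean
  refine ⟨4002 * Cd + 8 * (1 + CV), by positivity, ?_⟩
  intro D τ θ h10 hτ hτ' hθ hθ'
  obtain ⟨δ, T1, hδ, hd⟩ := hd D τ θ hτ hτ' hθ hθ'
  obtain ⟨T2, hv⟩ := hv D
  refine ⟨δ, max (max T1 T2) 16, hδ, ?_⟩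
  intro T hT hF
  have hTa : T1 ≤ T := (le_max_left _ _).trans ((le_max_left _ _).trans hT)
  have hTb : T2 ≤ T := (le_max_right _ _).trans ((le_max_left _ _).trans hT)
  have hT16 : 16 ≤ T := (le_max_right _ _).trans hT
  have hT0 : 0 < T := by linarith
  replace hd := hd T hTa hF
  replace hv := hv T hTb
  have hep := D.ep_pos
  have hep' := D.ep_le
  have hpi := Real.pi_pos
  have hpi2 := Real.pi_lt_d2
  have hpi3 := Real.pi_gt_three
  have he1 := Real.exp_one_lt_d9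
  have hL1 : 1 ≤ Real.log T := by
    rw [Real.le_log_iff_exp_le hT0]
    linarith
  have hL : 0 < Real.log T := by linarith
  have hep2 : D.ep ^ 2 ≤ 1 / 100 := by nlinarith
  have hτ3 : 1 / 3 < τ := by linarith
  have hl1 := Fb4_log D
  have hYc1 : 1000 ≤ Yc D.ep := by
    unfold Yc
    have : 1 ≤ Real.log (1 / D.ep) ^ 2 := one_le_pow₀ hl1
    linarith
  have hα0 : 0 < alp τ T := by
    unfold alp
    positivity
  have hα4 : alp τ T ≤ T / 4 := by
    unfold alp
    rw [div_le_iff₀ hL]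
    have h1 : 2 * Real.pi * τ ≤ 4 := by nlinarith
    have h2 : T / 4 * 1 ≤ T / 4 * Real.log T := mul_le_mul_of_nonneg_left hL1 (by linarith)
    linarith
  have hbz0 : 0 < bz D τ := bz_pos hτ3
  have hbz1 : bz D τ ≤ D.ep ^ 2 := by
    unfold bz
    have h1 : 1 ≤ 2 * Real.pi * τ := by nlinarith
    exact div_le_self (by positivity) h1
  have hbzL : alp τ T * bz D τ = D.ep ^ 2 / Real.log T := by
    unfold alp bz
    field_simp
  have hbY : bz D τ ≤ 2 * Yc D.ep + 1 := by linarith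
  have hka := Fb4_hka (D := D) (τ := τ) hL
  -- first part
  have hI1 := Fb4_I1 (a₁ := 5 * T / 4) (a₂ := 7 * T / 4)
    (M := Cd * Real.log (1 / D.ep) ^ 2 * T) hRH hτ3 hα0 hbY (by
      intro b hb
      have hb0 : 0 < b := hbz0.trans_le hb.1
      have h1 := hd (-(alp τ T * b)) (by
        rw [abs_neg, abs_of_pos (by positivity), ← hbzL]
        exact mul_le_mul_of_nonneg_left hb.1 hα0.le) (by
        rw [abs_neg]
        exact Fb4_size hL hτ3 hτ' h10 (by rw [abs_of_pos hb0]; exact hb.2))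
      rw [neg_neg, max_eq_left (by positivity), hka] at h1
      linarith)
  have hI2 := Fb4_I2 (a₁ := 5 * T / 4) (a₂ := 7 * T / 4)
    (M := Cd * Real.log (1 / D.ep) ^ 2 * T) hRH hτ3 hα0 hbY (by
      intro b hb
      have hb0 : 0 < b := hbz0.trans_le hb.1
      have hp : 0 < alp τ T * b := by positivity
      have h1 := hd (alp τ T * b) (by
        rw [abs_of_pos hp, ← hbzL]
        exact mul_le_mul_of_nonneg_left hb.1 hα0.le)
        (Fb4_size hL hτ3 hτ' h10 (by rw [abs_of_pos hb0]; exact hb.2))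
      rw [max_eq_right (by linarith), mul_zero, Real.exp_zero, mul_one] at h1
      exact h1)
  -- V parts
  have hE3 : ∀ b ∈ Icc (-bz D τ) (bz D τ),
      Real.exp (ka D T * max (-(-(alp τ T * b))) 0) ≤ 3 := by
    intro b hb
    have h5 : ka D T * max (-(-(alp τ T * b))) 0 ≤ 1 := by
      rw [neg_neg]
      have hka0 : 0 ≤ ka D T := by
        unfold ka
        have : 0 ≤ 1 - D.ep := by linarith
        positivity
      have h6 : max (alp τ T * b) 0 ≤ alp τ T * bz D τ :=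
        max_le (mul_le_mul_of_nonneg_left hb.2 hα0.le) (by positivity)
      calc ka D T * max (alp τ T * b) 0 ≤ ka D T * (alp τ T * bz D τ) :=
            mul_le_mul_of_nonneg_left h6 hka0
        _ = (1 - D.ep) * D.ep ^ 2 := by
            rw [hbzL]
            unfold ka
            field_simp
        _ ≤ 1 * D.ep ^ 2 := mul_le_mul_of_nonneg_right (by linarith) (by positivity)
        _ ≤ 1 := by linarith
    calc _ ≤ Real.exp 1 := Real.exp_le_exp.2 h5
      _ ≤ 3 := by linarith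
  have hCe : 0 ≤ 1 / D.ep + CV := by positivity
  have hM : ∀ E : ℝ, E ≤ 3 → (1 / D.ep + CV) * E * T / 2 ≤ (1 / D.ep + CV) * 3 * T / 2 := by
    intro E hE
    have h8 := mul_le_mul_of_nonneg_left hE hCe
    have h9 := mul_le_mul_of_nonneg_right h8 hT0.le
    linarith
  have hI3 := Fb4_I3 (D := D) (τ := τ) (T := T) (a₁ := 5 * T / 4) (a₂ := 7 * T / 4)
    (M := (1 / D.ep + CV) * 3 * T / 2) hbz0.le (by
      intro b hb
      have hb' : |b| ≤ bz D τ := abs_le.2 hb
      have h1 := hv (-(alp τ T * b)) (by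
        rw [abs_neg]
        exact Fb4_size hL hτ3 hτ' h10 (by linarith))
      exact (Fb4_first_shift D hT0.le (a := 5 * T / 4) (b := 7 * T / 4) (α := alp τ T)
        (by linarith) (by linarith) (by linarith) h1).trans (hM _ (hE3 b hb)))
    (by
      intro b hb
      have hb' : |b| ≤ bz D τ := abs_le.2 hb
      have h1 := hv (-(alp τ T * b)) (by
        rw [abs_neg]
        exact Fb4_size hL hτ3 hτ' h10 (by linarith))
      exact (Fb4_first D hT0.le (a := 5 * T / 4) (b := 7 * T / 4) (by linarith) (by linarith)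
        (by linarith) h1).trans (hM _ (hE3 b hb)))
  have hI4 := Fb4_I4 (D := D) (τ := τ) (T := T) (a₁ := 5 * T / 4) (a₂ := 7 * T / 4)
    (M := (1 / D.ep + CV) * T / 2) (by
      intro b hb
      have hb0 : 0 < b := by linarith [hb.1]
      have h1 := hv (-(alp τ T * b)) (by
        rw [abs_neg]
        exact Fb4_size hL hτ3 hτ' h10 (by rw [abs_of_pos hb0]; exact hb.2))
      have h2 := Fb4_first D hT0.le (a := 5 * T / 4) (b := 7 * T / 4) (by linarith) (by linarith)
        (by linarith) h1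
      rw [neg_neg, max_eq_left (by positivity), hka] at h2
      linarith)
  have hI5 := Fb4_I5 (D := D) (τ := τ) (T := T) (a₁ := 5 * T / 4) (a₂ := 7 * T / 4)
    (M := (1 / D.ep + CV) * T / 2) (by
      intro b hb
      have hb0 : 0 < b := by linarith [hb.1]
      have hp : 0 < alp τ T * b := by positivity
      have h1 := hv (alp τ T * b) (Fb4_size hL hτ3 hτ' h10 (by rw [abs_of_pos hb0]; exact hb.2))
      have h2 := Fb4_first D hT0.le (a := 5 * T / 4) (b := 7 * T / 4) (by linarith) (by linarith)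
        (by linarith) h1
      rw [max_eq_right (by linarith), mul_zero, Real.exp_zero, mul_one] at h2
      exact h2)
  rw [add_sub_cancel_left, mul_one] at hI4 hI5
  rw [Fb4_split hRH hτ3 hα0]
  exact Fb4_final D hCd hCV hT0 hbz0 hbz1 hl1 (Real.exp_pos _) (Fb4_exp D) rfl hI1 hI2 hI3 hI4 hI5

end Pool.Agent.AHD
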