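import Pool.Agent.ZGap.AH.Fb2

/-!
# Markov's inequality and the averaged controlling function
-/

open scoped ContDiff

namespace Pool.Agent.AHD

open Complex MeasureTheory Set Pool.Agent.Hadamard Pool.Agent.HalfGap

/-- Markov's inequality on an interval. -/
lemma markov {a b M K : ℝ} (hab : a ≤ b) (hM : 0 < M) {g : ℝ → ℝ}
    (hg : IntervalIntegrable g volume a b) (h0 : ∀ t, 0 ≤ g t) (hK : ∫ t in a..b, g t ≤ K) :
    volume.real {t | t ∈ Icc a b ∧ M ≤ g t} ≤ K / M := by
  have hgi : IntegrableOn g (Ioc a b) := (intervalIntegrable_iff_integrableOn_Ioc_of_le hab).mp hg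
  have hgi2 : IntegrableOn g (Icc a b) := by
    rw [integrableOn_Icc_iff_integrableOn_Ioc]
    exact hgi
  have h1 := mul_meas_ge_le_integral_of_nonneg (μ := volume.restrict (Icc a b)) (f := g)
    (Filter.Eventually.of_forall h0) hgi2 M
  have h2 : (volume.restrict (Icc a b)).real {x | M ≤ g x} =
      volume.real {t | t ∈ Icc a b ∧ M ≤ g t} := by
    have hns : NullMeasurableSet {x | M ≤ g x} (volume.restrict (Icc a b)) :=
      nullMeasurableSet_le aemeasurable_const hgi2.1.aemeasurable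
    rw [Measure.real, Measure.real, Measure.restrict_apply₀ hns]
    congr 2
    ext x
    simp [and_comm]
  rw [h2] at h1
  rw [le_div_iff₀ hM, mul_comm]
  refine h1.trans ?_
  rw [integral_Icc_eq_integral_Ioc, ← intervalIntegral.integral_of_le hab]
  exact hK

/-- the local average of `Hf` -/
noncomputable def Qf (D : AData) (τ T : ℝ) (J : ℕ) (t : ℝ) : ℝ :=
  ∫ a in (-3)..((J : ℝ) + 3), Hf D τ T (t + alp τ T * a)

variable {D : AData} {τ T : ℝ}

lemma Qf_continuous (hRH : RiemannHypothesis) (hτ : 1 / 3 < τ) (hT : 0 < alp τ T) (J : ℕ) :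
    Continuous (Qf D τ T J) := by
  unfold Qf
  apply cont_int
  exact (Hf_continuous hRH hτ hT).comp (by fun_prop)

lemma Qf_nonneg (hτ : 1 / 3 < τ) (hb : bz D τ ≤ 2 * Yc D.ep + 1) (J : ℕ) (t : ℝ) :
    0 ≤ Qf D τ T J t := by
  unfold Qf
  refine intervalIntegral.integral_nonneg ?_ fun a _ => Hf_nonneg hτ hb _
  have : (0 : ℝ) ≤ J := Nat.cast_nonneg J
  linarith

/-- Fubini on rectangles for continuous functions -/
lemma swap_cont {f : ℝ → ℝ → ℝ} (hf : Continuous fun p : ℝ × ℝ => f p.1 p.2) {a b c d : ℝ}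
    (hab : a ≤ b) (hcd : c ≤ d) :
    ∫ x in a..b, ∫ y in c..d, f x y = ∫ y in c..d, ∫ x in a..b, f x y := by
  rw [intervalIntegral.integral_of_le hab, intervalIntegral.integral_of_le hcd]
  have e1 : ∀ x, ∫ y in c..d, f x y = ∫ y in Ioc c d, f x y := fun x =>
    intervalIntegral.integral_of_le hcd
  have e2 : ∀ y, ∫ x in a..b, f x y = ∫ x in Ioc a b, f x y := fun y =>
    intervalIntegral.integral_of_le hab
  simp only [e1, e2]
  apply integral_integral_swap
  rw [Measure.prod_restrict]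
  have h : IntegrableOn (fun p : ℝ × ℝ => f p.1 p.2) (Icc a b ×ˢ Icc c d)
      (volume.prod volume) :=
    hf.continuousOn.integrableOn_compact (isCompact_Icc.prod isCompact_Icc)
  exact h.mono_set (Set.prod_mono Ioc_subset_Icc_self Ioc_subset_Icc_self)

lemma Qf_integral (hRH : RiemannHypothesis) (hτ : 1 / 3 < τ) (hT : 0 < alp τ T)
    (hb : bz D τ ≤ 2 * Yc D.ep + 1) (J : ℕ) (hJ : alp τ T * (J + 3) ≤ 1) (hT1 : 8 ≤ T) :
    ∫ t in (5 * T / 4 + 1)..(7 * T / 4 - 1), Qf D τ T J t ≤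
      (J + 6) * ∫ t in (5 * T / 4)..(7 * T / 4), Hf D τ T t := by
  have hJ0 : (0 : ℝ) ≤ J := Nat.cast_nonneg J
  have hc := Hf_continuous (D := D) hRH hτ hT
  have hn := fun t => Hf_nonneg (D := D) (T := T) hτ hb t
  unfold Qf
  rw [swap_cont (f := fun t a => Hf D τ T (t + alp τ T * a)) (hc.comp (by fun_prop)) (by linarith)
    (by linarith)]
  have h1 : ∀ a ∈ Icc (-3 : ℝ) (J + 3),
      ∫ t in (5 * T / 4 + 1)..(7 * T / 4 - 1), Hf D τ T (t + alp τ T * a) ≤
      ∫ t in (5 * T / 4)..(7 * T / 4), Hf D τ T t := by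
    intro a ha
    rw [intervalIntegral.integral_comp_add_right (fun t => Hf D τ T t)]
    have h3 : alp τ T * a ≤ 1 := by
      refine le_trans ?_ hJ
      exact mul_le_mul_of_nonneg_left ha.2 hT.le
    have h4 : -1 ≤ alp τ T * a := by
      have h5 : alp τ T * (-3) ≤ alp τ T * a := mul_le_mul_of_nonneg_left ha.1 hT.le
      have h6 : alp τ T * 3 ≤ alp τ T * (J + 3) := mul_le_mul_of_nonneg_left (by linarith) hT.le
      linarith
    apply intervalIntegral.integral_mono_interval (by linarith) (by linarith) (by linarith)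
    · exact Filter.Eventually.of_forall hn
    · exact hc.intervalIntegrable _ _
  have h2 : ∫ a in (-3)..((J : ℝ) + 3),
      ∫ t in (5 * T / 4 + 1)..(7 * T / 4 - 1), Hf D τ T (t + alp τ T * a) ≤
      ∫ _a in (-3)..((J : ℝ) + 3), ∫ t in (5 * T / 4)..(7 * T / 4), Hf D τ T t := by
    apply intervalIntegral.integral_mono_on (by linarith)
    · apply Continuous.intervalIntegrable
      exact cont_int (f := fun a t => Hf D τ T (t + alp τ T * a)) (hc.comp (by fun_prop)) _ _
    · exact (continuous_const).intervalIntegrable _ _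
    · exact h1
  refine h2.trans (le_of_eq ?_)
  rw [intervalIntegral.integral_const, smul_eq_mul]
  ring

/-- the exceptional set for `Qf` -/
lemma Qf_bad (hRH : RiemannHypothesis) (hτ : 1 / 3 < τ) (hT : 0 < alp τ T)
    (hb : bz D τ ≤ 2 * Yc D.ep + 1) (J : ℕ) (hJ : alp τ T * (J + 3) ≤ 1) (hT1 : 8 ≤ T)
    {K M : ℝ} (hM : 0 < M) (hK : ∫ t in (5 * T / 4)..(7 * T / 4), Hf D τ T t ≤ K) :
    volume.real {t | t ∈ Icc (5 * T / 4 + 1) (7 * T / 4 - 1) ∧ M ≤ Qf D τ T J t} ≤
      (J + 6) * K / M := by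
  apply markov (by linarith) hM ((Qf_continuous hRH hτ hT J).intervalIntegrable _ _)
    (Qf_nonneg hτ hb J)
  refine (Qf_integral hRH hτ hT hb J hJ hT1).trans ?_
  have hJ0 : (0 : ℝ) ≤ J := Nat.cast_nonneg J
  exact mul_le_mul_of_nonneg_left hK (by linarith)

/-! ### constants -/

lemma bz_le (hτ : 1 / 3 < τ) (h : 1 ≤ Yc D.ep) : bz D τ ≤ 2 * Yc D.ep + 1 := by
  unfold bz
  have h0 := D.ep_pos
  have h1 := D.ep_le
  have hpi := Real.pi_gt_three
  have h2 : D.ep ^ 2 / (2 * Real.pi * τ) ≤ 1 := by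
    rw [div_le_one (by nlinarith)]
    nlinarith
  linarith

/-- the constants of the argument -/
lemma const_ep {K ep : ℝ} (hK : 0 < K) (h0 : 0 < ep)
    (h : ep ≤ Real.exp (-(K + 2 * Real.log 80000 + 1))) :
    K ≤ Real.log (1 / ep) ∧ 1 ≤ Real.log (1 / ep) ∧ 10 * Yc ep * ep ≤ 1 ∧ 1 ≤ Yc ep := by
  have h8 : 0 < Real.log 80000 := Real.log_pos (by norm_num)
  set L := Real.log (1 / ep) with hL
  have hL1 : K + 2 * Real.log 80000 + 1 ≤ L := by
    rw [hL, Real.le_log_iff_exp_le (by positivity), le_div_iff₀ h0, ← le_div_iff₀' (Real.exp_pos _),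
      one_div, ← Real.exp_neg]
    exact h
  refine ⟨by linarith, by linarith, ?_, ?_⟩
  · have e1 : ep = Real.exp (-L) := by
      rw [hL, one_div, Real.log_inv, neg_neg, Real.exp_log h0]
    unfold Yc
    rw [← hL]
    have h2 : L ^ 2 ≤ 8 * Real.exp (L / 2) := by
      have := Real.quadratic_le_exp_of_nonneg (x := L / 2) (by linarith)
      nlinarith
    have h3 : Real.exp (-L) = Real.exp (-(L / 2)) * Real.exp (-(L / 2)) := by
      rw [← Real.exp_add]; congr 1; ring
    have h4 : Real.exp (L / 2) * Real.exp (-(L / 2)) = 1 := by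
      rw [← Real.exp_add]; simp
    have h5 : Real.exp (-(L / 2)) ≤ 1 / 80000 := by
      rw [one_div, ← Real.exp_log (by norm_num : (0:ℝ) < 80000), ← Real.exp_neg,
        Real.exp_le_exp]
      linarith
    have h6 := Real.exp_pos (-(L / 2))
    rw [e1, h3]
    calc 10 * (1000 * L ^ 2) * (Real.exp (-(L / 2)) * Real.exp (-(L / 2)))
        ≤ 10 * (1000 * (8 * Real.exp (L / 2))) * (Real.exp (-(L / 2)) * Real.exp (-(L / 2))) := by
          gcongr
      _ = 80000 * (Real.exp (L / 2) * Real.exp (-(L / 2))) * Real.exp (-(L / 2)) := by ring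
      _ = 80000 * Real.exp (-(L / 2)) := by rw [h4]; ring
      _ ≤ 1 := by linarith
  · unfold Yc
    rw [← hL]
    nlinarith

/-- the power of the logarithm absorbs everything -/
lemma const_absorb {c P K0 ep : ℝ} (h1 : 1 ≤ Real.log (1 / ep))
    (hK0 : P * Real.exp (c * (1 + Real.log 20000) + 1) ≤ K0)
    (hK : K0 ≤ Real.log (1 / ep)) :
    Real.exp (c * (1 + Real.log (20 * Yc ep)) + 1) * (P * Real.log (1 / ep) ^ 4) ≤
      Real.log (1 / ep) ^ (2 * c + 5) := by
  set L := Real.log (1 / ep) with hL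
  have hL0 : 0 < L := by linarith
  have e1 : Real.log (20 * Yc ep) = Real.log 20000 + 2 * Real.log L := by
    unfold Yc
    rw [← hL, show 20 * (1000 * L ^ 2) = 20000 * L ^ 2 by ring, Real.log_mul (by norm_num)
      (by positivity), Real.log_pow]
    norm_num
  have e2 : Real.exp (c * (1 + Real.log (20 * Yc ep)) + 1) =
      Real.exp (c * (1 + Real.log 20000) + 1) * L ^ (2 * c) := by
    rw [Real.rpow_def_of_pos hL0, ← Real.exp_add, e1]
    congr 1
    ring
  have e3 : L ^ (2 * c + 5) = L ^ (2 * c) * L ^ 5 := by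
    rw [Real.rpow_add hL0]
    norm_cast
  rw [e2, e3]
  have h2 : 0 < L ^ (2 * c) := Real.rpow_pos_of_pos hL0 _
  calc Real.exp (c * (1 + Real.log 20000) + 1) * L ^ (2 * c) * (P * L ^ 4)
      = L ^ (2 * c) * ((P * Real.exp (c * (1 + Real.log 20000) + 1)) * L ^ 4) := by ring
    _ ≤ L ^ (2 * c) * (L * L ^ 4) := by
        gcongr
        exact hK0.trans hK
    _ = L ^ (2 * c) * L ^ 5 := by ring

end Pool.Agent.AHD
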