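import Pool.Agent.ZGap.AH.Defs3
import Pool.Agent.Lib.Hadamard.RvMSums

/-!
# Horizontal variation
-/

open scoped ContDiff

namespace Pool.Agent.AHD

open Complex MeasureTheory Set Pool.Agent.Hadamard Pool.Agent.HalfGap

/-- the sum controlling the horizontal variation -/
noncomputable def Rsum (T Λ t : ℝ) : ℝ :=
  ∑' ρ : ntz, (mult ρ : ℝ) * (((Λ - 1) / Real.log T) /
    (Real.sqrt ((Λ / Real.log T) ^ 2 + (t - (ρ : ℂ).im) ^ 2) *
      Real.sqrt ((1 / Real.log T) ^ 2 + (t - (ρ : ℂ).im) ^ 2)))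

/-- The summand. -/
noncomputable def H2_r (Λ L u : ℝ) : ℝ :=
  ((Λ - 1) / L) / (Real.sqrt ((Λ / L) ^ 2 + u ^ 2) * Real.sqrt ((1 / L) ^ 2 + u ^ 2))

lemma H2_pos {Λ L : ℝ} (hΛ : 1 ≤ Λ) (hL : 0 < L) (u : ℝ) :
    0 < Real.sqrt ((Λ / L) ^ 2 + u ^ 2) * Real.sqrt ((1 / L) ^ 2 + u ^ 2) := by
  have h1 : 0 < Λ / L := by positivity
  positivity

lemma H2_r_nonneg {Λ L : ℝ} (hΛ : 1 ≤ Λ) (hL : 0 < L) (u : ℝ) : 0 ≤ H2_r Λ L u := by
  unfold H2_r
  have h1 : 0 ≤ (Λ - 1) / L := div_nonneg (by linarith) hL.le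
  positivity

lemma H2_cont {Λ L : ℝ} (hΛ : 1 ≤ Λ) (hL : 0 < L) : Continuous (H2_r Λ L) := by
  unfold H2_r
  refine Continuous.div continuous_const (by fun_prop) fun u => (H2_pos hΛ hL u).ne'

lemma H2_even (Λ L u : ℝ) : H2_r Λ L (-u) = H2_r Λ L u := by
  unfold H2_r
  rw [neg_sq]

lemma H2_sqrt (a u : ℝ) :
    (a + u) ≤ Real.sqrt 2 * Real.sqrt (a ^ 2 + u ^ 2) := by
  rw [← Real.sqrt_mul (by norm_num)]
  apply Real.le_sqrt_of_sq_le
  nlinarith [sq_nonneg (a - u)]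

lemma H2_r_le {Λ L u : ℝ} (hΛ : 1 ≤ Λ) (hL : 0 < L) (hu : 0 ≤ u) :
    H2_r Λ L u ≤ 2 * ((1 / L + u)⁻¹ - (Λ / L + u)⁻¹) := by
  have h1 : 0 < Λ / L := by positivity
  have h2 : 0 < 1 / L := by positivity
  have h3 := H2_sqrt (Λ / L) u
  have h4 := H2_sqrt (1 / L) u
  have h5 : 0 < Λ / L + u := by positivity
  have h6 : 0 < 1 / L + u := by positivity
  have h7 : (Λ / L + u) * (1 / L + u) ≤
      2 * (Real.sqrt ((Λ / L) ^ 2 + u ^ 2) * Real.sqrt ((1 / L) ^ 2 + u ^ 2)) := by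
    calc (Λ / L + u) * (1 / L + u) ≤ (Real.sqrt 2 * Real.sqrt ((Λ / L) ^ 2 + u ^ 2)) *
          (Real.sqrt 2 * Real.sqrt ((1 / L) ^ 2 + u ^ 2)) := by gcongr
      _ = (Real.sqrt 2 * Real.sqrt 2) *
          (Real.sqrt ((Λ / L) ^ 2 + u ^ 2) * Real.sqrt ((1 / L) ^ 2 + u ^ 2)) := by ring
      _ = _ := by rw [Real.mul_self_sqrt (by norm_num)]
  have h8 : 2 * ((1 / L + u)⁻¹ - (Λ / L + u)⁻¹) =
      2 * ((Λ - 1) / L) / ((Λ / L + u) * (1 / L + u)) := by
    field_simp
    ring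
  rw [h8]
  unfold H2_r
  have h9 : 0 ≤ (Λ - 1) / L := div_nonneg (by linarith) hL.le
  rw [div_le_div_iff₀ (H2_pos hΛ hL u) (by positivity)]
  nlinarith [mul_le_mul_of_nonneg_left h7 h9]

lemma H2_int {Λ L A : ℝ} (hΛ : 1 ≤ Λ) (hL : 0 < L) (hA : 0 ≤ A) :
    ∫ u in (0:ℝ)..A, H2_r Λ L u ≤ 2 * Real.log Λ := by
  have h1 : 0 < Λ / L := by positivity
  have h2 : 0 < 1 / L := by positivity
  have hc1 : ∀ u ∈ Set.uIcc (0:ℝ) A, HasDerivAt
      (fun u => 2 * (Real.log (1 / L + u) - Real.log (Λ / L + u)))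
      (2 * ((1 / L + u)⁻¹ - (Λ / L + u)⁻¹)) u := by
    intro u hu
    rw [Set.uIcc_of_le hA] at hu
    have h5 : 0 < Λ / L + u := by linarith [hu.1]
    have h6 : 0 < 1 / L + u := by linarith [hu.1]
    have e1 := ((hasDerivAt_id u).const_add (1 / L)).log h6.ne'
    have e2 := ((hasDerivAt_id u).const_add (Λ / L)).log h5.ne'
    have e3 := (e1.sub e2).const_mul 2
    simpa [one_div] using e3
  have hcont : ContinuousOn (fun u => 2 * ((1 / L + u)⁻¹ - (Λ / L + u)⁻¹)) (Set.uIcc (0:ℝ) A) := by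
    rw [Set.uIcc_of_le hA]
    intro u hu
    have h5 : Λ / L + u ≠ 0 := by have := hu.1; positivity
    have h6 : 1 / L + u ≠ 0 := by have := hu.1; positivity
    apply ContinuousAt.continuousWithinAt
    fun_prop (disch := assumption)
  have h3 := intervalIntegral.integral_eq_sub_of_hasDerivAt hc1 hcont.intervalIntegrable
  calc ∫ u in (0:ℝ)..A, H2_r Λ L u ≤ ∫ u in (0:ℝ)..A, 2 * ((1 / L + u)⁻¹ - (Λ / L + u)⁻¹) :=
        intervalIntegral.integral_mono_on hA (H2_cont hΛ hL).continuousOn.intervalIntegrable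
          hcont.intervalIntegrable fun u hu => H2_r_le hΛ hL hu.1
    _ ≤ _ := by
        rw [h3]
        have e1 : Real.log (1 / L + A) ≤ Real.log (Λ / L + A) := by
          apply Real.log_le_log (by positivity)
          have : 1 / L ≤ Λ / L := by gcongr
          linarith
        have e2 : Real.log (Λ / L + 0) - Real.log (1 / L + 0) = Real.log Λ := by
          rw [add_zero, add_zero, ← Real.log_div h1.ne' h2.ne']
          congr 1
          field_simp
        linarith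

lemma H2_int_symm {Λ L A : ℝ} (hΛ : 1 ≤ Λ) (hL : 0 < L) (hA : 0 ≤ A) :
    ∫ u in (-A)..A, H2_r Λ L u ≤ 4 * Real.log Λ := by
  have hc := H2_cont hΛ hL
  have h1 : ∫ u in (-A)..0, H2_r Λ L u = ∫ u in (0:ℝ)..A, H2_r Λ L u := by
    have := intervalIntegral.integral_comp_neg (a := 0) (b := A) (f := H2_r Λ L)
    simp only [H2_even, neg_zero] at this
    rw [this]
  have h2 := intervalIntegral.integral_add_adjacent_intervals (a := -A) (b := 0) (c := A)
    (hc.intervalIntegrable (-A) 0 (μ := volume)) (hc.intervalIntegrable 0 A (μ := volume))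
  have h3 := H2_int hΛ hL hA
  linarith

lemma H2_bound {Λ L : ℝ} (hΛ : 1 ≤ Λ) (hL : 1 ≤ L) (u : ℝ) :
    H2_r Λ L u ≤ (Λ * L) / (1 + u ^ 2) := by
  have hL0 : 0 < L := by linarith
  have h1 : (1 + u ^ 2) / L ^ 2 ≤
      Real.sqrt ((Λ / L) ^ 2 + u ^ 2) * Real.sqrt ((1 / L) ^ 2 + u ^ 2) := by
    calc (1 + u ^ 2) / L ^ 2 ≤ (1 / L) ^ 2 + u ^ 2 := by
          rw [add_div, div_pow, one_pow]
          have : u ^ 2 / L ^ 2 ≤ u ^ 2 := div_le_self (sq_nonneg u) (one_le_pow₀ hL)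
          linarith
      _ = Real.sqrt ((1 / L) ^ 2 + u ^ 2) * Real.sqrt ((1 / L) ^ 2 + u ^ 2) :=
          (Real.mul_self_sqrt (by positivity)).symm
      _ ≤ _ := by gcongr
  have h2 : 0 < (1 + u ^ 2) / L ^ 2 := by positivity
  unfold H2_r
  calc (Λ - 1) / L / (Real.sqrt ((Λ / L) ^ 2 + u ^ 2) * Real.sqrt ((1 / L) ^ 2 + u ^ 2))
      ≤ (Λ - 1) / L / ((1 + u ^ 2) / L ^ 2) :=
        div_le_div_of_nonneg_left (div_nonneg (by linarith) hL0.le) h2 h1
    _ = ((Λ - 1) * L) / (1 + u ^ 2) := by field_simp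
    _ ≤ _ := by gcongr; linarith

lemma H2_far {Λ L : ℝ} (hΛ : 1 ≤ Λ) (hL : 0 < L) (hΛL : Λ ≤ L) {u : ℝ} (hu : 1 ≤ |u|) :
    H2_r Λ L u ≤ 2 * (1 + u ^ 2)⁻¹ := by
  have hu2 : 1 ≤ u ^ 2 := by
    rw [← sq_abs]; exact one_le_pow₀ hu
  have h1 : u ^ 2 ≤ Real.sqrt ((Λ / L) ^ 2 + u ^ 2) * Real.sqrt ((1 / L) ^ 2 + u ^ 2) := by
    calc u ^ 2 = Real.sqrt (u ^ 2) * Real.sqrt (u ^ 2) :=
          (Real.mul_self_sqrt (by positivity)).symm
      _ ≤ _ := by
        gcongr <;> (have := sq_nonneg (Λ / L); have := sq_nonneg (1 / L); linarith)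
  unfold H2_r
  calc (Λ - 1) / L / (Real.sqrt ((Λ / L) ^ 2 + u ^ 2) * Real.sqrt ((1 / L) ^ 2 + u ^ 2))
      ≤ (Λ - 1) / L / u ^ 2 :=
        div_le_div_of_nonneg_left (div_nonneg (by linarith) hL.le) (by positivity) h1
    _ ≤ 1 / u ^ 2 := by
        gcongr
        rw [div_le_one hL]
        linarith
    _ ≤ _ := by
        rw [← div_eq_mul_inv, div_le_div_iff₀ (by positivity) (by positivity)]
        linarith

/-- The smooth majorant, integrated. -/
noncomputable def H2_P (T c : ℝ) : ℝ := ∫ t in T..(2 * T), (1 + (t - c) ^ 2)⁻¹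

lemma H2_Pcont (c : ℝ) : Continuous fun t : ℝ => (1 + (t - c) ^ 2)⁻¹ :=
  Continuous.inv₀ (by fun_prop) fun t => by positivity

lemma H2_P_low {T c : ℝ} (hT : 3 ≤ T) (h1 : T - 1 < c) (h2 : c < 2 * T + 1) :
    1 / 5 ≤ H2_P T c := by
  have hcont := H2_Pcont c
  -- a unit interval `[a, a+1]` in `[T, 2T]` with `|t - c| ≤ 2`
  obtain ⟨a, ha1, ha2, ha3, ha4⟩ : ∃ a, T ≤ a ∧ a + 1 ≤ 2 * T ∧ c - 2 ≤ a ∧ a + 1 ≤ c + 2 := by
    rcases le_or_gt c (T + 1) with h | h
    · exact ⟨T, le_rfl, by linarith, by linarith, by linarith⟩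
    · rcases le_or_gt c (2 * T - 1) with h' | h'
      · exact ⟨c - 1, by linarith, by linarith, by linarith, by linarith⟩
      · exact ⟨2 * T - 1, by linarith, by linarith, by linarith, by linarith⟩
  have h3 : ∫ t in a..(a + 1), (1 + (t - c) ^ 2)⁻¹ ≤ H2_P T c := by
    unfold H2_P
    refine intervalIntegral.integral_mono_interval ha1 (by linarith) ha2
      (Filter.Eventually.of_forall fun t => by simp only [Pi.zero_apply]; positivity)
      (hcont.intervalIntegrable _ _)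
  refine le_trans ?_ h3
  have h4 : ∫ t in a..(a + 1), (1 / 5 : ℝ) ≤ ∫ t in a..(a + 1), (1 + (t - c) ^ 2)⁻¹ := by
    refine intervalIntegral.integral_mono_on (by linarith)
      (continuous_const.intervalIntegrable _ _) (hcont.intervalIntegrable _ _) fun t ht => ?_
    rw [one_div]
    apply inv_anti₀ (by positivity)
    have e1 : |t - c| ≤ 2 := abs_le.mpr ⟨by linarith [ht.1], by linarith [ht.2]⟩
    have e2 : (t - c) ^ 2 ≤ 2 ^ 2 := by
      rw [← sq_abs]; exact pow_le_pow_left₀ (abs_nonneg _) e1 2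
    linarith
  rw [intervalIntegral.integral_const] at h4
  simpa using h4

lemma H2_J_le {Λ L T : ℝ} (hΛ : 1 ≤ Λ) (hL : 0 < L) (hΛL : Λ ≤ L) (hT : 3 ≤ T) (c : ℝ) :
    ∫ t in T..(2 * T), H2_r Λ L (t - c) ≤ 20 * (1 + Real.log Λ) * H2_P T c := by
  have hc := H2_cont hΛ hL
  have hlog : 0 ≤ Real.log Λ := Real.log_nonneg hΛ
  have hcc : Continuous fun t => H2_r Λ L (t - c) := by fun_prop
  have hP0 : 0 ≤ H2_P T c := by
    unfold H2_P
    exact intervalIntegral.integral_nonneg (by linarith) fun t _ => by positivity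
  by_cases h : T - 1 < c ∧ c < 2 * T + 1
  · have h1 := H2_P_low hT h.1 h.2
    have h2 : ∫ t in T..(2 * T), H2_r Λ L (t - c) ≤ 4 * Real.log Λ := by
      rw [intervalIntegral.integral_comp_sub_right (fun u => H2_r Λ L u) c]
      refine le_trans ?_ (H2_int_symm hΛ hL (A := 2 * T + 1) (by linarith))
      refine intervalIntegral.integral_mono_interval (by linarith [h.2]) (by linarith)
        (by linarith [h.1])
        (Filter.Eventually.of_forall fun t => by
          simp only [Pi.zero_apply]; exact H2_r_nonneg hΛ hL t)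
        (hc.intervalIntegrable _ _)
    nlinarith
  · have h1 : ∫ t in T..(2 * T), H2_r Λ L (t - c) ≤ ∫ t in T..(2 * T), 2 * (1 + (t - c) ^ 2)⁻¹ := by
      refine intervalIntegral.integral_mono_on (by linarith) (hcc.intervalIntegrable _ _)
        (((H2_Pcont c).const_mul 2).intervalIntegrable _ _) fun t ht => ?_
      apply H2_far hΛ hL hΛL
      rw [not_and_or, not_lt, not_lt] at h
      rcases h with h | h
      · rw [le_abs]; left; linarith [ht.1]
      · rw [le_abs]; right; linarith [ht.2]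
    rw [intervalIntegral.integral_const_mul] at h1
    unfold H2_P at *
    nlinarith

lemma H2_shift (t c : ℝ) : (1 + (t - c) ^ 2)⁻¹ ≤ 2 * (1 + t ^ 2) * (1 / (1 + (0 - c) ^ 2)) := by
  rw [← one_div, mul_one_div, div_le_div_iff₀ (by positivity) (by positivity)]
  nlinarith [sq_nonneg (2 * t - c), sq_nonneg (t * (t - c)), sq_nonneg t, sq_nonneg (t - c)]

lemma H2_continuous {Λ T : ℝ} (hΛ : 1 ≤ Λ) (hL : 1 ≤ Real.log T) : Continuous (Rsum T Λ) := by
  have hL0 : 0 < Real.log T := by linarith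
  rw [continuous_iff_continuousAt]
  intro t0
  have h1 : ContinuousOn (Rsum T Λ) (Icc (t0 - 1) (t0 + 1)) := by
    have e : Rsum T Λ = fun t => ∑' ρ : ntz, (mult ρ : ℝ) *
        H2_r Λ (Real.log T) (t - (ρ : ℂ).im) := rfl
    rw [e]
    refine continuousOn_tsum (u := fun ρ : ntz =>
      (2 * (Λ * Real.log T) * (1 + (|t0| + 1) ^ 2)) *
      ((mult ρ : ℝ) / (1 + (0 - (ρ : ℂ).im) ^ 2))) (fun ρ => ?_)
      ((summable_weight 0).mul_left _) fun ρ t ht => ?_
    · have := H2_cont hΛ hL0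
      exact Continuous.continuousOn (by fun_prop)
    · rw [norm_mul, Real.norm_natCast, Real.norm_of_nonneg (H2_r_nonneg hΛ hL0 _)]
      have h2 := H2_bound hΛ hL (t - (ρ : ℂ).im)
      have h4 := H2_shift t (ρ : ℂ).im
      have h5 : t ^ 2 ≤ (|t0| + 1) ^ 2 := by
        rw [sq_le_sq, abs_of_nonneg (by positivity : 0 ≤ |t0| + 1)]
        have : |t - t0| ≤ 1 := abs_le.mpr ⟨by linarith [ht.1] , by linarith [ht.2]⟩
        calc |t| = |(t - t0) + t0| := by ring_nf
          _ ≤ |t - t0| + |t0| := abs_add_le _ _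
          _ ≤ _ := by linarith
      have h6 : 0 ≤ Λ * Real.log T := by positivity
      calc (mult ρ : ℝ) * H2_r Λ (Real.log T) (t - (ρ : ℂ).im)
          ≤ (mult ρ : ℝ) * ((Λ * Real.log T) * (2 * (1 + (|t0| + 1) ^ 2) *
              (1 / (1 + (0 - (ρ : ℂ).im) ^ 2)))) := by
            gcongr
            refine h2.trans ?_
            rw [div_eq_mul_inv]
            refine mul_le_mul_of_nonneg_left (h4.trans ?_) h6
            gcongr
        _ = _ := by ring
  exact h1.continuousAt (Icc_mem_nhds (by linarith) (by linarith))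

/-- Interchange of sum and integral. -/
lemma H2_swap {T K : ℝ} (hT : 0 < T) {g : ℝ → ℝ} (hg : Continuous g) (hg0 : ∀ u, 0 ≤ g u)
    (hK : ∀ u, g u ≤ K * (1 + u ^ 2)⁻¹) :
    HasSum (fun ρ : ntz => (mult ρ : ℝ) * ∫ t in T..(2 * T), g (t - (ρ : ℂ).im))
      (∫ t in T..(2 * T), ∑' ρ : ntz, (mult ρ : ℝ) * g (t - (ρ : ℂ).im)) := by
  have hK0 : 0 ≤ K := by
    have := (hg0 0).trans (hK 0)
    simpa using this
  have hT2 : T ≤ 2 * T := by linarith
  have h2 := hasSum_integral_of_summable_integral_norm (μ := volume.restrict (Ioc T (2 * T)))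
    (F := fun (ρ : ntz) (t : ℝ) => (mult ρ : ℝ) * g (t - (ρ : ℂ).im))
    (fun ρ => by
      have : Continuous fun t : ℝ => (mult ρ : ℝ) * g (t - (ρ : ℂ).im) := by fun_prop
      exact (this.integrableOn_Icc (a := T) (b := 2 * T)).mono_set Ioc_subset_Icc_self) ?_
  · simp_rw [intervalIntegral.integral_of_le hT2]
    simp_rw [MeasureTheory.integral_const_mul] at h2
    exact h2
  · have h3 := (summable_weight 0).mul_left (K * (2 * (1 + (2 * T) ^ 2)) * T)
    refine Summable.of_nonneg_of_le (fun ρ => integral_nonneg fun t => norm_nonneg _)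
      (fun ρ => ?_) h3
    rw [← intervalIntegral.integral_of_le hT2]
    have hcont : Continuous fun t : ℝ => ‖(mult ρ : ℝ) * g (t - (ρ : ℂ).im)‖ := by fun_prop
    calc ∫ t in T..(2 * T), ‖(mult ρ : ℝ) * g (t - (ρ : ℂ).im)‖
        ≤ ∫ t in T..(2 * T), ((mult ρ : ℝ) * (K * (2 * (1 + (2 * T) ^ 2) *
            (1 / (1 + (0 - (ρ : ℂ).im) ^ 2))))) := by
          refine intervalIntegral.integral_mono_on hT2 (hcont.intervalIntegrable _ _)
            (continuous_const.intervalIntegrable _ _) fun t ht => ?_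
          rw [norm_mul, Real.norm_natCast, Real.norm_of_nonneg (hg0 _)]
          gcongr
          refine (hK _).trans (mul_le_mul_of_nonneg_left ((H2_shift t (ρ : ℂ).im).trans ?_) hK0)
          have : 0 < T := hT
          have e1 := ht.1
          have e2 := ht.2
          gcongr
          linarith
      _ = _ := by
          rw [intervalIntegral.integral_const, smul_eq_mul]
          ring

/-- H2 -/
theorem rsum_mean (hRH : RiemannHypothesis) : ∃ C : ℝ, 0 < C ∧ ∀ Λ : ℝ, 1 ≤ Λ → ∃ T0 : ℝ,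
    ∀ T : ℝ, T0 ≤ T → Continuous (Rsum T Λ) ∧
      ∫ t in T..(2 * T), Rsum T Λ t ≤ C * (1 + Real.log Λ) * Real.log T * T := by
  obtain ⟨C, hC, hw⟩ := tsum_weight_le
  refine ⟨60 * C, by positivity, fun Λ hΛ => ⟨max 3 (Real.exp Λ), fun T hT => ?_⟩⟩
  have hT3 : 3 ≤ T := (le_max_left _ _).trans hT
  have hT0 : 0 < T := by linarith
  have hTe : Real.exp Λ ≤ T := (le_max_right _ _).trans hT
  have hΛL : Λ ≤ Real.log T := (Real.le_log_iff_exp_le hT0).mpr hTe
  have hL1 : 1 ≤ Real.log T := hΛ.trans hΛL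
  have hL0 : 0 < Real.log T := by linarith
  refine ⟨H2_continuous hΛ hL1, ?_⟩
  have hlog : 0 ≤ Real.log Λ := Real.log_nonneg hΛ
  have h1 := H2_swap hT0 (H2_cont hΛ hL0) (H2_r_nonneg hΛ hL0)
    (fun u => by rw [← div_eq_mul_inv]; exact H2_bound hΛ hL1 u)
  have h2 := H2_swap (g := fun u => (1 + u ^ 2)⁻¹) (K := 1) hT0
    (Continuous.inv₀ (by fun_prop) fun t => by positivity) (fun u => by positivity)
    (fun u => by rw [one_mul])
  have h3 : ∫ t in T..(2 * T), Rsum T Λ t ≤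
      (20 * (1 + Real.log Λ)) * ∫ t in T..(2 * T), ∑' ρ : ntz, (mult ρ : ℝ) *
        (1 + (t - (ρ : ℂ).im) ^ 2)⁻¹ := by
    refine hasSum_le (fun ρ => ?_) h1 (h2.mul_left (20 * (1 + Real.log Λ)))
    have h4 := H2_J_le hΛ hL0 hΛL hT3 (ρ : ℂ).im
    unfold H2_P at h4
    calc (mult ρ : ℝ) * ∫ t in T..(2 * T), H2_r Λ (Real.log T) (t - (ρ : ℂ).im)
        ≤ (mult ρ : ℝ) * (20 * (1 + Real.log Λ) *
          ∫ t in T..(2 * T), (1 + (t - (ρ : ℂ).im) ^ 2)⁻¹) := by gcongr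
      _ = _ := by ring
  have h4 : ∫ t in T..(2 * T), ∑' ρ : ntz, (mult ρ : ℝ) * (1 + (t - (ρ : ℂ).im) ^ 2)⁻¹ ≤
      3 * C * Real.log T * T := by
    have hb : ∀ t ∈ Set.Icc T (2 * T), ∑' ρ : ntz, (mult ρ : ℝ) * (1 + (t - (ρ : ℂ).im) ^ 2)⁻¹ ≤
        3 * C * Real.log T := by
      intro t ht
      have e1 := hw t
      simp only [div_eq_mul_inv] at e1
      refine e1.trans ?_
      have e2 : |t| = t := abs_of_pos (by linarith [ht.1])
      rw [e2]
      have e3 : Real.log (t + 2) ≤ 3 * Real.log T := by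
        calc Real.log (t + 2) ≤ Real.log (T ^ 3) := by
              apply Real.log_le_log (by linarith [ht.1])
              nlinarith [ht.2, sq_nonneg (T - 3), mul_nonneg (sq_nonneg T) (by linarith : 0 ≤ T - 3)]
          _ = _ := by rw [Real.log_pow]; norm_num
      nlinarith
    by_cases hint : IntervalIntegrable (fun t => ∑' ρ : ntz, (mult ρ : ℝ) *
        (1 + (t - (ρ : ℂ).im) ^ 2)⁻¹) volume T (2 * T)
    · calc ∫ t in T..(2 * T), ∑' ρ : ntz, (mult ρ : ℝ) * (1 + (t - (ρ : ℂ).im) ^ 2)⁻¹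
          ≤ ∫ t in T..(2 * T), 3 * C * Real.log T :=
            intervalIntegral.integral_mono_on (by linarith) hint
              (continuous_const.intervalIntegrable _ _) hb
        _ = _ := by
            rw [intervalIntegral.integral_const, smul_eq_mul]
            ring
    · rw [intervalIntegral.integral_undef hint]
      positivity
  calc _ ≤ _ := h3
    _ ≤ (20 * (1 + Real.log Λ)) * (3 * C * Real.log T * T) := by gcongr
    _ = _ := by ring

end Pool.Agent.AHD
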