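import Pool.Agent.ZGap.AH.H1
import Pool.Agent.ZGap.AH.H2
import Pool.Agent.ZGap.Half.ExpMom
import Pool.Agent.ZGap.Half.Ratio

/-!
# Growth of xi off the line
-/

open scoped ContDiff

namespace Pool.Agent.AHD

open Complex MeasureTheory Set Pool.Agent.Hadamard Pool.Agent.HalfGap

/-- The norm of `ss x t - ρ`. -/
lemma H3_norm_sub (hRH : RiemannHypothesis) (x t : ℝ) (ρ : ntz) :
    ‖ss x t - (ρ : ℂ)‖ = Real.sqrt (x ^ 2 + (t - (ρ : ℂ).im) ^ 2) := by
  rw [ss_sub hRH, ← sq_norm_ss, Real.sqrt_sq (norm_nonneg _)]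

lemma H3_sub_ne (hRH : RiemannHypothesis) {x : ℝ} (hx : 0 < x) (t : ℝ) (ρ : ntz) :
    ss x t - (ρ : ℂ) ≠ 0 := fun h => by
  apply ss_notMem hRH hx t
  rw [sub_eq_zero.mp h]; exact ρ.2

lemma H3_inv_sub (hRH : RiemannHypothesis) {x y : ℝ} (hx : 0 < x) (hy : 0 < y) (t u : ℝ)
    (ρ : ntz) : ‖1 / (ss x t - (ρ : ℂ)) - 1 / (ss y u - (ρ : ℂ))‖ =
      ‖ss y u - ss x t‖ / (Real.sqrt (x ^ 2 + (t - (ρ : ℂ).im) ^ 2) *
        Real.sqrt (y ^ 2 + (u - (ρ : ℂ).im) ^ 2)) := by
  have h1 := H3_sub_ne hRH hx t ρ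
  have h2 := H3_sub_ne hRH hy u ρ
  have e : 1 / (ss x t - (ρ : ℂ)) - 1 / (ss y u - (ρ : ℂ)) =
      (ss y u - ss x t) / ((ss x t - (ρ : ℂ)) * (ss y u - (ρ : ℂ))) := by
    field_simp
    ring
  rw [e, norm_div, norm_mul, H3_norm_sub hRH, H3_norm_sub hRH]

/-- The Poisson sum divided by `x`. -/
lemma H3_hasSum_inv (hRH : RiemannHypothesis) {x : ℝ} (hx : 0 < x) (t : ℝ) :
    HasSum (fun ρ : ntz => (mult ρ : ℝ) * (1 / (x ^ 2 + (t - (ρ : ℂ).im) ^ 2)))
      ((logDeriv xiF (ss x t)).re / x) := by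
  have h := (hasSum_re_ss hRH hx t).mul_left (1 / x)
  have e : (fun ρ : ntz => (mult ρ : ℝ) * (1 / (x ^ 2 + (t - (ρ : ℂ).im) ^ 2))) =
      fun ρ : ntz => 1 / x * ((mult ρ : ℝ) * (x / (x ^ 2 + (t - (ρ : ℂ).im) ^ 2))) := by
    funext ρ
    have : 0 < x ^ 2 + (t - (ρ : ℂ).im) ^ 2 := by positivity
    field_simp
  rw [e, show (logDeriv xiF (ss x t)).re / x = 1 / x * (logDeriv xiF (ss x t)).re by ring]
  exact h

/-- Variation of `ξ'/ξ` in the vertical direction. -/
lemma H3_logDeriv_sub (hRH : RiemannHypothesis) {G x : ℝ} (hx : 0 < x) (hG : 0 ≤ G) {t u : ℝ}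
    (hu : |u - t| ≤ G * x) :
    ‖logDeriv xiF (ss x u) - logDeriv xiF (ss x t)‖ ≤
      |u - t| * (1 + G) * ((logDeriv xiF (ss x t)).re / x) := by
  have h1 := hasSum_complex_zeros (ss_notMem hRH hx u) (ss_notMem hRH hx t)
  have h2 := (H3_hasSum_inv hRH hx t).mul_left (|u - t| * (1 + G))
  refine h1.norm_le_of_bounded h2 fun ρ => ?_
  rw [norm_mul, Complex.norm_natCast, H3_inv_sub hRH hx hx]
  have hn : ‖ss x t - ss x u‖ = |u - t| := by
    have : ss x t - ss x u = ((t - u : ℝ) : ℂ) * I := by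
      unfold ss; push_cast; ring
    rw [this, norm_mul, norm_I, mul_one, Complex.norm_real, Real.norm_eq_abs, abs_sub_comm]
  rw [hn]
  set γ := (ρ : ℂ).im
  set A := Real.sqrt (x ^ 2 + (u - γ) ^ 2) with hA
  set B := Real.sqrt (x ^ 2 + (t - γ) ^ 2) with hB
  have hA0 : 0 < A := Real.sqrt_pos.mpr (by positivity)
  have hB0 : 0 < B := Real.sqrt_pos.mpr (by positivity)
  have hB2 : B ^ 2 = x ^ 2 + (t - γ) ^ 2 := Real.sq_sqrt (by positivity)
  have hAx : x ≤ A := by
    rw [hA]; apply Real.le_sqrt_of_sq_le; nlinarith [sq_nonneg (u - γ)]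
  have hBA : B ≤ (1 + G) * A := by
    have h3 : B = ‖ss x t - (ρ : ℂ)‖ := (H3_norm_sub hRH x t ρ).symm
    have h4 : A = ‖ss x u - (ρ : ℂ)‖ := (H3_norm_sub hRH x u ρ).symm
    have h5 : ‖ss x t - (ρ : ℂ)‖ ≤ ‖ss x u - (ρ : ℂ)‖ + ‖ss x t - ss x u‖ := by
      have : ss x t - (ρ : ℂ) = (ss x u - (ρ : ℂ)) + (ss x t - ss x u) := by ring
      rw [this]; exact norm_add_le _ _
    rw [hn, ← h3, ← h4] at h5
    nlinarith [mul_le_mul_of_nonneg_left hAx hG]
  have h6 : |u - t| / (A * B) ≤ |u - t| * (1 + G) * (1 / (x ^ 2 + (t - γ) ^ 2)) := by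
    rw [← hB2, mul_one_div, div_le_div_iff₀ (by positivity) (by positivity)]
    have h7 : B ^ 2 ≤ (1 + G) * A * B := by
      rw [sq]; gcongr
    calc |u - t| * B ^ 2 ≤ |u - t| * ((1 + G) * A * B) := by gcongr
      _ = _ := by ring
  calc (mult ρ : ℝ) * (|u - t| / (A * B))
      ≤ (mult ρ : ℝ) * (|u - t| * (1 + G) * (1 / (x ^ 2 + (t - γ) ^ 2))) := by gcongr
    _ = _ := by ring

lemma H3_ss_hasDerivAt_t (x u : ℝ) : HasDerivAt (fun u : ℝ => ss x u) I u := by
  have h1 := ((hasDerivAt_id u).ofReal_comp.mul_const I).const_add (((1 / 2 + x : ℝ) : ℂ))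
  refine h1.congr_deriv ?_
  simp

lemma H3_ss_hasDerivAt_x (x u : ℝ) : HasDerivAt (fun x : ℝ => ss x u) 1 x := by
  have h1 := ((hasDerivAt_id x).const_add (1 / 2 : ℝ)).ofReal_comp.add_const ((u : ℂ) * I)
  refine h1.congr_deriv ?_
  simp

/-- Vertical variation of `log |ξ|`. -/
lemma H3_log_le (hRH : RiemannHypothesis) {G x : ℝ} (hx : 0 < x) (hG : 0 ≤ G) {t t0 : ℝ}
    (ht : |t - t0| ≤ G * x) :
    Real.log ‖xiF (ss x t)‖ - Real.log ‖xiF (ss x t0)‖ ≤
      |t - t0| * (|(logDeriv xiF (ss x t0)).im| +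
        |t - t0| * (1 + G) * ((logDeriv xiF (ss x t0)).re / x)) := by
  set B := |(logDeriv xiF (ss x t0)).im| +
        |t - t0| * (1 + G) * ((logDeriv xiF (ss x t0)).re / x) with hB
  have hre : 0 ≤ (logDeriv xiF (ss x t0)).re / x :=
    (H3_hasSum_inv hRH hx t0).nonneg fun ρ => by positivity
  have h1 : ∀ u ∈ uIcc t0 t, HasDerivWithinAt (fun u : ℝ => Real.log ‖xiF (ss x u)‖)
      ((I * logDeriv xiF (ss x u)).re) (uIcc t0 t) u := fun u _ =>
    (hasDerivAt_log_norm_comp (g := xiF) (xiF_differentiable _) (H3_ss_hasDerivAt_t x u)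
      (xiF_ne (ss_notMem hRH hx u))).hasDerivWithinAt
  have h2 := Convex.norm_image_sub_le_of_norm_hasDerivWithin_le (C := B) h1 (fun u hu => by
    rw [Real.norm_eq_abs, Complex.I_mul_re, abs_neg]
    have h3 : |u - t0| ≤ |t - t0| := abs_sub_left_of_mem_uIcc hu
    have h4 := H3_logDeriv_sub hRH hx hG (t := t0) (u := u) (h3.trans ht)
    have h5 : |(logDeriv xiF (ss x u)).im| ≤ |(logDeriv xiF (ss x t0)).im| +
        ‖logDeriv xiF (ss x u) - logDeriv xiF (ss x t0)‖ := by
      have h6 := Complex.abs_im_le_norm (logDeriv xiF (ss x u) - logDeriv xiF (ss x t0))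
      rw [Complex.sub_im] at h6
      have h7 := abs_sub_abs_le_abs_sub (logDeriv xiF (ss x u)).im (logDeriv xiF (ss x t0)).im
      linarith
    refine h5.trans ?_
    rw [hB]
    gcongr
    refine h4.trans ?_
    gcongr) (convex_uIcc t0 t) left_mem_uIcc right_mem_uIcc
  rw [Real.norm_eq_abs, Real.norm_eq_abs] at h2
  calc _ ≤ |Real.log ‖xiF (ss x t)‖ - Real.log ‖xiF (ss x t0)‖| := le_abs_self _
    _ ≤ B * |t - t0| := h2
    _ = _ := by ring

lemma H3_cont_x (hRH : RiemannHypothesis) (t : ℝ) {a b : ℝ} (ha : 0 < a) :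
    ContinuousOn (fun y => (logDeriv xiF (ss y t)).re) (Icc a b) := by
  intro y hy
  apply ContinuousAt.continuousWithinAt
  exact Complex.continuous_re.continuousAt.comp (ContinuousAt.comp (f := fun y => ss y t)
    (continuousAt_logDeriv_xiF (ss_notMem hRH (ha.trans_le hy.1) t))
    (H3_ss_hasDerivAt_x y t).continuousAt)

/-- The horizontal growth of `log |ξ|`. -/
lemma H3_log_eq (hRH : RiemannHypothesis) (t : ℝ) {x y : ℝ} (hx : 0 < x) (hy : 0 < y) :
    ∫ v in x..y, (logDeriv xiF (ss v t)).re =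
      Real.log ‖xiF (ss y t)‖ - Real.log ‖xiF (ss x t)‖ := by
  have hm : ∀ v ∈ uIcc x y, 0 < v := fun v hv => (lt_min hx hy).trans_le hv.1
  rw [intervalIntegral.integral_eq_sub_of_hasDerivAt (f := fun v => Real.log ‖xiF (ss v t)‖)]
  · intro v hv
    refine (hasDerivAt_log_norm_comp (g := xiF) (xiF_differentiable _) (H3_ss_hasDerivAt_x v t)
      (xiF_ne (ss_notMem hRH (hm v hv) t))).congr_deriv ?_
    rw [one_mul]
  · exact (H3_cont_x hRH t (lt_min hx hy)).intervalIntegrable

/-- `|ξ(1/2 + x + it)|` increases with `x ≥ 0`. -/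
lemma H3_mono (hRH : RiemannHypothesis) (t : ℝ) {x y : ℝ} (hx : 0 ≤ x) (hxy : x ≤ y)
    (hy : 0 < y) : ‖xiF (ss x t)‖ ≤ ‖xiF (ss y t)‖ := by
  have key : ∀ x : ℝ, 0 < x → x ≤ y → ‖xiF (ss x t)‖ ≤ ‖xiF (ss y t)‖ := by
    intro x hx hxy
    have h1 := H3_log_eq hRH t hx hy
    have h2 : 0 ≤ ∫ v in x..y, (logDeriv xiF (ss v t)).re := by
      apply intervalIntegral.integral_nonneg hxy
      intro v hv
      have hv0 : 0 < v := hx.trans_le hv.1
      have := (H3_hasSum_inv hRH hv0 t).nonneg fun ρ => by positivity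
      have h3 : (logDeriv xiF (ss v t)).re = (logDeriv xiF (ss v t)).re / v * v := by
        field_simp
      rw [h3]; positivity
    rw [h1] at h2
    have p1 : 0 < ‖xiF (ss x t)‖ := norm_pos_iff.mpr (xiF_ne (ss_notMem hRH hx t))
    have p2 : 0 < ‖xiF (ss y t)‖ := norm_pos_iff.mpr (xiF_ne (ss_notMem hRH hy t))
    exact (Real.log_le_log_iff p1 p2).mp (by linarith)
  rcases hx.eq_or_lt with h0 | h0
  · subst h0
    have hc : Continuous (fun x : ℝ => ‖xiF (ss x t)‖) := by
      have : Continuous (fun x : ℝ => ss x t) := by unfold ss; fun_prop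
      exact (xiF_differentiable.continuous.comp this).norm
    have h1 : Filter.Tendsto (fun x : ℝ => ‖xiF (ss x t)‖) (nhdsWithin 0 (Ioi 0))
        (nhds ‖xiF (ss 0 t)‖) := (hc.tendsto 0).mono_left nhdsWithin_le_nhds
    refine le_of_tendsto h1 ?_
    have h2 : Ioc (0:ℝ) y ∈ nhdsWithin (0:ℝ) (Ioi 0) := Ioc_mem_nhdsGT hy
    filter_upwards [h2] with x hx
    exact key x hx.1 hx.2
  · exact key x h0 hxy

/-- Bound of the real part. -/
lemma H3_re_le (hRH : RiemannHypothesis) {T x : ℝ} (hT : 1 ≤ Real.log T)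
    (hx : 1 / Real.log T ≤ x) (t : ℝ) :
    (logDeriv xiF (ss x t)).re / x ≤ Real.log T ^ 2 * Pool.Agent.ZGap.Res.FM.W1 T t := by
  have hL : 0 < Real.log T := by linarith
  have hx0 : 0 < x := lt_of_lt_of_le (by positivity) hx
  have h1 := (Pool.Agent.ZGap.Res.FM.W1_summable hRH hT t).hasSum.mul_left (Real.log T ^ 2)
  have h2 : Real.log T ^ 2 * Pool.Agent.ZGap.Res.FM.W1 T t = Real.log T ^ 2 *
      ∑' ρ : ntz, (mult ρ : ℝ) * (1 / (1 + (Real.log T * (t - (ρ : ℂ).im)) ^ 2)) := by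
    unfold Pool.Agent.ZGap.Res.FM.W1
    rfl
  rw [h2]
  refine hasSum_le (fun ρ => ?_) (H3_hasSum_inv hRH hx0 t) h1
  have h3 : 1 / (x ^ 2 + (t - (ρ : ℂ).im) ^ 2) ≤
      Real.log T ^ 2 * (1 / (1 + (Real.log T * (t - (ρ : ℂ).im)) ^ 2)) := by
    rw [mul_one_div, div_le_div_iff₀ (by positivity) (by positivity), one_mul]
    have h4 : 1 ≤ Real.log T * x := by
      rw [div_le_iff₀ hL] at hx; linarith
    have h5 : 1 ≤ (Real.log T * x) ^ 2 := by nlinarith
    nlinarith
  calc (mult ρ : ℝ) * (1 / (x ^ 2 + (t - (ρ : ℂ).im) ^ 2))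
      ≤ (mult ρ : ℝ) * (Real.log T ^ 2 * (1 / (1 + (Real.log T * (t - (ρ : ℂ).im)) ^ 2))) := by
        gcongr
    _ = _ := by ring

lemma H3_rsum_summable (hRH : RiemannHypothesis) {T Λ : ℝ} (hT : 1 ≤ Real.log T) (hΛ : 1 ≤ Λ)
    (t : ℝ) : Summable (fun ρ : ntz => (mult ρ : ℝ) * (((Λ - 1) / Real.log T) /
    (Real.sqrt ((Λ / Real.log T) ^ 2 + (t - (ρ : ℂ).im) ^ 2) *
      Real.sqrt ((1 / Real.log T) ^ 2 + (t - (ρ : ℂ).im) ^ 2)))) := by
  have hL : 0 < Real.log T := by linarith
  have hL1 : 0 < 1 / Real.log T := by positivity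
  have h1 := (H3_hasSum_inv hRH hL1 t).summable.mul_left ((Λ - 1) / Real.log T)
  have hΛ1 : 0 ≤ (Λ - 1) / Real.log T := div_nonneg (by linarith) hL.le
  refine Summable.of_nonneg_of_le (fun ρ => by positivity) (fun ρ => ?_) h1
  have h2 : Real.sqrt ((1 / Real.log T) ^ 2 + (t - (ρ : ℂ).im) ^ 2) ≤
      Real.sqrt ((Λ / Real.log T) ^ 2 + (t - (ρ : ℂ).im) ^ 2) := by
    gcongr
  have h3 : 0 < Real.sqrt ((1 / Real.log T) ^ 2 + (t - (ρ : ℂ).im) ^ 2) :=
    Real.sqrt_pos.mpr (by positivity)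
  have h4 : (1 / Real.log T) ^ 2 + (t - (ρ : ℂ).im) ^ 2 ≤
      Real.sqrt ((Λ / Real.log T) ^ 2 + (t - (ρ : ℂ).im) ^ 2) *
      Real.sqrt ((1 / Real.log T) ^ 2 + (t - (ρ : ℂ).im) ^ 2) := by
    have h5 := Real.mul_self_sqrt (show 0 ≤ (1 / Real.log T) ^ 2 + (t - (ρ : ℂ).im) ^ 2 by
      positivity)
    calc _ = Real.sqrt ((1 / Real.log T) ^ 2 + (t - (ρ : ℂ).im) ^ 2) *
          Real.sqrt ((1 / Real.log T) ^ 2 + (t - (ρ : ℂ).im) ^ 2) := h5.symm
      _ ≤ _ := by gcongr
  have h6 : 0 < (1 / Real.log T) ^ 2 + (t - (ρ : ℂ).im) ^ 2 := by positivity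
  calc (mult ρ : ℝ) * (((Λ - 1) / Real.log T) /
    (Real.sqrt ((Λ / Real.log T) ^ 2 + (t - (ρ : ℂ).im) ^ 2) *
      Real.sqrt ((1 / Real.log T) ^ 2 + (t - (ρ : ℂ).im) ^ 2)))
      ≤ (mult ρ : ℝ) * (((Λ - 1) / Real.log T) / ((1 / Real.log T) ^ 2 +
          (t - (ρ : ℂ).im) ^ 2)) := by gcongr
    _ = _ := by ring

/-- Bound of the imaginary part. -/
lemma H3_im_le (hRH : RiemannHypothesis) {T Λ x : ℝ} (hT : 1 ≤ Real.log T)
    (hx : x ∈ Icc (1 / Real.log T) (Λ / Real.log T)) (t : ℝ) :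
    |(logDeriv xiF (ss x t)).im| ≤ Real.log T * |D1 T t| + Rsum T Λ t := by
  have hL : 0 < Real.log T := by linarith
  set a := 1 / Real.log T with ha
  have ha0 : 0 < a := by positivity
  have hx0 : 0 < x := ha0.trans_le hx.1
  have hΛ : 1 ≤ Λ := by
    have := hx.1.trans hx.2
    rw [ha, div_le_div_iff_of_pos_right hL] at this
    exact this
  have h1 : ‖logDeriv xiF (ss x t) - logDeriv xiF (ss a t)‖ ≤ Rsum T Λ t := by
    refine (hasSum_complex_zeros (ss_notMem hRH hx0 t) (ss_notMem hRH ha0 t)).norm_le_of_bounded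
      (H3_rsum_summable hRH hT hΛ t).hasSum fun ρ => ?_
    rw [norm_mul, Complex.norm_natCast, H3_inv_sub hRH hx0 ha0]
    have hn : ‖ss a t - ss x t‖ = x - a := by
      have : ss a t - ss x t = (((a - x : ℝ)) : ℂ) := by
        unfold ss; push_cast; ring
      rw [this, Complex.norm_real, Real.norm_eq_abs, abs_sub_comm, abs_of_nonneg]
      linarith [hx.1]
    rw [hn]
    set v := t - (ρ : ℂ).im
    have hb : (Λ - 1) / Real.log T = Λ / Real.log T - a := by rw [ha]; ring
    rw [hb]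
    set b := Λ / Real.log T with hbdef
    have hab : x ≤ b := hx.2
    have hxa : a ≤ x := hx.1
    set X := Real.sqrt (x ^ 2 + v ^ 2) with hX
    set Bb := Real.sqrt (b ^ 2 + v ^ 2) with hBb
    have hX0 : 0 < X := Real.sqrt_pos.mpr (by positivity)
    have hb0 : 0 < b := hx0.trans_le hab
    have hB0 : 0 < Bb := Real.sqrt_pos.mpr (by positivity)
    have hX2 : X ^ 2 = x ^ 2 + v ^ 2 := Real.sq_sqrt (by positivity)
    have hB2 : Bb ^ 2 = b ^ 2 + v ^ 2 := Real.sq_sqrt (by positivity)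
    have h3 : (x - a) * Bb ≤ (b - a) * X := by
      have h0 : 0 ≤ x - a := by linarith
      have h01 : 0 ≤ b - a := by linarith
      refine le_of_sq_le_sq ?_ (by positivity)
      rw [mul_pow, mul_pow, hX2, hB2]
      have e1 : (x - a) * b ≤ (b - a) * x := by nlinarith
      have e2 : ((x - a) * b) ^ 2 ≤ ((b - a) * x) ^ 2 := by
        gcongr
      have e3 : (x - a) ^ 2 ≤ (b - a) ^ 2 := by
        gcongr
      nlinarith [mul_le_mul_of_nonneg_right e3 (sq_nonneg v)]
    have h4 : (x - a) / (X * Real.sqrt (a ^ 2 + v ^ 2)) ≤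
        (b - a) / (Bb * Real.sqrt (a ^ 2 + v ^ 2)) := by
      have hA0 : 0 < Real.sqrt (a ^ 2 + v ^ 2) := Real.sqrt_pos.mpr (by positivity)
      rw [div_le_div_iff₀ (by positivity) (by positivity)]
      nlinarith [mul_le_mul_of_nonneg_right h3 hA0.le]
    gcongr
  have h2 := Complex.abs_im_le_norm (logDeriv xiF (ss x t) - logDeriv xiF (ss a t))
  rw [Complex.sub_im] at h2
  have h7 := abs_sub_abs_le_abs_sub (logDeriv xiF (ss x t)).im (logDeriv xiF (ss a t)).im
  have h8 : |(logDeriv xiF (ss a t)).im| = Real.log T * |D1 T t| := by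
    rw [D1_eq, abs_div, abs_of_pos hL]
    field_simp
    rfl
  linarith

/-- The integrand of the vertical growth, extended continuously. -/
noncomputable def H3_h (L t y : ℝ) : ℝ := |(logDeriv xiF (ss (max y (1 / L)) t)).re - L / 2|

lemma H3_h_cont (hRH : RiemannHypothesis) {L : ℝ} (hL : 0 < L) :
    Continuous (Function.uncurry (H3_h L)) := by
  have h1 : Continuous (fun p : ℝ × ℝ => ss (max p.2 (1 / L)) p.1) := by unfold ss; fun_prop
  have h2 : Continuous (deriv xiF) :=
    (xiF_differentiable.contDiff (n := 1)).continuous_deriv le_rfl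
  have h3 : Continuous xiF := xiF_differentiable.continuous
  have h4 : Continuous (fun p : ℝ × ℝ => logDeriv xiF (ss (max p.2 (1 / L)) p.1)) := by
    simp only [logDeriv_apply]
    refine (h2.comp h1).div (h3.comp h1) fun p h => ?_
    exact ss_notMem hRH (lt_of_lt_of_le (by positivity) (le_max_right p.2 (1 / L))) p.1
      (xiF_eq_zero_iff.mp h)
  exact ((continuous_re.comp h4).sub continuous_const).abs

lemma H3_h_cont_swap (hRH : RiemannHypothesis) {L : ℝ} (hL : 0 < L) :
    Continuous (Function.uncurry (fun y t => H3_h L t y)) := by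
  have e : Function.uncurry (fun y t => H3_h L t y) = Function.uncurry (H3_h L) ∘ Prod.swap := by
    funext p; rfl
  rw [e]
  exact (H3_h_cont hRH hL).comp continuous_swap

lemma H3_h_cont_right (hRH : RiemannHypothesis) {L : ℝ} (hL : 0 < L) (t0 : ℝ) :
    Continuous (fun y => H3_h L t0 y) := by
  have e : (fun y => H3_h L t0 y) = Function.uncurry (H3_h L) ∘ (fun y => (t0, y)) := by
    funext p; rfl
  rw [e]
  exact (H3_h_cont hRH hL).comp (Continuous.prodMk_right t0)

lemma H3_h_nonneg (L t y : ℝ) : 0 ≤ H3_h L t y := abs_nonneg _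

/-- The mean value of the vertical growth. -/
lemma H3_mean (hRH : RiemannHypothesis) {T L Λ C : ℝ} (hL : 0 < L) (hΛ : 1 ≤ Λ)
    (h : ∀ x ∈ Icc (1 / L) (Λ / L),
      ∫ t in T..(2 * T), |(logDeriv xiF (ss x t)).re - L / 2| ≤ C * T / x) :
    ∫ t in T..(2 * T), ∫ y in (1 / L)..(Λ / L), H3_h L t y ≤ C * T * Real.log Λ := by
  have hc := H3_h_cont hRH hL
  have hle : 1 / L ≤ Λ / L := by gcongr
  have h1 : 0 < 1 / L := by positivity
  have h2 : 0 < Λ / L := by positivity
  have hint : IntegrableOn (Function.uncurry (H3_h L))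
      (uIoc T (2 * T) ×ˢ uIoc (1 / L) (Λ / L)) := by
    refine (hc.continuousOn.integrableOn_compact
      ((isCompact_uIcc (a := T) (b := 2 * T)).prod
        (isCompact_uIcc (a := 1 / L) (b := Λ / L)))).mono_set ?_
    exact prod_mono uIoc_subset_uIcc uIoc_subset_uIcc
  rw [intervalIntegral_intervalIntegral_swap hint]
  have h3 : Continuous (fun y => ∫ t in T..(2 * T), H3_h L t y) := by
    exact intervalIntegral.continuous_parametric_intervalIntegral_of_continuous'
      (H3_h_cont_swap hRH hL) _ _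
  have h4 : ContinuousOn (fun y : ℝ => C * T / y) (uIcc (1 / L) (Λ / L)) := by
    refine continuousOn_const.div continuousOn_id fun y hy => ?_
    rw [uIcc_of_le hle] at hy
    exact (h1.trans_le hy.1).ne'
  calc ∫ y in (1 / L)..(Λ / L), ∫ t in T..(2 * T), H3_h L t y
      ≤ ∫ y in (1 / L)..(Λ / L), C * T / y := by
        refine intervalIntegral.integral_mono_on hle (h3.intervalIntegrable _ _)
          h4.intervalIntegrable fun y hy => ?_
        have := h y hy
        unfold H3_h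
        rw [max_eq_left hy.1]
        exact this
    _ = C * T * Real.log Λ := by
        simp_rw [div_eq_mul_inv (C * T)]
        rw [intervalIntegral.integral_const_mul, integral_inv_of_pos h1 h2]
        congr 2
        field_simp

/-- H3 -/
theorem xi_ratio (hRH : RiemannHypothesis) (G : ℝ) (hG : 0 ≤ G) : ∃ C : ℝ, 0 < C ∧
    ∀ Λ : ℝ, 1 ≤ Λ → ∃ T0 : ℝ, ∀ T : ℝ, T0 ≤ T → ∃ R : ℝ → ℝ,
      IntervalIntegrable R volume (5 * T / 4) (7 * T / 4) ∧ (∀ t, 0 ≤ R t) ∧
      ∫ t in (5 * T / 4)..(7 * T / 4), R t ≤ C * (1 + Real.log Λ) * T ∧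
      ∀ t0 ∈ Icc (5 * T / 4) (7 * T / 4), ∀ x1 ∈ Icc (1 / Real.log T) (Λ / Real.log T),
      ∀ s : ℂ, |s.re - 1 / 2| ≤ Λ / Real.log T → |s.im - t0| ≤ G / Real.log T →
        ‖xiF s‖ ≤ Real.exp (R t0) *
          Real.exp (-(Real.log T / 2 * (x1 - |s.re - 1 / 2|))) * ‖xiF (ss x1 t0)‖ := by
  obtain ⟨C1, T1, hC1, hexp⟩ := exp_moment hRH 1 one_pos
  obtain ⟨C2, hC2, hrs⟩ := rsum_mean hRH
  obtain ⟨C3, hC3, hvm⟩ := vert_mean hRH
  set K := (1 + G) * G ^ 2 + G with hK
  have hK0 : 0 ≤ K := by positivity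
  refine ⟨1 / 2 + K * C1 + G * C2 + C3, by positivity, fun Λ hΛ => ?_⟩
  obtain ⟨T2, hrs⟩ := hrs Λ hΛ
  obtain ⟨T3, hvm⟩ := hvm Λ hΛ
  refine ⟨max (max (Real.exp 4) T1) (max T2 T3), fun T hT => ?_⟩
  have hT4 : Real.exp 4 ≤ T := (le_max_left _ _).trans ((le_max_left _ _).trans hT)
  have hTT1 : T1 ≤ T := (le_max_right _ _).trans ((le_max_left _ _).trans hT)
  have hTT2 : T2 ≤ T := (le_max_left _ _).trans ((le_max_right _ _).trans hT)
  have hTT3 : T3 ≤ T := (le_max_right _ _).trans ((le_max_right _ _).trans hT)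
  obtain ⟨hrc, hrs⟩ := hrs T hTT2
  have hvm := hvm T hTT3
  obtain ⟨hexi, hexp⟩ := hexp T hTT1
  have hT0 : 0 < T := (Real.exp_pos _).trans_le hT4
  set L := Real.log T with hL
  have hL4 : 4 ≤ L := by rw [hL, Real.le_log_iff_exp_le hT0]; exact hT4
  have hL0 : 0 < L := by linarith
  have hL1 : 1 ≤ L := by linarith
  have hlΛ : 0 ≤ Real.log Λ := Real.log_nonneg hΛ
  have hXc := XX_continuous hRH (T := T) hL1
  have hXnn : ∀ t, 0 ≤ XX T t := fun t => by
    unfold XX
    have : 0 ≤ Pool.Agent.ZGap.Res.FM.W1 T t := tsum_nonneg fun ρ => by positivity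
    positivity
  have hRnn : ∀ t, 0 ≤ Rsum T Λ t := fun t => tsum_nonneg fun ρ => by
    have : 0 ≤ (Λ - 1) / Real.log T := div_nonneg (by linarith) hL0.le
    positivity
  have hle : 1 / L ≤ Λ / L := by gcongr
  set J : ℝ → ℝ := fun t => ∫ y in (1 / L)..(Λ / L), H3_h L t y with hJ
  have hJc : Continuous J :=
    intervalIntegral.continuous_parametric_intervalIntegral_of_continuous' (H3_h_cont hRH hL0) _ _
  have hJnn : ∀ t, 0 ≤ J t := fun t =>
    intervalIntegral.integral_nonneg hle fun y _ => H3_h_nonneg _ _ _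
  have hJm : ∫ t in T..(2 * T), J t ≤ C3 * T * Real.log Λ :=
    H3_mean hRH hL0 hΛ hvm
  set R : ℝ → ℝ := fun t => 1 / 2 + K * XX T t + G / L * Rsum T Λ t + J t with hR
  have hRc : Continuous R := ((continuous_const.add (hXc.const_mul K)).add
    (hrc.const_mul _)).add hJc
  have hRn : ∀ t, 0 ≤ R t := fun t => by
    have := hXnn t
    have := hRnn t
    have := hJnn t
    simp only [hR]
    positivity
  refine ⟨R, hRc.intervalIntegrable _ _, hRn, ?_, ?_⟩
  · -- the mean value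
    have hX1 : ∫ t in T..(2 * T), XX T t ≤ C1 * T := by
      calc ∫ t in T..(2 * T), XX T t
          ≤ ∫ t in T..(2 * T), Real.exp (1 * (Pool.Agent.ZGap.Res.FM.W1 T t + |D1 T t|)) := by
            refine intervalIntegral.integral_mono_on (by linarith)
              (hXc.intervalIntegrable _ _) ?_ fun t _ => ?_
            · refine hexi.mono_set ?_
              rw [uIcc_of_le (by linarith), uIcc_of_le (by linarith)]
              exact Icc_subset_Icc (by linarith) (by linarith)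
            · rw [one_mul]
              have := Real.add_one_le_exp (XX T t)
              unfold XX at this ⊢
              linarith
        _ ≤ ∫ t in (T / 2)..(3 * T), Real.exp (1 * (Pool.Agent.ZGap.Res.FM.W1 T t + |D1 T t|)) := by
            refine intervalIntegral.integral_mono_interval (by linarith) (by linarith)
              (by linarith) ?_ hexi
            exact Filter.Eventually.of_forall fun t => (Real.exp_pos _).le
        _ ≤ C1 * T := hexp
    calc ∫ t in (5 * T / 4)..(7 * T / 4), R t ≤ ∫ t in T..(2 * T), R t := by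
          refine intervalIntegral.integral_mono_interval (by linarith) (by linarith)
            (by linarith) ?_ (hRc.intervalIntegrable _ _)
          exact Filter.Eventually.of_forall hRn
      _ = 1 / 2 * T + K * (∫ t in T..(2 * T), XX T t) + G / L * (∫ t in T..(2 * T), Rsum T Λ t)
          + ∫ t in T..(2 * T), J t := by
          simp only [hR]
          rw [intervalIntegral.integral_add, intervalIntegral.integral_add,
            intervalIntegral.integral_add, intervalIntegral.integral_const,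
            intervalIntegral.integral_const_mul, intervalIntegral.integral_const_mul]
          · rw [smul_eq_mul]; ring
          · exact continuous_const.intervalIntegrable _ _
          · exact (hXc.const_mul K).intervalIntegrable _ _
          · exact (continuous_const.add (hXc.const_mul K)).intervalIntegrable _ _
          · exact (hrc.const_mul _).intervalIntegrable _ _
          · exact ((continuous_const.add (hXc.const_mul K)).add
              (hrc.const_mul _)).intervalIntegrable _ _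
          · exact hJc.intervalIntegrable _ _
      _ ≤ 1 / 2 * T + K * (C1 * T) + G / L * (C2 * (1 + Real.log Λ) * L * T) +
          C3 * T * Real.log Λ := by gcongr
      _ = 1 / 2 * T + K * C1 * T + G * C2 * (1 + Real.log Λ) * T + C3 * T * Real.log Λ := by
          field_simp
      _ ≤ (1 / 2 + K * C1 + G * C2 + C3) * (1 + Real.log Λ) * T := by
          have e : (1 / 2 + K * C1 + G * C2 + C3) * (1 + Real.log Λ) * T -
            (1 / 2 * T + K * C1 * T + G * C2 * (1 + Real.log Λ) * T + C3 * T * Real.log Λ) =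
            1 / 2 * Real.log Λ * T + K * C1 * Real.log Λ * T + C3 * T := by ring
          have : 0 ≤ 1 / 2 * Real.log Λ * T + K * C1 * Real.log Λ * T + C3 * T := by positivity
          linarith
  · -- the pointwise bound
    intro t0 ht0 x1 hx1 s hs ht
    set x := |s.re - 1 / 2| with hx
    set t := s.im with htdef
    have hx0 : 0 ≤ x := abs_nonneg _
    have h1 : ‖xiF s‖ = ‖xiF (ss x t)‖ := by
      rcases le_or_gt 0 (s.re - 1 / 2) with h | h
      · congr 2
        rw [hx, abs_of_nonneg h, htdef]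
        apply Complex.ext
        · simp
        · simp
      · have e : ss x t = 1 - (starRingEnd ℂ) s := by
          rw [hx, abs_of_neg h, htdef]
          apply Complex.ext
          · simp; ring
          · simp
        rw [e, xiF_one_sub, xiF_conj', Complex.norm_conj]
    rw [h1]
    set x' := max x (1 / L) with hx'
    have h1L : 0 < 1 / L := by positivity
    have hx'0 : 0 < x' := h1L.trans_le (le_max_right _ _)
    have hx'm : x' ∈ Icc (1 / L) (Λ / L) := ⟨le_max_right _ _, max_le hs hle⟩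
    have h2 : ‖xiF (ss x t)‖ ≤ ‖xiF (ss x' t)‖ := H3_mono hRH t hx0 (le_max_left _ _) hx'0
    refine h2.trans ?_
    have hx10 : 0 < x1 := h1L.trans_le hx1.1
    have p1 : 0 < ‖xiF (ss x' t)‖ := norm_pos_iff.mpr (xiF_ne (ss_notMem hRH hx'0 t))
    have p2 : 0 < ‖xiF (ss x1 t0)‖ := norm_pos_iff.mpr (xiF_ne (ss_notMem hRH hx10 t0))
    have hGx : G / L ≤ G * x' := by
      rw [div_eq_mul_one_div]
      exact mul_le_mul_of_nonneg_left hx'm.1 hG
    have h3 := H3_log_le hRH hx'0 hG (ht.trans hGx)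
    have h4 := H3_log_eq hRH t0 hx'0 hx10
    have h5 : Real.log ‖xiF (ss x' t0)‖ - Real.log ‖xiF (ss x1 t0)‖ ≤
        J t0 - L / 2 * (x1 - x') := by
      have h6 : ∫ v in x'..x1, (logDeriv xiF (ss v t0)).re =
          (∫ v in x'..x1, ((logDeriv xiF (ss v t0)).re - L / 2)) + L / 2 * (x1 - x') := by
        rw [intervalIntegral.integral_sub, intervalIntegral.integral_const, smul_eq_mul]
        · ring
        · exact (H3_cont_x hRH t0 (lt_min hx'0 hx10)).intervalIntegrable
        · exact continuous_const.intervalIntegrable _ _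
      have h7 : |∫ v in x'..x1, ((logDeriv xiF (ss v t0)).re - L / 2)| ≤ J t0 := by
        have h8 := intervalIntegral.norm_integral_le_integral_norm_uIoc
          (f := fun v => (logDeriv xiF (ss v t0)).re - L / 2) (a := x') (b := x1) (μ := volume)
        rw [Real.norm_eq_abs] at h8
        refine h8.trans ?_
        have h9 : J t0 = ∫ y in Ioc (1 / L) (Λ / L), H3_h L t0 y := by
          simp only [hJ]
          rw [intervalIntegral.integral_of_le hle]
        have hsub : uIoc x' x1 ⊆ Ioc (1 / L) (Λ / L) :=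
          Ioc_subset_Ioc (le_min hx'm.1 hx1.1) (max_le hx'm.2 hx1.2)
        have h10 : ∫ v in uIoc x' x1, ‖(logDeriv xiF (ss v t0)).re - L / 2‖ =
            ∫ v in uIoc x' x1, H3_h L t0 v := by
          refine setIntegral_congr_fun measurableSet_uIoc fun v hv => ?_
          simp only [H3_h]
          rw [max_eq_left (hsub hv).1.le, Real.norm_eq_abs]
        rw [h10, h9]
        have hc0 : Continuous (fun y => H3_h L t0 y) := H3_h_cont_right hRH hL0 t0
        exact setIntegral_mono_set (hc0.integrableOn_Ioc)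
          (Filter.Eventually.of_forall fun y => H3_h_nonneg _ _ _) hsub.eventuallyLE
      have h9 := neg_abs_le (∫ v in x'..x1, ((logDeriv xiF (ss v t0)).re - L / 2))
      linarith
    have h6 : |t - t0| * (|(logDeriv xiF (ss x' t0)).im| +
        |t - t0| * (1 + G) * ((logDeriv xiF (ss x' t0)).re / x')) ≤
        K * XX T t0 + G / L * Rsum T Λ t0 := by
      have h7 := H3_re_le hRH hL1 hx'm.1 t0
      have h8 := H3_im_le hRH hL1 hx'm t0
      have hre : 0 ≤ (logDeriv xiF (ss x' t0)).re / x' :=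
        (H3_hasSum_inv hRH hx'0 t0).nonneg fun ρ => by positivity
      have hW : 0 ≤ Pool.Agent.ZGap.Res.FM.W1 T t0 := tsum_nonneg fun ρ => by positivity
      calc |t - t0| * (|(logDeriv xiF (ss x' t0)).im| +
          |t - t0| * (1 + G) * ((logDeriv xiF (ss x' t0)).re / x'))
          ≤ G / L * ((L * |D1 T t0| + Rsum T Λ t0) +
            G / L * (1 + G) * (L ^ 2 * Pool.Agent.ZGap.Res.FM.W1 T t0)) := by
            gcongr
        _ = G * |D1 T t0| + (1 + G) * G ^ 2 * Pool.Agent.ZGap.Res.FM.W1 T t0 +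
            G / L * Rsum T Λ t0 := by
            field_simp
            ring
        _ ≤ K * XX T t0 + G / L * Rsum T Λ t0 := by
            unfold XX
            have e : K * (Pool.Agent.ZGap.Res.FM.W1 T t0 + |D1 T t0|) -
              (G * |D1 T t0| + (1 + G) * G ^ 2 * Pool.Agent.ZGap.Res.FM.W1 T t0) =
              G * Pool.Agent.ZGap.Res.FM.W1 T t0 + (1 + G) * G ^ 2 * |D1 T t0| := by
              rw [hK]; ring
            have : 0 ≤ G * Pool.Agent.ZGap.Res.FM.W1 T t0 + (1 + G) * G ^ 2 * |D1 T t0| := by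
              positivity
            linarith
    have h7 : x' - x ≤ 1 / L := by
      rw [hx']
      rcases le_total x (1 / L) with h | h
      · rw [max_eq_right h]; linarith
      · rw [max_eq_left h]; linarith
    have h8 : L / 2 * (x' - x) ≤ 1 / 2 := by
      calc L / 2 * (x' - x) ≤ L / 2 * (1 / L) := by gcongr
        _ = 1 / 2 := by field_simp
    have h9 : Real.log ‖xiF (ss x' t)‖ ≤ R t0 + -(L / 2 * (x1 - x)) +
        Real.log ‖xiF (ss x1 t0)‖ := by
      simp only [hR]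
      have e : L / 2 * (x1 - x) = L / 2 * (x1 - x') + L / 2 * (x' - x) := by ring
      linarith
    calc ‖xiF (ss x' t)‖ = Real.exp (Real.log ‖xiF (ss x' t)‖) := (Real.exp_log p1).symm
      _ ≤ Real.exp (R t0 + -(L / 2 * (x1 - x)) + Real.log ‖xiF (ss x1 t0)‖) :=
          Real.exp_le_exp.mpr h9
      _ = _ := by rw [Real.exp_add, Real.exp_add, Real.exp_log p2]

end Pool.Agent.AHD
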