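import Pool.Agent.ZGap.AH.Defs3

/-!
# The deterministic contour argument
-/

open scoped ContDiff

namespace Pool.Agent.AHD

open Complex MeasureTheory Set Pool.Agent.Hadamard Pool.Agent.HalfGap

lemma Z_jordan {x e : ℝ} (h : ∀ m : ℤ, e ≤ |x - m|) : 2 * e ≤ |Real.sin (Real.pi * x)| := by
  have h1 := h (round x)
  have h2 : |x - round x| ≤ 1 / 2 := abs_sub_round x
  have hpi := Real.pi_pos
  have h3 : |Real.sin (Real.pi * x)| = |Real.sin (Real.pi * (x - round x))| := by
    have : Real.pi * (x - round x) = Real.pi * x - (round x : ℤ) * Real.pi := by ring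
    rw [this, Real.sin_sub_int_mul_pi, abs_mul, abs_zpow, abs_neg, abs_one, one_zpow, one_mul]
  have h4 : |Real.pi * (x - round x)| ≤ Real.pi / 2 := by
    rw [abs_mul, abs_of_pos hpi]
    nlinarith
  have h5 := Real.mul_abs_le_abs_sin h4
  rw [h3]
  refine le_trans ?_ h5
  rw [abs_mul, abs_of_pos hpi]
  have : 2 / Real.pi * (Real.pi * |x - round x|) = 2 * |x - round x| := by
    field_simp
  rw [this]
  linarith

lemma Z_cosh (y : ℝ) : Real.exp (|y|) / 2 ≤ Real.cosh y := by
  rw [Real.cosh_eq]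
  have h1 := Real.exp_pos y
  have h2 := Real.exp_pos (-y)
  rcases abs_cases y with h | h <;> rw [h.1] <;> linarith

lemma Z_norm_sin (w : ℂ) :
    |Real.sin (Real.pi * w.re)| * (Real.exp (Real.pi * |w.im|) / 2) ≤ ‖sin (Real.pi * w)‖ := by
  have h1 : (sin (Real.pi * w)).re = Real.sin (Real.pi * w.re) * Real.cosh (Real.pi * w.im) := by
    rw [sin_eq]
    simp only [add_re, mul_re, im_ofReal_mul, I_re, I_im]
    norm_cast
    simp
  refine le_trans ?_ (abs_re_le_norm _)
  rw [h1, abs_mul]
  gcongr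
  refine le_trans ?_ (le_abs_self _)
  have := Z_cosh (Real.pi * w.im)
  rwa [abs_mul, abs_of_pos Real.pi_pos] at this

lemma Z_inv_sin {w : ℂ} (h : ∀ k : ℤ, 1 / 8 ≤ |w.re - k|) :
    ‖(Real.pi : ℂ) / sin (Real.pi * w)‖ ≤ 8 * Real.pi * Real.exp (-(Real.pi * |w.im|)) := by
  have h1 := Z_norm_sin w
  have h2 := Z_jordan h
  have h3 : Real.exp (Real.pi * |w.im|) / 8 ≤ ‖sin (Real.pi * w)‖ := by
    refine le_trans ?_ h1
    have := Real.exp_pos (Real.pi * |w.im|)
    nlinarith
  have h4 : 0 < Real.exp (Real.pi * |w.im|) / 8 := by positivity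
  rw [norm_div, Complex.norm_real, Real.norm_of_nonneg Real.pi_pos.le, Real.exp_neg]
  rw [div_le_iff₀ (lt_of_lt_of_le h4 h3)]
  have h5 : 8 * Real.pi * (Real.exp (Real.pi * |w.im|))⁻¹ * (Real.exp (Real.pi * |w.im|) / 8) =
      Real.pi := by
    field_simp
  calc Real.pi = 8 * Real.pi * (Real.exp (Real.pi * |w.im|))⁻¹ *
        (Real.exp (Real.pi * |w.im|) / 8) := h5.symm
    _ ≤ _ := by gcongr

lemma Z_far {w : ℂ} {v : ℝ} (hv : 1 ≤ v) (hw : w.im = -v) :
    ‖(Real.pi : ℂ) / sin (Real.pi * w) - 2 * Real.pi * I * exp (-(Real.pi * I * w))‖ ≤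
      4 * Real.pi * Real.exp (-(3 * Real.pi * v)) := by
  have hpi := Real.pi_pos
  set E : ℂ := exp (Real.pi * I * w) with hE
  have hE' : exp (-(Real.pi * I * w)) = E⁻¹ := by rw [exp_neg]
  have hE0 : E ≠ 0 := exp_ne_zero _
  have hn : ‖E‖ = Real.exp (Real.pi * v) := by
    rw [hE, Complex.norm_exp]
    congr 1
    simp [hw]
  have hsin : sin (Real.pi * w) = (E⁻¹ - E) * I / 2 := by
    rw [Complex.sin, ← hE', hE]
    congr 3
    · congr 1; ring
    · congr 1; ring
  have hv2 : 2 ≤ Real.exp (Real.pi * v) := by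
    have := Real.add_one_le_exp (Real.pi * v)
    have := Real.pi_gt_three
    nlinarith
  have hd : Real.exp (Real.pi * v) / 2 ≤ ‖E - E⁻¹‖ := by
    have h1 : ‖E‖ - ‖E⁻¹‖ ≤ ‖E - E⁻¹‖ := norm_sub_norm_le _ _
    rw [norm_inv, hn] at h1
    have h2 : (Real.exp (Real.pi * v))⁻¹ ≤ Real.exp (Real.pi * v) / 2 := by
      rw [inv_le_comm₀ (by positivity) (by positivity)]
      rw [inv_div]
      rw [div_le_iff₀ (by positivity)]
      nlinarith
    linarith
  have hne : E - E⁻¹ ≠ 0 := by
    intro h0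
    rw [h0, norm_zero] at hd
    linarith
  have key : (Real.pi : ℂ) / sin (Real.pi * w) - 2 * Real.pi * I * exp (-(Real.pi * I * w)) =
      2 * Real.pi * I * (E⁻¹) ^ 2 / (E - E⁻¹) := by
    rw [hsin, hE']
    have hne' : E⁻¹ - E ≠ 0 := by
      intro h0; apply hne; linear_combination -h0
    have hI : I ≠ 0 := I_ne_zero
    rw [eq_div_iff hne, sub_mul, div_mul_eq_mul_div]
    rw [show (Real.pi : ℂ) * (E - E⁻¹) / ((E⁻¹ - E) * I / 2) = 2 * Real.pi * I by
      rw [div_eq_iff (by
        refine div_ne_zero (mul_ne_zero hne' hI) two_ne_zero)]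
      linear_combination (-(Real.pi : ℂ) * (E⁻¹ - E)) * I_sq]
    have : E⁻¹ * E = 1 := inv_mul_cancel₀ hE0
    linear_combination (-(2 * (Real.pi : ℂ) * I)) * this
  rw [key, norm_div, div_le_iff₀ (by linarith)]
  have h5 : ‖2 * (Real.pi : ℂ) * I * E⁻¹ ^ 2‖ = 2 * Real.pi * Real.exp (-(2 * Real.pi * v)) := by
    rw [norm_mul, norm_mul, norm_mul, norm_pow, norm_inv, hn, norm_I, Complex.norm_real,
      Real.norm_of_nonneg hpi.le, ← Real.exp_neg, ← Real.exp_nat_mul]
    norm_num
    ring_nf
  rw [h5]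
  calc 2 * Real.pi * Real.exp (-(2 * Real.pi * v)) =
        4 * Real.pi * Real.exp (-(3 * Real.pi * v)) * (Real.exp (Real.pi * v) / 2) := by
          have : Real.exp (-(2 * Real.pi * v)) =
              Real.exp (-(3 * Real.pi * v)) * Real.exp (Real.pi * v) := by
            rw [← Real.exp_add]; congr 1; ring
          rw [this]; ring
    _ ≤ _ := by gcongr

lemma Z_far' {w : ℂ} {v : ℝ} (hv : 1 ≤ v) (hw : w.im = v) :
    ‖(Real.pi : ℂ) / sin (Real.pi * w) + 2 * Real.pi * I * exp (Real.pi * I * w)‖ ≤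
      4 * Real.pi * Real.exp (-(3 * Real.pi * v)) := by
  have h := Z_far (w := -w) hv (by simp [hw])
  rw [← norm_neg] at h
  refine le_of_eq_of_le ?_ h
  congr 1
  rw [mul_neg, sin_neg, div_neg, mul_neg, neg_neg]
  ring

lemma Z_sin_ne {w : ℂ} (h : w.im ≠ 0 ∨ ∀ k : ℤ, w.re ≠ k) : sin (Real.pi * w) ≠ 0 := by
  have hpi := Real.pi_pos
  have hpic : (Real.pi : ℂ) ≠ 0 := by exact_mod_cast hpi.ne'
  intro h0
  rw [Complex.sin_eq_zero_iff] at h0
  obtain ⟨k, hk⟩ := h0
  have hk' : w = k := by
    have : (Real.pi : ℂ) * w = Real.pi * k := by rw [hk]; ring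
    exact mul_left_cancel₀ hpic this
  rcases h with h | h
  · apply h; rw [hk']; simp
  · apply h k; rw [hk']; simp

lemma Z_kcont {g : ℝ → ℂ} (hg : Continuous g) {z1 : ℂ} {s : Set ℝ}
    (h : ∀ y ∈ s, sin (Real.pi * (g y - z1)) ≠ 0) :
    ContinuousOn (fun y => (Real.pi : ℂ) / sin (Real.pi * (g y - z1))) s := by
  refine ContinuousOn.div continuousOn_const ?_ h
  refine Continuous.continuousOn ?_
  fun_prop

/-- The residue identity. -/
lemma Z_res {p : ℂ → ℂ} (hp : Differentiable ℂ p) {a H : ℝ} {z1 : ℂ} (h1 : a < z1.re)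
    (h2 : z1.re < a + 1) (h3 : -H < z1.im) (h4 : z1.im < H) :
    2 * Real.pi * I * p z1 =
      (∫ x : ℝ in a..(a + 1), p (x - H * I) * (Real.pi / sin (Real.pi * (x - H * I - z1)))) -
      (∫ x : ℝ in a..(a + 1), p (x + H * I) * (Real.pi / sin (Real.pi * (x + H * I - z1)))) -
      I * (∫ y : ℝ in (-H)..H, (p (a + y * I + 1) + p (a + y * I)) *
        (Real.pi / sin (Real.pi * (a + y * I - z1)))) := by
  have hpi := Real.pi_pos
  have hpic : (Real.pi : ℂ) ≠ 0 := by exact_mod_cast hpi.ne'
  set D : ℂ → ℂ := fun z => sin (Real.pi * (z - z1)) / Real.pi with hD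
  have hDd : ∀ z, HasDerivAt D (cos (Real.pi * (z - z1))) z := by
    intro z
    have e1 : HasDerivAt (fun z : ℂ => (Real.pi : ℂ) * (z - z1)) (Real.pi : ℂ) z := by
      simpa using ((hasDerivAt_id z).sub_const z1).const_mul (Real.pi : ℂ)
    have e2 := (e1.csin).div_const (Real.pi : ℂ)
    rw [mul_div_assoc, div_self hpic, mul_one] at e2
    exact e2
  have hzero : ∀ z : ℂ, |z.re - z1.re| < 1 → D z = 0 → z = z1 := by
    intro z hz h0
    rw [hD] at h0
    simp only [div_eq_zero_iff, hpic, or_false] at h0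
    rw [Complex.sin_eq_zero_iff] at h0
    obtain ⟨k, hk⟩ := h0
    have hk' : z - z1 = k := by
      have : (Real.pi : ℂ) * (z - z1) = Real.pi * k := by rw [hk]; ring
      exact mul_left_cancel₀ hpic this
    have hre : z.re - z1.re = k := by
      have := congrArg Complex.re hk'
      simpa using this
    rw [hre] at hz
    have hk0 : k = 0 := by
      have : |k| < 1 := by exact_mod_cast hz
      exact Int.abs_lt_one_iff.mp this
    rw [hk0] at hk'
    simpa [sub_eq_zero] using hk'
  have hderiv : deriv D z1 = 1 := by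
    rw [(hDd z1).deriv]; simp
  have hp1 : D z1 = 0 := by rw [hD]; simp
  have key := rInt_simple (N := p) (D := D) (a := a) (b := a + 1) (c := -H) (d := H) (p := z1)
    h1 h2 h3 h4 (fun z _ => hp z) (fun z _ => (hDd z).differentiableAt) hp1
    (by rw [hderiv]; exact one_ne_zero) (by
      intro z hz hne h0
      have e1 := hz.1
      have e2 := hz.2.1
      exact hne (hzero z (by rw [abs_lt]; constructor <;> linarith) h0))
    ⟨univ, Filter.univ_mem, fun z _ => (hDd z).differentiableAt⟩
  rw [hderiv, div_one] at key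
  rw [← key]
  have hf : ∀ z : ℂ, p z / D z = p z * (Real.pi / sin (Real.pi * (z - z1))) := by
    intro z
    rw [hD]
    simp only
    rw [div_div_eq_mul_div, mul_div_assoc]
  unfold rInt
  simp only [hf]
  have hcast : ((-H : ℝ) : ℂ) * I = -(H * I) := by push_cast; ring
  have e1 : ∀ x : ℝ, (x : ℂ) + ((-H : ℝ) : ℂ) * I = x - H * I := by
    intro x; push_cast; ring
  simp only [e1]
  have hnk : ∀ u : ℝ, (0 < z1.re - u ∧ z1.re - u < 1) → ∀ y : ℝ,
      sin (Real.pi * ((u : ℂ) + y * I - z1)) ≠ 0 := by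
    intro u hu y
    apply Z_sin_ne
    right
    intro k hk
    simp only [sub_re, add_re, ofReal_re, mul_re, I_re, mul_zero, ofReal_im, I_im, mul_one,
      sub_self, add_zero] at hk
    have h5 : (k : ℝ) < 0 := by linarith [hu.1]
    have h6 : (-1 : ℝ) < k := by linarith [hu.2]
    have h7 : k < 0 := by exact_mod_cast h5
    have h8 : -1 < k := by exact_mod_cast h6
    omega
  have hnk' : ∀ u : ℝ, (0 < u - z1.re ∧ u - z1.re < 1) → ∀ y : ℝ,
      sin (Real.pi * ((u : ℂ) + y * I - z1)) ≠ 0 := by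
    intro u hu y
    apply Z_sin_ne
    right
    intro k hk
    simp only [sub_re, add_re, ofReal_re, mul_re, I_re, mul_zero, ofReal_im, I_im, mul_one,
      sub_self, add_zero] at hk
    have h5 : (0 : ℝ) < k := by linarith [hu.1]
    have h6 : (k : ℝ) < 1 := by linarith [hu.2]
    have h7 : 0 < k := by exact_mod_cast h5
    have h8 : k < 1 := by exact_mod_cast h6
    omega
  have hc : ContinuousOn (fun y : ℝ => p (((a + 1 : ℝ) : ℂ) + y * I) *
      (Real.pi / sin (Real.pi * (((a + 1 : ℝ) : ℂ) + y * I - z1)))) (uIcc (-H) H) := by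
    refine ContinuousOn.mul (Continuous.continuousOn ?_)
      (Z_kcont (by fun_prop) fun y _ => hnk' (a + 1) ⟨by linarith, by linarith⟩ y)
    have := hp.continuous
    fun_prop
  have hc' : ContinuousOn (fun y : ℝ => p ((a : ℂ) + y * I) *
      (Real.pi / sin (Real.pi * ((a : ℂ) + y * I - z1)))) (uIcc (-H) H) := by
    refine ContinuousOn.mul (Continuous.continuousOn ?_)
      (Z_kcont (by fun_prop) fun y _ => hnk a ⟨by linarith, by linarith⟩ y)
    have := hp.continuous
    fun_prop
  have e2 : (∫ y : ℝ in (-H)..H, (p (a + y * I + 1) + p (a + y * I)) *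
        (Real.pi / sin (Real.pi * (a + y * I - z1)))) =
      (∫ y : ℝ in (-H)..H, p ((a : ℂ) + y * I) *
      (Real.pi / sin (Real.pi * ((a : ℂ) + y * I - z1)))) -
      (∫ y : ℝ in (-H)..H, p (((a + 1 : ℝ) : ℂ) + y * I) *
      (Real.pi / sin (Real.pi * (((a + 1 : ℝ) : ℂ) + y * I - z1)))) := by
    rw [← intervalIntegral.integral_sub hc'.intervalIntegrable hc.intervalIntegrable]
    refine intervalIntegral.integral_congr fun y _ => ?_
    have s1 : ((a + 1 : ℝ) : ℂ) + y * I = a + y * I + 1 := by push_cast; ring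
    have s2 : sin (Real.pi * ((a : ℂ) + y * I + 1 - z1)) =
        -sin (Real.pi * ((a : ℂ) + y * I - z1)) := by
      rw [← Complex.sin_add_pi]
      congr 1
      ring
    rw [s1, s2, div_neg]
    ring
  rw [e2]
  ring

/-- The main expansion. -/
lemma Z_main {p : ℂ → ℂ} (hp : Differentiable ℂ p) {a H : ℝ} {z1 : ℂ} {y : ℝ} (h1 : a < z1.re)
    (h2 : z1.re < a + 1) (hy : z1.im = -y) (hy0 : 0 ≤ y) (hH : y + 1 ≤ H)
    (hk : ∀ k : ℤ, 1 / 8 ≤ |a - z1.re - k|) :
    ‖2 * Real.pi * I * p z1 -
        exp (Real.pi * I * z1) *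
          (∫ x : ℝ in a..(a + 1), 2 * Real.pi * I * (p (x - H * I) *
            exp (-(Real.pi * I * (x - H * I))))) -
        exp (-(Real.pi * I * z1)) *
          (∫ x : ℝ in a..(a + 1), 2 * Real.pi * I * (p (x + H * I) *
            exp (Real.pi * I * (x + H * I))))‖ ≤
      4 * Real.pi * Real.exp (Real.pi * y) * Real.exp (-(2 * Real.pi * (H - y))) *
        ((∫ x : ℝ in a..(a + 1), ‖p (x - H * I)‖ * Real.exp (-(Real.pi * H))) +
          ∫ x : ℝ in a..(a + 1), ‖p (x + H * I)‖ * Real.exp (-(Real.pi * H))) +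
      8 * Real.pi * Real.exp (Real.pi * y) * ∫ b : ℝ in (-H)..H,
        ‖p (a + b * I + 1) + p (a + b * I)‖ * Real.exp (-(Real.pi * |b|)) := by
  have hpi := Real.pi_pos
  have hpc := hp.continuous
  rw [Z_res (H := H) hp h1 h2 (by rw [hy]; linarith) (by rw [hy]; linarith)]
  have imne : ∀ x : ℝ, sin (Real.pi * (x - H * I - z1)) ≠ 0 := by
    intro x
    apply Z_sin_ne
    left
    simp only [sub_im, ofReal_im, mul_im, ofReal_re, I_im, mul_one, I_re, mul_zero, add_zero,
      zero_sub, hy]
    intro h0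
    linarith
  have imne' : ∀ x : ℝ, sin (Real.pi * (x + H * I - z1)) ≠ 0 := by
    intro x
    apply Z_sin_ne
    left
    simp only [sub_im, add_im, ofReal_im, mul_im, ofReal_re, I_im, mul_one, I_re, mul_zero,
      add_zero, zero_add, hy]
    intro h0
    linarith
  have vne : ∀ b : ℝ, sin (Real.pi * (a + b * I - z1)) ≠ 0 := by
    intro b
    apply Z_sin_ne
    right
    intro k hk'
    have h5 := hk k
    simp only [sub_re, add_re, ofReal_re, mul_re, I_re, mul_zero, ofReal_im, I_im, mul_one,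
      sub_self, add_zero] at hk'
    rw [hk'] at h5
    norm_num at h5
  have c1 : Continuous fun x : ℝ => p (x - H * I) := by fun_prop
  have c2 : Continuous fun x : ℝ => p (x + H * I) := by fun_prop
  have c3 : Continuous fun b : ℝ => p (a + b * I + 1) + p (a + b * I) := by fun_prop
  have k1 : ContinuousOn (fun x : ℝ => (Real.pi : ℂ) / sin (Real.pi * (x - H * I - z1)))
      (uIcc a (a + 1)) := Z_kcont (g := fun x : ℝ => x - H * I) (by fun_prop) fun x _ => imne x
  have k2 : ContinuousOn (fun x : ℝ => (Real.pi : ℂ) / sin (Real.pi * (x + H * I - z1)))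
      (uIcc a (a + 1)) := Z_kcont (g := fun x : ℝ => x + H * I) (by fun_prop) fun x _ => imne' x
  have E1 : (∫ x : ℝ in a..(a + 1), p (x - H * I) *
        (Real.pi / sin (Real.pi * (x - H * I - z1)))) - exp (Real.pi * I * z1) *
          (∫ x : ℝ in a..(a + 1), 2 * Real.pi * I * (p (x - H * I) *
            exp (-(Real.pi * I * (x - H * I))))) =
      ∫ x : ℝ in a..(a + 1), p (x - H * I) * (Real.pi / sin (Real.pi * (x - H * I - z1)) -
        2 * Real.pi * I * exp (-(Real.pi * I * (x - H * I - z1)))) := by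
    rw [← intervalIntegral.integral_const_mul, ← intervalIntegral.integral_sub]
    · refine intervalIntegral.integral_congr fun x _ => ?_
      have : exp (-(Real.pi * I * (x - H * I - z1))) =
          exp (Real.pi * I * z1) * exp (-(Real.pi * I * (x - H * I))) := by
        rw [← exp_add]; congr 1; ring
      simp only [this]
      ring
    · exact (c1.continuousOn.mul k1).intervalIntegrable
    · refine Continuous.intervalIntegrable ?_ _ _
      fun_prop
  have E2 : (∫ x : ℝ in a..(a + 1), p (x + H * I) *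
        (Real.pi / sin (Real.pi * (x + H * I - z1)))) + exp (-(Real.pi * I * z1)) *
          (∫ x : ℝ in a..(a + 1), 2 * Real.pi * I * (p (x + H * I) *
            exp (Real.pi * I * (x + H * I)))) =
      ∫ x : ℝ in a..(a + 1), p (x + H * I) * (Real.pi / sin (Real.pi * (x + H * I - z1)) +
        2 * Real.pi * I * exp (Real.pi * I * (x + H * I - z1))) := by
    rw [← intervalIntegral.integral_const_mul, ← intervalIntegral.integral_add]
    · refine intervalIntegral.integral_congr fun x _ => ?_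
      have : exp (Real.pi * I * (x + H * I - z1)) =
          exp (-(Real.pi * I * z1)) * exp (Real.pi * I * (x + H * I)) := by
        rw [← exp_add]; congr 1; ring
      simp only [this]
      ring
    · exact (c2.continuousOn.mul k2).intervalIntegrable
    · refine Continuous.intervalIntegrable ?_ _ _
      fun_prop
  have B1 : ‖∫ x : ℝ in a..(a + 1), p (x - H * I) * (Real.pi / sin (Real.pi * (x - H * I - z1)) -
        2 * Real.pi * I * exp (-(Real.pi * I * (x - H * I - z1))))‖ ≤
      ∫ x : ℝ in a..(a + 1), 4 * Real.pi * Real.exp (Real.pi * y) *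
        Real.exp (-(2 * Real.pi * (H - y))) * (‖p (x - H * I)‖ * Real.exp (-(Real.pi * H))) := by
    refine intervalIntegral.norm_integral_le_of_norm_le (by linarith)
      (Filter.Eventually.of_forall fun x _ => ?_) (Continuous.intervalIntegrable (by fun_prop) _ _)
    rw [norm_mul]
    have := Z_far (w := x - H * I - z1) (v := H - y) (by linarith) (by
      simp only [sub_im, ofReal_im, mul_im, ofReal_re, I_im, mul_one, I_re, mul_zero, add_zero,
        zero_sub, hy]
      ring)
    calc _ ≤ ‖p (x - H * I)‖ * (4 * Real.pi * Real.exp (-(3 * Real.pi * (H - y)))) := by gcongr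
      _ = _ := by
        have e : Real.exp (-(3 * Real.pi * (H - y))) = Real.exp (Real.pi * y) *
            Real.exp (-(2 * Real.pi * (H - y))) * Real.exp (-(Real.pi * H)) := by
          rw [← Real.exp_add, ← Real.exp_add]; congr 1; ring
        rw [e]; ring
  have B2 : ‖∫ x : ℝ in a..(a + 1), p (x + H * I) * (Real.pi / sin (Real.pi * (x + H * I - z1)) +
        2 * Real.pi * I * exp (Real.pi * I * (x + H * I - z1)))‖ ≤
      ∫ x : ℝ in a..(a + 1), 4 * Real.pi * Real.exp (Real.pi * y) *
        Real.exp (-(2 * Real.pi * (H - y))) * (‖p (x + H * I)‖ * Real.exp (-(Real.pi * H))) := by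
    refine intervalIntegral.norm_integral_le_of_norm_le (by linarith)
      (Filter.Eventually.of_forall fun x _ => ?_) (Continuous.intervalIntegrable (by fun_prop) _ _)
    rw [norm_mul]
    have := Z_far' (w := x + H * I - z1) (v := H + y) (by linarith) (by
      simp only [sub_im, add_im, ofReal_im, mul_im, ofReal_re, I_im, mul_one, I_re, mul_zero,
        add_zero, zero_add, hy]
      ring)
    calc _ ≤ ‖p (x + H * I)‖ * (4 * Real.pi * Real.exp (-(3 * Real.pi * (H + y)))) := by gcongr
      _ ≤ ‖p (x + H * I)‖ * (4 * Real.pi * (Real.exp (Real.pi * y) *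
            Real.exp (-(2 * Real.pi * (H - y))) * Real.exp (-(Real.pi * H)))) := by
        gcongr
        rw [← Real.exp_add, ← Real.exp_add]
        apply Real.exp_le_exp.mpr
        nlinarith
      _ = _ := by ring
  have B3 : ‖∫ b : ℝ in (-H)..H, (p (a + b * I + 1) + p (a + b * I)) *
        (Real.pi / sin (Real.pi * (a + b * I - z1)))‖ ≤
      ∫ b : ℝ in (-H)..H, 8 * Real.pi * Real.exp (Real.pi * y) *
        (‖p (a + b * I + 1) + p (a + b * I)‖ * Real.exp (-(Real.pi * |b|))) := by
    refine intervalIntegral.norm_integral_le_of_norm_le (by linarith)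
      (Filter.Eventually.of_forall fun b _ => ?_) (Continuous.intervalIntegrable (by fun_prop) _ _)
    rw [norm_mul]
    have h5 := Z_inv_sin (w := a + b * I - z1) (by
      intro k
      simp only [sub_re, add_re, ofReal_re, mul_re, I_re, mul_zero, ofReal_im, I_im, mul_one,
        sub_self, add_zero]
      exact hk k)
    have him : ((a : ℂ) + b * I - z1).im = b + y := by
      simp only [sub_im, add_im, ofReal_im, mul_im, ofReal_re, I_im, mul_one, I_re, mul_zero,
        add_zero, zero_add, hy]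
      ring
    rw [him] at h5
    calc _ ≤ ‖p (a + b * I + 1) + p (a + b * I)‖ *
          (8 * Real.pi * Real.exp (-(Real.pi * |b + y|))) := by gcongr
      _ ≤ ‖p (a + b * I + 1) + p (a + b * I)‖ *
          (8 * Real.pi * (Real.exp (Real.pi * y) * Real.exp (-(Real.pi * |b|)))) := by
        gcongr
        rw [← Real.exp_add]
        apply Real.exp_le_exp.mpr
        have : |b| ≤ |b + y| + y := by
          have e := abs_sub_abs_le_abs_sub b (-y)
          rw [sub_neg_eq_add, abs_neg, abs_of_nonneg hy0] at e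
          linarith
        nlinarith
      _ = _ := by ring
  rw [intervalIntegral.integral_const_mul] at B1 B2 B3
  have hsplit : ∀ X1 X2 V A1 A2 : ℂ, X1 - X2 - I * V - A1 - A2 =
      (X1 - A1) - (X2 + A2) - I * V := by
    intros; ring
  rw [hsplit, E1, E2]
  refine (norm_sub_le _ _).trans ?_
  rw [norm_mul, norm_I, one_mul]
  have := norm_sub_le (∫ x : ℝ in a..(a + 1), p (x - H * I) *
    (Real.pi / sin (Real.pi * (x - H * I - z1)) -
        2 * Real.pi * I * exp (-(Real.pi * I * (x - H * I - z1)))))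
    (∫ x : ℝ in a..(a + 1), p (x + H * I) * (Real.pi / sin (Real.pi * (x + H * I - z1)) +
        2 * Real.pi * I * exp (Real.pi * I * (x + H * I - z1))))
  rw [mul_add]
  linarith

/-- The shift of a period integral of an almost antiperiodic function. -/
lemma Z_shift {q : ℝ → ℂ} (hq : Continuous q) {a : ℝ} (j : ℕ) {G : ℝ → ℝ} (hG : Continuous G)
    (h : ∀ x, ‖q (x + 1) - q x‖ ≤ G x) :
    ‖(∫ x in (a + j)..(a + j + 1), q x) - ∫ x in a..(a + 1), q x‖ ≤ ∫ x in a..(a + j), G x := by
  have e : (∫ x in (a + j)..(a + j + 1), q x) - ∫ x in a..(a + 1), q x =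
      ∫ x in a..(a + j), (q (x + 1) - q x) := by
    have hq1 : Continuous fun x => q (x + 1) := by fun_prop
    rw [intervalIntegral.integral_sub (hq1.intervalIntegrable _ _)
      (hq.intervalIntegrable _ _), intervalIntegral.integral_comp_add_right]
    have h1 := intervalIntegral.integral_add_adjacent_intervals (hq.intervalIntegrable a (a + j))
      (hq.intervalIntegrable (μ := volume) (a + j) (a + j + 1))
    have h2 := intervalIntegral.integral_add_adjacent_intervals (hq.intervalIntegrable a (a + 1))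
      (hq.intervalIntegrable (μ := volume) (a + 1) (a + j + 1))
    linear_combination h1 - h2
  rw [e]
  refine intervalIntegral.norm_integral_le_of_norm_le (by
    have : (0 : ℝ) ≤ j := Nat.cast_nonneg j
    linarith)
    (Filter.Eventually.of_forall fun x _ => h x) (hG.intervalIntegrable _ _)

/-- The determinant. -/
lemma Z_det {A B : ℂ} {g1 g2 e r1 r2 : ℝ} (he : 0 < e)
    (hs : 2 * e ≤ |Real.sin (Real.pi * (g2 - g1))|)
    (h1 : ‖exp (Real.pi * I * g1) * A + exp (-(Real.pi * I * g1)) * B‖ ≤ r1)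
    (h2 : ‖exp (Real.pi * I * g2) * A + exp (-(Real.pi * I * g2)) * B‖ ≤ r2) :
    ‖A‖ ≤ (r1 + r2) / (4 * e) ∧ ‖B‖ ≤ (r1 + r2) / (4 * e) := by
  have hn : ∀ g : ℝ, ‖exp (Real.pi * I * g)‖ = 1 := by
    intro g
    rw [Complex.norm_exp]
    simp
  have hn' : ∀ g : ℝ, ‖exp (-(Real.pi * I * g))‖ = 1 := by
    intro g
    rw [Complex.norm_exp]
    simp
  set u1 := exp (Real.pi * I * g1) with hu1
  set v1 := exp (-(Real.pi * I * g1)) with hv1
  set u2 := exp (Real.pi * I * g2) with hu2
  set v2 := exp (-(Real.pi * I * g2)) with hv2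
  have hdet : u2 * v1 - u1 * v2 = 2 * I * (Real.sin (Real.pi * (g2 - g1)) : ℝ) := by
    rw [Complex.ofReal_sin, Complex.sin, hu1, hu2, hv1, hv2, ← exp_add, ← exp_add]
    have e1 : (Real.pi : ℂ) * I * g2 + -(Real.pi * I * g1) =
      ((Real.pi * (g2 - g1) : ℝ) : ℂ) * I := by push_cast; ring
    have e2 : (Real.pi : ℂ) * I * g1 + -(Real.pi * I * g2) =
      -((Real.pi * (g2 - g1) : ℝ) : ℂ) * I := by push_cast; ring
    rw [e1, e2]
    linear_combination (exp (((Real.pi * (g2 - g1) : ℝ) : ℂ) * I) -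
      exp (-((Real.pi * (g2 - g1) : ℝ) : ℂ) * I)) * I_sq
  have hdn : 4 * e ≤ ‖u2 * v1 - u1 * v2‖ := by
    rw [hdet, norm_mul, norm_mul, norm_I, Complex.norm_real, Real.norm_eq_abs]
    norm_num
    linarith
  have key : ∀ X R : ℂ, X * (u2 * v1 - u1 * v2) = R → ‖R‖ ≤ r1 + r2 →
      ‖X‖ ≤ (r1 + r2) / (4 * e) := by
    intro X R hX hR
    rw [le_div_iff₀ (by positivity)]
    calc ‖X‖ * (4 * e) ≤ ‖X‖ * ‖u2 * v1 - u1 * v2‖ := by gcongr
      _ = ‖R‖ := by rw [← norm_mul, hX]
      _ ≤ _ := hR
  constructor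
  · refine key A (v1 * (u2 * A + v2 * B) - v2 * (u1 * A + v1 * B)) (by ring) ?_
    refine (norm_sub_le _ _).trans ?_
    rw [norm_mul, norm_mul, hn', hn']
    linarith
  · refine key B (u2 * (u1 * A + v1 * B) - u1 * (u2 * A + v2 * B)) (by ring) ?_
    refine (norm_sub_le _ _).trans ?_
    rw [norm_mul, norm_mul, hn, hn]
    linarith

lemma Z_mono {f : ℝ → ℝ} (hf : Continuous f) (h0 : ∀ x, 0 ≤ f x) {a b c d : ℝ} (hca : c ≤ a)
    (hab : a ≤ b) (hbd : b ≤ d) : ∫ x in a..b, f x ≤ ∫ x in c..d, f x :=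
  intervalIntegral.integral_mono_interval hca hab hbd
    (Filter.Eventually.of_forall fun x => h0 x) (hf.intervalIntegrable _ _)

/-- The algebra of the three expansions. -/
lemma Z_alg {g1 g2 uc Y e δ Q w0 wj hE hE' S : ℝ} {pc A B A' B' : ℂ} (he : 0 < e) (he1 : e ≤ 1)
    (hs : 2 * e ≤ |Real.sin (Real.pi * (g2 - g1))|) (hY : 0 < Y) (hQ : 0 ≤ δ * Q)
    (hw0 : 0 ≤ w0) (hE0 : 0 ≤ hE) (hE0' : 0 ≤ hE')
    (g_1 : ‖-(exp (Real.pi * I * g1) * A) - exp (-(Real.pi * I * g1)) * B‖ ≤
      4 * Real.pi * δ * Q + 8 * Real.pi * w0)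
    (g_2 : ‖-(exp (Real.pi * I * g2) * A') - exp (-(Real.pi * I * g2)) * B'‖ ≤
      4 * Real.pi * δ * Q + 8 * Real.pi * wj)
    (g_3 : ‖2 * Real.pi * I * pc - exp (Real.pi * I * (uc - Y * I)) * A -
        exp (-(Real.pi * I * (uc - Y * I))) * B‖ ≤
      4 * Real.pi * Real.exp (Real.pi * Y) * δ * Q + 8 * Real.pi * Real.exp (Real.pi * Y) * w0)
    (s1 : ‖A' - A‖ ≤ 2 * Real.pi * hE') (s2 : ‖B' - B‖ ≤ 2 * Real.pi * hE)
    (hS1 : w0 ≤ S) (hS2 : wj ≤ S) :
    ‖pc‖ * Real.exp (-(Real.pi * Y)) ≤ 1000 / e * (S + (hE + hE') + δ * Q) := by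
  have hpi := Real.pi_pos
  have hpi3 := Real.pi_gt_three
  have hn : ‖exp (Real.pi * I * g2)‖ = 1 := by
    rw [Complex.norm_exp]
    simp
  have hn' : ‖exp (-(Real.pi * I * g2))‖ = 1 := by
    rw [Complex.norm_exp]
    simp
  have r1 : ‖exp (Real.pi * I * g1) * A + exp (-(Real.pi * I * g1)) * B‖ ≤
      4 * Real.pi * δ * Q + 8 * Real.pi * w0 := by
    rw [← norm_neg]
    refine le_of_eq_of_le ?_ g_1
    congr 1
    ring
  have r2 : ‖exp (Real.pi * I * g2) * A + exp (-(Real.pi * I * g2)) * B‖ ≤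
      4 * Real.pi * δ * Q + 8 * Real.pi * wj + 2 * Real.pi * hE' + 2 * Real.pi * hE := by
    have e1 : exp (Real.pi * I * g2) * A + exp (-(Real.pi * I * g2)) * B =
        -(-(exp (Real.pi * I * g2) * A') - exp (-(Real.pi * I * g2)) * B') -
          exp (Real.pi * I * g2) * (A' - A) - exp (-(Real.pi * I * g2)) * (B' - B) := by ring
    rw [e1]
    refine (norm_sub_le _ _).trans ?_
    have e2 := norm_sub_le (-(-(exp (Real.pi * I * g2) * A') - exp (-(Real.pi * I * g2)) * B'))
      (exp (Real.pi * I * g2) * (A' - A))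
    rw [norm_neg, norm_mul, hn, one_mul] at e2
    rw [norm_mul (exp (-(Real.pi * I * g2))), hn', one_mul]
    linarith
  obtain ⟨hA, hB⟩ := Z_det he hs r1 r2
  set M := (4 * Real.pi * δ * Q + 8 * Real.pi * w0 + (4 * Real.pi * δ * Q + 8 * Real.pi * wj +
    2 * Real.pi * hE' + 2 * Real.pi * hE)) / (4 * e) with hM
  have hM0 : 0 ≤ M := (norm_nonneg _).trans hA
  have n1 : ‖exp (Real.pi * I * (uc - Y * I))‖ = Real.exp (Real.pi * Y) := by
    rw [Complex.norm_exp]
    congr 1
    simp
  have n2 : ‖exp (-(Real.pi * I * (uc - Y * I)))‖ ≤ Real.exp (Real.pi * Y) := by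
    rw [Complex.norm_exp]
    apply Real.exp_le_exp.mpr
    simp
    nlinarith
  have hX0 : 0 < Real.exp (Real.pi * Y) := Real.exp_pos _
  have h3 : 2 * Real.pi * ‖pc‖ ≤ Real.exp (Real.pi * Y) * (4 * Real.pi * (δ * Q) +
      8 * Real.pi * w0 + 2 * M) := by
    have e1 : 2 * Real.pi * I * pc = (2 * Real.pi * I * pc -
        exp (Real.pi * I * (uc - Y * I)) * A - exp (-(Real.pi * I * (uc - Y * I))) * B) +
        exp (Real.pi * I * (uc - Y * I)) * A + exp (-(Real.pi * I * (uc - Y * I))) * B := by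
      ring
    have e2 : ‖2 * Real.pi * I * pc‖ = 2 * Real.pi * ‖pc‖ := by
      rw [norm_mul, norm_mul, norm_mul, norm_I, Complex.norm_real, Real.norm_of_nonneg hpi.le]
      norm_num
    rw [← e2, e1]
    refine (norm_add_le _ _).trans ?_
    refine (add_le_add_left (norm_add_le _ _) _).trans ?_
    rw [norm_mul (exp (Real.pi * I * (uc - Y * I))), norm_mul (exp (-(Real.pi * I *
      (uc - Y * I)))), n1]
    have e3 : Real.exp (Real.pi * Y) * ‖A‖ ≤ Real.exp (Real.pi * Y) * M := by gcongr
    have e4 : ‖exp (-(Real.pi * I * (uc - Y * I)))‖ * ‖B‖ ≤ Real.exp (Real.pi * Y) * M := by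
      gcongr
    linarith
  have h4 : ‖pc‖ * Real.exp (-(Real.pi * Y)) ≤ 2 * (δ * Q) + 4 * w0 + M / Real.pi := by
    have e1 : ‖pc‖ ≤ Real.exp (Real.pi * Y) * (2 * (δ * Q) + 4 * w0 + M / Real.pi) := by
      have : Real.exp (Real.pi * Y) * (4 * Real.pi * (δ * Q) + 8 * Real.pi * w0 + 2 * M) =
          2 * Real.pi * (Real.exp (Real.pi * Y) * (2 * (δ * Q) + 4 * w0 + M / Real.pi)) := by
        field_simp
        ring
      rw [this] at h3
      exact le_of_mul_le_mul_left h3 (by positivity)
    calc _ ≤ Real.exp (Real.pi * Y) * (2 * (δ * Q) + 4 * w0 + M / Real.pi) *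
          Real.exp (-(Real.pi * Y)) := by gcongr
      _ = _ := by
        rw [mul_right_comm, ← Real.exp_add, add_neg_cancel, Real.exp_zero, one_mul]
  refine h4.trans ?_
  have hM' : M / Real.pi = (2 * (δ * Q) + 2 * w0 + 2 * wj + (hE + hE') / 2) / e := by
    rw [hM]
    field_simp
    ring
  rw [hM']
  have h5 : 2 * (δ * Q) + 4 * w0 ≤ (2 * (δ * Q) + 4 * w0) / e := by
    rw [le_div_iff₀ he]
    exact mul_le_of_le_one_right (by linarith) he1
  have h6 : 1000 / e * (S + (hE + hE') + δ * Q) = (1000 * (S + (hE + hE') + δ * Q)) / e := by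
    ring
  rw [h6]
  calc _ ≤ (2 * (δ * Q) + 4 * w0) / e + (2 * (δ * Q) + 2 * w0 + 2 * wj + (hE + hE') / 2) / e := by
        linarith
    _ = (4 * (δ * Q) + 6 * w0 + 2 * wj + (hE + hE') / 2) / e := by ring
    _ ≤ _ := by
      gcongr
      linarith

/-- The estimate for one position `a` of the rectangle and one height `H`. -/
lemma Z_one (J : ℕ) {p : ℂ → ℂ} (hp : Differentiable ℂ p) {g1 g2 uc Y B e a H : ℝ}
    (hg1 : p g1 = 0) (hg2 : p g2 = 0) (h12 : 0 < g2 - g1) (hJ : g2 - g1 ≤ J) (he : 0 < e)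
    (he1 : e ≤ 1) (hm : ∀ m : ℤ, e ≤ |g2 - g1 - m|) (huc : |uc - g1| ≤ 1 / 8) (hY : 1 ≤ Y)
    (hB : 2 * Y ≤ B) (ha1 : g1 - 3 / 4 ≤ a) (ha2 : a ≤ g1 - 1 / 4)
    (ha : ∀ k : ℤ, 1 / 8 ≤ |a - g2 - k|) (hH1 : B ≤ H) (hH2 : H ≤ B + 1) :
    ‖p (uc - Y * I)‖ * Real.exp (-(Real.pi * Y)) ≤
      1000 / e * ((∑ i ∈ Finset.range (J + 1), ∫ b in (-(B + 1))..(B + 1),
          ‖p ((a + i : ℝ) + b * I + 1) + p ((a + i : ℝ) + b * I)‖ *
            Real.exp (-(Real.pi * |b|))) +
        ((∫ x in (g1 - 2)..(g1 + J + 2), ‖p (x + H * I + 1) + p (x + H * I)‖ *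
            Real.exp (-(Real.pi * H))) +
          ∫ x in (g1 - 2)..(g1 + J + 2), ‖p (x - H * I + 1) + p (x - H * I)‖ *
            Real.exp (-(Real.pi * H))) +
        Real.exp (-(2 * Real.pi * (B - Y))) *
          ((∫ x in (g1 - 2)..(g1 + J + 2), ‖p (x + H * I)‖ * Real.exp (-(Real.pi * H))) +
            ∫ x in (g1 - 2)..(g1 + J + 2), ‖p (x - H * I)‖ * Real.exp (-(Real.pi * H)))) := by
  have hpi := Real.pi_pos
  have hpc := hp.continuous
  have hY0 : 0 < Y := by linarith
  have hJ0 : (0 : ℝ) ≤ J := Nat.cast_nonneg J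
  -- the cell of `g2`
  set j : ℕ := ⌊g2 - a⌋₊ with hj
  have hj1 : (j : ℝ) ≤ g2 - a := Nat.floor_le (by linarith)
  have hj2 : g2 - a < j + 1 := Nat.lt_floor_add_one _
  have hj3 : 1 / 8 ≤ g2 - a - j := by
    have := ha (-(j : ℤ))
    push_cast at this
    rw [show a - g2 - -(j : ℝ) = -(g2 - a - j) by ring, abs_neg, abs_of_nonneg (by linarith)]
      at this
    exact this
  have hjJ : j ≤ J := by
    have : (j : ℝ) < (J + 1 : ℕ) := by push_cast; linarith
    have := Nat.cast_lt.mp this
    omega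
  have hjJ' : (j : ℝ) ≤ J := by exact_mod_cast hjJ
  have hj0 : (0 : ℝ) ≤ j := Nat.cast_nonneg j
  have hfrac : ∀ x : ℝ, -7 / 8 ≤ x → x ≤ -1 / 8 → ∀ k : ℤ, 1 / 8 ≤ |x - k| := by
    intro x h1 h2 k
    rcases le_or_gt 0 k with h | h
    · have : (0 : ℝ) ≤ k := by exact_mod_cast h
      rw [abs_of_neg (by linarith)]
      linarith
    · have : (k : ℝ) ≤ -1 := by
        have : k ≤ -1 := by omega
        exact_mod_cast this
      rw [abs_of_pos (by linarith)]
      linarith
  have hucl := abs_le.mp huc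
  -- notation
  set hE := ∫ x in (g1 - 2)..(g1 + J + 2), ‖p (x + H * I + 1) + p (x + H * I)‖ *
    Real.exp (-(Real.pi * H)) with hhE
  set hE' := ∫ x in (g1 - 2)..(g1 + J + 2), ‖p (x - H * I + 1) + p (x - H * I)‖ *
    Real.exp (-(Real.pi * H)) with hhE'
  set hP := ∫ x in (g1 - 2)..(g1 + J + 2), ‖p (x + H * I)‖ * Real.exp (-(Real.pi * H)) with hhP
  set hP' := ∫ x in (g1 - 2)..(g1 + J + 2), ‖p (x - H * I)‖ * Real.exp (-(Real.pi * H)) with hhP'
  set w : ℕ → ℝ := fun i => ∫ b in (-(B + 1))..(B + 1),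
    ‖p ((a + i : ℝ) + b * I + 1) + p ((a + i : ℝ) + b * I)‖ * Real.exp (-(Real.pi * |b|)) with hw
  set δ := Real.exp (-(2 * Real.pi * (B - Y))) with hδ
  have hδ0 : 0 < δ := Real.exp_pos _
  set A : ℝ → ℂ := fun a => ∫ x : ℝ in a..(a + 1), 2 * Real.pi * I * (p (x - H * I) *
    exp (-(Real.pi * I * (x - H * I)))) with hA
  set Bt : ℝ → ℂ := fun a => ∫ x : ℝ in a..(a + 1), 2 * Real.pi * I * (p (x + H * I) *
    exp (Real.pi * I * (x + H * I))) with hBt
  have c1 : Continuous fun x : ℝ => ‖p (x - H * I)‖ * Real.exp (-(Real.pi * H)) := by fun_prop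
  have c2 : Continuous fun x : ℝ => ‖p (x + H * I)‖ * Real.exp (-(Real.pi * H)) := by fun_prop
  have c3 : Continuous fun x : ℝ => ‖p (x + H * I + 1) + p (x + H * I)‖ *
    Real.exp (-(Real.pi * H)) := by fun_prop
  have c4 : Continuous fun x : ℝ => ‖p (x - H * I + 1) + p (x - H * I)‖ *
    Real.exp (-(Real.pi * H)) := by fun_prop
  have hwn : ∀ i, 0 ≤ w i := fun i => intervalIntegral.integral_nonneg (by linarith)
    fun b _ => by positivity
  have hP0 : 0 ≤ hP := intervalIntegral.integral_nonneg (by linarith) fun b _ => by positivity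
  have hP0' : 0 ≤ hP' := intervalIntegral.integral_nonneg (by linarith) fun b _ => by positivity
  have hE0 : 0 ≤ hE := intervalIntegral.integral_nonneg (by linarith) fun b _ => by positivity
  have hE0' : 0 ≤ hE' := intervalIntegral.integral_nonneg (by linarith) fun b _ => by positivity
  -- the three expansions
  have gen : ∀ (i : ℕ) (z1 : ℂ) (y : ℝ), i ≤ J → a + i < z1.re → z1.re < a + i + 1 →
      z1.im = -y → 0 ≤ y → y ≤ Y → (∀ k : ℤ, 1 / 8 ≤ |a + i - z1.re - k|) →
      ‖2 * Real.pi * I * p z1 - exp (Real.pi * I * z1) * A (a + i) -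
        exp (-(Real.pi * I * z1)) * Bt (a + i)‖ ≤
      4 * Real.pi * Real.exp (Real.pi * y) * δ * (hP' + hP) +
        8 * Real.pi * Real.exp (Real.pi * y) * w i := by
    intro i z1 y hi h1 h2 h3 h4 h5 h6
    have hi' : (i : ℝ) ≤ J := by exact_mod_cast hi
    have hi0 : (0 : ℝ) ≤ i := Nat.cast_nonneg i
    have hmain := Z_main (H := H) hp h1 h2 h3 h4 (by linarith) h6
    refine hmain.trans ?_
    have m1 := Z_mono c1 (fun x => by positivity) (a := a + i) (b := a + i + 1) (c := g1 - 2)
      (d := g1 + J + 2) (by linarith) (by linarith) (by linarith)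
    have m2 := Z_mono c2 (fun x => by positivity) (a := a + i) (b := a + i + 1) (c := g1 - 2)
      (d := g1 + J + 2) (by linarith) (by linarith) (by linarith)
    have c5 : Continuous fun b : ℝ => ‖p ((a + i : ℝ) + b * I + 1) + p ((a + i : ℝ) + b * I)‖ *
      Real.exp (-(Real.pi * |b|)) := by fun_prop
    have m3 := Z_mono c5 (fun x => by positivity) (a := -H) (b := H) (c := -(B + 1))
      (d := B + 1) (by linarith) (by linarith) (by linarith)
    have hδ' : Real.exp (-(2 * Real.pi * (H - y))) ≤ δ := by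
      apply Real.exp_le_exp.mpr
      exact neg_le_neg (mul_le_mul_of_nonneg_left (by linarith) (by positivity))
    have n1 : 0 ≤ ∫ x : ℝ in (a + i)..(a + i + 1), ‖p (x - H * I)‖ * Real.exp (-(Real.pi * H)) :=
      intervalIntegral.integral_nonneg (by linarith) fun b _ => by positivity
    have n2 : 0 ≤ ∫ x : ℝ in (a + i)..(a + i + 1), ‖p (x + H * I)‖ * Real.exp (-(Real.pi * H)) :=
      intervalIntegral.integral_nonneg (by linarith) fun b _ => by positivity
    gcongr
  have g_1 := gen 0 (g1 : ℂ) 0 (Nat.zero_le _) (by simp; linarith) (by simp; linarith) (by simp)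
    le_rfl hY0.le (by
      intro k
      simp only [Nat.cast_zero, add_zero, ofReal_re]
      exact hfrac _ (by linarith) (by linarith) k)
  have g_2 := gen j (g2 : ℂ) 0 hjJ (by simp; linarith) (by simp; linarith) (by simp)
    le_rfl hY0.le (by
      intro k
      simp only [ofReal_re]
      have := ha (k - j)
      push_cast at this
      rw [show a + j - g2 - k = a - g2 - (k - j) by ring]
      exact this)
  have g_3 := gen 0 ((uc : ℂ) - Y * I) Y (Nat.zero_le _) (by simp; linarith)
    (by simp; linarith) (by simp) hY0.le le_rfl (by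
      intro k
      have : ((uc : ℂ) - Y * I).re = uc := by simp
      rw [this, Nat.cast_zero, add_zero]
      exact hfrac _ (by linarith) (by linarith) k)
  simp only [Nat.cast_zero, add_zero, hg1, hg2, mul_zero, zero_sub, Real.exp_zero,
    mul_one] at g_1 g_2 g_3
  -- the shifts
  have s1 : ‖A (a + j) - A a‖ ≤ 2 * Real.pi * hE' := by
    have := Z_shift (q := fun x : ℝ => 2 * Real.pi * I * (p (x - H * I) *
      exp (-(Real.pi * I * (x - H * I))))) (by fun_prop) (a := a) j
      (G := fun x => 2 * Real.pi * (‖p (x - H * I + 1) + p (x - H * I)‖ *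
        Real.exp (-(Real.pi * H)))) (by fun_prop) (by
        intro x
        have e1 : exp (-(Real.pi * I * (((x + 1 : ℝ) : ℂ) - H * I))) =
            -exp (-(Real.pi * I * (x - H * I))) := by
          have : -(Real.pi * I * (((x + 1 : ℝ) : ℂ) - H * I)) =
            -(Real.pi * I * (x - H * I)) - Real.pi * I := by push_cast; ring
          rw [this, exp_sub, exp_pi_mul_I]
          ring
        have e2 : ((x + 1 : ℝ) : ℂ) - H * I = x - H * I + 1 := by push_cast; ring
        have e3 : ‖exp (-(Real.pi * I * (x - H * I)))‖ = Real.exp (-(Real.pi * H)) := by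
          rw [Complex.norm_exp]
          congr 1
          simp
        have e4 : 2 * (Real.pi : ℂ) * I * (p (((x + 1 : ℝ) : ℂ) - H * I) *
            exp (-(Real.pi * I * (((x + 1 : ℝ) : ℂ) - H * I)))) -
            2 * Real.pi * I * (p (x - H * I) * exp (-(Real.pi * I * (x - H * I)))) =
            -(2 * Real.pi * I) * ((p (x - H * I + 1) + p (x - H * I)) *
              exp (-(Real.pi * I * (x - H * I)))) := by
          rw [e1, e2]; ring
        rw [e4, norm_mul, norm_mul, e3, norm_neg, norm_mul, norm_mul, norm_I, Complex.norm_real,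
          Real.norm_of_nonneg hpi.le]
        norm_num)
    refine this.trans ?_
    rw [intervalIntegral.integral_const_mul]
    have := Z_mono c4 (fun x => by positivity) (a := a) (b := a + j) (c := g1 - 2)
      (d := g1 + J + 2) (by linarith) (by linarith) (by linarith)
    gcongr
  have s2 : ‖Bt (a + j) - Bt a‖ ≤ 2 * Real.pi * hE := by
    have := Z_shift (q := fun x : ℝ => 2 * Real.pi * I * (p (x + H * I) *
      exp (Real.pi * I * (x + H * I)))) (by fun_prop) (a := a) j
      (G := fun x => 2 * Real.pi * (‖p (x + H * I + 1) + p (x + H * I)‖ *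
        Real.exp (-(Real.pi * H)))) (by fun_prop) (by
        intro x
        have e1 : exp (Real.pi * I * (((x + 1 : ℝ) : ℂ) + H * I)) =
            -exp (Real.pi * I * (x + H * I)) := by
          have : Real.pi * I * (((x + 1 : ℝ) : ℂ) + H * I) =
            Real.pi * I * (x + H * I) + Real.pi * I := by push_cast; ring
          rw [this, exp_add, exp_pi_mul_I]
          ring
        have e2 : ((x + 1 : ℝ) : ℂ) + H * I = x + H * I + 1 := by push_cast; ring
        have e3 : ‖exp (Real.pi * I * (x + H * I))‖ = Real.exp (-(Real.pi * H)) := by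
          rw [Complex.norm_exp]
          congr 1
          simp
        have e4 : 2 * (Real.pi : ℂ) * I * (p (((x + 1 : ℝ) : ℂ) + H * I) *
            exp (Real.pi * I * (((x + 1 : ℝ) : ℂ) + H * I))) -
            2 * Real.pi * I * (p (x + H * I) * exp (Real.pi * I * (x + H * I))) =
            -(2 * Real.pi * I) * ((p (x + H * I + 1) + p (x + H * I)) *
              exp (Real.pi * I * (x + H * I))) := by
          rw [e1, e2]; ring
        rw [e4, norm_mul, norm_mul, e3, norm_neg, norm_mul, norm_mul, norm_I, Complex.norm_real,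
          Real.norm_of_nonneg hpi.le]
        norm_num)
    refine this.trans ?_
    rw [intervalIntegral.integral_const_mul]
    have := Z_mono c3 (fun x => by positivity) (a := a) (b := a + j) (c := g1 - 2)
      (d := g1 + J + 2) (by linarith) (by linarith) (by linarith)
    gcongr
  have hQ : 0 ≤ δ * (hP' + hP) := by positivity
  have hfin := Z_alg (S := (Finset.range (J + 1)).sum w) he he1 (Z_jordan hm) hY0 hQ (hwn 0)
    hE0 hE0' g_1 g_2 g_3 s1 s2
    (Finset.single_le_sum (fun i _ => hwn i) (Finset.mem_range.mpr (Nat.succ_pos J)))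
    (Finset.single_le_sum (fun i _ => hwn i) (Finset.mem_range.mpr (by omega)))
  rw [add_comm hP hP']
  exact hfin

/-- Interchange of two interval integrals of a continuous function. -/
lemma Z_swap {F : ℝ → ℝ → ℝ} (hF : Continuous (Function.uncurry F)) (a b c d : ℝ) :
    ∫ x in a..b, ∫ y in c..d, F x y = ∫ y in c..d, ∫ x in a..b, F x y := by
  apply intervalIntegral_intervalIntegral_swap
  have h1 : IntegrableOn (Function.uncurry F) (uIcc a b ×ˢ uIcc c d) :=
    hF.continuousOn.integrableOn_compact (isCompact_uIcc.prod isCompact_uIcc)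
  exact h1.mono_set (prod_mono uIoc_subset_uIcc uIoc_subset_uIcc)

/-- A good position of the rectangle. -/
lemma Z_pos (g1 g2 : ℝ) : ∃ c : ℝ, g1 - 3 / 4 ≤ c ∧ c + 1 / 8 ≤ g1 - 1 / 4 ∧
    ∀ a ∈ Icc c (c + 1 / 8), ∀ k : ℤ, 1 / 8 ≤ |a - g2 - k| := by
  have hI : (∀ a ∈ Icc (g1 - 3 / 4) (g1 - 5 / 8), ∀ k : ℤ, 1 / 8 ≤ |a - g2 - k|) ∨
      (∀ a ∈ Icc (g1 - 3 / 8) (g1 - 1 / 4), ∀ k : ℤ, 1 / 8 ≤ |a - g2 - k|) := by
    by_contra h
    push Not at h
    obtain ⟨⟨a1, ha1, k1, h1⟩, ⟨a2, ha2, k2, h2⟩⟩ := h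
    rw [abs_lt] at h1 h2
    have e1 : (0 : ℝ) < k2 - k1 := by linarith [h1.1, h1.2, h2.1, h2.2, ha1.1, ha1.2, ha2.1, ha2.2]
    have e2 : (k2 : ℝ) - k1 < 1 := by
      linarith [h1.1, h1.2, h2.1, h2.2, ha1.1, ha1.2, ha2.1, ha2.2]
    have e3 : 0 < k2 - k1 := by exact_mod_cast e1
    have e4 : k2 - k1 < 1 := by exact_mod_cast e2
    omega
  rcases hI with h | h
  · refine ⟨g1 - 3 / 4, le_rfl, by linarith, fun a ha => h a ⟨ha.1, by linarith [ha.2]⟩⟩
  · refine ⟨g1 - 3 / 8, by linarith, by linarith, fun a ha => h a ⟨ha.1, by linarith [ha.2]⟩⟩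

theorem contour_rigid (J : ℕ) : ∃ C : ℝ, 0 < C ∧ ∀ p : ℂ → ℂ, Differentiable ℂ p →
    ∀ g1 g2 uc Y B e : ℝ, p g1 = 0 → p g2 = 0 → 0 < g2 - g1 → g2 - g1 ≤ J → 0 < e → e ≤ 1 →
    (∀ m : ℤ, e ≤ |g2 - g1 - m|) → |uc - g1| ≤ 1 / 8 → 1 ≤ Y → 2 * Y ≤ B →
    ‖p (uc - Y * I)‖ * Real.exp (-(Real.pi * Y)) ≤
      C / e * ((∫ a in (g1 - 2)..(g1 + J + 2), ∫ b in (-(B + 1))..(B + 1),
          ‖p (a + b * I + 1) + p (a + b * I)‖ * Real.exp (-(Real.pi * |b|))) +
        Real.exp (-(2 * Real.pi * (B - Y))) *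
          ∫ a in (g1 - 2)..(g1 + J + 2), ((∫ b in B..(B + 1),
            ‖p (a + b * I)‖ * Real.exp (-(Real.pi * b))) +
            ∫ b in B..(B + 1), ‖p (a - b * I)‖ * Real.exp (-(Real.pi * b)))) := by
  refine ⟨8000 * (J + 2), by positivity, ?_⟩
  intro p hp g1 g2 uc Y B e hg1 hg2 h12 hJ he he1 hm huc hY hB
  have hpi := Real.pi_pos
  have hpc := hp.continuous
  have hJ0 : (0 : ℝ) ≤ J := Nat.cast_nonneg J
  have hB0 : 0 < B := by linarith
  obtain ⟨c, hc1, hc2, hc3⟩ := Z_pos g1 g2
  set K := ‖p (uc - Y * I)‖ * Real.exp (-(Real.pi * Y)) with hK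
  set δ := Real.exp (-(2 * Real.pi * (B - Y))) with hδ
  have hδ0 : 0 < δ := Real.exp_pos _
  set G : ℝ → ℝ → ℝ := fun a b => ‖p (a + b * I + 1) + p (a + b * I)‖ *
    Real.exp (-(Real.pi * |b|)) with hG
  have hGc : Continuous (Function.uncurry G) := by
    simp only [hG, Function.uncurry_def]; fun_prop
  have hG0 : ∀ a b, 0 ≤ G a b := fun a b => by positivity
  set G1 : ℝ → ℝ → ℝ := fun a b => ‖p (a + b * I)‖ * Real.exp (-(Real.pi * b)) with hG1
  have hG1c : Continuous (Function.uncurry G1) := by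
    simp only [hG1, Function.uncurry_def]; fun_prop
  set G2 : ℝ → ℝ → ℝ := fun a b => ‖p (a - b * I)‖ * Real.exp (-(Real.pi * b)) with hG2
  have hG2c : Continuous (Function.uncurry G2) := by
    simp only [hG2, Function.uncurry_def]; fun_prop
  set G3 : ℝ → ℝ → ℝ := fun a b => ‖p (a + b * I + 1) + p (a + b * I)‖ *
    Real.exp (-(Real.pi * b)) with hG3
  have hG3c : Continuous (Function.uncurry G3) := by
    simp only [hG3, Function.uncurry_def]; fun_prop
  set G4 : ℝ → ℝ → ℝ := fun a b => ‖p (a - b * I + 1) + p (a - b * I)‖ *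
    Real.exp (-(Real.pi * b)) with hG4
  have hG4c : Continuous (Function.uncurry G4) := by
    simp only [hG4, Function.uncurry_def]; fun_prop
  set w : ℝ → ℝ := fun a => ∫ b in (-(B + 1))..(B + 1), G a b with hw
  have hwc : Continuous w :=
    intervalIntegral.continuous_parametric_intervalIntegral_of_continuous' hGc _ _
  have hw0 : ∀ a, 0 ≤ w a := fun a => intervalIntegral.integral_nonneg (by linarith)
    fun b _ => hG0 a b
  set W := ∫ a in (g1 - 2)..(g1 + J + 2), w a with hW
  have hW0 : 0 ≤ W := intervalIntegral.integral_nonneg (by linarith) fun a _ => hw0 a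
  set V := ∫ a in (g1 - 2)..(g1 + J + 2), ((∫ b in B..(B + 1), G1 a b) +
    ∫ b in B..(B + 1), G2 a b) with hV
  have hV0 : 0 ≤ V := intervalIntegral.integral_nonneg (by linarith) fun a _ =>
    add_nonneg (intervalIntegral.integral_nonneg (by linarith) fun b _ => by positivity)
      (intervalIntegral.integral_nonneg (by linarith) fun b _ => by positivity)
  -- the integrals in the height
  have i1 : ∫ H in B..(B + 1), (∫ x in (g1 - 2)..(g1 + J + 2), G3 x H) ≤ W := by
    rw [← Z_swap hG3c]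
    refine intervalIntegral.integral_mono_on (by linarith)
      ((intervalIntegral.continuous_parametric_intervalIntegral_of_continuous' hG3c _
        _).intervalIntegrable _ _) (hwc.intervalIntegrable _ _) fun a _ => ?_
    have e1 : ∫ b in B..(B + 1), G3 a b = ∫ b in B..(B + 1), G a b := by
      refine intervalIntegral.integral_congr fun b hb => ?_
      rw [uIcc_of_le (by linarith)] at hb
      simp only [hG3, hG]
      rw [abs_of_nonneg (by linarith [hb.1])]
    rw [e1]
    exact Z_mono (by simp only [hG]; fun_prop) (hG0 a) (by linarith) (by linarith) le_rfl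
  have i2 : ∫ H in B..(B + 1), (∫ x in (g1 - 2)..(g1 + J + 2), G4 x H) ≤ W := by
    rw [← Z_swap hG4c]
    refine intervalIntegral.integral_mono_on (by linarith)
      ((intervalIntegral.continuous_parametric_intervalIntegral_of_continuous' hG4c _
        _).intervalIntegrable _ _) (hwc.intervalIntegrable _ _) fun a _ => ?_
    have e1 : ∫ b in B..(B + 1), G4 a b = ∫ b in (-(B + 1))..(-B), G a b := by
      rw [← intervalIntegral.integral_comp_neg (fun b => G a b)]
      refine intervalIntegral.integral_congr fun b hb => ?_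
      rw [uIcc_of_le (by linarith)] at hb
      simp only [hG4, hG]
      rw [abs_neg, abs_of_nonneg (by linarith [hb.1])]
      have : (a : ℂ) + ((-b : ℝ) : ℂ) * I = a - b * I := by push_cast; ring
      rw [this]
    rw [e1]
    exact Z_mono (by simp only [hG]; fun_prop) (hG0 a) le_rfl (by linarith) (by linarith)
  have i3 : (∫ H in B..(B + 1), (∫ x in (g1 - 2)..(g1 + J + 2), G1 x H)) +
      ∫ H in B..(B + 1), (∫ x in (g1 - 2)..(g1 + J + 2), G2 x H) = V := by
    rw [← Z_swap hG1c, ← Z_swap hG2c, ← intervalIntegral.integral_add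
      ((intervalIntegral.continuous_parametric_intervalIntegral_of_continuous' hG1c _
        _).intervalIntegrable _ _)
      ((intervalIntegral.continuous_parametric_intervalIntegral_of_continuous' hG2c _
        _).intervalIntegrable _ _)]
  -- integration in the height
  have sw : ∀ F : ℝ → ℝ → ℝ, Continuous (Function.uncurry F) →
      Continuous fun H => ∫ x in (g1 - 2)..(g1 + J + 2), F x H := by
    intro F hF
    exact intervalIntegral.continuous_parametric_intervalIntegral_of_continuous'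
      (f := fun H x => F x H) (by exact hF.comp continuous_swap) _ _
  have step1 : ∀ a ∈ Icc c (c + 1 / 8), K ≤ 1000 / e *
      ((∑ i ∈ Finset.range (J + 1), w (a + i)) + 2 * W + δ * V) := by
    intro a ha
    have h1 : ∀ H ∈ Icc B (B + 1), K ≤ 1000 / e * ((∑ i ∈ Finset.range (J + 1), w (a + i)) +
        ((∫ x in (g1 - 2)..(g1 + J + 2), G3 x H) + ∫ x in (g1 - 2)..(g1 + J + 2), G4 x H) +
        δ * ((∫ x in (g1 - 2)..(g1 + J + 2), G1 x H) +
          ∫ x in (g1 - 2)..(g1 + J + 2), G2 x H)) := by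
      intro H hH
      exact Z_one J hp hg1 hg2 h12 hJ he he1 hm huc hY hB (by linarith [ha.1])
        (by linarith [ha.2]) (hc3 a ha) hH.1 hH.2
    have h2 : ∫ _ in B..(B + 1), K = K := by
      rw [intervalIntegral.integral_const]; simp
    have s1 := sw G1 hG1c
    have s2 := sw G2 hG2c
    have s3 := sw G3 hG3c
    have s4 := sw G4 hG4c
    have h3 := intervalIntegral.integral_mono_on (a := B) (b := B + 1) (by linarith)
      (continuous_const.intervalIntegrable (μ := volume) _ _)
      (Continuous.intervalIntegrable (by fun_prop) _ _) h1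
    rw [h2] at h3
    refine h3.trans ?_
    rw [intervalIntegral.integral_const_mul]
    gcongr
    rw [intervalIntegral.integral_add (Continuous.intervalIntegrable (by fun_prop) _ _)
      (Continuous.intervalIntegrable (by fun_prop) _ _),
      intervalIntegral.integral_add (Continuous.intervalIntegrable (by fun_prop) _ _)
      (Continuous.intervalIntegrable (by fun_prop) _ _),
      intervalIntegral.integral_add (Continuous.intervalIntegrable (by fun_prop) _ _)
      (Continuous.intervalIntegrable (by fun_prop) _ _),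
      intervalIntegral.integral_const_mul,
      intervalIntegral.integral_add (Continuous.intervalIntegrable (by fun_prop) _ _)
      (Continuous.intervalIntegrable (by fun_prop) _ _), i3, intervalIntegral.integral_const]
    simp only [add_sub_cancel_left, one_smul]
    linarith
  -- integration in the position
  have h2 : ∫ _ in c..(c + 1 / 8), K = K / 8 := by
    rw [intervalIntegral.integral_const]; simp; ring
  have h3 := intervalIntegral.integral_mono_on (a := c) (b := c + 1 / 8) (by linarith)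
      (continuous_const.intervalIntegrable (μ := volume) _ _)
      (Continuous.intervalIntegrable (by fun_prop) _ _) step1
  rw [h2, intervalIntegral.integral_const_mul] at h3
  have h4 : ∫ a in c..(c + 1 / 8), ((∑ i ∈ Finset.range (J + 1), w (a + i)) + 2 * W + δ * V) ≤
      (J + 1) * W + (2 * W + δ * V) / 8 := by
    have e1 : ∫ a in c..(c + 1 / 8), ((∑ i ∈ Finset.range (J + 1), w (a + i)) + 2 * W + δ * V) =
        (∑ i ∈ Finset.range (J + 1), ∫ a in c..(c + 1 / 8), w (a + i)) +
          (2 * W + δ * V) / 8 := by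
      rw [← intervalIntegral.integral_finsetSum
        (fun i _ => Continuous.intervalIntegrable (by fun_prop) _ _)]
      have : (2 * W + δ * V) / 8 = ∫ _ in c..(c + 1 / 8), (2 * W + δ * V) := by
        rw [intervalIntegral.integral_const]; simp; ring
      rw [this, ← intervalIntegral.integral_add (Continuous.intervalIntegrable (by fun_prop) _ _)
        (Continuous.intervalIntegrable (by fun_prop) _ _)]
      refine intervalIntegral.integral_congr fun a _ => ?_
      ring
    rw [e1]
    have e2 : ∑ i ∈ Finset.range (J + 1), ∫ a in c..(c + 1 / 8), w (a + i) ≤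
        ∑ i ∈ Finset.range (J + 1), W := by
      refine Finset.sum_le_sum fun i hi => ?_
      have hi' : (i : ℝ) ≤ J := by
        have := Finset.mem_range.mp hi
        exact_mod_cast (by omega : i ≤ J)
      have hi0 : (0 : ℝ) ≤ i := Nat.cast_nonneg i
      rw [intervalIntegral.integral_comp_add_right]
      exact Z_mono hwc hw0 (by linarith) (by linarith) (by linarith)
    rw [Finset.sum_const, Finset.card_range, nsmul_eq_mul] at e2
    push_cast at e2
    linarith
  have h5 : K / 8 ≤ 1000 / e * ((J + 1) * W + (2 * W + δ * V) / 8) := h3.trans (by gcongr)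
  have h6 : K ≤ 8 * (1000 / e * ((J + 1) * W + (2 * W + δ * V) / 8)) := by linarith
  refine h6.trans ?_
  have h7 : 8 * (1000 / e * ((J + 1) * W + (2 * W + δ * V) / 8)) =
      (8000 * ((J + 1) * W + (2 * W + δ * V) / 8)) / e := by ring
  have h8 : 8000 * ((J : ℝ) + 2) / e * (W + δ * V) = (8000 * (J + 2) * (W + δ * V)) / e := by ring
  rw [h7, h8]
  refine div_le_div_of_nonneg_right ?_ he.le
  linarith [mul_nonneg hδ0.le hV0, mul_nonneg hJ0 (mul_nonneg hδ0.le hV0)]

end Pool.Agent.AHD
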