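import Pool.Agent.ZGap.AH.Fb3
import Pool.Agent.ZGap.AH.Fb4
import Pool.Agent.ZGap.AH.Fb5
import Pool.Agent.ZGap.AH.H3
import Pool.Agent.ZGap.AH.Z

/-!
# The block argument for one mollifier
-/

open scoped ContDiff

namespace Pool.Agent.AHD

open Complex MeasureTheory Set Pool.Agent.Hadamard Pool.Agent.HalfGap

/-- One set of data: outside a small set, a non-lattice gap bounds the value of `V`. -/
theorem block_one (hRH : RiemannHypothesis) {e θ μ : ℝ} (he : 0 < e) (he1 : e ≤ 1) (hθ : 0 < θ)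
    (hθ8 : θ ≤ 1 / 8) (hμ : 0 < μ) (J : ℕ) : ∃ A r : ℝ, 0 < A ∧ 0 < r ∧
    ∀ D : AData, D.ep ≤ r → ∀ τ : ℝ, 1 / 3 < τ → 1 / 2 - D.ep ^ 2 ≤ τ → τ < 1 / 2 →
    ∃ δ T0 : ℝ, 0 < δ ∧ ∀ T : ℝ, T0 ≤ T → Few τ δ θ T →
      ∃ S : Set ℝ, volume.real S ≤ μ * T ∧ S ⊆ Icc (5 * T / 4) (7 * T / 4) ∧
        ∀ t0 ∈ Icc (5 * T / 4 + 1) (7 * T / 4 - 1), t0 ∉ S → ∀ g1 g2 : ℝ, Xr g1 = 0 →
          Xr g2 = 0 → |t0 - g1| ≤ alp τ T / 8 → 0 < g2 - g1 → g2 - g1 ≤ J * alp τ T →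
          (∀ m : ℤ, e ≤ |(g2 - g1) / alp τ T - m|) →
          ‖Vs D T (ss (alp τ T * Yc D.ep) t0)‖ ≤ Real.log (1 / D.ep) ^ A := by
  obtain ⟨C4, hC4, hZ⟩ := contour_rigid J
  obtain ⟨C3, hC3, hX⟩ := xi_ratio hRH (4 * ((J : ℝ) + 4)) (by positivity)
  obtain ⟨CM, hCM, hM⟩ := Fb_mean hRH
  have hJ0 : (0 : ℝ) ≤ J := Nat.cast_nonneg J
  have hpi := Real.pi_pos
  have hpi3 := Real.pi_gt_three
  have hpi4 := Real.pi_le_four
  set c : ℝ := 2 * C3 / μ with hc
  have hc0 : 0 < c := by positivity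
  set P : ℝ := C4 / e * (2 * ((J + 6) * CM) / μ) with hP
  have hP0 : 0 < P := by positivity
  set K0 : ℝ := P * Real.exp (c * (1 + Real.log 20000) + 1) with hK0
  have hK00 : 0 < K0 := by positivity
  refine ⟨2 * c + 5, Real.exp (-(K0 + 2 * Real.log 80000 + 1)), by positivity, Real.exp_pos _, ?_⟩
  intro D hD τ hτ3 hτ hτ'
  have hA1 : 2 * Real.pi * τ ≤ Real.pi := by
    have : Real.pi * (2 * τ) ≤ Real.pi * 1 := mul_le_mul_of_nonneg_left (by linarith) hpi.le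
    linarith
  have hA2 : 1 ≤ 2 * Real.pi * τ := by
    have : Real.pi * (2 / 3) ≤ Real.pi * (2 * τ) := mul_le_mul_of_nonneg_left (by linarith) hpi.le
    linarith
  obtain ⟨k1, k2, k3, k4⟩ := const_ep hK00 D.ep_pos hD
  have habs := const_absorb (c := c) k2 (P := P) (K0 := K0) le_rfl k1
  obtain ⟨δ, T1, hδ, hmean⟩ := hM D τ θ k3 hτ hτ' hθ hθ8
  obtain ⟨T2, hxi⟩ := hX (20 * Yc D.ep) (by linarith)
  set L := Real.log (1 / D.ep) with hL
  have hL0 : 0 < L := by linarith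
  have hlogT : ∀ᶠ T in Filter.atTop, Real.pi * (J + 3) + 1 ≤ Real.log T :=
    Real.tendsto_log_atTop.eventually_ge_atTop _
  obtain ⟨T3, hT3⟩ := Filter.eventually_atTop.mp hlogT
  refine ⟨δ, max (max T1 T2) (max T3 8), hδ, fun T hT hFew => ?_⟩
  have hT1 : T1 ≤ T := le_trans (le_trans (le_max_left _ _) (le_max_left _ _)) hT
  have hT2 : T2 ≤ T := le_trans (le_trans (le_max_right _ _) (le_max_left _ _)) hT
  have hT3' : T3 ≤ T := le_trans (le_trans (le_max_left _ _) (le_max_right _ _)) hT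
  have hT8 : 8 ≤ T := le_trans (le_trans (le_max_right _ _) (le_max_right _ _)) hT
  have hlog := hT3 T hT3'
  have hlog1 : 1 ≤ Real.log T := by
    have : 0 ≤ Real.pi * (J + 3) := by positivity
    linarith
  have hlog0 : 0 < Real.log T := by linarith
  have hα : 0 < alp τ T := by unfold alp; positivity
  have hα2 : alp τ T * Real.log T = 2 * Real.pi * τ := by unfold alp; field_simp
  have hαle : alp τ T * (J + 3) ≤ 1 := by
    have h1 : alp τ T * (J + 3) = 2 * Real.pi * τ * (J + 3) / Real.log T := by unfold alp; ring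
    rw [h1, div_le_one hlog0]
    have h3 : 2 * Real.pi * τ * (J + 3) ≤ Real.pi * (J + 3) :=
      mul_le_mul_of_nonneg_right hA1 (by linarith)
    linarith
  obtain ⟨R, hRi, hR0, hRm, hR⟩ := hxi T hT2
  have hm := hmean T hT1 hFew
  have hlogΛ : 0 ≤ Real.log (20 * Yc D.ep) := Real.log_nonneg (by linarith)
  set Λ1 : ℝ := 1 + Real.log (20 * Yc D.ep) with hΛ1
  have hΛ10 : 0 < Λ1 := by linarith
  have hMR : 0 < c * Λ1 := by positivity
  set MQ := 2 * ((J + 6) * CM) / μ * L ^ 4 with hMQd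
  have hMQ : 0 < MQ := by positivity
  have b1 : volume.real {t | t ∈ Icc (5 * T / 4) (7 * T / 4) ∧ c * Λ1 ≤ R t} ≤
      C3 * Λ1 * T / (c * Λ1) := markov (by linarith) hMR hRi hR0 hRm
  have b2 := Qf_bad hRH hτ3 hα (bz_le hτ3 k4) J hαle hT8 hMQ hm
  refine ⟨{t | t ∈ Icc (5 * T / 4) (7 * T / 4) ∧ c * Λ1 ≤ R t} ∪
    {t | t ∈ Icc (5 * T / 4 + 1) (7 * T / 4 - 1) ∧ MQ ≤ Qf D τ T J t}, ?_, ?_, ?_⟩
  · refine (measureReal_union_le _ _).trans ?_
    have e1 : C3 * Λ1 * T / (c * Λ1) = μ / 2 * T := by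
      rw [hc]; field_simp
    have e2 : (J + 6) * (CM * L ^ 4 * T) / MQ = μ / 2 * T := by
      rw [hMQd]; field_simp
    rw [e1] at b1
    rw [e2] at b2
    linarith
  · rintro t (h | h)
    · exact h.1
    · exact ⟨by linarith [h.1.1], by linarith [h.1.2]⟩
  · intro t0 ht0 hS g1 g2 hg1 hg2 hg hd1 hd2 hdm
    rw [mem_union, not_or] at hS
    have ht0' : t0 ∈ Icc (5 * T / 4) (7 * T / 4) := ⟨by linarith [ht0.1], by linarith [ht0.2]⟩
    have h1 : R t0 < c * Λ1 := by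
      by_contra h
      exact hS.1 ⟨ht0', not_lt.mp h⟩
    have h2 : Qf D τ T J t0 < MQ := by
      by_contra h
      exact hS.2 ⟨ht0, not_lt.mp h⟩
    have hdiv : g2 / alp τ T - g1 / alp τ T = (g2 - g1) / alp τ T := by ring
    have hz := hZ (pz D τ T) (pz_differentiable D τ T) (g1 / alp τ T) (g2 / alp τ T)
      (t0 / alp τ T) (Yc D.ep) (2 * Yc D.ep) e (pz_zero D hα.ne' hg1) (pz_zero D hα.ne' hg2)
      (by rw [hdiv]; positivity) (by rw [hdiv, div_le_iff₀ hα]; exact hd2) he he1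
      (fun m => by rw [hdiv]; exact hdm m)
      (by
        have h3 : t0 / alp τ T - g1 / alp τ T = (t0 - g1) / alp τ T := by ring
        rw [h3, abs_div, abs_of_pos hα, div_le_iff₀ hα]
        linarith) k4 le_rfl
    have hp := Fb_point hRH (J := J) (C := C4) (e := e) (R := c * Λ1) hτ hτ' hlog0 k3 k4 hC4 he hg
      hz (by
        intro s hs1 hs2
        refine (hR t0 ht0' (alp τ T * Yc D.ep) ⟨?_, ?_⟩ s hs1 hs2).trans ?_
        · rw [div_le_iff₀ hlog0]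
          have h3 : alp τ T * Yc D.ep * Real.log T = 2 * Real.pi * τ * Yc D.ep := by
            rw [← hα2]; ring
          rw [h3]
          calc (1 : ℝ) = 1 * 1 := by ring
            _ ≤ 2 * Real.pi * τ * Yc D.ep := by gcongr
        · rw [le_div_iff₀ hlog0]
          have h3 : alp τ T * Yc D.ep * Real.log T = 2 * Real.pi * τ * Yc D.ep := by
            rw [← hα2]; ring
          rw [h3]
          exact mul_le_mul_of_nonneg_right (by linarith) (by linarith)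
        · have h3 : Real.exp (R t0) ≤ Real.exp (c * Λ1) := Real.exp_le_exp.mpr h1.le
          gcongr)
    refine hp.trans ?_
    have h3 : (∫ a in (-3)..((J : ℝ) + 3), Hf D τ T (t0 + alp τ T * a)) = Qf D τ T J t0 := rfl
    rw [h3]
    refine le_trans ?_ habs
    have h5 : Real.exp (c * Λ1 + 1) * (P * L ^ 4) = C4 / e * (Real.exp (c * Λ1 + 1) * MQ) := by
      rw [hP, hMQd]; ring
    rw [h5]
    have h6 : Real.exp (c * Λ1 + 1) * Qf D τ T J t0 ≤ Real.exp (c * Λ1 + 1) * MQ :=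
      mul_le_mul_of_nonneg_left h2.le (Real.exp_pos _).le
    exact mul_le_mul_of_nonneg_left h6 (by positivity)

lemma Few_mono {τ δ δ' θ T : ℝ} (h : Few τ δ θ T) (hd : δ ≤ δ') (hT : 0 ≤ T) : Few τ δ' θ T := by
  unfold Few at h ⊢
  exact h.trans (mul_le_mul_of_nonneg_right hd hT)

end Pool.Agent.AHD
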