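import Pool.Agent.ZGap.AH.A1

/-!
# Exponential approximation
-/

open scoped ContDiff

namespace Pool.Agent.AHD

section Comb

open Finset

/-- the integer with exponents `k` on the primes of `S` -/
def L2_nk (S : Finset ℕ) (k : ℕ → ℕ) : ℕ := ∏ p ∈ S, p ^ k p

theorem L2_nk_pos {S : Finset ℕ} (hS : ∀ p ∈ S, Nat.Prime p) (k : ℕ → ℕ) : 0 < L2_nk S k :=
  Finset.prod_pos fun p hp => pow_pos (hS p hp).pos _

theorem L2_nk_fact {S : Finset ℕ} (hS : ∀ p ∈ S, Nat.Prime p) (k : ℕ → ℕ) {p : ℕ} (hp : p ∈ S) :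
    (L2_nk S k).factorization p = k p := by
  unfold L2_nk
  rw [Nat.factorization_prod fun q hq => pow_ne_zero _ (hS q hq).ne_zero]
  rw [Finsupp.finset_sum_apply, Finset.sum_eq_single p]
  · rw [(hS p hp).factorization_pow, Finsupp.single_eq_same]
  · intro q hq hqp
    rw [(hS q hq).factorization_pow, Finsupp.single_eq_of_ne (Ne.symm hqp)]
  · intro h; exact absurd hp h

theorem L2_nk_cpow {S : Finset ℕ} (k : ℕ → ℕ) (s : ℂ) :
    ((L2_nk S k : ℕ) : ℂ) ^ s = ∏ p ∈ S, ((p : ℂ) ^ s) ^ k p := by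
  have h1 : ∀ (p m : ℕ), ((p ^ m : ℕ) : ℂ) ^ s = ((p : ℂ) ^ s) ^ m := by
    intro p m
    induction m with
    | zero => simp
    | succ m ih => rw [pow_succ, Nat.cast_mul, Complex.natCast_mul_natCast_cpow, ih, pow_succ]
  unfold L2_nk
  classical
  induction S using Finset.induction_on with
  | empty => simp
  | insert p S hp ih =>
    rw [Finset.prod_insert hp, Finset.prod_insert hp, Nat.cast_mul,
      Complex.natCast_mul_natCast_cpow, ih, h1]

theorem L2_pow_expand {S : Finset ℕ} (f : ℕ → ℝ) (s : ℂ) (j : ℕ) :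
    (-∑ p ∈ S, (f p : ℂ) * (p : ℂ) ^ s) ^ j / (j.factorial : ℂ) =
      ∑ k ∈ S.piAntidiag j, ((∏ p ∈ S, (-f p) ^ k p / (k p).factorial : ℝ) : ℂ) *
        ((L2_nk S k : ℕ) : ℂ) ^ s := by
  rw [← Finset.sum_neg_distrib, Finset.sum_pow_eq_sum_piAntidiag, Finset.sum_div]
  refine Finset.sum_congr rfl fun k hk => ?_
  rw [Finset.mem_piAntidiag] at hk
  have h1 := Nat.multinomial_spec S k
  rw [hk.1] at h1
  have h2 : (j.factorial : ℂ) = (∏ p ∈ S, ((k p).factorial : ℂ)) * (Nat.multinomial S k : ℂ) := by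
    rw [← h1]; push_cast; ring
  have h3 : (∏ p ∈ S, ((k p).factorial : ℂ)) ≠ 0 :=
    Finset.prod_ne_zero_iff.2 fun p _ => by exact_mod_cast (k p).factorial_ne_zero
  have h4 : (j.factorial : ℂ) ≠ 0 := by exact_mod_cast j.factorial_ne_zero
  have h5 : (Nat.multinomial S k : ℂ) ≠ 0 := by
    intro h0
    rw [h0, mul_zero] at h2
    exact h4 h2
  rw [L2_nk_cpow, h2]
  push_cast
  rw [Finset.prod_div_distrib]
  have h6 : ∏ p ∈ S, (-((f p : ℂ) * (p : ℂ) ^ s)) ^ k p =
      (∏ p ∈ S, (-(f p : ℂ)) ^ k p) * ∏ p ∈ S, ((p : ℂ) ^ s) ^ k p := by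
    rw [← Finset.prod_mul_distrib]
    refine Finset.prod_congr rfl fun p _ => ?_
    rw [← mul_pow]
    congr 1
    ring
  rw [h6]
  field_simp

open Classical in
/-- exponent vectors of total degree at most `J` -/
noncomputable def L2_KS (S : Finset ℕ) (J : ℕ) : Finset (ℕ → ℕ) :=
  (range (J + 1)).biUnion fun j => S.piAntidiag j

theorem L2_mem_KS {S : Finset ℕ} {J : ℕ} {k : ℕ → ℕ} :
    k ∈ L2_KS S J ↔ ∑ p ∈ S, k p ≤ J ∧ ∀ i, k i ≠ 0 → i ∈ S := by
  unfold L2_KS
  simp only [mem_biUnion, mem_range, mem_piAntidiag]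
  constructor
  · rintro ⟨j, hj, h1, h2⟩
    have h3 : ∑ p ∈ S, k p = j := h1
    exact ⟨by omega, h2⟩
  · rintro ⟨h1, h2⟩
    exact ⟨∑ p ∈ S, k p, by omega, rfl, h2⟩

theorem L2_nk_inj {S : Finset ℕ} (hS : ∀ p ∈ S, Nat.Prime p) (J : ℕ) :
    Set.InjOn (L2_nk S) (L2_KS S J : Set (ℕ → ℕ)) := by
  intro k hk k' hk' h
  rw [mem_coe, L2_mem_KS] at hk hk'
  funext p
  by_cases hp : p ∈ S
  · rw [← L2_nk_fact hS k hp, ← L2_nk_fact hS k' hp, h]
  · have h1 : k p = 0 := by
      by_contra h0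
      exact hp (hk.2 p h0)
    have h2 : k' p = 0 := by
      by_contra h0
      exact hp (hk'.2 p h0)
    rw [h1, h2]

/-- the integers with all prime factors in `S` and at most `J` prime factors -/
noncomputable def L2_NS (S : Finset ℕ) (J : ℕ) : Finset ℕ := (L2_KS S J).image (L2_nk S)

/-- coefficients of the truncated exponential -/
noncomputable def L2_q (S : Finset ℕ) (f : ℕ → ℝ) (n : ℕ) : ℝ :=
  ∏ p ∈ S, (-f p) ^ n.factorization p / (n.factorization p).factorial

theorem L2_expand {S : Finset ℕ} (hS : ∀ p ∈ S, Nat.Prime p) (f : ℕ → ℝ) (s : ℂ) (J : ℕ) :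
    ∑ j ∈ range (J + 1), (-∑ p ∈ S, (f p : ℂ) * (p : ℂ) ^ s) ^ j / (j.factorial : ℂ) =
      ∑ n ∈ L2_NS S J, (L2_q S f n : ℂ) * (n : ℂ) ^ s := by
  classical
  unfold L2_NS
  rw [Finset.sum_image (L2_nk_inj hS J)]
  unfold L2_KS
  rw [Finset.sum_biUnion]
  · refine Finset.sum_congr rfl fun j _ => ?_
    rw [L2_pow_expand]
    refine Finset.sum_congr rfl fun k _ => ?_
    congr 2
    unfold L2_q
    refine Finset.prod_congr rfl fun p hp => ?_
    rw [L2_nk_fact hS k hp]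
  · intro j _ j' _ hjj
    simp only [Function.onFun]
    rw [Finset.disjoint_left]
    intro k hk hk'
    rw [mem_piAntidiag] at hk hk'
    exact hjj (hk.1.symm.trans hk'.1)

theorem L2_NS_primeFactors {S : Finset ℕ} (hS : ∀ p ∈ S, Nat.Prime p) {J n : ℕ}
    (hn : n ∈ L2_NS S J) : n ≠ 0 ∧ n.primeFactors ⊆ S := by
  unfold L2_NS at hn
  rw [mem_image] at hn
  obtain ⟨k, hk, rfl⟩ := hn
  rw [L2_mem_KS] at hk
  refine ⟨(L2_nk_pos hS k).ne', fun p hp => ?_⟩
  have hp1 := Nat.prime_of_mem_primeFactors hp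
  have hp2 := Nat.dvd_of_mem_primeFactors hp
  unfold L2_nk at hp2
  rw [Prime.dvd_finset_prod_iff hp1.prime] at hp2
  obtain ⟨q, hq, h⟩ := hp2
  have := (Nat.prime_dvd_prime_iff_eq hp1 (hS q hq)).1 (hp1.dvd_of_dvd_pow h)
  rwa [this]

theorem L2_NS_le {S : Finset ℕ} {J n : ℕ} {B : ℝ} (hB : 1 ≤ B)
    (hSB : ∀ p ∈ S, (p : ℝ) ≤ B) (hn : n ∈ L2_NS S J) : (n : ℝ) ≤ B ^ J := by
  unfold L2_NS at hn
  rw [mem_image] at hn
  obtain ⟨k, hk, rfl⟩ := hn
  rw [L2_mem_KS] at hk
  unfold L2_nk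
  push_cast
  calc ∏ p ∈ S, (p : ℝ) ^ k p ≤ ∏ p ∈ S, B ^ k p :=
        Finset.prod_le_prod (fun p _ => by positivity)
          (fun p hp => pow_le_pow_left₀ (by positivity) (hSB p hp) _)
    _ = B ^ ∑ p ∈ S, k p := by rw [Finset.prod_pow_eq_pow_sum]
    _ ≤ B ^ J := pow_le_pow_right₀ hB hk.1

/-- membership by the factorization -/
theorem L2_mem_NS {S : Finset ℕ} (hS : ∀ p ∈ S, Nat.Prime p) {J n : ℕ} (hn0 : n ≠ 0)
    (h1 : n.primeFactors ⊆ S) (h2 : ∑ p ∈ S, n.factorization p ≤ J) : n ∈ L2_NS S J := by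
  unfold L2_NS
  rw [mem_image]
  refine ⟨fun p => n.factorization p, ?_, ?_⟩
  · rw [L2_mem_KS]
    refine ⟨h2, fun i hi => h1 ?_⟩
    rw [← Nat.support_factorization, Finsupp.mem_support_iff]
    exact hi
  · unfold L2_nk
    have h3 := Nat.factorization_prod_pow_eq_self hn0
    conv_rhs => rw [← h3]
    rw [Finsupp.prod, Nat.support_factorization]
    symm
    refine Finset.prod_subset h1 fun p _ hp => ?_
    rw [← Nat.support_factorization, Finsupp.notMem_support_iff] at hp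
    rw [hp, pow_zero]

theorem L2_fact_sum {S : Finset ℕ} (hS : ∀ p ∈ S, Nat.Prime p) {J n : ℕ}
    (hn : n ∈ L2_NS S J) : ∑ p ∈ S, n.factorization p ≤ J := by
  unfold L2_NS at hn
  rw [mem_image] at hn
  obtain ⟨k, hk, rfl⟩ := hn
  rw [L2_mem_KS] at hk
  refine le_trans (le_of_eq ?_) hk.1
  exact Finset.sum_congr rfl fun p hp => L2_nk_fact hS k hp

theorem L2_sqf_mem {S : Finset ℕ} (hS : ∀ p ∈ S, Nat.Prime p) {J n : ℕ} (hn : Squarefree n)
    (h1 : n.primeFactors ⊆ S) (h2 : n.primeFactors.card ≤ J) : n ∈ L2_NS S J := by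
  refine L2_mem_NS hS hn.ne_zero h1 (le_trans (le_of_eq ?_) h2)
  rw [← Finset.sum_subset h1]
  · rw [Finset.card_eq_sum_ones]
    refine Finset.sum_congr rfl fun p hp => ?_
    exact Nat.factorization_eq_one_of_squarefree hn (Nat.prime_of_mem_primeFactors hp)
      (Nat.dvd_of_mem_primeFactors hp)
  · intro p _ hp
    rwa [← Nat.support_factorization, Finsupp.notMem_support_iff] at hp

/-- for squarefree numbers the coefficient is the Möbius function times the product -/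
theorem L2_q_sqf {S : Finset ℕ} (f : ℕ → ℝ) {n : ℕ} (hn : Squarefree n)
    (h1 : n.primeFactors ⊆ S) :
    L2_q S f n = (ArithmeticFunction.moebius n : ℝ) * ∏ p ∈ n.primeFactors, f p := by
  have h3 : (ArithmeticFunction.moebius n : ℝ) = ∏ p ∈ n.primeFactors, (-1 : ℝ) := by
    rw [ArithmeticFunction.moebius_apply_of_squarefree hn,
      ← (ArithmeticFunction.cardDistinctFactors_eq_cardFactors_iff_squarefree hn.ne_zero).2 hn,
      Finset.prod_const, ArithmeticFunction.cardDistinctFactors_apply]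
    push_cast
    rw [← List.card_toFinset, Nat.primeFactors]
  rw [h3, ← Finset.prod_mul_distrib]
  unfold L2_q
  rw [← Finset.prod_subset h1]
  · refine Finset.prod_congr rfl fun p hp => ?_
    rw [Nat.factorization_eq_one_of_squarefree hn (Nat.prime_of_mem_primeFactors hp)
      (Nat.dvd_of_mem_primeFactors hp)]
    simp
  · intro p _ hp
    rw [← Nat.support_factorization, Finsupp.notMem_support_iff] at hp
    rw [hp]
    simp

theorem L2_q_abs {S : Finset ℕ} {f : ℕ → ℝ} (h0 : ∀ p, 0 ≤ f p) (h1 : ∀ p, f p ≤ 1) (n : ℕ) :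
    |L2_q S f n| ≤ 1 := by
  unfold L2_q
  rw [Finset.abs_prod]
  refine Finset.prod_le_one (fun p _ => abs_nonneg _) fun p _ => ?_
  rw [abs_div, abs_pow, abs_neg, abs_of_nonneg (h0 p), Nat.abs_cast]
  rw [div_le_one (by exact_mod_cast Nat.factorial_pos _)]
  calc f p ^ n.factorization p ≤ 1 := pow_le_one₀ (h0 p) (h1 p)
    _ ≤ _ := by exact_mod_cast Nat.factorial_pos _

/-- sum of `1/n` over `NS` -/
theorem L2_sum_NS {S : Finset ℕ} (hS : ∀ p ∈ S, Nat.Prime p) (J : ℕ) :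
    ∑ n ∈ L2_NS S J, (1 : ℝ) / n ≤ ∑ j ∈ range (J + 1), (∑ p ∈ S, (1 : ℝ) / p) ^ j := by
  classical
  unfold L2_NS
  rw [Finset.sum_image (L2_nk_inj hS J)]
  unfold L2_KS
  rw [Finset.sum_biUnion]
  · refine Finset.sum_le_sum fun j _ => ?_
    rw [Finset.sum_pow_eq_sum_piAntidiag]
    refine Finset.sum_le_sum fun k hk => ?_
    have h1 : (1 : ℝ) / (L2_nk S k : ℕ) = ∏ p ∈ S, ((1 : ℝ) / p) ^ k p := by
      unfold L2_nk
      push_cast
      rw [one_div, ← Finset.prod_inv_distrib]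
      refine Finset.prod_congr rfl fun p _ => ?_
      rw [one_div, inv_pow]
    rw [h1]
    have h2 : (1 : ℝ) ≤ (Nat.multinomial S k : ℝ) := by
      exact_mod_cast Nat.multinomial_pos S k
    have h3 : 0 ≤ ∏ p ∈ S, ((1 : ℝ) / p) ^ k p := Finset.prod_nonneg fun p _ => by positivity
    nlinarith
  · intro j _ j' _ hjj
    simp only [Function.onFun]
    rw [Finset.disjoint_left]
    intro k hk hk'
    rw [mem_piAntidiag] at hk hk'
    exact hjj (hk.1.symm.trans hk'.1)

/-- non-squarefree numbers -/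
theorem L2_sum_nonsqf {S : Finset ℕ} (hS : ∀ p ∈ S, Nat.Prime p) (J : ℕ) {A P : ℝ}
    (hA : 0 < A) (hSA : ∀ p ∈ S, A ≤ (p : ℝ)) (hP : ∑ p ∈ S, (1 : ℝ) / p ≤ P) :
    ∑ n ∈ (L2_NS S J).filter (fun n => ¬ Squarefree n), (1 : ℝ) / n ≤
      P / A * ∑ j ∈ range (J + 1), P ^ j := by
  classical
  have hP0 : 0 ≤ ∑ p ∈ S, (1 : ℝ) / p := Finset.sum_nonneg fun p _ => by positivity
  have h1 : ∀ n : ℕ, n ∈ (L2_NS S J).filter (fun n => ¬ Squarefree n) →
      ∃ x ∈ S ×ˢ L2_NS S J, n = x.1 ^ 2 * x.2 := by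
    intro n hn
    rw [mem_filter] at hn
    obtain ⟨h0, hsub⟩ := L2_NS_primeFactors hS hn.1
    have h2 := hn.2
    rw [Nat.squarefree_iff_prime_squarefree] at h2
    push Not at h2
    obtain ⟨p, hp, hpn⟩ := h2
    obtain ⟨m, hm⟩ := hpn
    have hm0 : m ≠ 0 := by rintro rfl; rw [mul_zero] at hm; exact h0 hm
    have hpS : p ∈ S := hsub (Nat.mem_primeFactors.2 ⟨hp, ⟨p * m, by rw [hm]; ring⟩, h0⟩)
    have hmn : m ∣ n := ⟨p * p, by rw [hm]; ring⟩
    refine ⟨(p, m), Finset.mem_product.2 ⟨hpS, ?_⟩, by rw [hm]; ring⟩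
    refine L2_mem_NS hS hm0 ((Nat.primeFactors_mono hmn h0).trans hsub) ?_
    refine le_trans (Finset.sum_le_sum fun q _ => ?_) (L2_fact_sum hS hn.1)
    exact (Nat.factorization_le_iff_dvd hm0 h0).2 hmn q
  have h2 : (L2_NS S J).filter (fun n => ¬ Squarefree n) ⊆
      (S ×ˢ L2_NS S J).image (fun x : ℕ × ℕ => x.1 ^ 2 * x.2) := by
    intro n hn
    obtain ⟨x, hx, rfl⟩ := h1 n hn
    exact mem_image_of_mem _ hx
  have h3 : ∑ p ∈ S, (1 : ℝ) / (p : ℝ) ^ 2 ≤ P / A := by
    calc ∑ p ∈ S, (1 : ℝ) / (p : ℝ) ^ 2 ≤ ∑ p ∈ S, (1 : ℝ) / p * (1 / A) := by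
          refine Finset.sum_le_sum fun p hp => ?_
          have hp1 := hSA p hp
          have hp0 : (0 : ℝ) < p := lt_of_lt_of_le hA hp1
          rw [div_mul_div_comm, one_mul, sq]
          exact one_div_le_one_div_of_le (by positivity) (mul_le_mul_of_nonneg_left hp1 hp0.le)
      _ = (∑ p ∈ S, (1 : ℝ) / p) * (1 / A) := by rw [Finset.sum_mul]
      _ ≤ P * (1 / A) := mul_le_mul_of_nonneg_right hP (by positivity)
      _ = P / A := by ring
  calc ∑ n ∈ (L2_NS S J).filter (fun n => ¬ Squarefree n), (1 : ℝ) / n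
      ≤ ∑ n ∈ (S ×ˢ L2_NS S J).image (fun x : ℕ × ℕ => x.1 ^ 2 * x.2), (1 : ℝ) / (n : ℕ) :=
        Finset.sum_le_sum_of_subset_of_nonneg h2 fun n _ _ => by positivity
    _ ≤ ∑ x ∈ S ×ˢ L2_NS S J, (1 : ℝ) / ((x.1 ^ 2 * x.2 : ℕ) : ℝ) := by
        refine Finset.sum_image_le_of_nonneg ?_
        intro x _
        positivity
    _ = (∑ p ∈ S, (1 : ℝ) / (p : ℝ) ^ 2) * ∑ n ∈ L2_NS S J, (1 : ℝ) / n := by
        rw [Finset.sum_product, Finset.sum_mul]
        refine Finset.sum_congr rfl fun p _ => ?_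
        rw [Finset.mul_sum]
        refine Finset.sum_congr rfl fun n _ => ?_
        push_cast
        rw [div_mul_div_comm, one_mul]
    _ ≤ P / A * ∑ j ∈ range (J + 1), P ^ j := by
        refine mul_le_mul h3 ((L2_sum_NS hS J).trans ?_) ?_ ?_
        · exact Finset.sum_le_sum fun j _ => pow_le_pow_left₀ hP0 hP j
        · exact Finset.sum_nonneg fun n _ => by positivity
        · exact div_nonneg (hP0.trans hP) hA.le

/-- many prime factors -/
theorem L2_sum_many {S : Finset ℕ} {N J : ℕ} {P : ℝ} (hP : ∑ p ∈ S, (1 : ℝ) / p ≤ P) :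
    ∑ n ∈ (Icc 1 N).filter (fun n => Squarefree n ∧ n.primeFactors ⊆ S ∧
      J < n.primeFactors.card), (1 : ℝ) / n ≤ Real.exp (Real.exp 1 * P - J) := by
  classical
  have h1 : ∀ n ∈ (Icc 1 N).filter (fun n => Squarefree n ∧ n.primeFactors ⊆ S ∧
      J < n.primeFactors.card), (1 : ℝ) / n ≤ Real.exp (-(J : ℝ)) *
        ∏ p ∈ n.primeFactors, (Real.exp 1 / p) := by
    intro n hn
    rw [mem_filter] at hn
    obtain ⟨-, h2, -, h3⟩ := hn
    rw [Finset.prod_div_distrib, Finset.prod_const]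
    have h4 : (∏ p ∈ n.primeFactors, (p : ℝ)) = (n : ℝ) := by
      have h40 := Nat.prod_primeFactors_of_squarefree h2
      have h41 : (∏ p ∈ n.primeFactors, (p : ℝ)) = ((∏ p ∈ n.primeFactors, p : ℕ) : ℝ) := by
        push_cast
        rfl
      rw [h41, h40]
    rw [h4, ← mul_div_assoc]
    refine div_le_div_of_nonneg_right ?_ (Nat.cast_nonneg n)
    rw [← Real.exp_nat_mul, ← Real.exp_add]
    refine Real.one_le_exp ?_
    have : (J : ℝ) ≤ n.primeFactors.card := by exact_mod_cast h3.le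
    linarith
  refine (Finset.sum_le_sum h1).trans ?_
  rw [← Finset.mul_sum]
  have h5 : ∑ n ∈ (Icc 1 N).filter (fun n => Squarefree n ∧ n.primeFactors ⊆ S ∧
      J < n.primeFactors.card), ∏ p ∈ n.primeFactors, (Real.exp 1 / (p : ℝ)) ≤
      ∑ t ∈ S.powerset, ∏ p ∈ t, (Real.exp 1 / (p : ℝ)) := by
    have hinj : Set.InjOn (fun n : ℕ => n.primeFactors)
        ((Icc 1 N).filter (fun n => Squarefree n ∧ n.primeFactors ⊆ S ∧
          J < n.primeFactors.card) : Set ℕ) := by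
      intro n hn m hm h
      rw [mem_coe, mem_filter] at hn hm
      rw [← Nat.prod_primeFactors_of_squarefree hn.2.1,
        ← Nat.prod_primeFactors_of_squarefree hm.2.1]
      simp only at h
      rw [h]
    have h50 := Finset.sum_image (g := fun n : ℕ => n.primeFactors)
      (f := fun t : Finset ℕ => ∏ p ∈ t, (Real.exp 1 / (p : ℝ))) hinj
    rw [← h50]
    refine Finset.sum_le_sum_of_subset_of_nonneg ?_ fun t _ _ =>
      Finset.prod_nonneg fun p _ => by positivity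
    intro t ht
    rw [mem_image] at ht
    obtain ⟨n, hn, rfl⟩ := ht
    rw [mem_filter] at hn
    exact mem_powerset.2 hn.2.2.1
  have h6 : ∑ t ∈ S.powerset, ∏ p ∈ t, (Real.exp 1 / (p : ℝ)) =
      ∏ p ∈ S, (1 + Real.exp 1 / (p : ℝ)) := (Finset.prod_one_add _).symm
  have h7 : ∏ p ∈ S, (1 + Real.exp 1 / (p : ℝ)) ≤ Real.exp (Real.exp 1 * P) := by
    calc ∏ p ∈ S, (1 + Real.exp 1 / (p : ℝ)) ≤ ∏ p ∈ S, Real.exp (Real.exp 1 / (p : ℝ)) := by
          refine Finset.prod_le_prod (fun p _ => by positivity) fun p _ => ?_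
          have := Real.add_one_le_exp (Real.exp 1 / (p : ℝ))
          linarith
      _ = Real.exp (Real.exp 1 * ∑ p ∈ S, (1 : ℝ) / p) := by
          rw [← Real.exp_sum, Finset.mul_sum]
          congr 1
          refine Finset.sum_congr rfl fun p _ => ?_
          ring
      _ ≤ _ := Real.exp_le_exp.2 (mul_le_mul_of_nonneg_left hP (Real.exp_pos _).le)
  calc Real.exp (-(J : ℝ)) * _ ≤ Real.exp (-(J : ℝ)) * Real.exp (Real.exp 1 * P) :=
        mul_le_mul_of_nonneg_left (h5.trans (h6.le.trans h7)) (Real.exp_pos _).le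
    _ = _ := by rw [← Real.exp_add]; congr 1; ring



end Comb


open Complex MeasureTheory Set Pool.Agent.Hadamard Pool.Agent.HalfGap

/-- mean value theorem on the line `1/2 + δ` -/
theorem L2_mvt {N : ℕ} {T δ : ℝ} (hT : 0 < T) (hN : (N : ℝ) ≤ 2 * T) (c : ℕ → ℂ) :
    ∫ t in T..(2 * T), ‖∑ n ∈ Finset.Icc 1 N, c n * (n : ℂ) ^ (-(ss δ t))‖ ^ 2 ≤
      5 * Real.pi * T * ∑ n ∈ Finset.Icc 1 N, ‖c n‖ ^ 2 * (n : ℝ) ^ (-(1 + 2 * δ)) := by
  set a : ℕ → ℂ := fun n => c n * (((n : ℝ) ^ (-(1 / 2 + δ)) : ℝ) : ℂ) with ha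
  have h1 : ∀ t : ℝ, ∑ n ∈ Finset.Icc 1 N, c n * (n : ℂ) ^ (-(ss δ t)) =
      ∑ n ∈ Finset.Icc 1 N, a n * (n : ℂ) ^ (-(t * I) : ℂ) := by
    intro t
    refine Finset.sum_congr rfl fun n hn => ?_
    have hn0 : (n : ℂ) ≠ 0 := by
      have := (Finset.mem_Icc.mp hn).1
      exact_mod_cast (by omega : n ≠ 0)
    rw [ha]
    simp only
    rw [mul_assoc]
    congr 1
    rw [Complex.ofReal_cpow (Nat.cast_nonneg n), Complex.ofReal_natCast, ← Complex.cpow_add _ _ hn0]
    congr 1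
    unfold ss
    push_cast
    ring
  have h2 : ∀ n ∈ Finset.Icc 1 N, ‖a n‖ ^ 2 = ‖c n‖ ^ 2 * (n : ℝ) ^ (-(1 + 2 * δ)) := by
    intro n hn
    have hn0 : (0 : ℝ) < n := by
      have := (Finset.mem_Icc.mp hn).1
      exact_mod_cast (by omega : 0 < n)
    rw [ha]
    simp only
    rw [norm_mul, mul_pow, Complex.norm_real, Real.norm_eq_abs,
      abs_of_pos (Real.rpow_pos_of_pos hn0 _)]
    congr 1
    rw [← Real.rpow_natCast ((n : ℝ) ^ _), ← Real.rpow_mul hn0.le]
    congr 1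
    push_cast
    ring
  have h3 := dirichlet_mean_value (N := N) (T := 2 * T) (by linarith) hN a
  rw [Finset.sum_congr rfl h2] at h3
  have hint : Integrable (fun t : ℝ => ‖∑ n ∈ Finset.Icc 1 N, a n * (n : ℂ) ^ (-(t * I) : ℂ)‖ ^ 2 *
      fejerW (t / (2 * T))) := by
    have h4 := fejer_integrable (Finset.Icc 1 N) (fun n : ℕ => Real.log n) a (T := 2 * T)
      (by linarith)
    refine h4.congr (Filter.Eventually.of_forall fun t => ?_)
    simp only
    congr 3
    refine Finset.sum_congr rfl fun n hn => ?_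
    have hn0 : (n:ℂ) ≠ 0 := by
      have := (Finset.mem_Icc.mp hn).1
      exact_mod_cast (by omega : n ≠ 0)
    rw [Complex.cpow_def_of_ne_zero hn0, ← Complex.ofReal_natCast,
      ← Complex.ofReal_log (Nat.cast_nonneg n)]
    congr 2
    push_cast
    ring
  have hnn : ∀ t : ℝ, 0 ≤ ‖∑ n ∈ Finset.Icc 1 N, a n * (n : ℂ) ^ (-(t * I) : ℂ)‖ ^ 2 *
      fejerW (t / (2 * T)) := fun t => mul_nonneg (by positivity) (fejerW_nonneg _)
  have hcont : Continuous (fun t : ℝ => ‖∑ n ∈ Finset.Icc 1 N, a n * (n : ℂ) ^ (-(t * I) : ℂ)‖ ^ 2) := by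
    refine (Continuous.norm ?_).pow 2
    refine continuous_finset_sum _ fun n hn => ?_
    have hn0 : (n : ℂ) ≠ 0 := by
      have := (Finset.mem_Icc.mp hn).1
      exact_mod_cast (by omega : n ≠ 0)
    refine continuous_const.mul ?_
    refine Continuous.const_cpow ?_ (Or.inl hn0)
    fun_prop
  have hTT : T ≤ 2 * T := by linarith
  calc ∫ t in T..(2 * T), ‖∑ n ∈ Finset.Icc 1 N, c n * (n : ℂ) ^ (-(ss δ t))‖ ^ 2
      = ∫ t in T..(2 * T), ‖∑ n ∈ Finset.Icc 1 N, a n * (n : ℂ) ^ (-(t * I) : ℂ)‖ ^ 2 := by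
        refine intervalIntegral.integral_congr fun t _ => ?_
        rw [h1 t]
    _ ≤ ∫ t in T..(2 * T), ‖∑ n ∈ Finset.Icc 1 N, a n * (n : ℂ) ^ (-(t * I) : ℂ)‖ ^ 2 *
          fejerW (t / (2 * T)) := by
        refine intervalIntegral.integral_mono_on hTT (hcont.intervalIntegrable _ _)
          hint.intervalIntegrable fun t ht => ?_
        have h5 : 1 ≤ fejerW (t / (2 * T)) := by
          refine fejerW_ge_one ?_
          rw [abs_of_nonneg (div_nonneg (by linarith [ht.1]) (by linarith)),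
            div_le_one (by linarith)]
          exact ht.2
        have h6 : 0 ≤ ‖∑ n ∈ Finset.Icc 1 N, a n * (n : ℂ) ^ (-(t * I) : ℂ)‖ ^ 2 := by positivity
        nlinarith
    _ ≤ ∫ t : ℝ, ‖∑ n ∈ Finset.Icc 1 N, a n * (n : ℂ) ^ (-(t * I) : ℂ)‖ ^ 2 *
          fejerW (t / (2 * T)) := by
        rw [intervalIntegral.integral_of_le hTT]
        exact setIntegral_le_integral hint (Filter.Eventually.of_forall hnn)
    _ = _ := by
        rw [h3]
        ring

/-! ### The main estimate -/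

/-- the primes occurring in `XXp` -/
noncomputable def L2_S (D : AData) (T : ℝ) : Finset ℕ :=
  ((Finset.Icc 1 ⌊T ^ (1 / (4 * (Jd D.ep : ℝ)))⌋₊).filter Nat.Prime).filter
    (fun p => D.f (xip T p) ≠ 0)

theorem L2_S_prime {D : AData} {T : ℝ} : ∀ p ∈ L2_S D T, Nat.Prime p := by
  intro p hp
  unfold L2_S at hp
  rw [Finset.mem_filter, Finset.mem_filter] at hp
  exact hp.1.2

theorem L2_XXp (D : AData) (T τ t : ℝ) :
    XXp D T τ t = ∑ p ∈ L2_S D T, (D.f (xip T p) : ℂ) * (p : ℂ) ^ (-(ss (alp τ T * Yc D.ep) t)) := by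
  unfold XXp L2_S
  symm
  refine Finset.sum_filter_of_ne ?_
  intro p _ hne h0
  apply hne
  rw [h0]
  simp

theorem L2_S_le {D : AData} {T : ℝ} (hT : 0 < T) {p : ℕ} (hp : p ∈ L2_S D T) :
    (p : ℝ) ≤ T ^ (1 / (4 * (Jd D.ep : ℝ))) := by
  unfold L2_S at hp
  rw [Finset.mem_filter, Finset.mem_filter, Finset.mem_Icc] at hp
  exact (Nat.le_floor_iff (Real.rpow_nonneg hT.le _)).1 hp.1.1.2

theorem L2_S_gt {D : AData} {T : ℝ} (hT : 1 < T) {p : ℕ} (hp : p ∈ L2_S D T) :
    T ^ D.ep < (p : ℝ) := by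
  have hpp := L2_S_prime p hp
  unfold L2_S at hp
  rw [Finset.mem_filter] at hp
  have h1 : D.ep < xip T p := by
    by_contra h
    exact hp.2 (D.f_low _ (not_lt.1 h))
  unfold xip at h1
  have hL : 0 < Real.log T := Real.log_pos hT
  have hp0 : (0 : ℝ) < p := by exact_mod_cast hpp.pos
  rw [lt_div_iff₀ hL] at h1
  rw [Real.rpow_def_of_pos (by linarith), ← Real.lt_log_iff_exp_lt hp0]
  linarith

theorem L2_S_sub {D : AData} {T : ℝ} (hT : 1 < T) : L2_S D T ⊆ PR T D.ep 1 := by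
  intro p hp
  unfold PR
  rw [Finset.mem_filter, Finset.mem_Ioc]
  refine ⟨⟨?_, ?_⟩, L2_S_prime p hp⟩
  · exact (Nat.floor_lt (Real.rpow_nonneg (by linarith) _)).2 (L2_S_gt hT hp)
  · refine Nat.le_floor ((L2_S_le (by linarith) hp).trans ?_)
    refine Real.rpow_le_rpow_of_exponent_le hT.le ?_
    have h1 : (1 : ℝ) ≤ (Jd D.ep : ℝ) ∨ (Jd D.ep : ℝ) = 0 := by
      rcases Nat.eq_zero_or_pos (Jd D.ep) with h | h
      · right; rw [h]; simp
      · left; exact_mod_cast h
    rcases h1 with h1 | h1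
    · rw [div_le_one (by linarith)]
      linarith
    · rw [h1]; norm_num

theorem L2_ell {e : ℝ} (h0 : 0 < e) (h1 : e ≤ 1 / 100) : 4 ≤ Real.log (1 / e) := by
  have h2 : (100 : ℝ) ≤ 1 / e := by
    rw [le_div_iff₀ h0]; linarith
  have h3 : Real.exp 4 ≤ 100 := by
    have h4 : Real.exp 1 < 3 := by
      have := Real.exp_one_lt_d9
      linarith
    have h5 : Real.exp 4 = Real.exp 1 ^ 4 := by
      rw [← Real.exp_nat_mul]; norm_num
    rw [h5]
    calc Real.exp 1 ^ 4 ≤ 3 ^ 4 := pow_le_pow_left₀ (Real.exp_pos _).le h4.le 4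
      _ ≤ 100 := by norm_num
  rw [Real.le_log_iff_exp_le (by positivity)]
  linarith

theorem L2_Jd {e : ℝ} (h0 : 0 < e) (h1 : e ≤ 1 / 100) :
    8 * Real.log (1 / e) + 8 ≤ (Jd e : ℝ) ∧ (Jd e : ℝ) ≤ 12 * Real.log (1 / e) := by
  have h2 := L2_ell h0 h1
  unfold Jd
  refine ⟨Nat.le_ceil _, ?_⟩
  have := (Nat.ceil_lt_add_one (a := 8 * Real.log (1 / e) + 8) (by linarith)).le
  linarith

/-- the coefficients of the difference -/
noncomputable def L2_c (D : AData) (T : ℝ) (n : ℕ) : ℝ :=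
  open Classical in
  av D T n - if n ∈ L2_NS (L2_S D T) (Jd D.ep) then
    L2_q (L2_S D T) (fun p => D.f (xip T p)) n else 0

theorem L2_NS_small {D : AData} {T : ℝ} (hT : 1 < T) {n : ℕ}
    (hn : n ∈ L2_NS (L2_S D T) (Jd D.ep)) : 1 ≤ n ∧ (n : ℝ) ≤ T ^ (1 / 4 : ℝ) := by
  have h0 := L2_NS_primeFactors L2_S_prime hn
  refine ⟨Nat.one_le_iff_ne_zero.2 h0.1, ?_⟩
  obtain ⟨hJ1, -⟩ := L2_Jd D.ep_pos D.ep_le
  have hl := L2_ell D.ep_pos D.ep_le
  have hJ : (0 : ℝ) < (Jd D.ep : ℝ) := by linarith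
  have h1 := L2_NS_le (B := T ^ (1 / (4 * (Jd D.ep : ℝ))))
    (Real.one_le_rpow hT.le (by positivity)) (fun p hp => L2_S_le (by linarith) hp) hn
  refine h1.trans (le_of_eq ?_)
  rw [← Real.rpow_natCast, ← Real.rpow_mul (by linarith)]
  congr 1
  field_simp

theorem L2_NS_sub {D : AData} {T : ℝ} (hT : 1 < T) :
    L2_NS (L2_S D T) (Jd D.ep) ⊆ Finset.Icc 1 (XN D T) := by
  intro n hn
  obtain ⟨h1, h2⟩ := L2_NS_small hT hn
  rw [Finset.mem_Icc]
  refine ⟨h1, Nat.le_floor (h2.trans ?_)⟩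
  refine Real.rpow_le_rpow_of_exponent_le hT.le ?_
  have := D.ep_le
  linarith

theorem L2_diff (D : AData) {T : ℝ} (hT : 1 < T) (τ t : ℝ) :
    Vs D T (ss (alp τ T * Yc D.ep) t) - Qe D T τ t =
      ∑ n ∈ Finset.Icc 1 (XN D T), ((L2_c D T n : ℝ) : ℂ) *
        (n : ℂ) ^ (-(ss (alp τ T * Yc D.ep) t)) := by
  classical
  unfold Vs Qe
  rw [L2_XXp, L2_expand L2_S_prime (fun p => D.f (xip T p))]
  have h1 : ∑ n ∈ L2_NS (L2_S D T) (Jd D.ep),
      (L2_q (L2_S D T) (fun p => D.f (xip T p)) n : ℂ) *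
        (n : ℂ) ^ (-(ss (alp τ T * Yc D.ep) t)) =
      ∑ n ∈ Finset.Icc 1 (XN D T), ((if n ∈ L2_NS (L2_S D T) (Jd D.ep) then
        L2_q (L2_S D T) (fun p => D.f (xip T p)) n else 0 : ℝ) : ℂ) *
        (n : ℂ) ^ (-(ss (alp τ T * Yc D.ep) t)) := by
    rw [← Finset.sum_subset (L2_NS_sub hT)]
    · refine Finset.sum_congr rfl fun n hn => ?_
      rw [if_pos hn]
    · intro n _ hn
      rw [if_neg hn]
      simp
  rw [h1, ← Finset.sum_sub_distrib]
  refine Finset.sum_congr rfl fun n _ => ?_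
  unfold L2_c
  push_cast
  ring

theorem L2_xip_nonneg {T : ℝ} (hT : 1 < T) (p : ℕ) : 0 ≤ xip T p :=
  div_nonneg (Real.log_natCast_nonneg p) (Real.log_pos hT).le

theorem L2_av_le_one (D : AData) (T : ℝ) (n : ℕ) : |av D T n| ≤ 1 := by
  unfold av
  rw [abs_mul, abs_mul, Finset.abs_prod]
  have h1 : |(ArithmeticFunction.moebius n : ℝ)| ≤ 1 := by
    exact_mod_cast ArithmeticFunction.abs_moebius_le_one
  have h2 : ∏ p ∈ n.primeFactors, |D.f (Real.log p / Real.log T)| ≤ 1 :=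
    Finset.prod_le_one (fun _ _ => abs_nonneg _) fun p _ => by
      rw [abs_of_nonneg (D.f_nonneg _)]; exact D.f_le _
  have h3 : |D.F (Real.log n / Real.log T)| ≤ 1 := by
    rw [abs_of_nonneg (D.F_nonneg _)]; exact D.F_le _
  have h4 : 0 ≤ ∏ p ∈ n.primeFactors, |D.f (Real.log p / Real.log T)| :=
    Finset.prod_nonneg fun _ _ => abs_nonneg _
  calc _ ≤ (1 : ℝ) * 1 * 1 := by
        refine mul_le_mul (mul_le_mul h1 h2 h4 zero_le_one) h3 (abs_nonneg _) (by norm_num)
    _ = 1 := by norm_num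

theorem L2_av_le_Gb (D : AData) {T : ℝ} (hT : 1 < T) (n : ℕ) : |av D T n| ≤ Gb D T n := by
  unfold av Gb
  rw [abs_mul, abs_mul, Finset.abs_prod]
  have h1 : |(ArithmeticFunction.moebius n : ℝ)| ≤ 1 := by
    exact_mod_cast ArithmeticFunction.abs_moebius_le_one
  have h2 : ∏ p ∈ n.primeFactors, |D.f (Real.log p / Real.log T)| ≤
      ∏ p ∈ n.primeFactors, Gp D T p :=
    Finset.prod_le_prod (fun _ _ => abs_nonneg _) fun p _ => by
      rw [abs_of_nonneg (D.f_nonneg _)]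
      unfold Gp
      have := L2_xip_nonneg hT p
      unfold xip at this ⊢
      linarith
  have h3 : |D.F (Real.log n / Real.log T)| ≤ 1 := by
    rw [abs_of_nonneg (D.F_nonneg _)]; exact D.F_le _
  have h4 : 0 ≤ ∏ p ∈ n.primeFactors, |D.f (Real.log p / Real.log T)| :=
    Finset.prod_nonneg fun _ _ => abs_nonneg _
  have h5 : 0 ≤ ∏ p ∈ n.primeFactors, Gp D T p := h4.trans h2
  calc _ ≤ 1 * (∏ p ∈ n.primeFactors, Gp D T p) * 1 := by
        refine mul_le_mul (mul_le_mul h1 h2 h4 zero_le_one) h3 (abs_nonneg _) (by linarith)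
    _ = _ := by ring

/-- the pointwise bound -/
theorem L2_point (D : AData) {T : ℝ} (hT : 1 < T) {τ : ℝ} (hτ : 1 / 3 ≤ τ) {n : ℕ} (hn : 1 ≤ n) :
    open Classical in
    ‖((L2_c D T n : ℝ) : ℂ)‖ ^ 2 * (n : ℝ) ^ (-(1 + 2 * (alp τ T * Yc D.ep))) ≤
      D.ep ^ 2 * (Gb D T n ^ 2 / n) +
      (if Squarefree n ∧ n.primeFactors ⊆ L2_S D T ∧ Jd D.ep < n.primeFactors.card then
        (1 : ℝ) / n else 0) +
      (if n ∈ L2_NS (L2_S D T) (Jd D.ep) ∧ ¬ Squarefree n then (1 : ℝ) / n else 0) := by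
  classical
  have hL : 0 < Real.log T := Real.log_pos hT
  have hn1 : (1 : ℝ) ≤ n := by exact_mod_cast hn
  have hn0 : (0 : ℝ) < n := by linarith
  have hl := L2_ell D.ep_pos D.ep_le
  have hal : 0 ≤ alp τ T := by
    unfold alp
    have := Real.pi_pos
    positivity
  have hY : 0 ≤ Yc D.ep := by unfold Yc; positivity
  have hd : 0 ≤ alp τ T * Yc D.ep := mul_nonneg hal hY
  have hA1 : 0 ≤ D.ep ^ 2 * (Gb D T n ^ 2 / n) := by positivity
  have hA2 : 0 ≤ (if Squarefree n ∧ n.primeFactors ⊆ L2_S D T ∧ Jd D.ep < n.primeFactors.card then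
        (1 : ℝ) / n else 0) := by
    split_ifs
    · positivity
    · exact le_rfl
  have hA3 : 0 ≤ (if n ∈ L2_NS (L2_S D T) (Jd D.ep) ∧ ¬ Squarefree n then (1 : ℝ) / n else 0) := by
    split_ifs
    · positivity
    · exact le_rfl
  have hpow : (n : ℝ) ^ (-(1 + 2 * (alp τ T * Yc D.ep))) =
      1 / n * (n : ℝ) ^ (-(2 * (alp τ T * Yc D.ep))) := by
    rw [neg_add, Real.rpow_add hn0, Real.rpow_neg_one, one_div]
  have hpow1 : (n : ℝ) ^ (-(2 * (alp τ T * Yc D.ep))) ≤ 1 :=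
    Real.rpow_le_one_of_one_le_of_nonpos hn1 (by linarith)
  have hpow0 : 0 ≤ (n : ℝ) ^ (-(2 * (alp τ T * Yc D.ep))) := Real.rpow_nonneg hn0.le _
  have hbd1 : ∀ x : ℝ, |x| ≤ 1 → ‖((x : ℝ) : ℂ)‖ ^ 2 *
      (n : ℝ) ^ (-(1 + 2 * (alp τ T * Yc D.ep))) ≤ 1 / n := by
    intro x hx
    rw [hpow, Complex.norm_real, Real.norm_eq_abs]
    have h1 : |x| ^ 2 ≤ 1 := pow_le_one₀ (abs_nonneg _) hx
    have h2 : 0 ≤ 1 / (n : ℝ) * (n : ℝ) ^ (-(2 * (alp τ T * Yc D.ep))) := by positivity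
    calc |x| ^ 2 * (1 / (n : ℝ) * (n : ℝ) ^ (-(2 * (alp τ T * Yc D.ep))))
        ≤ 1 * (1 / (n : ℝ) * 1) := by
          refine mul_le_mul h1 (mul_le_mul_of_nonneg_left hpow1 (by positivity)) h2 zero_le_one
      _ = 1 / n := by ring
  have hzero : L2_c D T n = 0 → ‖((L2_c D T n : ℝ) : ℂ)‖ ^ 2 *
      (n : ℝ) ^ (-(1 + 2 * (alp τ T * Yc D.ep))) = 0 := by
    intro h
    rw [h]
    simp
  by_cases hNS : n ∈ L2_NS (L2_S D T) (Jd D.ep)
  · obtain ⟨h0, hsub⟩ := L2_NS_primeFactors L2_S_prime hNS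
    by_cases hsq : Squarefree n
    · have h1 : L2_c D T n = 0 := by
        unfold L2_c
        rw [if_pos hNS, L2_q_sqf _ hsq hsub]
        unfold av xip
        have h2 : D.F (Real.log n / Real.log T) = 1 := by
          obtain ⟨-, h3⟩ := L2_NS_small hT hNS
          refine D.F_one _ (div_nonneg (Real.log_nonneg hn1) hL.le) ?_
          have h4 : Real.log n ≤ 1 / 4 * Real.log T := by
            rw [← Real.log_rpow (by linarith)]
            exact Real.log_le_log hn0 h3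
          have h5 : Real.log n / Real.log T ≤ 1 / 4 := by
            rw [div_le_iff₀ hL]; exact h4
          have h6 := D.ep_le
          have h7 := D.ep_pos
          nlinarith
        rw [h2]
        ring
      rw [hzero h1]
      linarith
    · have h1 : |L2_c D T n| ≤ 1 := by
        unfold L2_c
        rw [if_pos hNS]
        have h2 : av D T n = 0 := by
          unfold av
          rw [ArithmeticFunction.moebius_eq_zero_of_not_squarefree hsq]
          simp
        rw [h2, zero_sub, abs_neg]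
        exact L2_q_abs (fun p => D.f_nonneg _) (fun p => D.f_le _) n
      have h2 := hbd1 _ h1
      have h3 : (if n ∈ L2_NS (L2_S D T) (Jd D.ep) ∧ ¬ Squarefree n then (1 : ℝ) / n else 0) =
          1 / n := if_pos ⟨hNS, hsq⟩
      rw [h3]
      linarith
  · have hc : L2_c D T n = av D T n := by
      unfold L2_c
      rw [if_neg hNS, sub_zero]
    by_cases hav : av D T n = 0
    · rw [hzero (hc.trans hav)]
      linarith
    · have hsq : Squarefree n := by
        by_contra hsq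
        apply hav
        unfold av
        rw [ArithmeticFunction.moebius_eq_zero_of_not_squarefree hsq]
        simp
      have hf : ∀ p ∈ n.primeFactors, D.f (xip T p) ≠ 0 := by
        intro p hp h0
        apply hav
        unfold av
        unfold xip at h0
        rw [Finset.prod_eq_zero hp h0]
        simp
      by_cases hall : ∀ p ∈ n.primeFactors, p ≤ ⌊T ^ (1 / (4 * (Jd D.ep : ℝ)))⌋₊
      · have hsub : n.primeFactors ⊆ L2_S D T := by
          intro p hp
          unfold L2_S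
          rw [Finset.mem_filter, Finset.mem_filter, Finset.mem_Icc]
          have hpp := Nat.prime_of_mem_primeFactors hp
          exact ⟨⟨⟨hpp.one_lt.le, hall p hp⟩, hpp⟩, hf p hp⟩
        have hcard : Jd D.ep < n.primeFactors.card := by
          by_contra h
          exact hNS (L2_sqf_mem L2_S_prime hsq hsub (not_lt.1 h))
        have h2 := hbd1 _ (show |L2_c D T n| ≤ 1 by rw [hc]; exact L2_av_le_one D T n)
        rw [if_pos ⟨hsq, hsub, hcard⟩]
        linarith
      · push Not at hall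
        obtain ⟨p, hp, hpb⟩ := hall
        have hp1 : T ^ (1 / (4 * (Jd D.ep : ℝ))) < p := (Nat.floor_lt (by positivity)).1 hpb
        have hpn : (p : ℝ) ≤ n := by
          exact_mod_cast Nat.le_of_dvd (by omega) (Nat.dvd_of_mem_primeFactors hp)
        have hTn : T ^ (1 / (4 * (Jd D.ep : ℝ))) ≤ n := hp1.le.trans hpn
        obtain ⟨hJ1, hJ2⟩ := L2_Jd D.ep_pos D.ep_le
        have hJ : (0 : ℝ) < (Jd D.ep : ℝ) := by linarith
        have h3 : (n : ℝ) ^ (-(2 * (alp τ T * Yc D.ep))) ≤ D.ep ^ 2 := by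
          calc (n : ℝ) ^ (-(2 * (alp τ T * Yc D.ep)))
              ≤ (T ^ (1 / (4 * (Jd D.ep : ℝ)))) ^ (-(2 * (alp τ T * Yc D.ep))) :=
                Real.rpow_le_rpow_of_nonpos (by positivity) hTn (by linarith)
            _ = Real.exp (-(Real.pi * τ * Yc D.ep / Jd D.ep)) := by
                rw [← Real.rpow_mul (by linarith), Real.rpow_def_of_pos (by linarith)]
                congr 1
                unfold alp
                field_simp
                ring
            _ ≤ Real.exp (-(2 * Real.log (1 / D.ep))) := by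
                apply Real.exp_le_exp.2
                rw [neg_le_neg_iff, le_div_iff₀ hJ]
                unfold Yc
                have h4 : 1 ≤ Real.pi * τ := by
                  have := Real.pi_gt_three
                  nlinarith
                have h5 : 2 * Real.log (1 / D.ep) * (Jd D.ep : ℝ) ≤
                    2 * Real.log (1 / D.ep) * (12 * Real.log (1 / D.ep)) :=
                  mul_le_mul_of_nonneg_left hJ2 (by linarith)
                have h6 : 1 * (1000 * Real.log (1 / D.ep) ^ 2) ≤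
                    Real.pi * τ * (1000 * Real.log (1 / D.ep) ^ 2) :=
                  mul_le_mul_of_nonneg_right h4 (by positivity)
                nlinarith
            _ = D.ep ^ 2 := by
                have h7 : -(2 * Real.log (1 / D.ep)) = Real.log D.ep + Real.log D.ep := by
                  rw [one_div, Real.log_inv]; ring
                rw [h7, Real.exp_add, Real.exp_log D.ep_pos]
                ring
        have h4 := L2_av_le_Gb D hT n
        have h5 : ‖((L2_c D T n : ℝ) : ℂ)‖ ^ 2 ≤ Gb D T n ^ 2 := by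
          rw [Complex.norm_real, Real.norm_eq_abs, hc]
          exact pow_le_pow_left₀ (abs_nonneg _) h4 2
        have h6 : ‖((L2_c D T n : ℝ) : ℂ)‖ ^ 2 *
            (n : ℝ) ^ (-(1 + 2 * (alp τ T * Yc D.ep))) ≤ D.ep ^ 2 * (Gb D T n ^ 2 / n) := by
          rw [hpow]
          calc ‖((L2_c D T n : ℝ) : ℂ)‖ ^ 2 *
                (1 / n * (n : ℝ) ^ (-(2 * (alp τ T * Yc D.ep))))
              ≤ Gb D T n ^ 2 * (1 / n * D.ep ^ 2) := by
                refine mul_le_mul h5 (mul_le_mul_of_nonneg_left h3 (by positivity))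
                  (by positivity) (by positivity)
            _ = _ := by ring
        linarith

/-- L2 -/
theorem exp_approx : ∃ C : ℝ, 0 < C ∧ ∀ D : AData, ∃ T0 : ℝ, ∀ T : ℝ, T0 ≤ T → ∀ τ : ℝ,
    1 / 3 ≤ τ → τ ≤ 1 / 2 →
    ∫ t in T..(2 * T), ‖Vs D T (ss (alp τ T * Yc D.ep) t) - Qe D T τ t‖ ^ 2 ≤ C * D.ep * T := by
  classical
  obtain ⟨C1, hC1, h1⟩ := sum_Gb
  obtain ⟨C2, hC2, h2⟩ := sg_asymp
  refine ⟨5 * Real.pi * (C1 + 2), by have := Real.pi_pos; positivity, fun D => ?_⟩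
  obtain ⟨T1, hT1⟩ := h1 D
  set P : ℝ := Real.log (1 / D.ep) + 1 with hP
  set K : ℝ := P * ∑ j ∈ Finset.range (Jd D.ep + 1), P ^ j with hK
  have hl := L2_ell D.ep_pos D.ep_le
  have hep := D.ep_pos
  have hep1 := D.ep_le
  have hP0 : 0 < P := by rw [hP]; linarith
  have hK0 : 0 ≤ K := by rw [hK]; positivity
  refine ⟨max T1 (Real.exp (1 + 1 / D.ep + C2 / D.ep + K / D.ep ^ 2)), fun T hT τ hτ1 hτ2 => ?_⟩
  have hTT1 : T1 ≤ T := (le_max_left _ _).trans hT
  have hexp : Real.exp (1 + 1 / D.ep + C2 / D.ep + K / D.ep ^ 2) ≤ T := (le_max_right _ _).trans hT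
  have hT0 : 0 < T := lt_of_lt_of_le (Real.exp_pos _) hexp
  have hLL : 1 + 1 / D.ep + C2 / D.ep + K / D.ep ^ 2 ≤ Real.log T :=
    (Real.le_log_iff_exp_le hT0).2 hexp
  have hq1 : 0 < 1 / D.ep := by positivity
  have hq2 : 0 < C2 / D.ep := by positivity
  have hq3 : 0 ≤ K / D.ep ^ 2 := by positivity
  have hL1 : 1 ≤ Real.log T := by linarith
  have hL : 0 < Real.log T := by linarith
  have hT : 1 < T := (Real.log_pos_iff hT0.le).1 hL
  -- the sum over primes
  have hPS : ∑ p ∈ L2_S D T, (1 : ℝ) / p ≤ P := by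
    have h3 : 1 ≤ D.ep * Real.log T := by
      have : 1 / D.ep ≤ Real.log T := by linarith
      rw [div_le_iff₀ hep] at this
      linarith
    have h4 := h2 T D.ep 1 hT hep (by linarith) h3
    have h5 : C2 / (D.ep * Real.log T) ≤ 1 := by
      rw [div_le_one (by positivity)]
      have : C2 / D.ep ≤ Real.log T := by linarith
      rw [div_le_iff₀ hep] at this
      linarith
    have h6 : ∑ p ∈ L2_S D T, (1 : ℝ) / p ≤ sg T D.ep 1 :=
      Finset.sum_le_sum_of_subset_of_nonneg (L2_S_sub hT) fun p _ _ => by positivity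
    have h7 := (abs_le.1 h4).2
    rw [hP]
    linarith
  have hN : ((XN D T : ℕ) : ℝ) ≤ T := by
    unfold XN
    refine (Nat.floor_le (Real.rpow_nonneg hT0.le _)).trans ?_
    calc T ^ (1 - D.ep) ≤ T ^ (1 : ℝ) := Real.rpow_le_rpow_of_exponent_le hT.le (by linarith)
      _ = T := Real.rpow_one T
  have hNT : XN D T ≤ ⌊T⌋₊ := Nat.le_floor hN
  calc ∫ t in T..(2 * T), ‖Vs D T (ss (alp τ T * Yc D.ep) t) - Qe D T τ t‖ ^ 2
      = ∫ t in T..(2 * T), ‖∑ n ∈ Finset.Icc 1 (XN D T), ((L2_c D T n : ℝ) : ℂ) *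
        (n : ℂ) ^ (-(ss (alp τ T * Yc D.ep) t))‖ ^ 2 := by
        refine intervalIntegral.integral_congr fun t _ => ?_
        rw [L2_diff D hT τ t]
    _ ≤ 5 * Real.pi * T * ∑ n ∈ Finset.Icc 1 (XN D T), ‖((L2_c D T n : ℝ) : ℂ)‖ ^ 2 *
          (n : ℝ) ^ (-(1 + 2 * (alp τ T * Yc D.ep))) :=
        L2_mvt hT0 (by linarith) (fun n => ((L2_c D T n : ℝ) : ℂ))
    _ ≤ 5 * Real.pi * T * (C1 * D.ep + D.ep + D.ep) := by
        refine mul_le_mul_of_nonneg_left ?_ (by have := Real.pi_pos; positivity)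
        refine (Finset.sum_le_sum fun n hn =>
          L2_point D hT hτ1 (Finset.mem_Icc.1 hn).1).trans ?_
        rw [Finset.sum_add_distrib, Finset.sum_add_distrib]
        refine add_le_add (add_le_add ?_ ?_) ?_
        · rw [← Finset.mul_sum]
          have h3 : ∑ n ∈ Finset.Icc 1 (XN D T), Gb D T n ^ 2 / (n : ℝ) ≤ C1 / D.ep := by
            refine le_trans ?_ (hT1 T hTT1)
            refine Finset.sum_le_sum_of_subset_of_nonneg ?_ fun n _ _ => by positivity
            exact Finset.Icc_subset_Icc_right hNT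
          calc D.ep ^ 2 * ∑ n ∈ Finset.Icc 1 (XN D T), Gb D T n ^ 2 / (n : ℝ)
              ≤ D.ep ^ 2 * (C1 / D.ep) := mul_le_mul_of_nonneg_left h3 (by positivity)
            _ = C1 * D.ep := by field_simp
        · rw [← Finset.sum_filter]
          refine (L2_sum_many (S := L2_S D T) (N := XN D T) (J := Jd D.ep) hPS).trans ?_
          have h3 := (L2_Jd D.ep_pos D.ep_le).1
          have h4 : Real.exp 1 * P ≤ 3 * P :=
            mul_le_mul_of_nonneg_right (by have := Real.exp_one_lt_d9; linarith) hP0.le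
          calc Real.exp (Real.exp 1 * P - Jd D.ep) ≤ Real.exp (Real.log D.ep) := by
                apply Real.exp_le_exp.2
                have h5 : Real.log D.ep = -Real.log (1 / D.ep) := by
                  rw [one_div, Real.log_inv]; ring
                rw [h5]
                rw [hP] at h4 ⊢
                linarith
            _ = D.ep := Real.exp_log hep
        · rw [← Finset.sum_filter]
          have h3 : (Finset.Icc 1 (XN D T)).filter
              (fun n => n ∈ L2_NS (L2_S D T) (Jd D.ep) ∧ ¬ Squarefree n) ⊆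
              (L2_NS (L2_S D T) (Jd D.ep)).filter (fun n => ¬ Squarefree n) := by
            intro n hn
            rw [Finset.mem_filter] at hn ⊢
            exact hn.2
          refine (Finset.sum_le_sum_of_subset_of_nonneg h3 fun n _ _ => by positivity).trans ?_
          have hTe : (0 : ℝ) < T ^ D.ep := Real.rpow_pos_of_pos hT0 _
          refine (L2_sum_nonsqf L2_S_prime (Jd D.ep) hTe
            (fun p hp => (L2_S_gt hT hp).le) hPS).trans ?_
          rw [div_mul_eq_mul_div, div_le_iff₀ hTe, ← hK]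
          have h4 : K / D.ep ≤ T ^ D.ep := by
            rw [Real.rpow_def_of_pos hT0]
            have h5 : K / D.ep ^ 2 ≤ Real.log T := by linarith
            have h6 : K / D.ep ≤ Real.log T * D.ep := by
              have h7 := mul_le_mul_of_nonneg_right h5 hep.le
              have h8 : K / D.ep ^ 2 * D.ep = K / D.ep := by field_simp
              rw [h8] at h7
              exact h7
            have := Real.add_one_le_exp (Real.log T * D.ep)
            linarith
          rw [div_le_iff₀ hep] at h4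
          linarith
    _ = 5 * Real.pi * (C1 + 2) * D.ep * T := by ring

end Pool.Agent.AHD
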