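import Pool.Agent.ZGap.AH.A1

/-!
# Second moments of the prime sums
-/

open scoped ContDiff

namespace Pool.Agent.AHD

open Complex MeasureTheory Set Pool.Agent.Hadamard Pool.Agent.HalfGap

/-- Mean value upper bound on `[T, 2T]`. -/
lemma L34_mv {N : ℕ} {T : ℝ} (hT : 0 < T) (hNT : (N : ℝ) ≤ 2 * T) (a : ℕ → ℂ) :
    ∫ t in T..(2 * T), ‖∑ n ∈ Finset.Icc 1 N, a n * (n : ℂ) ^ (-(t * I) : ℂ)‖ ^ 2 ≤
      5 * Real.pi * T * ∑ n ∈ Finset.Icc 1 N, ‖a n‖ ^ 2 := by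
  have h2T : 0 < 2 * T := by positivity
  have h := dirichlet_mean_value h2T hNT a
  rw [show 5 * Real.pi * T = 5 / 2 * Real.pi * (2 * T) by ring, ← h,
    intervalIntegral.integral_of_le (by linarith)]
  have hcont : Continuous (fun t : ℝ =>
      ‖∑ n ∈ Finset.Icc 1 N, a n * (n : ℂ) ^ (-(t * I) : ℂ)‖ ^ 2) := by
    refine (continuous_norm.comp (continuous_finsetSum _ fun n hn => ?_)).pow 2
    have hn0 : (n : ℂ) ≠ 0 := by
      have := (Finset.mem_Icc.mp hn).1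
      exact_mod_cast (by omega : n ≠ 0)
    refine continuous_const.mul ?_
    refine Continuous.const_cpow (by fun_prop) (Or.inl hn0)
  have hint : Integrable (fun t : ℝ =>
      ‖∑ n ∈ Finset.Icc 1 N, a n * (n : ℂ) ^ (-(t * I) : ℂ)‖ ^ 2 * fejerW (t / (2 * T))) := by
    refine (fejer_integrable (Finset.Icc 1 N) (fun n : ℕ => Real.log n) a h2T).congr
      (Filter.Eventually.of_forall fun t => ?_)
    simp only
    congr 3
    refine Finset.sum_congr rfl fun n hn => ?_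
    have hn0 : (n : ℂ) ≠ 0 := by
      have := (Finset.mem_Icc.mp hn).1
      exact_mod_cast (by omega : n ≠ 0)
    rw [Complex.cpow_def_of_ne_zero hn0, ← Complex.ofReal_natCast,
      ← Complex.ofReal_log (Nat.cast_nonneg n)]
    congr 2
    push_cast
    ring
  have hnn : ∀ t : ℝ, 0 ≤ ‖∑ n ∈ Finset.Icc 1 N, a n * (n : ℂ) ^ (-(t * I) : ℂ)‖ ^ 2 *
      fejerW (t / (2 * T)) := fun t => mul_nonneg (by positivity) (fejerW_nonneg _)
  refine le_trans ?_ (setIntegral_le_integral (s := Ioc T (2 * T)) hint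
    (Filter.Eventually.of_forall hnn))
  refine setIntegral_mono_on ?_ hint.integrableOn measurableSet_Ioc fun t ht => ?_
  · exact (hcont.integrableOn_Icc (a := T) (b := 2 * T)).mono_set Ioc_subset_Icc_self
  · have h1 : 1 ≤ fejerW (t / (2 * T)) := by
      refine fejerW_ge_one ?_
      rw [abs_of_nonneg (div_nonneg (hT.trans ht.1).le h2T.le), div_le_one h2T]
      exact ht.2
    exact le_mul_of_one_le_right (by positivity) h1

lemma L34_mem_PR {T a c : ℝ} (hT : 0 < T) {n : ℕ} :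
    n ∈ PR T a c ↔ n.Prime ∧ T ^ a < n ∧ (n : ℝ) ≤ T ^ c := by
  unfold PR
  rw [Finset.mem_filter, Finset.mem_Ioc, Nat.floor_lt (by positivity),
    Nat.le_floor_iff (by positivity)]
  tauto

lemma L34_lt_xip {T a : ℝ} (hT : 1 < T) {n : ℕ} (hn : 0 < n) (h : T ^ a < n) : a < xip T n := by
  have hn0 : (0 : ℝ) < n := by exact_mod_cast hn
  have hL : 0 < Real.log T := Real.log_pos hT
  unfold xip
  rw [lt_div_iff₀ hL, ← Real.log_rpow (by linarith)]
  exact Real.log_lt_log (Real.rpow_pos_of_pos (by linarith) _) h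

lemma L34_xip_le {T a : ℝ} (hT : 1 < T) {n : ℕ} (hn : 0 < n) (h : (n : ℝ) ≤ T ^ a) :
    xip T n ≤ a := by
  have hn0 : (0 : ℝ) < n := by exact_mod_cast hn
  have hL : 0 < Real.log T := Real.log_pos hT
  unfold xip
  rw [div_le_iff₀ hL, ← Real.log_rpow (by linarith)]
  exact Real.log_le_log hn0 h

/-- The coefficients of `XXp`. -/
noncomputable def L34_x (D : AData) (T τ : ℝ) (n : ℕ) : ℝ :=
  if n ∈ (Finset.Icc 1 ⌊T ^ (1 / (4 * (Jd D.ep : ℝ)))⌋₊).filter Nat.Prime then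
    D.f (xip T n) * (n : ℝ) ^ (-(alp τ T * Yc D.ep)) else 0

/-- The coefficients of `Dl`. -/
noncomputable def L34_d (T a b : ℝ) (n : ℕ) : ℝ := if n ∈ PR T a b then 1 else 0

lemma L34_Jd_pos (D : AData) : 1 ≤ (Jd D.ep : ℝ) := by
  have h0 : 0 < Real.log (1 / D.ep) := by
    refine Real.log_pos ?_
    rw [lt_div_iff₀ D.ep_pos]
    linarith [D.ep_le]
  have h1 : (8 : ℝ) * Real.log (1 / D.ep) + 8 ≤ (Jd D.ep : ℝ) := Nat.le_ceil _
  linarith

lemma L34_log_ep (D : AData) : 9 / 2 ≤ Real.log (1 / D.ep) := by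
  have h1 : (100 : ℝ) ≤ 1 / D.ep := by
    rw [le_div_iff₀ D.ep_pos]
    linarith [D.ep_le]
  have h2 : Real.log 100 ≤ Real.log (1 / D.ep) := Real.log_le_log (by norm_num) h1
  have h3 : (9 / 2 : ℝ) ≤ Real.log 100 := by
    rw [Real.le_log_iff_exp_le (by norm_num)]
    have h5 : Real.exp (9 / 2) ^ 2 = Real.exp 1 ^ 9 := by
      rw [← Real.exp_nat_mul, ← Real.exp_nat_mul]; norm_num
    have h6 : Real.exp 1 ^ 9 ≤ 2.7182818286 ^ 9 :=
      pow_le_pow_left₀ (Real.exp_pos 1).le Real.exp_one_lt_d9.le 9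
    have h7 : (2.7182818286 : ℝ) ^ 9 ≤ 100 ^ 2 := by norm_num
    refine (pow_le_pow_iff_left₀ (Real.exp_pos _).le (by norm_num) two_ne_zero).1 ?_
    rw [h5]
    exact h6.trans h7
  linarith

lemma L34_XXp_eq (D : AData) {T : ℝ} (hT : 1 < T) (τ t : ℝ) :
    XXp D T τ t = ∑ n ∈ Finset.Icc 1 ⌊T ^ (1 / 2 : ℝ)⌋₊,
      ((L34_x D T τ n * (n : ℝ) ^ (-(1 / 2) : ℝ) : ℝ) : ℂ) * (n : ℂ) ^ (-(t * I) : ℂ) := by
  have hsub : (Finset.Icc 1 ⌊T ^ (1 / (4 * (Jd D.ep : ℝ)))⌋₊).filter Nat.Prime ⊆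
      Finset.Icc 1 ⌊T ^ (1 / 2 : ℝ)⌋₊ := by
    refine (Finset.filter_subset _ _).trans (Finset.Icc_subset_Icc le_rfl ?_)
    refine Nat.floor_le_floor (Real.rpow_le_rpow_of_exponent_le hT.le ?_)
    have := L34_Jd_pos D
    exact one_div_le_one_div_of_le (by norm_num) (by linarith)
  unfold XXp
  rw [← Finset.sum_subset hsub]
  · refine Finset.sum_congr rfl fun n hn => ?_
    have hn' : n.Prime := (Finset.mem_filter.1 hn).2
    have hn0 : (n : ℂ) ≠ 0 := by exact_mod_cast hn'.ne_zero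
    unfold L34_x
    rw [if_pos hn]
    have e1 : -(ss (alp τ T * Yc D.ep) t) =
        ((-(alp τ T * Yc D.ep) : ℝ) : ℂ) + ((-(1 / 2) : ℝ) : ℂ) + (-(t * I) : ℂ) := by
      unfold ss; push_cast; ring
    rw [e1, Complex.cpow_add _ _ hn0, Complex.cpow_add _ _ hn0]
    push_cast
    rw [Complex.ofReal_cpow (Nat.cast_nonneg n), Complex.ofReal_cpow (Nat.cast_nonneg n)]
    push_cast
    ring
  · intro n _ hn
    unfold L34_x
    rw [if_neg hn]
    simp

lemma L34_Dl_eq {T a b : ℝ} (hT : 1 < T) (hb : b ≤ 1 / 2) (t : ℝ) :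
    Dl T a b t = ∑ n ∈ Finset.Icc 1 ⌊T ^ (1 / 2 : ℝ)⌋₊,
      ((L34_d T a b n * (n : ℝ) ^ (-(1 / 2) : ℝ) : ℝ) : ℂ) * (n : ℂ) ^ (-(t * I) : ℂ) := by
  have hsub : PR T a b ⊆ Finset.Icc 1 ⌊T ^ (1 / 2 : ℝ)⌋₊ := by
    intro n hn
    rw [L34_mem_PR (by linarith)] at hn
    rw [Finset.mem_Icc]
    refine ⟨hn.1.one_le, Nat.le_floor (hn.2.2.trans ?_)⟩
    exact Real.rpow_le_rpow_of_exponent_le hT.le hb
  unfold Dl
  rw [← Finset.sum_subset hsub]
  · refine Finset.sum_congr rfl fun n hn => ?_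
    have hn' : n.Prime := ((L34_mem_PR (by linarith)).1 hn).1
    have hn0 : (n : ℂ) ≠ 0 := by exact_mod_cast hn'.ne_zero
    unfold L34_d
    rw [if_pos hn]
    have e1 : -(1 / 2 + t * I : ℂ) = ((-(1 / 2) : ℝ) : ℂ) + (-(t * I) : ℂ) := by
      push_cast; ring
    rw [e1, Complex.cpow_add _ _ hn0, one_mul]
    rw [Complex.ofReal_cpow (Nat.cast_nonneg n)]
    push_cast
    ring
  · intro n _ hn
    unfold L34_d
    rw [if_neg hn]
    simp

lemma L34_norm_sq (r : ℝ) {n : ℕ} (hn : 0 < n) :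
    ‖((r * (n : ℝ) ^ (-(1 / 2) : ℝ) : ℝ) : ℂ)‖ ^ 2 = r ^ 2 / n := by
  have hn0 : (0 : ℝ) < n := by exact_mod_cast hn
  rw [Complex.norm_real, Real.norm_eq_abs, sq_abs, mul_pow, ← Real.rpow_natCast, ← Real.rpow_natCast,
    ← Real.rpow_mul hn0.le]
  norm_num
  rw [Real.rpow_neg_one]
  rfl

lemma L34_x_nonneg (D : AData) (T τ : ℝ) (n : ℕ) : 0 ≤ L34_x D T τ n := by
  unfold L34_x
  split_ifs
  · exact mul_nonneg (D.f_nonneg _) (by positivity)
  · exact le_rfl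

lemma L34_delta_nonneg (D : AData) {T τ : ℝ} (hT : 1 < T) (hτ : 0 ≤ τ) :
    0 ≤ alp τ T * Yc D.ep := by
  have hL : 0 < Real.log T := Real.log_pos hT
  unfold alp Yc
  positivity

lemma L34_x_le (D : AData) {T τ : ℝ} (hT : 1 < T) (hτ : 0 ≤ τ) (n : ℕ) : L34_x D T τ n ≤ 1 := by
  unfold L34_x
  split_ifs with h
  · have hn : 1 ≤ n := (Finset.mem_Icc.1 (Finset.mem_filter.1 h).1).1
    have h1 : (n : ℝ) ^ (-(alp τ T * Yc D.ep)) ≤ 1 :=
      Real.rpow_le_one_of_one_le_of_nonpos (by exact_mod_cast hn)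
        (neg_nonpos.2 (L34_delta_nonneg D hT hτ))
    exact mul_le_one₀ (D.f_le _) (by positivity) h1
  · exact zero_le_one

/-- L3 -/
theorem XXp_sq : ∃ C : ℝ, 0 < C ∧ ∀ D : AData, ∃ T0 : ℝ, ∀ T : ℝ, T0 ≤ T → ∀ τ : ℝ,
    1 / 3 ≤ τ → τ ≤ 1 / 2 → ∫ t in T..(2 * T), ‖XXp D T τ t‖ ^ 2 ≤ C * Real.log (1 / D.ep) * T := by
  obtain ⟨C, hC, hsg⟩ := sg_asymp
  refine ⟨5 * Real.pi * (1 + C), by positivity, fun D => ⟨Real.exp (1 / D.ep), ?_⟩⟩
  intro T hT τ hτ1 hτ2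
  have hep := D.ep_pos
  have hep1 := D.ep_le
  have hT1 : 1 < T := lt_of_lt_of_le (by
    rw [← Real.exp_zero]; exact Real.exp_lt_exp.2 (by positivity)) hT
  have hT0 : 0 < T := by linarith
  have hL : 1 / D.ep ≤ Real.log T := by
    rw [← Real.log_exp (1 / D.ep)]
    exact Real.log_le_log (Real.exp_pos _) hT
  have hepL : 1 ≤ D.ep * Real.log T := by
    rw [div_le_iff₀ hep] at hL
    linarith
  have hfl : ((⌊T ^ (1 / 2 : ℝ)⌋₊ : ℕ) : ℝ) ≤ 2 * T := by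
    refine (Nat.floor_le (by positivity)).trans ?_
    have : T ^ (1 / 2 : ℝ) ≤ T ^ (1 : ℝ) :=
      Real.rpow_le_rpow_of_exponent_le hT1.le (by norm_num)
    rw [Real.rpow_one] at this
    linarith
  have h1 := L34_mv hT0 hfl (fun n => ((L34_x D T τ n * (n : ℝ) ^ (-(1 / 2) : ℝ) : ℝ) : ℂ))
  have h2 : ∫ t in T..(2 * T), ‖XXp D T τ t‖ ^ 2 =
      ∫ t in T..(2 * T), ‖∑ n ∈ Finset.Icc 1 ⌊T ^ (1 / 2 : ℝ)⌋₊,
        ((L34_x D T τ n * (n : ℝ) ^ (-(1 / 2) : ℝ) : ℝ) : ℂ) * (n : ℂ) ^ (-(t * I) : ℂ)‖ ^ 2 := by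
    refine intervalIntegral.integral_congr fun t _ => ?_
    simp_rw [L34_XXp_eq D hT1]
  rw [h2]
  refine h1.trans ?_
  have h3 : ∑ n ∈ Finset.Icc 1 ⌊T ^ (1 / 2 : ℝ)⌋₊,
      ‖((L34_x D T τ n * (n : ℝ) ^ (-(1 / 2) : ℝ) : ℝ) : ℂ)‖ ^ 2 ≤ sg T D.ep (1 / 2) := by
    have h4 : PR T D.ep (1 / 2) ⊆ Finset.Icc 1 ⌊T ^ (1 / 2 : ℝ)⌋₊ := by
      intro n hn
      rw [L34_mem_PR hT0] at hn
      rw [Finset.mem_Icc]
      exact ⟨hn.1.one_le, Nat.le_floor hn.2.2⟩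
    rw [← Finset.sum_subset h4]
    · unfold sg
      refine Finset.sum_le_sum fun n hn => ?_
      have hn' : n.Prime := ((L34_mem_PR hT0).1 hn).1
      rw [L34_norm_sq _ hn'.pos]
      have hx1 := L34_x_le D hT1 (by linarith : 0 ≤ τ) n
      have hx0 := L34_x_nonneg D T τ n
      refine div_le_div_of_nonneg_right ?_ (Nat.cast_nonneg n)
      exact pow_le_one₀ hx0 hx1
    · intro n hn hnP
      have hn1 : 0 < n := (Finset.mem_Icc.1 hn).1
      rw [L34_norm_sq _ hn1]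
      have hx : L34_x D T τ n = 0 := by
        unfold L34_x
        split_ifs with h
        · have hp := (Finset.mem_filter.1 h).2
          have h5 : ¬ (T ^ D.ep < n) := by
            intro h6
            refine hnP ((L34_mem_PR hT0).2 ⟨hp, h6, ?_⟩)
            exact (Nat.le_floor_iff (by positivity)).1 (Finset.mem_Icc.1 hn).2
          rw [D.f_low _ (L34_xip_le hT1 hn1 (not_lt.1 h5)), zero_mul]
        · rfl
      rw [hx]
      simp
  have h5 := hsg T D.ep (1 / 2) hT1 hep (by linarith) hepL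
  have h6 : sg T D.ep (1 / 2) ≤ Real.log (1 / D.ep) + C := by
    have h7 := (abs_le.1 h5).2
    have h8 : C / (D.ep * Real.log T) ≤ C := div_le_self hC.le hepL
    have h9 : Real.log (1 / 2 / D.ep) ≤ Real.log (1 / D.ep) := by
      refine Real.log_le_log (by positivity) ?_
      exact div_le_div_of_nonneg_right (by norm_num) hep.le
    linarith
  have h10 := L34_log_ep D
  calc 5 * Real.pi * T * ∑ n ∈ Finset.Icc 1 ⌊T ^ (1 / 2 : ℝ)⌋₊,
      ‖((L34_x D T τ n * (n : ℝ) ^ (-(1 / 2) : ℝ) : ℝ) : ℂ)‖ ^ 2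
      ≤ 5 * Real.pi * T * ((1 + C) * Real.log (1 / D.ep)) := by
        refine mul_le_mul_of_nonneg_left ?_ (by positivity)
        nlinarith
    _ = 5 * Real.pi * (1 + C) * Real.log (1 / D.ep) * T := by ring

/-- The scale `Λ`. -/
noncomputable def L34_Lam (D : AData) : ℝ := 1000 * Real.pi * Real.log (1 / D.ep) ^ 2

lemma L34_Lam_ge (D : AData) : 2 ≤ L34_Lam D := by
  have h1 := L34_log_ep D
  have h2 := Real.pi_gt_three
  unfold L34_Lam
  nlinarith [mul_pos (by linarith : 0 < Real.pi) (by positivity : (0:ℝ) < Real.log (1 / D.ep) ^ 2)]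

lemma L34_one_sub (D : AData) {T τ : ℝ} (hT : 1 < T) (hτ : τ ≤ 1 / 2) {n : ℕ}
    (hn : 1 ≤ n) : 1 - (n : ℝ) ^ (-(alp τ T * Yc D.ep)) ≤ L34_Lam D * xip T n := by
  have hn0 : (0 : ℝ) < n := by exact_mod_cast hn
  have hln : 0 ≤ Real.log n := Real.log_nonneg (by exact_mod_cast hn)
  have hL : 0 < Real.log T := Real.log_pos hT
  have h1 : (n : ℝ) ^ (-(alp τ T * Yc D.ep)) = Real.exp (-(2 * τ * (L34_Lam D * xip T n))) := by
    rw [Real.rpow_def_of_pos hn0]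
    congr 1
    unfold alp Yc L34_Lam xip
    field_simp
  have h2 := Real.add_one_le_exp (-(2 * τ * (L34_Lam D * xip T n)))
  have h3 : 0 ≤ L34_Lam D * xip T n := by
    have := L34_Lam_ge D
    unfold xip
    positivity
  rw [h1]
  nlinarith

lemma L34_pt (D : AData) {T τ b : ℝ} (hT : 1 < T) (hτ0 : 0 ≤ τ) (hτ : τ ≤ 1 / 2)
    {n : ℕ} (hn : n ∈ Finset.Icc 1 ⌊T ^ (1 / 2 : ℝ)⌋₊) :
    (L34_x D T τ n - L34_d T D.ep b n) ^ 2 ≤
      (if n ∈ PR T D.ep (2 * D.ep) then (1 : ℝ) else 0) +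
      (if n ∈ PR T b (1 / 2) then (1 : ℝ) else 0) +
      (if n ∈ PR T (1 / (4 * (Jd D.ep : ℝ))) (1 / 2) then (1 : ℝ) else 0) +
      (if n ∈ PR T (1 / L34_Lam D) (1 / 2) then (1 : ℝ) else 0) +
      (if n ∈ (Finset.Icc 1 ⌊T ^ (1 / L34_Lam D)⌋₊).filter Nat.Prime then
        L34_Lam D * xip T n else 0) := by
  have hT0 : 0 < T := by linarith
  have hep := D.ep_pos
  have hep1 := D.ep_le
  have hn1 : 1 ≤ n := (Finset.mem_Icc.1 hn).1
  have hnT : (n : ℝ) ≤ T ^ (1 / 2 : ℝ) :=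
    (Nat.le_floor_iff (by positivity)).1 (Finset.mem_Icc.1 hn).2
  have hLam := L34_Lam_ge D
  have hL : 0 < Real.log T := Real.log_pos hT
  have hln : 0 ≤ Real.log n := Real.log_nonneg (by exact_mod_cast hn1)
  have hxi : 0 ≤ xip T n := by unfold xip; positivity
  have hx0 := L34_x_nonneg D T τ n
  have hx1 := L34_x_le D hT hτ0 n
  have hd0 : 0 ≤ L34_d T D.ep b n := by unfold L34_d; split_ifs <;> norm_num
  have hd1 : L34_d T D.ep b n ≤ 1 := by unfold L34_d; split_ifs <;> norm_num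
  have hle1 : (L34_x D T τ n - L34_d T D.ep b n) ^ 2 ≤ 1 := by
    rw [sq_le_one_iff_abs_le_one, abs_le]
    constructor <;> linarith
  have i1 : 0 ≤ (if n ∈ PR T D.ep (2 * D.ep) then (1 : ℝ) else 0) := by
    split_ifs <;> norm_num
  have i2 : 0 ≤ (if n ∈ PR T b (1 / 2) then (1 : ℝ) else 0) := by
    split_ifs <;> norm_num
  have i3 : 0 ≤ (if n ∈ PR T (1 / (4 * (Jd D.ep : ℝ))) (1 / 2) then (1 : ℝ) else 0) := by
    split_ifs <;> norm_num
  have i4 : 0 ≤ (if n ∈ PR T (1 / L34_Lam D) (1 / 2) then (1 : ℝ) else 0) := by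
    split_ifs <;> norm_num
  have i5 : 0 ≤ (if n ∈ (Finset.Icc 1 ⌊T ^ (1 / L34_Lam D)⌋₊).filter Nat.Prime then
        L34_Lam D * xip T n else 0) := by
    split_ifs
    · exact mul_nonneg (by linarith) hxi
    · exact le_rfl
  by_cases hp : n.Prime
  swap
  · have e1 : L34_x D T τ n = 0 := by
      unfold L34_x
      rw [if_neg (fun h => hp (Finset.mem_filter.1 h).2)]
    have e2 : L34_d T D.ep b n = 0 := by
      unfold L34_d
      rw [if_neg (fun h => hp ((L34_mem_PR hT0).1 h).1)]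
    rw [e1, e2]
    linarith
  by_cases h1 : T ^ D.ep < n
  swap
  · have e1 : L34_x D T τ n = 0 := by
      unfold L34_x
      split_ifs
      · rw [D.f_low _ (L34_xip_le hT hn1 (not_lt.1 h1)), zero_mul]
      · rfl
    have e2 : L34_d T D.ep b n = 0 := by
      unfold L34_d
      rw [if_neg (fun h => h1 ((L34_mem_PR hT0).1 h).2.1)]
    rw [e1, e2]
    linarith
  by_cases h2 : (n : ℝ) ≤ T ^ (2 * D.ep)
  · rw [if_pos ((L34_mem_PR hT0).2 ⟨hp, h1, h2⟩)]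
    linarith
  by_cases h3 : T ^ b < n
  · rw [if_pos ((L34_mem_PR hT0).2 ⟨hp, h3, hnT⟩ : n ∈ PR T b (1 / 2))]
    linarith
  by_cases h4 : T ^ (1 / (4 * (Jd D.ep : ℝ))) < n
  · rw [if_pos ((L34_mem_PR hT0).2 ⟨hp, h4, hnT⟩ : n ∈ PR T (1 / (4 * (Jd D.ep : ℝ))) (1 / 2))]
    linarith
  by_cases h5 : T ^ (1 / L34_Lam D) < n
  · rw [if_pos ((L34_mem_PR hT0).2 ⟨hp, h5, hnT⟩ : n ∈ PR T (1 / L34_Lam D) (1 / 2))]
    linarith
  have e5 : n ∈ (Finset.Icc 1 ⌊T ^ (1 / L34_Lam D)⌋₊).filter Nat.Prime := by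
    rw [Finset.mem_filter, Finset.mem_Icc]
    exact ⟨⟨hn1, Nat.le_floor (not_lt.1 h5)⟩, hp⟩
  rw [if_pos e5]
  have e1 : L34_x D T τ n = (n : ℝ) ^ (-(alp τ T * Yc D.ep)) := by
    unfold L34_x
    rw [if_pos]
    · rw [D.f_mid, one_mul]
      · exact (L34_lt_xip hT hn1 (not_le.1 h2)).le
      · have := L34_xip_le hT hn1 hnT
        linarith
    · rw [Finset.mem_filter, Finset.mem_Icc]
      exact ⟨⟨hn1, Nat.le_floor (not_lt.1 h4)⟩, hp⟩
  have e2 : L34_d T D.ep b n = 1 := by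
    unfold L34_d
    rw [if_pos ((L34_mem_PR hT0).2 ⟨hp, h1, not_lt.1 h3⟩)]
  have e3 := L34_one_sub D hT hτ hn1
  rw [← e1] at e3
  rw [e2]
  nlinarith

lemma L34_sum_PR {T a : ℝ} (hT : 0 < T) :
    ∑ n ∈ Finset.Icc 1 ⌊T ^ (1 / 2 : ℝ)⌋₊,
      (if n ∈ PR T a (1 / 2) then (1 : ℝ) else 0) / n = sg T a (1 / 2) := by
  have hsub : PR T a (1 / 2) ⊆ Finset.Icc 1 ⌊T ^ (1 / 2 : ℝ)⌋₊ := by
    intro n hn
    rw [L34_mem_PR hT] at hn
    rw [Finset.mem_Icc]
    exact ⟨hn.1.one_le, Nat.le_floor hn.2.2⟩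
  rw [← Finset.sum_subset hsub]
  · unfold sg
    exact Finset.sum_congr rfl fun n hn => by rw [if_pos hn]
  · intro n _ hn
    rw [if_neg hn, zero_div]

/-- L4 -/
theorem XXp_sub : ∃ C : ℝ, 0 < C ∧ ∀ D : AData, ∀ b : ℝ, 2 * D.ep ≤ b → b ≤ 1 / 2 →
    ∃ T0 : ℝ, ∀ T : ℝ, T0 ≤ T → ∀ τ : ℝ, 1 / 3 ≤ τ → τ ≤ 1 / 2 →
    ∫ t in T..(2 * T), ‖XXp D T τ t - Dl T D.ep b t‖ ^ 2 ≤
      C * (1 + Real.log (Real.log (1 / D.ep)) + Real.log (1 / b)) * T := by
  obtain ⟨C, hC, hsg⟩ := sg_asymp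
  obtain ⟨C1, hC1, hlp⟩ := sum_log_prime
  have hl2 : 0 ≤ Real.log 2 := Real.log_nonneg (by norm_num)
  have hl20 : 0 ≤ Real.log 20 := Real.log_nonneg (by norm_num)
  have hl500 : 0 ≤ Real.log (500 * Real.pi) :=
    Real.log_nonneg (by nlinarith [Real.pi_gt_three])
  set K : ℝ := Real.log 2 + Real.log 20 + Real.log (500 * Real.pi) + 4 * C + 5 with hK
  have hK0 : 0 < K := by positivity
  refine ⟨5 * Real.pi * K, by positivity, fun D b hb1 hb2 => ?_⟩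
  have hep := D.ep_pos
  have hep1 := D.ep_le
  have hlog := L34_log_ep D
  have hLam := L34_Lam_ge D
  have hJ := L34_Jd_pos D
  have hb0 : 0 < b := by linarith
  have hlb : 0 ≤ Real.log (1 / b) := Real.log_nonneg (by
    rw [le_div_iff₀ hb0]; linarith)
  have hll : 0 ≤ Real.log (Real.log (1 / D.ep)) := Real.log_nonneg (by linarith)
  refine ⟨Real.exp (1 / D.ep + 4 * (Jd D.ep : ℝ) + L34_Lam D + C1 * L34_Lam D), ?_⟩
  intro T hT τ hτ1 hτ2
  have hLs : 1 / D.ep + 4 * (Jd D.ep : ℝ) + L34_Lam D + C1 * L34_Lam D ≤ Real.log T := by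
    rw [← Real.log_exp (1 / D.ep + 4 * (Jd D.ep : ℝ) + L34_Lam D + C1 * L34_Lam D)]
    exact Real.log_le_log (Real.exp_pos _) hT
  have hCL : 0 < C1 * L34_Lam D := by positivity
  have hie : 0 < 1 / D.ep := by positivity
  have hL1 : 1 / D.ep ≤ Real.log T := by linarith
  have hL2 : 4 * (Jd D.ep : ℝ) ≤ Real.log T := by linarith
  have hL3 : L34_Lam D ≤ Real.log T := by linarith
  have hL4 : C1 * L34_Lam D ≤ Real.log T := by linarith
  have hL0 : 0 < Real.log T := by linarith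
  have hT1 : 1 < T := by
    have : 0 < T := lt_of_lt_of_le (Real.exp_pos _) hT
    exact (Real.log_pos_iff this.le).1 hL0
  have hT0 : 0 < T := by linarith
  have hfl : ((⌊T ^ (1 / 2 : ℝ)⌋₊ : ℕ) : ℝ) ≤ 2 * T := by
    refine (Nat.floor_le (by positivity)).trans ?_
    have : T ^ (1 / 2 : ℝ) ≤ T ^ (1 : ℝ) :=
      Real.rpow_le_rpow_of_exponent_le hT1.le (by norm_num)
    rw [Real.rpow_one] at this
    linarith
  have h1 := L34_mv hT0 hfl
    (fun n => (((L34_x D T τ n - L34_d T D.ep b n) * (n : ℝ) ^ (-(1 / 2) : ℝ) : ℝ) : ℂ))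
  have h2 : ∫ t in T..(2 * T), ‖XXp D T τ t - Dl T D.ep b t‖ ^ 2 =
      ∫ t in T..(2 * T), ‖∑ n ∈ Finset.Icc 1 ⌊T ^ (1 / 2 : ℝ)⌋₊,
        (((L34_x D T τ n - L34_d T D.ep b n) * (n : ℝ) ^ (-(1 / 2) : ℝ) : ℝ) : ℂ) *
          (n : ℂ) ^ (-(t * I) : ℂ)‖ ^ 2 := by
    refine intervalIntegral.integral_congr fun t _ => ?_
    simp_rw [L34_XXp_eq D hT1, L34_Dl_eq hT1 hb2]
    rw [← Finset.sum_sub_distrib]
    congr 2
    refine Finset.sum_congr rfl fun n _ => ?_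
    push_cast
    ring
  rw [h2]
  refine h1.trans ?_
  have h3 : ∑ n ∈ Finset.Icc 1 ⌊T ^ (1 / 2 : ℝ)⌋₊,
      ‖(((L34_x D T τ n - L34_d T D.ep b n) * (n : ℝ) ^ (-(1 / 2) : ℝ) : ℝ) : ℂ)‖ ^ 2 ≤
      sg T D.ep (2 * D.ep) + sg T b (1 / 2) + sg T (1 / (4 * (Jd D.ep : ℝ))) (1 / 2) +
        sg T (1 / L34_Lam D) (1 / 2) +
        L34_Lam D / Real.log T * ∑ p ∈ (Finset.Icc 1 ⌊T ^ (1 / L34_Lam D)⌋₊).filter Nat.Prime,
          Real.log p / p := by
    have h4 : ∑ n ∈ Finset.Icc 1 ⌊T ^ (1 / 2 : ℝ)⌋₊,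
        ‖(((L34_x D T τ n - L34_d T D.ep b n) * (n : ℝ) ^ (-(1 / 2) : ℝ) : ℝ) : ℂ)‖ ^ 2 ≤
        ∑ n ∈ Finset.Icc 1 ⌊T ^ (1 / 2 : ℝ)⌋₊,
        ((if n ∈ PR T D.ep (2 * D.ep) then (1 : ℝ) else 0) / n +
        (if n ∈ PR T b (1 / 2) then (1 : ℝ) else 0) / n +
        (if n ∈ PR T (1 / (4 * (Jd D.ep : ℝ))) (1 / 2) then (1 : ℝ) else 0) / n +
        (if n ∈ PR T (1 / L34_Lam D) (1 / 2) then (1 : ℝ) else 0) / n +
        (if n ∈ (Finset.Icc 1 ⌊T ^ (1 / L34_Lam D)⌋₊).filter Nat.Prime then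
          L34_Lam D * xip T n else 0) / n) := by
      refine Finset.sum_le_sum fun n hn => ?_
      have hn1 : 0 < n := (Finset.mem_Icc.1 hn).1
      rw [L34_norm_sq _ hn1, ← add_div, ← add_div, ← add_div, ← add_div]
      exact div_le_div_of_nonneg_right (L34_pt D hT1 (by linarith) hτ2 hn)
        (Nat.cast_nonneg n)
    refine h4.trans (le_of_eq ?_)
    rw [Finset.sum_add_distrib, Finset.sum_add_distrib, Finset.sum_add_distrib,
      Finset.sum_add_distrib, L34_sum_PR hT0, L34_sum_PR hT0, L34_sum_PR hT0]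
    have hsub1 : PR T D.ep (2 * D.ep) ⊆ Finset.Icc 1 ⌊T ^ (1 / 2 : ℝ)⌋₊ := by
      intro n hn
      rw [L34_mem_PR hT0] at hn
      rw [Finset.mem_Icc]
      refine ⟨hn.1.one_le, Nat.le_floor (hn.2.2.trans ?_)⟩
      exact Real.rpow_le_rpow_of_exponent_le hT1.le (by linarith)
    have e1 : ∑ n ∈ Finset.Icc 1 ⌊T ^ (1 / 2 : ℝ)⌋₊,
        (if n ∈ PR T D.ep (2 * D.ep) then (1 : ℝ) else 0) / n = sg T D.ep (2 * D.ep) := by
      rw [← Finset.sum_subset hsub1]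
      · unfold sg
        exact Finset.sum_congr rfl fun n hn => by rw [if_pos hn]
      · intro n _ hn
        rw [if_neg hn, zero_div]
    have hsub2 : (Finset.Icc 1 ⌊T ^ (1 / L34_Lam D)⌋₊).filter Nat.Prime ⊆
        Finset.Icc 1 ⌊T ^ (1 / 2 : ℝ)⌋₊ := by
      refine (Finset.filter_subset _ _).trans (Finset.Icc_subset_Icc le_rfl ?_)
      refine Nat.floor_le_floor (Real.rpow_le_rpow_of_exponent_le hT1.le ?_)
      exact one_div_le_one_div_of_le (by norm_num) hLam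
    have e2 : ∑ n ∈ Finset.Icc 1 ⌊T ^ (1 / 2 : ℝ)⌋₊,
        (if n ∈ (Finset.Icc 1 ⌊T ^ (1 / L34_Lam D)⌋₊).filter Nat.Prime then
          L34_Lam D * xip T n else 0) / n =
        L34_Lam D / Real.log T * ∑ p ∈ (Finset.Icc 1 ⌊T ^ (1 / L34_Lam D)⌋₊).filter Nat.Prime,
          Real.log p / p := by
      rw [← Finset.sum_subset hsub2]
      · rw [Finset.mul_sum]
        refine Finset.sum_congr rfl fun n hn => ?_
        rw [if_pos hn]
        unfold xip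
        ring
      · intro n _ hn
        rw [if_neg hn, zero_div]
    rw [e1, e2]
  have hsgle : ∀ a c : ℝ, 0 < a → a ≤ c → 1 ≤ a * Real.log T → sg T a c ≤ Real.log (c / a) + C := by
    intro a c ha hac haL
    have h7 := (abs_le.1 (hsg T a c hT1 ha hac haL)).2
    have h8 : C / (a * Real.log T) ≤ C := div_le_self hC.le haL
    linarith
  have hepL : 1 ≤ D.ep * Real.log T := by
    rw [div_le_iff₀ hep] at hL1
    linarith
  have s1 : sg T D.ep (2 * D.ep) ≤ Real.log 2 + C := by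
    have := hsgle D.ep (2 * D.ep) hep (by linarith) hepL
    rwa [mul_div_cancel_right₀ _ hep.ne'] at this
  have s2 : sg T b (1 / 2) ≤ Real.log (1 / b) + C := by
    have h5 := hsgle b (1 / 2) hb0 hb2 (by nlinarith)
    have h6 : Real.log (1 / 2 / b) ≤ Real.log (1 / b) :=
      Real.log_le_log (by positivity) (div_le_div_of_nonneg_right (by norm_num) hb0.le)
    linarith
  have hJ0 : (0 : ℝ) < Jd D.ep := by linarith
  have s3 : sg T (1 / (4 * (Jd D.ep : ℝ))) (1 / 2) ≤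
      Real.log 20 + Real.log (Real.log (1 / D.ep)) + C := by
    have h5 := hsgle (1 / (4 * (Jd D.ep : ℝ))) (1 / 2) (by positivity)
      (one_div_le_one_div_of_le (by norm_num) (by linarith)) (by
        rw [one_div_mul_eq_div, le_div_iff₀ (by positivity)]
        linarith)
    have h6 : (1 / 2 / (1 / (4 * (Jd D.ep : ℝ)))) ≤ 20 * Real.log (1 / D.ep) := by
      have h7 : (Jd D.ep : ℝ) < 8 * Real.log (1 / D.ep) + 8 + 1 :=
        Nat.ceil_lt_add_one (by linarith)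
      have h8 : (1 / 2 / (1 / (4 * (Jd D.ep : ℝ)))) = 2 * (Jd D.ep : ℝ) := by
        field_simp
        norm_num
      rw [h8]
      linarith
    have h9 := Real.log_le_log (by positivity) h6
    rw [Real.log_mul (by norm_num) (by linarith)] at h9
    linarith
  have s4 : sg T (1 / L34_Lam D) (1 / 2) ≤
      Real.log (500 * Real.pi) + 2 * Real.log (Real.log (1 / D.ep)) + C := by
    have hLam0 : 0 < L34_Lam D := by linarith
    have h5 := hsgle (1 / L34_Lam D) (1 / 2) (by positivity)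
      (one_div_le_one_div_of_le (by norm_num) (by linarith)) (by
        rw [one_div_mul_eq_div, le_div_iff₀ (by positivity)]
        linarith)
    have h8 : (1 / 2 / (1 / L34_Lam D)) = 500 * Real.pi * Real.log (1 / D.ep) ^ 2 := by
      rw [div_div_eq_mul_div, div_one]
      unfold L34_Lam
      ring
    rw [h8, Real.log_mul (by positivity) (by positivity), Real.log_pow] at h5
    push_cast at h5
    linarith
  have s5 : L34_Lam D / Real.log T *
      ∑ p ∈ (Finset.Icc 1 ⌊T ^ (1 / L34_Lam D)⌋₊).filter Nat.Prime, Real.log p / p ≤ 2 := by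
    have hLam0 : 0 < L34_Lam D := by linarith
    have h5 := (abs_le.1 (hlp (T ^ (1 / L34_Lam D))
      (Real.one_le_rpow hT1.le (by positivity)))).2
    rw [Real.log_rpow hT0] at h5
    have h6 : ∑ p ∈ (Finset.Icc 1 ⌊T ^ (1 / L34_Lam D)⌋₊).filter Nat.Prime, Real.log p / p ≤
        1 / L34_Lam D * Real.log T + C1 := by linarith
    calc L34_Lam D / Real.log T *
          ∑ p ∈ (Finset.Icc 1 ⌊T ^ (1 / L34_Lam D)⌋₊).filter Nat.Prime, Real.log p / p
        ≤ L34_Lam D / Real.log T * (1 / L34_Lam D * Real.log T + C1) :=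
          mul_le_mul_of_nonneg_left h6 (by positivity)
      _ = 1 + C1 * L34_Lam D / Real.log T := by field_simp
      _ ≤ 2 := by
          have : C1 * L34_Lam D / Real.log T ≤ 1 := by
            rw [div_le_one hL0]
            exact hL4
          linarith
  calc 5 * Real.pi * T * ∑ n ∈ Finset.Icc 1 ⌊T ^ (1 / 2 : ℝ)⌋₊,
      ‖(((L34_x D T τ n - L34_d T D.ep b n) * (n : ℝ) ^ (-(1 / 2) : ℝ) : ℝ) : ℂ)‖ ^ 2
      ≤ 5 * Real.pi * T * (K * (1 + Real.log (Real.log (1 / D.ep)) + Real.log (1 / b))) := by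
        refine mul_le_mul_of_nonneg_left ?_ (by positivity)
        have h10 : 3 * Real.log (Real.log (1 / D.ep)) ≤ K * Real.log (Real.log (1 / D.ep)) :=
          mul_le_mul_of_nonneg_right (by linarith) hll
        have h11 : 1 * Real.log (1 / b) ≤ K * Real.log (1 / b) :=
          mul_le_mul_of_nonneg_right (by linarith) hlb
        rw [mul_add, mul_add]
        linarith
    _ = 5 * Real.pi * K * (1 + Real.log (Real.log (1 / D.ep)) + Real.log (1 / b)) * T := by ring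

end Pool.Agent.AHD
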