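import Pool.Agent.ZGap.AH.P

/-!
# Anticoncentration
-/

open scoped ContDiff

namespace Pool.Agent.AHD

open Complex MeasureTheory Set Pool.Agent.Hadamard Pool.Agent.HalfGap

/-- normalised prime polynomial -/
noncomputable def L5_N (P : Finset ℕ) (s t : ℝ) : ℂ :=
  ∑ p ∈ P, ((1 / Real.sqrt (s * p) : ℝ) : ℂ) * Complex.exp (-(Real.log p * t : ℝ) * I)

lemma L5_N_continuous (P : Finset ℕ) (s : ℝ) : Continuous (L5_N P s) := by
  unfold L5_N
  fun_prop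

lemma L5_sym {M : Type*} [Semiring M] (P : Finset ℕ) (f : ℕ → ℕ → M) (hf : ∀ p q, f p q = f q p) :
    ∑ p ∈ P, ∑ q ∈ P, f p q =
      ∑ x ∈ (P ×ˢ P).filter (fun x => x.1 ≤ x.2), (if x.1 = x.2 then 1 else 2) * f x.1 x.2 := by
  classical
  rw [← Finset.sum_product']
  rw [← Finset.sum_filter_add_sum_filter_not (P ×ˢ P) (fun x => x.1 ≤ x.2)]
  have h1 : ∑ x ∈ (P ×ˢ P).filter (fun x => ¬ x.1 ≤ x.2), f x.1 x.2 =
      ∑ x ∈ (P ×ˢ P).filter (fun x => x.1 < x.2), f x.1 x.2 := by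
    refine Finset.sum_nbij' (fun x => (x.2, x.1)) (fun x => (x.2, x.1)) ?_ ?_ ?_ ?_ ?_
    · intro x hx
      simp only [Finset.mem_filter, Finset.mem_product] at hx ⊢
      exact ⟨⟨hx.1.2, hx.1.1⟩, by omega⟩
    · intro x hx
      simp only [Finset.mem_filter, Finset.mem_product] at hx ⊢
      exact ⟨⟨hx.1.2, hx.1.1⟩, by omega⟩
    · intro x _; rfl
    · intro x _; rfl
    · intro x _; exact hf _ _
  rw [h1]
  have h2 : ∑ x ∈ (P ×ˢ P).filter (fun x => x.1 < x.2), f x.1 x.2 =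
      ∑ x ∈ (P ×ˢ P).filter (fun x => x.1 ≤ x.2), (if x.1 = x.2 then 0 else 1) * f x.1 x.2 := by
    have : (P ×ˢ P).filter (fun x => x.1 < x.2) =
        ((P ×ˢ P).filter (fun x => x.1 ≤ x.2)).filter (fun x => x.1 ≠ x.2) := by
      ext x
      simp only [Finset.mem_filter, Finset.mem_product]
      constructor
      · rintro ⟨h, h'⟩; exact ⟨⟨h, h'.le⟩, h'.ne⟩
      · rintro ⟨⟨h, h'⟩, h''⟩; exact ⟨h, lt_of_le_of_ne h' h''⟩
    rw [this, Finset.sum_filter]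
    refine Finset.sum_congr rfl fun x _ => ?_
    by_cases h : x.1 = x.2 <;> simp [h]
  rw [h2, ← Finset.sum_add_distrib]
  refine Finset.sum_congr rfl fun x _ => ?_
  by_cases h : x.1 = x.2
  · simp [h]
  · simp only [h, if_false]
    rw [one_mul, two_mul]

/-- the exponential -/
noncomputable def L5_e (l t : ℝ) : ℂ := Complex.exp (-(l * t : ℝ) * I)

lemma L5_e_mul (a b t : ℝ) : L5_e a t * L5_e b t = L5_e (a + b) t := by
  unfold L5_e
  rw [← Complex.exp_add]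
  congr 1
  push_cast
  ring

lemma L5_e_conj (a t : ℝ) : (starRingEnd ℂ) (L5_e a t) = L5_e (-a) t := by
  unfold L5_e
  rw [← Complex.exp_conj]
  congr 1
  simp

lemma L5_e_zero (t : ℝ) : L5_e 0 t = 1 := by simp [L5_e]

/-- the coefficient -/
noncomputable def L5_c (s : ℝ) (p : ℕ) : ℝ := 1 / Real.sqrt (s * p)

lemma L5_N_eq (P : Finset ℕ) (s t : ℝ) :
    L5_N P s t = ∑ p ∈ P, (L5_c s p : ℂ) * L5_e (Real.log p) t := rfl

lemma L5_c_sq {s : ℝ} (hs : 0 < s) (p : ℕ) : L5_c s p ^ 2 = 1 / s * (1 / p) := by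
  unfold L5_c
  rw [div_pow, one_pow, Real.sq_sqrt (by positivity)]
  field_simp

lemma L5_sum_c {P : Finset ℕ} {s : ℝ} (hs : 0 < s) (h : ∑ p ∈ P, (1 : ℝ) / p = s) :
    ∑ p ∈ P, L5_c s p ^ 2 = 1 := by
  simp only [L5_c_sq hs]
  rw [← Finset.mul_sum, h]
  field_simp

lemma L5_sq (P : Finset ℕ) (s t : ℝ) :
    L5_N P s t ^ 2 = ∑ x ∈ (P ×ˢ P).filter (fun x => x.1 ≤ x.2),
      (((if x.1 = x.2 then 1 else 2) * (L5_c s x.1 * L5_c s x.2) : ℝ) : ℂ) *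
        L5_e (Real.log x.1 + Real.log x.2) t := by
  rw [L5_N_eq, sq, Finset.sum_mul_sum]
  rw [L5_sym P (fun p q => (L5_c s p : ℂ) * L5_e (Real.log p) t *
    ((L5_c s q : ℂ) * L5_e (Real.log q) t)) (fun p q => mul_comm _ _)]
  refine Finset.sum_congr rfl fun x _ => ?_
  rw [← L5_e_mul]
  split_ifs <;> push_cast <;> ring

lemma L5_normsq {P : Finset ℕ} {s : ℝ} (hs : 0 < s) (h : ∑ p ∈ P, (1 : ℝ) / p = s) (t : ℝ) :
    ((‖L5_N P s t‖ ^ 2 - 1 : ℝ) : ℂ) = ∑ x ∈ (P ×ˢ P).filter (fun x => x.1 ≠ x.2),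
      ((L5_c s x.1 * L5_c s x.2 : ℝ) : ℂ) *
        L5_e (Real.log x.1 - Real.log x.2) t := by
  have h1 : ((‖L5_N P s t‖ ^ 2 : ℝ) : ℂ) = L5_N P s t * (starRingEnd ℂ) (L5_N P s t) := by
    rw [← Complex.normSq_eq_norm_sq, Complex.mul_conj]
  have h2 : ((‖L5_N P s t‖ ^ 2 : ℝ) : ℂ) = ∑ x ∈ P ×ˢ P, ((L5_c s x.1 * L5_c s x.2 : ℝ) : ℂ) *
        L5_e (Real.log x.1 - Real.log x.2) t := by
    rw [h1, L5_N_eq, map_sum, Finset.sum_mul_sum, ← Finset.sum_product']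
    refine Finset.sum_congr rfl fun x _ => ?_
    rw [map_mul, L5_e_conj, Complex.conj_ofReal, sub_eq_add_neg, ← L5_e_mul]
    push_cast
    ring
  have h3 : ∑ x ∈ (P ×ˢ P).filter (fun x => ¬ x.1 ≠ x.2),
      ((L5_c s x.1 * L5_c s x.2 : ℝ) : ℂ) * L5_e (Real.log x.1 - Real.log x.2) t = 1 := by
    have h4 : (P ×ˢ P).filter (fun x => ¬ x.1 ≠ x.2) = P.image (fun p => (p, p)) := by
      ext x
      simp only [Finset.mem_filter, Finset.mem_product, Finset.mem_image, not_not]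
      constructor
      · rintro ⟨⟨h, h'⟩, h''⟩; exact ⟨x.1, h, by rw [Prod.ext_iff]; exact ⟨rfl, h''⟩⟩
      · rintro ⟨p, hp, rfl⟩; exact ⟨⟨hp, hp⟩, rfl⟩
    rw [h4, Finset.sum_image (by intro p _ q _ h; exact (Prod.ext_iff.mp h).1)]
    simp only [sub_self, L5_e_zero, mul_one]
    rw [← Complex.ofReal_sum, ← Complex.ofReal_one]
    congr 1
    rw [← L5_sum_c hs h]
    exact Finset.sum_congr rfl fun p _ => by ring
  rw [Complex.ofReal_sub, h2, ← Finset.sum_filter_add_sum_filter_not (P ×ˢ P) (fun x => x.1 ≠ x.2),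
    h3]
  simp

section fam

variable {m : ℕ} {P : Fin m → Finset ℕ} {s : Fin m → ℝ} {x : ℕ} {U : ℝ}

lemma L5_m1 (hP : ∀ i, ∀ p ∈ P i, p.Prime ∧ p ≤ x) (hU : 0 < U) (hx : (x : ℝ) ^ 2 ≤ U)
    (hd : ∀ i j, ∀ p, p ∈ P i → p ∈ P j → i = j) (hs : ∀ i, 0 < s i)
    (hsum : ∀ i, ∑ p ∈ P i, (1 : ℝ) / p = s i) :
    Integrable (fun t : ℝ => ‖∑ i, L5_N (P i) (s i) t‖ ^ 2 * fejerW (t / U)) ∧
    ∫ t : ℝ, ‖∑ i, L5_N (P i) (s i) t‖ ^ 2 * fejerW (t / U) ≤ 5 / 2 * Real.pi * U * m := by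
  have h1 : ∀ t, ∑ i, L5_N (P i) (s i) t = ∑ y ∈ Finset.univ.sigma P,
      (L5_c (s y.1) y.2 : ℂ) * Complex.exp (-((fun y : (Σ _ : Fin m, ℕ) => Real.log y.2) y * t : ℝ) * I) := by
    intro t
    rw [Finset.sum_sigma]
    rfl
  simp only [h1]
  refine ⟨fejer_integrable (Finset.univ.sigma P) (fun y => Real.log y.2)
    (fun y => (L5_c (s y.1) y.2 : ℂ)) hU, le_of_eq ?_⟩
  rw [fejer_mean_value (Finset.univ.sigma P) (fun y => Real.log y.2)
    (fun y => (L5_c (s y.1) y.2 : ℂ)) hU]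
  · congr 1
    rw [Finset.sum_sigma]
    have h2 : ∀ i : Fin m, ∑ p ∈ P i, ‖(L5_c (s i) p : ℂ)‖ ^ 2 = 1 := by
      intro i
      rw [← L5_sum_c (hs i) (hsum i)]
      refine Finset.sum_congr rfl fun p _ => ?_
      rw [Complex.norm_real, Real.norm_eq_abs, sq_abs]
    rw [Finset.sum_congr rfl fun i _ => h2 i]
    simp
  · intro j hj k hk hjk
    simp only [Finset.mem_sigma, Finset.mem_univ, true_and] at hj hk
    obtain ⟨pj, hxj⟩ := hP _ _ hj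
    obtain ⟨pk, hxk⟩ := hP _ _ hk
    have hxU : (x : ℝ) ≤ U := by
      refine le_trans ?_ hx
      have : 1 ≤ x := pj.one_lt.le.trans hxj
      exact_mod_cast Nat.le_self_pow (by norm_num) x
    refine one_le_mul_log_sub hxU (Finset.mem_Icc.mpr ⟨pj.one_lt.le, hxj⟩)
      (Finset.mem_Icc.mpr ⟨pk.one_lt.le, hxk⟩) ?_
    intro h
    apply hjk
    have h2 : j.1 = k.1 := hd _ _ j.2 hj (h ▸ hk)
    ext
    · rw [h2]
    · simpa using h

lemma L5_mem_xx {p q : ℕ} (hp : p.Prime ∧ p ≤ x) (hq : q.Prime ∧ q ≤ x) :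
    p * q ∈ Finset.Icc 1 (x ^ 2) := by
  rw [Finset.mem_Icc, sq]
  exact ⟨Nat.mul_pos hp.1.pos hq.1.pos, Nat.mul_le_mul hp.2 hq.2⟩

lemma L5_m2 (J : Finset (Fin m)) (hP : ∀ i, ∀ p ∈ P i, p.Prime ∧ p ≤ x) (hU : 0 < U)
    (hx : (x : ℝ) ^ 2 ≤ U)
    (hd : ∀ i j, ∀ p, p ∈ P i → p ∈ P j → i = j) (hs : ∀ i, 0 < s i)
    (hsum : ∀ i, ∑ p ∈ P i, (1 : ℝ) / p = s i) :
    Integrable (fun t : ℝ => ‖∑ i ∈ J, L5_N (P i) (s i) t ^ 2‖ ^ 2 * fejerW (t / U)) ∧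
    ∫ t : ℝ, ‖∑ i ∈ J, L5_N (P i) (s i) t ^ 2‖ ^ 2 * fejerW (t / U) ≤
      5 * Real.pi * U * J.card := by
  classical
  set S : Finset (Σ _ : Fin m, ℕ × ℕ) :=
    J.sigma (fun i => (P i ×ˢ P i).filter (fun x => x.1 ≤ x.2)) with hS
  have h1 : ∀ t, ∑ i ∈ J, L5_N (P i) (s i) t ^ 2 = ∑ y ∈ S,
      (((if y.2.1 = y.2.2 then 1 else 2) * (L5_c (s y.1) y.2.1 * L5_c (s y.1) y.2.2) : ℝ) : ℂ) *
        Complex.exp (-((fun y : (Σ _ : Fin m, ℕ × ℕ) => Real.log y.2.1 + Real.log y.2.2) y * t : ℝ) * I) := by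
    intro t
    rw [hS, Finset.sum_sigma]
    refine Finset.sum_congr rfl fun i _ => ?_
    rw [L5_sq]
    rfl
  simp only [h1]
  refine ⟨fejer_integrable S (fun y => Real.log y.2.1 + Real.log y.2.2)
    (fun y => (((if y.2.1 = y.2.2 then 1 else 2) * (L5_c (s y.1) y.2.1 * L5_c (s y.1) y.2.2) : ℝ) : ℂ)) hU, ?_⟩
  rw [fejer_mean_value S (fun y => Real.log y.2.1 + Real.log y.2.2)
    (fun y => (((if y.2.1 = y.2.2 then 1 else 2) * (L5_c (s y.1) y.2.1 * L5_c (s y.1) y.2.2) : ℝ) : ℂ)) hU]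
  · rw [show 5 * Real.pi * U * (J.card : ℝ) = 5 / 2 * Real.pi * U * (2 * J.card) by ring]
    refine mul_le_mul_of_nonneg_left ?_ (by positivity)
    rw [hS, Finset.sum_sigma]
    have h2 : ∀ i ∈ J, ∑ y ∈ (P i ×ˢ P i).filter (fun x => x.1 ≤ x.2),
        ‖(((if y.1 = y.2 then 1 else 2) * (L5_c (s i) y.1 * L5_c (s i) y.2) : ℝ) : ℂ)‖ ^ 2 ≤ 2 := by
      intro i _
      have h3 : 2 * ∑ p ∈ P i, ∑ q ∈ P i, L5_c (s i) p ^ 2 * L5_c (s i) q ^ 2 = 2 := by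
        rw [← Finset.sum_mul_sum, L5_sum_c (hs i) (hsum i), mul_one, mul_one]
      rw [L5_sym (P i) (fun p q => L5_c (s i) p ^ 2 * L5_c (s i) q ^ 2) (fun p q => mul_comm _ _),
        Finset.mul_sum] at h3
      refine le_of_le_of_eq ?_ h3
      refine Finset.sum_le_sum fun y _ => ?_
      rw [Complex.norm_real, Real.norm_eq_abs, sq_abs, mul_pow, mul_pow]
      have h4 : 0 ≤ L5_c (s i) y.1 ^ 2 * L5_c (s i) y.2 ^ 2 := by positivity
      split_ifs <;> nlinarith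
    refine (Finset.sum_le_sum h2).trans ?_
    simp [mul_comm]
  · intro j hj k hk hjk
    simp only [hS, Finset.mem_sigma, Finset.mem_filter, Finset.mem_product] at hj hk
    obtain ⟨_, ⟨hj1, hj2⟩, hjle⟩ := hj
    obtain ⟨_, ⟨hk1, hk2⟩, hkle⟩ := hk
    have a1 := hP _ _ hj1
    have a2 := hP _ _ hj2
    have a3 := hP _ _ hk1
    have a4 := hP _ _ hk2
    have e1 : ∀ {p q : ℕ}, p.Prime ∧ p ≤ x → q.Prime ∧ q ≤ x →
        Real.log p + Real.log q = Real.log ((p * q : ℕ) : ℝ) := by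
      intro p q hp hq
      have h1 : (0:ℝ) < p := by exact_mod_cast hp.1.pos
      have h2 : (0:ℝ) < q := by exact_mod_cast hq.1.pos
      rw [Nat.cast_mul, Real.log_mul h1.ne' h2.ne']
    rw [e1 a1 a2, e1 a3 a4]
    refine one_le_mul_log_sub (by exact_mod_cast hx) (L5_mem_xx a1 a2) (L5_mem_xx a3 a4) ?_
    intro h
    apply hjk
    have h5 : j.2.1 = k.2.1 ∧ j.2.2 = k.2.2 := by
      have h6 : j.2.1 ∣ k.2.1 * k.2.2 := ⟨_, h.symm⟩
      rcases (a1.1.dvd_mul).mp h6 with h7 | h7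
      · have h8 := (Nat.prime_dvd_prime_iff_eq a1.1 a3.1).mp h7
        refine ⟨h8, ?_⟩
        rw [h8] at h
        exact Nat.eq_of_mul_eq_mul_left a3.1.pos h
      · have h8 := (Nat.prime_dvd_prime_iff_eq a1.1 a4.1).mp h7
        have h9 : j.2.2 = k.2.1 := by
          rw [h8, mul_comm] at h
          exact Nat.eq_of_mul_eq_mul_right a4.1.pos h
        omega
    have h6 : j.1 = k.1 := hd _ _ j.2.1 hj1 (h5.1 ▸ hk1)
    rcases j with ⟨j1, j2, j3⟩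
    rcases k with ⟨k1, k2, k3⟩
    simp only at h5 h6
    obtain ⟨rfl, rfl⟩ := h5
    subst h6
    rfl

lemma L5_m3 (hP : ∀ i, ∀ p ∈ P i, p.Prime ∧ p ≤ x) (hU : 0 < U)
    (hx : (x : ℝ) ^ 2 ≤ U)
    (hd : ∀ i j, ∀ p, p ∈ P i → p ∈ P j → i = j) (hs : ∀ i, 0 < s i)
    (hsum : ∀ i, ∑ p ∈ P i, (1 : ℝ) / p = s i) :
    Integrable (fun t : ℝ => ‖((∑ i, (‖L5_N (P i) (s i) t‖ ^ 2 - 1) : ℝ) : ℂ)‖ ^ 2 *
      fejerW (t / U)) ∧
    ∫ t : ℝ, ‖((∑ i, (‖L5_N (P i) (s i) t‖ ^ 2 - 1) : ℝ) : ℂ)‖ ^ 2 * fejerW (t / U) ≤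
      5 / 2 * Real.pi * U * m := by
  classical
  set S : Finset (Σ _ : Fin m, ℕ × ℕ) :=
    Finset.univ.sigma (fun i => (P i ×ˢ P i).filter (fun x => x.1 ≠ x.2)) with hS
  have h1 : ∀ t, ((∑ i, (‖L5_N (P i) (s i) t‖ ^ 2 - 1) : ℝ) : ℂ) = ∑ y ∈ S,
      ((L5_c (s y.1) y.2.1 * L5_c (s y.1) y.2.2 : ℝ) : ℂ) *
        Complex.exp (-((fun y : (Σ _ : Fin m, ℕ × ℕ) => Real.log y.2.1 - Real.log y.2.2) y * t : ℝ) * I) := by
    intro t
    rw [hS, Finset.sum_sigma, Complex.ofReal_sum]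
    refine Finset.sum_congr rfl fun i _ => ?_
    rw [L5_normsq (hs i) (hsum i)]
    rfl
  simp only [h1]
  refine ⟨fejer_integrable S (fun y => Real.log y.2.1 - Real.log y.2.2)
    (fun y => ((L5_c (s y.1) y.2.1 * L5_c (s y.1) y.2.2 : ℝ) : ℂ)) hU, ?_⟩
  rw [fejer_mean_value S (fun y => Real.log y.2.1 - Real.log y.2.2)
    (fun y => ((L5_c (s y.1) y.2.1 * L5_c (s y.1) y.2.2 : ℝ) : ℂ)) hU]
  · refine mul_le_mul_of_nonneg_left ?_ (by positivity)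
    rw [hS, Finset.sum_sigma]
    have h2 : ∀ i : Fin m, ∑ y ∈ (P i ×ˢ P i).filter (fun x => x.1 ≠ x.2),
        ‖((L5_c (s i) y.1 * L5_c (s i) y.2 : ℝ) : ℂ)‖ ^ 2 ≤ 1 := by
      intro i
      have h3 : ∑ x ∈ P i ×ˢ P i, L5_c (s i) x.1 ^ 2 * L5_c (s i) x.2 ^ 2 = 1 := by
        rw [Finset.sum_product' (f := fun a b => L5_c (s i) a ^ 2 * L5_c (s i) b ^ 2),
          ← Finset.sum_mul_sum, L5_sum_c (hs i) (hsum i), mul_one]
      refine le_of_le_of_eq ?_ h3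
      refine (Finset.sum_le_sum (g := fun x => L5_c (s i) x.1 ^ 2 * L5_c (s i) x.2 ^ 2)
        fun y _ => ?_).trans (Finset.sum_le_sum_of_subset_of_nonneg (Finset.filter_subset _ _)
          fun y _ _ => by positivity)
      rw [Complex.norm_real, Real.norm_eq_abs, sq_abs, mul_pow]
    refine (Finset.sum_le_sum fun i _ => h2 i).trans ?_
    simp
  · intro j hj k hk hjk
    simp only [hS, Finset.mem_sigma, Finset.mem_filter, Finset.mem_product, Finset.mem_univ,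
      true_and] at hj hk
    obtain ⟨⟨hj1, hj2⟩, hjne⟩ := hj
    obtain ⟨⟨hk1, hk2⟩, hkne⟩ := hk
    have a1 := hP _ _ hj1
    have a2 := hP _ _ hj2
    have a3 := hP _ _ hk1
    have a4 := hP _ _ hk2
    have e1 : ∀ {p q : ℕ}, p.Prime ∧ p ≤ x → q.Prime ∧ q ≤ x →
        Real.log p + Real.log q = Real.log ((p * q : ℕ) : ℝ) := by
      intro p q hp hq
      have h1 : (0:ℝ) < p := by exact_mod_cast hp.1.pos
      have h2 : (0:ℝ) < q := by exact_mod_cast hq.1.pos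
      rw [Nat.cast_mul, Real.log_mul h1.ne' h2.ne']
    rw [show Real.log (j.2.1 : ℝ) - Real.log (j.2.2 : ℝ) - (Real.log (k.2.1 : ℝ) - Real.log (k.2.2 : ℝ)) =
      (Real.log (j.2.1 : ℝ) + Real.log (k.2.2 : ℝ)) - (Real.log (k.2.1 : ℝ) + Real.log (j.2.2 : ℝ)) by ring,
      e1 a1 a4, e1 a3 a2]
    refine one_le_mul_log_sub (by exact_mod_cast hx) (L5_mem_xx a1 a4) (L5_mem_xx a3 a2) ?_
    intro h
    apply hjk
    have h5 : j.2.1 = k.2.1 ∧ j.2.2 = k.2.2 := by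
      have h6 : j.2.1 ∣ k.2.1 * j.2.2 := ⟨_, h.symm⟩
      rcases (a1.1.dvd_mul).mp h6 with h7 | h7
      · have h8 := (Nat.prime_dvd_prime_iff_eq a1.1 a3.1).mp h7
        refine ⟨h8, ?_⟩
        rw [h8] at h
        exact (Nat.eq_of_mul_eq_mul_left a3.1.pos h).symm
      · exact absurd ((Nat.prime_dvd_prime_iff_eq a1.1 a2.1).mp h7) hjne
    have h6 : j.1 = k.1 := hd _ _ j.2.1 hj1 (h5.1 ▸ hk1)
    rcases j with ⟨j1, j2, j3⟩
    rcases k with ⟨k1, k2, k3⟩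
    simp only at h5 h6
    obtain ⟨rfl, rfl⟩ := h5
    subst h6
    rfl

lemma L5_pt {K : ℝ} (hK : 0 < K) (hm : 0 < m) (N : Fin m → ℂ)
    (h : ∀ i, -(N i).re < 1 / (8 * K)) :
    1 ≤ 256 * K ^ 2 / m ^ 2 * ‖∑ i, N i‖ ^ 2 +
      64 / m ^ 2 * ‖((∑ i, (‖N i‖ ^ 2 - 1) : ℝ) : ℂ)‖ ^ 2 +
      64 / m ^ 2 * ‖∑ i, N i ^ 2‖ ^ 2 + 16 / (K ^ 2 * m) * ∑ i, ‖N i ^ 2‖ ^ 2 := by
  have hm' : (0 : ℝ) < m := by exact_mod_cast hm
  have h1 : ∀ i, (1 / K) * (1 / 2 + (‖N i‖ ^ 2 - 1) / 2 + (N i ^ 2).re / 2) -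
      (1 / K ^ 3) * ‖N i ^ 2‖ ^ 2 ≤ 2 * (1 / (8 * K)) + (N i).re := by
    intro i
    set y : ℝ := -(N i).re with hy
    have e1 : (1 / 2 + (‖N i‖ ^ 2 - 1) / 2 + (N i ^ 2).re / 2) = y ^ 2 := by
      have : (N i ^ 2).re = (N i).re ^ 2 - (N i).im ^ 2 := by rw [sq, Complex.mul_re]; ring
      rw [this, ← Complex.normSq_eq_norm_sq, Complex.normSq_apply, hy]
      ring
    have e2 : y ^ 4 ≤ ‖N i ^ 2‖ ^ 2 := by
      rw [norm_pow, ← pow_mul]
      have : |y| ≤ ‖N i‖ := by rw [hy, abs_neg]; exact Complex.abs_re_le_norm _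
      calc y ^ 4 = |y| ^ 4 := by rw [Even.pow_abs (by decide)]
        _ ≤ _ := pow_le_pow_left₀ (abs_nonneg _) this 4
    have e3 : (1 / K) * y ^ 2 - (1 / K ^ 3) * y ^ 4 ≤ |y| := by
      rcases le_or_gt |y| K with hy1 | hy1
      · have : (1 / K) * y ^ 2 ≤ |y| := by
          rw [one_div, inv_mul_le_iff₀ hK, ← sq_abs, sq]
          exact mul_le_mul_of_nonneg_right hy1 (abs_nonneg _)
        have : 0 ≤ (1 / K ^ 3) * y ^ 4 := by positivity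
        linarith
      · have : (1 / K) * y ^ 2 ≤ (1 / K ^ 3) * y ^ 4 := by
          have h2 : K ^ 2 ≤ y ^ 2 := by rw [← sq_abs y]; exact pow_le_pow_left₀ hK.le hy1.le 2
          rw [show (1 / K) * y ^ 2 = (1 / K ^ 3) * (K ^ 2 * y ^ 2) by field_simp]
          refine mul_le_mul_of_nonneg_left ?_ (by positivity)
          nlinarith [sq_nonneg y]
        linarith [abs_nonneg y]
    have e4 : |y| ≤ 2 * (1 / (8 * K)) + (N i).re := by
      have h2 : y < 1 / (8 * K) := h i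
      have h3 : (N i).re = -y := by rw [hy]; ring
      have h4 : (0:ℝ) < 1 / (8 * K) := by positivity
      rw [h3, abs_le]
      constructor <;> linarith
    rw [e1]
    have e5 : (1 / K ^ 3) * y ^ 4 ≤ (1 / K ^ 3) * ‖N i ^ 2‖ ^ 2 :=
      mul_le_mul_of_nonneg_left e2 (by positivity)
    linarith
  have h2 := Finset.sum_le_sum fun i (_ : i ∈ (Finset.univ : Finset (Fin m))) => h1 i
  rw [Finset.sum_sub_distrib, ← Finset.mul_sum, ← Finset.mul_sum, Finset.sum_add_distrib,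
    Finset.sum_add_distrib, Finset.sum_add_distrib, ← Complex.re_sum] at h2
  have h2a : ∑ i, (‖N i‖ ^ 2 - 1) / 2 = (∑ i, (‖N i‖ ^ 2 - 1)) / 2 := by rw [Finset.sum_div]
  have h2b : ∑ i, (N i ^ 2).re / 2 = (∑ i, N i ^ 2).re / 2 := by
    rw [Complex.re_sum, Finset.sum_div]
  rw [h2a, h2b] at h2
  simp only [Finset.sum_const, Finset.card_univ, Fintype.card_fin, nsmul_eq_mul] at h2
  set X := ‖∑ i, N i‖ with hX
  set A := ‖((∑ i, (‖N i‖ ^ 2 - 1) : ℝ) : ℂ)‖ with hA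
  set B := ‖∑ i, N i ^ 2‖ with hB
  set Q := ∑ i, ‖N i ^ 2‖ ^ 2 with hQ
  have a1 : (∑ i, N i).re ≤ X := Complex.re_le_norm _
  have a2 : -A ≤ ∑ i, (‖N i‖ ^ 2 - 1) := by
    rw [hA, Complex.norm_real, Real.norm_eq_abs]
    exact neg_abs_le _
  have a3 : -B ≤ (∑ i, N i ^ 2).re := by
    have := Complex.abs_re_le_norm (∑ i, N i ^ 2)
    linarith [neg_abs_le (∑ i, N i ^ 2).re]
  have hQ0 : 0 ≤ Q := Finset.sum_nonneg fun i _ => by positivity
  by_contra hlt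
  rw [not_le] at hlt
  have t1 : 0 ≤ 256 * K ^ 2 / m ^ 2 * X ^ 2 := by positivity
  have t2 : 0 ≤ 64 / (m:ℝ) ^ 2 * A ^ 2 := by positivity
  have t3 : 0 ≤ 64 / (m:ℝ) ^ 2 * B ^ 2 := by positivity
  have t4 : 0 ≤ 16 / (K ^ 2 * m) * Q := by positivity
  have b1 : K * X < m / 16 := by
    have : 256 * K ^ 2 / m ^ 2 * X ^ 2 < 1 := by linarith
    rw [show 256 * K ^ 2 / m ^ 2 * X ^ 2 = (K * X / (m / 16)) ^ 2 by field_simp; ring] at this
    have h3 := (sq_lt_one_iff₀ (by positivity)).mp this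
    rwa [div_lt_one (by positivity)] at h3
  have b2 : A < m / 8 := by
    have : 64 / (m:ℝ) ^ 2 * A ^ 2 < 1 := by linarith
    rw [show 64 / (m:ℝ) ^ 2 * A ^ 2 = (A / (m / 8)) ^ 2 by field_simp; ring] at this
    have h3 := (sq_lt_one_iff₀ (by positivity)).mp this
    rwa [div_lt_one (by positivity)] at h3
  have b3 : B < m / 8 := by
    have : 64 / (m:ℝ) ^ 2 * B ^ 2 < 1 := by linarith
    rw [show 64 / (m:ℝ) ^ 2 * B ^ 2 = (B / (m / 8)) ^ 2 by field_simp; ring] at this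
    have h3 := (sq_lt_one_iff₀ (by positivity)).mp this
    rwa [div_lt_one (by positivity)] at h3
  have b4 : 1 / K ^ 2 * Q < m / 16 := by
    have : 16 / (K ^ 2 * m) * Q < 1 := by linarith
    rw [show 16 / (K ^ 2 * m) * Q = (1 / K ^ 2 * Q) / (m / 16) by field_simp] at this
    rwa [div_lt_one (by positivity)] at this
  have h3 : K * ((1 / K) * (m * (1 / 2) + (∑ i, (‖N i‖ ^ 2 - 1)) / 2 + (∑ i, N i ^ 2).re / 2) -
      (1 / K ^ 3) * Q) ≤ K * (m * (2 * (1 / (8 * K))) + (∑ i, N i).re) :=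
    mul_le_mul_of_nonneg_left h2 hK.le
  have h4 : K * ((1 / K) * (m * (1 / 2) + (∑ i, (‖N i‖ ^ 2 - 1)) / 2 + (∑ i, N i ^ 2).re / 2) -
      (1 / K ^ 3) * Q) = (m * (1 / 2) + (∑ i, (‖N i‖ ^ 2 - 1)) / 2 + (∑ i, N i ^ 2).re / 2) -
      1 / K ^ 2 * Q := by field_simp
  have h5 : K * (m * (2 * (1 / (8 * K))) + (∑ i, N i).re) = m / 4 + K * (∑ i, N i).re := by
    field_simp; ring
  rw [h4, h5] at h3
  have h6 : K * (∑ i, N i).re ≤ K * X := mul_le_mul_of_nonneg_left a1 hK.le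
  linarith

omit m P s x U in
lemma L5_int4 {f1 f2 f3 f4 : ℝ → ℝ} (c1 c2 c3 c4 : ℝ) (h1 : Integrable f1) (h2 : Integrable f2)
    (h3 : Integrable f3) (h4 : Integrable f4) :
    Integrable (fun t => c1 * f1 t + c2 * f2 t + c3 * f3 t + c4 * f4 t) ∧
    ∫ t, (c1 * f1 t + c2 * f2 t + c3 * f3 t + c4 * f4 t) =
      c1 * (∫ t, f1 t) + c2 * (∫ t, f2 t) + c3 * (∫ t, f3 t) + c4 * (∫ t, f4 t) := by
  have a1 : Integrable (fun t => c1 * f1 t) := h1.const_mul _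
  have a2 : Integrable (fun t => c2 * f2 t) := h2.const_mul _
  have a3 : Integrable (fun t => c3 * f3 t) := h3.const_mul _
  have a4 : Integrable (fun t => c4 * f4 t) := h4.const_mul _
  have b2 : Integrable (fun t => c1 * f1 t + c2 * f2 t) := a1.add a2
  have b3 : Integrable (fun t => c1 * f1 t + c2 * f2 t + c3 * f3 t) := b2.add a3
  refine ⟨b3.add a4, ?_⟩
  rw [integral_add b3 a4, integral_add b2 a3, integral_add a1 a2, integral_const_mul,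
    integral_const_mul, integral_const_mul, integral_const_mul]

lemma L5_abs {K T : ℝ} (hK : 0 < K) (hm : 0 < m) (hT : 0 < T)
    (hP : ∀ i, ∀ p ∈ P i, p.Prime ∧ p ≤ x) (hx : (x : ℝ) ^ 2 ≤ 2 * T)
    (hd : ∀ i j, ∀ p, p ∈ P i → p ∈ P j → i = j) (hs : ∀ i, 0 < s i)
    (hsum : ∀ i, ∑ p ∈ P i, (1 : ℝ) / p = s i) :
    volume.real {t : ℝ | t ∈ Icc T (2 * T) ∧ ∀ i, -(L5_N (P i) (s i) t).re < 1 / (8 * K)} ≤
      Real.pi * T * ((1280 * K ^ 2 + 960) / m + 160 / K ^ 2) := by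
  have hm' : (0 : ℝ) < m := by exact_mod_cast hm
  have hU : 0 < 2 * T := by positivity
  obtain ⟨i1, m1⟩ := L5_m1 hP hU hx hd hs hsum
  obtain ⟨i2, m2⟩ := L5_m2 Finset.univ hP hU hx hd hs hsum
  obtain ⟨i3, m3⟩ := L5_m3 hP hU hx hd hs hsum
  have i4 : ∀ i, Integrable (fun t : ℝ => ‖L5_N (P i) (s i) t ^ 2‖ ^ 2 * fejerW (t / (2 * T))) := by
    intro i
    have := (L5_m2 {i} hP hU hx hd hs hsum).1
    simpa only [Finset.sum_singleton] using this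
  have m4 : ∀ i, ∫ t : ℝ, ‖L5_N (P i) (s i) t ^ 2‖ ^ 2 * fejerW (t / (2 * T)) ≤
      5 * Real.pi * (2 * T) := by
    intro i
    have := (L5_m2 {i} hP hU hx hd hs hsum).2
    simpa only [Finset.sum_singleton, Finset.card_singleton, Nat.cast_one, mul_one] using this
  set Φ : ℝ → ℝ := fun t => 256 * K ^ 2 / m ^ 2 * (‖∑ i, L5_N (P i) (s i) t‖ ^ 2 * fejerW (t / (2 * T))) +
      64 / m ^ 2 * (‖((∑ i, (‖L5_N (P i) (s i) t‖ ^ 2 - 1) : ℝ) : ℂ)‖ ^ 2 * fejerW (t / (2 * T))) +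
      64 / m ^ 2 * (‖∑ i, L5_N (P i) (s i) t ^ 2‖ ^ 2 * fejerW (t / (2 * T))) +
      16 / (K ^ 2 * m) * ∑ i, (‖L5_N (P i) (s i) t ^ 2‖ ^ 2 * fejerW (t / (2 * T))) with hΦ
  obtain ⟨hint, hval⟩ := L5_int4 (256 * K ^ 2 / m ^ 2) (64 / m ^ 2) (64 / m ^ 2)
    (16 / (K ^ 2 * m)) i1 i3 i2 (integrable_finsetSum Finset.univ fun i _ => i4 i)
  rw [integral_finsetSum _ fun i _ => i4 i] at hval
  have hΦ0 : ∀ t, 0 ≤ Φ t := by
    intro t
    have := fejerW_nonneg (t / (2 * T))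
    simp only [hΦ]
    positivity
  have hle : ∫ t, Φ t ≤ Real.pi * T * ((1280 * K ^ 2 + 960) / m + 160 / K ^ 2) := by
    refine hval.trans_le ?_
    have m4' : ∑ i, ∫ t : ℝ, ‖L5_N (P i) (s i) t ^ 2‖ ^ 2 * fejerW (t / (2 * T)) ≤
        m * (5 * Real.pi * (2 * T)) := by
      refine (Finset.sum_le_sum fun i _ => m4 i).trans ?_
      simp
    rw [Finset.card_univ, Fintype.card_fin] at m2
    calc _ ≤ 256 * K ^ 2 / m ^ 2 * (5 / 2 * Real.pi * (2 * T) * m) +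
          64 / m ^ 2 * (5 / 2 * Real.pi * (2 * T) * m) + 64 / m ^ 2 * (5 * Real.pi * (2 * T) * m) +
          16 / (K ^ 2 * m) * (m * (5 * Real.pi * (2 * T))) := by gcongr
      _ = _ := by field_simp; ring
  have hmark := mul_meas_ge_le_integral_of_nonneg (μ := volume) (Filter.Eventually.of_forall hΦ0) hint 1
  rw [one_mul] at hmark
  refine le_trans ?_ (hmark.trans hle)
  refine measureReal_mono ?_ (hint.measure_ge_lt_top one_pos).ne
  rintro t ⟨ht, hbad⟩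
  have hw : 1 ≤ fejerW (t / (2 * T)) := by
    apply fejerW_ge_one
    rw [abs_le]
    constructor
    · have : 0 ≤ t / (2 * T) := div_nonneg (hT.le.trans ht.1) hU.le
      linarith
    · rw [div_le_one hU]; exact ht.2
  have hp := L5_pt hK hm (fun i => L5_N (P i) (s i) t) hbad
  show 1 ≤ Φ t
  have : Φ t = (256 * K ^ 2 / m ^ 2 * ‖∑ i, L5_N (P i) (s i) t‖ ^ 2 +
      64 / m ^ 2 * ‖((∑ i, (‖L5_N (P i) (s i) t‖ ^ 2 - 1) : ℝ) : ℂ)‖ ^ 2 +
      64 / m ^ 2 * ‖∑ i, L5_N (P i) (s i) t ^ 2‖ ^ 2 +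
      16 / (K ^ 2 * m) * ∑ i, ‖L5_N (P i) (s i) t ^ 2‖ ^ 2) * fejerW (t / (2 * T)) := by
    simp only [hΦ]
    rw [← Finset.sum_mul]
    ring
  rw [this]
  exact one_le_mul_of_one_le_of_one_le hp hw

end fam

lemma L5_Dl {T a b : ℝ} (hs : 0 < sg T a b) (t : ℝ) :
    Dl T a b t = (Real.sqrt (sg T a b) : ℂ) * L5_N (PR T a b) (sg T a b) t := by
  unfold Dl
  rw [L5_N_eq, Finset.mul_sum]
  refine Finset.sum_congr rfl fun p hp => ?_
  have hpp : p.Prime := (Finset.mem_filter.mp hp).2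
  have hp0 : (0 : ℝ) < p := by exact_mod_cast hpp.pos
  have h1 : (p : ℂ) ^ (-(1 / 2 + t * I) : ℂ) = ((1 / Real.sqrt p : ℝ) : ℂ) * L5_e (Real.log p) t := by
    have h2 : ((1 / Real.sqrt p : ℝ) : ℂ) = Complex.exp ((Real.log p * (-(1 / 2)) : ℝ) : ℂ) := by
      rw [← Complex.ofReal_exp, ← Real.rpow_def_of_pos hp0, Real.rpow_neg hp0.le,
        ← Real.sqrt_eq_rpow, one_div]
    rw [h2, L5_e, ← Complex.exp_add, Complex.cpow_def_of_ne_zero (by exact_mod_cast hpp.ne_zero),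
      ← Complex.ofReal_natCast, ← Complex.ofReal_log hp0.le]
    congr 1
    push_cast
    ring
  rw [h1, ← mul_assoc, ← Complex.ofReal_mul]
  congr 2
  unfold L5_c
  have hs1 : 0 < Real.sqrt (sg T a b) := Real.sqrt_pos.mpr hs
  have hp1 : 0 < Real.sqrt p := Real.sqrt_pos.mpr hp0
  rw [Real.sqrt_mul hs.le]
  field_simp

/-- L5: anticoncentration -/
theorem anti {ε : ℝ} (hε : 0 < ε) : ∃ c : ℝ, 0 < c ∧ ∃ m : ℕ, ∀ a b : Fin m → ℝ,
    (∀ i, 0 < a i) → (∀ i, 8 * a i ≤ b i) → (∀ i, b i ≤ 1 / 8) → (∀ i j, i < j → b j ≤ a i) →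
    ∃ T0 : ℝ, ∀ T : ℝ, T0 ≤ T →
      volume.real {t : ℝ | t ∈ Icc T (2 * T) ∧ ∀ i,
        -(Dl T (a i) (b i) t).re < c * Real.sqrt (sg T (a i) (b i))} ≤ ε * T := by
  obtain ⟨C, hC, hsg⟩ := sg_asymp
  have hpi := Real.pi_pos
  set K : ℝ := Real.sqrt (320 * Real.pi / ε) + 1 with hK
  have hK0 : 0 < K := by positivity
  have hK2 : 320 * Real.pi / ε ≤ K ^ 2 := by
    have h1 : Real.sqrt (320 * Real.pi / ε) ^ 2 = 320 * Real.pi / ε := Real.sq_sqrt (by positivity)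
    calc 320 * Real.pi / ε = Real.sqrt (320 * Real.pi / ε) ^ 2 := h1.symm
      _ ≤ K ^ 2 := pow_le_pow_left₀ (Real.sqrt_nonneg _) (by rw [hK]; linarith) 2
  set m : ℕ := ⌈2 * Real.pi * (1280 * K ^ 2 + 960) / ε⌉₊ + 1 with hm
  have hm0 : 0 < m := Nat.succ_pos _
  have hm1 : (0 : ℝ) < m := by exact_mod_cast hm0
  have hm2 : 2 * Real.pi * (1280 * K ^ 2 + 960) / ε ≤ m := by
    rw [hm]; push_cast
    linarith [Nat.le_ceil (2 * Real.pi * (1280 * K ^ 2 + 960) / ε)]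
  refine ⟨1 / (8 * K), by positivity, m, ?_⟩
  intro a b ha hab hb hij
  refine ⟨2 + ∑ i, Real.exp ((1 + C) / a i), fun T hT => ?_⟩
  have hexp : ∀ i, Real.exp ((1 + C) / a i) ≤ ∑ i, Real.exp ((1 + C) / a i) := fun i =>
    Finset.single_le_sum (f := fun i => Real.exp ((1 + C) / a i)) (fun _ _ => (Real.exp_pos _).le)
      (Finset.mem_univ i)
  have hsum0 : 0 ≤ ∑ i, Real.exp ((1 + C) / a i) := Finset.sum_nonneg fun _ _ => (Real.exp_pos _).le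
  have hT2 : 2 ≤ T := by linarith
  have hT0 : 0 < T := by linarith
  have hT1 : 1 < T := by linarith
  have hlog : ∀ i, (1 + C) / a i ≤ Real.log T := by
    intro i
    rw [Real.le_log_iff_exp_le hT0]
    linarith [hexp i]
  have hlog' : ∀ i, 1 + C ≤ a i * Real.log T := by
    intro i
    have := hlog i
    rwa [div_le_iff₀ (ha i), mul_comm] at this
  have hspos : ∀ i, 0 < sg T (a i) (b i) := by
    intro i
    have h1 := hsg T (a i) (b i) hT1 (ha i) (by linarith [hab i, ha i]) (by linarith [hlog' i])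
    have h2 : C / (a i * Real.log T) ≤ 1 := by
      rw [div_le_one (by linarith [hlog' i])]
      linarith [hlog' i]
    have h3 : Real.log 8 ≤ Real.log (b i / a i) := by
      refine Real.log_le_log (by norm_num) ?_
      rw [le_div_iff₀ (ha i)]
      exact hab i
    have h4 : 2 < Real.log 8 := by
      rw [show (8:ℝ) = 2 ^ 3 by norm_num, Real.log_pow]
      have := Real.log_two_gt_d9
      push_cast
      linarith
    have h5 := (abs_le.mp (h1.trans h2)).1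
    linarith
  set x : ℕ := ⌊T ^ ((1 : ℝ) / 8)⌋₊ with hx
  have hxT : (x : ℝ) ^ 2 ≤ 2 * T := by
    have h1 : (x : ℝ) ≤ T ^ ((1 : ℝ) / 8) := Nat.floor_le (by positivity)
    calc (x : ℝ) ^ 2 ≤ (T ^ ((1 : ℝ) / 8)) ^ 2 := pow_le_pow_left₀ (Nat.cast_nonneg _) h1 2
      _ = T ^ ((1 : ℝ) / 4) := by rw [← Real.rpow_natCast, ← Real.rpow_mul hT0.le]; norm_num
      _ ≤ T ^ (1 : ℝ) := Real.rpow_le_rpow_of_exponent_le hT1.le (by norm_num)
      _ ≤ 2 * T := by rw [Real.rpow_one]; linarith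
  have hPx : ∀ i, ∀ p ∈ PR T (a i) (b i), p.Prime ∧ p ≤ x := by
    intro i p hp
    unfold PR at hp
    rw [Finset.mem_filter, Finset.mem_Ioc] at hp
    refine ⟨hp.2, hp.1.2.trans ?_⟩
    exact Nat.floor_le_floor (Real.rpow_le_rpow_of_exponent_le hT1.le (hb i))
  have hd : ∀ i j, ∀ p, p ∈ PR T (a i) (b i) → p ∈ PR T (a j) (b j) → i = j := by
    have key : ∀ i j, i < j → ∀ p, p ∈ PR T (a i) (b i) → p ∈ PR T (a j) (b j) → False := by
      intro i j hlt p h1 h2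
      unfold PR at h1 h2
      rw [Finset.mem_filter, Finset.mem_Ioc] at h1 h2
      have h3 : ⌊T ^ b j⌋₊ ≤ ⌊T ^ a i⌋₊ :=
        Nat.floor_le_floor (Real.rpow_le_rpow_of_exponent_le hT1.le (hij i j hlt))
      have := h1.1.1
      have := h2.1.2
      omega
    intro i j p h1 h2
    rcases lt_trichotomy i j with h | h | h
    · exact (key i j h p h1 h2).elim
    · exact h
    · exact (key j i h p h2 h1).elim
  have hmain := L5_abs (T := T) hK0 hm0 hT0 hPx hxT hd hspos (fun i => rfl)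
  have hset : {t : ℝ | t ∈ Icc T (2 * T) ∧ ∀ i,
        -(Dl T (a i) (b i) t).re < 1 / (8 * K) * Real.sqrt (sg T (a i) (b i))} =
      {t : ℝ | t ∈ Icc T (2 * T) ∧ ∀ i,
        -(L5_N (PR T (a i) (b i)) (sg T (a i) (b i)) t).re < 1 / (8 * K)} := by
    ext t
    simp only [mem_ofPred_eq]
    refine and_congr_right fun _ => forall_congr' fun i => ?_
    rw [L5_Dl (hspos i), Complex.re_ofReal_mul, ← mul_neg, mul_comm (1 / (8 * K))]
    exact mul_lt_mul_iff_right₀ (Real.sqrt_pos.mpr (hspos i))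
  rw [hset]
  refine hmain.trans ?_
  have e1 : Real.pi * ((1280 * K ^ 2 + 960) / m) ≤ ε / 2 := by
    rw [div_le_iff₀ hε] at hm2
    rw [← mul_div_assoc, div_le_iff₀ hm1]
    linarith
  have e2 : Real.pi * (160 / K ^ 2) ≤ ε / 2 := by
    rw [div_le_iff₀ hε] at hK2
    rw [← mul_div_assoc, div_le_iff₀ (by positivity)]
    linarith
  calc Real.pi * T * ((1280 * K ^ 2 + 960) / m + 160 / K ^ 2) =
      (Real.pi * ((1280 * K ^ 2 + 960) / m) + Real.pi * (160 / K ^ 2)) * T := by ring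
    _ ≤ ε * T := by
        refine mul_le_mul_of_nonneg_right ?_ hT0.le
        linarith

end Pool.Agent.AHD
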