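import Pool.Agent.ZGap.AH.L1
import Pool.Agent.ZGap.AH.L2
import Pool.Agent.ZGap.AH.L34
import Pool.Agent.ZGap.AH.L5

/-!
# Lower bound for V
-/

open scoped ContDiff

namespace Pool.Agent.AHD

open Complex MeasureTheory Set Filter Topology Pool.Agent.Hadamard Pool.Agent.HalfGap

/-- Chebyshev -/
lemma L6_cheb {f : ℝ → ℂ} (hf : Continuous f) {T K lam η : ℝ} (hT : 0 ≤ T) (hlam : 0 < lam)
    (h : ∫ t in T..(2 * T), ‖f t‖ ^ 2 ≤ K * T) (hK : K ≤ η * lam ^ 2) :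
    volume.real {t : ℝ | t ∈ Icc T (2 * T) ∧ lam < ‖f t‖} ≤ η * T := by
  have hTT : T ≤ 2 * T := by linarith
  have hc : Continuous fun t => ‖f t‖ ^ 2 := (hf.norm).pow 2
  have hint : Integrable (fun t => ‖f t‖ ^ 2) (volume.restrict (Icc T (2 * T))) :=
    hc.continuousOn.integrableOn_Icc
  have h1 := mul_meas_ge_le_integral_of_nonneg (μ := volume.restrict (Icc T (2 * T)))
    (f := fun t => ‖f t‖ ^ 2) (Filter.Eventually.of_forall fun t => by positivity) hint (lam ^ 2)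
  have h2 : ∫ t in Icc T (2 * T), ‖f t‖ ^ 2 = ∫ t in T..(2 * T), ‖f t‖ ^ 2 := by
    rw [intervalIntegral.integral_of_le hTT, integral_Icc_eq_integral_Ioc]
  have hmeas : MeasurableSet {t : ℝ | lam ^ 2 ≤ ‖f t‖ ^ 2} :=
    (isClosed_le continuous_const hc).measurableSet
  have h3 : (volume.restrict (Icc T (2 * T))).real {t : ℝ | lam ^ 2 ≤ ‖f t‖ ^ 2} =
      volume.real ({t : ℝ | lam ^ 2 ≤ ‖f t‖ ^ 2} ∩ Icc T (2 * T)) := by
    rw [measureReal_restrict_apply hmeas]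
  have h4 : volume.real {t : ℝ | t ∈ Icc T (2 * T) ∧ lam < ‖f t‖} ≤
      volume.real ({t : ℝ | lam ^ 2 ≤ ‖f t‖ ^ 2} ∩ Icc T (2 * T)) := by
    apply measureReal_mono
    · rintro t ⟨ht, hl⟩
      exact ⟨by simpa using pow_le_pow_left₀ hlam.le hl.le 2, ht⟩
    · exact ((measure_mono inter_subset_right).trans_lt (by simp)).ne
  rw [h2] at h1
  rw [h3] at h1
  have h5 : lam ^ 2 * volume.real {t : ℝ | t ∈ Icc T (2 * T) ∧ lam < ‖f t‖} ≤ lam ^ 2 * (η * T) := by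
    calc lam ^ 2 * volume.real {t : ℝ | t ∈ Icc T (2 * T) ∧ lam < ‖f t‖}
        ≤ lam ^ 2 * volume.real ({t : ℝ | lam ^ 2 ≤ ‖f t‖ ^ 2} ∩ Icc T (2 * T)) := by gcongr
      _ ≤ K * T := h1.trans h
      _ ≤ (η * lam ^ 2) * T := by gcongr
      _ = _ := by ring
  exact le_of_mul_le_mul_left h5 (by positivity)

/-- deterministic step -/
lemma L6_det {J : ℕ} (hJ : 8 ≤ J) {X Δ V : ℂ} {c s M : ℝ} (h1 : ‖X - Δ‖ ≤ c / 4 * s)
    (h2 : ‖X‖ ≤ J / 8) (h3 : ‖V - ∑ j ∈ Finset.range (J + 1), (-X) ^ j / (j.factorial : ℂ)‖ ≤ 1)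
    (h4 : c * s ≤ -Δ.re) (h5 : M + 2 < Real.exp (3 * c / 4 * s)) : M < ‖V‖ := by
  set Q := ∑ j ∈ Finset.range (J + 1), (-X) ^ j / (j.factorial : ℂ) with hQ
  have hJ' : (8 : ℝ) ≤ J := by exact_mod_cast hJ
  have e1 : ‖Complex.exp (-X) - Q‖ ≤ 1 := by
    have hx : ‖-X‖ / ((J + 1 : ℕ).succ : ℝ) ≤ 1 / 2 := by
      rw [norm_neg, div_le_iff₀ (by positivity)]
      push_cast
      linarith
    have := Complex.exp_bound' (x := -X) (n := J + 1) hx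
    refine this.trans ?_
    rw [norm_neg]
    have hn : (0:ℝ) < ((J + 1 : ℕ) : ℝ) := by positivity
    have h8 : ‖X‖ ≤ ((J + 1 : ℕ) : ℝ) / 8 := by push_cast; linarith
    have h9 : ((J + 1 : ℕ) : ℝ) ^ (J + 1) / ((J + 1).factorial : ℝ) ≤ Real.exp ((J + 1 : ℕ) : ℝ) :=
      Real.pow_div_factorial_le_exp _ hn.le _
    have h10 : Real.exp ((J + 1 : ℕ) : ℝ) = Real.exp 1 ^ (J + 1) := by
      rw [← Real.exp_nat_mul, mul_one]
    have h11 : ‖X‖ ^ (J + 1) / ((J + 1).factorial : ℝ) ≤ (Real.exp 1 / 8) ^ (J + 1) := by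
      calc ‖X‖ ^ (J + 1) / ((J + 1).factorial : ℝ)
          ≤ (((J + 1 : ℕ) : ℝ) / 8) ^ (J + 1) / ((J + 1).factorial : ℝ) := by gcongr
        _ = ((J + 1 : ℕ) : ℝ) ^ (J + 1) / ((J + 1).factorial : ℝ) / 8 ^ (J + 1) := by
            rw [div_pow]; ring
        _ ≤ Real.exp 1 ^ (J + 1) / 8 ^ (J + 1) := by
            rw [← h10]; gcongr
        _ = _ := by rw [div_pow]
    have h12 : (Real.exp 1 / 8) ^ (J + 1) ≤ 1 / 2 := by
      have he : Real.exp 1 / 8 ≤ 1 / 2 := by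
        have := Real.exp_one_lt_d9
        linarith
      calc (Real.exp 1 / 8) ^ (J + 1) ≤ (1 / 2 : ℝ) ^ (J + 1) := by gcongr
        _ ≤ (1 / 2 : ℝ) ^ 1 := pow_le_pow_of_le_one (by norm_num) (by norm_num) (by omega)
        _ = 1 / 2 := by norm_num
    linarith
  have e2 : Real.exp (3 * c / 4 * s) ≤ ‖Complex.exp (-X)‖ := by
    rw [Complex.norm_exp]
    apply Real.exp_le_exp.2
    have : |(X - Δ).re| ≤ ‖X - Δ‖ := Complex.abs_re_le_norm _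
    have h6 := (abs_le.1 (this.trans h1)).2
    simp only [Complex.sub_re] at h6
    simp only [Complex.neg_re]
    linarith
  have e3 : ‖Complex.exp (-X)‖ ≤ ‖V‖ + 2 := by
    calc ‖Complex.exp (-X)‖ = ‖(Complex.exp (-X) - Q) - (V - Q) + V‖ := by congr 1; ring
      _ ≤ ‖(Complex.exp (-X) - Q) - (V - Q)‖ + ‖V‖ := norm_add_le _ _
      _ ≤ ‖Complex.exp (-X) - Q‖ + ‖V - Q‖ + ‖V‖ := by gcongr; exact norm_sub_le _ _
      _ ≤ 1 + 1 + ‖V‖ := by gcongr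
      _ = ‖V‖ + 2 := by ring
  linarith

/-- choice of a scale -/
lemma L6_scale {c C1 C2 C3 η r b : ℝ} (A : ℝ) (hc : 0 < c) (hη : 0 < η) (hr : 0 < r) (hb : 0 < b) :
    ∃ ℓ : ℝ, 1 ≤ ℓ ∧ Real.exp (-ℓ) ≤ r ∧ Real.exp (-ℓ) ≤ 1 / 100 ∧ 8 * Real.exp (-ℓ) ≤ b ∧
      C2 * (1 + Real.log ℓ + Real.log (1 / b)) ≤ η * (c / 4 * Real.sqrt (ℓ / 2)) ^ 2 ∧
      C1 ≤ η * ℓ ∧ C3 * Real.exp (-ℓ) ≤ η ∧
      ℓ ^ A + 2 < Real.exp (3 * c / 4 * Real.sqrt (ℓ / 2)) ∧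
      ℓ / 2 + 1 ≤ Real.log b + ℓ := by
  have hexp : Tendsto (fun ℓ : ℝ => Real.exp (-ℓ)) atTop (𝓝 0) := Real.tendsto_exp_neg_atTop_nhds_zero
  have a1 : ∀ᶠ ℓ : ℝ in atTop, Real.exp (-ℓ) < r := hexp.eventually (gt_mem_nhds hr)
  have a2 : ∀ᶠ ℓ : ℝ in atTop, Real.exp (-ℓ) < 1 / 100 := hexp.eventually (gt_mem_nhds (by norm_num))
  have a3 : ∀ᶠ ℓ : ℝ in atTop, Real.exp (-ℓ) < b / 8 :=
    hexp.eventually (gt_mem_nhds (by positivity))
  have a4 : ∀ᶠ ℓ : ℝ in atTop, C3 * Real.exp (-ℓ) < η := by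
    have : Tendsto (fun ℓ : ℝ => C3 * Real.exp (-ℓ)) atTop (𝓝 (C3 * 0)) := hexp.const_mul C3
    rw [mul_zero] at this
    exact this.eventually (gt_mem_nhds hη)
  have a5 : ∀ᶠ ℓ : ℝ in atTop, C2 * (1 + Real.log ℓ + Real.log (1 / b)) ≤
      η * (c / 4 * Real.sqrt (ℓ / 2)) ^ 2 := by
    have hlog : (fun ℓ : ℝ => C2 * (1 + Real.log ℓ + Real.log (1 / b))) =o[atTop]
        (fun ℓ : ℝ => ℓ) := by
      apply Asymptotics.IsLittleO.const_mul_left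
      apply Asymptotics.IsLittleO.add
      · apply Asymptotics.IsLittleO.add
        · exact Asymptotics.isLittleO_const_id_atTop _
        · exact Real.isLittleO_log_id_atTop
      · exact Asymptotics.isLittleO_const_id_atTop _
    have hpos : 0 < η * (c ^ 2 / 32) := by positivity
    filter_upwards [hlog.bound hpos, eventually_ge_atTop (1 : ℝ)] with ℓ h1 h2
    have h3 : (c / 4 * Real.sqrt (ℓ / 2)) ^ 2 = c ^ 2 / 32 * ℓ := by
      rw [mul_pow, Real.sq_sqrt (by linarith)]; ring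
    rw [h3]
    have h4 := (Real.le_norm_self _).trans h1
    rw [Real.norm_eq_abs, abs_of_nonneg (by linarith : (0:ℝ) ≤ ℓ)] at h4
    linarith
  have a6 : ∀ᶠ ℓ : ℝ in atTop, C1 ≤ η * ℓ := by
    filter_upwards [eventually_ge_atTop (C1 / η)] with ℓ h
    rw [div_le_iff₀ hη] at h
    linarith
  have a7 : ∀ᶠ ℓ : ℝ in atTop, ℓ / 2 + 1 ≤ Real.log b + ℓ := by
    filter_upwards [eventually_ge_atTop (2 * (1 - Real.log b))] with ℓ h
    linarith
  have a8 : ∀ᶠ ℓ : ℝ in atTop, ℓ ^ A + 2 < Real.exp (3 * c / 4 * Real.sqrt (ℓ / 2)) := by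
    have hq : 0 < 3 * c / 4 := by positivity
    have hB : (fun x : ℝ => (2:ℝ) ^ A * x ^ (2 * A) + 2) =o[atTop]
        (fun x : ℝ => Real.exp (3 * c / 4 * x)) := by
      apply Asymptotics.IsLittleO.add
      · exact (isLittleO_rpow_exp_pos_mul_atTop (2 * A) hq).const_mul_left _
      · apply Asymptotics.isLittleO_const_left.2
        right
        apply tendsto_norm_atTop_atTop.comp
        exact Real.tendsto_exp_atTop.comp (tendsto_id.const_mul_atTop hq)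
    have hs : Tendsto (fun ℓ : ℝ => Real.sqrt (ℓ / 2)) atTop atTop :=
      Real.tendsto_sqrt_atTop.comp (tendsto_id.atTop_div_const (by norm_num))
    have h1 := hs.eventually (hB.bound (show (0:ℝ) < 1 / 2 by norm_num))
    filter_upwards [h1, eventually_ge_atTop (1 : ℝ)] with ℓ h1 h2
    have h3 : (2:ℝ) ^ A * Real.sqrt (ℓ / 2) ^ (2 * A) = ℓ ^ A := by
      rw [Real.rpow_mul (Real.sqrt_nonneg _), Real.rpow_two, Real.sq_sqrt (by linarith),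
        ← Real.mul_rpow (by norm_num) (by linarith)]
      congr 1; ring
    rw [h3] at h1
    have h4 := (Real.le_norm_self _).trans h1
    rw [Real.norm_eq_abs, Real.abs_exp] at h4
    have h5 := Real.exp_pos (3 * c / 4 * Real.sqrt (ℓ / 2))
    linarith
  obtain ⟨ℓ, h⟩ := (a1.and (a2.and (a3.and (a4.and (a5.and (a6.and (a7.and (a8.and
    (eventually_ge_atTop (1:ℝ)))))))))).exists
  obtain ⟨h1, h2, h3, h4, h5, h6, h7, h8, h9⟩ := h
  exact ⟨ℓ, h9, h1.le, h2.le, by linarith, h5, h6, h4.le, h8, h7⟩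


/-- one scale -/
lemma L6_one (c C1 C2 C3 η r b A : ℝ) (hc : 0 < c) (hη : 0 < η) (hr : 0 < r) (hb : 0 < b)
    (hb2 : b ≤ 1 / 2)
    (H1 : ∀ D : AData, ∃ T0 : ℝ, ∀ T : ℝ, T0 ≤ T → ∀ τ : ℝ,
      1 / 3 ≤ τ → τ ≤ 1 / 2 → ∫ t in T..(2 * T), ‖XXp D T τ t‖ ^ 2 ≤ C1 * Real.log (1 / D.ep) * T)
    (H2 : ∀ D : AData, ∀ b : ℝ, 2 * D.ep ≤ b → b ≤ 1 / 2 →
      ∃ T0 : ℝ, ∀ T : ℝ, T0 ≤ T → ∀ τ : ℝ, 1 / 3 ≤ τ → τ ≤ 1 / 2 →
      ∫ t in T..(2 * T), ‖XXp D T τ t - Dl T D.ep b t‖ ^ 2 ≤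
        C2 * (1 + Real.log (Real.log (1 / D.ep)) + Real.log (1 / b)) * T)
    (H3 : ∀ D : AData, ∃ T0 : ℝ, ∀ T : ℝ, T0 ≤ T → ∀ τ : ℝ,
      1 / 3 ≤ τ → τ ≤ 1 / 2 →
      ∫ t in T..(2 * T), ‖Vs D T (ss (alp τ T * Yc D.ep) t) - Qe D T τ t‖ ^ 2 ≤ C3 * D.ep * T) :
    ∃ D : AData, D.ep ≤ r ∧ 8 * D.ep ≤ b ∧ ∃ T0 : ℝ, ∀ T : ℝ, T0 ≤ T → ∀ τ : ℝ,
      1 / 3 ≤ τ → τ ≤ 1 / 2 →
      volume.real {t : ℝ | t ∈ Icc T (2 * T) ∧ c * Real.sqrt (sg T D.ep b) ≤ -(Dl T D.ep b t).re ∧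
        ‖Vs D T (ss (alp τ T * Yc D.ep) t)‖ ≤ Real.log (1 / D.ep) ^ A} ≤ 3 * η * T := by
  obtain ⟨ℓ, hℓ1, h1, h2, h3, h4, h5, h6, h7, h8⟩ := L6_scale (c := c) (C1 := C1) (C2 := C2)
    (C3 := C3) A hc hη hr hb
  obtain ⟨D, hD⟩ := exists_AData (Real.exp_pos (-ℓ)) h2
  have hlog : Real.log (1 / D.ep) = ℓ := by
    rw [hD, one_div, Real.log_inv, Real.log_exp, neg_neg]
  refine ⟨D, by rw [hD]; exact h1, by rw [hD]; exact h3, ?_⟩
  obtain ⟨T1, hT1⟩ := H1 D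
  obtain ⟨T2, hT2⟩ := H2 D b (by rw [hD]; linarith [Real.exp_pos (-ℓ)]) hb2
  obtain ⟨T3, hT3⟩ := H3 D
  obtain ⟨C, hC, hsg⟩ := sg_asymp
  have hep := D.ep_pos
  refine ⟨max (max T1 T2) (max T3 (max 2 (Real.exp (max (1 / D.ep) (C / D.ep))))), ?_⟩
  intro T hT τ ht1 ht2
  simp only [max_le_iff] at hT
  obtain ⟨⟨hTa, hTb⟩, hTc, hTd, hTe⟩ := hT
  have hT0 : 0 < T := by linarith
  have hLT : max (1 / D.ep) (C / D.ep) ≤ Real.log T := (Real.le_log_iff_exp_le hT0).2 hTe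
  have hLT1 : 1 ≤ D.ep * Real.log T := by
    have := (le_max_left _ _).trans hLT
    rw [div_le_iff₀ hep] at this
    linarith
  have hLT2 : C / (D.ep * Real.log T) ≤ 1 := by
    have := (le_max_right _ _).trans hLT
    rw [div_le_iff₀ hep] at this
    rw [div_le_one (by linarith)]
    linarith
  have hebb : D.ep ≤ b := by rw [hD]; linarith [Real.exp_pos (-ℓ)]
  have hs : ℓ / 2 ≤ sg T D.ep b := by
    have h9 := hsg T D.ep b (by linarith) hep hebb hLT1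
    have h10 := (abs_le.1 h9).1
    rw [Real.log_div hb.ne' hep.ne', hD, Real.log_exp] at h10
    rw [hD] at hLT2 ⊢
    linarith
  set s := Real.sqrt (ℓ / 2) with hsdef
  have hspos : 0 < s := Real.sqrt_pos.2 (by linarith)
  have hJ8 : 8 * ℓ + 8 ≤ Jd D.ep := by
    unfold Jd
    rw [hlog]
    exact Nat.le_ceil _
  have hJ : 8 ≤ Jd D.ep := by
    have : (8 : ℝ) ≤ Jd D.ep := by linarith
    exact_mod_cast this
  -- continuity
  have hcD : Continuous fun t => Dl T D.ep b t := by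
    unfold Dl
    apply continuous_finsetSum
    intro p hp
    have hp0 : (p : ℂ) ≠ 0 := by
      have := (Finset.mem_filter.1 hp).2.ne_zero
      exact_mod_cast this
    apply Continuous.const_cpow
    · fun_prop
    · left; exact hp0
  have hcX : Continuous fun t => XXp D T τ t := by
    unfold XXp
    apply continuous_finsetSum
    intro p hp
    have hp0 : (p : ℂ) ≠ 0 := by
      have := (Finset.mem_filter.1 hp).2.ne_zero
      exact_mod_cast this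
    apply Continuous.mul continuous_const
    apply Continuous.const_cpow
    · unfold ss; fun_prop
    · left; exact hp0
  have hcQ : Continuous fun t => Qe D T τ t := by
    unfold Qe
    apply continuous_finsetSum
    intro j _
    exact ((hcX.neg).pow j).div_const _
  have hcV : Continuous fun t => Vs D T (ss (alp τ T * Yc D.ep) t) := by
    unfold Vs
    apply continuous_finsetSum
    intro n hn
    have hp0 : (n : ℂ) ≠ 0 := by
      have := (Finset.mem_Icc.1 hn).1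
      have h0 : n ≠ 0 := by omega
      exact_mod_cast h0
    apply Continuous.mul continuous_const
    apply Continuous.const_cpow
    · unfold ss; fun_prop
    · left; exact hp0
  have m1 := L6_cheb (hcX.sub hcD) (lam := c / 4 * s) (η := η) hT0.le (by positivity)
    (hT2 T hTb τ ht1 ht2) (by rw [hlog]; exact h4)
  have m2 := L6_cheb hcX (lam := (Jd D.ep : ℝ) / 8) (η := η) hT0.le (by positivity)
    (hT1 T hTa τ ht1 ht2) (by
      rw [hlog]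
      have : ℓ * ℓ ≤ ((Jd D.ep : ℝ) / 8) ^ 2 := by nlinarith
      calc C1 * ℓ ≤ (η * ℓ) * ℓ := by gcongr
        _ = η * (ℓ * ℓ) := by ring
        _ ≤ _ := by gcongr)
  have m3 := L6_cheb (hcV.sub hcQ) (lam := 1) (η := η) hT0.le (by norm_num)
    (hT3 T hTc τ ht1 ht2) (by rw [hD]; simpa using h6)
  simp only [Pi.sub_apply] at m1 m3
  have hsub : {t : ℝ | t ∈ Icc T (2 * T) ∧ c * Real.sqrt (sg T D.ep b) ≤ -(Dl T D.ep b t).re ∧
      ‖Vs D T (ss (alp τ T * Yc D.ep) t)‖ ≤ Real.log (1 / D.ep) ^ A} ⊆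
      ({t : ℝ | t ∈ Icc T (2 * T) ∧ c / 4 * s < ‖XXp D T τ t - Dl T D.ep b t‖} ∪
       {t : ℝ | t ∈ Icc T (2 * T) ∧ (Jd D.ep : ℝ) / 8 < ‖XXp D T τ t‖}) ∪
       {t : ℝ | t ∈ Icc T (2 * T) ∧
        1 < ‖Vs D T (ss (alp τ T * Yc D.ep) t) - Qe D T τ t‖} := by
    rintro t ⟨ht, hA, hB⟩
    by_contra hcon
    simp only [mem_union, mem_ofPred_eq, ht, true_and, not_or, not_lt] at hcon
    obtain ⟨⟨q1, q2⟩, q3⟩ := hcon
    have q4 : c * s ≤ -(Dl T D.ep b t).re := by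
      refine le_trans ?_ hA
      rw [hsdef]
      gcongr
    have := L6_det (M := ℓ ^ A) hJ q1 q2 q3 q4 h7
    rw [hlog] at hB
    linarith
  have hfin : ∀ P : ℝ → Prop, volume {t : ℝ | t ∈ Icc T (2 * T) ∧ P t} ≠ ⊤ := fun P =>
    ((measure_mono (fun t ht => ht.1)).trans_lt
      (by simp : volume (Icc T (2 * T)) < ⊤)).ne
  refine (measureReal_mono hsub ?_).trans ?_
  · exact (measure_union_lt_top (measure_union_lt_top (hfin _).lt_top (hfin _).lt_top)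
      (hfin _).lt_top).ne
  · refine (measureReal_union_le _ _).trans ?_
    have := measureReal_union_le (μ := volume)
      {t : ℝ | t ∈ Icc T (2 * T) ∧ c / 4 * s < ‖XXp D T τ t - Dl T D.ep b t‖}
       {t : ℝ | t ∈ Icc T (2 * T) ∧ (Jd D.ep : ℝ) / 8 < ‖XXp D T τ t‖}
    linarith

theorem lower {ε : ℝ} (hε : 0 < ε) : ∃ m : ℕ, ∀ A r : ℝ, 0 < A → 0 < r →
    ∃ Dl : Fin m → AData, (∀ i, (Dl i).ep ≤ r) ∧ ∀ τ : ℝ, 1 / 3 ≤ τ → τ ≤ 1 / 2 →
      ∃ T0 : ℝ, ∀ T : ℝ, T0 ≤ T →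
        volume.real {t : ℝ | t ∈ Icc (5 * T / 4) (7 * T / 4) ∧ ∀ i,
          ‖Vs (Dl i) T (ss (alp τ T * Yc (Dl i).ep) t)‖ ≤ Real.log (1 / (Dl i).ep) ^ A} ≤
          ε * T := by
  obtain ⟨c, hc, m, hanti⟩ := anti (ε := ε / 4) (by positivity)
  refine ⟨m, fun A r hA hr => ?_⟩
  obtain ⟨C1, hC1, H1⟩ := XXp_sq
  obtain ⟨C2, hC2, H2⟩ := XXp_sub
  obtain ⟨C3, hC3, H3⟩ := exp_approx
  set η : ℝ := ε / (4 * (m + 1)) with hη
  have hηpos : 0 < η := by positivity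
  have hone : ∀ b : ℝ, ∃ D : AData, 0 < b → b ≤ 1 / 8 → D.ep ≤ r ∧ 8 * D.ep ≤ b ∧
      ∃ T0 : ℝ, ∀ T : ℝ, T0 ≤ T → ∀ τ : ℝ, 1 / 3 ≤ τ → τ ≤ 1 / 2 →
      volume.real {t : ℝ | t ∈ Icc T (2 * T) ∧ c * Real.sqrt (sg T D.ep b) ≤ -(Dl T D.ep b t).re ∧
        ‖Vs D T (ss (alp τ T * Yc D.ep) t)‖ ≤ Real.log (1 / D.ep) ^ A} ≤ 3 * η * T := by
    intro b
    by_cases hb : 0 < b ∧ b ≤ 1 / 8
    · obtain ⟨D, hD⟩ := L6_one c C1 C2 C3 η r b A hc hηpos hr hb.1 (by linarith [hb.2]) H1 H2 H3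
      exact ⟨D, fun _ _ => hD⟩
    · obtain ⟨D, _⟩ := exists_AData (ep := 1 / 100) (by norm_num) le_rfl
      exact ⟨D, fun h1 h2 => absurd ⟨h1, h2⟩ hb⟩
  choose g hg using hone
  -- the scales
  let E : ℕ → ℝ := fun n => Nat.rec (1 / 8) (fun _ x => (g x).ep) n
  have E0 : E 0 = 1 / 8 := rfl
  have ES : ∀ n, E (n + 1) = (g (E n)).ep := fun n => rfl
  have hE : ∀ n, 0 < E n ∧ E n ≤ 1 / 8 := by
    intro n
    induction n with
    | zero => rw [E0]; norm_num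
    | succ n ih =>
      rw [ES]
      refine ⟨(g (E n)).ep_pos, ?_⟩
      have := (hg (E n) ih.1 ih.2).2.1
      linarith [ih.2, (g (E n)).ep_pos]
  have hE8 : ∀ n, 8 * E (n + 1) ≤ E n := fun n => by
    rw [ES]; exact (hg (E n) (hE n).1 (hE n).2).2.1
  have hEanti : Antitone E := antitone_nat_of_succ_le fun n => by
    linarith [hE8 n, (hE (n + 1)).1]
  refine ⟨fun i => g (E i), fun i => (hg (E i) (hE i).1 (hE i).2).1, ?_⟩
  intro τ ht1 ht2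
  obtain ⟨T0, hT0⟩ := hanti (fun i => E ((i : ℕ) + 1)) (fun i => E (i : ℕ))
    (fun i => (hE ((i : ℕ) + 1)).1) (fun i => hE8 (i : ℕ)) (fun i => (hE (i : ℕ)).2) (fun i j hij => hEanti
      (show (i : ℕ) + 1 ≤ (j : ℕ) from hij))
  have hTi : ∀ i : Fin m, ∃ T0 : ℝ, ∀ T : ℝ, T0 ≤ T → 
      volume.real {t : ℝ | t ∈ Icc T (2 * T) ∧
        c * Real.sqrt (sg T (g (E i)).ep (E i)) ≤ -(Dl T (g (E i)).ep (E i) t).re ∧
        ‖Vs (g (E i)) T (ss (alp τ T * Yc (g (E i)).ep) t)‖ ≤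
          Real.log (1 / (g (E i)).ep) ^ A} ≤ 3 * η * T := by
    intro i
    obtain ⟨T1, h⟩ := (hg (E i) (hE i).1 (hE i).2).2.2
    exact ⟨T1, fun T hT => h T hT τ ht1 ht2⟩
  choose Ti hTi using hTi
  refine ⟨max (max T0 0) (∑ i, |Ti i|), ?_⟩
  intro T hT
  simp only [max_le_iff] at hT
  obtain ⟨⟨hTa, hTb⟩, hTc⟩ := hT
  have hTTi : ∀ i, Ti i ≤ T := fun i => (le_abs_self _).trans
    ((Finset.single_le_sum (f := fun i => |Ti i|) (fun j _ => abs_nonneg _)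
      (Finset.mem_univ i)).trans hTc)
  have hS0 := hT0 T hTa
  set S0 : Set ℝ := {t : ℝ | t ∈ Icc T (2 * T) ∧ ∀ i : Fin m,
        -(Dl T (E (i + 1)) (E i) t).re < c * Real.sqrt (sg T (E (i + 1)) (E i))} with hS0def
  set Si : Fin m → Set ℝ := fun i => {t : ℝ | t ∈ Icc T (2 * T) ∧
        c * Real.sqrt (sg T (g (E i)).ep (E i)) ≤ -(Dl T (g (E i)).ep (E i) t).re ∧
        ‖Vs (g (E i)) T (ss (alp τ T * Yc (g (E i)).ep) t)‖ ≤
          Real.log (1 / (g (E i)).ep) ^ A} with hSi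
  have hsub : {t : ℝ | t ∈ Icc (5 * T / 4) (7 * T / 4) ∧ ∀ i : Fin m,
      ‖Vs (g (E i)) T (ss (alp τ T * Yc (g (E i)).ep) t)‖ ≤ Real.log (1 / (g (E i)).ep) ^ A} ⊆
      S0 ∪ ⋃ i ∈ (Finset.univ : Finset (Fin m)), Si i := by
    rintro t ⟨ht, hV⟩
    have ht' : t ∈ Icc T (2 * T) := ⟨by linarith [ht.1], by linarith [ht.2]⟩
    by_cases h : t ∈ S0
    · exact Or.inl h
    · right
      have h' : ¬ ∀ i : Fin m,
          -(Dl T (E (i + 1)) (E i) t).re < c * Real.sqrt (sg T (E (i + 1)) (E i)) := by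
        intro h2
        exact h ⟨ht', h2⟩
      push Not at h'
      obtain ⟨i, hi⟩ := h'
      simp only [mem_iUnion]
      exact ⟨i, Finset.mem_univ _, ht', hi, hV i⟩
  have hfin : ∀ P : ℝ → Prop, volume {t : ℝ | t ∈ Icc T (2 * T) ∧ P t} ≠ ⊤ := fun P =>
    ((measure_mono (fun t ht => ht.1)).trans_lt
      (by simp : volume (Icc T (2 * T)) < ⊤)).ne
  refine (measureReal_mono hsub ?_).trans ?_
  · refine ((measure_mono (union_subset (fun t ht => ht.1) ?_)).trans_lt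
      (by simp : volume (Icc T (2 * T)) < ⊤)).ne
    intro t ht
    simp only [mem_iUnion] at ht
    obtain ⟨i, _, hi⟩ := ht
    exact hi.1
  · refine (measureReal_union_le _ _).trans ?_
    have h1 : volume.real (⋃ i ∈ (Finset.univ : Finset (Fin m)), Si i) ≤ m * (3 * η * T) := by
      refine (measureReal_biUnion_finset_le _ _).trans ?_
      refine (Finset.sum_le_sum (fun i _ => hTi i T (hTTi i))).trans ?_
      simp
    have h2 : (m : ℝ) * (3 * η * T) ≤ 3 * ε / 4 * T := by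
      have : (m : ℝ) * η ≤ ε / 4 := by
        rw [hη]
        rw [mul_div_assoc', div_le_div_iff₀ (by positivity) (by norm_num)]
        nlinarith [hε]
      nlinarith
    linarith

end Pool.Agent.AHD
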