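import Pool.Agent.ZGap.AH.C2
import Pool.Agent.ZGap.AH.H3
import Pool.Agent.ZGap.AH.L6
import Pool.Agent.ZGap.AH.Z
import Pool.Agent.ZGap.AH.Fb6

/-!
# The final block
-/

open scoped ContDiff

namespace Pool.Agent.AHD

open Complex MeasureTheory Set Pool.Agent.Hadamard Pool.Agent.HalfGap

theorem block (hRH : RiemannHypothesis) {e ε θ : ℝ} (he : 0 < e) (hε : 0 < ε) (hθ : 0 < θ)
    (hθ8 : θ ≤ 1 / 8) (J : ℕ) : ∃ τ δ T0 : ℝ, 1 / 3 < τ ∧ 1 / 2 - e ≤ τ ∧ τ < 1 / 2 ∧ 0 < δ ∧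
    ∀ T : ℝ, T0 ≤ T → Few τ δ θ T →
      volume.real {t0 : ℝ | t0 ∈ Icc (5 * T / 4) (7 * T / 4) ∧ ∃ g1 g2 : ℝ, Xr g1 = 0 ∧
        Xr g2 = 0 ∧ |t0 - g1| ≤ alp τ T / 8 ∧ 0 < g2 - g1 ∧ g2 - g1 ≤ J * alp τ T ∧
        ∀ m : ℤ, e ≤ |(g2 - g1) / alp τ T - m|} ≤ ε * T := by
  obtain ⟨m, hm⟩ := lower (half_pos hε)
  have hm0 : (0 : ℝ) ≤ m := Nat.cast_nonneg m
  have he'0 : 0 < min e (1 / 4) := by positivity
  have he'1 : min e (1 / 4) ≤ 1 := (min_le_right _ _).trans (by norm_num)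
  have hμ : 0 < ε / (8 * (m + 1)) := by positivity
  obtain ⟨A, r, hA, hr, hone⟩ := block_one hRH he'0 he'1 hθ hθ8 hμ J
  obtain ⟨Dl, hDl, hlow⟩ := hm A r hA hr
  obtain ⟨q, hqi, hqe, hq100, hq0⟩ : ∃ q : ℝ, (∀ i, q ≤ (Dl i).ep ^ 2) ∧ q ≤ e ∧
      q ≤ 1 / 100 ∧ 0 < q := by
    have h1 : ∀ᶠ q in nhdsWithin (0 : ℝ) (Ioi 0), ∀ i, q ≤ (Dl i).ep ^ 2 :=
      Filter.eventually_all.mpr fun i =>
        Filter.mem_of_superset (Ioo_mem_nhdsGT (pow_pos (Dl i).ep_pos 2)) fun x hx => hx.2.le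
    have h2 : ∀ᶠ q in nhdsWithin (0 : ℝ) (Ioi 0), q ≤ e :=
      Filter.mem_of_superset (Ioo_mem_nhdsGT he) fun x hx => hx.2.le
    have h3 : ∀ᶠ q in nhdsWithin (0 : ℝ) (Ioi 0), q ≤ 1 / 100 :=
      Filter.mem_of_superset (Ioo_mem_nhdsGT (by norm_num : (0 : ℝ) < 1 / 100)) fun x hx => hx.2.le
    exact (h1.and (h2.and (h3.and self_mem_nhdsWithin))).exists
  set τ : ℝ := 1 / 2 - q with hτ
  have hτ3 : 1 / 3 < τ := by rw [hτ]; linarith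
  have hτ2 : τ < 1 / 2 := by rw [hτ]; linarith
  have hi := fun i => hone (Dl i) (hDl i) τ hτ3 (by rw [hτ]; linarith [hqi i]) hτ2
  choose δ T0 hδ hT0 using hi
  obtain ⟨δ', hδ', hδ'0⟩ : ∃ q : ℝ, (∀ i, q ≤ δ i) ∧ 0 < q := by
    have h1 : ∀ᶠ q in nhdsWithin (0 : ℝ) (Ioi 0), ∀ i, q ≤ δ i :=
      Filter.eventually_all.mpr fun i =>
        Filter.mem_of_superset (Ioo_mem_nhdsGT (hδ i)) fun x hx => hx.2.le
    exact (h1.and self_mem_nhdsWithin).exists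
  obtain ⟨T1, hT1⟩ := hlow τ hτ3.le hτ2.le
  obtain ⟨T2, hT2⟩ : ∃ T2 : ℝ, ∀ i, T0 i ≤ T2 := by
    have h1 : ∀ᶠ q in Filter.atTop, ∀ i, T0 i ≤ q :=
      Filter.eventually_all.mpr fun i => Filter.eventually_ge_atTop _
    exact h1.exists
  refine ⟨τ, δ', max (max T1 T2) (max 8 (8 / ε)), hτ3, by rw [hτ]; linarith, hτ2, hδ'0,
    fun T hT hFew => ?_⟩
  have hT1' : T1 ≤ T := le_trans (le_trans (le_max_left _ _) (le_max_left _ _)) hT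
  have hT2' : T2 ≤ T := le_trans (le_trans (le_max_right _ _) (le_max_left _ _)) hT
  have hT8 : 8 ≤ T := le_trans (le_trans (le_max_left _ _) (le_max_right _ _)) hT
  have hTε : 8 / ε ≤ T := le_trans (le_trans (le_max_right _ _) (le_max_right _ _)) hT
  have hTε' : 2 ≤ ε / 4 * T := by
    rw [div_le_iff₀ hε] at hTε
    linarith
  have hS := fun i => hT0 i T ((hT2 i).trans hT2') (Few_mono hFew (hδ' i) (by linarith))
  choose S hSm hSs hS using hS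
  have hlowT := hT1 T hT1'
  set B0 : Set ℝ := {t : ℝ | t ∈ Icc (5 * T / 4) (7 * T / 4) ∧ ∀ i,
          ‖Vs (Dl i) T (ss (alp τ T * Yc (Dl i).ep) t)‖ ≤ Real.log (1 / (Dl i).ep) ^ A} with hB0
  have hsub : {t0 : ℝ | t0 ∈ Icc (5 * T / 4) (7 * T / 4) ∧ ∃ g1 g2 : ℝ, Xr g1 = 0 ∧
        Xr g2 = 0 ∧ |t0 - g1| ≤ alp τ T / 8 ∧ 0 < g2 - g1 ∧ g2 - g1 ≤ J * alp τ T ∧
        ∀ m : ℤ, e ≤ |(g2 - g1) / alp τ T - m|} ⊆
      (B0 ∪ ⋃ i, S i) ∪ (Icc (5 * T / 4) (5 * T / 4 + 1) ∪ Icc (7 * T / 4 - 1) (7 * T / 4)) := by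
    rintro t ⟨ht, g1, g2, hg1, hg2, hg, hd1, hd2, hdm⟩
    by_cases h1 : t ∈ Icc (5 * T / 4) (5 * T / 4 + 1)
    · exact Or.inr (Or.inl h1)
    by_cases h2 : t ∈ Icc (7 * T / 4 - 1) (7 * T / 4)
    · exact Or.inr (Or.inr h2)
    by_cases h3 : t ∈ ⋃ i, S i
    · exact Or.inl (Or.inr h3)
    refine Or.inl (Or.inl ⟨ht, fun i => ?_⟩)
    have h4 : 5 * T / 4 + 1 ≤ t := by
      by_contra h
      exact h1 ⟨ht.1, (not_le.mp h).le⟩
    have h5 : t ≤ 7 * T / 4 - 1 := by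
      by_contra h
      exact h2 ⟨(not_le.mp h).le, ht.2⟩
    refine hS i t ⟨h4, h5⟩ (fun h => h3 (mem_iUnion.mpr ⟨i, h⟩)) g1 g2 hg1 hg2 hg hd1 hd2
      fun k => (min_le_left _ _).trans (hdm k)
  have hsub2 : (B0 ∪ ⋃ i, S i) ∪
      (Icc (5 * T / 4) (5 * T / 4 + 1) ∪ Icc (7 * T / 4 - 1) (7 * T / 4)) ⊆
      Icc (5 * T / 4) (7 * T / 4) := by
    rintro t ((h | h) | (h | h))
    · exact h.1
    · obtain ⟨i, hi⟩ := mem_iUnion.mp h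
      exact hSs i hi
    · exact ⟨h.1, by linarith [h.2]⟩
    · exact ⟨by linarith [h.1], h.2⟩
  have hfin : volume ((B0 ∪ ⋃ i, S i) ∪
      (Icc (5 * T / 4) (5 * T / 4 + 1) ∪ Icc (7 * T / 4 - 1) (7 * T / 4))) ≠ ⊤ :=
    ((measure_mono hsub2).trans_lt measure_Icc_lt_top).ne
  refine (measureReal_mono hsub hfin).trans ?_
  refine (measureReal_union_le _ _).trans ?_
  have h1 := measureReal_union_le (μ := volume) B0 (⋃ i, S i)
  have h2 := measureReal_union_le (μ := volume) (Icc (5 * T / 4) (5 * T / 4 + 1))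
    (Icc (7 * T / 4 - 1) (7 * T / 4))
  have h3 : volume.real (⋃ i, S i) ≤ ∑ i, volume.real (S i) := measureReal_iUnion_fintype_le _
  have h4 : ∑ i, volume.real (S i) ≤ ∑ _i : Fin m, ε / (8 * (m + 1)) * T :=
    Finset.sum_le_sum fun i _ => hSm i
  have h5 : ∑ _i : Fin m, ε / (8 * (m + 1)) * T ≤ ε / 8 * T := by
    rw [Finset.sum_const, Finset.card_univ, Fintype.card_fin, nsmul_eq_mul]
    have : (m : ℝ) * (ε / (8 * (m + 1)) * T) = (m / (m + 1)) * (ε / 8 * T) := by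
      field_simp
    rw [this]
    have h6 : (m : ℝ) / (m + 1) ≤ 1 := by
      rw [div_le_one (by linarith)]; linarith
    exact mul_le_of_le_one_left (by positivity) h6
  have h6 : volume.real (Icc (5 * T / 4) (5 * T / 4 + 1)) = 1 := by
    rw [Real.volume_real_Icc_of_le (by linarith)]; ring
  have h7 : volume.real (Icc (7 * T / 4 - 1) (7 * T / 4)) = 1 := by
    rw [Real.volume_real_Icc_of_le (by linarith)]; ring
  rw [h6, h7] at h2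
  have h8 : 0 < ε * T := mul_pos hε (by linarith)
  linarith

end Pool.Agent.AHD
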