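import Pool.Agent.ZGap.AH.Defs3

/-!
# The function `P` of the contour argument
-/

open scoped ContDiff

namespace Pool.Agent.AHD

open Complex MeasureTheory Set Pool.Agent.Hadamard Pool.Agent.HalfGap

/-- `p(z) = e^{iπκτz} V(1/2 + iαz) ξ(1/2 + iαz)`. -/
noncomputable def pz (D : AData) (τ T : ℝ) (z : ℂ) : ℂ :=
  Complex.exp (I * ((Real.pi * (1 - D.ep) * τ : ℝ) : ℂ) * z) *
    (Vs D T (1 / 2 + I * (alp τ T : ℂ) * z) * xiF (1 / 2 + I * (alp τ T : ℂ) * z))

lemma Vs_differentiable (D : AData) (T : ℝ) : Differentiable ℂ (Vs D T) := by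
  unfold Vs
  refine Differentiable.fun_sum fun n hn => ?_
  rw [Finset.mem_Icc] at hn
  have hn0 : (n : ℂ) ≠ 0 := by exact_mod_cast (by omega : n ≠ 0)
  have h : Differentiable ℂ fun s : ℂ => (n : ℂ) ^ (-s) := by
    intro s
    exact (differentiable_neg s).const_cpow (Or.inl hn0)
  exact h.const_mul _

lemma pz_differentiable (D : AData) (τ T : ℝ) : Differentiable ℂ (pz D τ T) := by
  unfold pz
  have h1 : Differentiable ℂ fun z : ℂ => (1 / 2 + I * (alp τ T : ℂ) * z : ℂ) := by fun_prop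
  exact (by fun_prop : Differentiable ℂ fun z : ℂ =>
    Complex.exp (I * ((Real.pi * (1 - D.ep) * τ : ℝ) : ℂ) * z)).mul
    (((Vs_differentiable D T).comp h1).mul (xiF_differentiable.comp h1))

lemma pz_zero (D : AData) {τ T : ℝ} (hα : alp τ T ≠ 0) {g : ℝ} (hg : Xr g = 0) :
    pz D τ T ((g / alp τ T : ℝ) : ℂ) = 0 := by
  unfold pz
  have e : (1 / 2 + I * (alp τ T : ℂ) * ((g / alp τ T : ℝ) : ℂ) : ℂ) = 1 / 2 + g * I := by
    have : (alp τ T : ℂ) ≠ 0 := by exact_mod_cast hα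
    push_cast
    field_simp
  rw [e, xiF_half, hg]
  simp

lemma arg_eq (α a b : ℝ) : (1 / 2 + I * (α : ℂ) * (a + b * I) : ℂ) = ss (-(α * b)) (α * a) := by
  unfold ss
  apply Complex.ext
  · simp
  · simp

/-- norm of `p` -/
lemma norm_pz (D : AData) (τ T a b : ℝ) : ‖pz D τ T (a + b * I)‖ =
    Real.exp (-(Real.pi * (1 - D.ep) * τ * b)) *
      (‖Vs D T (ss (-(alp τ T * b)) (alp τ T * a))‖ *
        ‖xiF (ss (-(alp τ T * b)) (alp τ T * a))‖) := by
  unfold pz
  rw [arg_eq, norm_mul, norm_mul, Complex.norm_exp]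
  congr 2
  simp

lemma ss_shift (x t α : ℝ) : ss x t + α * I = ss x (t + α) := by
  unfold ss; push_cast; ring

/-- the sum of two values of `p` -/
lemma pz_add (D : AData) {τ T : ℝ} (a b : ℝ)
    (hx : xiF (ss (-(alp τ T * b)) (alp τ T * a)) ≠ 0) :
    ‖pz D τ T (a + b * I + 1) + pz D τ T (a + b * I)‖ =
      Real.exp (-(Real.pi * (1 - D.ep) * τ * b)) *
      (‖xiF (ss (-(alp τ T * b)) (alp τ T * a))‖ *
        ‖Ds D τ T (ss (-(alp τ T * b)) (alp τ T * a))‖) := by
  set α := alp τ T with hα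
  set s := ss (-(α * b)) (α * a) with hs
  set c : ℝ := Real.pi * (1 - D.ep) * τ with hc
  have e1 : (1 / 2 + I * (α : ℂ) * (a + b * I + 1) : ℂ) = s + α * I := by
    rw [mul_add, ← add_assoc, arg_eq, hs]
    ring
  have e2 : (1 / 2 + I * (α : ℂ) * (a + b * I) : ℂ) = s := arg_eq α a b
  have key : pz D τ T (a + b * I + 1) + pz D τ T (a + b * I) =
      Complex.exp (I * (c : ℂ) * (a + b * I + 1)) * (xiF s * Ds D τ T s) := by
    unfold pz
    rw [← hα, ← hc, e1, e2]
    unfold Ds Fs fq ph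
    rw [← hα]
    have e3 : Complex.exp (I * (c : ℂ) * (a + b * I)) =
        Complex.exp (I * (c : ℂ) * (a + b * I + 1)) *
          Complex.exp (((-(Real.pi * (1 - D.ep) * τ) : ℝ) : ℂ) * I) := by
      rw [← Complex.exp_add]
      congr 1
      rw [hc]
      push_cast
      ring
    rw [e3]
    field_simp
  rw [key, norm_mul, norm_mul, Complex.norm_exp]
  congr 2
  simp

/-- crude bound near the line -/
lemma pz_add_le (D : AData) {τ T : ℝ} (a b : ℝ) :
    ‖pz D τ T (a + b * I + 1) + pz D τ T (a + b * I)‖ ≤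
      Real.exp (-(Real.pi * (1 - D.ep) * τ * b)) *
      (‖Vs D T (ss (-(alp τ T * b)) (alp τ T * a + alp τ T))‖ *
        ‖xiF (ss (-(alp τ T * b)) (alp τ T * a + alp τ T))‖ +
        ‖Vs D T (ss (-(alp τ T * b)) (alp τ T * a))‖ *
        ‖xiF (ss (-(alp τ T * b)) (alp τ T * a))‖) := by
  refine (norm_add_le _ _).trans ?_
  have e : (a + b * I + 1 : ℂ) = ((a + 1 : ℝ) : ℂ) + b * I := by push_cast; ring
  rw [e, norm_pz, norm_pz, mul_add, mul_add, mul_one]

end Pool.Agent.AHD
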