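import Pool.Agent.ZGap.AH.Fb1

/-!
# The pointwise inequality of the contour argument
-/

open scoped ContDiff

namespace Pool.Agent.AHD

open Complex MeasureTheory Set Pool.Agent.Hadamard Pool.Agent.HalfGap

/-- half width of the thin strip, in units of `α` -/
noncomputable def bz (D : AData) (τ : ℝ) : ℝ := D.ep ^ 2 / (2 * Real.pi * τ)

/-- the constant `πκτ` -/
noncomputable def c0 (D : AData) (τ : ℝ) : ℝ := Real.pi * (1 - D.ep) * τ

noncomputable def Hd1 (D : AData) (τ T t : ℝ) : ℝ :=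
  ∫ b in (bz D τ)..(2 * Yc D.ep + 1),
    ‖Ds D τ T (ss (-(alp τ T * max b (bz D τ))) t)‖ * Real.exp (-(2 * c0 D τ * b))

noncomputable def Hd2 (D : AData) (τ T t : ℝ) : ℝ :=
  ∫ b in (bz D τ)..(2 * Yc D.ep + 1), ‖Ds D τ T (ss (alp τ T * max b (bz D τ)) t)‖

noncomputable def Hv0 (D : AData) (τ T t : ℝ) : ℝ :=
  ∫ b in (-bz D τ)..(bz D τ), (‖Vs D T (ss (-(alp τ T * b)) (t + alp τ T))‖ +
    ‖Vs D T (ss (-(alp τ T * b)) t)‖)

noncomputable def Hv1 (D : AData) (τ T t : ℝ) : ℝ :=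
  ∫ b in (2 * Yc D.ep)..(2 * Yc D.ep + 1),
    ‖Vs D T (ss (-(alp τ T * b)) t)‖ * Real.exp (-(2 * c0 D τ * b))

noncomputable def Hv2 (D : AData) (τ T t : ℝ) : ℝ :=
  ∫ b in (2 * Yc D.ep)..(2 * Yc D.ep + 1), ‖Vs D T (ss (alp τ T * b) t)‖

/-- the function of the height which controls everything -/
noncomputable def Hf (D : AData) (τ T t : ℝ) : ℝ :=
  Hd1 D τ T t + Hd2 D τ T t + Hv0 D τ T t +
    Real.exp (-(2 * Real.pi * Yc D.ep)) * (Hv1 D τ T t + Hv2 D τ T t)

lemma ss_continuous2 : Continuous fun p : ℝ × ℝ => ss p.1 p.2 := by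
  unfold ss; fun_prop

lemma Vs_continuous (D : AData) (T : ℝ) : Continuous (Vs D T) := (Vs_differentiable D T).continuous

lemma xi_ss_ne (hRH : RiemannHypothesis) {x : ℝ} (hx : x ≠ 0) (t : ℝ) : xiF (ss x t) ≠ 0 := by
  intro h
  have h1 := ((xiF_zero_iff hRH).mp h).1
  rw [ss_re] at h1
  apply hx
  linarith

/-- joint continuity of `D` off the line -/
lemma Ds_continuous (hRH : RiemannHypothesis) (D : AData) (τ T : ℝ) {g : ℝ → ℝ}
    (hg : Continuous g) (hg0 : ∀ b, g b ≠ 0) :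
    Continuous fun p : ℝ × ℝ => ‖Ds D τ T (ss (g p.2) p.1)‖ := by
  have h1 : Continuous fun p : ℝ × ℝ => ss (g p.2) p.1 := by
    unfold ss; fun_prop
  have hV := Vs_continuous D T
  have hX := xiF_differentiable.continuous
  unfold Ds Fs fq
  refine Continuous.norm ?_
  refine Continuous.add (Continuous.mul (by fun_prop) ?_) (by fun_prop)
  exact Continuous.div (by fun_prop) (by fun_prop) fun p => xi_ss_ne hRH (hg0 _) _

variable {D : AData} {τ T : ℝ}

lemma bz_pos (hτ : 1 / 3 < τ) : 0 < bz D τ := by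
  unfold bz
  have := D.ep_pos
  have := Real.pi_pos
  positivity

lemma c0_nonneg (hτ : 1 / 3 < τ) : 0 ≤ c0 D τ := by
  unfold c0
  have := D.ep_le
  have := Real.pi_pos
  have h : 0 ≤ 1 - D.ep := by linarith
  have h2 : 0 ≤ τ := by linarith
  positivity

lemma c0_bounds (hτ : 1 / 2 - D.ep ^ 2 ≤ τ) (hτ' : τ < 1 / 2) :
    0 ≤ Real.pi - c0 D τ - Real.pi * τ ∧ Real.pi - c0 D τ - Real.pi * τ ≤ Real.pi * D.ep := by
  unfold c0
  have h0 := D.ep_pos
  have h1 := D.ep_le
  have hpi := Real.pi_pos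
  have e : Real.pi - Real.pi * (1 - D.ep) * τ - Real.pi * τ = Real.pi * (1 - τ * (2 - D.ep)) := by
    ring
  rw [e]
  constructor
  · apply mul_nonneg hpi.le
    nlinarith
  · apply mul_le_mul_of_nonneg_left _ hpi.le
    nlinarith [mul_pos h0 h0, mul_pos (mul_pos h0 h0) h0]

lemma Hd1_nonneg (hb : bz D τ ≤ 2 * Yc D.ep + 1) (t : ℝ) : 0 ≤ Hd1 D τ T t :=
  intervalIntegral.integral_nonneg hb fun b _ => by positivity

lemma Hd2_nonneg (hb : bz D τ ≤ 2 * Yc D.ep + 1) (t : ℝ) : 0 ≤ Hd2 D τ T t :=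
  intervalIntegral.integral_nonneg hb fun b _ => by positivity

lemma Hv0_nonneg (hb : 0 ≤ bz D τ) (t : ℝ) : 0 ≤ Hv0 D τ T t :=
  intervalIntegral.integral_nonneg (by linarith) fun b _ => by positivity

lemma Hv1_nonneg (t : ℝ) : 0 ≤ Hv1 D τ T t :=
  intervalIntegral.integral_nonneg (by linarith) fun b _ => by positivity

lemma Hv2_nonneg (t : ℝ) : 0 ≤ Hv2 D τ T t :=
  intervalIntegral.integral_nonneg (by linarith) fun b _ => by positivity

/-! ### continuity in the height -/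

lemma cont_int {f : ℝ → ℝ → ℝ} (hf : Continuous fun p : ℝ × ℝ => f p.1 p.2) (a b : ℝ) :
    Continuous fun t => ∫ x in a..b, f t x :=
  intervalIntegral.continuous_parametric_intervalIntegral_of_continuous' hf a b

lemma max_bz_ne (hτ : 1 / 3 < τ) (hT : 0 < alp τ T) (b : ℝ) : alp τ T * max b (bz D τ) ≠ 0 := by
  have h1 : 0 < max b (bz D τ) := lt_max_of_lt_right (bz_pos hτ)
  positivity

lemma Hd1_continuous (hRH : RiemannHypothesis) (hτ : 1 / 3 < τ) (hT : 0 < alp τ T) :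
    Continuous (Hd1 D τ T) := by
  unfold Hd1
  have h := Ds_continuous hRH D τ T (g := fun b => -(alp τ T * max b (bz D τ))) (by fun_prop)
    (fun b => neg_ne_zero.mpr (max_bz_ne hτ hT b))
  have h2 : Continuous fun p : ℝ × ℝ => Real.exp (-(2 * c0 D τ * p.2)) := by fun_prop
  exact cont_int (h.mul h2) _ _

lemma Hd2_continuous (hRH : RiemannHypothesis) (hτ : 1 / 3 < τ) (hT : 0 < alp τ T) :
    Continuous (Hd2 D τ T) := by
  unfold Hd2
  have h := Ds_continuous hRH D τ T (g := fun b => (alp τ T * max b (bz D τ))) (by fun_prop)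
    (fun b => (max_bz_ne hτ hT b))
  exact cont_int h _ _

lemma Hv0_continuous : Continuous (Hv0 D τ T) := by
  unfold Hv0
  apply cont_int
  have h := Vs_continuous D T
  have h2 : Continuous fun p : ℝ × ℝ => ss (-(alp τ T * p.2)) (p.1 + alp τ T) := by
    unfold ss; fun_prop
  have h3 : Continuous fun p : ℝ × ℝ => ss (-(alp τ T * p.2)) p.1 := by
    unfold ss; fun_prop
  exact (h.comp h2).norm.add (h.comp h3).norm

lemma Hv1_continuous : Continuous (Hv1 D τ T) := by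
  unfold Hv1
  apply cont_int
  have h := Vs_continuous D T
  have h3 : Continuous fun p : ℝ × ℝ => ss (-(alp τ T * p.2)) p.1 := by
    unfold ss; fun_prop
  exact (h.comp h3).norm.mul (by fun_prop)

lemma Hv2_continuous : Continuous (Hv2 D τ T) := by
  unfold Hv2
  apply cont_int
  have h := Vs_continuous D T
  have h3 : Continuous fun p : ℝ × ℝ => ss (alp τ T * p.2) p.1 := by
    unfold ss; fun_prop
  exact (h.comp h3).norm

lemma Hf_continuous (hRH : RiemannHypothesis) (hτ : 1 / 3 < τ) (hT : 0 < alp τ T) :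
    Continuous (Hf D τ T) := by
  unfold Hf
  have h1 := Hd1_continuous (D := D) hRH hτ hT
  have h2 := Hd2_continuous (D := D) hRH hτ hT
  have h3 := Hv0_continuous (D := D) (τ := τ) (T := T)
  have h4 := Hv1_continuous (D := D) (τ := τ) (T := T)
  have h5 := Hv2_continuous (D := D) (τ := τ) (T := T)
  fun_prop

lemma Hf_nonneg (hτ : 1 / 3 < τ) (hb : bz D τ ≤ 2 * Yc D.ep + 1) (t : ℝ) : 0 ≤ Hf D τ T t := by
  unfold Hf
  have h1 := Hd1_nonneg (T := T) hb t
  have h2 := Hd2_nonneg (T := T) hb t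
  have h3 := Hv0_nonneg (T := T) (bz_pos (D := D) hτ).le t
  have h4 := Hv1_nonneg (D := D) (τ := τ) (T := T) t
  have h5 := Hv2_nonneg (D := D) (τ := τ) (T := T) t
  positivity

end Pool.Agent.AHD
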