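import Pool.Agent.ZGap.AH.Fb2

/-!
# The pointwise inequality
-/

open scoped ContDiff

namespace Pool.Agent.AHD

open Complex MeasureTheory Set Pool.Agent.Hadamard Pool.Agent.HalfGap

lemma Fb3_exp {D : AData} {τ : ℝ} (hτ : 1 / 2 - D.ep ^ 2 ≤ τ) (hτ' : τ < 1 / 2)
    (h10 : 10 * Yc D.ep * D.ep ≤ 1) (hY : 1 ≤ Yc D.ep) {b : ℝ} (hb : 0 ≤ b) :
    (Yc D.ep - b) * (Real.pi - c0 D τ - Real.pi * τ) ≤ 1 := by
  obtain ⟨h1, h2⟩ := c0_bounds hτ hτ'
  have h3 : (Yc D.ep - b) * (Real.pi - c0 D τ - Real.pi * τ) ≤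
      Yc D.ep * (Real.pi - c0 D τ - Real.pi * τ) :=
    mul_le_mul_of_nonneg_right (by linarith) h1
  have h4 : Yc D.ep * (Real.pi - c0 D τ - Real.pi * τ) ≤ Yc D.ep * (Real.pi * D.ep) :=
    mul_le_mul_of_nonneg_left h2 (by linarith)
  have h5 : Yc D.ep * (Real.pi * D.ep) = Real.pi * (Yc D.ep * D.ep) := by ring
  have h6 : Yc D.ep * D.ep ≤ 1 / 10 := by linarith
  have h7 : Real.pi * (Yc D.ep * D.ep) ≤ Real.pi * (1 / 10) :=
    mul_le_mul_of_nonneg_left h6 Real.pi_pos.le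
  have h8 := Real.pi_le_four
  linarith

lemma Fb3_key {D : AData} {τ : ℝ} {Y : ℝ}
    (hexp : ∀ b, 0 ≤ b → (Y - b) * (Real.pi - c0 D τ - Real.pi * τ) ≤ 1) {b R N X V : ℝ}
    (hX : X ≤ Real.exp R * Real.exp (-(Real.pi * τ * (Y - |b|))) * N) (hN : 0 ≤ N) (hV : 0 ≤ V) :
    Real.exp (-(c0 D τ * b)) * (X * V) * Real.exp (-(Real.pi * |b|)) ≤
      N * Real.exp (c0 D τ * Y - Real.pi * Y) * Real.exp (R + 1) *
        (V * Real.exp (-(2 * c0 D τ * max b 0))) := by
  have h1 := hexp |b| (abs_nonneg b)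
  have h2 : 2 * max b 0 - b = |b| := by
    rcases le_total 0 b with h | h
    · rw [max_eq_left h, abs_of_nonneg h]; ring
    · rw [max_eq_right h, abs_of_nonpos h]; ring
  have h3 : c0 D τ * (2 * max b 0 - b) = c0 D τ * |b| := by rw [h2]
  have h4 : -(c0 D τ * b) + R + -(Real.pi * τ * (Y - |b|)) + -(Real.pi * |b|) ≤
      (c0 D τ * Y - Real.pi * Y) + (R + 1) + -(2 * c0 D τ * max b 0) := by
    nlinarith
  calc Real.exp (-(c0 D τ * b)) * (X * V) * Real.exp (-(Real.pi * |b|))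
      ≤ Real.exp (-(c0 D τ * b)) * ((Real.exp R * Real.exp (-(Real.pi * τ * (Y - |b|))) * N) * V) *
          Real.exp (-(Real.pi * |b|)) := by gcongr
    _ = N * V * Real.exp (-(c0 D τ * b) + R + -(Real.pi * τ * (Y - |b|)) + -(Real.pi * |b|)) := by
        rw [Real.exp_add, Real.exp_add, Real.exp_add]; ring
    _ ≤ N * V * Real.exp ((c0 D τ * Y - Real.pi * Y) + (R + 1) + -(2 * c0 D τ * max b 0)) := by
        gcongr
    _ = _ := by
        rw [Real.exp_add, Real.exp_add]; ring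

section

variable {D : AData} {τ T : ℝ}

lemma Fb3_cont2 : Continuous fun p : ℝ × ℝ =>
    ‖pz D τ T (p.1 + p.2 * I + 1) + pz D τ T (p.1 + p.2 * I)‖ *
      Real.exp (-(Real.pi * |p.2|)) := by
  have h := (pz_differentiable D τ T).continuous
  have h1 : Continuous fun p : ℝ × ℝ => (p.1 + p.2 * I + 1 : ℂ) := by fun_prop
  have h2 : Continuous fun p : ℝ × ℝ => (p.1 + p.2 * I : ℂ) := by fun_prop
  exact ((h.comp h1).add (h.comp h2)).norm.mul (by fun_prop)

lemma Fb3_contp : Continuous fun p : ℝ × ℝ =>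
    ‖pz D τ T (p.1 + p.2 * I)‖ * Real.exp (-(Real.pi * p.2)) := by
  have h := (pz_differentiable D τ T).continuous
  have h2 : Continuous fun p : ℝ × ℝ => (p.1 + p.2 * I : ℂ) := by fun_prop
  exact (h.comp h2).norm.mul (by fun_prop)

lemma Fb3_contm : Continuous fun p : ℝ × ℝ =>
    ‖pz D τ T (p.1 - p.2 * I)‖ * Real.exp (-(Real.pi * p.2)) := by
  have h := (pz_differentiable D τ T).continuous
  have h2 : Continuous fun p : ℝ × ℝ => (p.1 - p.2 * I : ℂ) := by fun_prop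
  exact (h.comp h2).norm.mul (by fun_prop)

lemma Fb3_slice {f : ℝ → ℝ → ℝ} (hf : Continuous fun p : ℝ × ℝ => f p.1 p.2) (a : ℝ) :
    Continuous fun b => f a b :=
  hf.comp (by fun_prop : Continuous fun b : ℝ => ((a, b) : ℝ × ℝ))

lemma Fb3_c1 (hRH : RiemannHypothesis) (hτ3 : 1 / 3 < τ) (hA : 0 < alp τ T) (t : ℝ) :
    Continuous fun b : ℝ => ‖Ds D τ T (ss (-(alp τ T * max b (bz D τ))) t)‖ *
      Real.exp (-(2 * c0 D τ * b)) := by
  have h := Fb3_slice (f := fun t b : ℝ => ‖Ds D τ T (ss (-(alp τ T * max b (bz D τ))) t)‖)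
    (Ds_continuous hRH D τ T (g := fun b => -(alp τ T * max b (bz D τ))) (by fun_prop)
      (fun b => neg_ne_zero.mpr (max_bz_ne hτ3 hA b))) t
  exact h.mul (by fun_prop)

lemma Fb3_c2 (hRH : RiemannHypothesis) (hτ3 : 1 / 3 < τ) (hA : 0 < alp τ T) (t : ℝ) :
    Continuous fun b : ℝ => ‖Ds D τ T (ss (alp τ T * max b (bz D τ)) t)‖ :=
  Fb3_slice (f := fun t b : ℝ => ‖Ds D τ T (ss (alp τ T * max b (bz D τ)) t)‖)
    (Ds_continuous hRH D τ T (g := fun b => (alp τ T * max b (bz D τ))) (by fun_prop)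
      (fun b => (max_bz_ne hτ3 hA b))) t

lemma Fb3_c3 (t : ℝ) : Continuous fun b : ℝ => (‖Vs D T (ss (-(alp τ T * b)) (t + alp τ T))‖ +
    ‖Vs D T (ss (-(alp τ T * b)) t)‖) := by
  have hVc := Vs_continuous D T
  have h2 : Continuous fun b : ℝ => ss (-(alp τ T * b)) (t + alp τ T) := by
    unfold ss; fun_prop
  have h3 : Continuous fun b : ℝ => ss (-(alp τ T * b)) t := by
    unfold ss; fun_prop
  exact (hVc.comp h2).norm.add (hVc.comp h3).norm

lemma Fb3_c4 (t : ℝ) : Continuous fun b : ℝ => ‖Vs D T (ss (-(alp τ T * b)) t)‖ *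
    Real.exp (-(2 * c0 D τ * b)) := by
  have hVc := Vs_continuous D T
  have h3 : Continuous fun b : ℝ => ss (-(alp τ T * b)) t := by
    unfold ss; fun_prop
  exact (hVc.comp h3).norm.mul (by fun_prop)

lemma Fb3_c5 (t : ℝ) : Continuous fun b : ℝ => ‖Vs D T (ss (alp τ T * b) t)‖ := by
  have hVc := Vs_continuous D T
  have h3 : Continuous fun b : ℝ => ss (alp τ T * b) t := by
    unfold ss; fun_prop
  exact (hVc.comp h3).norm

/-- the inequality for fixed `a` -/
lemma Fb3_fix (hRH : RiemannHypothesis) (hτ3 : 1 / 3 < τ) (hA : 0 < alp τ T)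
    (hbY : bz D τ ≤ 2 * Yc D.ep) (hY : 1 ≤ Yc D.ep)
    (hexp : ∀ b, 0 ≤ b → (Yc D.ep - b) * (Real.pi - c0 D τ - Real.pi * τ) ≤ 1)
    {R N a : ℝ} (hN : 0 ≤ N)
    (h1 : ∀ b, |b| ≤ 2 * Yc D.ep + 1 → ‖xiF (ss (-(alp τ T * b)) (alp τ T * a))‖ ≤
      Real.exp R * Real.exp (-(Real.pi * τ * (Yc D.ep - |b|))) * N)
    (h2 : ∀ b, |b| ≤ 2 * Yc D.ep + 1 → ‖xiF (ss (-(alp τ T * b)) (alp τ T * a + alp τ T))‖ ≤
      Real.exp R * Real.exp (-(Real.pi * τ * (Yc D.ep - |b|))) * N) :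
    (∫ b in (-(2 * Yc D.ep + 1))..(2 * Yc D.ep + 1),
          ‖pz D τ T (a + b * I + 1) + pz D τ T (a + b * I)‖ * Real.exp (-(Real.pi * |b|))) +
      Real.exp (-(2 * Real.pi * Yc D.ep)) *
        ((∫ b in (2 * Yc D.ep)..(2 * Yc D.ep + 1),
            ‖pz D τ T (a + b * I)‖ * Real.exp (-(Real.pi * b))) +
            ∫ b in (2 * Yc D.ep)..(2 * Yc D.ep + 1),
              ‖pz D τ T (a - b * I)‖ * Real.exp (-(Real.pi * b))) ≤
      N * Real.exp (c0 D τ * Yc D.ep - Real.pi * Yc D.ep) * Real.exp (R + 1) *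
        Hf D τ T (alp τ T * a) := by
  set K := N * Real.exp (c0 D τ * Yc D.ep - Real.pi * Yc D.ep) * Real.exp (R + 1) with hK
  have hK0 : 0 ≤ K := by rw [hK]; positivity
  have hbz := bz_pos (D := D) hτ3
  have hc := c0_nonneg (D := D) hτ3
  set f : ℝ → ℝ := fun b => ‖pz D τ T (a + b * I + 1) + pz D τ T (a + b * I)‖ *
    Real.exp (-(Real.pi * |b|)) with hf
  have hfc : Continuous f := Fb3_slice (f := fun a b : ℝ =>
    ‖pz D τ T (a + b * I + 1) + pz D τ T (a + b * I)‖ * Real.exp (-(Real.pi * |b|))) Fb3_cont2 a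
  have hfi : ∀ x y : ℝ, IntervalIntegrable f volume x y := fun x y => hfc.intervalIntegrable x y
  have hVc := Vs_continuous D T
  -- splitting
  have hsplit : ∫ b in (-(2 * Yc D.ep + 1))..(2 * Yc D.ep + 1), f b =
      (∫ b in (bz D τ)..(2 * Yc D.ep + 1), f (-b)) + (∫ b in (-bz D τ)..(bz D τ), f b) +
        ∫ b in (bz D τ)..(2 * Yc D.ep + 1), f b := by
    rw [intervalIntegral.integral_comp_neg,
      intervalIntegral.integral_add_adjacent_intervals (hfi _ _) (hfi _ _),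
      intervalIntegral.integral_add_adjacent_intervals (hfi _ _) (hfi _ _)]
  -- pointwise bounds
  have hD1 : ∀ b ∈ Icc (bz D τ) (2 * Yc D.ep + 1), f b ≤
      K * (‖Ds D τ T (ss (-(alp τ T * max b (bz D τ))) (alp τ T * a))‖ *
        Real.exp (-(2 * c0 D τ * b))) := by
    intro b hb
    have hb0 : 0 < b := hbz.trans_le hb.1
    have hx : xiF (ss (-(alp τ T * b)) (alp τ T * a)) ≠ 0 :=
      xi_ss_ne hRH (neg_ne_zero.mpr (by positivity)) _
    have e1 := pz_add (D := D) a b hx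
    have e2 := Fb3_key (D := D) hexp (h1 b (by rw [abs_of_pos hb0]; exact hb.2)) hN
      (norm_nonneg (Ds D τ T (ss (-(alp τ T * b)) (alp τ T * a))))
    rw [max_eq_left hb0.le] at e2
    rw [max_eq_left hb.1]
    simp only [hf]
    rw [e1]
    exact e2
  have hD2 : ∀ b ∈ Icc (bz D τ) (2 * Yc D.ep + 1), f (-b) ≤
      K * ‖Ds D τ T (ss (alp τ T * max b (bz D τ)) (alp τ T * a))‖ := by
    intro b hb
    have hb0 : 0 < b := hbz.trans_le hb.1
    have hx : xiF (ss (-(alp τ T * (-b))) (alp τ T * a)) ≠ 0 :=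
      xi_ss_ne hRH (neg_ne_zero.mpr (by
        have : alp τ T * b ≠ 0 := by positivity
        simpa using this)) _
    have e1 := pz_add (D := D) a (-b) hx
    have e2 := Fb3_key (D := D) hexp (h1 (-b) (by rw [abs_neg, abs_of_pos hb0]; exact hb.2)) hN
      (norm_nonneg (Ds D τ T (ss (-(alp τ T * (-b))) (alp τ T * a))))
    rw [max_eq_right (by linarith : -b ≤ 0), mul_zero, neg_zero, Real.exp_zero, mul_one] at e2
    rw [max_eq_left hb.1]
    simp only [hf]
    rw [e1]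
    have e3 : ss (-(alp τ T * (-b))) (alp τ T * a) = ss (alp τ T * b) (alp τ T * a) := by
      rw [mul_neg, neg_neg]
    rw [e3] at e2 ⊢
    exact e2
  have hV0 : ∀ b ∈ Icc (-bz D τ) (bz D τ), f b ≤
      K * (‖Vs D T (ss (-(alp τ T * b)) (alp τ T * a + alp τ T))‖ +
        ‖Vs D T (ss (-(alp τ T * b)) (alp τ T * a))‖) := by
    intro b hb
    have hb1 : |b| ≤ 2 * Yc D.ep + 1 := by
      have := abs_le.mpr ⟨hb.1, hb.2⟩
      linarith
    have e1 := pz_add_le D (τ := τ) (T := T) a b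
    have e2 := Fb3_key (D := D) hexp (h1 b hb1) hN
      (norm_nonneg (Vs D T (ss (-(alp τ T * b)) (alp τ T * a))))
    have e3 := Fb3_key (D := D) hexp (h2 b hb1) hN
      (norm_nonneg (Vs D T (ss (-(alp τ T * b)) (alp τ T * a + alp τ T))))
    have e4 : Real.exp (-(2 * c0 D τ * max b 0)) ≤ 1 := by
      rw [Real.exp_le_one_iff]
      have : 0 ≤ max b 0 := le_max_right _ _
      have : 0 ≤ 2 * c0 D τ * max b 0 := by positivity
      linarith
    have e5 : ∀ v : ℝ, 0 ≤ v → v * Real.exp (-(2 * c0 D τ * max b 0)) ≤ v := fun v hv =>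
      mul_le_of_le_one_right hv e4
    have e6 := mul_le_mul_of_nonneg_left
      (e5 _ (norm_nonneg (Vs D T (ss (-(alp τ T * b)) (alp τ T * a))))) hK0
    have e7 := mul_le_mul_of_nonneg_left
      (e5 _ (norm_nonneg (Vs D T (ss (-(alp τ T * b)) (alp τ T * a + alp τ T))))) hK0
    simp only [hf]
    refine (mul_le_mul_of_nonneg_right e1 (Real.exp_nonneg _)).trans ?_
    have e8 : Real.exp (-(Real.pi * (1 - D.ep) * τ * b)) *
      (‖Vs D T (ss (-(alp τ T * b)) (alp τ T * a + alp τ T))‖ *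
        ‖xiF (ss (-(alp τ T * b)) (alp τ T * a + alp τ T))‖ +
        ‖Vs D T (ss (-(alp τ T * b)) (alp τ T * a))‖ *
        ‖xiF (ss (-(alp τ T * b)) (alp τ T * a))‖) * Real.exp (-(Real.pi * |b|)) =
      Real.exp (-(c0 D τ * b)) * (‖xiF (ss (-(alp τ T * b)) (alp τ T * a + alp τ T))‖ *
        ‖Vs D T (ss (-(alp τ T * b)) (alp τ T * a + alp τ T))‖) * Real.exp (-(Real.pi * |b|)) +
      Real.exp (-(c0 D τ * b)) * (‖xiF (ss (-(alp τ T * b)) (alp τ T * a))‖ *
        ‖Vs D T (ss (-(alp τ T * b)) (alp τ T * a))‖) * Real.exp (-(Real.pi * |b|)) := by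
      unfold c0
      ring
    rw [e8]
    have e9 := add_le_add (e3.trans e7) (e2.trans e6)
    rw [← mul_add] at e9
    exact e9
  have hV1 : ∀ b ∈ Icc (2 * Yc D.ep) (2 * Yc D.ep + 1),
      ‖pz D τ T (a + b * I)‖ * Real.exp (-(Real.pi * b)) ≤
      K * (‖Vs D T (ss (-(alp τ T * b)) (alp τ T * a))‖ * Real.exp (-(2 * c0 D τ * b))) := by
    intro b hb
    have hb0 : 0 < b := by linarith [hb.1]
    have e2 := Fb3_key (D := D) hexp (h1 b (by rw [abs_of_pos hb0]; exact hb.2)) hN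
      (norm_nonneg (Vs D T (ss (-(alp τ T * b)) (alp τ T * a))))
    rw [max_eq_left hb0.le, abs_of_pos hb0] at e2
    rw [norm_pz, mul_comm ‖Vs D T _‖]
    exact e2
  have hV2 : ∀ b ∈ Icc (2 * Yc D.ep) (2 * Yc D.ep + 1),
      ‖pz D τ T (a - b * I)‖ * Real.exp (-(Real.pi * b)) ≤
      K * ‖Vs D T (ss (alp τ T * b) (alp τ T * a))‖ := by
    intro b hb
    have hb0 : 0 < b := by linarith [hb.1]
    have e2 := Fb3_key (D := D) hexp (h1 (-b) (by rw [abs_neg, abs_of_pos hb0]; exact hb.2)) hN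
      (norm_nonneg (Vs D T (ss (-(alp τ T * (-b))) (alp τ T * a))))
    rw [max_eq_right (by linarith : -b ≤ 0), mul_zero, neg_zero, Real.exp_zero, mul_one,
      abs_neg, abs_of_pos hb0] at e2
    have e0 : (a - b * I : ℂ) = a + ((-b : ℝ) : ℂ) * I := by push_cast; ring
    rw [e0, norm_pz, mul_comm ‖Vs D T _‖]
    have e3 : ss (-(alp τ T * (-b))) (alp τ T * a) = ss (alp τ T * b) (alp τ T * a) := by
      rw [mul_neg, neg_neg]
    rw [e3] at e2 ⊢
    exact e2
  -- integrability of the majorants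
  have c1 := Fb3_c1 (D := D) hRH hτ3 hA (alp τ T * a)
  have c2 := Fb3_c2 (D := D) hRH hτ3 hA (alp τ T * a)
  have c3 := Fb3_c3 (D := D) (τ := τ) (T := T) (alp τ T * a)
  have c4 := Fb3_c4 (D := D) (τ := τ) (T := T) (alp τ T * a)
  have c5 := Fb3_c5 (D := D) (τ := τ) (T := T) (alp τ T * a)
  have hle : bz D τ ≤ 2 * Yc D.ep + 1 := by linarith
  have i1 : ∫ b in (bz D τ)..(2 * Yc D.ep + 1), f b ≤ K * Hd1 D τ T (alp τ T * a) := by
    unfold Hd1
    rw [← intervalIntegral.integral_const_mul]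
    exact intervalIntegral.integral_mono_on hle (hfi _ _)
      ((continuous_const.mul c1).intervalIntegrable _ _) hD1
  have i2 : ∫ b in (bz D τ)..(2 * Yc D.ep + 1), f (-b) ≤ K * Hd2 D τ T (alp τ T * a) := by
    unfold Hd2
    rw [← intervalIntegral.integral_const_mul]
    exact intervalIntegral.integral_mono_on hle
      ((hfc.comp continuous_neg).intervalIntegrable _ _)
      ((continuous_const.mul c2).intervalIntegrable _ _) hD2
  have i3 : ∫ b in (-bz D τ)..(bz D τ), f b ≤ K * Hv0 D τ T (alp τ T * a) := by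
    unfold Hv0
    rw [← intervalIntegral.integral_const_mul]
    exact intervalIntegral.integral_mono_on (by linarith) (hfi _ _)
      ((continuous_const.mul c3).intervalIntegrable _ _) hV0
  have i4 : ∫ b in (2 * Yc D.ep)..(2 * Yc D.ep + 1),
      ‖pz D τ T (a + b * I)‖ * Real.exp (-(Real.pi * b)) ≤ K * Hv1 D τ T (alp τ T * a) := by
    unfold Hv1
    rw [← intervalIntegral.integral_const_mul]
    refine intervalIntegral.integral_mono_on (by linarith) ?_
      ((continuous_const.mul c4).intervalIntegrable _ _) hV1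
    exact (Fb3_slice (f := fun a b : ℝ => ‖pz D τ T (a + b * I)‖ * Real.exp (-(Real.pi * b)))
      Fb3_contp a).intervalIntegrable _ _
  have i5 : ∫ b in (2 * Yc D.ep)..(2 * Yc D.ep + 1),
      ‖pz D τ T (a - b * I)‖ * Real.exp (-(Real.pi * b)) ≤ K * Hv2 D τ T (alp τ T * a) := by
    unfold Hv2
    rw [← intervalIntegral.integral_const_mul]
    refine intervalIntegral.integral_mono_on (by linarith) ?_
      ((continuous_const.mul c5).intervalIntegrable _ _) hV2
    exact (Fb3_slice (f := fun a b : ℝ => ‖pz D τ T (a - b * I)‖ * Real.exp (-(Real.pi * b)))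
      Fb3_contm a).intervalIntegrable _ _
  have i6 := mul_le_mul_of_nonneg_left (add_le_add i4 i5)
    (Real.exp_nonneg (-(2 * Real.pi * Yc D.ep)))
  have hfin : ∫ b in (-(2 * Yc D.ep + 1))..(2 * Yc D.ep + 1), f b ≤
      K * Hd2 D τ T (alp τ T * a) + K * Hv0 D τ T (alp τ T * a) + K * Hd1 D τ T (alp τ T * a) := by
    rw [hsplit]
    exact add_le_add (add_le_add i2 i3) i1
  refine (add_le_add hfin i6).trans (le_of_eq ?_)
  unfold Hf
  ring

lemma Fb3_int {u v : ℝ} (huv : u ≤ v) {F G H : ℝ → ℝ} (hF : Continuous F) (hG : Continuous G)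
    (hH : Continuous H) (c K : ℝ) (h : ∀ a ∈ Icc u v, F a + c * G a ≤ K * H a) :
    (∫ a in u..v, F a) + c * (∫ a in u..v, G a) ≤ K * ∫ a in u..v, H a := by
  have hcG : Continuous fun a => c * G a := by fun_prop
  have hFG : Continuous fun a => F a + c * G a := by fun_prop
  have hKH : Continuous fun a => K * H a := by fun_prop
  rw [← intervalIntegral.integral_const_mul, ← intervalIntegral.integral_const_mul,
    ← intervalIntegral.integral_add (hF.intervalIntegrable _ _) (hcG.intervalIntegrable _ _)]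
  exact intervalIntegral.integral_mono_on huv (hFG.intervalIntegrable _ _)
    (hKH.intervalIntegrable _ _) h

end

/-- From the contour inequality for `pz` to a bound of `V` at the height `Yc`. -/
theorem Fb_point (hRH : RiemannHypothesis) {D : AData} {τ T : ℝ} (hτ : 1 / 2 - D.ep ^ 2 ≤ τ)
    (hτ' : τ < 1 / 2) (hL : 0 < Real.log T) (h10 : 10 * Yc D.ep * D.ep ≤ 1) (hY : 1 ≤ Yc D.ep)
    {J : ℕ} {C e R g1 t0 : ℝ} (hC : 0 < C) (he : 0 < e) (hg : |t0 - g1| ≤ alp τ T / 8)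
    (hZ : ‖pz D τ T (((t0 / alp τ T : ℝ) : ℂ) - (Yc D.ep : ℂ) * I)‖ *
        Real.exp (-(Real.pi * Yc D.ep)) ≤
      C / e * ((∫ a in (g1 / alp τ T - 2)..(g1 / alp τ T + J + 2),
          ∫ b in (-(2 * Yc D.ep + 1))..(2 * Yc D.ep + 1),
          ‖pz D τ T (a + b * I + 1) + pz D τ T (a + b * I)‖ * Real.exp (-(Real.pi * |b|))) +
        Real.exp (-(2 * Real.pi * (2 * Yc D.ep - Yc D.ep))) *
          ∫ a in (g1 / alp τ T - 2)..(g1 / alp τ T + J + 2),
            ((∫ b in (2 * Yc D.ep)..(2 * Yc D.ep + 1),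
            ‖pz D τ T (a + b * I)‖ * Real.exp (-(Real.pi * b))) +
            ∫ b in (2 * Yc D.ep)..(2 * Yc D.ep + 1),
              ‖pz D τ T (a - b * I)‖ * Real.exp (-(Real.pi * b)))))
    (hR : ∀ s : ℂ, |s.re - 1 / 2| ≤ 20 * Yc D.ep / Real.log T →
      |s.im - t0| ≤ 4 * (J + 4) / Real.log T →
        ‖xiF s‖ ≤ Real.exp R * Real.exp (-(Real.log T / 2 * (alp τ T * Yc D.ep - |s.re - 1 / 2|))) *
          ‖xiF (ss (alp τ T * Yc D.ep) t0)‖) :
    ‖Vs D T (ss (alp τ T * Yc D.ep) t0)‖ ≤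
      C / e * (Real.exp (R + 1) * ∫ a in (-3)..((J : ℝ) + 3), Hf D τ T (t0 + alp τ T * a)) := by
  have hpi := Real.pi_pos
  have hpi4 := Real.pi_le_four
  have hep0 := D.ep_pos
  have hep1 := D.ep_le
  have hτ3 : 1 / 3 < τ := by nlinarith
  have hτ0 : 0 < τ := by linarith
  have hA : 0 < alp τ T := by unfold alp; positivity
  have hA4 : alp τ T ≤ 4 / Real.log T := by
    unfold alp
    refine div_le_div_of_nonneg_right ?_ hL.le
    nlinarith
  have hAL : Real.log T / 2 * alp τ T = Real.pi * τ := by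
    unfold alp
    field_simp
  have hexp : ∀ b, 0 ≤ b → (Yc D.ep - b) * (Real.pi - c0 D τ - Real.pi * τ) ≤ 1 :=
    fun b hb => Fb3_exp hτ hτ' h10 hY hb
  have hbz := bz_pos (D := D) hτ3
  have hbY : bz D τ ≤ 2 * Yc D.ep := by
    have h1 : bz D τ ≤ 1 := by
      unfold bz
      rw [div_le_one (by positivity)]
      have := Real.pi_gt_three
      nlinarith
    linarith
  set N := ‖xiF (ss (alp τ T * Yc D.ep) t0)‖ with hNdef
  have hN : 0 < N := norm_pos_iff.mpr (xi_ss_ne hRH (by positivity) t0)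
  have hxi : ∀ t b : ℝ, |t - t0| ≤ 4 * (J + 4) / Real.log T → |b| ≤ 2 * Yc D.ep + 1 →
      ‖xiF (ss (-(alp τ T * b)) t)‖ ≤
        Real.exp R * Real.exp (-(Real.pi * τ * (Yc D.ep - |b|))) * N := by
    intro t b ht hb
    have e0 : (ss (-(alp τ T * b)) t).re - 1 / 2 = -(alp τ T * b) := by rw [ss_re]; ring
    have e1 : |(ss (-(alp τ T * b)) t).re - 1 / 2| = alp τ T * |b| := by
      rw [e0, abs_neg, abs_mul, abs_of_pos hA]
    have h := hR (ss (-(alp τ T * b)) t) (by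
      rw [e1]
      have h1 : alp τ T * |b| ≤ 4 / Real.log T * (3 * Yc D.ep) :=
        mul_le_mul hA4 (by linarith) (abs_nonneg b) (by positivity)
      have h2 : 4 / Real.log T * (3 * Yc D.ep) ≤ 20 * Yc D.ep / Real.log T := by
        rw [div_mul_eq_mul_div]
        refine div_le_div_of_nonneg_right ?_ hL.le
        linarith
      exact h1.trans h2) (by rw [ss_im]; exact ht)
    rw [e1] at h
    have e2 : Real.log T / 2 * (alp τ T * Yc D.ep - alp τ T * |b|) =
        Real.pi * τ * (Yc D.ep - |b|) := by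
      rw [← mul_sub, ← mul_assoc, hAL]
    rw [e2] at h
    exact h
  set K := N * Real.exp (c0 D τ * Yc D.ep - Real.pi * Yc D.ep) * Real.exp (R + 1) with hK
  have hJ : (0 : ℝ) ≤ J := Nat.cast_nonneg J
  have hg' := abs_le.mp hg
  -- fixed `a`
  have hfix : ∀ a ∈ Icc (g1 / alp τ T - 2) (g1 / alp τ T + J + 2),
      (∫ b in (-(2 * Yc D.ep + 1))..(2 * Yc D.ep + 1),
          ‖pz D τ T (a + b * I + 1) + pz D τ T (a + b * I)‖ * Real.exp (-(Real.pi * |b|))) +
      Real.exp (-(2 * Real.pi * Yc D.ep)) *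
        ((∫ b in (2 * Yc D.ep)..(2 * Yc D.ep + 1),
            ‖pz D τ T (a + b * I)‖ * Real.exp (-(Real.pi * b))) +
            ∫ b in (2 * Yc D.ep)..(2 * Yc D.ep + 1),
              ‖pz D τ T (a - b * I)‖ * Real.exp (-(Real.pi * b))) ≤
      K * Hf D τ T (alp τ T * a) := by
    intro a ha
    have h1 : g1 - 2 * alp τ T ≤ alp τ T * a := by
      have := mul_le_mul_of_nonneg_left ha.1 hA.le
      have e : alp τ T * (g1 / alp τ T - 2) = g1 - 2 * alp τ T := by
        field_simp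
      linarith
    have h2 : alp τ T * a ≤ g1 + (J + 2) * alp τ T := by
      have := mul_le_mul_of_nonneg_left ha.2 hA.le
      have e : alp τ T * (g1 / alp τ T + J + 2) = g1 + (J + 2) * alp τ T := by
        field_simp
        ring
      linarith
    have h3 : (J + 4) * alp τ T ≤ 4 * (J + 4) / Real.log T := by
      have := mul_le_mul_of_nonneg_left hA4 (by positivity : (0 : ℝ) ≤ J + 4)
      calc (J + 4) * alp τ T ≤ (J + 4) * (4 / Real.log T) := this
        _ = _ := by ring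
    have hJA : 0 ≤ J * alp τ T := by positivity
    refine Fb3_fix hRH hτ3 hA hbY hY hexp hN.le (fun b hb => hxi _ b ?_ hb)
      (fun b hb => hxi _ b ?_ hb)
    · refine le_trans (abs_le.mpr ⟨?_, ?_⟩) h3
      · nlinarith
      · nlinarith
    · refine le_trans (abs_le.mpr ⟨?_, ?_⟩) h3
      · nlinarith
      · nlinarith
  -- continuity in `a`
  have k1 : Continuous fun a : ℝ => ∫ b in (-(2 * Yc D.ep + 1))..(2 * Yc D.ep + 1),
      ‖pz D τ T (a + b * I + 1) + pz D τ T (a + b * I)‖ * Real.exp (-(Real.pi * |b|)) :=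
    cont_int (f := fun a b : ℝ =>
      ‖pz D τ T (a + b * I + 1) + pz D τ T (a + b * I)‖ * Real.exp (-(Real.pi * |b|))) Fb3_cont2 _ _
  have k2 : Continuous fun a : ℝ => ((∫ b in (2 * Yc D.ep)..(2 * Yc D.ep + 1),
            ‖pz D τ T (a + b * I)‖ * Real.exp (-(Real.pi * b))) +
            ∫ b in (2 * Yc D.ep)..(2 * Yc D.ep + 1),
              ‖pz D τ T (a - b * I)‖ * Real.exp (-(Real.pi * b))) :=
    (cont_int (f := fun a b : ℝ => ‖pz D τ T (a + b * I)‖ * Real.exp (-(Real.pi * b)))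
      Fb3_contp _ _).add
    (cont_int (f := fun a b : ℝ => ‖pz D τ T (a - b * I)‖ * Real.exp (-(Real.pi * b)))
      Fb3_contm _ _)
  have kH : Continuous (Hf D τ T) := Hf_continuous hRH hτ3 hA
  have kHa : Continuous fun a : ℝ => Hf D τ T (alp τ T * a) := kH.comp (by fun_prop)
  have hab : g1 / alp τ T - 2 ≤ g1 / alp τ T + J + 2 := by linarith
  have hint := Fb3_int hab k1 k2 kHa (Real.exp (-(2 * Real.pi * Yc D.ep))) K hfix
  -- enlarge the window and shift
  have hH0 : ∀ t, 0 ≤ Hf D τ T t := fun t => Hf_nonneg hτ3 (by linarith) t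
  have hga : |t0 / alp τ T - g1 / alp τ T| ≤ 1 / 8 := by
    rw [← sub_div, abs_div, abs_of_pos hA, div_le_iff₀ hA]
    linarith
  have hga' := abs_le.mp hga
  have hwin : ∫ a in (g1 / alp τ T - 2)..(g1 / alp τ T + J + 2), Hf D τ T (alp τ T * a) ≤
      ∫ a in (-3)..((J : ℝ) + 3), Hf D τ T (t0 + alp τ T * a) := by
    have e1 : ∫ a in (-3)..((J : ℝ) + 3), Hf D τ T (t0 + alp τ T * a) =
        ∫ a in (t0 / alp τ T + (-3))..(t0 / alp τ T + ((J : ℝ) + 3)), Hf D τ T (alp τ T * a) := by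
      rw [← intervalIntegral.integral_comp_add_left (fun a => Hf D τ T (alp τ T * a))]
      congr 1
      funext a
      congr 1
      field_simp
    rw [e1]
    refine intervalIntegral.integral_mono_interval (by linarith) hab (by linarith)
      (Filter.Eventually.of_forall fun a => hH0 _) (kHa.intervalIntegrable _ _)
  have hfinal : ‖pz D τ T (((t0 / alp τ T : ℝ) : ℂ) - (Yc D.ep : ℂ) * I)‖ *
        Real.exp (-(Real.pi * Yc D.ep)) ≤
      C / e * (K * ∫ a in (-3)..((J : ℝ) + 3), Hf D τ T (t0 + alp τ T * a)) := by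
    refine hZ.trans ?_
    refine mul_le_mul_of_nonneg_left ?_ (by positivity)
    have e1 : 2 * Real.pi * (2 * Yc D.ep - Yc D.ep) = 2 * Real.pi * Yc D.ep := by ring
    rw [e1]
    exact hint.trans (mul_le_mul_of_nonneg_left hwin (by positivity))
  -- the left hand side
  have hlhs : ‖pz D τ T (((t0 / alp τ T : ℝ) : ℂ) - (Yc D.ep : ℂ) * I)‖ *
        Real.exp (-(Real.pi * Yc D.ep)) =
      (N * Real.exp (c0 D τ * Yc D.ep - Real.pi * Yc D.ep)) *
        ‖Vs D T (ss (alp τ T * Yc D.ep) t0)‖ := by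
    have e0 : (((t0 / alp τ T : ℝ) : ℂ) - (Yc D.ep : ℂ) * I) =
        ((t0 / alp τ T : ℝ) : ℂ) + ((-(Yc D.ep) : ℝ) : ℂ) * I := by push_cast; ring
    have e1 : ss (-(alp τ T * (-(Yc D.ep)))) (alp τ T * (t0 / alp τ T)) =
        ss (alp τ T * Yc D.ep) t0 := by
      rw [mul_neg, neg_neg, mul_div_cancel₀ _ hA.ne']
    have e2 : -(Real.pi * (1 - D.ep) * τ * -(Yc D.ep)) = c0 D τ * Yc D.ep := by
      unfold c0; ring
    rw [e0, norm_pz, e1, e2, ← hNdef, sub_eq_add_neg, Real.exp_add]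
    ring
  rw [hlhs] at hfinal
  have hpos : 0 < N * Real.exp (c0 D τ * Yc D.ep - Real.pi * Yc D.ep) := by positivity
  refine le_of_mul_le_mul_left (hfinal.trans (le_of_eq ?_)) hpos
  rw [hK]
  ring

end Pool.Agent.AHD
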