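import Pool.Agent.ZGap.AH.Fb
import Pool.Agent.ZGap.Half.Final

/-!
# The dichotomy
-/

open scoped ContDiff

namespace Pool.Agent.AHD

open Complex MeasureTheory Set Pool.Agent.Hadamard Pool.Agent.HalfGap

/-! ### Counting the zeros -/

open Filter Topology in
lemma Fd_tend (hRH : RiemannHypothesis) {x : ℝ} (hx : 0 < x) :
    Tendsto (fun H : ℝ => (ZetaGaps.zeroCount (x * H) : ℝ) / (H * Real.log H)) atTop
      (𝓝 (x / (2 * Real.pi))) := by
  obtain ⟨C, hC, h⟩ := ZetaGaps.riemann_vonMangoldt hRH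
  have hpi := Real.pi_pos
  set c := Real.log x - Real.log (2 * Real.pi) - 1 with hc
  have hinv : Tendsto (fun H : ℝ => (Real.log H)⁻¹) atTop (𝓝 0) :=
    tendsto_inv_atTop_zero.comp Real.tendsto_log_atTop
  have hinv2 : Tendsto (fun H : ℝ => H⁻¹) atTop (𝓝 0) := tendsto_inv_atTop_zero
  have hf : Tendsto (fun H : ℝ => x / (2 * Real.pi) * (1 + c * (Real.log H)⁻¹)) atTop
      (𝓝 (x / (2 * Real.pi) * (1 + c * 0))) :=
    ((hinv.const_mul c).const_add 1).const_mul _
  have hg : Tendsto (fun H : ℝ => C * (Real.log x * (Real.log H)⁻¹ + 1) * H⁻¹) atTop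
      (𝓝 (C * (Real.log x * 0 + 1) * 0)) :=
    (((hinv.const_mul _).add_const 1).const_mul C).mul hinv2
  rw [mul_zero] at hg
  have hd : Tendsto (fun H : ℝ => (ZetaGaps.zeroCount (x * H) : ℝ) / (H * Real.log H) -
      x / (2 * Real.pi) * (1 + c * (Real.log H)⁻¹)) atTop (𝓝 0) := by
    refine squeeze_zero_norm' ?_ hg
    have e1 : ∀ᶠ H : ℝ in atTop, 2 / x ≤ H := eventually_ge_atTop _
    filter_upwards [e1, eventually_ge_atTop 1, Real.tendsto_log_atTop.eventually_ge_atTop 1]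
      with H h1 h2 h3
    have hH : 0 < H := by linarith
    have hl : 0 < Real.log H := by linarith
    have h4 : 2 ≤ x * H := by
      rw [div_le_iff₀ hx] at h1
      linarith
    have h5 := h (x * H) h4
    rw [Real.log_mul hx.ne' hH.ne'] at h5
    have h6 : (ZetaGaps.zeroCount (x * H) : ℝ) / (H * Real.log H) -
        x / (2 * Real.pi) * (1 + c * (Real.log H)⁻¹) =
        (ZetaGaps.zeroCount (x * H) - x * H / (2 * Real.pi) *
          (Real.log x + Real.log H - Real.log (2 * Real.pi) - 1)) / (H * Real.log H) := by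
      rw [hc]
      field_simp
      ring
    rw [h6, Real.norm_eq_abs, abs_div, abs_of_pos (mul_pos hH hl),
      div_le_iff₀ (mul_pos hH hl)]
    refine h5.trans (le_of_eq ?_)
    field_simp
  have h7 := hd.add hf
  simpa using h7

/-! ### The exceptional set -/

lemma Fd_EE_le {α a b : ℝ} {A : Finset ℕ} (hα : 0 < α) (ha : 2 * α ≤ a)
    (hA : ∀ n : ℕ, 1 ≤ n → ZetaGaps.ordinate (n + 1) ≤ b + 2 * α →
      ZetaGaps.ordinate (n + 1) - ZetaGaps.ordinate n < α → n ∈ A) :
    volume.real (EE α ∩ Icc a b) ≤ A.card * (3 * α) := by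
  have hcov : EE α ∩ Icc a b ⊆ ⋃ n ∈ A, Set.Icc (ZetaGaps.ordinate n - 3 * α / 2)
      (ZetaGaps.ordinate n + 3 * α / 2) := by
    rintro t ⟨⟨z, hz, hbz, htz⟩, ht1, ht2⟩
    have htz' := abs_le.mp htz
    have hex : ∃ w, Xr w = 0 ∧ (z ≠ w ∨ deriv Xr z = 0) ∧ |w - z| < α := by
      rcases hbz with h | ⟨w, hw, hne, hlt⟩
      · exact ⟨z, hz, Or.inr h, by simpa using hα⟩
      · exact ⟨w, hw, Or.inl (Ne.symm hne), hlt⟩
    obtain ⟨w, hw, hor, hlt⟩ := hex
    have hlt' := abs_lt.mp hlt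
    set M := max z w with hM
    have e1 : z ≤ M := le_max_left z w
    have e2 : w ≤ M := le_max_right z w
    have e3 : M < z + α := max_lt (by linarith) (by linarith [hlt'.2])
    have e4 : M < w + α := max_lt (by linarith [hlt'.1]) (by linarith)
    have h1 : ZetaGaps.zeroCount (M - α) + 2 ≤ ZetaGaps.zeroCount M :=
      count_of_two hz hw hor (by linarith) (by linarith) e1 (by linarith) e2
    set n := ZetaGaps.zeroCount (M - α) + 1 with hn
    have hn1 : 1 ≤ n := by omega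
    have h2 : M - α < ZetaGaps.ordinate n := by
      by_contra hcon
      push Not at hcon
      have := (ZetaGaps.le_zeroCount_iff (ZetaGaps.zeroCount_unbounded n) hn1).mpr hcon
      omega
    have h3 : ZetaGaps.ordinate (n + 1) ≤ M :=
      (ZetaGaps.le_zeroCount_iff (ZetaGaps.zeroCount_unbounded (n + 1)) (by omega)).mp (by omega)
    have h4 := ZetaGaps.ordinate_mono (ZetaGaps.zeroCount_unbounded (n + 1)) hn1
      (show n ≤ n + 1 by omega)
    have h5 : n ∈ A := hA n hn1 (by linarith) (by linarith)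
    simp only [Set.mem_iUnion, Set.mem_Icc, exists_prop]
    exact ⟨n, h5, by linarith, by linarith⟩
  have hfin : volume (⋃ n ∈ A, Set.Icc (ZetaGaps.ordinate n - 3 * α / 2)
      (ZetaGaps.ordinate n + 3 * α / 2)) ≠ ⊤ := by
    refine ne_top_of_le_ne_top ?_ (measure_biUnion_finset_le A _)
    refine ENNReal.sum_ne_top.mpr fun n _ => ?_
    rw [Real.volume_Icc]; exact ENNReal.ofReal_ne_top
  refine (measureReal_mono hcov hfin).trans ?_
  refine (measureReal_biUnion_finset_le A _).trans ?_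
  rw [← nsmul_eq_mul, ← Finset.sum_const]
  refine Finset.sum_le_sum fun n hn => ?_
  rw [Real.volume_real_Icc, max_eq_left (by linarith)]
  linarith

/-- Few small gaps give a small exceptional set. -/
lemma Fd_few {τ δ θ T : ℝ} {N : ℕ} (hτ0 : 1 / 3 < τ) (hτ2 : τ < 1 / 2) (hθ : 0 < θ)
    (hθ8 : θ ≤ 1 / 8) (hδ : δ ≤ (1 / 2 - τ) / 2) (hL : 4 / (1 / 2 - τ) ≤ Real.log T)
    (hT : 100 / θ ≤ T) (hN : 1 ≤ N) (hγ : (7 / 4 + 2 * θ) * T ≤ ZetaGaps.ordinate N) :
    volume.real (EE (alp τ T) ∩ Icc ((5 / 4 - θ) * T) ((7 / 4 + θ) * T)) ≤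
      (({n ∈ Finset.Icc 1 N | ZetaGaps.gap n < 1 / 2 - δ} : Finset ℕ).card : ℝ) *
        (3 * alp τ T) := by
  have hpi := Real.pi_pos
  have hpi4 := Real.pi_lt_d2
  have hd : 0 < 1 / 2 - τ := by linarith
  rw [div_le_iff₀ hθ] at hT
  have hTpos : 0 < T := by
    by_contra hcon
    push Not at hcon
    nlinarith
  have hL' : 4 ≤ Real.log T * (1 / 2 - τ) := by rwa [div_le_iff₀ hd] at hL
  have hL24 : 24 ≤ Real.log T := by
    have : 1 / 2 - τ ≤ 1 / 6 := by linarith
    nlinarith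
  have hT100 : 100 ≤ T := by nlinarith
  set L := Real.log T with hLdef
  have hLpos : 0 < L := by linarith
  have hα : 0 < alp τ T := by unfold alp; positivity
  have hαL : alp τ T * L = 2 * Real.pi * τ := by
    unfold alp; exact div_mul_cancel₀ _ hLpos.ne'
  have hα1 : alp τ T ≤ 1 := by
    by_contra hcon
    push Not at hcon
    nlinarith
  apply Fd_EE_le hα (by nlinarith)
  intro n hn h1 h2
  have hlt : ZetaGaps.ordinate (n + 1) < ZetaGaps.ordinate N := by
    refine lt_of_le_of_lt h1 (lt_of_lt_of_le ?_ hγ)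
    nlinarith
  have hnN : n ≤ N := by
    by_contra hcon
    push Not at hcon
    have := ZetaGaps.ordinate_mono (ZetaGaps.zeroCount_unbounded (n + 1)) hN
      (show N ≤ n + 1 by omega)
    linarith
  rw [Finset.mem_filter, Finset.mem_Icc]
  refine ⟨⟨hn, hnN⟩, ?_⟩
  have hpos := ZetaGaps.ordinate_pos (ZetaGaps.zeroCount_unbounded (n + 1))
    (show 1 ≤ n + 1 by omega)
  have h3 : ZetaGaps.ordinate (n + 1) ≤ 2 * T := by nlinarith
  have h4 : Real.log (ZetaGaps.ordinate (n + 1)) ≤ L + 1 := by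
    have h8 := Real.log_le_log hpos h3
    rw [Real.log_mul (by norm_num) hTpos.ne'] at h8
    have := Real.log_two_lt_d9
    linarith
  have h5 := ZetaGaps.gap_le hn
  have h6 : (ZetaGaps.ordinate (n + 1) - ZetaGaps.ordinate n) *
      (Real.log (ZetaGaps.ordinate (n + 1)) + 1) ≤ alp τ T * (L + 2) := by
    have e2 : 0 ≤ ZetaGaps.ordinate (n + 1) - ZetaGaps.ordinate n := by
      have := ZetaGaps.ordinate_mono (ZetaGaps.zeroCount_unbounded (n + 1)) hn
        (show n ≤ n + 1 by omega)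
      linarith
    calc _ ≤ (ZetaGaps.ordinate (n + 1) - ZetaGaps.ordinate n) * (L + 2) := by
          apply mul_le_mul_of_nonneg_left (by linarith) e2
      _ ≤ _ := by
          apply mul_le_mul_of_nonneg_right (by linarith) (by linarith)
  have h7 : ZetaGaps.gap n ≤ alp τ T * (L + 2) / (2 * Real.pi) :=
    h5.trans (div_le_div_of_nonneg_right h6 (by positivity))
  have h8 : alp τ T * (L + 2) / (2 * Real.pi) = τ + 2 * τ / L := by
    unfold alp
    rw [← hLdef]
    field_simp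
  have h9 : 2 * τ / L < (1 / 2 - τ) / 2 := by
    rw [div_lt_iff₀ hLpos]
    linarith
  linarith

/-! ### Bad gaps of moderate size -/

lemma Fd_bad {τ e ε T : ℝ} {n S : ℕ} (hτ0 : 1 / 3 < τ) (hτe : 1 / 2 - e ≤ τ) (hτ2 : τ < 1 / 2)
    (he : 0 < e) (heS : e * (6 * S + 1) ≤ ε) (hLS : 4 * S ≤ ε * Real.log T)
    (hL : 10 ≤ Real.log T) (hTS : 32 * (S : ℝ) ≤ T) (hn : 1 ≤ n)
    (hγ : 5 * T / 4 ≤ ZetaGaps.ordinate n) (hγ2 : ZetaGaps.ordinate n ≤ 7 * T / 4)
    (hg1 : 1 / 3 ≤ ZetaGaps.gap n) (hg2 : ZetaGaps.gap n ≤ S)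
    (hbad : ∀ m : ℤ, ε < |ZetaGaps.gap n - m / 2|) :
    alp τ T / 4 < ZetaGaps.ordinate (n + 1) - ZetaGaps.ordinate n ∧
    ZetaGaps.ordinate (n + 1) - ZetaGaps.ordinate n ≤ (3 * S : ℕ) * alp τ T ∧
    ∀ m : ℤ, e ≤ |(ZetaGaps.ordinate (n + 1) - ZetaGaps.ordinate n) / alp τ T - m| := by
  have hpi := Real.pi_pos
  have hpi4 := Real.pi_lt_d2
  have hpi3 := Real.pi_gt_three
  set L := Real.log T with hLdef
  have hLpos : 0 < L := by linarith
  have hS0 : (0 : ℝ) < S := by linarith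
  have hTpos : 0 < T := by linarith
  set D := ZetaGaps.ordinate (n + 1) - ZetaGaps.ordinate n with hD
  have hDnn : 0 ≤ D := by
    have := ZetaGaps.ordinate_mono (ZetaGaps.zeroCount_unbounded (n + 1)) hn
      (show n ≤ n + 1 by omega)
    linarith
  have hα : 0 < alp τ T := by unfold alp; positivity
  have hαL : alp τ T * L = 2 * Real.pi * τ := by
    unfold alp; exact div_mul_cancel₀ _ hLpos.ne'
  have hlog : L ≤ Real.log (ZetaGaps.ordinate n) :=
    Real.log_le_log hTpos (by linarith)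
  have h1 : D * L ≤ 2 * Real.pi * ZetaGaps.gap n :=
    (mul_le_mul_of_nonneg_left hlog hDnn).trans (ZetaGaps.gap_ge hn)
  have h2 : D * L ≤ 2 * Real.pi * S := h1.trans (by gcongr)
  have hD4 : D ≤ T / 4 := by
    by_contra hcon
    push Not at hcon
    have h3 := mul_le_mul_of_nonneg_left hL hDnn
    have h4 := mul_le_mul_of_nonneg_right hpi4.le hS0.le
    linarith
  have hpos := ZetaGaps.ordinate_pos (ZetaGaps.zeroCount_unbounded (n + 1))
    (show 1 ≤ n + 1 by omega)
  have h3 : ZetaGaps.ordinate (n + 1) ≤ 2 * T := by linarith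
  have h4 : Real.log (ZetaGaps.ordinate (n + 1)) ≤ L + 1 := by
    have h8 := Real.log_le_log hpos h3
    rw [Real.log_mul (by norm_num) hTpos.ne'] at h8
    have := Real.log_two_lt_d9
    linarith
  have h5 : 2 * Real.pi * ZetaGaps.gap n ≤ D * (L + 2) := by
    have h6 := ZetaGaps.gap_le hn
    rw [le_div_iff₀ (by positivity)] at h6
    calc 2 * Real.pi * ZetaGaps.gap n = ZetaGaps.gap n * (2 * Real.pi) := by ring
      _ ≤ _ := h6
      _ ≤ D * (L + 2) := mul_le_mul_of_nonneg_left (by linarith) hDnn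
  refine ⟨?_, ?_, ?_⟩
  · -- lower bound
    by_contra hcon
    push Not at hcon
    have e1 : D * (L + 2) ≤ alp τ T / 4 * (L + 2) :=
      mul_le_mul_of_nonneg_right hcon (by linarith)
    have e3 := mul_le_mul_of_nonneg_left hτ2.le hpi.le
    have e2 : alp τ T ≤ 1 / 3 := by
      by_contra hcon2
      push Not at hcon2
      have e4 := mul_lt_mul_of_pos_right hcon2 hLpos
      linarith
    have e4 := mul_le_mul_of_nonneg_left hg1 hpi.le
    linarith
  · -- upper bound
    push_cast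
    have e1 : D * L ≤ 3 * S * alp τ T * L := by
      rw [mul_assoc (3 * (S : ℝ)), hαL]
      have e2 := mul_le_mul_of_nonneg_left hτ0.le (mul_pos hpi hS0).le
      linarith
    exact le_of_mul_le_mul_right e1 hLpos
  · intro m
    set x := D / alp τ T with hx
    have hxα : x * alp τ T = D := div_mul_cancel₀ _ hα.ne'
    -- `x τ = D L / 2π`
    have e1 : x * τ * (2 * Real.pi) = D * L := by
      calc x * τ * (2 * Real.pi) = x * (2 * Real.pi * τ) := by ring
        _ = x * (alp τ T * L) := by rw [hαL]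
        _ = D * L := by rw [← mul_assoc, hxα]
    have hx0 : 0 ≤ x := div_nonneg hDnn hα.le
    have e2 : x * τ ≤ ZetaGaps.gap n := by
      have : x * τ * (2 * Real.pi) ≤ ZetaGaps.gap n * (2 * Real.pi) := by
        rw [e1]; linarith
      exact le_of_mul_le_mul_right this (by positivity)
    have e3 : D * L ≤ 2 * Real.pi * S := h2
    have e4 : ZetaGaps.gap n ≤ x * τ + 2 * S / L := by
      have e5 : ZetaGaps.gap n * (2 * Real.pi) ≤ (x * τ + 2 * S / L) * (2 * Real.pi) := by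
        have e6 : (x * τ + 2 * S / L) * (2 * Real.pi) = D * L + 2 * (2 * Real.pi * S / L) := by
          rw [add_mul, e1]; ring
        have e7 : D ≤ 2 * Real.pi * S / L := by
          rw [le_div_iff₀ hLpos]; exact e3
        rw [e6]
        linarith
      exact le_of_mul_le_mul_right e5 (by positivity)
    have e5 : 2 * (S : ℝ) / L ≤ ε / 2 := by
      rw [div_le_iff₀ hLpos]
      linarith
    have e6 : x ≤ 3 * S := by
      have : x * τ ≤ S := e2.trans hg2
      have h7 := mul_le_mul_of_nonneg_left hτ0.le hx0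
      linarith
    have e7 : |x - 2 * ZetaGaps.gap n| ≤ 6 * e * S + ε := by
      have e8 : x * (1 - 2 * τ) ≤ 6 * e * S := by
        have e9 : 1 - 2 * τ ≤ 2 * e := by linarith
        have e10 : 0 ≤ 1 - 2 * τ := by linarith
        calc x * (1 - 2 * τ) ≤ 3 * S * (2 * e) := by gcongr
          _ = _ := by ring
      have e11 : 0 ≤ x * (1 - 2 * τ) := mul_nonneg hx0 (by linarith)
      have e12 : x * (1 - 2 * τ) = x - 2 * (x * τ) := by ring
      have e13 : 4 * (S : ℝ) / L = 2 * (2 * S / L) := by ring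
      rw [abs_le]
      constructor <;> linarith
    have e8 := hbad m
    have e9 : 2 * |ZetaGaps.gap n - m / 2| = |2 * ZetaGaps.gap n - m| := by
      rw [← abs_of_pos (show (0 : ℝ) < 2 by norm_num), ← abs_mul,
        abs_of_pos (show (0 : ℝ) < 2 by norm_num)]
      congr 1
      ring
    have e10 : |2 * ZetaGaps.gap n - m| ≤ |x - m| + |x - 2 * ZetaGaps.gap n| := by
      have := abs_sub (x - m) (x - 2 * ZetaGaps.gap n)
      have e11 : x - m - (x - 2 * ZetaGaps.gap n) = 2 * ZetaGaps.gap n - m := by ring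
      rw [e11] at this
      exact this
    linarith

/-- Counting separated points by the measure of their neighbourhoods. -/
lemma Fd_card_le {G : Finset ℕ} {γ : ℕ → ℝ} {a b r : ℝ} {S : Set ℝ} (hr : 0 < r)
    (hab : a + 2 * r ≤ b) (hγ : ∀ n ∈ G, γ n ∈ Icc a b)
    (hsep : ∀ m ∈ G, ∀ n ∈ G, m < n → 2 * r < γ n - γ m)
    (hS : ∀ t ∈ Icc a b, ∀ n ∈ G, |t - γ n| ≤ r → t ∈ S) (hfin : volume S ≠ ⊤) :
    G.card * r ≤ volume.real S := by
  set J : ℕ → Set ℝ := fun n => Icc (max a (γ n - r)) (min b (γ n + r)) with hJ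
  have hsub : (⋃ n ∈ G, J n) ⊆ S := by
    intro t ht
    simp only [Set.mem_iUnion, exists_prop] at ht
    obtain ⟨n, hn, h1, h2⟩ := ht
    have h3 := le_max_left a (γ n - r)
    have h4 := le_max_right a (γ n - r)
    have h5 := min_le_left b (γ n + r)
    have h6 := min_le_right b (γ n + r)
    exact hS t ⟨by linarith, by linarith⟩ n hn (abs_le.mpr ⟨by linarith, by linarith⟩)
  have hlt : ∀ m ∈ G, ∀ n ∈ G, m < n → Disjoint (J m) (J n) := by
    intro m hm n hn hmn
    rw [Set.disjoint_left]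
    rintro t ⟨_, h2⟩ ⟨h3, _⟩
    have h4 := le_max_right a (γ n - r)
    have h6 := min_le_right b (γ m + r)
    have := hsep m hm n hn hmn
    linarith
  have hle : ENNReal.ofReal (G.card * r) ≤ volume S := by
    refine le_trans ?_ (measure_mono hsub)
    rw [measure_biUnion_finset _ (fun n _ => measurableSet_Icc)]
    · have h1 : ∀ n ∈ G, ENNReal.ofReal r ≤ volume (J n) := by
        intro n hn
        rw [hJ, Real.volume_Icc]
        apply ENNReal.ofReal_le_ofReal
        have h2 := (hγ n hn).1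
        have h3 := (hγ n hn).2
        rcases max_cases a (γ n - r) with ⟨h4, _⟩ | ⟨h4, _⟩ <;>
        rcases min_cases b (γ n + r) with ⟨h5, _⟩ | ⟨h5, _⟩ <;> rw [h4, h5] <;> linarith
      calc ENNReal.ofReal (G.card * r) = G.card * ENNReal.ofReal r := by
            rw [ENNReal.ofReal_mul (Nat.cast_nonneg _), ENNReal.ofReal_natCast]
        _ = ∑ n ∈ G, ENNReal.ofReal r := by rw [Finset.sum_const, nsmul_eq_mul]
        _ ≤ _ := Finset.sum_le_sum h1
    · intro m hm n hn hmn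
      rcases lt_or_gt_of_ne hmn with h | h
      · exact hlt m hm n hn h
      · exact (hlt n hn m hm h).symm
  have h1 := ENNReal.toReal_mono hfin hle
  rwa [ENNReal.toReal_ofReal (by positivity)] at h1

/-- The bad gaps of one block. -/
lemma Fd_block (hRH : RiemannHypothesis) {τ e ε ε' T : ℝ} {S : ℕ} {G : Finset ℕ}
    (hτ0 : 1 / 3 < τ) (hτe : 1 / 2 - e ≤ τ) (hτ2 : τ < 1 / 2)
    (he : 0 < e) (heS : e * (6 * S + 1) ≤ ε) (hLS : 4 * S ≤ ε * Real.log T)
    (hL : 10 ≤ Real.log T) (hTS : 32 * (S : ℝ) ≤ T) (hT1 : 10 ≤ T)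
    (hG : ∀ n ∈ G, 1 ≤ n ∧ 5 * T / 4 ≤ ZetaGaps.ordinate n ∧ ZetaGaps.ordinate n ≤ 7 * T / 4 ∧
      1 / 3 ≤ ZetaGaps.gap n ∧ ZetaGaps.gap n ≤ S ∧ ∀ m : ℤ, ε < |ZetaGaps.gap n - m / 2|)
    (hblock : volume.real {t0 : ℝ | t0 ∈ Icc (5 * T / 4) (7 * T / 4) ∧ ∃ g1 g2 : ℝ, Xr g1 = 0 ∧
        Xr g2 = 0 ∧ |t0 - g1| ≤ alp τ T / 8 ∧ 0 < g2 - g1 ∧ g2 - g1 ≤ (3 * S : ℕ) * alp τ T ∧
        ∀ m : ℤ, e ≤ |(g2 - g1) / alp τ T - m|} ≤ ε' * T) :
    (G.card : ℝ) ≤ 4 * ε' * (T * Real.log T) := by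
  have hpi := Real.pi_pos
  have hpi3 := Real.pi_gt_three
  have hpi4 := Real.pi_lt_d2
  set L := Real.log T with hLdef
  have hLpos : 0 < L := by linarith
  have hTpos : 0 < T := by linarith
  have hα : 0 < alp τ T := by unfold alp; positivity
  have hαL : alp τ T * L = 2 * Real.pi * τ := by
    unfold alp; exact div_mul_cancel₀ _ hLpos.ne'
  have hα1 : alp τ T ≤ 1 := by
    by_contra hcon
    push Not at hcon
    nlinarith
  have hXr : ∀ n : ℕ, 1 ≤ n → Xr (ZetaGaps.ordinate n) = 0 := by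
    intro n hn
    obtain ⟨ρ, hρ, hρ2⟩ := ZetaGaps.exists_zero_ordinate (ZetaGaps.zeroCount_unbounded n) hn
    rw [← hρ2]
    exact Xr_of_ntz hRH hρ
  have hcons : ∀ n ∈ G, alp τ T / 4 < ZetaGaps.ordinate (n + 1) - ZetaGaps.ordinate n ∧
      ZetaGaps.ordinate (n + 1) - ZetaGaps.ordinate n ≤ (3 * S : ℕ) * alp τ T ∧
      ∀ m : ℤ, e ≤ |(ZetaGaps.ordinate (n + 1) - ZetaGaps.ordinate n) / alp τ T - m| := by
    intro n hn
    obtain ⟨h1, h2, h3, h4, h5, h6⟩ := hG n hn
    exact Fd_bad hτ0 hτe hτ2 he heS hLS hL hTS h1 h2 h3 h4 h5 h6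
  have key := Fd_card_le (G := G) (γ := ZetaGaps.ordinate) (a := 5 * T / 4) (b := 7 * T / 4)
    (r := alp τ T / 8) (S := {t0 : ℝ | t0 ∈ Icc (5 * T / 4) (7 * T / 4) ∧ ∃ g1 g2 : ℝ, Xr g1 = 0 ∧
        Xr g2 = 0 ∧ |t0 - g1| ≤ alp τ T / 8 ∧ 0 < g2 - g1 ∧ g2 - g1 ≤ (3 * S : ℕ) * alp τ T ∧
        ∀ m : ℤ, e ≤ |(g2 - g1) / alp τ T - m|}) (by positivity) (by linarith)
    (fun n hn => ⟨(hG n hn).2.1, (hG n hn).2.2.1⟩) ?_ ?_ ?_
  · have h1 : (G.card : ℝ) * (alp τ T / 8) * L ≤ ε' * T * L :=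
      mul_le_mul_of_nonneg_right (key.trans hblock) hLpos.le
    have h2 : (G.card : ℝ) * (alp τ T / 8) * L = G.card * (2 * Real.pi * τ / 8) := by
      rw [← hαL]; ring
    rw [h2] at h1
    have h3 : (1 : ℝ) / 4 ≤ 2 * Real.pi * τ / 8 := by
      have h5 := mul_le_mul_of_nonneg_left hτ0.le hpi.le
      linarith
    have h4 : (G.card : ℝ) * (1 / 4) ≤ G.card * (2 * Real.pi * τ / 8) :=
      mul_le_mul_of_nonneg_left h3 (Nat.cast_nonneg _)
    linarith
  · intro m hm n hn hmn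
    have h1 := (hcons m hm).1
    have h2 := ZetaGaps.ordinate_mono (ZetaGaps.zeroCount_unbounded n)
      (show 1 ≤ m + 1 by omega) (show m + 1 ≤ n by omega)
    linarith
  · intro t ht n hn hr
    obtain ⟨h1, h2, h3⟩ := hcons n hn
    have hn1 := (hG n hn).1
    exact ⟨ht, ZetaGaps.ordinate n, ZetaGaps.ordinate (n + 1), hXr n hn1, hXr (n + 1) (by omega),
      hr, by linarith, h2, h3⟩
  · refine ne_top_of_le_ne_top ?_ (measure_mono (fun u hu => hu.1 :
      _ ⊆ Icc (5 * T / 4) (7 * T / 4)))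
    rw [Real.volume_Icc]; exact ENNReal.ofReal_ne_top

lemma Fd_cover {q a x : ℝ} (K : ℕ) (h1 : a * q ^ K ≤ x) (h2 : x ≤ a) (hK : K ≠ 0) :
    ∃ j < K, a * q ^ (j + 1) ≤ x ∧ x ≤ a * q ^ j := by
  induction K with
  | zero => exact absurd rfl hK
  | succ K ih =>
    rcases eq_or_ne K 0 with h | h
    · subst h
      exact ⟨0, by omega, h1, by simpa using h2⟩
    · rcases le_total (a * q ^ K) x with h3 | h3
      · obtain ⟨j, hj, h4⟩ := ih h3 h
        exact ⟨j, by omega, h4⟩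
      · exact ⟨K, by omega, h1, h3⟩

lemma Fd_geom (K : ℕ) : ∑ j ∈ Finset.range K, (5 / 7 : ℝ) ^ j ≤ 7 / 2 := by
  have h1 : ∑ j ∈ Finset.range K, (5 / 7 : ℝ) ^ j ≤ ∑' j : ℕ, (5 / 7 : ℝ) ^ j :=
    Summable.sum_le_tsum _ (fun _ _ => by positivity)
      (summable_geometric_of_lt_one (by norm_num) (by norm_num))
  rw [tsum_geometric_of_lt_one (by norm_num) (by norm_num)] at h1
  refine h1.trans (by norm_num)

/-- The facts on the height used in the count. -/
lemma Fd_height (hRH : RiemannHypothesis) {c x q a : ℝ} (hc : 0 < c) (hc1 : c < 1) (hx : 0 < x)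
    (hq : 0 < q) : ∃ N0 : ℕ, 1 ≤ N0 ∧ ∀ N : ℕ, N0 ≤ N → ∀ H : ℝ, H = ZetaGaps.ordinate N →
      H * Real.log H ≤ 13 * N ∧ (N : ℝ) ≤ H * Real.log H ∧
      (ZetaGaps.zeroCount (x * H) : ℝ) ≤ x / 6 * (H * Real.log H) ∧
      (N : ℝ) - ZetaGaps.zeroCount (c * H) ≤ (1 - c) / 6 * (H * Real.log H) ∧
      ZetaGaps.zeroCount (c * H) ≤ N ∧ 1 ≤ H ∧ a ≤ q * H ∧ a ≤ Real.log (q * H) ∧
      Real.log H ≤ 2 * Real.log (q * H) := by
  have hpi := Real.pi_pos
  have hpi3 := Real.pi_gt_three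
  have hpi4 := Real.pi_lt_d2
  have t1 := (Fd_tend hRH (x := 1 / 2) (by norm_num)).eventually
    (lt_mem_nhds (show (1 : ℝ) / 13 < 1 / 2 / (2 * Real.pi) by
      rw [lt_div_iff₀ (by positivity)]; linarith))
  have t2 := (Fd_tend hRH (x := 1) (by norm_num)).eventually
    (gt_mem_nhds (show (1 : ℝ) / (2 * Real.pi) < 1 by
      rw [div_lt_one (by positivity)]; linarith))
  have t3 := (Fd_tend hRH hx).eventually
    (gt_mem_nhds (show x / (2 * Real.pi) < x / 6 by
      apply div_lt_div_of_pos_left hx (by norm_num) (by linarith)))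
  have t4 := ((Fd_tend hRH (x := 1) (by norm_num)).sub (Fd_tend hRH hc)).eventually
    (gt_mem_nhds (show (1 : ℝ) / (2 * Real.pi) - c / (2 * Real.pi) < (1 - c) / 6 by
      rw [← sub_div]
      apply div_lt_div_of_pos_left (by linarith) (by norm_num) (by linarith)))
  have e1 : Filter.Tendsto (fun H : ℝ => q * H) Filter.atTop Filter.atTop :=
    Filter.tendsto_id.const_mul_atTop hq
  have t5 := e1.eventually_ge_atTop a
  have t6 := (Real.tendsto_log_atTop.comp e1).eventually_ge_atTop a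
  have t7 := Real.tendsto_log_atTop.eventually_ge_atTop (max 1 (-2 * Real.log q))
  have t8 := Filter.eventually_ge_atTop (1 : ℝ)
  obtain ⟨N1, hN1⟩ := Filter.eventually_atTop.mp (ZetaGaps.tendsto_ordinate.eventually
    (t1.and (t2.and (t3.and (t4.and (t5.and (t6.and (t7.and t8))))))))
  refine ⟨max N1 1, le_max_right _ _, fun N hN H hH => ?_⟩
  have hNN1 : N1 ≤ N := (le_max_left _ _).trans hN
  have hN1' : 1 ≤ N := (le_max_right _ _).trans hN
  have hall := hN1 N hNN1
  rw [← hH] at hall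
  obtain ⟨a1, a2, a3, a4, a5, a6, a7, a8⟩ := hall
  have hHpos : 0 < H := by linarith
  have hl1 : 1 ≤ Real.log H := (le_max_left _ _).trans a7
  have hl2 : -2 * Real.log q ≤ Real.log H := (le_max_right _ _).trans a7
  have hM : 0 < H * Real.log H := by positivity
  have hzlt : ∀ y : ℝ, y < H → ZetaGaps.zeroCount y < N := by
    intro y hy
    by_contra hcon
    push Not at hcon
    have := (ZetaGaps.le_zeroCount_iff (ZetaGaps.zeroCount_unbounded N) hN1').mp hcon
    linarith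
  have hNz : N ≤ ZetaGaps.zeroCount (1 * H) := by
    rw [one_mul, hH]
    exact ZetaGaps.le_zeroCount_ordinate (ZetaGaps.zeroCount_unbounded N) hN1'
  have hNz' : (N : ℝ) ≤ ZetaGaps.zeroCount (1 * H) := by exact_mod_cast hNz
  rw [lt_div_iff₀ hM] at a1
  rw [div_lt_iff₀ hM] at a2 a3
  rw [← sub_div, div_lt_iff₀ hM] at a4
  have hhalf : (ZetaGaps.zeroCount (1 / 2 * H) : ℝ) ≤ N := by
    exact_mod_cast (hzlt (1 / 2 * H) (by linarith)).le
  refine ⟨by linarith, by linarith, a3.le, by linarith, (hzlt _ (by nlinarith)).le, a8, a5, a6, ?_⟩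
  rw [Real.log_mul hq.ne' hHpos.ne']
  linarith

/-- The dichotomy. -/
theorem dichotomy (hRH : RiemannHypothesis) {ε : ℝ} (hε : 0 < ε) : ∃ δ : ℝ, 0 < δ ∧ ∃ N0 : ℕ,
    ∀ N : ℕ, N0 ≤ N →
      δ * N ≤ ((({n ∈ Finset.Icc 1 N | Pool.Agent.ZetaGaps.gap n < 1 / 2 - δ} : Finset ℕ).card : ℕ)
        : ℝ) ∨
      (({n : ℕ | n ∈ Finset.Icc 1 N ∧ ∀ m : ℤ, ε < |Pool.Agent.ZetaGaps.gap n - m / 2|}.ncard : ℕ)
        : ℝ) ≤ ε * N := by
  classical
  have hpi := Real.pi_pos
  have hpi3 := Real.pi_gt_three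
  have hpi4 := Real.pi_lt_d2
  set ε1 := min ε 1 with hε1
  have hε10 : 0 < ε1 := lt_min hε one_pos
  have hε11 : ε1 ≤ 1 := min_le_right _ _
  have hε1e : ε1 ≤ ε := min_le_left _ _
  obtain ⟨C, hC, hsq⟩ := ZetaGaps.exists_sum_sq_gap hRH
  obtain ⟨S, hS⟩ := exists_nat_ge (max 1 (8 * C / ε1))
  have hS1 : (1 : ℝ) ≤ S := (le_max_left _ _).trans hS
  have hSC : 8 * C ≤ ε1 * (S : ℝ) ^ 2 := by
    have h1 : 8 * C / ε1 ≤ S := (le_max_right _ _).trans hS
    rw [div_le_iff₀ hε10] at h1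
    have h2 := mul_le_mul_of_nonneg_left hS1 (by positivity : (0 : ℝ) ≤ ε1 * S)
    linarith
  set e := ε1 / (12 * (S + 1)) with he
  have he0 : 0 < e := by positivity
  have heS : e * (6 * S + 1) ≤ ε1 := by
    rw [he, div_mul_eq_mul_div, div_le_iff₀ (by positivity)]
    exact mul_le_mul_of_nonneg_left (by linarith) hε10.le
  obtain ⟨K, hK⟩ := exists_pow_lt_of_lt_one (show 0 < ε1 / 24 by positivity)
    (show (5 / 7 : ℝ) < 1 by norm_num)
  have hK0 : K ≠ 0 := by
    rintro rfl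
    rw [pow_zero] at hK
    linarith
  set θ := ε1 / 32 with hθ
  have hθ0 : 0 < θ := by positivity
  have hθ8 : θ ≤ 1 / 8 := by rw [hθ]; linarith
  obtain ⟨τ, δ', T0, hτ0, hτe, hτ2, hδ', hblock⟩ := block hRH he0
    (show 0 < ε1 / 1000 by positivity) hθ0 hθ8 (3 * S)
  set w := 7 / 4 + 2 * θ with hw
  have hw0 : 7 / 4 < w := by rw [hw]; linarith
  have hwpos : 0 < w := by linarith
  have hw2 : w ≤ 2 := by rw [hw]; linarith
  set c := 7 / 4 / w with hc
  have hcpos : 0 < c := by positivity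
  have hc1 : c < 1 := by rw [hc, div_lt_one hwpos]; exact hw0
  have hcw : c * w = 7 / 4 := div_mul_cancel₀ _ hwpos.ne'
  have hcθ : 1 - c ≤ 8 / 7 * θ := by
    have h1 : 1 - c = 2 * θ / w := by
      rw [eq_div_iff hwpos.ne', sub_mul, hcw, hw]; ring
    rw [h1, div_le_iff₀ hwpos]
    have h2 := mul_le_mul_of_nonneg_left hw0.le hθ0.le
    linarith
  set x := c * (5 / 7) ^ K with hx
  have hxpos : 0 < x := by positivity
  have hxle : x ≤ ε1 / 24 := by
    rw [hx]
    have : 0 < (5 / 7 : ℝ) ^ K := by positivity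
    exact (mul_le_of_le_one_left this.le hc1.le).trans hK.le
  set q := (5 / 7 : ℝ) ^ K / w with hq
  have hqpos : 0 < q := by positivity
  set δ := min ((1 / 2 - τ) / 2) (min (δ' * q / 60) (ε1 / 8)) with hδ
  have hδ0 : 0 < δ := lt_min (by linarith) (lt_min (by positivity) (by positivity))
  have hδ1 : δ ≤ (1 / 2 - τ) / 2 := min_le_left _ _
  have hδ2 : δ ≤ δ' * q / 60 := (min_le_right _ _).trans (min_le_left _ _)
  have hδ3 : δ ≤ ε1 / 8 := (min_le_right _ _).trans (min_le_right _ _)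
  set a := max (max (max T0 (4 / (1 / 2 - τ))) (max (100 / θ) (4 * S / ε1)))
    (max 10 (32 * (S : ℝ))) with ha
  have ha1 : T0 ≤ a := (le_max_left _ _).trans ((le_max_left _ _).trans (le_max_left _ _))
  have ha2 : 4 / (1 / 2 - τ) ≤ a :=
    (le_max_right _ _).trans ((le_max_left _ _).trans (le_max_left _ _))
  have ha3 : 100 / θ ≤ a :=
    (le_max_left _ _).trans ((le_max_right _ _).trans (le_max_left _ _))
  have ha4 : 4 * S / ε1 ≤ a :=
    (le_max_right _ _).trans ((le_max_right _ _).trans (le_max_left _ _))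
  have ha5 : 10 ≤ a := (le_max_left _ _).trans (le_max_right _ _)
  have ha6 : 32 * (S : ℝ) ≤ a := (le_max_right _ _).trans (le_max_right _ _)
  obtain ⟨N0, hN01, hN0⟩ := Fd_height hRH (a := a) hcpos hc1 hxpos hqpos
  refine ⟨δ, hδ0, N0, fun N hN => ?_⟩
  by_cases hfirst : δ * N ≤ ((({n ∈ Finset.Icc 1 N | Pool.Agent.ZetaGaps.gap n < 1 / 2 - δ} :
    Finset ℕ).card : ℕ) : ℝ)
  · exact Or.inl hfirst
  right
  push Not at hfirst
  have hNpos : 1 ≤ N := hN01.trans hN
  have hNpos' : (0 : ℝ) < N := by exact_mod_cast hNpos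
  obtain ⟨hM13, hNM, hzx, hzc, hzcN, hH1, haH, halog, hlogH⟩ := hN0 N hN _ rfl
  set H := ZetaGaps.ordinate N with hH
  have hHpos : 0 < H := by linarith
  have hHlog : 0 ≤ Real.log H := Real.log_nonneg hH1
  set A := ({n ∈ Finset.Icc 1 N | Pool.Agent.ZetaGaps.gap n < 1 / 2 - δ} : Finset ℕ) with hA
  set B := ({n ∈ Finset.Icc 1 N | ∀ m : ℤ, ε1 < |Pool.Agent.ZetaGaps.gap n - m / 2|} :
    Finset ℕ) with hB
  set T : ℕ → ℝ := fun j => H * (5 / 7) ^ j / w with hT
  -- the blocks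
  have hTq : ∀ j < K, q * H ≤ T j := by
    intro j hj
    have h1 : (5 / 7 : ℝ) ^ K ≤ (5 / 7) ^ j :=
      pow_le_pow_of_le_one (by norm_num) (by norm_num) hj.le
    have h2 : q * H = H * (5 / 7) ^ K / w := by rw [hq]; ring
    rw [h2]
    simp only [hT]
    gcongr
  have hTH : ∀ j, T j ≤ H := by
    intro j
    have h1 : (5 / 7 : ℝ) ^ j ≤ 1 := pow_le_one₀ (by norm_num) (by norm_num)
    simp only [hT]
    rw [div_le_iff₀ hwpos]
    exact mul_le_mul_of_nonneg_left (h1.trans (by linarith)) hHpos.le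
  have hTw : ∀ j, w * T j ≤ H := by
    intro j
    have h1 : (5 / 7 : ℝ) ^ j ≤ 1 := pow_le_one₀ (by norm_num) (by norm_num)
    have h2 : w * T j = H * (5 / 7) ^ j := by
      simp only [hT]
      rw [mul_div_cancel₀ _ hwpos.ne']
    rw [h2]
    exact mul_le_of_le_one_right hHpos.le h1
  set G : ℕ → Finset ℕ := fun j => B.filter (fun n => 1 / 3 ≤ ZetaGaps.gap n ∧
    ZetaGaps.gap n ≤ S ∧ 5 * T j / 4 ≤ ZetaGaps.ordinate n ∧ ZetaGaps.ordinate n ≤ 7 * T j / 4)
    with hG
  have hGcard : ∀ j < K, ((G j).card : ℝ) ≤ 4 * (ε1 / 1000) * (T j * Real.log H) := by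
    intro j hj
    have h1 := hTq j hj
    have hqH : 0 < q * H := by positivity
    have hTpos : 0 < T j := hqH.trans_le h1
    have h2 : Real.log (q * H) ≤ Real.log (T j) := Real.log_le_log hqH h1
    have h3 : Real.log (T j) ≤ Real.log H := Real.log_le_log hTpos (hTH j)
    have hL10 : 10 ≤ Real.log (T j) := by linarith
    have hLpos : 0 < Real.log (T j) := by linarith
    have hfew : Few τ δ' θ (T j) := by
      have h4 := Fd_few (N := N) (δ := δ) hτ0 hτ2 hθ0 hθ8 hδ1 (T := T j)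
        (by linarith) (by linarith) hNpos (hTw j)
      refine h4.trans ?_
      rw [← hA]
      have hα : 0 < alp τ (T j) := by unfold alp; positivity
      have hαL : alp τ (T j) * Real.log (T j) = 2 * Real.pi * τ := by
        unfold alp; exact div_mul_cancel₀ _ hLpos.ne'
      have h5 : (N : ℝ) ≤ H * (2 * Real.log (T j)) :=
        hNM.trans (mul_le_mul_of_nonneg_left (by linarith) hHpos.le)
      have h6 : H ≤ T j / q := by
        rw [le_div_iff₀ hqpos]; linarith
      calc (A.card : ℝ) * (3 * alp τ (T j)) ≤ δ * N * (3 * alp τ (T j)) :=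
            mul_le_mul_of_nonneg_right hfirst.le (by positivity)
        _ ≤ δ * (H * (2 * Real.log (T j))) * (3 * alp τ (T j)) := by gcongr
        _ = δ * H * (6 * (alp τ (T j) * Real.log (T j))) := by ring
        _ = δ * H * (12 * Real.pi * τ) := by rw [hαL]; ring
        _ ≤ δ * H * 60 := by
            apply mul_le_mul_of_nonneg_left _ (by positivity)
            calc 12 * Real.pi * τ ≤ 12 * 3.15 * (1 / 2) := by gcongr
              _ ≤ 60 := by norm_num
        _ ≤ δ' * q / 60 * (T j / q) * 60 := by gcongr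
        _ = δ' * T j := by field_simp
    have h7 := hblock (T j) (by linarith) hfew
    have h8 := Fd_block hRH (G := G j) hτ0 hτe hτ2 he0 heS
      (by
        rw [div_le_iff₀ hε10] at ha4
        have h9 : a * ε1 ≤ Real.log (T j) * ε1 :=
          mul_le_mul_of_nonneg_right (by linarith) hε10.le
        linarith) hL10 (by linarith) (by linarith) (by
        intro n hn
        simp only [hG, hB, Finset.mem_filter, Finset.mem_Icc] at hn
        obtain ⟨⟨⟨b1, _⟩, b2⟩, b3, b4, b5, b6⟩ := hn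
        exact ⟨b1, b5, b6, b3, b4, b2⟩) h7
    refine h8.trans ?_
    gcongr
  -- covering
  set B3 := ({n ∈ Finset.Icc 1 N | (S : ℝ) < ZetaGaps.gap n} : Finset ℕ) with hB3
  have hcov : B ⊆ Finset.Icc 1 (ZetaGaps.zeroCount (x * H)) ∪
      (Finset.Ioc (ZetaGaps.zeroCount (c * H)) N ∪
        (B3 ∪ (A ∪ (Finset.range K).biUnion G))) := by
    intro n hn
    have hn' := hn
    rw [hB, Finset.mem_filter, Finset.mem_Icc] at hn'
    obtain ⟨⟨hn1, hnN⟩, hbad⟩ := hn'
    simp only [Finset.mem_union, Finset.mem_Icc, Finset.mem_Ioc, Finset.mem_biUnion,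
      Finset.mem_range]
    by_contra hcon
    push Not at hcon
    obtain ⟨c1, c2, c3, c4, c5⟩ := hcon
    have d1 : x * H < ZetaGaps.ordinate n := by
      by_contra h
      push Not at h
      have h1 := (ZetaGaps.le_zeroCount_iff (ZetaGaps.zeroCount_unbounded n) hn1).mpr h
      have h2 := c1 hn1
      omega
    have d2 : ZetaGaps.ordinate n ≤ c * H := by
      by_contra h
      have h1 : ZetaGaps.zeroCount (c * H) < n := by
        by_contra h2
        push Not at h2
        exact h ((ZetaGaps.le_zeroCount_iff (ZetaGaps.zeroCount_unbounded n) hn1).mp h2)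
      have h2 := c2 h1
      omega
    have d3 : ZetaGaps.gap n ≤ S := by
      by_contra h
      push Not at h
      exact c3 (by rw [hB3, Finset.mem_filter, Finset.mem_Icc]; exact ⟨⟨hn1, hnN⟩, h⟩)
    have d4 : 1 / 2 - δ ≤ ZetaGaps.gap n := by
      by_contra h
      push Not at h
      exact c4 (by rw [hA, Finset.mem_filter, Finset.mem_Icc]; exact ⟨⟨hn1, hnN⟩, h⟩)
    obtain ⟨j, hj, d5, d6⟩ := Fd_cover (q := 5 / 7) (a := c * H) (x := ZetaGaps.ordinate n) K
      (by
        have : c * H * (5 / 7) ^ K = x * H := by rw [hx]; ring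
        linarith) d2 hK0
    have e1 : 7 * T j / 4 = c * H * (5 / 7) ^ j := by
      simp only [hT, hc]; ring
    have e2 : 5 * T j / 4 = c * H * (5 / 7) ^ (j + 1) := by
      simp only [hT, hc, pow_succ]; ring
    apply c5 j hj
    rw [hG]
    simp only [Finset.mem_filter]
    exact ⟨hn, by linarith only [d4, hδ3, hε11], d3, e2.le.trans d5, d6.trans e1.ge⟩
  -- the cardinalities
  have k1 : ((Finset.Icc 1 (ZetaGaps.zeroCount (x * H))).card : ℝ) ≤ ε1 / 8 * N := by
    rw [Nat.card_Icc, Nat.add_sub_cancel]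
    have h1 : x / 6 * (H * Real.log H) ≤ ε1 / 24 / 6 * (13 * N) :=
      mul_le_mul (by linarith only [hxle]) hM13 (mul_nonneg hHpos.le hHlog) (by positivity)
    have h2 : ε1 / 24 / 6 * (13 * N) = ε1 * N * (13 / 144) := by ring
    have h3 : 0 < ε1 * N := mul_pos hε10 hNpos'
    linarith only [h1, h2, h3, hzx]
  have k2 : ((Finset.Ioc (ZetaGaps.zeroCount (c * H)) N).card : ℝ) ≤ ε1 / 8 * N := by
    rw [Nat.card_Ioc, Nat.cast_sub hzcN]
    have h1 : (1 - c) / 6 * (H * Real.log H) ≤ (8 / 7 * θ) / 6 * (13 * N) :=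
      mul_le_mul (by linarith only [hcθ]) hM13 (mul_nonneg hHpos.le hHlog) (by positivity)
    have h2 : (8 / 7 * θ) / 6 * (13 * N) = ε1 * N * (13 / 168) := by rw [hθ]; ring
    have h3 : 0 < ε1 * N := mul_pos hε10 hNpos'
    linarith only [h1, h2, h3, hzc]
  have k3 : (B3.card : ℝ) ≤ ε1 / 8 * N := by
    have h1 : (B3.card : ℝ) * (S : ℝ) ^ 2 ≤ C * N := by
      refine le_trans ?_ (hsq N)
      calc (B3.card : ℝ) * (S : ℝ) ^ 2 = ∑ n ∈ B3, (S : ℝ) ^ 2 := by
            rw [Finset.sum_const, nsmul_eq_mul]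
        _ ≤ ∑ n ∈ B3, (max (ZetaGaps.gap n) 0) ^ 2 := by
            refine Finset.sum_le_sum fun n hn => ?_
            rw [hB3, Finset.mem_filter] at hn
            apply pow_le_pow_left₀ (by positivity)
            exact hn.2.le.trans (le_max_left _ _)
        _ ≤ _ := Finset.sum_le_sum_of_subset_of_nonneg (Finset.filter_subset _ _)
            fun _ _ _ => sq_nonneg _
    have h2 : 8 * C * N ≤ ε1 * (S : ℝ) ^ 2 * N :=
      mul_le_mul_of_nonneg_right hSC hNpos'.le
    have h3 : (B3.card : ℝ) * 8 * (S : ℝ) ^ 2 ≤ (ε1 * N) * (S : ℝ) ^ 2 := by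
      linarith only [h1, h2]
    have h4 := le_of_mul_le_mul_right h3 (by positivity)
    linarith only [h4]
  have k4 : (A.card : ℝ) ≤ ε1 / 8 * N := hfirst.le.trans (by gcongr)
  have k5 : (((Finset.range K).biUnion G).card : ℝ) ≤ ε1 / 8 * N := by
    have h1 : (((Finset.range K).biUnion G).card : ℝ) ≤ ∑ j ∈ Finset.range K, ((G j).card : ℝ) := by
      exact_mod_cast Finset.card_biUnion_le
    refine h1.trans ?_
    have h2 : ∑ j ∈ Finset.range K, ((G j).card : ℝ) ≤
        ∑ j ∈ Finset.range K, 4 * (ε1 / 1000) * (T j * Real.log H) :=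
      Finset.sum_le_sum fun j hj => hGcard j (Finset.mem_range.mp hj)
    refine h2.trans ?_
    have h3 : ∑ j ∈ Finset.range K, 4 * (ε1 / 1000) * (T j * Real.log H) =
        4 * (ε1 / 1000) * (H * Real.log H) / w * ∑ j ∈ Finset.range K, (5 / 7 : ℝ) ^ j := by
      rw [Finset.mul_sum]
      refine Finset.sum_congr rfl fun j _ => ?_
      simp only [hT]; ring
    rw [h3]
    have h4 := Fd_geom K
    have h5 : 0 ≤ H * Real.log H := mul_nonneg hHpos.le hHlog
    have h6 : 4 * (ε1 / 1000) * (H * Real.log H) / w ≤ 4 * (ε1 / 1000) * (H * Real.log H) / (7 / 4) := by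
      gcongr
    calc 4 * (ε1 / 1000) * (H * Real.log H) / w * ∑ j ∈ Finset.range K, (5 / 7 : ℝ) ^ j
        ≤ 4 * (ε1 / 1000) * (H * Real.log H) / (7 / 4) * (7 / 2) :=
          mul_le_mul h6 h4 (Finset.sum_nonneg fun _ _ => by positivity) (by positivity)
      _ = ε1 / 125 * (H * Real.log H) := by ring
      _ ≤ ε1 / 125 * (13 * N) := mul_le_mul_of_nonneg_left hM13 (by positivity)
      _ ≤ ε1 / 8 * N := by
          have h7 : 0 < ε1 * N := mul_pos hε10 hNpos'
          linarith only [h7]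
  have hcard : (B.card : ℝ) ≤ ε1 * N := by
    have h1 : (B.card : ℝ) ≤ (Finset.Icc 1 (ZetaGaps.zeroCount (x * H))).card +
        ((Finset.Ioc (ZetaGaps.zeroCount (c * H)) N).card +
          (B3.card + (A.card + ((Finset.range K).biUnion G).card))) := by
      have h2 := (Finset.card_le_card hcov).trans (Finset.card_union_le _ _)
      have h3 := Finset.card_union_le (Finset.Ioc (ZetaGaps.zeroCount (c * H)) N)
        (B3 ∪ (A ∪ (Finset.range K).biUnion G))
      have h4 := Finset.card_union_le B3 (A ∪ (Finset.range K).biUnion G)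
      have h5 := Finset.card_union_le A ((Finset.range K).biUnion G)
      have h6 : B.card ≤ (Finset.Icc 1 (ZetaGaps.zeroCount (x * H))).card +
        ((Finset.Ioc (ZetaGaps.zeroCount (c * H)) N).card +
          (B3.card + (A.card + ((Finset.range K).biUnion G).card))) := by omega
      exact_mod_cast h6
    linarith only [h1, k1, k2, k3, k4, k5, mul_pos hε10 hNpos']
  -- conclusion
  have hsub : {n : ℕ | n ∈ Finset.Icc 1 N ∧ ∀ m : ℤ, ε < |Pool.Agent.ZetaGaps.gap n - m / 2|} ⊆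
      (B : Set ℕ) := by
    rintro n ⟨h1, h2⟩
    rw [Finset.mem_coe, hB, Finset.mem_filter]
    exact ⟨h1, fun m => hε1e.trans_lt (h2 m)⟩
  have h1 := Set.ncard_le_ncard hsub B.finite_toSet
  rw [Set.ncard_coe_finset] at h1
  have h2 : (({n : ℕ | n ∈ Finset.Icc 1 N ∧
      ∀ m : ℤ, ε < |Pool.Agent.ZetaGaps.gap n - m / 2|}.ncard : ℕ) : ℝ) ≤ B.card := by
    exact_mod_cast h1
  exact h2.trans (hcard.trans (by gcongr))

end Pool.Agent.AHD
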