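import Pool.Agent.ZGap.AH.Defs3
import Pool.Agent.ZGap.Res.D1
import Pool.Agent.ZGap.Half.ExpMom
import Pool.Agent.Lib.ANT.MertensE

/-!
# Vertical growth
-/

open scoped ContDiff

namespace Pool.Agent.AHD

open Complex MeasureTheory Set Pool.Agent.Hadamard Pool.Agent.HalfGap

/-- The profile `e^{-λ v} (1 - v) / (1 + λ)²`. -/
noncomputable def H1_phi (lam : ℝ) (h : 0 ≤ lam) : ZGap.Gen.PhiData where
  f0 := fun v => Real.exp (-lam * v) * (1 - v) / (1 + lam) ^ 2
  f1 := fun v => -(Real.exp (-lam * v) * (lam * (1 - v) + 1)) / (1 + lam) ^ 2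
  f2 := fun v => Real.exp (-lam * v) * (lam ^ 2 * (1 - v) + 2 * lam) / (1 + lam) ^ 2
  c0 := by fun_prop
  c1 := by fun_prop
  c2 := by fun_prop
  d0 := fun v => by
    have h1 : HasDerivAt (fun v : ℝ => Real.exp (-lam * v)) (Real.exp (-lam * v) * (-lam)) v := by
      simpa using ((hasDerivAt_id v).const_mul (-lam)).exp
    have h2 : HasDerivAt (fun v : ℝ => 1 - v) (-1) v := by
      simpa using (hasDerivAt_id v).const_sub 1
    refine ((h1.mul h2).div_const _).congr_deriv ?_
    ring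
  d1 := fun v => by
    have h1 : HasDerivAt (fun v : ℝ => Real.exp (-lam * v)) (Real.exp (-lam * v) * (-lam)) v := by
      simpa using ((hasDerivAt_id v).const_mul (-lam)).exp
    have h2 : HasDerivAt (fun v : ℝ => 1 - v) (-1) v := by
      simpa using (hasDerivAt_id v).const_sub 1
    refine ((h1.mul ((h2.const_mul lam).add_const 1)).neg.div_const _).congr_deriv ?_
    ring
  one := by simp
  b0 := fun v h0 h1 => by
    have e1 : Real.exp (-lam * v) ≤ 1 := Real.exp_le_one_iff.mpr (by nlinarith)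
    have e0 := Real.exp_pos (-lam * v)
    have hq : 1 ≤ (1 + lam) ^ 2 := by nlinarith
    have hm : 0 ≤ Real.exp (-lam * v) * (1 - v) := mul_nonneg e0.le (by linarith)
    rw [abs_of_nonneg (by positivity), div_le_iff₀ (by positivity)]
    nlinarith
  b1 := fun v h0 h1 => by
    have e1 : Real.exp (-lam * v) ≤ 1 := Real.exp_le_one_iff.mpr (by nlinarith)
    have e0 := Real.exp_pos (-lam * v)
    have hm : 0 ≤ lam * (1 - v) + 1 := by nlinarith [mul_nonneg h (by linarith : 0 ≤ 1 - v)]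
    have hm2 : lam * (1 - v) + 1 ≤ lam + 1 := by nlinarith
    have hm3 : Real.exp (-lam * v) * (lam * (1 - v) + 1) ≤ 1 * (lam + 1) := by gcongr
    rw [abs_div, abs_neg, abs_of_nonneg (by positivity), abs_of_pos (by positivity),
      div_le_iff₀ (by positivity)]
    nlinarith
  b2 := fun v h0 h1 => by
    have e1 : Real.exp (-lam * v) ≤ 1 := Real.exp_le_one_iff.mpr (by nlinarith)
    have e0 := Real.exp_pos (-lam * v)
    have hm : 0 ≤ lam ^ 2 * (1 - v) + 2 * lam := by
      have := mul_nonneg (sq_nonneg lam) (by linarith : 0 ≤ 1 - v)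
      linarith
    have hm2 : lam ^ 2 * (1 - v) + 2 * lam ≤ lam ^ 2 + 2 * lam := by nlinarith [sq_nonneg lam]
    have hm3 : Real.exp (-lam * v) * (lam ^ 2 * (1 - v) + 2 * lam) ≤ 1 * (lam ^ 2 + 2 * lam) := by
      gcongr
    rw [abs_of_nonneg (by positivity), div_le_iff₀ (by positivity)]
    nlinarith

lemma H1_int {D : ℝ} (hD : 0 < D) {z : ℂ} (hz : z ≠ 0) :
    ∫ η in (0:ℝ)..D, Complex.exp (-z * η) * ((1 - η / D : ℝ) : ℂ) =
      1 / z - (1 - Complex.exp (-z * D)) / (D * z ^ 2) := by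
  have hDc : (D : ℂ) ≠ 0 := by exact_mod_cast hD.ne'
  have hder : ∀ η ∈ Set.uIcc 0 D, HasDerivAt
      (fun η : ℝ => Complex.exp (-z * η) * (-(((1 - η / D : ℝ) : ℂ) / z) + 1 / (D * z ^ 2)))
      (Complex.exp (-z * η) * ((1 - η / D : ℝ) : ℂ)) η := by
    intro η _
    have h1 : HasDerivAt (fun η : ℝ => Complex.exp (-z * η)) (Complex.exp (-z * η) * (-z)) η := by
      have := (((hasDerivAt_id η).ofReal_comp).const_mul (-z)).cexp
      simpa using this
    have h2 : HasDerivAt (fun η : ℝ => ((1 - η / D : ℝ) : ℂ)) ((-(1 / D) : ℝ) : ℂ) η := by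
      have h3 : HasDerivAt (fun η : ℝ => 1 - η / D) (-(1 / D)) η := by
        simpa using ((hasDerivAt_id η).div_const D).const_sub 1
      exact h3.ofReal_comp
    refine (h1.mul (((h2.div_const z).neg).add_const _)).congr_deriv ?_
    simp only [Pi.neg_apply]
    push_cast
    field_simp
    ring
  rw [intervalIntegral.integral_eq_sub_of_hasDerivAt hder
    (Continuous.intervalIntegrable (by fun_prop) _ _)]
  have h4 : D / D = 1 := div_self hD.ne'
  simp only [h4, sub_self, Complex.ofReal_zero, zero_div, neg_zero, zero_add, mul_zero,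
    Complex.exp_zero, sub_zero, Complex.ofReal_one, one_mul]
  field_simp
  ring

lemma H1_FF {D d : ℝ} (hD : 0 < D) (hd : 0 < d) (h : 0 ≤ d * D) (u : ℝ) :
    |(1 + d * D) ^ 2 * ZGap.Gen.FF (H1_phi (d * D) h) D u - d / (d ^ 2 + u ^ 2)| ≤
      2 / (D * d) * (d / (d ^ 2 + u ^ 2)) := by
  set z : ℂ := (d : ℂ) + (u : ℂ) * I with hz
  have hre : z.re = d := by simp [hz]
  have hz0 : z ≠ 0 := by
    intro h0
    rw [h0] at hre
    simp at hre
    linarith
  have hn : ‖z‖ ^ 2 = d ^ 2 + u ^ 2 := by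
    rw [Complex.sq_norm, Complex.normSq_apply]
    simp [hz]
    ring
  have e1 : (1 + d * D) ^ 2 * ZGap.Gen.FF (H1_phi (d * D) h) D u =
      (∫ η in (0:ℝ)..D, Complex.exp (-z * η) * ((1 - η / D : ℝ) : ℂ)).re := by
    have hint : IntervalIntegrable (fun η : ℝ => Complex.exp (-z * η) * ((1 - η / D : ℝ) : ℂ))
        volume 0 D := Continuous.intervalIntegrable (by fun_prop) _ _
    have h1 := Complex.reCLM.intervalIntegral_comp_comm hint
    simp only [Complex.reCLM_apply] at h1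
    rw [← h1, ZGap.Gen.FF, ← intervalIntegral.integral_const_mul]
    refine intervalIntegral.integral_congr fun η _ => ?_
    have h2 : Complex.exp (-z * η) * ((1 - η / D : ℝ) : ℂ) =
        ((1 - η / D : ℝ) : ℂ) * Complex.exp (((-(d * η) : ℝ) : ℂ) + ((-(u * η) : ℝ) : ℂ) * I) := by
      rw [mul_comm]
      congr 2
      rw [hz]
      push_cast
      ring
    have h3 : (Complex.exp (((-(d * η) : ℝ) : ℂ) + ((-(u * η) : ℝ) : ℂ) * I)).re =
        Real.exp (-(d * η)) * Real.cos (u * η) := by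
      rw [Complex.exp_re]
      simp
    simp only [H1_phi]
    rw [h2, Complex.re_ofReal_mul, h3]
    have h4 : -(d * D) * (η / D) = -(d * η) := by field_simp
    rw [h4]
    have h5 : (1 + d * D) ^ 2 ≠ 0 := by positivity
    field_simp
  have e2 : (1 / z).re = d / (d ^ 2 + u ^ 2) := by
    rw [one_div, Complex.inv_re, ← Complex.sq_norm, hn, hre]
  have hpos : 0 < d ^ 2 + u ^ 2 := by positivity
  rw [e1, H1_int hD hz0, Complex.sub_re, e2, sub_sub_cancel_left, abs_neg]
  refine (Complex.abs_re_le_norm _).trans ?_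
  rw [norm_div, norm_mul, norm_pow, hn, Complex.norm_real, Real.norm_eq_abs, abs_of_pos hD]
  have e3 : ‖1 - Complex.exp (-z * D)‖ ≤ 2 := by
    refine (norm_sub_le _ _).trans ?_
    rw [norm_one, Complex.norm_exp]
    have h6 : (-z * (D : ℂ)).re = -(d * D) := by
      rw [Complex.re_mul_ofReal, Complex.neg_re, hre]; ring
    rw [h6]
    have h7 : Real.exp (-(d * D)) ≤ 1 := Real.exp_le_one_iff.mpr (by linarith)
    linarith
  calc ‖1 - Complex.exp (-z * D)‖ / (D * (d ^ 2 + u ^ 2)) ≤ 2 / (D * (d ^ 2 + u ^ 2)) := by gcongr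
    _ = _ := by field_simp

/-- The comparison of the explicit sum with the Poisson sum. -/
lemma H1_cmp (hRH : RiemannHypothesis) {D d : ℝ} (hD : 0 < D) (hd : 0 < d) (h : 0 ≤ d * D)
    (t S : ℝ) (hS : HasSum (fun ρ : ntz => (mult ρ : ℝ) *
      ZGap.Gen.FF (H1_phi (d * D) h) D (t - (ρ : ℂ).im)) S) :
    |(1 + d * D) ^ 2 * S - (logDeriv xiF (ss d t)).re| ≤
      2 / (D * d) * (logDeriv xiF (ss d t)).re := by
  have h1 := hasSum_re_ss hRH hd t
  have h2 := (hS.mul_left ((1 + d * D) ^ 2)).sub h1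
  have h3 := h1.mul_left (2 / (D * d))
  rw [← Real.norm_eq_abs]
  refine h2.norm_le_of_bounded h3 fun ρ => ?_
  have h4 := H1_FF hD hd h (t - (ρ : ℂ).im)
  rw [Real.norm_eq_abs]
  have e1 : (1 + d * D) ^ 2 * ((mult ρ : ℝ) * ZGap.Gen.FF (H1_phi (d * D) h) D (t - (ρ : ℂ).im)) -
      (mult ρ : ℝ) * (d / (d ^ 2 + (t - (ρ : ℂ).im) ^ 2)) = (mult ρ : ℝ) *
      ((1 + d * D) ^ 2 * ZGap.Gen.FF (H1_phi (d * D) h) D (t - (ρ : ℂ).im) -
        d / (d ^ 2 + (t - (ρ : ℂ).im) ^ 2)) := by ring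
  rw [e1, abs_mul, Nat.abs_cast]
  calc _ ≤ (mult ρ : ℝ) * (2 / (D * d) * (d / (d ^ 2 + (t - (ρ : ℂ).im) ^ 2))) := by gcongr
    _ = _ := by ring

open ArithmeticFunction in
lemma H1_sum : ∃ C : ℝ, 0 < C ∧ ∀ (d : ℝ) (N : ℕ), 0 < d → d ≤ 1 →
    ∑ n ∈ Finset.Icc 1 N, (vonMangoldt n) ^ 2 / n * Real.exp (-(2 * d * Real.log n)) ≤
      C / d ^ 2 := by
  obtain ⟨C0, hC0, hM⟩ := ANTE.mertens_one
  refine ⟨8 * (1 + C0), by positivity, fun d N hd hd1 => ?_⟩
  set k : ℕ → ℕ := fun n => ⌊d * Real.log n⌋₊ with hk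
  have hmap : ∀ n ∈ Finset.Icc 1 N, k n ∈ Finset.range (k N + 1) := by
    intro n hn
    rw [Finset.mem_Icc] at hn
    rw [Finset.mem_range, Nat.lt_succ_iff]
    apply Nat.floor_le_floor
    have h1 : (0:ℝ) < n := by exact_mod_cast hn.1
    have h2 : (n:ℝ) ≤ N := by exact_mod_cast hn.2
    have h3 := Real.log_le_log h1 h2
    gcongr
  rw [← Finset.sum_fiberwise_of_maps_to hmap]
  have hj : ∀ j ∈ Finset.range (k N + 1), ∑ n ∈ Finset.Icc 1 N with k n = j,
      (vonMangoldt n) ^ 2 / n * Real.exp (-(2 * d * Real.log n)) ≤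
        4 * (1 + C0) / d ^ 2 * (1 / (2:ℝ)) ^ j := by
    intro j _
    have hj0 : (0:ℝ) ≤ j := Nat.cast_nonneg j
    set M := ⌊Real.exp ((j + 1) / d)⌋₊ with hMdef
    have hM1 : 1 ≤ M := by
      rw [hMdef, Nat.one_le_floor_iff]
      exact Real.one_le_exp (by positivity)
    have hlogM : Real.log M ≤ (j + 1) / d := by
      rw [Real.log_le_iff_le_exp (by exact_mod_cast hM1)]
      exact Nat.floor_le (Real.exp_pos _).le
    have hMM : ∑ n ∈ Finset.Icc 1 M, vonMangoldt n / n ≤ (j + 1) / d + C0 := by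
      have := (abs_le.mp (hM M hM1)).2
      linarith
    have hterm : ∀ n ∈ Finset.Icc 1 N, k n = j →
        n ∈ Finset.Icc 1 M ∧ (vonMangoldt n) ^ 2 / n * Real.exp (-(2 * d * Real.log n)) ≤
          (j + 1) / d * Real.exp (-(2 * j)) * (vonMangoldt n / n) := by
      intro n hn hkn
      rw [Finset.mem_Icc] at hn
      have hn0 : (0:ℝ) < n := by exact_mod_cast hn.1
      have hl0 : 0 ≤ d * Real.log n := mul_nonneg hd.le (Real.log_natCast_nonneg n)
      have h1 : (j:ℝ) ≤ d * Real.log n := by rw [← hkn]; exact Nat.floor_le hl0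
      have h2 : d * Real.log n ≤ j + 1 := by rw [← hkn]; exact (Nat.lt_floor_add_one _).le
      have h3 : Real.log n ≤ (j + 1) / d := by rw [le_div_iff₀ hd]; linarith
      constructor
      · rw [Finset.mem_Icc]
        refine ⟨hn.1, ?_⟩
        rw [hMdef]
        apply Nat.le_floor
        rwa [← Real.log_le_iff_le_exp hn0]
      · have h4 : vonMangoldt n ≤ (j + 1) / d := vonMangoldt_le_log.trans h3
        have h5 : Real.exp (-(2 * d * Real.log n)) ≤ Real.exp (-(2 * j)) :=
          Real.exp_le_exp.mpr (by linarith)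
        have h6 : 0 ≤ vonMangoldt n := vonMangoldt_nonneg
        calc (vonMangoldt n) ^ 2 / n * Real.exp (-(2 * d * Real.log n)) =
            vonMangoldt n * (vonMangoldt n / n) * Real.exp (-(2 * d * Real.log n)) := by ring
          _ ≤ (j + 1) / d * (vonMangoldt n / n) * Real.exp (-(2 * j)) := by gcongr
          _ = _ := by ring
    have hexp : ((j:ℝ) + 1) ^ 2 * Real.exp (-(2 * j)) ≤ 4 * (1 / (2:ℝ)) ^ j := by
      have h1 : ((j:ℝ) + 1) ^ 2 ≤ 4 * Real.exp j := by
        have h2 := Real.add_one_le_exp ((j:ℝ) / 2)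
        have h3 : Real.exp (j:ℝ) = Real.exp ((j:ℝ) / 2) ^ 2 := by
          rw [← Real.exp_nat_mul]; congr 1; push_cast; ring
        rw [h3]
        nlinarith
      have h4 : Real.exp (-(j:ℝ)) ≤ (1 / (2:ℝ)) ^ j := by
        have h5 : Real.exp (-(j:ℝ)) = Real.exp (-1) ^ j := by
          rw [← Real.exp_nat_mul]; congr 1; ring
        rw [h5]
        apply pow_le_pow_left₀ (Real.exp_pos _).le
        have h6 := Real.add_one_le_exp (1:ℝ)
        rw [Real.exp_neg, ← one_div]
        apply one_div_le_one_div_of_le (by norm_num)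
        linarith
      calc ((j:ℝ) + 1) ^ 2 * Real.exp (-(2 * j)) ≤ 4 * Real.exp j * Real.exp (-(2 * j)) := by
            gcongr
        _ = 4 * Real.exp (-(j:ℝ)) := by
            rw [mul_assoc, ← Real.exp_add]; congr 2; ring
        _ ≤ _ := by gcongr
    calc ∑ n ∈ Finset.Icc 1 N with k n = j,
          (vonMangoldt n) ^ 2 / n * Real.exp (-(2 * d * Real.log n))
        ≤ ∑ n ∈ Finset.Icc 1 N with k n = j,
          (j + 1) / d * Real.exp (-(2 * j)) * (vonMangoldt n / n) := by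
          refine Finset.sum_le_sum fun n hn => ?_
          rw [Finset.mem_filter] at hn
          exact (hterm n hn.1 hn.2).2
      _ ≤ ∑ n ∈ Finset.Icc 1 M, (j + 1) / d * Real.exp (-(2 * j)) * (vonMangoldt n / n) := by
          refine Finset.sum_le_sum_of_subset_of_nonneg (fun n hn => ?_) (fun n _ _ => ?_)
          · rw [Finset.mem_filter] at hn
            exact (hterm n hn.1 hn.2).1
          · have h6 : 0 ≤ vonMangoldt n := vonMangoldt_nonneg
            positivity
      _ = (j + 1) / d * Real.exp (-(2 * j)) * ∑ n ∈ Finset.Icc 1 M, vonMangoldt n / n := by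
          rw [Finset.mul_sum]
      _ ≤ (j + 1) / d * Real.exp (-(2 * j)) * ((1 + C0) * ((j + 1) / d)) := by
          gcongr
          refine hMM.trans ?_
          have h7 : 1 ≤ ((j:ℝ) + 1) / d := by
            rw [le_div_iff₀ hd]; linarith
          nlinarith
      _ = (1 + C0) / d ^ 2 * (((j:ℝ) + 1) ^ 2 * Real.exp (-(2 * j))) := by
          field_simp
      _ ≤ (1 + C0) / d ^ 2 * (4 * (1 / (2:ℝ)) ^ j) := by gcongr
      _ = _ := by ring
  calc _ ≤ ∑ j ∈ Finset.range (k N + 1), 4 * (1 + C0) / d ^ 2 * (1 / (2:ℝ)) ^ j :=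
        Finset.sum_le_sum hj
    _ = 4 * (1 + C0) / d ^ 2 * ∑ j ∈ Finset.range (k N + 1), (1 / (2:ℝ)) ^ j := by
        rw [Finset.mul_sum]
    _ ≤ 4 * (1 + C0) / d ^ 2 * 2 := by
        gcongr
        exact sum_geometric_two_le _
    _ = _ := by ring

/-- The coefficients of the normalised prime polynomial. -/
noncomputable def H1_a (D d : ℝ) (h : 0 ≤ d * D) (n : ℕ) : ℂ :=
  (ArithmeticFunction.vonMangoldt n : ℂ) *
    ((((1 + d * D) ^ 2 : ℝ) : ℂ) * ZGap.Gen.bb (H1_phi (d * D) h) D n) * (n : ℂ) ^ (-(1 / 2) : ℂ)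

/-- The normalised prime polynomial. -/
noncomputable def H1_V (D d : ℝ) (h : 0 ≤ d * D) (N : ℕ) (t : ℝ) : ℂ :=
  ∑ n ∈ Finset.Icc 1 N, H1_a D d h n * (n : ℂ) ^ (-(t * I) : ℂ)

lemma H1_vm (D d : ℝ) (h : 0 ≤ d * D) (N : ℕ) (t : ℝ) :
    (((1 + d * D) ^ 2 : ℝ) : ℂ) * DirPoly.vmPoly (ZGap.Gen.bb (H1_phi (d * D) h) D) N t =
      H1_V D d h N t := by
  rw [DirPoly.vmPoly, H1_V, Finset.mul_sum]
  refine Finset.sum_congr rfl fun n hn => ?_
  have hn0 : (n : ℂ) ≠ 0 := by
    have := (Finset.mem_Icc.mp hn).1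
    exact_mod_cast (by omega : n ≠ 0)
  rw [H1_a, neg_add, Complex.cpow_add _ _ hn0]
  ring

lemma H1_norm_a {D d : ℝ} (hD : 0 < D) (h : 0 ≤ d * D) {n : ℕ} (hn : 1 ≤ n) :
    ‖H1_a D d h n‖ ^ 2 ≤ (ArithmeticFunction.vonMangoldt n) ^ 2 / n *
      Real.exp (-(2 * d * Real.log n)) := by
  have hn0 : (0:ℝ) < n := by exact_mod_cast hn
  have hl : 0 ≤ Real.log n := Real.log_natCast_nonneg n
  have hL : 0 ≤ ArithmeticFunction.vonMangoldt n := ArithmeticFunction.vonMangoldt_nonneg
  have hb : ‖(((1 + d * D) ^ 2 : ℝ) : ℂ) * ZGap.Gen.bb (H1_phi (d * D) h) D n‖ ≤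
      Real.exp (-(d * Real.log n)) := by
    rw [ZGap.Gen.bb, ← Complex.ofReal_mul, Complex.norm_real, Real.norm_eq_abs]
    have hq : 0 < (1 + d * D) ^ 2 := by positivity
    rcases le_total (Real.log n / D) 1 with h1 | h1
    · rw [min_eq_left h1]
      simp only [H1_phi]
      have e1 : (1 + d * D) ^ 2 * (Real.exp (-(d * D) * (Real.log n / D)) *
          (1 - Real.log n / D) / (1 + d * D) ^ 2) =
          Real.exp (-(d * Real.log n)) * (1 - Real.log n / D) := by
        have e2 : -(d * D) * (Real.log n / D) = -(d * Real.log n) := by field_simp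
        rw [e2]
        field_simp
      rw [e1, abs_mul, abs_of_pos (Real.exp_pos _)]
      have h2 : 0 ≤ Real.log n / D := by positivity
      have h3 : |1 - Real.log n / D| ≤ 1 := by
        rw [abs_le]; constructor <;> linarith
      calc _ ≤ Real.exp (-(d * Real.log n)) * 1 := by gcongr
        _ = _ := mul_one _
    · rw [min_eq_right h1, (H1_phi (d * D) h).one, mul_zero, abs_zero]
      exact (Real.exp_pos _).le
  have hc : ‖(n : ℂ) ^ (-(1 / 2) : ℂ)‖ = (Real.sqrt n)⁻¹ := DirPoly.norm_cpow_neg_half hn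
  have e1 : ‖H1_a D d h n‖ ≤ ArithmeticFunction.vonMangoldt n *
      Real.exp (-(d * Real.log n)) * (Real.sqrt n)⁻¹ := by
    rw [H1_a, norm_mul, hc, norm_mul _ (_ * _), Complex.norm_real, Real.norm_eq_abs,
      abs_of_nonneg hL]
    gcongr
  calc ‖H1_a D d h n‖ ^ 2 ≤ (ArithmeticFunction.vonMangoldt n *
      Real.exp (-(d * Real.log n)) * (Real.sqrt n)⁻¹) ^ 2 := by gcongr
    _ = _ := by
      rw [mul_pow, mul_pow, inv_pow, Real.sq_sqrt hn0.le, ← Real.exp_nat_mul]
      have e2 : ((2:ℕ) : ℝ) * -(d * Real.log n) = -(2 * d * Real.log n) := by push_cast; ring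
      rw [e2]
      ring

/-- The mean square of the prime polynomial. -/
lemma H1_mean : ∃ C : ℝ, 0 < C ∧ ∀ (D d T : ℝ) (h : 0 ≤ d * D) (N : ℕ), 0 < D → 0 < d → d ≤ 1 →
    0 < T → (N : ℝ) ≤ 2 * T →
    ∫ t : ℝ, ‖H1_V D d h N t‖ ^ 2 * fejerW (t / (2 * T)) ≤ C * T / d ^ 2 := by
  obtain ⟨C, hC, hs⟩ := H1_sum
  refine ⟨5 * Real.pi * C, by positivity, fun D d T h N hD hd hd1 hT hN => ?_⟩
  have h1 := dirichlet_mean_value (T := 2 * T) (by positivity) hN (H1_a D d h)
  have h2 : ∑ n ∈ Finset.Icc 1 N, ‖H1_a D d h n‖ ^ 2 ≤ C / d ^ 2 :=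
    (Finset.sum_le_sum fun n hn => H1_norm_a hD h (Finset.mem_Icc.mp hn).1).trans (hs d N hd hd1)
  have hpi := Real.pi_pos
  calc _ = 5 / 2 * Real.pi * (2 * T) * ∑ n ∈ Finset.Icc 1 N, ‖H1_a D d h n‖ ^ 2 := h1
    _ ≤ 5 / 2 * Real.pi * (2 * T) * (C / d ^ 2) := by gcongr
    _ = _ := by ring

lemma H1_V_continuous (D d : ℝ) (h : 0 ≤ d * D) (N : ℕ) : Continuous (H1_V D d h N) := by
  unfold H1_V
  refine continuous_finsetSum _ fun n hn => ?_
  have hn0 : (n : ℂ) ≠ 0 := by
    have := (Finset.mem_Icc.mp hn).1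
    exact_mod_cast (by omega : n ≠ 0)
  refine Continuous.mul continuous_const ?_
  exact Continuous.const_cpow (by fun_prop) (Or.inl hn0)

lemma H1_integrable (D d T : ℝ) (h : 0 ≤ d * D) (N : ℕ) (hT : 0 < T) :
    Integrable (fun t : ℝ => ‖H1_V D d h N t‖ ^ 2 * fejerW (t / (2 * T))) := by
  have h1 := fejer_integrable (Finset.Icc 1 N) (fun n => Real.log n) (H1_a D d h)
    (T := 2 * T) (by positivity)
  refine h1.congr (Filter.Eventually.of_forall fun t => ?_)
  simp only [H1_V]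
  congr 3
  refine Finset.sum_congr rfl fun n hn => ?_
  have hn0 : (n:ℂ) ≠ 0 := by
    have := (Finset.mem_Icc.mp hn).1
    exact_mod_cast (by omega : n ≠ 0)
  rw [Complex.cpow_def_of_ne_zero hn0, ← Complex.ofReal_natCast,
    ← Complex.ofReal_log (Nat.cast_nonneg n)]
  congr 2
  push_cast
  ring

/-- The mean of a function dominated by the prime polynomial. -/
lemma H1_dom : ∃ C : ℝ, 0 < C ∧ ∀ (D d T : ℝ) (h : 0 ≤ d * D) (N : ℕ), 0 < D → 0 < d → d ≤ 1 →
    0 < T → (N : ℝ) ≤ 2 * T → ∀ (g : ℝ → ℝ) (A B : ℝ), 0 ≤ A → 0 ≤ B → Continuous g →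
    (∀ t ∈ Icc T (2 * T), g t ≤ A + B * ‖H1_V D d h N t‖) →
    ∫ t in T..(2 * T), g t ≤ A * T + C * B * T / d := by
  obtain ⟨C, hC, hm⟩ := H1_mean
  refine ⟨1 + C, by positivity, fun D d T h N hD hd hd1 hT hN g A B hA hB hg hb => ?_⟩
  have hV := (H1_V_continuous D d h N).norm
  have hle : T ≤ 2 * T := by linarith
  have hint := H1_integrable D d T h N hT
  have e1 : ∫ t in T..(2 * T), g t ≤ ∫ t in T..(2 * T),
      ((A + B / d) + B * d * (‖H1_V D d h N t‖ ^ 2 * fejerW (t / (2 * T)))) := by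
    apply intervalIntegral.integral_mono_on hle (hg.intervalIntegrable _ _)
    · exact (intervalIntegrable_const).add (hint.intervalIntegrable.const_mul _)
    · intro t ht
      refine (hb t ht).trans ?_
      have h1 : 1 ≤ fejerW (t / (2 * T)) := by
        apply fejerW_ge_one
        rw [abs_div, abs_of_pos (by positivity : 0 < 2 * T), div_le_one (by positivity),
          abs_of_nonneg (by linarith [ht.1])]
        exact ht.2
      set v := ‖H1_V D d h N t‖ with hv
      have hv0 : 0 ≤ v := norm_nonneg _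
      have h2 : v ≤ 1 / d + d * v ^ 2 := by
        have h3 : 0 ≤ (1 / d) * ((d * v - 1 / 2) ^ 2 + 3 / 4) := by positivity
        have h4 : (1 / d) * ((d * v - 1 / 2) ^ 2 + 3 / 4) = d * v ^ 2 - v + 1 / d := by
          field_simp; ring
        linarith
      have h5 : v ^ 2 ≤ v ^ 2 * fejerW (t / (2 * T)) := le_mul_of_one_le_right (sq_nonneg v) h1
      calc A + B * v ≤ A + B * (1 / d + d * (v ^ 2 * fejerW (t / (2 * T)))) := by
            gcongr
            refine h2.trans ?_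
            gcongr
        _ = _ := by ring
  have e2 : ∫ t in T..(2 * T), (‖H1_V D d h N t‖ ^ 2 * fejerW (t / (2 * T))) ≤
      C * T / d ^ 2 := by
    refine le_trans ?_ (hm D d T h N hD hd hd1 hT hN)
    rw [intervalIntegral.integral_of_le hle]
    exact setIntegral_le_integral hint (Filter.Eventually.of_forall fun t =>
      mul_nonneg (sq_nonneg _) (fejerW_nonneg _))
  rw [intervalIntegral.integral_add intervalIntegrable_const
    (hint.intervalIntegrable.const_mul _), intervalIntegral.integral_const_mul,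
    intervalIntegral.integral_const, smul_eq_mul] at e1
  refine e1.trans ?_
  calc (2 * T - T) * (A + B / d) + B * d * ∫ t in T..(2 * T), (‖H1_V D d h N t‖ ^ 2 * fejerW (t / (2 * T)))
      ≤ (2 * T - T) * (A + B / d) + B * d * (C * T / d ^ 2) := by gcongr
    _ = _ := by field_simp; ring

/-- The pointwise bound. -/
lemma H1_ptw (hRH : RiemannHypothesis) : ∃ C1 : ℝ, 0 < C1 ∧ ∀ (M T d t : ℝ)
    (h : 0 ≤ d * (Real.log T / 4)), 16 ≤ M → 0 < T → M ≤ Real.log T →
    C1 * (1 + M / 4) ^ 2 ≤ Real.log T → 16 / Real.log T ≤ d → d ≤ M / Real.log T → T ≤ t →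
    t ≤ 2 * T →
    |(logDeriv xiF (ss d t)).re - Real.log T / 2| ≤
      2 / (Real.log T / 4 * d) * (logDeriv xiF (ss d t)).re +
      ‖H1_V (Real.log T / 4) d h ⌊Real.exp (Real.log T / 4)⌋₊ t‖ + 2 := by
  obtain ⟨C0, hC0, hex⟩ := ZGap.Gen.exists_explicit hRH
  refine ⟨128 * C0, by positivity, fun M T d t h hM hT hML hCL hd1 hd2 ht1 ht2 => ?_⟩
  set L := Real.log T with hL
  have hL16 : 16 ≤ L := hM.trans hML
  have hL0 : 0 < L := by linarith
  set D := L / 4 with hD
  have hD0 : 0 < D := by positivity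
  have hd0 : 0 < d := lt_of_lt_of_le (by positivity) hd1
  have hexpL : Real.exp L = T := by rw [hL, Real.exp_log hT]
  have hT16 : 17 ≤ T := by
    rw [← hexpL]; have := Real.add_one_le_exp L; linarith
  have ht0 : 0 < t := by linarith
  have htge1 : 1 ≤ t := by linarith
  set N := ⌊Real.exp D⌋₊ with hN
  obtain ⟨S, hS, hSb⟩ := hex (H1_phi (d * D) h) D N t (by linarith) (Nat.lt_floor_add_one _).le htge1
  have hcmp := H1_cmp hRH hD0 hd0 h t S hS
  set R := (logDeriv xiF (ss d t)).re with hR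
  set q := (1 + d * D) ^ 2 with hq
  have hq0 : 0 < q := by positivity
  have hf0 : (H1_phi (d * D) h).f0 0 = 1 / q := by
    simp [H1_phi, hq]
  rw [hf0] at hSb
  have hvm := H1_vm D d h N t
  set vm := DirPoly.vmPoly (ZGap.Gen.bb (H1_phi (d * D) h) D) N t with hvmdef
  have hre : q * vm.re = (H1_V D d h N t).re := by
    rw [← hvm, Complex.re_ofReal_mul]
  have hreabs : |q * vm.re| ≤ ‖H1_V D d h N t‖ := by
    rw [hre]; exact Complex.abs_re_le_norm _
  -- the error term
  have hsmall : q * (C0 * Real.exp D * (1 + Real.log t) / Real.sqrt t) ≤ 1 := by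
    have e1 : q ≤ (1 + M / 4) ^ 2 := by
      have h1 : d * D ≤ M / 4 := by
        calc d * D ≤ M / L * D := by gcongr
          _ = M / 4 := by rw [hD]; field_simp
      have h2 : 0 ≤ d * D := h
      rw [hq]; gcongr
    have e2 : 1 + Real.log t ≤ 16 * Real.exp (L / 8) := by
      have h1 : Real.log t ≤ Real.log (2 * T) := Real.log_le_log ht0 ht2
      rw [Real.log_mul (by norm_num) hT.ne'] at h1
      have h2 : Real.log 2 ≤ 1 := by have := Real.log_two_lt_d9; linarith
      have h3 := Real.add_one_le_exp (L / 8)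
      linarith
    have e3 : Real.exp (L / 2) ≤ Real.sqrt t := by
      apply Real.le_sqrt_of_sq_le
      rw [← Real.exp_nat_mul]
      have : ((2:ℕ) : ℝ) * (L / 2) = L := by push_cast; ring
      rw [this, hexpL]
      exact ht1
    have e4 : 0 ≤ 1 + Real.log t := by
      have := Real.log_nonneg htge1; linarith
    calc q * (C0 * Real.exp D * (1 + Real.log t) / Real.sqrt t)
        ≤ (1 + M / 4) ^ 2 * (C0 * Real.exp D * (16 * Real.exp (L / 8)) / Real.exp (L / 2)) := by
          gcongr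
      _ = 16 * C0 * (1 + M / 4) ^ 2 * (Real.exp D * Real.exp (L / 8) * (Real.exp (L / 2))⁻¹) := by
          rw [div_eq_mul_inv]; ring
      _ = 16 * C0 * (1 + M / 4) ^ 2 * Real.exp (-(L / 8)) := by
          congr 1
          rw [← Real.exp_neg, ← Real.exp_add, ← Real.exp_add]
          congr 1
          rw [hD]; ring
      _ ≤ 16 * C0 * (1 + M / 4) ^ 2 * (8 / L) := by
          gcongr
          rw [Real.exp_neg, inv_le_comm₀ (Real.exp_pos _) (by positivity)]
          have h3 := Real.add_one_le_exp (L / 8)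
          have h4 : (8 / L)⁻¹ = L / 8 := by rw [inv_div]
          rw [h4]; linarith
      _ = (128 * C0 * (1 + M / 4) ^ 2) / L := by ring
      _ ≤ 1 := by rw [div_le_one hL0]; exact hCL
  have hexp2 : |q * S - (Real.log (t / (2 * Real.pi)) / 2 - q * vm.re)| ≤ 1 := by
    have e1 : q * S - (Real.log (t / (2 * Real.pi)) / 2 - q * vm.re) =
        q * (S - (1 / q / 2 * Real.log (t / (2 * Real.pi)) - vm.re)) := by
      field_simp
    rw [e1, abs_mul, abs_of_pos hq0]
    exact (mul_le_mul_of_nonneg_left hSb hq0.le).trans hsmall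
  have hlog : |Real.log (t / (2 * Real.pi)) / 2 - L / 2| ≤ 1 := by
    have hpi := Real.pi_pos
    rw [Real.log_div ht0.ne' (by positivity)]
    have h1 : Real.log t ≤ Real.log (2 * T) := Real.log_le_log ht0 ht2
    rw [Real.log_mul (by norm_num) hT.ne'] at h1
    have h2 : Real.log T ≤ Real.log t := Real.log_le_log hT ht1
    have h3 : Real.log 2 ≤ Real.log (2 * Real.pi) :=
      Real.log_le_log (by norm_num) (by linarith [Real.pi_gt_three])
    have h4 : Real.log (2 * Real.pi) ≤ 2 := by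
      rw [Real.log_le_iff_le_exp (by positivity)]
      have h5 : Real.exp 2 = Real.exp 1 * Real.exp 1 := by rw [← Real.exp_add]; norm_num
      have h6 := Real.exp_one_gt_d9
      have h7 := Real.pi_lt_d2
      rw [h5]
      nlinarith
    rw [abs_le]
    constructor <;> linarith
  -- combine
  have a1 := abs_le.mp hcmp
  have a2 := abs_le.mp hexp2
  have a3 := abs_le.mp hreabs
  have a4 := abs_le.mp hlog
  rw [abs_le]
  constructor <;> linarith [a1.1, a1.2, a2.1, a2.2, a3.1, a3.2, a4.1, a4.2]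

lemma H1_nonneg (hRH : RiemannHypothesis) {d : ℝ} (hd : 0 < d) (t : ℝ) :
    0 ≤ (logDeriv xiF (ss d t)).re :=
  (hasSum_re_ss hRH hd t).nonneg fun ρ => by positivity

/-- Comparison of two heights. -/
lemma H1_mono (hRH : RiemannHypothesis) {x b : ℝ} (hx : 0 < x) (hb : x ≤ b) (t : ℝ) :
    (logDeriv xiF (ss x t)).re ≤ b / x * (logDeriv xiF (ss b t)).re := by
  have hb0 : 0 < b := hx.trans_le hb
  refine hasSum_le (fun ρ => ?_) (hasSum_re_ss hRH hx t)
    ((hasSum_re_ss hRH hb0 t).mul_left (b / x))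
  set u := t - (ρ : ℂ).im with hu
  have h1 : x / (x ^ 2 + u ^ 2) ≤ b / x * (b / (b ^ 2 + u ^ 2)) := by
    rw [div_mul_div_comm, div_le_div_iff₀ (by positivity) (by positivity)]
    have h2 : x ^ 2 ≤ b ^ 2 := by gcongr
    nlinarith [mul_le_mul_of_nonneg_right h2 (sq_nonneg u)]
  calc (mult ρ : ℝ) * (x / (x ^ 2 + u ^ 2)) ≤ (mult ρ : ℝ) * (b / x * (b / (b ^ 2 + u ^ 2))) := by
        gcongr
    _ = _ := by ring

/-- H1 -/
theorem vert_mean (hRH : RiemannHypothesis) : ∃ C : ℝ, 0 < C ∧ ∀ Λ : ℝ, 1 ≤ Λ → ∃ T0 : ℝ,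
    ∀ T : ℝ, T0 ≤ T → ∀ x ∈ Icc (1 / Real.log T) (Λ / Real.log T),
      ∫ t in T..(2 * T), |(logDeriv xiF (ss x t)).re - Real.log T / 2| ≤ C * T / x := by
  obtain ⟨C1, hC1, hptw⟩ := H1_ptw hRH
  obtain ⟨C2, hC2, hdom⟩ := H1_dom
  refine ⟨40 + 16 * C2, by positivity, fun Λ hΛ => ?_⟩
  set M := max Λ 16 with hM
  have hM16 : 16 ≤ M := le_max_right _ _
  refine ⟨Real.exp (max M (C1 * (1 + M / 4) ^ 2)), fun T hTT x hx => ?_⟩
  have hT : 0 < T := (Real.exp_pos _).trans_le hTT
  have hLL : max M (C1 * (1 + M / 4) ^ 2) ≤ Real.log T := by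
    rwa [Real.le_log_iff_exp_le hT]
  have hptw' := fun (d t : ℝ) (h : 0 ≤ d * (Real.log T / 4)) => hptw M T d t h hM16 hT
    ((le_max_left _ _).trans hLL) ((le_max_right _ _).trans hLL)
  have hML : M ≤ Real.log T := (le_max_left _ _).trans hLL
  set L := Real.log T with hL
  have hL16 : 16 ≤ L := hM16.trans hML
  have hL0 : 0 < L := by linarith
  have hexpL : Real.exp L = T := by rw [hL, Real.exp_log hT]
  have hD0 : 0 < L / 4 := by positivity
  have hN : ((⌊Real.exp (L / 4)⌋₊ : ℕ) : ℝ) ≤ 2 * T := by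
    have h1 := Nat.floor_le (Real.exp_pos (L / 4)).le
    have h2 : Real.exp (L / 4) ≤ Real.exp L := Real.exp_le_exp.mpr (by linarith)
    linarith
  have hle : T ≤ 2 * T := by linarith
  -- consequences of the pointwise bound
  have key : ∀ d : ℝ, 16 / L ≤ d → d ≤ M / L → ∀ h : 0 ≤ d * (L / 4), ∀ t ∈ Icc T (2 * T),
      (logDeriv xiF (ss d t)).re ≤ (L + 4) +
        2 * ‖H1_V (L / 4) d h ⌊Real.exp (L / 4)⌋₊ t‖ ∧
      |(logDeriv xiF (ss d t)).re - L / 2| ≤ 12 / d +
        2 * ‖H1_V (L / 4) d h ⌊Real.exp (L / 4)⌋₊ t‖ := by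
    intro d hd1 hd2 h t ht
    have hd0 : 0 < d := lt_of_lt_of_le (by positivity) hd1
    have h1 := hptw' d t h hd1 hd2 ht.1 ht.2
    have hR := H1_nonneg hRH hd0 t
    set R := (logDeriv xiF (ss d t)).re with hRdef
    have hV : 0 ≤ ‖H1_V (L / 4) d h ⌊Real.exp (L / 4)⌋₊ t‖ := norm_nonneg _
    set V := ‖H1_V (L / 4) d h ⌊Real.exp (L / 4)⌋₊ t‖ with hVdef
    have hLd : 16 ≤ L * d := by
      rw [div_le_iff₀ hL0] at hd1; linarith
    have hc : 2 / (L / 4 * d) ≤ 1 / 2 := by
      rw [div_le_iff₀ (by positivity)]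
      linarith
    have hd1' : d ≤ 1 := hd2.trans (by rw [div_le_one hL0]; exact hML)
    have h2 : R ≤ (L + 4) + 2 * V := by
      have h3 := (abs_le.mp h1).2
      have h4 : 2 / (L / 4 * d) * R ≤ 1 / 2 * R := by gcongr
      linarith
    refine ⟨h2, h1.trans ?_⟩
    have h5 : 2 / (L / 4 * d) * R ≤ 8 / d + (V + 2) := by
      calc 2 / (L / 4 * d) * R ≤ 2 / (L / 4 * d) * ((L + 4) + 2 * V) := by gcongr
        _ = 8 / d + 2 / (L / 4 * d) * (4 + 2 * V) := by field_simp; ring
        _ ≤ 8 / d + 1 / 2 * (4 + 2 * V) := by gcongr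
        _ = _ := by ring
    have h6 : 4 ≤ 4 / d := by
      rw [le_div_iff₀ hd0]; linarith
    have h7 : 12 / d = 8 / d + 4 / d := by ring
    rw [h7]
    linarith
  have hx0 : 0 < x := lt_of_lt_of_le (by positivity) hx.1
  rcases le_total (16 / L) x with hc | hc
  · -- large x
    have hx2 : x ≤ M / L := hx.2.trans (by gcongr; exact le_max_left _ _)
    have hx1 : x ≤ 1 := hx2.trans (by rw [div_le_one hL0]; exact hML)
    have h : 0 ≤ x * (L / 4) := by positivity
    have hcont : Continuous (fun t : ℝ => |(logDeriv xiF (ss x t)).re - L / 2|) :=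
      ((continuous_re.comp (logDeriv_ss_continuous hRH hx0)).sub continuous_const).abs
    have := hdom (L / 4) x T h ⌊Real.exp (L / 4)⌋₊ hD0 hx0 hx1 hT hN _ (12 / x) 2
      (by positivity) (by norm_num) hcont fun t ht => (key x hc hx2 h t ht).2
    refine this.trans ?_
    have e1 : 12 / x * T + C2 * 2 * T / x = (12 + 2 * C2) * T / x := by ring
    rw [e1]
    gcongr
    · norm_num
    · linarith
  · -- small x
    have hb0 : 0 < 16 / L := by positivity
    have hb1 : 16 / L ≤ 1 := by rw [div_le_one hL0]; exact hL16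
    have hbM : 16 / L ≤ M / L := by gcongr
    have h : 0 ≤ 16 / L * (L / 4) := by positivity
    have hcont : Continuous (fun t : ℝ => (logDeriv xiF (ss (16 / L) t)).re) :=
      continuous_re.comp (logDeriv_ss_continuous hRH hb0)
    have h1 := hdom (L / 4) (16 / L) T h ⌊Real.exp (L / 4)⌋₊ hD0 hb0 hb1 hT hN _ (L + 4) 2
      (by positivity) (by norm_num) hcont fun t ht => (key (16 / L) le_rfl hbM h t ht).1
    have hcont2 : Continuous (fun t : ℝ => |(logDeriv xiF (ss x t)).re - L / 2|) :=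
      ((continuous_re.comp (logDeriv_ss_continuous hRH hx0)).sub continuous_const).abs
    have h2 : ∫ t in T..(2 * T), |(logDeriv xiF (ss x t)).re - L / 2| ≤
        ∫ t in T..(2 * T), (16 / L / x * (logDeriv xiF (ss (16 / L) t)).re + L / 2) := by
      apply intervalIntegral.integral_mono_on hle (hcont2.intervalIntegrable _ _)
      · exact Continuous.intervalIntegrable (by fun_prop) _ _
      · intro t _
        have h3 := H1_mono hRH hx0 hc t
        have h4 := H1_nonneg hRH hx0 t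
        rw [abs_le]
        constructor <;> linarith
    rw [intervalIntegral.integral_add (Continuous.intervalIntegrable (by fun_prop) _ _)
      intervalIntegrable_const, intervalIntegral.integral_const_mul,
      intervalIntegral.integral_const, smul_eq_mul] at h2
    refine h2.trans ?_
    have h5 : L ≤ 16 / x := by
      rw [le_div_iff₀ hx0]
      rw [le_div_iff₀ hL0] at hc
      linarith
    have h6 : C2 * 2 * T / (16 / L) = C2 * L * T / 8 := by field_simp; ring
    rw [h6] at h1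
    calc 16 / L / x * (∫ t in T..(2 * T), (logDeriv xiF (ss (16 / L) t)).re) + (2 * T - T) * (L / 2)
        ≤ 16 / L / x * ((L + 4) * T + C2 * L * T / 8) + (2 * T - T) * (L / 2) := by gcongr
      _ ≤ 16 / L / x * ((L + L) * T + C2 * L * T) + (2 * T - T) * (16 / x / 2) := by
          have e0 : 0 ≤ C2 * L * T := by positivity
          gcongr
          · linarith
          · linarith
      _ = (40 + 16 * C2) * T / x := by field_simp; ring

end Pool.Agent.AHD
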