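import Pool.Agent.ZGap.AH.Defs3

/-!
# Existence of the data
-/

open scoped ContDiff

namespace Pool.Agent.AHD

open Complex MeasureTheory Set Pool.Agent.Hadamard Pool.Agent.HalfGap

/-- L1 -/
theorem exists_AData {ep : ℝ} (h0 : 0 < ep) (h1 : ep ≤ 1 / 100) : ∃ D : AData, D.ep = ep := by
  have hA : ContDiff ℝ ∞ (fun x : ℝ => Real.smoothTransition ((x - ep) / ep)) :=
    Real.smoothTransition.contDiff.comp ((contDiff_id.sub contDiff_const).div_const _)
  have hB : ContDiff ℝ ∞ (fun x : ℝ => Real.smoothTransition ((1 - ep / 2 - x) / (ep / 2))) :=
    Real.smoothTransition.contDiff.comp ((contDiff_const.sub contDiff_id).div_const _)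
  have hC : ContDiff ℝ ∞ (fun x : ℝ => Real.smoothTransition ((1 - ep - ep ^ 2 - x) / ep ^ 2)) :=
    Real.smoothTransition.contDiff.comp ((contDiff_const.sub contDiff_id).div_const _)
  have hD : ContDiff ℝ ∞ (fun x : ℝ => Real.smoothTransition (x + 1)) :=
    Real.smoothTransition.contDiff.comp (contDiff_id.add contDiff_const)
  have he2 : (0 : ℝ) < ep ^ 2 := by positivity
  refine ⟨{
    ep := ep
    f := fun x => Real.smoothTransition ((x - ep) / ep) *
      Real.smoothTransition ((1 - ep / 2 - x) / (ep / 2))
    F := fun x => Real.smoothTransition ((1 - ep - ep ^ 2 - x) / ep ^ 2) *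
      Real.smoothTransition (x + 1)
    ep_pos := h0
    ep_le := h1
    f_smooth := hA.mul hB
    f_nonneg := fun x => mul_nonneg (Real.smoothTransition.nonneg _)
      (Real.smoothTransition.nonneg _)
    f_le := fun x => mul_le_one₀ (Real.smoothTransition.le_one _)
      (Real.smoothTransition.nonneg _) (Real.smoothTransition.le_one _)
    f_low := fun x hx => by
      rw [Real.smoothTransition.zero_of_nonpos
        (div_nonpos_of_nonpos_of_nonneg (by linarith) h0.le), zero_mul]
    f_mid := fun x hx hx' => by
      rw [Real.smoothTransition.one_of_one_le ((one_le_div h0).mpr (by linarith)),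
        Real.smoothTransition.one_of_one_le ((one_le_div (by linarith)).mpr (by linarith)),
        one_mul]
    f_high := fun x hx => by
      rw [Real.smoothTransition.zero_of_nonpos (x := (1 - ep / 2 - x) / (ep / 2))
        (div_nonpos_of_nonpos_of_nonneg (by linarith) (by linarith)), mul_zero]
    F_smooth := hC.mul hD
    F_supp := by
      refine HasCompactSupport.of_support_subset_isCompact (K := Icc (-1 : ℝ) 1)
        isCompact_Icc ?_
      intro x hx
      rw [Function.mem_support] at hx
      by_contra hcon
      apply hx
      rw [mem_Icc, not_and_or, not_le, not_le] at hcon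
      rcases hcon with h | h
      · rw [Real.smoothTransition.zero_of_nonpos (x := x + 1) (by linarith), mul_zero]
      · rw [Real.smoothTransition.zero_of_nonpos
          (div_nonpos_of_nonpos_of_nonneg (by linarith) he2.le), zero_mul]
    F_nonneg := fun x => mul_nonneg (Real.smoothTransition.nonneg _)
      (Real.smoothTransition.nonneg _)
    F_le := fun x => mul_le_one₀ (Real.smoothTransition.le_one _)
      (Real.smoothTransition.nonneg _) (Real.smoothTransition.le_one _)
    F_one := fun x hx hx' => by
      rw [Real.smoothTransition.one_of_one_le ((one_le_div he2).mpr (by linarith)),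
        Real.smoothTransition.one_of_one_le (by linarith), one_mul]
    F_zero := fun x hx => by
      rw [Real.smoothTransition.zero_of_nonpos
        (div_nonpos_of_nonpos_of_nonneg (by linarith) he2.le), zero_mul] }, rfl⟩

end Pool.Agent.AHD
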