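import Pool.Agent.ZGap.AH.Defs3
import Pool.Agent.ZGap.Half.DiagTwo

/-!
# The diagonal term
-/

open scoped ContDiff

namespace Pool.Agent.AHD

open Complex MeasureTheory Set Pool.Agent.Hadamard Pool.Agent.HalfGap

/-- The inner sum of the diagonal term. -/
lemma M2_inner (α : ℝ) {m n : ℕ} (hm : 1 ≤ m) (hn : 1 ≤ n) :
    (∑' k : ℕ, (if k ≠ 0 ∧ wV (m, n) + Real.log k = 0 then
      gco α k * ((k:ℝ) ^ (-(1:ℝ) / 2) : ℝ) else 0)) =
      if m ∣ n then gco α (n / m) * ((((n / m : ℕ) : ℝ) ^ (-(1:ℝ) / 2) : ℝ) : ℂ) else 0 := by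
  have hmr : (0:ℝ) < m := by exact_mod_cast hm
  have hnr : (0:ℝ) < n := by exact_mod_cast hn
  have hiff : ∀ k : ℕ, k ≠ 0 → (wV (m, n) + Real.log k = 0 ↔ m * k = n) := by
    intro k hk
    have hkr : (0:ℝ) < k := by exact_mod_cast Nat.pos_of_ne_zero hk
    unfold wV
    simp only
    have e1 : Real.log m - Real.log n + Real.log k = Real.log ((m * k : ℕ) : ℝ) - Real.log n := by
      push_cast
      rw [Real.log_mul hmr.ne' hkr.ne']; ring
    rw [e1, sub_eq_zero]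
    constructor
    · intro h
      have := Real.log_injOn_pos (show ((m * k : ℕ) : ℝ) ∈ Set.Ioi 0 by
        rw [Set.mem_Ioi]; push_cast; positivity) (show (n:ℝ) ∈ Set.Ioi 0 from hnr) h
      exact_mod_cast this
    · intro h
      rw [h]
  split_ifs with hdvd
  · obtain ⟨k0, rfl⟩ := hdvd
    have hk0 : k0 ≠ 0 := by rintro rfl; simp at hn
    rw [Nat.mul_div_cancel_left k0 hm]
    rw [tsum_eq_single k0]
    · rw [if_pos ⟨hk0, (hiff k0 hk0).mpr rfl⟩]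
    · intro k hk
      rw [if_neg]
      rintro ⟨h1, h2⟩
      have := (hiff k h1).mp h2
      exact hk (Nat.eq_of_mul_eq_mul_left hm this)
  · have h0 : (fun k : ℕ => (if k ≠ 0 ∧ wV (m, n) + Real.log k = 0 then
        gco α k * (((k:ℝ) ^ (-(1:ℝ) / 2) : ℝ) : ℂ) else 0)) = fun _ => 0 := by
      funext k
      rw [if_neg]
      rintro ⟨h1, h2⟩
      exact hdvd ⟨k, ((hiff k h1).mp h2).symm⟩
    rw [h0, tsum_zero]

/-- One term of the diagonal sum. -/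
lemma M2_term (D : AData) (T α : ℝ) {m n : ℕ} (hm : 1 ≤ m) (hn : 1 ≤ n) (h : m ∣ n) :
    bA D T α (m, n) * (gco α (n / m) * ((((n / m : ℕ) : ℝ) ^ (-(1:ℝ) / 2) : ℝ) : ℂ)) =
      (av D T n : ℂ) / n * ((av D T m : ℂ) * ∏ p ∈ (n / m).primeFactors, (1 - zp α p)) := by
  obtain ⟨k, rfl⟩ := h
  have hk : k ≠ 0 := by rintro rfl; simp at hn
  have hmr : (0:ℝ) < m := by exact_mod_cast hm
  have hkr : (0:ℝ) < k := by exact_mod_cast Nat.pos_of_ne_zero hk
  rw [Nat.mul_div_cancel_left k hm, ← tmu_zeta α hk, ← tw_gco α hk]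
  unfold bA
  simp only
  have h1 : Real.log ((m * k : ℕ) : ℝ) - Real.log m = Real.log k := by
    rw [Nat.cast_mul, Real.log_mul hmr.ne' hkr.ne']; ring
  rw [h1]
  have h2 : ((m : ℝ) * ((m * k : ℕ) : ℝ)) ^ (-(1:ℝ) / 2) * ((k : ℝ) ^ (-(1:ℝ) / 2)) =
      1 / ((m * k : ℕ) : ℝ) := by
    rw [← Real.mul_rpow (by positivity) (by positivity)]
    have h3 : (m : ℝ) * ((m * k : ℕ) : ℝ) * k = ((m * k : ℕ) : ℝ) ^ (2:ℝ) := by
      rw [Real.rpow_two]; push_cast; ring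
    rw [h3, ← Real.rpow_mul (by positivity), one_div, ← Real.rpow_neg_one]
    norm_num
  have h4 : ((((m : ℝ) * ((m * k : ℕ) : ℝ)) ^ (-(1:ℝ) / 2) : ℝ) : ℂ) *
      (((k : ℝ) ^ (-(1:ℝ) / 2) : ℝ) : ℂ) = 1 / ((m * k : ℕ) : ℂ) := by
    rw [← Complex.ofReal_mul, h2]
    push_cast
    rfl
  calc _ = (((((m : ℝ) * ((m * k : ℕ) : ℝ)) ^ (-(1:ℝ) / 2) : ℝ) : ℂ) *
      (((k : ℝ) ^ (-(1:ℝ) / 2) : ℝ) : ℂ)) * ((av D T (m * k) : ℂ) * ((av D T m : ℂ) *
        (Complex.exp ((α * Real.log k : ℝ) * I) * gco α k))) := by ring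
    _ = _ := by rw [h4]; ring

/-- M2: the diagonal -/
theorem MA_eq (D : AData) (T α : ℝ) :
    MA D T α = ∑ k ∈ Finset.Icc 1 (XN D T), (av D T k : ℂ) / k *
      ∑ m ∈ k.divisors, (av D T m : ℂ) * ∏ p ∈ (k / m).primeFactors, (1 - zp α p) := by
  classical
  unfold MA Mdiag QV
  rw [Finset.sum_product_right]
  refine Finset.sum_congr rfl fun n hn => ?_
  have hn' := Finset.mem_Icc.mp hn
  have hn0 : n ≠ 0 := by omega
  calc ∑ m ∈ Finset.Icc 1 (XN D T), bA D T α (m, n) *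
        ∑' k : ℕ, (if k ≠ 0 ∧ wV (m, n) + Real.log k = 0 then
          gco α k * ((k:ℝ) ^ (-(1:ℝ) / 2) : ℝ) else 0)
      = ∑ m ∈ Finset.Icc 1 (XN D T), (if m ∣ n then bA D T α (m, n) *
        (gco α (n / m) * ((((n / m : ℕ) : ℝ) ^ (-(1:ℝ) / 2) : ℝ) : ℂ)) else 0) := by
        refine Finset.sum_congr rfl fun m hm => ?_
        rw [M2_inner α (Finset.mem_Icc.mp hm).1 hn'.1]
        split_ifs <;> simp
    _ = ∑ m ∈ n.divisors, bA D T α (m, n) *
        (gco α (n / m) * ((((n / m : ℕ) : ℝ) ^ (-(1:ℝ) / 2) : ℝ) : ℂ)) := by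
        rw [← Finset.sum_filter]
        refine Finset.sum_congr ?_ fun _ _ => rfl
        ext m
        rw [Finset.mem_filter, Finset.mem_Icc, Nat.mem_divisors]
        constructor
        · rintro ⟨_, h⟩; exact ⟨h, hn0⟩
        · rintro ⟨h, _⟩
          exact ⟨⟨Nat.pos_of_dvd_of_pos h hn'.1, (Nat.le_of_dvd hn'.1 h).trans hn'.2⟩, h⟩
    _ = _ := by
        rw [Finset.mul_sum]
        refine Finset.sum_congr rfl fun m hm => ?_
        have hd := (Nat.mem_divisors.mp hm).1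
        exact M2_term D T α (Nat.pos_of_dvd_of_pos hd hn'.1) hn'.1 hd

end Pool.Agent.AHD
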