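import Pool.Agent.ZGap.AH.Defs3
import Pool.Agent.Lib.ANT.MertensE

/-!
# Prime sums
-/

open scoped ContDiff

namespace Pool.Agent.AHD

open Complex MeasureTheory Set Pool.Agent.Hadamard Pool.Agent.HalfGap

/-- Partial summation with the majorant `√N` and the weight `1/n`. -/
lemma P_sum_div_le (c : ℕ → ℝ) {C : ℝ} (hC : 0 ≤ C)
    (hS : ∀ N : ℕ, ∑ n ∈ Finset.Icc 1 N, c n ≤ C * Real.sqrt N) {N : ℕ} (hN : 1 ≤ N) :
    ∑ n ∈ Finset.Icc 1 N, c n / n ≤ 2 * C := by
  have key : ∀ N : ℕ, 1 ≤ N → ∑ n ∈ Finset.Icc 1 N, c n / n +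
      (C * Real.sqrt N - ∑ n ∈ Finset.Icc 1 N, c n) / N + C / Real.sqrt N ≤ 2 * C := by
    intro N hN
    induction N, hN using Nat.le_induction with
    | base => simp; linarith
    | succ n hn ih =>
      have hn0 : (0:ℝ) < n := by exact_mod_cast hn
      rw [Finset.sum_Icc_succ_top (by omega), Finset.sum_Icc_succ_top (by omega)]
      set a := Real.sqrt n with ha
      set b := Real.sqrt ((n + 1 : ℕ) : ℝ) with hb
      have ha0 : 0 < a := Real.sqrt_pos.2 hn0
      have hb0 : 0 < b := Real.sqrt_pos.2 (by positivity)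
      have ha2 : a ^ 2 = n := Real.sq_sqrt hn0.le
      have hb2 : b ^ 2 = (n : ℝ) + 1 := by
        rw [hb, Real.sq_sqrt (by positivity)]; push_cast; ring
      have hab : a ≤ b := by
        apply Real.sqrt_le_sqrt; push_cast; linarith
      have h1 := hS n
      set S := ∑ k ∈ Finset.Icc 1 n, c k with hSdef
      have e1 : ((n + 1 : ℕ) : ℝ) = b ^ 2 := by rw [hb2]; push_cast; ring
      rw [e1]
      rw [← ha2] at ih
      have hba : b ^ 2 = a ^ 2 + 1 := by rw [hb2, ha2]
      -- the increment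
      have h2 : (C * b - (S + c (n + 1))) / b ^ 2 + c (n + 1) / b ^ 2 + C / b ≤
          (C * a - S) / a ^ 2 + C / a := by
        have h3 : (C * b - (S + c (n + 1))) / b ^ 2 + c (n + 1) / b ^ 2 + C / b =
            2 * C / b - S / b ^ 2 := by field_simp; ring
        have h4 : (C * a - S) / a ^ 2 + C / a = 2 * C / a - S / a ^ 2 := by field_simp; ring
        rw [h3, h4]
        have h5 : S * (1 / a ^ 2 - 1 / b ^ 2) ≤ C * a * (1 / a ^ 2 - 1 / b ^ 2) := by
          apply mul_le_mul_of_nonneg_right h1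
          rw [sub_nonneg]
          apply one_div_le_one_div_of_le (by positivity)
          nlinarith
        have h6 : C * a * (1 / a ^ 2 - 1 / b ^ 2) = C * (1 / (a * b ^ 2)) := by
          have : 1 / a ^ 2 - 1 / b ^ 2 = 1 / (a ^ 2 * b ^ 2) := by
            field_simp
            linarith
          rw [this]; field_simp
        have h7 : 1 / (a * b ^ 2) ≤ 2 / a - 2 / b := by
          rw [div_sub_div _ _ ha0.ne' hb0.ne', div_le_div_iff₀ (by positivity) (by positivity)]
          have h8 : (b - a) * (b + a) = 1 := by nlinarith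
          have h9 : 1 ≤ 2 * (b - a) * b := by nlinarith
          have h10 : 0 < a * b := by positivity
          nlinarith
        have h8 := mul_le_mul_of_nonneg_left h7 hC
        have h9 : S * (1 / a ^ 2 - 1 / b ^ 2) = S / a ^ 2 - S / b ^ 2 := by ring
        have h10 : C * (2 / a - 2 / b) = 2 * C / a - 2 * C / b := by ring
        linarith
      linarith
  have h1 := key N hN
  have h2 : 0 ≤ (C * Real.sqrt N - ∑ n ∈ Finset.Icc 1 N, c n) / N :=
    div_nonneg (by linarith [hS N]) (by positivity)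
  have h3 : 0 ≤ C / Real.sqrt N := by positivity
  linarith

/-- The contribution of the prime powers. -/
lemma P_nonprime : ∃ C : ℝ, 0 < C ∧ ∀ N : ℕ, 1 ≤ N →
    ∑ n ∈ (Finset.Icc 1 N).filter (fun n => ¬ n.Prime), ArithmeticFunction.vonMangoldt n / n ≤ C := by
  obtain ⟨C, hC⟩ := Chebyshev.psi_sub_theta_le_mul_sqrt
  refine ⟨2 * max C 1, by positivity, fun N hN => ?_⟩
  have h := P_sum_div_le (fun n => if n.Prime then 0 else ArithmeticFunction.vonMangoldt n)
    (C := max C 1) (by positivity) ?_ hN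
  · rw [Finset.sum_filter]
    refine le_trans (le_of_eq ?_) h
    refine Finset.sum_congr rfl fun n _ => ?_
    split_ifs <;> simp_all
  · intro N
    have h2 := hC N
    have h0 : Finset.Ioc 0 N = Finset.Icc 1 N := rfl
    rw [Chebyshev.psi_sub_theta_eq_sum_not_prime, Nat.floor_natCast, h0] at h2
    have h3 : C * Real.sqrt N ≤ max C 1 * Real.sqrt N :=
      mul_le_mul_of_nonneg_right (le_max_left _ _) (Real.sqrt_nonneg _)
    refine le_trans (le_of_eq ?_) (h2.trans h3)
    rw [Finset.sum_filter]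
    refine Finset.sum_congr rfl fun n _ => ?_
    split_ifs <;> simp_all

/-- Mertens' first theorem for primes, natural numbers. -/
lemma P_nat : ∃ C : ℝ, 0 < C ∧ ∀ N : ℕ, 1 ≤ N →
    |∑ p ∈ (Finset.Icc 1 N).filter Nat.Prime, Real.log p / p - Real.log N| ≤ C := by
  obtain ⟨C1, hC1, h1⟩ := Pool.Agent.ANTE.mertens_one
  obtain ⟨C2, hC2, h2⟩ := P_nonprime
  refine ⟨C1 + C2, by positivity, fun N hN => ?_⟩
  have h3 := h1 N hN
  have h4 := h2 N hN
  have h5 : 0 ≤ ∑ n ∈ (Finset.Icc 1 N).filter (fun n => ¬ n.Prime),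
      ArithmeticFunction.vonMangoldt n / n :=
    Finset.sum_nonneg fun n _ => div_nonneg ArithmeticFunction.vonMangoldt_nonneg (by positivity)
  have h6 := Finset.sum_filter_add_sum_filter_not (Finset.Icc 1 N) Nat.Prime
    (fun n => ArithmeticFunction.vonMangoldt n / (n : ℝ))
  have h7 : ∑ n ∈ (Finset.Icc 1 N).filter Nat.Prime, ArithmeticFunction.vonMangoldt n / (n : ℝ) =
      ∑ p ∈ (Finset.Icc 1 N).filter Nat.Prime, Real.log p / p := by
    refine Finset.sum_congr rfl fun n hn => ?_
    rw [ArithmeticFunction.vonMangoldt_apply_prime (Finset.mem_filter.1 hn).2]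
  rw [h7] at h6
  rw [abs_le] at h3 ⊢
  constructor <;> linarith

/-- P1 -/
theorem sum_log_prime : ∃ C : ℝ, 0 < C ∧ ∀ x : ℝ, 1 ≤ x →
    |∑ p ∈ (Finset.Icc 1 ⌊x⌋₊).filter Nat.Prime, Real.log p / p - Real.log x| ≤ C := by
  obtain ⟨C, hC, h⟩ := P_nat
  refine ⟨C + 1, by positivity, fun x hx => ?_⟩
  have hN : 1 ≤ ⌊x⌋₊ := (Nat.one_le_floor_iff x).2 hx
  have h1 := h _ hN
  have hx0 : 0 < x := by linarith
  have hN0 : (1:ℝ) ≤ ⌊x⌋₊ := by exact_mod_cast hN
  have h2 : Real.log ⌊x⌋₊ ≤ Real.log x := Real.log_le_log (by linarith) (Nat.floor_le hx0.le)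
  have h3 : Real.log x ≤ Real.log ⌊x⌋₊ + 1 := by
    have h4 : x / ⌊x⌋₊ ≤ 2 := by
      rw [div_le_iff₀ (by linarith)]
      have := Nat.lt_floor_add_one x
      linarith
    have h5 := Real.log_le_sub_one_of_pos (show 0 < x / ⌊x⌋₊ by positivity)
    rw [Real.log_div hx0.ne' (by linarith)] at h5
    linarith
  rw [abs_le] at h1 ⊢
  constructor <;> linarith

/-- Partial summation for the reciprocals of the primes. -/
lemma P_abel : ∃ C : ℝ, 0 < C ∧ ∀ m k : ℕ, 2 ≤ m → m ≤ k →
    |∑ p ∈ (Finset.Ioc m k).filter Nat.Prime, (1:ℝ) / p -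
      (Real.log (Real.log k) - Real.log (Real.log m))| ≤ C / Real.log m := by
  obtain ⟨C, hC, h⟩ := P_nat
  refine ⟨3 * C + 1, by positivity, fun m k hm hmk => ?_⟩
  set A : ℕ → ℝ := fun n => ∑ p ∈ (Finset.Icc 1 n).filter Nat.Prime, Real.log p / p with hA
  set E : ℕ → ℝ := fun n => A n - Real.log n with hE
  have hEb : ∀ n, 1 ≤ n → |E n| ≤ C := fun n hn => h n hn
  have hlog : ∀ n : ℕ, 2 ≤ n → 0 < Real.log n := fun n hn =>
    Real.log_pos (by exact_mod_cast (by omega : 1 < n))
  have key : ∀ k : ℕ, m ≤ k →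
      |∑ p ∈ (Finset.Ioc m k).filter Nat.Prime, (1:ℝ) / p -
        (Real.log (Real.log k) - Real.log (Real.log m)) - E k / Real.log k + E m / Real.log m| ≤
        (C + 1) * (1 / Real.log m - 1 / Real.log k) := by
    intro k hk
    induction k, hk using Nat.le_induction with
    | base => simp
    | succ k hk ih =>
      have hk2 : 2 ≤ k := hm.trans hk
      have hk0 : (0:ℝ) < k := by exact_mod_cast (by omega : 0 < k)
      have hx := hlog k hk2
      have hy := hlog (k + 1) (by omega)
      set x := Real.log k with hxdef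
      set y := Real.log ((k + 1 : ℕ) : ℝ) with hydef
      have hxy : x ≤ y := Real.log_le_log hk0 (by push_cast; linarith)
      have hyx : y - x ≤ 1 := by
        rw [hxdef, hydef, ← Real.log_div (by positivity) hk0.ne']
        have := Real.log_le_sub_one_of_pos (show 0 < ((k + 1 : ℕ) : ℝ) / k by positivity)
        have h2 : ((k + 1 : ℕ) : ℝ) / k - 1 = 1 / k := by push_cast; field_simp; ring
        rw [h2] at this
        have h3 : 1 / (k:ℝ) ≤ 1 := by
          rw [div_le_one hk0]; exact_mod_cast (by omega : 1 ≤ k)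
        linarith
      -- the new term
      have hnew : ∑ p ∈ (Finset.Ioc m (k + 1)).filter Nat.Prime, (1:ℝ) / p =
          ∑ p ∈ (Finset.Ioc m k).filter Nat.Prime, (1:ℝ) / p + (y - x + E (k + 1) - E k) / y := by
        have h1 : A (k + 1) = A k + if (k + 1).Prime then Real.log ((k + 1 : ℕ) : ℝ) /
            ((k + 1 : ℕ) : ℝ) else 0 := by
          simp only [hA, Finset.sum_filter]
          rw [Finset.sum_Icc_succ_top (by omega)]
        rw [Finset.sum_filter, Finset.sum_Ioc_succ_top (by omega), ← Finset.sum_filter]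
        congr 1
        have h2 : y - x + E (k + 1) - E k = A (k + 1) - A k := by
          simp only [hE, ← hxdef, ← hydef]; ring
        rw [h2, h1]
        split_ifs
        · rw [← hydef]; field_simp
          ring
        · simp
      rw [hnew]
      have h1 : (y - x) / y ≤ Real.log y - Real.log x := by
        rw [← Real.log_div hy.ne' hx.ne']
        have := Real.one_sub_inv_le_log_of_pos (show 0 < y / x by positivity)
        refine le_trans (le_of_eq ?_) this
        rw [inv_div]; field_simp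
      have h2 : Real.log y - Real.log x ≤ (y - x) / x := by
        rw [← Real.log_div hy.ne' hx.ne']
        have := Real.log_le_sub_one_of_pos (show 0 < y / x by positivity)
        refine this.trans (le_of_eq ?_)
        field_simp
      have h3 : 0 ≤ 1 / x - 1 / y := by
        rw [sub_nonneg]; exact one_div_le_one_div_of_le hx hxy
      have h4 : (y - x) / x - (y - x) / y ≤ 1 / x - 1 / y := by
        have : (y - x) / x - (y - x) / y = (y - x) * (1 / x - 1 / y) := by ring
        rw [this]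
        nlinarith
      have h5 : |E k * (1 / x - 1 / y)| ≤ C * (1 / x - 1 / y) := by
        rw [abs_mul, abs_of_nonneg h3]
        exact mul_le_mul_of_nonneg_right (hEb k (by omega)) h3
      have h6 : (y - x + E (k + 1) - E k) / y = (y - x) / y + E (k + 1) / y - E k / y := by ring
      rw [h6]
      have h7 : E k * (1 / x - 1 / y) = E k / x - E k / y := by ring
      rw [h7] at h5
      rw [abs_le] at ih h5 ⊢
      constructor <;> nlinarith [ih.1, ih.2, h5.1, h5.2]
  have h1 := key k hmk
  have hm0 := hlog m hm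
  have hk0 := hlog k (hm.trans hmk)
  have hmk' : Real.log m ≤ Real.log k := Real.log_le_log
    (by exact_mod_cast (by omega : 0 < m)) (by exact_mod_cast hmk)
  have h2 : |E m / Real.log m| ≤ C / Real.log m := by
    rw [abs_div, abs_of_pos hm0]
    exact div_le_div_of_nonneg_right (hEb m (by omega)) hm0.le
  have h3 : |E k / Real.log k| ≤ C / Real.log m := by
    rw [abs_div, abs_of_pos hk0]
    calc |E k| / Real.log k ≤ C / Real.log k :=
          div_le_div_of_nonneg_right (hEb k (by omega)) hk0.le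
      _ ≤ C / Real.log m := div_le_div_of_nonneg_left hC.le hm0 hmk'
  have h4 : (C + 1) * (1 / Real.log m - 1 / Real.log k) ≤ (C + 1) * (1 / Real.log m) := by
    apply mul_le_mul_of_nonneg_left _ (by positivity)
    have : 0 ≤ 1 / Real.log k := by positivity
    linarith
  have h5 : (3 * C + 1) / Real.log m = C / Real.log m + C / Real.log m +
      (C + 1) * (1 / Real.log m) := by ring
  rw [h5]
  rw [abs_le] at h1 h2 h3 ⊢
  constructor <;> linarith [h1.1, h1.2, h2.1, h2.2, h3.1, h3.2]

/-- Iterated logarithms of floors. -/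
lemma P_loglog {u : ℝ} {m : ℕ} (hu : 1 ≤ u) (hm : m = ⌊Real.exp u⌋₊) :
    2 ≤ m ∧ u / 4 ≤ Real.log m ∧ |Real.log (Real.log m) - Real.log u| ≤ 4 / u := by
  have he : 2 ≤ Real.exp u := by
    have := Real.add_one_le_exp u
    linarith
  have hm2 : 2 ≤ m := by
    rw [hm]; exact Nat.le_floor (by exact_mod_cast he)
  have hm0 : (2:ℝ) ≤ m := by exact_mod_cast hm2
  have h1 : (m : ℝ) ≤ Real.exp u := by
    rw [hm]; exact Nat.floor_le (Real.exp_pos u).le
  have h2 : Real.exp u ≤ 3 / 2 * m := by
    have := Nat.lt_floor_add_one (Real.exp u)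
    rw [← hm] at this
    linarith
  have h3 : Real.log m ≤ u := by
    rw [← Real.log_exp u]
    exact Real.log_le_log (by linarith) h1
  have h4 : u ≤ Real.log m + 1 / 2 := by
    have h5 : u ≤ Real.log (3 / 2 * m) := by
      rw [← Real.log_exp u]
      exact Real.log_le_log (Real.exp_pos u) h2
    rw [Real.log_mul (by norm_num) (by linarith)] at h5
    have h6 := Real.log_le_sub_one_of_pos (show (0:ℝ) < 3 / 2 by norm_num)
    linarith
  have h5 : u / 4 ≤ Real.log m := by linarith
  have hl : 0 < Real.log m := by linarith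
  refine ⟨hm2, h5, ?_⟩
  have h6 : Real.log (Real.log m) ≤ Real.log u := Real.log_le_log hl h3
  have h7 : Real.log u - Real.log (Real.log m) ≤ 4 / u := by
    rw [← Real.log_div (by linarith) hl.ne']
    have := Real.log_le_sub_one_of_pos (show 0 < u / Real.log m by positivity)
    refine this.trans ?_
    rw [div_sub_one hl.ne', div_le_div_iff₀ hl (by linarith)]
    nlinarith
  rw [abs_le]
  constructor
  · linarith
  · have : 0 ≤ 4 / u := by positivity
    linarith

/-- P2 -/
theorem sg_asymp : ∃ C : ℝ, 0 < C ∧ ∀ T a b : ℝ, 1 < T → 0 < a → a ≤ b → 1 ≤ a * Real.log T →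
    |sg T a b - Real.log (b / a)| ≤ C / (a * Real.log T) := by
  obtain ⟨C, hC, h⟩ := P_abel
  refine ⟨4 * C + 8, by positivity, fun T a b hT ha hab hL => ?_⟩
  have hT0 : 0 < T := by linarith
  have hlT : 0 < Real.log T := Real.log_pos hT
  have hb : 0 < b := lt_of_lt_of_le ha hab
  have hLb : 1 ≤ b * Real.log T := hL.trans (mul_le_mul_of_nonneg_right hab hlT.le)
  have ea : T ^ a = Real.exp (a * Real.log T) := by
    rw [Real.rpow_def_of_pos hT0, mul_comm]
  have eb : T ^ b = Real.exp (b * Real.log T) := by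
    rw [Real.rpow_def_of_pos hT0, mul_comm]
  obtain ⟨m2, m4, ml⟩ := P_loglog (m := ⌊T ^ a⌋₊) hL (by rw [ea])
  obtain ⟨k2, k4, kl⟩ := P_loglog (m := ⌊T ^ b⌋₊) hLb (by rw [eb])
  have hmk : ⌊T ^ a⌋₊ ≤ ⌊T ^ b⌋₊ :=
    Nat.floor_mono (Real.rpow_le_rpow_of_exponent_le hT.le hab)
  have h1 := h _ _ m2 hmk
  have h2 : C / Real.log (⌊T ^ a⌋₊ : ℝ) ≤ 4 * C / (a * Real.log T) := by
    rw [div_le_div_iff₀ (by linarith) (by positivity)]
    nlinarith
  have h3 : 4 / (b * Real.log T) ≤ 4 / (a * Real.log T) := by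
    apply div_le_div_of_nonneg_left (by norm_num) (by positivity)
    exact mul_le_mul_of_nonneg_right hab hlT.le
  have h4 : Real.log (b / a) = Real.log (b * Real.log T) - Real.log (a * Real.log T) := by
    rw [Real.log_div hb.ne' ha.ne', Real.log_mul hb.ne' hlT.ne', Real.log_mul ha.ne' hlT.ne']
    ring
  have h5 : (4 * C + 8) / (a * Real.log T) = 4 * C / (a * Real.log T) + 4 / (a * Real.log T) +
      4 / (a * Real.log T) := by ring
  have h6 : sg T a b = ∑ p ∈ (Finset.Ioc ⌊T ^ a⌋₊ ⌊T ^ b⌋₊).filter Nat.Prime, (1:ℝ) / p := rfl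
  rw [h4, h5, h6]
  rw [abs_le] at h1 ml kl ⊢
  constructor <;> linarith [h1.1, h1.2, ml.1, ml.2, kl.1, kl.2]

end Pool.Agent.AHD
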