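import Pool.Agent.ZGap.AH.S
import Pool.Agent.ZGap.Half.Core
import Pool.Agent.ZGap.Half.Horiz
import Pool.Agent.ZGap.Half.Off
import Pool.Agent.ZGap.Half.Wrap

/-!
# The core inequality with residues
-/

open scoped ContDiff

namespace Pool.Agent.AHD

open Complex MeasureTheory Set Pool.Agent.Hadamard Pool.Agent.HalfGap Filter
open scoped ComplexConjugate Topology

lemma cz_nonneg {α z : ℝ} (hα : 0 < α) (hz : Xr z = 0) (hb : ¬ badz α z) : 0 ≤ cz α z := by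
  unfold badz at hb
  push Not at hb
  obtain ⟨hd, hiso⟩ := hb
  refine sign_ratio hα hz hd (fun t ht h0 => ?_)
  have h1 := hiso t h0 ht.1.ne'
  rw [abs_of_pos (by linarith [ht.1])] at h1
  linarith [ht.2]

variable {H t0 α y U : ℝ} {B : ℂ → ℂ}

/-- The numerator of `FF`. -/
noncomputable def R1_N (H t0 α : ℝ) (B : ℂ → ℂ) (s : ℂ) : ℂ := Og H t0 s * B s * xiF (s + α * I)

lemma R1_FF_eq (s : ℂ) : FF H t0 α B s = R1_N H t0 α B s / xiF s := by
  unfold FF fq R1_N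
  ring

lemma R1_N_diff (hB : Differentiable ℂ B) : Differentiable ℂ (R1_N H t0 α B) := by
  have hxd := xiF_differentiable
  exact ((Og_diff H t0).mul hB).mul
      (hxd.comp (by fun_prop : Differentiable ℂ fun s : ℂ => s + α * I))

/-- The residue at an isolated zero. -/
lemma R1_res (hBr : ∀ t : ℝ, (B (1 / 2 + t * I)).im = 0) {z : ℝ} (hbz : ¬ badz α z) :
    (2 * Real.pi * I * (R1_N H t0 α B (1 / 2 + z * I) / deriv xiF (1 / 2 + z * I))).re =
      -(2 * Real.pi * (Real.exp (-(z - t0) ^ 2 / H ^ 2) * (B (1 / 2 + z * I)).re * cz α z)) := by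
  unfold badz at hbz
  push Not at hbz
  obtain ⟨hd, -⟩ := hbz
  unfold R1_N
  rw [Og_half, deriv_xiF_half]
  have e1 : (1 / 2 + z * I + α * I : ℂ) = 1 / 2 + ((z + α : ℝ) : ℂ) * I := by
    push_cast; ring
  rw [e1, xiF_half]
  have e2 : B (1 / 2 + z * I) = ((B (1 / 2 + z * I)).re : ℂ) := by
    apply Complex.ext
    · simp
    · rw [hBr z]; simp
  rw [e2]
  set b := (B (1 / 2 + z * I)).re with hb
  set o := Real.exp (-(z - t0) ^ 2 / H ^ 2) with ho
  have e3 : (2 * Real.pi * I * ((o : ℂ) * b * (Xr (z + α) : ℝ) / (-I * (deriv Xr z : ℝ)))) =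
      ((-(2 * Real.pi * (o * b * (Xr (z + α) / deriv Xr z))) : ℝ) : ℂ) := by
    have hd' : ((deriv Xr z : ℝ) : ℂ) ≠ 0 := by exact_mod_cast hd
    push_cast
    field_simp
  rw [e3, ofReal_re, ofReal_re]
  rfl

/-- **The strip inequality with residues.** -/
theorem R1_strip (hRH : RiemannHypothesis) (hα : 0 < α) (hy : 0 < y) {h1 h2 : ℝ} (hh : h1 ≤ h2)
    (hB : Differentiable ℂ B) (hBc : ∀ s, B (1 - conj s) = conj (B s))
    (hc1 : ∀ w, Xr w = 0 → α / 2 ≤ |w - h1|) (hc2 : ∀ w, Xr w = 0 → α / 2 ≤ |w - h2|)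
    {G : ℝ → ℝ} (hG0 : ∀ t, 0 ≤ G t) (hGi : IntegrableOn G (Ioc h1 h2))
    (hG : ∀ t ∈ Icc h1 h2, ∀ s : ℂ, |s.re - 1 / 2| ≤ y → |s.im - t| ≤ α →
      (s.re = 1 / 2 + y ∨ s.re = 1 / 2 - y ∨ ∀ w, Xr w = 0 → α / 2 ≤ |w - s.im|) →
      ‖FF H t0 α B s‖ ≤ G t) :
    Real.pi * (∑ z ∈ isoZ α h1 h2, Real.exp (-(z - t0) ^ 2 / H ^ 2) *
        (B (1 / 2 + z * I)).re * cz α z) -
      8 * ((1 + y / α) * ∫ t in Ioc h1 h2 ∩ EE α, G t) -
      (‖hor (FF H t0 α B) y h1‖ + ‖hor (FF H t0 α B) y h2‖) / 2 ≤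
      (∫ t : ℝ in h1..h2, FF H t0 α B ((1 / 2 + y : ℝ) + t * I)).im := by
  have hBr : ∀ t : ℝ, (B (1 / 2 + t * I)).im = 0 := by
    intro t
    have h3 := hBc (1 / 2 + t * I)
    have h4 : (1 - conj (1 / 2 + t * I) : ℂ) = 1 / 2 + t * I := by
      apply Complex.ext
      · simp; norm_num
      · simp
    rw [h4] at h3
    exact Complex.conj_eq_iff_im.mp h3.symm
  have hFN : FF H t0 α B = fun s => R1_N H t0 α B s / xiF s := funext fun s => R1_FF_eq s
  have hS := strip_eq hRH hα hy hh (N := R1_N H t0 α B) (fun s _ => R1_N_diff hB s) hc1 hc2 hG0 hGi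
    (by
      intro t ht s h3 _ h5 h6
      rw [← R1_FF_eq]
      exact hG t ht s h3 h5 h6)
  rw [← hFN] at hS
  have h3 := (abs_le.mp ((abs_re_le_norm _).trans hS)).2
  rw [sub_re, re_sum, Finset.sum_congr rfl (fun z hz => R1_res (H := H) (t0 := t0) hBr
    (mem_isoZ.mp hz).2.2), Finset.sum_neg_distrib, ← Finset.mul_sum] at h3
  have him := im_eq (FF_refl (H := H) (t0 := t0) (α := α) hBc) y h1 h2
  rw [him]
  have hh1 := (abs_le.mp (abs_re_le_norm (hor (FF H t0 α B) y h1))).1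
  have hh2 := (abs_le.mp (abs_re_le_norm (hor (FF H t0 α B) y h2))).2
  rw [sub_re]
  linarith

/-- **The core inequality with residues.** -/
theorem R1_core (hRH : RiemannHypothesis) {ι : Type*} (Q : Finset ι) (b : ι → ℂ) (w : ι → ℝ)
    (hα : 0 < α) (hy : 0 < y) (hy1 : y ≤ 1) (hH : 1 ≤ H) (hU : 0 ≤ U)
    (hBc : ∀ s, BS Q b w (1 - conj s) = conj (BS Q b w s))
    {SB K Cc h1 h2 : ℝ}
    (hSB : ∑ q ∈ Q, ‖b q‖ * Real.exp (2 * |w q|) ≤ SB)
    (ha : t0 - U - Cc ≤ h1) (ha' : h1 ≤ t0 - U) (hb : t0 + U ≤ h2) (hb' : h2 ≤ t0 + U + Cc)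
    (hK : ∀ s : ℂ, 1 / 2 + y ≤ s.re → s.re ≤ 2 → h1 ≤ s.im → s.im ≤ h2 → ‖fq α s‖ ≤ K)
    (hK1 : ∀ x : ℝ, 1 / 2 - y ≤ x → x ≤ 1 / 2 + y → ‖fq α (x + h1 * I)‖ ≤ K)
    (hK2 : ∀ x : ℝ, 1 / 2 - y ≤ x → x ≤ 1 / 2 + y → ‖fq α (x + h2 * I)‖ ≤ K)
    (hc1 : ∀ v, Xr v = 0 → α / 2 ≤ |v - h1|) (hc2 : ∀ v, Xr v = 0 → α / 2 ≤ |v - h2|)
    {G : ℝ → ℝ} (hG0 : ∀ t, 0 ≤ G t) (hGi : IntegrableOn G (Ioc h1 h2))
    (hG : ∀ t ∈ Icc h1 h2, ∀ s : ℂ, |s.re - 1 / 2| ≤ y → |s.im - t| ≤ α →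
      (s.re = 1 / 2 + y ∨ s.re = 1 / 2 - y ∨ ∀ v, Xr v = 0 → α / 2 ≤ |v - s.im|) →
      ‖FF H t0 α (BS Q b w) s‖ ≤ G t)
    {T C0 dl : ℝ} (hC0 : 0 ≤ C0) (hT : 0 ≤ T)
    (hw : ∀ q ∈ Q, ∀ n : ℕ, 1 ≤ n → w q + Real.log n = 0 ∨ dl ≤ |w q + Real.log n|)
    (hOff : ∀ l : ℝ, ‖Iexp α H t0 U l‖ ≤
      C0 * Real.exp (-(3 * l / 2)) * (T * Real.exp (-(|l| * H)) + T * Real.exp (-(U ^ 2 / H ^ 2)))) :
    Real.pi * (∑ z ∈ isoZ α h1 h2, Real.exp (-(z - t0) ^ 2 / H ^ 2) *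
        (BS Q b w (1 / 2 + z * I)).re * cz α z) -
      8 * ((1 + y / α) * ∫ t in Ioc h1 h2 ∩ EE α, G t) -
      (6 + 2 * Cc) * (Real.exp 3 * SB * K * Real.exp (-(U ^ 2 / H ^ 2))) -
      SB * (C0 * (T * Real.exp (-(dl * H)) + T * Real.exp (-(U ^ 2 / H ^ 2))) * Dd) ≤
    (Mdiag Q b w α * ∫ t in (t0 - U)..(t0 + U), Og H t0 (2 + t * I) * gam α (2 + t * I)).im := by
  set B := BS Q b w with hB
  have hBd : Differentiable ℂ B := BS_differentiable Q b w
  have hBs : ∀ s : ℂ, |s.re - 1 / 2| ≤ 2 → ‖B s‖ ≤ SB := fun s hs => (norm_BS_le Q b w hs).trans hSB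
  set E := Real.exp 3 * SB * K * Real.exp (-(U ^ 2 / H ^ 2)) with hE
  have hstrip := R1_strip (H := H) (t0 := t0) hRH hα hy (by linarith : h1 ≤ h2) hBd hBc hc1 hc2 hG0
    hGi hG
  have hshift := shift (H := H) (t0 := t0) (α := α) hRH hBd hy hy1 hH hU hBs ha ha' hb hb' hK
  have htrace := trace_core Q b w (α := α) (H := H) (U := U) (t0 := t0) hC0 hT (by linarith) hw hOff
  -- horizontal ends
  have hor1 : ‖hor (FF H t0 α B) y h1‖ ≤ 2 * y * E := by
    refine norm_hor_le hy fun x hx => ?_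
    have h3 : |(x + h1 * I : ℂ).re - 1 / 2| ≤ 3 / 2 := by
      simp only [add_re, ofReal_re, mul_re, I_re, mul_zero, ofReal_im, I_im, mul_one, sub_self,
        add_zero]
      rw [abs_le]
      constructor <;> linarith [hx.1, hx.2]
    refine norm_FF_far hH hU h3 ?_ (hBs _ (h3.trans (by norm_num))) (hK1 x hx.1 hx.2)
    simp only [add_im, ofReal_im, mul_im, ofReal_re, I_im, mul_one, I_re, mul_zero,
      add_zero, zero_add]
    rw [abs_of_nonpos (by linarith)]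
    linarith
  have hor2 : ‖hor (FF H t0 α B) y h2‖ ≤ 2 * y * E := by
    refine norm_hor_le hy fun x hx => ?_
    have h3 : |(x + h2 * I : ℂ).re - 1 / 2| ≤ 3 / 2 := by
      simp only [add_re, ofReal_re, mul_re, I_re, mul_zero, ofReal_im, I_im, mul_one, sub_self,
        add_zero]
      rw [abs_le]
      constructor <;> linarith [hx.1, hx.2]
    refine norm_FF_far hH hU h3 ?_ (hBs _ (h3.trans (by norm_num))) (hK2 x hx.1 hx.2)
    simp only [add_im, ofReal_im, mul_im, ofReal_re, I_im, mul_one, I_re, mul_zero,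
      add_zero, zero_add]
    rw [abs_of_nonneg (by linarith)]
    linarith
  have hE0 : 0 ≤ E := by
    have := norm_nonneg (hor (FF H t0 α B) y h1)
    nlinarith
  -- the sum in the trace bound
  have hsum : ∑ q ∈ Q, ‖b q‖ * Real.exp (-(3 * w q / 2)) ≤ SB := by
    refine le_trans (Finset.sum_le_sum fun q _ => ?_) hSB
    refine mul_le_mul_of_nonneg_left (Real.exp_le_exp.mpr ?_) (norm_nonneg _)
    have h3 := neg_abs_le (w q)
    have h4 := abs_nonneg (w q)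
    linarith
  have hR0 : 0 ≤ C0 * (T * Real.exp (-(dl * H)) + T * Real.exp (-(U ^ 2 / H ^ 2))) * Dd := by
    have := Dd_nonneg
    positivity
  have htrace' := htrace.trans (mul_le_mul_of_nonneg_right hsum hR0)
  set R := SB * (C0 * (T * Real.exp (-(dl * H)) + T * Real.exp (-(U ^ 2 / H ^ 2))) * Dd) with hR
  set A0 := ∫ t in (t0 - U)..(t0 + U), Og H t0 (2 + t * I) *
        (∑ q ∈ Q, b q * Complex.exp (-w q * ((2 + t * I) - 1 / 2))) * fq α (2 + t * I) with hA0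
  have hA0' : A0 = ∫ t : ℝ in (t0 - U)..(t0 + U), FF H t0 α B (2 + t * I) := rfl
  set A2 := ∫ t : ℝ in h1..h2, FF H t0 α B ((1 / 2 + y : ℝ) + t * I) with hA2
  set MJ := Mdiag Q b w α * ∫ t in (t0 - U)..(t0 + U), Og H t0 (2 + t * I) * gam α (2 + t * I)
    with hMJ
  rw [← hA0'] at hshift
  have i1 : |A0.im - A2.im| ≤ (4 + 2 * Cc) * E := by
    rw [← sub_im]; exact (abs_im_le_norm _).trans hshift
  have i2 : |A0.im - MJ.im| ≤ R := by
    rw [← sub_im]; exact (abs_im_le_norm _).trans htrace'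
  have i3 := (abs_le.mp i1).1
  have i4 := (abs_le.mp i2).2
  have i5 : (‖hor (FF H t0 α B) y h1‖ + ‖hor (FF H t0 α B) y h2‖) / 2 ≤ 2 * E := by
    have : 2 * y * E ≤ 2 * E := by nlinarith
    linarith
  nlinarith

/-- R1 -/
theorem wrap_res (hRH : RiemannHypothesis) {τ κ η1 η2 A : ℝ} (hτ : 1 / 3 < τ) (hτ1 : τ < 1)
    (hκη : κ < η1) (hη1 : 0 < η1) (h12 : η1 < η2) (hη2 : η2 < 1) :
    ∃ T0 : ℝ, ∀ T : ℝ, T0 ≤ T → ∀ t0 : ℝ, T ≤ t0 → t0 ≤ 2 * T →
      ∀ {ι : Type} (Q : Finset ι) (b : ι → ℂ) (w : ι → ℝ),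
      (∀ s, BS Q b w (1 - (starRingEnd ℂ) s) = (starRingEnd ℂ) (BS Q b w s)) →
      (∀ t : ℝ, 0 ≤ (BS Q b w (1 / 2 + t * I)).re) →
      (∑ q ∈ Q, ‖b q‖ * Real.exp (2 * |w q|) ≤ T ^ A) →
      (∀ q ∈ Q, ∀ n : ℕ, 1 ≤ n → w q + Real.log n = 0 ∨ T ^ (-κ) / 2 ≤ |w q + Real.log n|) →
      ∀ G : ℝ → ℝ, (∀ t, 0 ≤ G t) → IntegrableOn G (Icc (3 * T / 4) (5 * T / 2)) →
      (∀ t ∈ Icc (3 * T / 4) (5 * T / 2), ∀ s : ℂ, |s.re - 1 / 2| ≤ 1 / Real.log T →
        |s.im - t| ≤ alp τ T →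
        (s.re = 1 / 2 + 1 / Real.log T ∨ s.re = 1 / 2 - 1 / Real.log T ∨
          ∀ v, Xr v = 0 → Real.pi * τ / Real.log T ≤ |v - s.im|) →
        ‖FF (T ^ η1) t0 (alp τ T) (BS Q b w) s‖ ≤ G t) →
      Real.pi * (∑ z ∈ isoZ (alp τ T) (t0 - T ^ η2) (t0 + T ^ η2),
        Real.exp (-(z - t0) ^ 2 / (T ^ η1) ^ 2) * (BS Q b w (1 / 2 + z * I)).re *
          cz (alp τ T) z) -
        20 * (∫ t in Icc (t0 - 2 * T ^ η2) (t0 + 2 * T ^ η2) ∩ EE (alp τ T), G t) - 1 ≤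
      (Mdiag Q b w (alp τ T) * ∫ t in (t0 - T ^ η2)..(t0 + T ^ η2),
        Og (T ^ η1) t0 (2 + t * I) * gam (alp τ T) (2 + t * I)).im := by
  have hpi := Real.pi_pos
  have hpi3 := Real.pi_gt_three
  obtain ⟨C1, T1, hC1, hT1, hfr⟩ := fq_le_rpow_right hRH (A := 2 * Real.pi) (by positivity)
  obtain ⟨C2, T2, hC2, hT2, hfs⟩ := fq_le_rpow_strip hRH (A := 2 * Real.pi) (c := Real.pi * τ)
    (by positivity) (by positivity)
  obtain ⟨C3, T3, hC3, hT3, hcut⟩ := exists_good_cut (τ := τ) (by linarith) hτ1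
  obtain ⟨C0, T4, hC0, hoff⟩ := off_bound' (2 * Real.pi) (by positivity)
  set K0 := max C1 C2 with hK0
  -- smallness
  have hd1 : 0 < 2 * (η2 - η1) := by linarith
  have hd2 : 0 < η1 - κ := by linarith
  set M1 := (6 + 2 * C3) * Real.exp 3 + 1 with hM1
  have hM1pos : 0 < M1 := by positivity
  set M2 := C0 * Dd + 1 with hM2
  have hM2pos : 0 < M2 := by have := Dd_nonneg; positivity
  have e1 := ev_small' (A + K0) (c := 2 * (η2 - η1)) (k := 1) (ε := 1 / (3 * M1)) hd1 one_pos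
    (by positivity)
  have e2 := ev_small' (A + 1) (c := η1 - κ) (k := 1 / 2) (ε := 1 / (3 * M2)) hd2 (by norm_num)
    (by positivity)
  have e3 := ev_small' (A + 1) (c := 2 * (η2 - η1)) (k := 1) (ε := 1 / (3 * M2)) hd1 one_pos
    (by positivity)
  have e4 := (tendsto_rpow_atTop (hη1.trans h12)).eventually_ge_atTop C3
  have e5 : ∀ᶠ T : ℝ in atTop, 8 * T ^ η2 ≤ T := by
    have h1 : Tendsto (fun T : ℝ => T ^ (1 - η2)) atTop atTop := tendsto_rpow_atTop (by linarith)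
    filter_upwards [h1.eventually_ge_atTop 8, eventually_gt_atTop 0] with T hT hT0
    have h2 : T ^ (1 - η2) * T ^ η2 = T := by
      rw [← Real.rpow_add hT0]; simp
    have h3 : 0 < T ^ η2 := Real.rpow_pos_of_pos hT0 _
    exact (mul_le_mul_of_nonneg_right hT h3.le).trans_eq h2
  have e6 : ∀ᶠ T : ℝ in atTop, 3 ≤ Real.log T := Real.tendsto_log_atTop.eventually_ge_atTop 3
  have e7 := (((e1.and e2).and (e3.and e4)).and (e5.and e6)).and
    (((eventually_ge_atTop T1).and (eventually_ge_atTop T2)).and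
      ((eventually_ge_atTop T3).and (eventually_ge_atTop T4)))
  obtain ⟨T0, hT0⟩ := eventually_atTop.mp e7
  refine ⟨max T0 1, fun T hT t0 ht0 ht0' ι Q b w hBc hBp hSB hsep G hG0 hGi hG => ?_⟩
  obtain ⟨⟨⟨⟨s1, s2⟩, s3, s4⟩, s5, s6⟩, ⟨s7, s8⟩, s9, s10⟩ := hT0 T ((le_max_left _ _).trans hT)
  have hT1' : 1 ≤ T := (le_max_right _ _).trans hT
  have hTpos : 0 < T := by linarith
  set L := Real.log T with hL
  have hLpos : 0 < L := by linarith
  set H := T ^ η1 with hH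
  set U := T ^ η2 with hU
  have hal : alp τ T = 2 * Real.pi * τ / L := rfl
  rw [hal] at hG ⊢
  set α := 2 * Real.pi * τ / L with hα
  have hα0 : 0 < α := by positivity
  have hα2 : α / 2 = Real.pi * τ / L := by rw [hα]; ring
  have hαA : α ≤ 2 * Real.pi / L := by
    rw [hα]
    apply div_le_div_of_nonneg_right _ hLpos.le
    exact mul_le_of_le_one_right (by positivity) hτ1.le
  have hH1 : 1 ≤ H := Real.one_le_rpow hT1' hη1.le
  have hHU : H ≤ U := Real.rpow_le_rpow_of_exponent_le hT1' h12.le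
  have hUpos : 0 < U := by linarith
  have hU8 : U ≤ T / 8 := by linarith
  -- the cuts
  obtain ⟨h1, hh1, hc1⟩ := hcut T s9 (t0 - U - C3) (by linarith) (by linarith)
  obtain ⟨h2, hh2, hc2⟩ := hcut T s9 (t0 + U) (by linarith) (by linarith)
  have hcz1 : ∀ v, Xr v = 0 → α / 2 ≤ |v - h1| := by
    intro v hv
    rw [hα2]
    have h3 : (1 / 2 + v * I : ℂ) ∈ ntz := by
      rw [← xiF_eq_zero_iff, xiF_half, hv]; simp
    have := hc1 _ h3
    simpa using this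
  have hcz2 : ∀ v, Xr v = 0 → α / 2 ≤ |v - h2| := by
    intro v hv
    rw [hα2]
    have h3 : (1 / 2 + v * I : ℂ) ∈ ntz := by
      rw [← xiF_eq_zero_iff, xiF_half, hv]; simp
    have := hc2 _ h3
    simpa using this
  have hy1 : 1 / L ≤ 1 := by
    rw [div_le_one hLpos]; linarith
  have hrange : Icc h1 h2 ⊆ Icc (3 * T / 4) (5 * T / 2) := by
    apply Icc_subset_Icc
    · linarith [hh1.1]
    · linarith [hh2.2]
  have hKle : ∀ {C x : ℝ}, C ≤ K0 → x ≤ T ^ C → x ≤ T ^ K0 := fun {C x} h h' =>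
    h'.trans (Real.rpow_le_rpow_of_exponent_le hT1' h)
  have hcore := R1_core (α := α) (y := 1 / L) (H := H) (U := U) (t0 := t0) hRH Q b w hα0
    (by positivity) hy1 hH1 hUpos.le hBc (SB := T ^ A) (K := T ^ K0) (Cc := C3) (h1 := h1)
    (h2 := h2) hSB hh1.1 (by linarith [hh1.2]) hh2.1 hh2.2
    (fun s h3 h4 h5 h6 => hKle (le_max_left _ _) (hfr T s7 α hα0.le hαA s h3 h4
      (by linarith [hh1.1]) (by linarith [hh2.2])))
    (fun x h3 h4 => hKle (le_max_right _ _) (hfs T s8 α hα0.le hαA _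
      (by
        simp only [add_re, ofReal_re, mul_re, I_re, mul_zero, ofReal_im, I_im, mul_one, sub_self,
          add_zero]
        rw [abs_le]; constructor <;> linarith)
      (by simp; linarith [hh1.1]) (by simp; linarith [hh1.2])
      (fun ρ hρ => by
        refine (hc1 ρ hρ).trans ?_
        have h5 := abs_im_le_norm ((x : ℂ) + h1 * I - ρ)
        have h6 : ((x : ℂ) + h1 * I - ρ).im = h1 - ρ.im := by simp
        rw [h6, abs_sub_comm] at h5
        exact h5)))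
    (fun x h3 h4 => hKle (le_max_right _ _) (hfs T s8 α hα0.le hαA _
      (by
        simp only [add_re, ofReal_re, mul_re, I_re, mul_zero, ofReal_im, I_im, mul_one, sub_self,
          add_zero]
        rw [abs_le]; constructor <;> linarith)
      (by simp; linarith [hh2.1]) (by simp; linarith [hh2.2])
      (fun ρ hρ => by
        refine (hc2 ρ hρ).trans ?_
        have h5 := abs_im_le_norm ((x : ℂ) + h2 * I - ρ)
        have h6 : ((x : ℂ) + h2 * I - ρ).im = h2 - ρ.im := by simp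
        rw [h6, abs_sub_comm] at h5
        exact h5)))
    hcz1 hcz2 (G := G) hG0 (hGi.mono_set (Ioc_subset_Icc_self.trans hrange))
    (fun t ht s h3 h4 h5 => hG t (hrange ht) s h3 h4 (by
      rcases h5 with h5 | h5 | h5
      · exact Or.inl h5
      · exact Or.inr (Or.inl h5)
      · right; right
        intro v hv
        rw [← hα2]
        exact h5 v hv))
    (T := T) (C0 := C0) (dl := T ^ (-κ) / 2) hC0.le hTpos.le hsep
    (fun l => hoff T α t0 H U s10 hα0.le hαA (by linarith) (by linarith) hH1 (by linarith) hHU hU8 l)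
  refine le_trans ?_ hcore
  -- error terms
  have hUH : U ^ 2 / H ^ 2 = 1 * T ^ (2 * (η2 - η1)) := by
    rw [hU, hH, ← Real.rpow_natCast, ← Real.rpow_natCast, ← Real.rpow_mul hTpos.le,
      ← Real.rpow_mul hTpos.le, ← Real.rpow_sub hTpos, one_mul]
    congr 1
    push_cast; ring
  have hdH : T ^ (-κ) / 2 * H = 1 / 2 * T ^ (η1 - κ) := by
    have : T ^ (η1 - κ) = T ^ (-κ) * T ^ η1 := by
      rw [← Real.rpow_add hTpos]; congr 1; ring
    rw [this, hH]; ring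
  have hTA : 0 < T ^ A := Real.rpow_pos_of_pos hTpos _
  have b1 : (6 + 2 * C3) * (Real.exp 3 * T ^ A * T ^ K0 * Real.exp (-(U ^ 2 / H ^ 2))) ≤ 1 / 3 := by
    rw [hUH]
    have h3 : T ^ A * T ^ K0 = T ^ (A + K0) := (Real.rpow_add hTpos _ _).symm
    calc _ = (6 + 2 * C3) * Real.exp 3 * (T ^ (A + K0) *
          Real.exp (-(1 * T ^ (2 * (η2 - η1))))) := by rw [← h3]; ring
      _ ≤ M1 * (1 / (3 * M1)) := by
          apply mul_le_mul _ s1 (by positivity) hM1pos.le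
          rw [hM1]; linarith
      _ = 1 / 3 := by field_simp
  have b2 : T ^ A * (C0 * (T * Real.exp (-(T ^ (-κ) / 2 * H)) +
      T * Real.exp (-(U ^ 2 / H ^ 2))) * Dd) ≤ 2 / 3 := by
    rw [hUH, hdH]
    have h3 : T ^ (A + 1) = T ^ A * T := by rw [Real.rpow_add hTpos, Real.rpow_one]
    rw [h3] at s2 s3
    have hDd := Dd_nonneg
    calc _ = C0 * Dd * (T ^ A * T * Real.exp (-(1 / 2 * T ^ (η1 - κ))) +
          T ^ A * T * Real.exp (-(1 * T ^ (2 * (η2 - η1))))) := by ring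
      _ ≤ M2 * (1 / (3 * M2) + 1 / (3 * M2)) := by
          apply mul_le_mul _ (add_le_add s2 s3) (by positivity) hM2pos.le
          rw [hM2]; linarith
      _ = 2 / 3 := by field_simp; norm_num
  have b3 : (1 + (1 / L) / α) ≤ 5 / 2 := by
    have h3 : (1 / L) / α = 1 / (Real.pi * τ) * (1 / 2) := by
      rw [hα]; field_simp
    rw [h3]
    have h4 : 1 / (Real.pi * τ) ≤ 1 := by
      rw [div_le_one (by positivity)]; linarith only [hpi3, hτ, mul_pos (sub_pos.mpr hpi3) (sub_pos.mpr hτ)]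
    linarith
  have hEEm : MeasurableSet (Ioc h1 h2) := measurableSet_Ioc
  have hsub : Ioc h1 h2 ⊆ Icc (t0 - 2 * U) (t0 + 2 * U) := by
    intro t ht
    constructor
    · linarith [ht.1, hh1.1]
    · linarith [ht.2, hh2.2]
  have hint : IntegrableOn G (Icc (t0 - 2 * U) (t0 + 2 * U) ∩ EE α) := by
    refine hGi.mono_set (inter_subset_left.trans ?_)
    apply Icc_subset_Icc <;> linarith
  have b4 : ∫ t in Ioc h1 h2 ∩ EE α, G t ≤ ∫ t in Icc (t0 - 2 * U) (t0 + 2 * U) ∩ EE α, G t :=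
    setIntegral_mono_set hint (Filter.Eventually.of_forall fun t => hG0 t)
      (inter_subset_inter_left _ hsub).eventuallyLE
  have b5 : 0 ≤ ∫ t in Ioc h1 h2 ∩ EE α, G t := integral_nonneg fun t => hG0 t
  have b6 := mul_le_mul b3 b4 b5 (by norm_num : (0:ℝ) ≤ 5 / 2)
  -- the sum over the isolated zeros
  have hsubz : isoZ α (t0 - U) (t0 + U) ⊆ isoZ α h1 h2 := by
    intro z hz
    rw [mem_isoZ] at hz ⊢
    exact ⟨⟨by linarith only [hz.1.1, hh1.2], by linarith only [hz.1.2, hh2.1]⟩, hz.2⟩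
  have b7 : ∑ z ∈ isoZ α (t0 - U) (t0 + U), Real.exp (-(z - t0) ^ 2 / H ^ 2) *
        (BS Q b w (1 / 2 + z * I)).re * cz α z ≤
      ∑ z ∈ isoZ α h1 h2, Real.exp (-(z - t0) ^ 2 / H ^ 2) *
        (BS Q b w (1 / 2 + z * I)).re * cz α z := by
    refine Finset.sum_le_sum_of_subset_of_nonneg hsubz fun z hz _ => ?_
    have hz' := mem_isoZ.mp hz
    exact mul_nonneg (mul_nonneg (Real.exp_nonneg _) (hBp z)) (cz_nonneg hα0 hz'.2.1 hz'.2.2)
  have b8 := mul_le_mul_of_nonneg_left b7 hpi.le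
  linarith only [b1, b2, b6, b8]


end Pool.Agent.AHD
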