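import Pool.Agent.ZGap.AH.Defs3

/-!
# The strip identity
-/

open scoped ContDiff

namespace Pool.Agent.AHD

open Complex MeasureTheory Set Pool.Agent.Hadamard Pool.Agent.HalfGap

/-- The boundary integral over a bad rectangle. -/
lemma S_bad {α y : ℝ} (hα : 0 < α) (hy : 0 < y) {F : ℂ → ℂ}
    {a b : ℝ} (hab : a + α ≤ b) {G : ℝ → ℝ} (hGi : IntegrableOn G (Ioc a b))
    (c1 : ContinuousOn (fun t : ℝ => F ((1 / 2 + y : ℝ) + t * I)) (Icc a b))
    (c2 : ContinuousOn (fun t : ℝ => F ((1 / 2 - y : ℝ) + t * I)) (Icc a b))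
    (h1 : ∀ t ∈ Icc a b, ‖F ((1 / 2 + y : ℝ) + t * I)‖ ≤ G t)
    (h2 : ∀ t ∈ Icc a b, ‖F ((1 / 2 - y : ℝ) + t * I)‖ ≤ G t)
    (h3 : ∀ t ∈ Icc a (a + α), ∀ x ∈ Icc (1 / 2 - y) (1 / 2 + y), ‖F (x + a * I)‖ ≤ G t)
    (h4 : ∀ t ∈ Icc (b - α) b, ∀ x ∈ Icc (1 / 2 - y) (1 / 2 + y), ‖F (x + b * I)‖ ≤ G t)
    (hG0 : ∀ t, 0 ≤ G t) :
    ‖rInt F (1 / 2 - y) (1 / 2 + y) a b‖ ≤ 2 * (1 + 2 * y / α) * ∫ t in a..b, G t := by
  have hle : a ≤ b := by linarith
  have hGii : IntervalIntegrable G volume a b := by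
    rwa [intervalIntegrable_iff_integrableOn_Ioc_of_le hle]
  have b1 : ‖∫ t : ℝ in a..b, F ((1 / 2 + y : ℝ) + t * I)‖ ≤ ∫ t in a..b, G t := by
    refine (intervalIntegral.norm_integral_le_integral_norm hle).trans ?_
    exact intervalIntegral.integral_mono_on hle
      (ContinuousOn.intervalIntegrable (by rw [uIcc_of_le hle]; exact c1.norm)) hGii h1
  have b2 : ‖∫ t : ℝ in a..b, F ((1 / 2 - y : ℝ) + t * I)‖ ≤ ∫ t in a..b, G t := by
    refine (intervalIntegral.norm_integral_le_integral_norm hle).trans ?_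
    exact intervalIntegral.integral_mono_on hle
      (ContinuousOn.intervalIntegrable (by rw [uIcc_of_le hle]; exact c2.norm)) hGii h2
  -- horizontal sides
  have hside : ∀ (c u v : ℝ), v = u + α → a ≤ u → v ≤ b →
      (∀ t ∈ Icc u v, ∀ x ∈ Icc (1 / 2 - y) (1 / 2 + y), ‖F (x + c * I)‖ ≤ G t) →
      ‖hor F y c‖ ≤ 2 * y / α * ∫ t in a..b, G t := by
    intro c u v huv hau hvb hx
    have hs : ∀ t ∈ Icc u v, ‖hor F y c‖ ≤ 2 * y * G t := fun t ht =>
      norm_hor_le hy (hx t ht)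
    have hsub : Icc u v ⊆ Icc a b := Icc_subset_Icc hau hvb
    have hi : IntervalIntegrable G volume u v := by
      apply hGii.mono_set
      rw [uIcc_of_le (by linarith), uIcc_of_le hle]
      exact hsub
    have e1 : ∫ t in u..v, ‖hor F y c‖ ≤ ∫ t in u..v, 2 * y * G t :=
      intervalIntegral.integral_mono_on (by linarith) (by simp) (hi.const_mul _) hs
    rw [intervalIntegral.integral_const, intervalIntegral.integral_const_mul, huv,
      add_sub_cancel_left, smul_eq_mul] at e1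
    have e2 : ∫ t in u..(u + α), G t ≤ ∫ t in a..b, G t := by
      refine intervalIntegral.integral_mono_interval hau (by linarith) (by linarith)
        (Filter.Eventually.of_forall fun t => hG0 t) hGii
    rw [div_mul_eq_mul_div, le_div_iff₀ hα]
    have e3 : 2 * y * ∫ t in u..(u + α), G t ≤ 2 * y * ∫ t in a..b, G t :=
      mul_le_mul_of_nonneg_left e2 (by linarith)
    linarith
  have b3 := hside a a (a + α) rfl le_rfl hab h3
  have b4 := hside b (b - α) b (by ring) (by linarith) le_rfl h4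
  unfold rInt
  unfold hor at b3 b4
  have n1 : ‖I * ∫ t : ℝ in a..b, F ((1 / 2 + y : ℝ) + t * I)‖ ≤ ∫ t in a..b, G t := by
    rw [norm_mul, norm_I, one_mul]; exact b1
  have n2 : ‖I * ∫ t : ℝ in a..b, F ((1 / 2 - y : ℝ) + t * I)‖ ≤ ∫ t in a..b, G t := by
    rw [norm_mul, norm_I, one_mul]; exact b2
  calc _ ≤ ‖∫ x : ℝ in (1 / 2 - y)..(1 / 2 + y), F (x + a * I)‖ +
        ‖∫ x : ℝ in (1 / 2 - y)..(1 / 2 + y), F (x + b * I)‖ +
        ‖I * ∫ t : ℝ in a..b, F ((1 / 2 + y : ℝ) + t * I)‖ +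
        ‖I * ∫ t : ℝ in a..b, F ((1 / 2 - y : ℝ) + t * I)‖ := by
        refine (norm_sub_le _ _).trans ?_
        gcongr
        refine (norm_add_le _ _).trans ?_
        gcongr
        exact norm_sub_le _ _
    _ ≤ _ := by
        have : 2 * (1 + 2 * y / α) * ∫ t in a..b, G t =
          2 * y / α * (∫ t in a..b, G t) + 2 * y / α * (∫ t in a..b, G t) + (∫ t in a..b, G t) +
            ∫ t in a..b, G t := by ring
        rw [this]
        gcongr

/-- The boundary integral over the cell of an isolated zero. -/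
lemma S_cell (hRH : RiemannHypothesis) {α y : ℝ} (hα : 0 < α) (hy : 0 < y) {N : ℂ → ℂ} {z : ℝ}
    (hN : ∀ s ∈ rect (1 / 2 - y) (1 / 2 + y) (z - α / 2) (z + α / 2), DifferentiableAt ℂ N s)
    (hz : Xr z = 0) (hbz : ¬ badz α z) :
    rInt (fun s => N s / xiF s) (1 / 2 - y) (1 / 2 + y) (z - α / 2) (z + α / 2) =
      2 * Real.pi * I * (N (1 / 2 + z * I) / deriv xiF (1 / 2 + z * I)) := by
  unfold badz at hbz
  push Not at hbz
  obtain ⟨hd, hiso⟩ := hbz
  have hxd := xiF_differentiable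
  exact rInt_simple (N := N) (D := xiF)
    (a := 1 / 2 - y) (b := 1 / 2 + y) (c := z - α / 2) (d := z + α / 2) (p := 1 / 2 + z * I)
    (by simp; linarith) (by simp; linarith) (by simp; linarith) (by simp; linarith)
    hN (fun s _ => hxd s) (by rw [xiF_half, hz]; simp)
    (by
      rw [deriv_xiF_half]
      exact mul_ne_zero (by simp) (by exact_mod_cast hd))
    (by
      intro s hs hne h0
      obtain ⟨h1, h2⟩ := (xiF_zero_iff hRH).mp h0
      apply hne
      have h3 : s.im = z := by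
        by_contra hne'
        have h4 := hiso s.im h2 hne'
        have h5 : |s.im - z| ≤ α / 2 := by
          rw [abs_le]
          constructor
          · linarith [hs.2.2.1]
          · linarith [hs.2.2.2]
        linarith
      apply Complex.ext
      · simp [h1]
      · simp [h3])
    ⟨univ, Filter.univ_mem, fun s _ => hxd s⟩

lemma S_iso_dist {α z w : ℝ} (hbz : ¬ badz α z) (hw : Xr w = 0) (hne : w ≠ z) : α ≤ |w - z| := by
  unfold badz at hbz
  push Not at hbz
  exact hbz.2 w hw hne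

lemma S_isoZ_self {α z : ℝ} (hα : 0 < α) (hz : Xr z = 0) (hbz : ¬ badz α z) :
    isoZ α (z - α / 2) (z + α / 2) = {z} := by
  ext w
  rw [mem_isoZ, Finset.mem_singleton]
  constructor
  · rintro ⟨⟨h1, h2⟩, h3, _⟩
    by_contra hne
    have h4 := S_iso_dist hbz h3 hne
    have h5 : |w - z| ≤ α / 2 := by
      rw [abs_le]
      constructor <;> linarith
    linarith
  · rintro rfl
    exact ⟨⟨by linarith, by linarith⟩, hz, hbz⟩

lemma S_isoZ_split {α a b c : ℝ} (hα : 0 < α) (hab : a ≤ b) (hbc : b ≤ c)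
    (hb : ∀ w, Xr w = 0 → α / 2 ≤ |w - b|) {R : ℝ → ℂ} :
    ∑ z ∈ isoZ α a c, R z = ∑ z ∈ isoZ α a b, R z + ∑ z ∈ isoZ α b c, R z := by
  classical
  rw [← Finset.sum_union]
  · congr 1
    ext w
    rw [Finset.mem_union, mem_isoZ, mem_isoZ, mem_isoZ]
    constructor
    · rintro ⟨⟨h1, h2⟩, h3, h4⟩
      rcases lt_trichotomy w b with h5 | h5 | h5
      · exact Or.inl ⟨⟨h1, h5⟩, h3, h4⟩
      · exfalso
        have := hb w h3
        rw [h5, sub_self, abs_zero] at this
        linarith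
      · exact Or.inr ⟨⟨h5, h2⟩, h3, h4⟩
    · rintro (⟨⟨h1, h2⟩, h3, h4⟩ | ⟨⟨h1, h2⟩, h3, h4⟩)
      · exact ⟨⟨h1, by linarith⟩, h3, h4⟩
      · exact ⟨⟨by linarith, h2⟩, h3, h4⟩
  · rw [Finset.disjoint_left]
    intro w h1 h2
    have h3 := (mem_isoZ.mp h1).1.2
    have h4 := (mem_isoZ.mp h2).1.1
    linarith

/-- The cells of the isolated zeros are disjoint. -/
lemma S_sum_cells {α a b : ℝ} (ha : ∀ w, Xr w = 0 → α / 2 ≤ |w - a|)
    (hb : ∀ w, Xr w = 0 → α / 2 ≤ |w - b|) {G : ℝ → ℝ} (hG0 : ∀ t, 0 ≤ G t)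
    (hGi : IntegrableOn G (Ioc a b)) :
    ∑ z ∈ isoZ α a b, ∫ t in Ioc (z - α / 2) (z + α / 2), G t ≤ ∫ t in Ioc a b, G t := by
  classical
  have hsub : ∀ z ∈ isoZ α a b, Ioc (z - α / 2) (z + α / 2) ⊆ Ioc a b := by
    intro z hz
    obtain ⟨⟨h1, h2⟩, h3, _⟩ := mem_isoZ.mp hz
    have h4 := ha z h3
    have h5 := hb z h3
    rw [abs_of_pos (by linarith)] at h4
    rw [abs_of_neg (by linarith)] at h5
    exact Ioc_subset_Ioc (by linarith) (by linarith)
  rw [← integral_biUnion_finset _ (fun z _ => measurableSet_Ioc) _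
    (fun z hz => hGi.mono_set (hsub z hz))]
  · refine setIntegral_mono_set hGi (Filter.Eventually.of_forall fun t => hG0 t) ?_
    exact (iUnion₂_subset hsub).eventuallyLE
  · intro z hz w hw hne
    obtain ⟨_, h3, h4⟩ := mem_isoZ.mp (Finset.mem_coe.mp hz)
    obtain ⟨_, h6, _⟩ := mem_isoZ.mp (Finset.mem_coe.mp hw)
    have h7 := S_iso_dist h4 h6 hne.symm
    rw [Function.onFun, Set.disjoint_left]
    intro t ht ht'
    have h8 : |w - z| < α := by
      rw [abs_lt]
      constructor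
      · linarith [ht.1, ht'.2]
      · linarith [ht.2, ht'.1]
    linarith

theorem strip_eq (hRH : RiemannHypothesis) {α y h1 h2 : ℝ} (hα : 0 < α) (hy : 0 < y)
    (hh : h1 ≤ h2) {N : ℂ → ℂ} (hN : ∀ s ∈ rect (1 / 2 - y) (1 / 2 + y) h1 h2,
      DifferentiableAt ℂ N s)
    (hc1 : ∀ w, Xr w = 0 → α / 2 ≤ |w - h1|) (hc2 : ∀ w, Xr w = 0 → α / 2 ≤ |w - h2|)
    {G : ℝ → ℝ} (hG0 : ∀ t, 0 ≤ G t) (hGi : IntegrableOn G (Ioc h1 h2))
    (hG : ∀ t ∈ Icc h1 h2, ∀ s : ℂ, |s.re - 1 / 2| ≤ y → s.im ∈ Icc h1 h2 → |s.im - t| ≤ α →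
      (s.re = 1 / 2 + y ∨ s.re = 1 / 2 - y ∨ ∀ w, Xr w = 0 → α / 2 ≤ |w - s.im|) →
      ‖N s / xiF s‖ ≤ G t) :
    ‖rInt (fun s => N s / xiF s) (1 / 2 - y) (1 / 2 + y) h1 h2 -
      ∑ z ∈ isoZ α h1 h2, 2 * Real.pi * I *
        (N (1 / 2 + z * I) / deriv xiF (1 / 2 + z * I))‖ ≤
      16 * (1 + y / α) * ∫ t in Ioc h1 h2 ∩ EE α, G t := by
  classical
  set F : ℂ → ℂ := fun s => N s / xiF s with hF
  set R : ℝ → ℂ := fun z => 2 * Real.pi * I *
        (N (1 / 2 + z * I) / deriv xiF (1 / 2 + z * I)) with hR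
  have hk : 0 ≤ 1 + 2 * y / α := by positivity
  set Z : Finset ℝ := (zeros_finite h1 h2).toFinset with hZ
  have hZm : ∀ w, w ∈ Z ↔ w ∈ Ioo h1 h2 ∧ Xr w = 0 := fun w => by
    rw [hZ, Set.Finite.mem_toFinset, mem_ofPred_eq]
  -- no zeros between cuts
  have hnz : ∀ w, Xr w = 0 → h1 ≤ w → w ≤ h2 → w ∈ Z := by
    intro w hw h3 h4
    rw [hZm]
    refine ⟨⟨lt_of_le_of_ne h3 ?_, lt_of_le_of_ne h4 ?_⟩, hw⟩
    · rintro rfl
      have := hc1 _ hw
      simp at this
      linarith
    · rintro rfl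
      have := hc2 _ hw
      simp at this
      linarith
  -- a cut is good with respect to all zeros
  have hgood : ∀ a, h1 ≤ a → a ≤ h2 → (∀ z ∈ Z, α / 2 ≤ |z - a|) →
      ∀ w, Xr w = 0 → α / 2 ≤ |w - a| := by
    intro a ha1 ha2 ha w hw
    rcases lt_or_ge w h1 with h3 | h3
    · have h4 := hc1 w hw
      rw [abs_of_neg (by linarith)] at h4 ⊢
      linarith
    · rcases lt_or_ge h2 w with h5 | h5
      · have h4 := hc2 w hw
        rw [abs_of_pos (by linarith)] at h4
        rw [abs_of_nonneg (by linarith)]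
        linarith
      · exact ha w (hnz w hw h3 h5)
  have hrect : ∀ a b, h1 ≤ a → b ≤ h2 → ∀ s ∈ rect (1 / 2 - y) (1 / 2 + y) a b,
      s ∈ rect (1 / 2 - y) (1 / 2 + y) h1 h2 := fun a b ha hb s hs =>
    ⟨hs.1, hs.2.1, ha.trans hs.2.2.1, hs.2.2.2.trans hb⟩
  -- continuity on the vertical sides
  have hvert : ∀ x : ℝ, x = 1 / 2 + y ∨ x = 1 / 2 - y → ∀ a b, h1 ≤ a → b ≤ h2 →
      ContinuousOn (fun t : ℝ => F (x + t * I)) (Icc a b) := by
    intro x hx a b ha hb t ht
    have hx1 : 1 / 2 - y ≤ x ∧ x ≤ 1 / 2 + y := by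
      rcases hx with rfl | rfl <;> constructor <;> linarith
    have hx2 : x ≠ 1 / 2 := by
      rcases hx with rfl | rfl <;> intro h <;> linarith
    have h3 : (x : ℂ) + t * I ∈ rect (1 / 2 - y) (1 / 2 + y) h1 h2 :=
      hmem ⟨hx1.1, hx1.2⟩ ⟨ha.trans ht.1, ht.2.trans hb⟩
    have h4 : ContinuousAt F (x + t * I) := by
      refine ((hN _ h3).div (xiF_differentiable _) fun h0 => ?_).continuousAt
      have := ((xiF_zero_iff hRH).mp h0).1
      simp at this
      exact hx2 (by rw [this]; norm_num)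
    exact (ContinuousAt.comp (f := fun t : ℝ => (x : ℂ) + t * I) (g := F) h4
      (by fun_prop)).continuousWithinAt
  have hvi : ∀ x : ℝ, x = 1 / 2 + y ∨ x = 1 / 2 - y → ∀ a b, h1 ≤ a → a ≤ b → b ≤ h2 →
      IntervalIntegrable (fun t : ℝ => F (x + t * I)) volume a b := by
    intro x hx a b ha hab hb
    apply ContinuousOn.intervalIntegrable
    rw [uIcc_of_le hab]
    exact hvert x hx a b ha hb
  -- the bound for a rectangle between two good cuts
  have hrb : ∀ a b, (∀ w, Xr w = 0 → α / 2 ≤ |w - a|) → (∀ w, Xr w = 0 → α / 2 ≤ |w - b|) →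
      h1 ≤ a → a + α ≤ b → b ≤ h2 →
      ‖rInt F (1 / 2 - y) (1 / 2 + y) a b‖ ≤ 2 * (1 + 2 * y / α) * ∫ t in a..b, G t := by
    intro a b ha' hb' h3 h4 h5
    refine S_bad hα hy h4 (hGi.mono_set (Ioc_subset_Ioc h3 h5))
      (hvert _ (Or.inl rfl) a b h3 h5) (hvert _ (Or.inr rfl) a b h3 h5) ?_ ?_ ?_ ?_ hG0
    · intro t ht
      refine hG t ⟨h3.trans ht.1, ht.2.trans h5⟩ _ (by simp [abs_of_pos hy])
        (by simpa using ⟨h3.trans ht.1, ht.2.trans h5⟩) (by simp [hα.le])
        (Or.inl (by simp))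
    · intro t ht
      refine hG t ⟨h3.trans ht.1, ht.2.trans h5⟩ _ (by simp [abs_of_pos hy])
        (by simpa using ⟨h3.trans ht.1, ht.2.trans h5⟩) (by simp [hα.le])
        (Or.inr (Or.inl (by simp)))
    · intro t ht x hx
      refine hG t ⟨h3.trans ht.1, by linarith [ht.2]⟩ _ ?_ ?_ ?_ (Or.inr (Or.inr ?_))
      · simp only [add_re, ofReal_re, mul_re, I_re, mul_zero, ofReal_im, I_im, mul_one,
          sub_self, add_zero]
        rw [abs_le]
        constructor <;> linarith [hx.1, hx.2]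
      · have h6 : a ≤ h2 := by linarith
        simpa using ⟨h3, h6⟩
      · simp only [add_im, ofReal_im, mul_im, ofReal_re, I_im, mul_one, I_re, mul_zero,
          add_zero, zero_add]
        rw [abs_le]
        constructor <;> linarith [ht.1, ht.2]
      · simpa using ha'
    · intro t ht x hx
      refine hG t ⟨by linarith [ht.1], ht.2.trans h5⟩ _ ?_ ?_ ?_ (Or.inr (Or.inr ?_))
      · simp only [add_re, ofReal_re, mul_re, I_re, mul_zero, ofReal_im, I_im, mul_one,
          sub_self, add_zero]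
        rw [abs_le]
        constructor <;> linarith [hx.1, hx.2]
      · have h6 : h1 ≤ b := by linarith
        simpa using ⟨h6, h5⟩
      · simp only [add_im, ofReal_im, mul_im, ofReal_re, I_im, mul_one, I_re, mul_zero,
          add_zero, zero_add]
        rw [abs_le]
        constructor <;> linarith [ht.1, ht.2]
      · simpa using hb'
  -- the residue at an isolated zero
  have hres : ∀ z, Xr z = 0 → ¬ badz α z → h1 ≤ z - α / 2 → z + α / 2 ≤ h2 →
      rInt F (1 / 2 - y) (1 / 2 + y) (z - α / 2) (z + α / 2) = R z := by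
    intro z hz hbz h3 h4
    exact S_cell hRH hα hy (fun s hs => hN s (hrect _ _ h3 h4 s hs)) hz hbz
  have hresb : ∀ z, Xr z = 0 → ¬ badz α z → h1 ≤ z - α / 2 → z + α / 2 ≤ h2 →
      ‖R z‖ ≤ 2 * (1 + 2 * y / α) * ∫ t in Ioc (z - α / 2) (z + α / 2), G t := by
    intro z hz hbz h3 h4
    rw [← hres z hz hbz h3 h4, ← intervalIntegral.integral_of_le (by linarith)]
    refine hrb _ _ ?_ ?_ h3 (by linarith) h4
    · intro w hw
      rcases eq_or_ne w z with rfl | hne
      · rw [show w - (w - α / 2) = α / 2 by ring]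
        exact le_abs_self _
      · have h5 := S_iso_dist hbz hw hne
        have h6 : |w - z| ≤ |w - (z - α / 2)| + α / 2 := by
          have := abs_sub_abs_le_abs_sub (w - z) (w - (z - α / 2))
          rw [show w - z - (w - (z - α / 2)) = -(α / 2) by ring, abs_neg,
            abs_of_pos (by linarith : 0 < α / 2)] at this
          linarith
        linarith
    · intro w hw
      rcases eq_or_ne w z with rfl | hne
      · rw [show w - (w + α / 2) = -(α / 2) by ring, abs_neg]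
        exact le_abs_self _
      · have h5 := S_iso_dist hbz hw hne
        have h6 : |w - z| ≤ |w - (z + α / 2)| + α / 2 := by
          have := abs_sub_abs_le_abs_sub (w - z) (w - (z + α / 2))
          rw [show w - z - (w - (z + α / 2)) = α / 2 by ring,
            abs_of_pos (by linarith : 0 < α / 2)] at this
          linarith
        linarith
  -- alignment
  set W : ℝ → ℝ → ℂ := fun a b => rInt F (1 / 2 - y) (1 / 2 + y) a b - ∑ z ∈ isoZ α a b, R z
    with hW
  set u : ℂ := W h1 h2 with hu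
  obtain ⟨c, hc, hcu⟩ : ∃ c : ℂ, ‖c‖ ≤ 1 ∧ (c * u).re = -‖u‖ := by
    rcases eq_or_ne u 0 with h0 | h0
    · exact ⟨0, by simp, by simp [h0]⟩
    · have h1 : (0 : ℝ) < ‖u‖ := norm_pos_iff.mpr h0
      refine ⟨-((starRingEnd ℂ) u / ‖u‖), ?_, ?_⟩
      · rw [norm_neg, norm_div, RCLike.norm_conj, Complex.norm_real, norm_norm, div_self h1.ne']
      · have h2 : -((starRingEnd ℂ) u / (‖u‖ : ℂ)) * u = ((-‖u‖ : ℝ) : ℂ) := by
          have h3 : (starRingEnd ℂ) u * u = ((‖u‖ ^ 2 : ℝ) : ℂ) := by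
            rw [mul_comm, Complex.mul_conj, Complex.normSq_eq_norm_sq]
          have h4 : ((‖u‖ : ℝ) : ℂ) ≠ 0 := by exact_mod_cast h1.ne'
          rw [neg_mul, div_mul_eq_mul_div, h3]
          push_cast
          field_simp
        rw [h2, ofReal_re]
  have htile := tile (Z := Z) (h1 := h1) (h2 := h2) hα
    (fun a b => (c * W a b).re)
    (fun t => 4 * (1 + 2 * y / α) * G t) (badz α)
    (by
      intro z _ w hw hne hlt
      exact Or.inr ⟨w, ((hZm w).mp hw).2, hne, hlt⟩)
    (fun z hz => hc1 z ((hZm z).mp hz).2)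
    (by
      intro a b d ha hb hd h3 h4 h5 h6
      have e1 := rInt_split (f := F) (a := 1 / 2 - y) (b := 1 / 2 + y) (c := a) (d := b) (e := d)
        (hvi _ (Or.inl rfl) _ _ h3 h4 (h5.trans h6))
        (hvi _ (Or.inl rfl) _ _ (h3.trans h4) h5 h6)
        (hvi _ (Or.inr rfl) _ _ h3 h4 (h5.trans h6))
        (hvi _ (Or.inr rfl) _ _ (h3.trans h4) h5 h6)
      have e2 := S_isoZ_split (α := α) hα h4 h5 (hgood b (h3.trans h4) (h5.trans h6) hb) (R := R)
      have e3 : W a d = W a b + W b d := by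
        simp only [hW, e1, e2]
        ring
      simp only [e3, mul_add, add_re])
    (by
      intro a b ha hb h3 h4 h5 h6
      have h0 : rInt F (1 / 2 - y) (1 / 2 + y) a b = 0 := by
        refine rInt_zero (by linarith) h4 fun s hs =>
          (hN s (hrect _ _ h3 h5 s hs)).div (xiF_differentiable s) fun h0 => ?_
        obtain ⟨_, h7⟩ := (xiF_zero_iff hRH).mp h0
        have h8 : s.im ∈ Z := hnz _ h7 (h3.trans hs.2.2.1) (hs.2.2.2.trans h5)
        have h9 := ha _ h8
        have h10 := hb _ h8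
        refine h6 _ h8 ⟨lt_of_le_of_ne hs.2.2.1 ?_, lt_of_le_of_ne hs.2.2.2 ?_⟩
        · intro h11
          rw [← h11, sub_self, abs_zero] at h9
          linarith
        · intro h11
          rw [h11, sub_self, abs_zero] at h10
          linarith
      have h7 : isoZ α a b = ∅ := by
        rw [Finset.eq_empty_iff_forall_notMem]
        intro w hw
        obtain ⟨h8, h9, _⟩ := mem_isoZ.mp hw
        exact h6 w (hnz w h9 (by linarith [h8.1]) (by linarith [h8.2])) h8
      simp only [hW, h0, h7, Finset.sum_empty, sub_self, mul_zero, zero_re, le_refl])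
    (by
      intro z hz hbz _ h3 h4
      have h5 := ((hZm z).mp hz).2
      simp only [hW, hres z h5 hbz h3 h4, S_isoZ_self hα h5 hbz, Finset.sum_singleton, sub_self,
        mul_zero, zero_re, le_refl])
    (by
      intro a b ha hb h3 h4 h5
      have ha' := hgood a h3 (by linarith) ha
      have hb' := hgood b (by linarith) h5 hb
      have hab : a ≤ b := by linarith
      have h6 := hrb a b ha' hb' h3 h4 h5
      have h7 : ‖∑ z ∈ isoZ α a b, R z‖ ≤ 2 * (1 + 2 * y / α) * ∫ t in a..b, G t := by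
        refine (norm_sum_le _ _).trans ?_
        rw [intervalIntegral.integral_of_le hab]
        refine le_trans (Finset.sum_le_sum fun z hz => ?_) (b := ∑ z ∈ isoZ α a b,
          2 * (1 + 2 * y / α) * ∫ t in Ioc (z - α / 2) (z + α / 2), G t) ?_
        · obtain ⟨⟨h8, h9⟩, h10, h11⟩ := mem_isoZ.mp hz
          have h12 := ha' z h10
          have h13 := hb' z h10
          rw [abs_of_pos (by linarith)] at h12
          rw [abs_of_neg (by linarith)] at h13
          exact hresb z h10 h11 (by linarith) (by linarith)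
        · rw [← Finset.mul_sum]
          exact mul_le_mul_of_nonneg_left
            (S_sum_cells ha' hb' hG0 (hGi.mono_set (Ioc_subset_Ioc h3 h5))) (by positivity)
      have h8 : ‖c * W a b‖ ≤ 4 * (1 + 2 * y / α) * ∫ t in a..b, G t := by
        rw [norm_mul]
        have h9 : ‖W a b‖ ≤ 4 * (1 + 2 * y / α) * ∫ t in a..b, G t := by
          refine (norm_sub_le _ _).trans ?_
          linarith
        calc ‖c‖ * ‖W a b‖ ≤ 1 * ‖W a b‖ := mul_le_mul_of_nonneg_right hc (norm_nonneg _)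
          _ = ‖W a b‖ := one_mul _
          _ ≤ _ := h9
      rw [intervalIntegral.integral_const_mul]
      exact (abs_le.mp ((abs_re_le_norm _).trans h8)).1)
    (fun t => mul_nonneg (by positivity) (hG0 t)) (hGi.const_mul _) h2
    (fun z hz => hc2 z ((hZm z).mp hz).2) hh le_rfl
  -- compare the two bad sets
  have hsub : badE Z (badz α) α ⊆ EE α := by
    rintro t ⟨z, hz, hb, ht⟩
    exact ⟨z, ((hZm z).mp hz).2, hb, ht⟩
  have hI0 : 0 ≤ ∫ t in Ioc h1 h2 ∩ EE α, G t := integral_nonneg fun t => hG0 t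
  have hmono : ∫ t in Ioc h1 h2 ∩ badE Z (badz α) α, 4 * (1 + 2 * y / α) * G t ≤
      4 * (1 + 2 * y / α) * ∫ t in Ioc h1 h2 ∩ EE α, G t := by
    rw [MeasureTheory.integral_const_mul]
    refine mul_le_mul_of_nonneg_left ?_ (by positivity)
    refine setIntegral_mono_set (hGi.mono_set inter_subset_left)
      (Filter.Eventually.of_forall fun t => hG0 t) ?_
    exact (inter_subset_inter_right _ hsub).eventuallyLE
  have hfin : 4 * (1 + 2 * y / α) * ∫ t in Ioc h1 h2 ∩ EE α, G t ≤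
      16 * (1 + y / α) * ∫ t in Ioc h1 h2 ∩ EE α, G t := by
    refine mul_le_mul_of_nonneg_right ?_ hI0
    have : 0 ≤ y / α := by positivity
    rw [mul_div_assoc]
    linarith
  have h3 : (c * W h1 h2).re = -‖u‖ := by rw [← hu]; exact hcu
  simp only [h3] at htile
  change ‖u‖ ≤ _
  linarith

end Pool.Agent.AHD
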